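import Mathlib

/-!
# Integer lattices cut out by `p`-adic linear conditions
-/

set_option autoImplicit false

namespace Pool.Agent.SST

/-- the least power of `p` which is at least `r⁻¹` -/
theorem exists_exact_pow (p : ℕ) [Fact p.Prime] {r : ℝ} (hr0 : 0 < r) (hr1 : r ≤ 1) :
    ∃ k : ℕ, ((p : ℝ) ^ k)⁻¹ ≤ r ∧ (p : ℝ) ^ k ≤ p * r⁻¹ ∧
      ∀ z : ℚ_[p], ‖z‖ ≤ r → ‖z‖ ≤ (p : ℝ) ^ (-(k : ℤ)) := by
  classical
  have hp1 : (1 : ℝ) < p := by exact_mod_cast (Fact.out : p.Prime).one_lt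
  have hp0 : (0 : ℝ) < p := by linarith
  have hinv : (1 : ℝ) ≤ r⁻¹ := (one_le_inv₀ hr0).mpr hr1
  have hex : ∃ k : ℕ, r⁻¹ ≤ (p : ℝ) ^ k := by
    obtain ⟨n, hn⟩ := pow_unbounded_of_one_lt r⁻¹ hp1
    exact ⟨n, hn.le⟩
  set k := Nat.find hex with hk
  have hk1 : r⁻¹ ≤ (p : ℝ) ^ k := Nat.find_spec hex
  have hk2 : ∀ m < k, (p : ℝ) ^ m < r⁻¹ := fun m hm => not_le.mp (Nat.find_min hex hm)
  refine ⟨k, ?_, ?_, ?_⟩
  · rw [inv_le_comm₀ (by positivity) hr0]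
    exact hk1
  · rcases Nat.eq_zero_or_pos k with h | h
    · rw [h, pow_zero]
      nlinarith
    · have h1 := hk2 (k - 1) (by omega)
      have h2 : (p : ℝ) ^ k = p * (p : ℝ) ^ (k - 1) := by
        rw [← pow_succ']
        congr 1
        omega
      rw [h2]
      exact mul_le_mul_of_nonneg_left h1.le hp0.le
  · intro z hz
    rcases Nat.eq_zero_or_pos k with h | h
    · rw [h]
      simpa using hz.trans hr1
    · rw [Padic.norm_le_pow_iff_norm_lt_pow_add_one]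
      refine lt_of_le_of_lt hz ?_
      have h1 := hk2 (k - 1) (by omega)
      have h2 : (p : ℝ) ^ (-(k : ℤ) + 1) = ((p : ℝ) ^ (k - 1))⁻¹ := by
        rw [← zpow_natCast, ← zpow_neg]
        congr 1
        omega
      rw [h2, lt_inv_comm₀ hr0 (by positivity)]
      exact h1

/-- a basis of the kernel of a homomorphism from `ℤ ^ N` to a finite group -/
theorem lattice_of_hom {N : ℕ} {A : Type} [AddCommGroup A] [Finite A] (Φ : (Fin N → ℤ) →+ A) :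
    ∃ B : Matrix (Fin N) (Fin N) ℤ, B.det ≠ 0 ∧ B.det.natAbs ≤ Nat.card A ∧
      (∀ j, Φ (fun i => B i j) = 0) ∧ ∀ x, Φ x = 0 → ∃ y, x = B.mulVec y := by
  classical
  let Λ : Submodule ℤ (Fin N → ℤ) := LinearMap.ker Φ.toIntLinearMap
  have hΛ : ∀ x : Fin N → ℤ, x ∈ Λ ↔ Φ x = 0 := fun x => Iff.rfl
  have hcard0 : Nat.card ((Fin N → ℤ) ⧸ Λ) = Nat.card (LinearMap.range Φ.toIntLinearMap) :=
    Nat.card_congr (LinearMap.quotKerEquivRange _).toEquiv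
  have hcard : Nat.card ((Fin N → ℤ) ⧸ Λ) ≤ Nat.card A := by
    rw [hcard0]
    exact Nat.card_le_card_of_injective _ Subtype.val_injective
  -- rank
  have hrank : Module.finrank ℤ Λ = N := by
    apply le_antisymm
    · have := Submodule.finrank_le Λ
      simpa using this
    · set m : ℕ := Nat.card A with hm
      have hm0 : (m : ℤ) ≠ 0 := by
        rw [hm]
        exact_mod_cast Nat.card_pos.ne'
      have hmem : ∀ x : Fin N → ℤ, (m : ℤ) • x ∈ Λ := by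
        intro x
        rw [hΛ, map_zsmul, natCast_zsmul, hm]
        exact card_nsmul_eq_zero'
      let ψ : (Fin N → ℤ) →ₗ[ℤ] Λ := LinearMap.codRestrict Λ ((m : ℤ) • LinearMap.id) hmem
      have hψ : Function.Injective ψ := by
        intro x y hxy
        have h1 : (m : ℤ) • x = (m : ℤ) • y := congrArg Subtype.val hxy
        exact smul_right_injective _ hm0 h1
      have := LinearMap.finrank_le_finrank_of_injective hψ
      simpa using this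
  let bΛ : Module.Basis (Fin N) ℤ Λ := Module.finBasisOfFinrankEq ℤ Λ hrank
  have hdet := Submodule.natAbs_det_basis_change (Pi.basisFun ℤ (Fin N)) Λ bΛ
  let B : Matrix (Fin N) (Fin N) ℤ := Matrix.of fun i j => (bΛ j : Fin N → ℤ) i
  have hB : B.det.natAbs = Nat.card ((Fin N → ℤ) ⧸ Λ) := by
    rw [← hdet, Pi.basisFun_det, ← Matrix.det_transpose]
    rfl
  have hBpos : 0 < Nat.card ((Fin N → ℤ) ⧸ Λ) := by
    rw [hcard0]
    exact Nat.card_pos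
  refine ⟨B, ?_, hB.le.trans hcard, fun j => (bΛ j).2, ?_⟩
  · intro h
    rw [h] at hB
    simp only [Int.natAbs_zero] at hB
    omega
  · intro x hx
    have hxΛ : x ∈ Λ := (hΛ x).mpr hx
    refine ⟨fun j => bΛ.repr ⟨x, hxΛ⟩ j, ?_⟩
    have h1 := congrArg Subtype.val (bΛ.sum_repr ⟨x, hxΛ⟩)
    funext i
    have h2 := congrFun h1 i
    simp only [Submodule.coe_sum, Submodule.coe_smul, Finset.sum_apply, Pi.smul_apply,
      smul_eq_mul] at h2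
    rw [← h2, Matrix.mulVec, dotProduct]
    refine Finset.sum_congr rfl fun j _ => ?_
    rw [mul_comm]
    rfl

/-- the congruence condition attached to one linear form -/
theorem exists_hom (p : ℕ) [Fact p.Prime] {N : ℕ} (l : Fin N → ℚ_[p]) (c : ℕ)
    (hc : ∀ j, ‖(p : ℚ_[p]) ^ c * l j‖ ≤ 1) {r : ℝ} {k : ℕ} (hk1 : ((p : ℝ) ^ k)⁻¹ ≤ r)
    (hk3 : ∀ z : ℚ_[p], ‖z‖ ≤ r → ‖z‖ ≤ (p : ℝ) ^ (-(k : ℤ))) :
    ∃ φ : (Fin N → ℤ) →+ ZMod (p ^ (k + c)), ∀ x : Fin N → ℤ, φ x = 0 ↔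
      ‖∑ j, l j * ((x j : ℤ) : ℚ_[p])‖ ≤ r := by
  have hp0 : (0 : ℝ) < p := by exact_mod_cast (Fact.out : p.Prime).pos
  obtain ⟨α, hα⟩ : ∃ α : Fin N → ℤ_[p], ∀ j,
      ((α j : ℤ_[p]) : ℚ_[p]) = (p : ℚ_[p]) ^ c * l j :=
    ⟨fun j => ⟨_, hc j⟩, fun _ => rfl⟩
  let φ : (Fin N → ℤ) →+ ZMod (p ^ (k + c)) :=
    AddMonoidHom.mk' (fun x => PadicInt.toZModPow (p := p) (k + c) (∑ j, α j * (x j : ℤ_[p])))
      (by
        intro x y
        rw [← map_add, ← Finset.sum_add_distrib]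
        congr 1
        refine Finset.sum_congr rfl fun j _ => ?_
        rw [Pi.add_apply, Int.cast_add, mul_add])
  refine ⟨φ, fun x => ?_⟩
  have e1 : φ x = PadicInt.toZModPow (p := p) (k + c) (∑ j, α j * (x j : ℤ_[p])) := rfl
  rw [e1, ← RingHom.mem_ker, PadicInt.ker_toZModPow, ← PadicInt.norm_le_pow_iff_mem_span_pow,
    PadicInt.norm_def]
  have e2 : ((∑ j, α j * (x j : ℤ_[p]) : ℤ_[p]) : ℚ_[p]) =
      (p : ℚ_[p]) ^ c * ∑ j, l j * ((x j : ℤ) : ℚ_[p]) := by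
    rw [PadicInt.coe_sum, Finset.mul_sum]
    refine Finset.sum_congr rfl fun j _ => ?_
    rw [PadicInt.coe_mul, PadicInt.coe_intCast, hα]
    ring
  rw [e2, norm_mul, norm_pow, Padic.norm_p]
  have h3 : (0 : ℝ) < (p : ℝ) ^ c := pow_pos hp0 c
  have e3 : (p : ℝ) ^ (-((k + c : ℕ) : ℤ)) = ((p : ℝ)⁻¹) ^ c * ((p : ℝ) ^ k)⁻¹ := by
    rw [zpow_neg, zpow_natCast, pow_add, mul_inv, inv_pow]
    ring
  rw [e3]
  have h5 : (0 : ℝ) < ((p : ℝ)⁻¹) ^ c := by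
    rw [inv_pow]; exact inv_pos.mpr h3
  rw [mul_le_mul_iff_right₀ h5]
  constructor
  · intro h
    exact h.trans hk1
  · intro h
    have := hk3 _ h
    rwa [zpow_neg, zpow_natCast] at this

/-- a common denominator -/
theorem exists_common_den {T : Type} [Fintype T] (p : T → ℕ) [∀ t, Fact (p t).Prime] {N : ℕ}
    (L : ∀ t, Matrix (Fin N) (Fin N) ℚ_[p t]) :
    ∃ c : ℕ, ∀ t i j, ‖(p t : ℚ_[p t]) ^ c * L t i j‖ ≤ 1 := by
  have hp2 : ∀ t, (2 : ℝ) ≤ p t := fun t => by exact_mod_cast (Fact.out : (p t).Prime).two_le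
  have hp0 : ∀ t, (0 : ℝ) < p t := fun t => by linarith [hp2 t]
  obtain ⟨c, hc⟩ := pow_unbounded_of_one_lt (∑ t, ∑ i, ∑ j, ‖L t i j‖) (one_lt_two : (1 : ℝ) < 2)
  refine ⟨c, fun t i j => ?_⟩
  have h1 : ‖L t i j‖ ≤ ∑ t, ∑ i, ∑ j, ‖L t i j‖ := by
    calc ‖L t i j‖ ≤ ∑ j, ‖L t i j‖ :=
          Finset.single_le_sum (f := fun j => ‖L t i j‖) (fun _ _ => norm_nonneg _)
            (Finset.mem_univ j)
      _ ≤ ∑ i, ∑ j, ‖L t i j‖ :=
          Finset.single_le_sum (f := fun i => ∑ j, ‖L t i j‖)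
            (fun _ _ => Finset.sum_nonneg fun _ _ => norm_nonneg _) (Finset.mem_univ i)
      _ ≤ ∑ t, ∑ i, ∑ j, ‖L t i j‖ :=
          Finset.single_le_sum (f := fun t => ∑ i, ∑ j, ‖L t i j‖)
            (fun _ _ => Finset.sum_nonneg fun _ _ => Finset.sum_nonneg fun _ _ => norm_nonneg _)
            (Finset.mem_univ t)
  rw [norm_mul, norm_pow, Padic.norm_p]
  have h2 : ‖L t i j‖ ≤ (p t : ℝ) ^ c :=
    h1.trans (hc.le.trans (pow_le_pow_left₀ (by norm_num) (hp2 t) c))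
  rw [inv_pow]
  have h3 : (0 : ℝ) < (p t : ℝ) ^ c := pow_pos (hp0 t) c
  calc ((p t : ℝ) ^ c)⁻¹ * ‖L t i j‖ ≤ ((p t : ℝ) ^ c)⁻¹ * (p t : ℝ) ^ c :=
        mul_le_mul_of_nonneg_left h2 (inv_nonneg.mpr h3.le)
    _ = 1 := inv_mul_cancel₀ h3.ne'

theorem exists_lattice {T : Type} [Fintype T] (p : T → ℕ) [∀ t, Fact (p t).Prime] {N : ℕ}
    (L : ∀ t, Matrix (Fin N) (Fin N) ℚ_[p t]) :
    ∃ C : ℝ, ∀ r : T → Fin N → ℝ, (∀ t i, 0 < r t i ∧ r t i ≤ 1) →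
      ∃ B : Matrix (Fin N) (Fin N) ℤ, B.det ≠ 0 ∧
        |((B.det : ℤ) : ℝ)| ≤ Real.exp C * ∏ t, ∏ i, (r t i)⁻¹ ∧
        (∀ t i j, ‖(L t * B.map (Int.castRingHom ℚ_[p t])) i j‖ ≤ r t i) ∧
        ∀ x : Fin N → ℤ, (∀ t i, ‖(L t).mulVec (fun j => ((x j : ℤ) : ℚ_[p t])) i‖ ≤ r t i) →
          ∃ y : Fin N → ℤ, x = B.mulVec y := by
  classical
  have hp1 : ∀ t, (1 : ℝ) < p t := fun t => by exact_mod_cast (Fact.out : (p t).Prime).one_lt
  have hp0 : ∀ t, (0 : ℝ) < p t := fun t => by linarith [hp1 t]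
  obtain ⟨c, hc⟩ := exists_common_den p L
  have hprod : 0 < ∏ t, ∏ _i : Fin N, (p t : ℝ) ^ (c + 1) :=
    Finset.prod_pos fun t _ => Finset.prod_pos fun _ _ => pow_pos (hp0 t) _
  refine ⟨Real.log (∏ t, ∏ _i : Fin N, (p t : ℝ) ^ (c + 1)), fun r hr => ?_⟩
  rw [Real.exp_log hprod]
  choose k hk1 hk2 hk3 using fun (t : T) (i : Fin N) => exists_exact_pow (p t) (hr t i).1 (hr t i).2
  choose φ hφ using fun (q : T × Fin N) => exists_hom (p q.1) (L q.1 q.2) c (hc q.1 q.2)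
    (hk1 q.1 q.2) (hk3 q.1 q.2)
  have hne : ∀ q : T × Fin N, NeZero (p q.1 ^ (k q.1 q.2 + c)) := fun q =>
    ⟨pow_ne_zero _ (Fact.out : (p q.1).Prime).ne_zero⟩
  obtain ⟨B, hB0, hB1, hB2, hB3⟩ := lattice_of_hom (AddMonoidHom.pi φ)
  have hcard : Nat.card (∀ q : T × Fin N, ZMod (p q.1 ^ (k q.1 q.2 + c))) =
      ∏ q : T × Fin N, p q.1 ^ (k q.1 q.2 + c) := by
    rw [Nat.card_pi]
    refine Finset.prod_congr rfl fun q _ => ?_
    rw [Nat.card_zmod]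
  rw [hcard] at hB1
  refine ⟨B, hB0, ?_, ?_, ?_⟩
  · have h1 : |((B.det : ℤ) : ℝ)| = (B.det.natAbs : ℝ) := by
      rw [Nat.cast_natAbs, Int.cast_abs]
    rw [h1]
    calc (B.det.natAbs : ℝ)
        ≤ ((∏ q : T × Fin N, p q.1 ^ (k q.1 q.2 + c) : ℕ) : ℝ) := by exact_mod_cast hB1
      _ = ∏ t, ∏ i, (p t : ℝ) ^ (k t i + c) := by
          push_cast
          rw [Fintype.prod_prod_type]
      _ ≤ ∏ t, ∏ i, ((p t : ℝ) ^ (c + 1) * (r t i)⁻¹) := by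
          refine Finset.prod_le_prod (fun t _ => Finset.prod_nonneg fun i _ =>
            pow_nonneg (hp0 t).le _) fun t _ => ?_
          refine Finset.prod_le_prod (fun i _ => pow_nonneg (hp0 t).le _) fun i _ => ?_
          rw [pow_add, pow_succ]
          have h3 : (0 : ℝ) < (p t : ℝ) ^ c := pow_pos (hp0 t) c
          calc (p t : ℝ) ^ k t i * (p t : ℝ) ^ c ≤ (p t * (r t i)⁻¹) * (p t : ℝ) ^ c :=
                mul_le_mul_of_nonneg_right (hk2 t i) h3.le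
            _ = (p t : ℝ) ^ c * p t * (r t i)⁻¹ := by ring
      _ = (∏ t, ∏ _i : Fin N, (p t : ℝ) ^ (c + 1)) * ∏ t, ∏ i, (r t i)⁻¹ := by
          rw [← Finset.prod_mul_distrib]
          refine Finset.prod_congr rfl fun t _ => ?_
          rw [← Finset.prod_mul_distrib]
  · intro t i j
    have h1 := (hφ (t, i) (fun l => B l j)).mp (congrFun (hB2 j) (t, i))
    have h2 : (L t * B.map (Int.castRingHom ℚ_[p t])) i j =
        ∑ l, L t i l * ((B l j : ℤ) : ℚ_[p t]) := by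
      rw [Matrix.mul_apply]
      rfl
    rw [h2]
    exact h1
  · intro x hx
    apply hB3
    funext q
    exact (hφ q x).mpr (hx q.1 q.2)

end Pool.Agent.SST
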