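import Pool.Agent.SST.SchmidtReal
import Pool.Agent.SST.Lattice

/-! Schlickewei's subspace theorem for real and `p`-adic linear forms with algebraic coefficients. -/

set_option autoImplicit false

open Filter Topology

namespace Pool.Agent.SST

section Expo

/-- exponents of a finite family of nonnegative functions along an ultrafilter -/
lemma sk_exists_exponents {J X : Type} [Fintype J] (𝒰 : Ultrafilter X) (n : X → ℕ)
    (hn : Tendsto n (𝒰 : Filter X) atTop) (f : J → X → ℝ) (h0 : ∀ j F, 0 ≤ f j F) (κ : J → ℝ)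
    (hκ : ∀ j, 0 ≤ κ j) (c : ℝ) (hc : 0 ≤ c)
    (hub : ∀ j F, f j F ≤ Real.exp (c + n F * κ j)) (δ : ℝ) (hδ : 0 ≤ δ)
    (hprod : ∀ F, ∏ j, f j F ≤ Real.exp (δ - δ * n F)) :
    ∃ e : J → ℝ, (∀ j, e j ≤ κ j) ∧ ∑ j, e j ≤ -δ ∧
      ∀ ε : ℝ, 0 < ε → ∀ᶠ F in (𝒰 : Filter X), ∀ j, f j F ≤ Real.exp (n F * (e j + ε)) := by
  classical
  set M : ℝ := ∑ j, κ j + δ with hM
  have hM0 : 0 ≤ M := add_nonneg (Finset.sum_nonneg fun j _ => hκ j) hδ
  let g : J → X → ℝ := fun j F =>
    if f j F = 0 then -M else max (Real.log (f j F) / n F) (-M)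
  have hg1 : ∀ j F, 0 < n F → f j F ≤ Real.exp (n F * g j F) := by
    intro j F hnF
    simp only [g]
    split_ifs with hf
    · rw [hf]
      exact (Real.exp_pos _).le
    · have h1 : 0 < f j F := lt_of_le_of_ne (h0 j F) (Ne.symm hf)
      have hnR : (0 : ℝ) < n F := Nat.cast_pos.mpr hnF
      calc f j F = Real.exp (Real.log (f j F)) := (Real.exp_log h1).symm
        _ = Real.exp (n F * (Real.log (f j F) / n F)) := by
            rw [mul_div_cancel₀ _ hnR.ne']
        _ ≤ _ := Real.exp_le_exp.mpr (mul_le_mul_of_nonneg_left (le_max_left _ _) hnR.le)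
  have hg2 : ∀ j F, -M ≤ g j F := by
    intro j F
    simp only [g]
    split_ifs
    · exact le_rfl
    · exact le_max_right _ _
  have hg3 : ∀ j F, 0 < n F → g j F ≤ c / n F + κ j := by
    intro j F hnF
    have hnR : (0 : ℝ) < n F := Nat.cast_pos.mpr hnF
    have h00 : 0 ≤ c / n F := div_nonneg hc hnR.le
    have hκj := hκ j
    simp only [g]
    split_ifs with hf
    · linarith
    · refine max_le ?_ (by linarith)
      have h1 : 0 < f j F := lt_of_le_of_ne (h0 j F) (Ne.symm hf)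
      have h2 : Real.log (f j F) ≤ c + n F * κ j := by
        rw [Real.log_le_iff_le_exp h1]
        exact hub j F
      calc _ ≤ (c + n F * κ j) / n F := div_le_div_of_nonneg_right h2 hnR.le
        _ = c / n F + κ j := by
            rw [add_div, mul_div_cancel_left₀ _ hnR.ne']
  have hlim : ∀ j, ∃ e : ℝ, Tendsto (g j) 𝒰 (𝓝 e) := by
    intro j
    have hev : ∀ᶠ F in (𝒰 : Filter X), g j F ∈ Set.Icc (-M) (c + κ j) := by
      filter_upwards [hn.eventually_gt_atTop 0] with F hF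
      refine ⟨hg2 j F, (hg3 j F hF).trans ?_⟩
      have : c / n F ≤ c := div_le_self hc (by exact_mod_cast hF)
      linarith
    obtain ⟨x, _, hx⟩ := (isCompact_Icc (a := -M) (b := c + κ j)).ultrafilter_le_nhds
      (𝒰.map (g j)) (by
        rw [Filter.le_principal_iff]
        exact hev)
    exact ⟨x, hx⟩
  choose e he using hlim
  have hninv : Tendsto (fun F => (1 : ℝ) / n F) 𝒰 (𝓝 0) := by
    have h1 : Tendsto (fun F => ((n F : ℕ) : ℝ)) 𝒰 atTop := tendsto_natCast_atTop_atTop.comp hn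
    exact h1.const_div_atTop 1
  have he1 : ∀ j, e j ≤ κ j := by
    intro j
    have h1 : Tendsto (fun F => c * ((1 : ℝ) / n F) + κ j) 𝒰 (𝓝 (c * 0 + κ j)) :=
      (hninv.const_mul c).add_const (κ j)
    rw [mul_zero, zero_add] at h1
    refine le_of_tendsto_of_tendsto (he j) h1 ?_
    filter_upwards [hn.eventually_gt_atTop 0] with F hF
    refine (hg3 j F hF).trans (le_of_eq ?_)
    ring
  refine ⟨e, he1, ?_, ?_⟩
  · by_cases hex : ∃ j, e j ≤ -M
    · obtain ⟨j₀, hj₀⟩ := hex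
      have h1 : ∑ j, e j = e j₀ + ∑ j ∈ Finset.univ.erase j₀, e j :=
        (Finset.add_sum_erase _ _ (Finset.mem_univ j₀)).symm
      have h2 : ∑ j ∈ Finset.univ.erase j₀, e j ≤ ∑ j, κ j := by
        calc ∑ j ∈ Finset.univ.erase j₀, e j ≤ ∑ j ∈ Finset.univ.erase j₀, κ j :=
              Finset.sum_le_sum fun j _ => he1 j
          _ ≤ ∑ j, κ j := Finset.sum_le_sum_of_subset_of_nonneg (Finset.subset_univ _)
              fun j _ _ => hκ j
      rw [h1]
      linarith
    · push Not at hex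
      have hev : ∀ᶠ F in (𝒰 : Filter X), ∀ j, -M < g j F :=
        Filter.eventually_all.mpr fun j => (he j).eventually_const_lt (hex j)
      have h1 : Tendsto (fun F => ∑ j, g j F) 𝒰 (𝓝 (∑ j, e j)) :=
        tendsto_finsetSum _ fun j _ => he j
      have h2 : Tendsto (fun F => -δ + δ * ((1 : ℝ) / n F)) 𝒰 (𝓝 (-δ + δ * 0)) :=
        (hninv.const_mul δ).const_add _
      rw [mul_zero, add_zero] at h2
      refine le_of_tendsto_of_tendsto h1 h2 ?_
      filter_upwards [hev, hn.eventually_gt_atTop 0] with F hF hF0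
      have hnR : (0 : ℝ) < n F := Nat.cast_pos.mpr hF0
      have hne : ∀ j, f j F ≠ 0 := by
        intro j hf
        have := hF j
        simp only [g, hf, if_true] at this
        exact lt_irrefl _ this
      have hval : ∀ j, g j F = Real.log (f j F) / n F := by
        intro j
        have h5 := hF j
        simp only [g, hne j, if_false] at h5 ⊢
        rcases le_total (Real.log (f j F) / n F) (-M) with h6 | h6
        · rw [max_eq_right h6] at h5
          exact absurd h5 (lt_irrefl _)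
        · exact max_eq_left h6
      have h7 : ∑ j, Real.log (f j F) ≤ δ - δ * n F := by
        rw [← Real.log_prod (fun j _ => hne j), Real.log_le_iff_le_exp
          (Finset.prod_pos fun j _ => lt_of_le_of_ne (h0 j F) (Ne.symm (hne j)))]
        exact hprod F
      show ∑ j, g j F ≤ -δ + δ * (1 / n F)
      calc ∑ j, g j F = (∑ j, Real.log (f j F)) / n F := by
            rw [Finset.sum_div]
            exact Finset.sum_congr rfl fun j _ => hval j
        _ ≤ (δ - δ * n F) / n F := div_le_div_of_nonneg_right h7 hnR.le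
        _ = -δ + δ * (1 / n F) := by field_simp; ring
  · intro ε hε
    have h1 : ∀ᶠ F in (𝒰 : Filter X), ∀ j, g j F < e j + ε :=
      Filter.eventually_all.mpr fun j => (he j).eventually_lt_const (by linarith)
    filter_upwards [h1, hn.eventually_gt_atTop 0] with F hF hF0 j
    refine (hg1 j F hF0).trans (Real.exp_le_exp.mpr ?_)
    exact mul_le_mul_of_nonneg_left (hF j).le (Nat.cast_nonneg _)

end Expo

section Places

variable {T : Type}

/-- a family of types indexed by `Option T` -/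
def KO (E₀ : Type) (E : T → Type) : Option T → Type
  | none => E₀
  | some t => E t

instance KO.field (E₀ : Type) (E : T → Type) [Field E₀] [∀ t, Field (E t)] :
    ∀ s, Field (KO E₀ E s)
  | none => inferInstanceAs (Field E₀)
  | some t => inferInstanceAs (Field (E t))

instance KO.numberField (E₀ : Type) (E : T → Type) [Field E₀] [∀ t, Field (E t)] [NumberField E₀]
    [∀ t, NumberField (E t)] : ∀ s, NumberField (KO E₀ E s)
  | none => inferInstanceAs (NumberField E₀)
  | some t => inferInstanceAs (NumberField (E t))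

/-- the absolute values -/
def vO {E₀ : Type} {E : T → Type} [Field E₀] [∀ t, Field (E t)] (v₀ : AbsoluteValue E₀ ℝ)
    (w : ∀ t, AbsoluteValue (E t) ℝ) : ∀ s, AbsoluteValue (KO E₀ E s) ℝ
  | none => v₀
  | some t => w t

/-- the matrices -/
def LO {E₀ : Type} {E : T → Type} {N : ℕ} (L₀ : Matrix (Fin N) (Fin N) E₀)
    (L : ∀ t, Matrix (Fin N) (Fin N) (E t)) : ∀ s, Matrix (Fin N) (Fin N) (KO E₀ E s)
  | none => L₀
  | some t => L t

/-- a number field containing the entries of an algebraic matrix -/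
lemma sk_exists_nf {Ω : Type} [Field Ω] [CharZero Ω] {N : ℕ} (L : Matrix (Fin N) (Fin N) Ω)
    (hL : ∀ i j, IsAlgebraic ℚ (L i j)) :
    ∃ (E : Type) (_ : Field E) (_ : NumberField E) (φ : E →+* Ω) (L' : Matrix (Fin N) (Fin N) E),
      L'.map φ = L := by
  let S₀ : Set Ω := Set.range fun ij : Fin N × Fin N => L ij.1 ij.2
  let E : IntermediateField ℚ Ω := IntermediateField.adjoin ℚ S₀
  have : Finite S₀ := Set.finite_range _
  have hfd : FiniteDimensional ℚ E := IntermediateField.finiteDimensional_adjoin (by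
    rintro _ ⟨ij, rfl⟩
    exact (hL ij.1 ij.2).isIntegral)
  have hnf : NumberField E := { to_finiteDimensional := hfd }
  have hmem : ∀ i j, L i j ∈ E := fun i j => IntermediateField.subset_adjoin ℚ S₀ ⟨(i, j), rfl⟩
  exact ⟨E, inferInstance, hnf, algebraMap E Ω, fun i j => ⟨L i j, hmem i j⟩, by ext i j; rfl⟩

lemma sk_det_ne {Ω E : Type} [Field Ω] [Field E] {N : ℕ} {φ : E →+* Ω}
    {L' : Matrix (Fin N) (Fin N) E} {L : Matrix (Fin N) (Fin N) Ω} (h : L'.map φ = L)
    (hL : L.det ≠ 0) : L'.det ≠ 0 := by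
  intro h0
  apply hL
  rw [← h]
  have h1 := RingHom.map_det φ L'
  rw [h0, map_zero] at h1
  exact h1.symm

/-- the product formula inequality -/
lemma sk_prod_ge [Fintype T] [DecidableEq T] (p : T → ℕ) [∀ t, Fact (p t).Prime]
    (hp : Function.Injective p) (n : ℤ) (hn : n ≠ 0) :
    1 ≤ |(n : ℝ)| * ∏ t, ‖((n : ℤ) : ℚ_[p t])‖ := by
  have h1 : ∀ t, ‖((n : ℤ) : ℚ_[p t])‖ = (((p t : ℝ) ^ (padicValNat (p t) n.natAbs)))⁻¹ := by
    intro t
    have h2 : ((n : ℤ) : ℚ_[p t]) = (((n : ℤ) : ℚ) : ℚ_[p t]) := by push_cast; rfl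
    rw [h2, Padic.eq_padicNorm, padicNorm.eq_zpow_of_nonzero (by exact_mod_cast hn),
      padicValRat.of_int, padicValInt, zpow_neg, zpow_natCast]
    push_cast
    rfl
  have h3 : (∏ t, (p t) ^ (padicValNat (p t) n.natAbs)) ∣ n.natAbs := by
    refine Finset.prod_dvd_of_isRelPrime ?_ ?_
    · intro s _ t _ hst
      have hne : p s ≠ p t := fun h => hst (hp h)
      have h4 : Nat.Coprime (p s) (p t) :=
        (Nat.coprime_primes (Fact.out : (p s).Prime) (Fact.out : (p t).Prime)).mpr hne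
      exact Nat.coprime_iff_isRelPrime.mp (Nat.Coprime.pow _ _ h4)
    · intro t _
      exact pow_padicValNat_dvd
  have h4 : (∏ t, (p t) ^ (padicValNat (p t) n.natAbs)) ≤ n.natAbs :=
    Nat.le_of_dvd (Int.natAbs_pos.mpr hn) h3
  have h5 : (∏ t, ((p t : ℝ)) ^ (padicValNat (p t) n.natAbs)) ≤ |(n : ℝ)| := by
    have h6 : ((∏ t, (p t) ^ (padicValNat (p t) n.natAbs) : ℕ) : ℝ) ≤ (n.natAbs : ℝ) := by
      exact_mod_cast h4
    rw [Nat.cast_natAbs] at h6
    push_cast at h6
    exact h6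
  have h7 : 0 < ∏ t, ((p t : ℝ)) ^ (padicValNat (p t) n.natAbs) := by
    refine Finset.prod_pos fun t _ => pow_pos ?_ _
    exact_mod_cast (Fact.out : (p t).Prime).pos
  rw [Finset.prod_congr rfl fun t _ => h1 t, Finset.prod_inv_distrib, ← div_eq_mul_inv,
    le_div_iff₀ h7, one_mul]
  exact h5

/-- the subspace theorem for real and `p`-adic forms, along an ultrafilter -/
theorem sk_subspace [Fintype T] [DecidableEq T] (p : T → ℕ) [∀ t, Fact (p t).Prime]
    (hp : Function.Injective p) {m : ℕ} (L : Matrix (Fin (m + 1)) (Fin (m + 1)) ℝ)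
    (hLalg : ∀ i j, IsAlgebraic ℚ (L i j)) (hL : L.det ≠ 0)
    (M : ∀ t, Matrix (Fin (m + 1)) (Fin (m + 1)) ℚ_[p t])
    (hMalg : ∀ t i j, IsAlgebraic ℚ (M t i j)) (hM : ∀ t, (M t).det ≠ 0)
    (e : Option T → Fin (m + 1) → ℝ) (hneg : ∑ s, ∑ i, e s i < 0) {X : Type} (𝒰 : Ultrafilter X)
    (n : X → ℕ) (hn : Tendsto n 𝒰 atTop)
    (B : X → Matrix (Fin (m + 1)) (Fin (m + 1)) ℤ) (hB0 : ∀ a, (B a).det ≠ 0)
    (Cb : ℝ)
    (hB1 : ∀ a t i j, ‖(M t * (B a).map (Int.castRingHom ℚ_[p t])) i j‖ ≤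
      Real.exp (n a * e (some t) i + Cb))
    (hB2 : ∀ a, |(((B a).det : ℤ) : ℝ)| ≤
      Real.exp (-(n a * ∑ t, ∑ i, e (some t) i) + Cb))
    (y : X → Fin (m + 1) → ℤ)
    (hx : ∀ ε : ℝ, 0 < ε → ∀ᶠ a in (𝒰 : Filter X), ∀ i,
      |L.mulVec (fun j => (((B a).mulVec (y a) j : ℤ) : ℝ)) i| ≤
        Real.exp (n a * (e none i + ε))) :
    ∃ ℓ : Fin (m + 1) → ℤ, ℓ ≠ 0 ∧
      ∀ᶠ a in (𝒰 : Filter X), ∑ i, ℓ i * (B a).mulVec (y a) i = 0 := by
  classical
  obtain ⟨E₀, iE₀, iE₀', φ, L', hL'⟩ := sk_exists_nf L hLalg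
  choose E iE iE' ψ M' hM' using fun t => sk_exists_nf (M t) (hMalg t)
  let v₀ : AbsoluteValue E₀ ℝ := AbsoluteValue.comp AbsoluteValue.abs φ.injective
  let w : ∀ t, AbsoluteValue (E t) ℝ := fun t =>
    AbsoluteValue.comp (NormedField.toAbsoluteValue ℚ_[p t]) (ψ t).injective
  have hv₀ : ∀ x, v₀ x = |φ x| := fun x => rfl
  have hw : ∀ t x, w t x = ‖ψ t x‖ := fun t x => rfl
  have hwint : ∀ t (k : ℤ), w t (k : E t) = ‖((k : ℤ) : ℚ_[p t])‖ := by
    intro t k
    rw [hw, map_intCast]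
  have hgood : GoodPlaces (KO E₀ E) (vO v₀ w) := by
    constructor
    · rintro (_ | t) k
      · show v₀ (k : E₀) ≤ _
        rw [hv₀, map_intCast]
      · show w t (k : E t) ≤ _
        rw [hwint]
        by_cases hk : k = 0
        · subst hk
          simp
        · refine (Padic.norm_int_le_one k).trans ?_
          exact_mod_cast Int.one_le_abs hk
    · intro k hk
      rw [Fintype.prod_option]
      show 1 ≤ v₀ (k : E₀) * ∏ t, w t (k : E t)
      rw [hv₀, map_intCast, Finset.prod_congr rfl fun t _ => hwint t k]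
      exact sk_prod_ge p hp k hk
  have hsum : ∑ s ∈ Finset.univ.erase (none : Option T), ∑ i, e s i = ∑ t, ∑ i, e (some t) i := by
    have h1 := Finset.add_sum_erase Finset.univ (fun s => ∑ i, e s i)
      (Finset.mem_univ (none : Option T))
    rw [Fintype.sum_option] at h1
    linarith
  have hmul : ∀ (t : T) (Bz : Matrix (Fin (m + 1)) (Fin (m + 1)) ℤ) i j,
      ψ t ((M' t * Bz.map (Int.castRingHom (E t))) i j) =
        (M t * Bz.map (Int.castRingHom ℚ_[p t])) i j := by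
    intro t Bz i j
    rw [Matrix.mul_apply, map_sum, Matrix.mul_apply]
    refine Finset.sum_congr rfl fun k _ => ?_
    rw [map_mul, ← hM' t]
    simp
  exact subspace_ultra (KO E₀ E) (vO v₀ w) hgood none φ hv₀
    (by
      rintro (_ | t) hs z
      · exact absurd rfl hs
      · show w t (z : E t) ≤ 1
        rw [hwint]
        exact Padic.norm_int_le_one z)
    (LO L' M')
    (by
      rintro (_ | t)
      · exact sk_det_ne hL' hL
      · exact sk_det_ne (hM' t) (hM t))
    e hneg 𝒰 n hn B (Eventually.of_forall hB0) Cb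
    (by
      refine Eventually.of_forall fun a => ?_
      rintro (_ | t) hs i j
      · exact absurd rfl hs
      · show w t ((M' t * (B a).map (Int.castRingHom (E t))) i j) ≤ _
        rw [hw, hmul]
        exact hB1 a t i j)
    (by
      refine Eventually.of_forall fun a => ?_
      rw [hsum]
      exact hB2 a)
    y
    (by
      intro ε hε
      filter_upwards [hx ε hε] with a ha i
      have h2 : φ (L'.mulVec (fun j => (((B a).mulVec (y a) j : ℤ) : E₀)) i) =
          L.mulVec (fun j => (((B a).mulVec (y a) j : ℤ) : ℝ)) i := by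
        rw [← hL']
        simp [Matrix.mulVec, dotProduct]
      show |φ (L'.mulVec (fun j => (((B a).mulVec (y a) j : ℤ) : E₀)) i)| ≤ _
      rw [h2]
      exact ha i)

end Places

theorem schlickewei {T : Type} [Fintype T] [DecidableEq T] (p : T → ℕ) [∀ t, Fact (p t).Prime]
    (hp : Function.Injective p) {m : ℕ} (hm : 1 ≤ m)
    (L : Matrix (Fin (m + 1)) (Fin (m + 1)) ℝ) (hLalg : ∀ i j, IsAlgebraic ℚ (L i j))
    (hL : L.det ≠ 0) (M : ∀ t, Matrix (Fin (m + 1)) (Fin (m + 1)) ℚ_[p t])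
    (hMalg : ∀ t i j, IsAlgebraic ℚ (M t i j)) (hM : ∀ t, (M t).det ≠ 0) (δ : ℝ) (hδ : 0 < δ) :
    ∃ F : Finset (Fin (m + 1) → ℤ), 0 ∉ F ∧ ∀ (x : Fin (m + 1) → ℤ) (H : ℝ), 1 ≤ H →
      (∀ i, |((x i : ℤ) : ℝ)| ≤ H) →
      (∏ i, |L.mulVec (fun j => (x j : ℝ)) i|) *
        ∏ t, ∏ i, ‖(M t).mulVec (fun j => ((x j : ℤ) : ℚ_[p t])) i‖ ≤ H ^ (-δ) →
      ∃ b ∈ F, ∑ i, b i * x i = 0 := by
  classical
  -- scale the `p`-adic forms
  obtain ⟨k, hk⟩ : ∃ k : T → ℕ, ∀ t i j, ‖((p t : ℚ_[p t]) ^ k t) * M t i j‖ ≤ 1 := by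
    have h1 : ∀ t, ∃ k : ℕ, ∀ i j, ‖((p t : ℚ_[p t]) ^ k) * M t i j‖ ≤ 1 := by
      intro t
      set R : ℝ := 1 + ∑ i, ∑ j, ‖M t i j‖ with hR
      have hR0 : 0 ≤ ∑ i, ∑ j, ‖M t i j‖ :=
        Finset.sum_nonneg fun i _ => Finset.sum_nonneg fun j _ => norm_nonneg _
      have hRij : ∀ i j, ‖M t i j‖ ≤ R := by
        intro i j
        have h2 : ‖M t i j‖ ≤ ∑ j, ‖M t i j‖ :=
          Finset.single_le_sum (f := fun j => ‖M t i j‖) (fun j _ => norm_nonneg _)
            (Finset.mem_univ j)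
        have h3 : ∑ j, ‖M t i j‖ ≤ ∑ i, ∑ j, ‖M t i j‖ :=
          Finset.single_le_sum (f := fun i => ∑ j, ‖M t i j‖)
            (fun i _ => Finset.sum_nonneg fun j _ => norm_nonneg _) (Finset.mem_univ i)
        linarith
      have hp2 : (2 : ℝ) ≤ p t := by exact_mod_cast (Fact.out : (p t).Prime).two_le
      obtain ⟨k, hk⟩ := pow_unbounded_of_one_lt R (by linarith : (1 : ℝ) < p t)
      refine ⟨k, fun i j => ?_⟩
      rw [norm_mul, norm_pow, Padic.norm_p, inv_pow]
      have hpos : (0 : ℝ) < (p t : ℝ) ^ k := by positivity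
      rw [inv_mul_le_iff₀ hpos, mul_one]
      exact (hRij i j).trans hk.le
    choose k hk using h1
    exact ⟨k, hk⟩
  set M' : ∀ t, Matrix (Fin (m + 1)) (Fin (m + 1)) ℚ_[p t] :=
    fun t => ((p t : ℚ_[p t]) ^ k t) • M t with hM'def
  have hp0 : ∀ t, (p t : ℚ_[p t]) ^ k t ≠ 0 := by
    intro t
    refine pow_ne_zero _ ?_
    exact_mod_cast (Fact.out : (p t).Prime).ne_zero
  have hM'det : ∀ t, (M' t).det ≠ 0 := by
    intro t
    rw [hM'def]
    simp only [Matrix.det_smul]
    exact mul_ne_zero (pow_ne_zero _ (hp0 t)) (hM t)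
  have hM'alg : ∀ t i j, IsAlgebraic ℚ (M' t i j) := by
    intro t i j
    have h1 : M' t i j = ((p t : ℚ_[p t]) ^ k t) * M t i j := rfl
    rw [h1]
    exact ((isAlgebraic_natCast (p t)).pow _).mul (hMalg t i j)
  have hM'le : ∀ t i j, ‖M' t i j‖ ≤ 1 := fun t i j => hk t i j
  have hM'vec : ∀ t (x : Fin (m + 1) → ℤ) i,
      ‖(M' t).mulVec (fun j => ((x j : ℤ) : ℚ_[p t])) i‖ ≤
        ‖(M t).mulVec (fun j => ((x j : ℤ) : ℚ_[p t])) i‖ := by
    intro t x i
    rw [hM'def]
    simp only [Matrix.smul_mulVec, Pi.smul_apply, smul_eq_mul]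
    rw [norm_mul, norm_pow, Padic.norm_p]
    refine mul_le_of_le_one_left (norm_nonneg _) (pow_le_one₀ (by positivity) ?_)
    have hp2 : (1 : ℝ) ≤ p t := by exact_mod_cast (Fact.out : (p t).Prime).one_le
    exact inv_le_one_of_one_le₀ hp2
  have hM'vec1 : ∀ t (x : Fin (m + 1) → ℤ) i,
      ‖(M' t).mulVec (fun j => ((x j : ℤ) : ℚ_[p t])) i‖ ≤ 1 := by
    intro t x i
    rw [Matrix.mulVec, dotProduct]
    refine IsUltrametricDist.norm_sum_le_of_forall_le_of_nonneg (by norm_num) fun j _ => ?_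
    rw [norm_mul]
    exact mul_le_one₀ (hM'le t i j) (norm_nonneg _) (Padic.norm_int_le_one _)
  obtain ⟨Cl, hCl⟩ := exists_lattice p M'
  by_contra hcon
  push Not at hcon
  -- the family of bad vectors
  let X := Finset {b : Fin (m + 1) → ℤ // b ≠ 0}
  have hbad : ∀ F : X, ∃ q : (Fin (m + 1) → ℤ) × ℝ, 1 ≤ q.2 ∧ (∀ i, |((q.1 i : ℤ) : ℝ)| ≤ q.2) ∧
      (∏ i, |L.mulVec (fun j => (q.1 j : ℝ)) i|) *
        ∏ t, ∏ i, ‖(M t).mulVec (fun j => ((q.1 j : ℤ) : ℚ_[p t])) i‖ ≤ q.2 ^ (-δ) ∧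
      ∀ b ∈ F, ∑ i, b.1 i * q.1 i ≠ 0 := by
    intro F
    obtain ⟨x, H, h1, h2, h3, h4⟩ := hcon (F.image Subtype.val) (by
      intro h0
      rw [Finset.mem_image] at h0
      obtain ⟨b, _, hb⟩ := h0
      exact b.2 hb)
    refine ⟨(x, H), h1, h2, h3, fun b hb => h4 b.1 (Finset.mem_image_of_mem _ hb)⟩
  choose q hq1 hq2 hq3 hq4 using hbad
  let n : X → ℕ := fun F => ⌈Real.log (q F).2⌉₊
  have hntop : Tendsto n atTop atTop := by
    rw [tendsto_atTop]
    intro N
    -- the finite box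
    let s := (sr_finite_box (m := m) (Real.exp N)).toFinset
    choose bb hbb using fun x : Fin (m + 1) → ℤ => sr_exists_orth hm x
    let F₀ : X := s.image (fun x => (⟨bb x, (hbb x).1⟩ : {b : Fin (m + 1) → ℤ // b ≠ 0}))
    filter_upwards [eventually_ge_atTop F₀] with F hF
    by_contra hlt
    push Not at hlt
    have h1 : Real.log (q F).2 < N :=
      (Nat.le_ceil (Real.log (q F).2)).trans_lt (by exact_mod_cast hlt)
    have h2 : (q F).2 ≤ Real.exp N := by
      have h3 : 0 < (q F).2 := by linarith [hq1 F]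
      calc (q F).2 = Real.exp (Real.log (q F).2) := (Real.exp_log h3).symm
        _ ≤ Real.exp N := Real.exp_le_exp.mpr h1.le
    have h3 : (q F).1 ∈ s := by
      simp only [s, Set.Finite.mem_toFinset, Set.mem_ofPred_eq]
      exact fun i => (hq2 F i).trans h2
    have h4 := hq4 F ⟨bb (q F).1, (hbb (q F).1).1⟩ (hF (Finset.mem_image.mpr ⟨_, h3, rfl⟩))
    exact h4 (hbb (q F).1).2
  let 𝒰 : Ultrafilter X := Ultrafilter.of atTop
  have h𝒰 : (𝒰 : Filter X) ≤ atTop := Ultrafilter.of_le _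
  have hn : Tendsto n 𝒰 atTop := hntop.mono_left h𝒰
  have hHn : ∀ F, (q F).2 ≤ Real.exp (n F) := by
    intro F
    have h3 : 0 < (q F).2 := by linarith [hq1 F]
    calc (q F).2 = Real.exp (Real.log (q F).2) := (Real.exp_log h3).symm
      _ ≤ Real.exp (n F) := Real.exp_le_exp.mpr (Nat.le_ceil _)
  have hlogn : ∀ F, (n F : ℝ) - 1 ≤ Real.log (q F).2 := by
    intro F
    have := Nat.ceil_lt_add_one (Real.log_nonneg (hq1 F))
    have h5 : (n F : ℝ) < Real.log (q F).2 + 1 := this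
    linarith
  -- upper bound for the real forms
  obtain ⟨c, hc1, hc⟩ : ∃ c : ℝ, 0 ≤ c ∧ ∀ F i, |L.mulVec (fun j => ((q F).1 j : ℝ)) i| ≤
      Real.exp (c + n F) := by
    let c' := 1 + ∑ i, ∑ j, |L i j|
    have hc'0 : 1 ≤ c' := by
      have : 0 ≤ ∑ i, ∑ j, |L i j| :=
        Finset.sum_nonneg fun i _ => Finset.sum_nonneg fun j _ => abs_nonneg _
      linarith
    refine ⟨Real.log c', Real.log_nonneg hc'0, fun F i => ?_⟩
    rw [Real.exp_add, Real.exp_log (by linarith)]
    have h1 : |L.mulVec (fun j => ((q F).1 j : ℝ)) i| ≤ ∑ j, |L i j| * (q F).2 := by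
      rw [Matrix.mulVec, dotProduct]
      refine (Finset.abs_sum_le_sum_abs _ _).trans (Finset.sum_le_sum fun j _ => ?_)
      rw [abs_mul]
      exact mul_le_mul_of_nonneg_left (hq2 F j) (abs_nonneg _)
    have h2 : ∑ j, |L i j| ≤ c' := by
      have := Finset.single_le_sum (f := fun i => ∑ j, |L i j|)
        (fun i _ => Finset.sum_nonneg fun j _ => abs_nonneg _) (Finset.mem_univ i)
      linarith
    rw [← Finset.sum_mul] at h1
    refine h1.trans (mul_le_mul h2 (hHn F) (by linarith [hq1 F]) (by linarith))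
  -- exponents
  let f : Option T × Fin (m + 1) → X → ℝ := fun j F =>
    match j.1 with
    | none => |L.mulVec (fun j => ((q F).1 j : ℝ)) j.2|
    | some t => ‖(M' t).mulVec (fun j => (((q F).1 j : ℤ) : ℚ_[p t])) j.2‖
  let κ : Option T × Fin (m + 1) → ℝ := fun j =>
    match j.1 with
    | none => 1
    | some _ => 0
  obtain ⟨e, he1, he2, he3⟩ := sk_exists_exponents 𝒰 n hn f
    (by
      rintro ⟨_ | t, i⟩ F
      · exact abs_nonneg _
      · exact norm_nonneg _)
    κ
    (by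
      rintro ⟨_ | t, i⟩
      · exact zero_le_one
      · exact le_rfl)
    c hc1
    (by
      rintro ⟨_ | t, i⟩ F
      · show |L.mulVec (fun j => ((q F).1 j : ℝ)) i| ≤ Real.exp (c + n F * 1)
        rw [mul_one]
        exact hc F i
      · show ‖(M' t).mulVec (fun j => (((q F).1 j : ℤ) : ℚ_[p t])) i‖ ≤
          Real.exp (c + n F * 0)
        rw [mul_zero, add_zero]
        exact (hM'vec1 t _ i).trans (Real.one_le_exp hc1))
    δ hδ.le
    (by
      intro F
      rw [Fintype.prod_prod_type, Fintype.prod_option]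
      show (∏ i, |L.mulVec (fun j => ((q F).1 j : ℝ)) i|) *
        ∏ t, ∏ i, ‖(M' t).mulVec (fun j => (((q F).1 j : ℤ) : ℚ_[p t])) i‖ ≤ _
      have h1 : (∏ i, |L.mulVec (fun j => ((q F).1 j : ℝ)) i|) *
          ∏ t, ∏ i, ‖(M' t).mulVec (fun j => (((q F).1 j : ℤ) : ℚ_[p t])) i‖ ≤
          (∏ i, |L.mulVec (fun j => ((q F).1 j : ℝ)) i|) *
          ∏ t, ∏ i, ‖(M t).mulVec (fun j => (((q F).1 j : ℤ) : ℚ_[p t])) i‖ := by
        refine mul_le_mul_of_nonneg_left ?_ (Finset.prod_nonneg fun i _ => abs_nonneg _)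
        refine Finset.prod_le_prod (fun t _ => Finset.prod_nonneg fun i _ => norm_nonneg _)
          fun t _ => ?_
        exact Finset.prod_le_prod (fun i _ => norm_nonneg _) fun i _ => hM'vec t _ i
      refine h1.trans ((hq3 F).trans ?_)
      rw [Real.rpow_def_of_pos (by linarith [hq1 F])]
      refine Real.exp_le_exp.mpr ?_
      nlinarith [hlogn F])
  -- modified exponents
  set ε₀ : ℝ := δ / (2 * (Fintype.card T * (m + 1) + 1)) with hε₀
  have hden : (0 : ℝ) < 2 * (Fintype.card T * (m + 1) + 1) := by positivity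
  have hε₀0 : 0 < ε₀ := div_pos hδ hden
  let e' : Option T → Fin (m + 1) → ℝ := fun s i =>
    match s with
    | none => e (none, i)
    | some t => min 0 (e (some t, i) + ε₀)
  have hneg : ∑ s, ∑ i, e' s i < 0 := by
    rw [Fintype.sum_option]
    show ∑ i, e (none, i) + ∑ t, ∑ i, min 0 (e (some t, i) + ε₀) < 0
    have h1 : ∑ t : T, ∑ i : Fin (m + 1), min 0 (e (some t, i) + ε₀) ≤
        ∑ t : T, ∑ i : Fin (m + 1), (e (some t, i) + ε₀) :=
      Finset.sum_le_sum fun t _ => Finset.sum_le_sum fun i _ => min_le_right _ _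
    have h2 : ∑ t : T, ∑ i : Fin (m + 1), (e (some t, i) + ε₀) =
        ∑ t : T, ∑ i : Fin (m + 1), e (some t, i) + Fintype.card T * ((m + 1) * ε₀) := by
      simp only [Finset.sum_add_distrib, Finset.sum_const, Finset.card_univ, Fintype.card_fin,
        nsmul_eq_mul]
      push_cast
      ring
    have h3 : ∑ j, e j = ∑ i, e (none, i) + ∑ t, ∑ i, e (some t, i) := by
      rw [Fintype.sum_prod_type, Fintype.sum_option]
    have h4 : Fintype.card T * ((m + 1) * ε₀) < δ := by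
      have h5 : (2 * (Fintype.card T * (m + 1) + 1)) * ε₀ = δ := by
        rw [hε₀]
        field_simp
      have h6 : (0 : ℝ) ≤ Fintype.card T * ((m + 1) * ε₀) := by positivity
      nlinarith
    linarith
  -- the lattices
  have hr : ∀ F t i, 0 < Real.exp (n F * e' (some t) i) ∧ Real.exp (n F * e' (some t) i) ≤ 1 := by
    intro F t i
    refine ⟨Real.exp_pos _, ?_⟩
    rw [Real.exp_le_one_iff]
    exact mul_nonpos_of_nonneg_of_nonpos (Nat.cast_nonneg _) (min_le_left _ _)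
  choose B hB0 hB2 hB1 hB3 using fun F => hCl (fun t i => Real.exp (n F * e' (some t) i)) (hr F)
  have hex : ∀ F, ∃ y : Fin (m + 1) → ℤ,
      (∀ t i, ‖(M' t).mulVec (fun j => (((q F).1 j : ℤ) : ℚ_[p t])) i‖ ≤
        Real.exp (n F * e' (some t) i)) → (q F).1 = (B F).mulVec y := by
    intro F
    by_cases h : ∀ t i, ‖(M' t).mulVec (fun j => (((q F).1 j : ℤ) : ℚ_[p t])) i‖ ≤
        Real.exp (n F * e' (some t) i)
    · obtain ⟨y, hy⟩ := hB3 F (q F).1 h
      exact ⟨y, fun _ => hy⟩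
    · exact ⟨0, fun h' => absurd h' h⟩
  choose y hy using hex
  have hyev : ∀ᶠ F in (𝒰 : Filter X), (q F).1 = (B F).mulVec (y F) := by
    filter_upwards [he3 ε₀ hε₀0] with F hF
    refine hy F fun t i => ?_
    have h1 := hF (some t, i)
    change ‖(M' t).mulVec (fun j => (((q F).1 j : ℤ) : ℚ_[p t])) i‖ ≤
      Real.exp (n F * (e (some t, i) + ε₀)) at h1
    show _ ≤ Real.exp (n F * min 0 (e (some t, i) + ε₀))
    rcases le_total 0 (e (some t, i) + ε₀) with h2 | h2
    · rw [min_eq_left h2, mul_zero, Real.exp_zero]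
      exact hM'vec1 t _ i
    · rw [min_eq_right h2]
      exact h1
  obtain ⟨ℓ, hℓ, hℓe⟩ := sk_subspace p hp L hLalg hL M' hM'alg hM'det e' hneg 𝒰 n hn B hB0
    (max Cl 0)
    (by
      intro F t i j
      refine (hB1 F t i j).trans (Real.exp_le_exp.mpr ?_)
      linarith [le_max_right Cl 0])
    (by
      intro F
      refine (hB2 F).trans ?_
      have h1 : ∏ t, ∏ i, (Real.exp (n F * e' (some t) i))⁻¹ =
          Real.exp (-(n F * ∑ t, ∑ i, e' (some t) i)) := by
        simp only [← Real.exp_neg, ← Real.exp_sum, Finset.sum_neg_distrib, Finset.mul_sum]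
      rw [h1, ← Real.exp_add]
      refine Real.exp_le_exp.mpr ?_
      linarith [le_max_left Cl 0])
    y
    (by
      intro ε hε
      filter_upwards [he3 ε hε, hyev] with F hF hF2 i
      rw [← hF2]
      exact hF (none, i))
  -- contradiction
  have h1 : ∀ᶠ F in (𝒰 : Filter X), ∑ i, ℓ i * (q F).1 i ≠ 0 := by
    refine h𝒰 ?_
    filter_upwards [eventually_ge_atTop ({⟨ℓ, hℓ⟩} : X)] with F hF
    exact hq4 F ⟨ℓ, hℓ⟩ (hF (Finset.mem_singleton_self _))
  obtain ⟨F, hF1, hF2, hF3⟩ := (h1.and (hℓe.and hyev)).exists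
  rw [← hF3] at hF2
  exact hF1 hF2

end Pool.Agent.SST
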