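import Pool.Agent.SST.KDefs
import Pool.Agent.SST.Schlick
import Mathlib.NumberTheory.NumberField.InfinitePlace.Embeddings
import Mathlib.RingTheory.Norm.Basic
import Mathlib.RingTheory.Ideal.Norm.AbsNorm

/-! Number field case: the product formula. -/

set_option autoImplicit false

open MvPolynomial Filter Module NumberField
open scoped Topology

namespace Pool.Agent.SST

section K

variable {k : Type} [Field k] [NumberField k] {T : Type} [Fintype T] [DecidableEq T] {p : T → ℕ}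
  [∀ t, Fact (p t).Prime]

omit [NumberField k] in
theorem prodK_exists_ext {A : Type} [Field A] [IsAlgClosed A] (ρ : k →+* A) :
    ∃ E : AlgebraicClosure k →+* A, ∀ x, E (algebraMap k _ x) = ρ x := by
  let _ := ρ.toAlgebra
  let E : AlgebraicClosure k →ₐ[k] A := IsAlgClosed.lift
  exact ⟨E.toRingHom, fun x => E.commutes x⟩

theorem exists_extK : Nonempty (ExtK k p) := by
  choose E hE using fun ρ : k →+* ℂ => prodK_exists_ext ρ
  choose E' hE' using fun (t : T) (ρ : k →+* ℂ_[p t]) => prodK_exists_ext ρ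
  exact ⟨⟨E, E', hE, hE'⟩⟩

theorem prodK_norm_prod (A : Type) [NormedField A] [CharZero A] [IsAlgClosed A] (y : 𝓞 k) :
    ∏ ρ : k →+* A, ‖ρ (y : k)‖ = ‖((Algebra.norm ℤ y : ℤ) : A)‖ := by
  have h1 := Algebra.norm_eq_prod_embeddings ℚ A (y : k)
  have h2 : ∏ σ : k →ₐ[ℚ] A, σ (y : k) = ∏ ρ : k →+* A, ρ (y : k) :=
    (Fintype.prod_equiv (RingHom.equivRatAlgHom k A) _ _ fun ρ => rfl).symm
  rw [h2, ← Algebra.coe_norm_int] at h1
  rw [← norm_prod, ← h1]
  congr 1
  rw [map_intCast]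

theorem prodK_sum_absOf (A : Type) [NormedField A] [CharZero A] [IsAlgClosed A] (y : 𝓞 k)
    (hy : y ≠ 0) :
    ∑ ρ : k →+* A, Real.log (absOf ρ (y : k)) = Real.log ‖((Algebra.norm ℤ y : ℤ) : A)‖ := by
  have hyk : (y : k) ≠ 0 := by
    intro h
    exact hy (by exact_mod_cast h)
  rw [← prodK_norm_prod A y, Real.log_prod]
  · rfl
  · intro ρ _
    rw [norm_ne_zero_iff, Ne, map_eq_zero]
    exact hyk

theorem prodK_sum_padic (q : ℕ) [Fact q.Prime] (y : 𝓞 k) (hy : y ≠ 0) :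
    ∑ ρ : k →+* ℂ_[q], Real.log (absOf ρ (y : k)) =
      Real.log ‖((Algebra.norm ℤ y : ℤ) : ℚ_[q])‖ := by
  have h3 := prodK_sum_absOf ℂ_[q] y hy
  have h4 : (((Algebra.norm ℤ y : ℤ) : ℚ_[q]) : ℂ_[q]) =
      ((Algebra.norm ℤ y : ℤ) : ℂ_[q]) := by
    have := map_intCast (algebraMap ℚ_[q] ℂ_[q]) (Algebra.norm ℤ y)
    exact this
  rw [← h4, PadicComplex.norm_extends'] at h3
  exact h3

theorem prodK_sum_complex (y : 𝓞 k) (hy : y ≠ 0) :
    ∑ ρ : k →+* ℂ, Real.log (absOf ρ (y : k)) = Real.log |((Algebra.norm ℤ y : ℤ) : ℝ)| := by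
  have h3 := prodK_sum_absOf ℂ y hy
  rwa [Complex.norm_intCast] at h3

theorem sum_log_vk (hp : Function.Injective p) (y : 𝓞 k) (hy : y ≠ 0) :
    ∑ l : PlK k p, Real.log (vk l (y : k)) = Real.log (|((Algebra.norm ℤ y : ℤ) : ℝ)| *
      ∏ t, ‖((Algebra.norm ℤ y : ℤ) : ℚ_[p t])‖) := by
  have hN : Algebra.norm ℤ y ≠ 0 := Algebra.norm_ne_zero_iff.2 hy
  have h5 : ∀ t, ‖((Algebra.norm ℤ y : ℤ) : ℚ_[p t])‖ ≠ 0 := fun t => by
    rw [norm_ne_zero_iff]
    exact_mod_cast hN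
  have h6 : |((Algebra.norm ℤ y : ℤ) : ℝ)| ≠ 0 := by
    rw [abs_ne_zero]
    exact_mod_cast hN
  rw [Real.log_mul h6 (Finset.prod_ne_zero_iff.2 fun t _ => h5 t),
    Real.log_prod (fun t _ => h5 t), Fintype.sum_sum_type, Fintype.sum_sigma]
  refine congrArg₂ (· + ·) (prodK_sum_complex y hy) (Finset.sum_congr rfl fun t _ => ?_)
  exact prodK_sum_padic (p t) y hy

theorem sum_log_vk_nonneg (hp : Function.Injective p) (y : 𝓞 k) (hy : y ≠ 0) :
    0 ≤ ∑ l : PlK k p, Real.log (vk l (y : k)) := by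
  rw [sum_log_vk hp y hy]
  exact Real.log_nonneg (sk_prod_ge p hp _ (Algebra.norm_ne_zero_iff.2 hy))

theorem absNorm_scale (c : k) (hc : c ≠ 0) (f g : Fin 3 → 𝓞 k) (hfg : ∀ i, (g i : k) = c * f i) :
    |Algebra.norm ℤ (discK g)| * (Ideal.absNorm (contentK f) : ℤ) ^ 2 =
      |Algebra.norm ℤ (discK f)| * (Ideal.absNorm (contentK g) : ℤ) ^ 2 := by
  obtain ⟨u, v, hv, huv⟩ := IsFractionRing.div_surjective (A := 𝓞 k) c
  have hv0 : v ≠ 0 := nonZeroDivisors.ne_zero hv
  have hvk : (algebraMap (𝓞 k) k v) ≠ 0 := by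
    rw [Ne, map_eq_zero_iff _ (FaithfulSMul.algebraMap_injective (𝓞 k) k)]
    exact hv0
  have hu0 : u ≠ 0 := by
    intro h
    rw [h, map_zero, zero_div] at huv
    exact hc huv.symm
  have hgf : ∀ i, v * g i = u * f i := by
    intro i
    apply FaithfulSMul.algebraMap_injective (𝓞 k) k
    rw [map_mul, map_mul]
    have h1 := hfg i
    rw [← huv] at h1
    have h2 : algebraMap (𝓞 k) k (g i) = algebraMap (𝓞 k) k u / algebraMap (𝓞 k) k v *
      algebraMap (𝓞 k) k (f i) := h1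
    rw [h2]
    field_simp
  have hI : Ideal.span {v} * contentK g = Ideal.span {u} * contentK f := by
    unfold contentK
    rw [Ideal.span_mul_span', Ideal.span_mul_span', Set.singleton_mul, Set.singleton_mul,
      ← Set.range_comp, ← Set.range_comp]
    congr 2
    funext i
    exact hgf i
  have hN : (Algebra.norm ℤ v).natAbs * Ideal.absNorm (contentK g) =
      (Algebra.norm ℤ u).natAbs * Ideal.absNorm (contentK f) := by
    have h1 := congrArg Ideal.absNorm hI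
    rwa [map_mul, map_mul, Ideal.absNorm_span_singleton, Ideal.absNorm_span_singleton] at h1
  have hN' : |Algebra.norm ℤ v| * (Ideal.absNorm (contentK g) : ℤ) =
      |Algebra.norm ℤ u| * (Ideal.absNorm (contentK f) : ℤ) := by
    have h1 : (((Algebra.norm ℤ v).natAbs * Ideal.absNorm (contentK g) : ℕ) : ℤ) =
      (((Algebra.norm ℤ u).natAbs * Ideal.absNorm (contentK f) : ℕ) : ℤ) := by rw [hN]
    push_cast at h1
    exact h1
  have hD : v ^ 2 * discK g = u ^ 2 * discK f := by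
    have h0 := hgf 0
    have h1 := hgf 1
    have h2 := hgf 2
    unfold discK
    linear_combination (v * g 1 + u * f 1) * h1 - 4 * (v * g 2) * h0 - 4 * (u * f 0) * h2
  have hD' : |Algebra.norm ℤ v| ^ 2 * |Algebra.norm ℤ (discK g)| =
      |Algebra.norm ℤ u| ^ 2 * |Algebra.norm ℤ (discK f)| := by
    have h1 := congrArg (fun z => |Algebra.norm ℤ z|) hD
    simp only [map_mul, map_pow, abs_mul, abs_pow] at h1
    exact h1
  have hu1 : |Algebra.norm ℤ u| ≠ 0 := by
    rw [abs_ne_zero]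
    exact Algebra.norm_ne_zero_iff.2 hu0
  have hfin : |Algebra.norm ℤ u| ^ 2 * (|Algebra.norm ℤ (discK g)| *
      (Ideal.absNorm (contentK f) : ℤ) ^ 2) = |Algebra.norm ℤ u| ^ 2 *
      (|Algebra.norm ℤ (discK f)| * (Ideal.absNorm (contentK g) : ℤ) ^ 2) := by
    calc |Algebra.norm ℤ u| ^ 2 * (|Algebra.norm ℤ (discK g)| *
          (Ideal.absNorm (contentK f) : ℤ) ^ 2)
        = |Algebra.norm ℤ (discK g)| * (|Algebra.norm ℤ u| *
          (Ideal.absNorm (contentK f) : ℤ)) ^ 2 := by ring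
      _ = |Algebra.norm ℤ (discK g)| * (|Algebra.norm ℤ v| *
          (Ideal.absNorm (contentK g) : ℤ)) ^ 2 := by rw [hN']
      _ = (|Algebra.norm ℤ v| ^ 2 * |Algebra.norm ℤ (discK g)|) *
          (Ideal.absNorm (contentK g) : ℤ) ^ 2 := by ring
      _ = _ := by rw [hD']; ring
  exact mul_left_cancel₀ (pow_ne_zero 2 hu1) hfin

end K

end Pool.Agent.SST
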