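import Pool.Agent.SST.SpecDefs

/-! Reduced bases over `ℤ`. -/

set_option autoImplicit false

namespace Pool.Agent.SST

open Module Matrix NumberField Pool.Agent.DD7719.M

/-- the matrix of a basis in the coordinates `A`, normalised by `lam`. -/
noncomputable def gz {N : ℕ} (A : Matrix (Fin N) (Fin N) ℝ) (y : Fin N → Fin N → ℤ)
    (lam : Fin N → ℝ) : Matrix (Fin N) (Fin N) ℝ :=
  Matrix.of fun j i => A.mulVec (fun k => (y i k : ℝ)) j / lam i

lemma gz_eq {N : ℕ} (A : Matrix (Fin N) (Fin N) ℝ) (y : Fin N → Fin N → ℤ) (lam : Fin N → ℝ) :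
    gz A y lam = A * ((Matrix.of y).map (Int.castRingHom ℝ))ᵀ *
      Matrix.diagonal (fun i => (lam i)⁻¹) := by
  ext j i
  rw [Matrix.mul_diagonal]
  simp only [gz, Matrix.of_apply, Matrix.mul_apply, Matrix.mulVec, dotProduct, div_eq_mul_inv,
    Matrix.transpose_apply, Matrix.map_apply, eq_intCast]

lemma abs_det_gz {N : ℕ} (A : Matrix (Fin N) (Fin N) ℝ) (y : Fin N → Fin N → ℤ)
    (lam : Fin N → ℝ) (hlam : ∀ i, 0 < lam i) :
    |(gz A y lam).det| = |A.det| * |(((Matrix.of y).det : ℤ) : ℝ)| / ∏ i, lam i := by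
  rw [gz_eq, Matrix.det_mul, Matrix.det_mul, Matrix.det_transpose, Matrix.det_diagonal]
  have h1 : ((Matrix.of y).map (Int.castRingHom ℝ)).det = (((Matrix.of y).det : ℤ) : ℝ) := by
    have := (RingHom.map_det (Int.castRingHom ℝ) (Matrix.of y)).symm
    rw [RingHom.mapMatrix_apply] at this
    rw [this]
    rfl
  rw [h1, abs_mul, abs_mul, div_eq_mul_inv, Finset.abs_prod]
  congr 1
  rw [← Finset.prod_inv_distrib]
  apply Finset.prod_congr rfl
  intro i _
  rw [abs_inv, abs_of_pos (hlam i)]

lemma abs_det_le {n : ℕ} (M : Matrix (Fin n) (Fin n) ℝ) (c : ℝ) (h : ∀ i j, |M i j| ≤ c) :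
    |M.det| ≤ n.factorial * c ^ n := by
  have h1 := norm_det_le (M.map (algebraMap ℝ ℂ)) c (fun i j => by
    rw [Matrix.map_apply]
    simpa using h i j)
  have h2 : (M.map (algebraMap ℝ ℂ)).det = ((M.det : ℝ) : ℂ) := by
    have := (RingHom.map_det (algebraMap ℝ ℂ) M).symm
    rw [RingHom.mapMatrix_apply] at this
    rw [this]
    rfl
  rw [h2, Complex.norm_real, Real.norm_eq_abs] at h1
  exact h1

theorem RedZ.mono {N : ℕ} {c c' : ℝ} (hc : 0 < c) (hcc : c ≤ c') {A : Matrix (Fin N) (Fin N) ℝ}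
    {y : Fin N → Fin N → ℤ} {lam : Fin N → ℝ} (h : RedZ c A y lam) : RedZ c' A y lam where
  pos := h.pos
  upper := fun j i => (h.upper j i).trans (mul_le_mul_of_nonneg_right hcc (h.pos i).le)
  lower := (one_div_le_one_div_of_le hc hcc).trans h.lower
  ne := h.ne
  index := h.index.trans hcc

theorem exists_redZ (N : ℕ) : ∃ C : ℝ, 1 ≤ C ∧ ∀ A : Matrix (Fin N) (Fin N) ℝ, A.det ≠ 0 →
    ∃ (y : Fin N → Fin N → ℤ) (lam : Fin N → ℝ), Monotone lam ∧ RedZ C A y lam ∧
      ∏ i, lam i ≤ C * |A.det| := by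
  obtain ⟨C, hC, hmain⟩ := exists_reduced ℚ N
  have hC0 : 0 < C := by linarith
  have hfac : (0 : ℝ) < N.factorial := by exact_mod_cast N.factorial_pos
  have hcard : Fintype.card (ℚ →+* ℂ) = 1 := by
    rw [Fintype.card_eq_one_iff]
    exact ⟨Rat.castHom ℂ, fun _ => Subsingleton.elim _ _⟩
  refine ⟨C + N.factorial * C ^ N * C, ?_, fun A hA => ?_⟩
  · have : 0 ≤ N.factorial * C ^ N * C := by positivity
    linarith
  have hCC : C ≤ C + N.factorial * C ^ N * C := by
    have : 0 ≤ N.factorial * C ^ N * C := by positivity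
    linarith
  have hdetC : ∀ σ : ℚ →+* ℂ, ((fun _ : ℚ →+* ℂ => A.map (algebraMap ℝ ℂ)) σ).det =
      ((A.det : ℝ) : ℂ) := by
    intro σ
    have := (RingHom.map_det (algebraMap ℝ ℂ) A).symm
    rw [RingHom.mapMatrix_apply] at this
    exact this
  obtain ⟨y, lam, hmono, hli, hred, hprod⟩ := hmain (fun _ => A.map (algebraMap ℝ ℂ))
    (by
      intro σ j i
      simp) (by
      intro σ
      rw [hdetC σ]
      exact_mod_cast hA)
  let σ0 : ℚ →+* ℂ := Rat.castHom ℂ
  let y' : Fin N → Fin N → ℤ := fun i k => Rat.ringOfIntegersEquiv (y i k)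
  have hy : ∀ i k, ((y i k : 𝓞 ℚ) : ℚ) = ((y' i k : ℤ) : ℚ) := fun i k =>
    (Rat.ringOfIntegersEquiv_apply_coe (y i k)).symm
  have hg : gmat (fun _ => A.map (algebraMap ℝ ℂ)) y lam σ0 = (gz A y' lam).map (algebraMap ℝ ℂ) := by
    ext j i
    simp only [gmat, gz, Matrix.of_apply, Matrix.map_apply, Matrix.mulVec, dotProduct, hy]
    simp
  have hdetg : ‖(gmat (fun _ => A.map (algebraMap ℝ ℂ)) y lam σ0).det‖ = |(gz A y' lam).det| := by
    rw [hg]
    have := (RingHom.map_det (algebraMap ℝ ℂ) (gz A y' lam)).symm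
    rw [RingHom.mapMatrix_apply] at this
    rw [this]
    simp
  have hupper : ∀ j i, |gz A y' lam j i| ≤ C := by
    intro j i
    have := hred.upper σ0 j i
    rw [hg, Matrix.map_apply] at this
    simpa using this
  have hprod1 : ∏ i, lam i ≤ C * |A.det| := by
    have h1 := hprod
    rw [hcard, pow_one] at h1
    have h2 : ∏ σ : ℚ →+* ℂ, ‖((fun _ : ℚ →+* ℂ => A.map (algebraMap ℝ ℂ)) σ).det‖ = |A.det| := by
      rw [Finset.prod_congr rfl fun σ _ => by rw [hdetC σ], Finset.prod_const, Finset.card_univ,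
        hcard, pow_one, Complex.norm_real, Real.norm_eq_abs]
    rw [h2] at h1
    exact h1
  have hne : (Matrix.of y').det ≠ 0 := by
    intro h0
    have h1 : ((Matrix.of y).map (algebraMap (𝓞 ℚ) ℚ)).det = 0 := by
      have h2 : (Matrix.of y).map (algebraMap (𝓞 ℚ) ℚ) = (Matrix.of y').map (Int.castRingHom ℚ) := by
        ext i k
        simp only [Matrix.map_apply, Matrix.of_apply]
        exact hy i k
      rw [h2, ← RingHom.mapMatrix_apply, ← RingHom.map_det, h0, map_zero]
    have h2 : LinearIndependent ℚ (fun i => ((Matrix.of y).map (algebraMap (𝓞 ℚ) ℚ)).row i) := hli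
    rw [Matrix.linearIndependent_rows_iff_isUnit, Matrix.isUnit_iff_isUnit_det, h1] at h2
    simp at h2
  have hA0 : 0 < |A.det| := abs_pos.mpr hA
  have hlamprod : 0 < ∏ i, lam i := Finset.prod_pos fun i _ => hred.pos i
  refine ⟨y', lam, hmono, ⟨hred.pos, ?_, ?_, hne, ?_⟩, hprod1.trans ?_⟩
  · intro j i
    have h1 := hupper j i
    simp only [gz, Matrix.of_apply, abs_div, abs_of_pos (hred.pos i)] at h1
    rw [div_le_iff₀ (hred.pos i)] at h1
    exact h1.trans (mul_le_mul_of_nonneg_right hCC (hred.pos i).le)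
  · have h1 := hred.lower σ0
    rw [hdetg] at h1
    exact (one_div_le_one_div_of_le hC0 hCC).trans h1
  · have h1 := abs_det_le _ C hupper
    rw [abs_det_gz A y' lam hred.pos, div_le_iff₀ hlamprod] at h1
    have h2 : |A.det| * |(((Matrix.of y').det : ℤ) : ℝ)| ≤
        |A.det| * (N.factorial * C ^ N * C) := by
      refine h1.trans ?_
      calc N.factorial * C ^ N * ∏ i, lam i ≤ N.factorial * C ^ N * (C * |A.det|) := by gcongr
        _ = _ := by ring
    have h3 := le_of_mul_le_mul_left h2 hA0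
    linarith
  · exact mul_le_mul_of_nonneg_right hCC hA0.le

lemma gz_compound {d q N : ℕ} (e₀ e : (Fin q ↪o Fin d) ≃ Fin N) (A : Matrix (Fin d) (Fin d) ℝ)
    (y : Fin d → Fin d → ℤ) (lam : Fin d → ℝ) :
    gz ((compound q A).submatrix e₀.symm e₀.symm)
      (fun i k => compound q (Matrix.of y) (e.symm i) (e₀.symm k))
      (fun i => ∏ l, lam ((e.symm i) l)) =
      (compound q (gz A y lam)).submatrix e₀.symm e.symm := by
  ext j i
  rw [gz_eq A y lam, compound_mul, compound_mul, compound_diagonal, Matrix.submatrix_apply,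
    Matrix.mul_diagonal, compound_transpose]
  simp only [gz, Matrix.of_apply, Matrix.mulVec, dotProduct, Matrix.submatrix_apply]
  rw [div_eq_mul_inv]
  congr 1
  · rw [Matrix.mul_apply, ← Equiv.sum_comp e₀]
    apply Finset.sum_congr rfl
    intro k _
    rw [Equiv.symm_apply_apply, Matrix.transpose_apply]
    congr 1
    have := compound_map (q := q) (Int.castRingHom ℝ) (Matrix.of y)
    have h2 := congrFun (congrFun this (e.symm i)) k
    exact h2.symm
  · rw [Finset.prod_inv_distrib]

lemma abs_adj_le {n : ℕ} {c : ℝ} (hc : 1 ≤ c) (M : Matrix (Fin n) (Fin n) ℝ)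
    (hM : ∀ i j, |M i j| ≤ c) (i j : Fin n) : |M.adjugate i j| ≤ n.factorial * c ^ n := by
  rw [Matrix.adjugate_apply]
  apply abs_det_le
  intro a b
  by_cases h : a = j
  · subst h
    rw [Matrix.updateRow_self]
    by_cases h' : b = i
    · subst h'
      simpa using hc
    · rw [Pi.single_eq_of_ne h']
      simp
      linarith
  · rw [Matrix.updateRow_ne h]
    exact hM _ _

lemma abs_minor_le {d q : ℕ} {c : ℝ} (M : Matrix (Fin d) (Fin d) ℝ) (h : ∀ i j, |M i j| ≤ c)
    (f g : Fin q ↪o Fin d) : |compound q M f g| ≤ q.factorial * c ^ q := by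
  simp only [compound, Matrix.of_apply]
  exact abs_det_le _ c (fun i j => h _ _)

lemma compound_adj {R : Type*} [CommRing R] {d q : ℕ} (M : Matrix (Fin d) (Fin d) R) :
    compound q M * compound q M.adjugate = M.det ^ q • (1 : Matrix _ _ R) := by
  rw [← compound_mul, Matrix.mul_adjugate, compound_smul, compound_one]

lemma compound_adj_det {R : Type*} [CommRing R] {d q N : ℕ}
    (hN : Fintype.card (Fin q ↪o Fin d) = N) (M : Matrix (Fin d) (Fin d) R) :
    (compound q M).det * (compound q M.adjugate).det = M.det ^ (q * N) := by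
  have h2 := congrArg Matrix.det (compound_adj (q := q) M)
  rw [Matrix.det_mul, Matrix.det_smul, Matrix.det_one, mul_one, hN, ← pow_mul] at h2
  exact h2

/-- lower bound for the determinant of a compound matrix -/
lemma det_compound_lowerR {d q N : ℕ} (hN : Fintype.card (Fin q ↪o Fin d) = N) {c : ℝ}
    (hc : 1 ≤ c) (M : Matrix (Fin d) (Fin d) ℝ) (hM : ∀ i j, |M i j| ≤ c)
    (hdet : 1 / c ≤ |M.det|) :
    (1 / c) ^ (q * N) / (N.factorial * (q.factorial * (d.factorial * c ^ d) ^ q) ^ N) ≤
      |(compound q M).det| := by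
  have h2 := congrArg (fun x => |x|) (compound_adj_det hN M)
  simp only [abs_mul, abs_pow] at h2
  have hc0 : 0 < c := by linarith
  have h3 : |(compound q M.adjugate).det| ≤
      N.factorial * (q.factorial * (d.factorial * c ^ d) ^ q) ^ N := by
    let e : (Fin q ↪o Fin d) ≃ Fin N := Fintype.equivFinOfCardEq hN
    rw [← Matrix.det_submatrix_equiv_self e.symm]
    apply abs_det_le
    intro i j
    exact abs_minor_le _ (abs_adj_le hc M hM) _ _
  have hfac : (0 : ℝ) < N.factorial := by exact_mod_cast N.factorial_pos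
  have hfacq : (0 : ℝ) < q.factorial := by exact_mod_cast q.factorial_pos
  have hfacd : (0 : ℝ) < d.factorial := by exact_mod_cast d.factorial_pos
  rw [div_le_iff₀ (by positivity)]
  calc (1 / c) ^ (q * N) ≤ |M.det| ^ (q * N) := by gcongr
    _ = |(compound q M).det| * |(compound q M.adjugate).det| := h2.symm
    _ ≤ _ := mul_le_mul_of_nonneg_left h3 (abs_nonneg _)

theorem compound_redZ (d q N : ℕ) (hN : Fintype.card (Fin q ↪o Fin d) = N) (c : ℝ) (hc : 1 ≤ c) :
    ∃ C : ℝ, 1 ≤ C ∧ ∀ (A : Matrix (Fin d) (Fin d) ℝ) (y : Fin d → Fin d → ℤ) (lam : Fin d → ℝ)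
      (_ : RedZ c A y lam) (e₀ e : (Fin q ↪o Fin d) ≃ Fin N),
      RedZ C ((compound q A).submatrix e₀.symm e₀.symm)
        (fun i k => compound q (Matrix.of y) (e.symm i) (e₀.symm k))
        (fun i => ∏ l, lam ((e.symm i) l)) := by
  have hc0 : 0 < c := by linarith
  have hfac : (0 : ℝ) < N.factorial := by exact_mod_cast N.factorial_pos
  have hfacq : (0 : ℝ) < q.factorial := by exact_mod_cast q.factorial_pos
  have hfacd : (0 : ℝ) < d.factorial := by exact_mod_cast d.factorial_pos
  set X : ℝ := (1 / c) ^ (q * N) /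
    (N.factorial * (q.factorial * (d.factorial * c ^ d) ^ q) ^ N) with hX
  have hXpos : 0 < X := by positivity
  refine ⟨1 + q.factorial * c ^ q + 1 / X + c ^ (q * N), ?_, ?_⟩
  · have : 0 ≤ q.factorial * c ^ q + 1 / X + c ^ (q * N) := by positivity
    linarith
  intro A y lam hred e₀ e
  have hup : ∀ j i, |gz A y lam j i| ≤ c := by
    intro j i
    simp only [gz, Matrix.of_apply, abs_div, abs_of_pos (hred.pos i)]
    rw [div_le_iff₀ (hred.pos i)]
    exact hred.upper j i
  have hpos : ∀ i, 0 < ∏ l, lam ((e.symm i) l) := fun i => Finset.prod_pos fun l _ => hred.pos _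
  have hsub : (Matrix.of fun i k => compound q (Matrix.of y) (e.symm i) (e₀.symm k)) =
      ((compound q (Matrix.of y)).submatrix e₀.symm e₀.symm).submatrix (e.symm.trans e₀) id := by
    ext i j
    simp
  have hdetsub : |(((Matrix.of fun i k =>
      compound q (Matrix.of y) (e.symm i) (e₀.symm k)).det : ℤ) : ℝ)| =
      |(((compound q (Matrix.of y)).det : ℤ) : ℝ)| := by
    rw [hsub, Matrix.det_permute, Matrix.det_submatrix_equiv_self]
    push_cast
    rw [abs_mul]
    have : |((Equiv.Perm.sign (e.symm.trans e₀) : ℤ) : ℝ)| = 1 := by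
      rcases Int.units_eq_one_or (Equiv.Perm.sign (e.symm.trans e₀)) with h | h <;> simp [h]
    rw [this, one_mul]
  have hadj := compound_adj_det hN (Matrix.of y)
  have hne0 : (compound q (Matrix.of y)).det ≠ 0 := by
    intro h0
    rw [h0, zero_mul] at hadj
    exact pow_ne_zero _ hred.ne hadj.symm
  have hne1 : (compound q (Matrix.of y).adjugate).det ≠ 0 := by
    intro h0
    rw [h0, mul_zero] at hadj
    exact pow_ne_zero _ hred.ne hadj.symm
  refine ⟨hpos, ?_, ?_, ?_, ?_⟩
  · intro j i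
    have h1 : |gz ((compound q A).submatrix e₀.symm e₀.symm)
        (fun i k => compound q (Matrix.of y) (e.symm i) (e₀.symm k))
        (fun i => ∏ l, lam ((e.symm i) l)) j i| ≤ q.factorial * c ^ q := by
      rw [gz_compound, Matrix.submatrix_apply]
      exact abs_minor_le _ hup _ _
    have h1' : |((compound q A).submatrix e₀.symm e₀.symm).mulVec (fun k =>
        ((compound q (Matrix.of y) (e.symm i) (e₀.symm k) : ℤ) : ℝ)) j| /
          (∏ l, lam ((e.symm i) l)) ≤ q.factorial * c ^ q := by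
      rw [← abs_of_pos (hpos i), ← abs_div]
      exact h1
    rw [div_le_iff₀ (hpos i)] at h1'
    refine h1'.trans (mul_le_mul_of_nonneg_right ?_ (hpos i).le)
    have : 0 ≤ 1 + 1 / X + c ^ (q * N) := by positivity
    linarith
  · have hM : |(gz ((compound q A).submatrix e₀.symm e₀.symm)
        (fun i k => compound q (Matrix.of y) (e.symm i) (e₀.symm k))
        (fun i => ∏ l, lam ((e.symm i) l))).det| = |(compound q (gz A y lam)).det| := by
      rw [gz_compound]
      have h2 : (compound q (gz A y lam)).submatrix e₀.symm e.symm =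
          ((compound q (gz A y lam)).submatrix e₀.symm e₀.symm).submatrix
            id (e.symm.trans e₀) := by
        ext i j
        simp
      rw [h2, Matrix.det_permute', abs_mul, Matrix.det_submatrix_equiv_self]
      have : |((Equiv.Perm.sign (e.symm.trans e₀) : ℤ) : ℝ)| = 1 := by
        rcases Int.units_eq_one_or (Equiv.Perm.sign (e.symm.trans e₀)) with h | h <;> simp [h]
      rw [this, one_mul]
    have h2 := det_compound_lowerR hN hc _ hup hred.lower
    refine le_trans ?_ (h2.trans (le_of_eq hM.symm))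
    rw [div_le_iff₀ (by positivity)]
    have h3 : X * (1 / X) = 1 := by field_simp
    calc (1 : ℝ) = X * (1 / X) := h3.symm
      _ ≤ X * (1 + q.factorial * c ^ q + 1 / X + c ^ (q * N)) := by
          apply mul_le_mul_of_nonneg_left _ hXpos.le
          have : 0 ≤ 1 + q.factorial * c ^ q + c ^ (q * N) := by positivity
          linarith
  · intro h0
    rw [h0, Int.cast_zero, abs_zero] at hdetsub
    apply hne0
    have := abs_eq_zero.mp hdetsub.symm
    exact_mod_cast this
  · rw [hdetsub]
    have h1 : |(((compound q (Matrix.of y)).det : ℤ) : ℝ)| *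
        |(((compound q (Matrix.of y).adjugate).det : ℤ) : ℝ)| =
        |(((Matrix.of y).det : ℤ) : ℝ)| ^ (q * N) := by
      rw [← abs_mul, ← abs_pow]
      exact_mod_cast congrArg (fun x : ℤ => |(x : ℝ)|) hadj
    have h2 : (1 : ℝ) ≤ |(((compound q (Matrix.of y).adjugate).det : ℤ) : ℝ)| := by
      exact_mod_cast Int.one_le_abs hne1
    have h3 : |(((compound q (Matrix.of y)).det : ℤ) : ℝ)| ≤ c ^ (q * N) := by
      calc |(((compound q (Matrix.of y)).det : ℤ) : ℝ)| ≤
            |(((compound q (Matrix.of y)).det : ℤ) : ℝ)| *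
              |(((compound q (Matrix.of y).adjugate).det : ℤ) : ℝ)| :=
            le_mul_of_one_le_right (abs_nonneg _) h2
        _ = |(((Matrix.of y).det : ℤ) : ℝ)| ^ (q * N) := h1
        _ ≤ c ^ (q * N) := pow_le_pow_left₀ (abs_nonneg _) hred.index _
    have : 0 ≤ 1 + q.factorial * c ^ q + 1 / X := by positivity
    linarith

end Pool.Agent.SST
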