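import Pool.Agent.SST.VeroDefs
import Mathlib.NumberTheory.Padics.Complex
import Mathlib.FieldTheory.PrimitiveElement
import Mathlib.RingTheory.Polynomial.GaussLemma
import Mathlib.Analysis.Normed.Module.FiniteDimension

/-! Algebraic elements of `ℂ_[p]` over a `ℚ_[p]`-independent family, with algebraic coefficients. -/

open Polynomial

namespace Pool.Agent.SST

theorem decomp_aux {k K : Type*} [Field k] [CharZero k] [Field K] [CharZero K] [Algebra k K]
    {n : ℕ} (c : Fin n → K) (hc : ∀ i, IsAlgebraic ℚ (c i)) :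
    ∃ (g : ℕ) (ω : Fin g → K) (m : Fin n → Fin g → k),
      LinearIndependent k ω ∧
      (∀ i, c i = ∑ t, algebraMap k K (m i t) * ω t) ∧
      (∀ i t, IsAlgebraic ℚ (m i t)) := by
  classical
  set F0 : IntermediateField ℚ K := IntermediateField.adjoin ℚ (Set.range c) with hF0
  have : FiniteDimensional ℚ F0 := by
    apply IntermediateField.finiteDimensional_adjoin
    rintro x ⟨i, rfl⟩
    exact (hc i).isIntegral
  let pb := Field.powerBasisOfFiniteOfSeparable ℚ F0
  have hP : ∀ i, ∃ P : ℚ[X], c i = aeval ((pb.gen : F0) : K) P := by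
    intro i
    have hi : c i ∈ F0 := IntermediateField.subset_adjoin ℚ _ ⟨i, rfl⟩
    obtain ⟨P, hP⟩ := pb.exists_eq_aeval' ⟨c i, hi⟩
    refine ⟨P, ?_⟩
    have := congrArg (fun x : F0 => (x : K)) hP
    simp only at this
    rw [this]
    exact (IntermediateField.aeval_coe F0 pb.gen P).symm
  choose P hP using hP
  set θ : K := ((pb.gen : F0) : K) with hθ
  have hθQ : IsIntegral ℚ θ := by
    have := Algebra.IsIntegral.isIntegral (R := ℚ) pb.gen
    exact this.map (IntermediateField.val F0)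
  have : IsScalarTower ℚ k K := by
    apply IsScalarTower.of_algebraMap_eq
    intro x
    simp
  have hθp : IsIntegral k θ := hθQ.tower_top
  have hdvd : minpoly k θ ∣ (minpoly ℚ θ).map (algebraMap ℚ k) :=
    minpoly.dvd_map_of_isScalarTower ℚ k θ
  have hlift := integralClosure.mem_lifts_of_monic_of_dvd_map k (minpoly.monic hθQ)
    (minpoly.monic hθp) hdvd
  obtain ⟨mu, hmu, hdeg, hmon⟩ := lifts_and_natDegree_eq_and_monic hlift (minpoly.monic hθp)
  have hgpos : 0 < (minpoly k θ).natDegree := minpoly.natDegree_pos hθp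
  have hmu1 : mu ≠ 1 := by
    intro h
    rw [h, natDegree_one] at hdeg
    omega
  let R : Fin n → (integralClosure ℚ k)[X] :=
    fun i => (P i).map (algebraMap ℚ (integralClosure ℚ k)) %ₘ mu
  refine ⟨(minpoly k θ).natDegree, fun t => θ ^ (t : ℕ),
    fun i t => algebraMap (integralClosure ℚ k) k ((R i).coeff t), ?_, ?_, ?_⟩
  · exact linearIndependent_pow θ
  · intro i
    rw [hP i]
    have h1 : aeval θ (P i) = eval₂ ((algebraMap k K).comp (algebraMap (integralClosure ℚ k) k)) θ
        ((P i).map (algebraMap ℚ (integralClosure ℚ k))) := by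
      rw [eval₂_map, aeval_def]
      congr 1
      exact Subsingleton.elim _ _
    have h2 : (P i).map (algebraMap ℚ (integralClosure ℚ k)) =
        R i + mu * ((P i).map (algebraMap ℚ (integralClosure ℚ k)) /ₘ mu) :=
      (modByMonic_add_div _ mu).symm
    have h3 : eval₂ ((algebraMap k K).comp (algebraMap (integralClosure ℚ k) k)) θ mu = 0 := by
      rw [← eval₂_map, hmu]
      exact minpoly.aeval k θ
    rw [h1, h2, eval₂_add, eval₂_mul, h3, zero_mul, add_zero,
      eval₂_eq_sum_range' _ (n := (minpoly k θ).natDegree)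
        (by rw [← hdeg]; exact natDegree_modByMonic_lt _ hmon hmu1), ← Fin.sum_univ_eq_sum_range
        (fun t => ((algebraMap k K).comp (algebraMap (integralClosure ℚ k) k)) ((R i).coeff t)
          * θ ^ t)]
    rfl
  · intro i t
    exact (((R i).coeff t).2).isAlgebraic

theorem padic_decomp (p : ℕ) [Fact p.Prime] {k : ℕ} (c : Fin k → ℂ_[p])
    (hc : ∀ i, IsAlgebraic ℚ (c i)) :
    ∃ (g : ℕ) (ω : Fin g → ℂ_[p]) (m : Fin k → Fin g → ℚ_[p]) (C : ℝ), 0 < C ∧
      (∀ i, c i = ∑ t, algebraMap ℚ_[p] ℂ_[p] (m i t) * ω t) ∧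
      (∀ i t, IsAlgebraic ℚ (m i t)) ∧
      ∀ (y : Fin g → ℚ_[p]) (t : Fin g), ‖y t‖ ≤ C * ‖∑ t, algebraMap ℚ_[p] ℂ_[p] (y t) * ω t‖ := by
  have : CharZero ℂ_[p] := charZero_of_injective_algebraMap (algebraMap ℚ_[p] ℂ_[p]).injective
  obtain ⟨g, ω, m, hli, hm, halg⟩ := decomp_aux (k := ℚ_[p]) (K := ℂ_[p]) c (by
    intro i
    have := hc i
    convert this)
  have hker : LinearMap.ker (Fintype.linearCombination ℚ_[p] ω) = ⊥ := by
    rw [LinearMap.ker_eq_bot]
    exact hli.fintypeLinearCombination_injective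
  obtain ⟨K, hK, hanti⟩ := LinearMap.exists_antilipschitzWith
    (Fintype.linearCombination ℚ_[p] ω) hker
  refine ⟨g, ω, m, K, by exact_mod_cast hK, hm, halg, ?_⟩
  intro y t
  have h1 : ‖y‖ ≤ K * ‖Fintype.linearCombination ℚ_[p] ω y‖ := by
    have := hanti.le_mul_norm (f := (Fintype.linearCombination ℚ_[p] ω)) (map_zero _) y
    exact this
  have h2 : Fintype.linearCombination ℚ_[p] ω y
      = ∑ t, algebraMap ℚ_[p] ℂ_[p] (y t) * ω t := by
    rw [Fintype.linearCombination_apply]
    refine Finset.sum_congr rfl fun t _ => ?_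
    rw [Algebra.smul_def]
  rw [h2] at h1
  exact (norm_le_pi_norm y t).trans h1

end Pool.Agent.SST
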