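import Pool.Agent.SST.KDefs
import Mathlib.RingTheory.Ideal.Norm.RelNorm
import Mathlib.FieldTheory.Galois.Basic
import Mathlib.NumberTheory.NumberField.Basic

/-! The norm of the ideal `(a, a x)` for a root `x` of a quadratic form. -/

open MvPolynomial Filter Module NumberField
open scoped Topology

namespace Pool.Agent.SST

variable {k : Type} [Field k] [NumberField k]

/-- the conjugate -/
theorem IdealK_conj (K : Type) [Field K] [NumberField K] [Algebra k K] (hK : finrank k K = 2)
    (x : K) (hx : x ∉ Set.range (algebraMap k K)) (a b c : k)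
    (hf : algebraMap k K a * x ^ 2 + algebraMap k K b * x + algebraMap k K c = 0) :
    ∃ σ : K ≃ₐ[k] K, σ (algebraMap k K a * x) = - algebraMap k K b - algebraMap k K a * x := by
  have : Algebra.IsQuadraticExtension k K := ⟨hK⟩
  have hgal : IsGalois k K := inferInstance
  rw [IsGalois.mem_range_algebraMap_iff_fixed] at hx
  push Not at hx
  obtain ⟨σ, hσ⟩ := hx
  refine ⟨σ, ?_⟩
  have h1 := congrArg σ hf
  simp only [map_add, map_mul, map_pow, AlgEquiv.commutes, map_zero] at h1
  have h2 : (σ x - x) * (algebraMap k K a * (σ x + x) + algebraMap k K b) = 0 := by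
    linear_combination h1 - hf
  rcases mul_eq_zero.1 h2 with h3 | h3
  · exact absurd (sub_eq_zero.1 h3) hσ
  · rw [map_mul, AlgEquiv.commutes]
    linear_combination h3

theorem IdealK_finrank (K : Type) [Field K] [NumberField K] [Algebra k K] :
    finrank (𝓞 k) (𝓞 K) = finrank k K := by
  exact (IsFractionRing.finrank_eq (𝓞 k) k (𝓞 K) K).symm

theorem IdealK_absNorm_map (K : Type) [Field K] [NumberField K] [Algebra k K]
    (hK : finrank k K = 2) (I : Ideal (𝓞 k)) :
    Ideal.absNorm (I.map (algebraMap (𝓞 k) (𝓞 K))) = Ideal.absNorm I ^ 2 := by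
  rw [Ideal.absNorm_algebraMap, IdealK_finrank, hK]

omit [NumberField k] in
theorem IdealK_map_span (K : Type) [Field K] [NumberField K] [Algebra k K] (f : Fin 3 → 𝓞 k) :
    (contentK f).map (algebraMap (𝓞 k) (𝓞 K)) =
      Ideal.span {algebraMap (𝓞 k) (𝓞 K) (f 0), algebraMap (𝓞 k) (𝓞 K) (f 1),
        algebraMap (𝓞 k) (𝓞 K) (f 2)} := by
  rw [contentK, Ideal.map_span]
  congr 1
  ext z
  simp only [Set.mem_image, Set.mem_range, Set.mem_insert_iff, Set.mem_singleton_iff]
  constructor
  · rintro ⟨_, ⟨i, rfl⟩, rfl⟩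
    fin_cases i <;> simp
  · rintro (h | h | h)
    · exact ⟨_, ⟨0, rfl⟩, h.symm⟩
    · exact ⟨_, ⟨1, rfl⟩, h.symm⟩
    · exact ⟨_, ⟨2, rfl⟩, h.symm⟩

/-- the key membership -/
theorem IdealK_mem (K : Type) [Field K] [NumberField K] [Algebra k K]
    (x : K) (f : Fin 3 → 𝓞 k) (ha : f 0 ≠ 0)
    (hf : algebraMap k K (f 0) * x ^ 2 + algebraMap k K (f 1) * x + algebraMap k K (f 2) = 0)
    (y : 𝓞 K) (hy : (y : K) = algebraMap k K (f 0) * x) :
    y ∈ (contentK f).map (algebraMap (𝓞 k) (𝓞 K)) := by
  have ha' : algebraMap k K (f 0) ≠ 0 := by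
    rw [Ne, map_eq_zero]
    intro h
    apply ha
    apply FaithfulSMul.algebraMap_injective (𝓞 k) k
    rw [map_zero]; exact h
  have hmem : ∀ i, f i ∈ contentK f := fun i => Ideal.subset_span ⟨i, rfl⟩
  have hle : Ideal.span {f 0} ≤ contentK f := by
    rw [Ideal.span_singleton_le_iff_mem]; exact hmem 0
  obtain ⟨c1, hc1⟩ := Ideal.dvd_iff_le.2 hle
  have hc1ne : c1 ≠ ⊥ := by
    rintro rfl
    rw [Ideal.mul_bot, Ideal.span_singleton_eq_bot] at hc1
    exact ha hc1
  have hmap : Function.Injective (algebraMap (𝓞 k) (𝓞 K)) := FaithfulSMul.algebraMap_injective _ _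
  have hcmap : c1.map (algebraMap (𝓞 k) (𝓞 K)) ≠ 0 := by
    intro h
    exact hc1ne ((Ideal.map_eq_bot_iff_of_injective hmap).1 h)
  have h1 : (contentK f).map (algebraMap (𝓞 k) (𝓞 K)) * c1.map (algebraMap (𝓞 k) (𝓞 K)) ∣
      Ideal.span {y} * c1.map (algebraMap (𝓞 k) (𝓞 K)) := by
    rw [← Ideal.map_mul, ← hc1, Ideal.dvd_iff_le, Ideal.map_span, Set.image_singleton, Ideal.map,
      Ideal.span_mul_span', Ideal.span_le]
    rintro _ ⟨z, hz, _, ⟨u, hu, rfl⟩, rfl⟩
    rw [Set.mem_singleton_iff] at hz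
    subst hz
    have hu1 : ∀ i, ∃ d : 𝓞 k, f i * u = f 0 * d := by
      intro i
      have : f i * u ∈ contentK f * c1 := Ideal.mul_mem_mul (hmem i) hu
      rw [← hc1, Ideal.mem_span_singleton'] at this
      obtain ⟨d, hd⟩ := this
      exact ⟨d, by rw [← hd, mul_comm]⟩
    obtain ⟨b1, hb1⟩ := hu1 1
    obtain ⟨c2, hc2⟩ := hu1 2
    have hb1' : algebraMap k K (f 1) * algebraMap k K u =
        algebraMap k K (f 0) * algebraMap k K b1 := by
      have := congrArg (fun z : 𝓞 k => algebraMap k K (algebraMap (𝓞 k) k z)) hb1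
      simpa only [map_mul] using this
    have hc2' : algebraMap k K (f 2) * algebraMap k K u =
        algebraMap k K (f 0) * algebraMap k K c2 := by
      have := congrArg (fun z : 𝓞 k => algebraMap k K (algebraMap (𝓞 k) k z)) hc2
      simpa only [map_mul] using this
    have heq : (algebraMap k K u * x) ^ 2 + algebraMap k K b1 * (algebraMap k K u * x) +
        algebraMap k K u * algebraMap k K c2 = 0 := by
      have : algebraMap k K (f 0) * ((algebraMap k K u * x) ^ 2 +
          algebraMap k K b1 * (algebraMap k K u * x) +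
          algebraMap k K u * algebraMap k K c2) = 0 := by
        linear_combination (algebraMap k K u) ^ 2 * hf - algebraMap k K u * x * hb1' -
          algebraMap k K u * hc2'
      exact (mul_eq_zero.1 this).resolve_left ha'
    have hcoe : ∀ z : 𝓞 k, algebraMap k K (z : k) = ((algebraMap (𝓞 k) (𝓞 K) z : 𝓞 K) : K) :=
      fun z => rfl
    have hint : IsIntegral ℤ (algebraMap k K u * x) := by
      have h2 : IsIntegral (𝓞 K) (algebraMap k K u * x) := by
        refine ⟨Polynomial.X ^ 2 + Polynomial.C (algebraMap (𝓞 k) (𝓞 K) b1) * Polynomial.X +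
          Polynomial.C (algebraMap (𝓞 k) (𝓞 K) u * algebraMap (𝓞 k) (𝓞 K) c2), ?_, ?_⟩
        · monicity!
        · simp only [Polynomial.eval₂_add, Polynomial.eval₂_mul, Polynomial.eval₂_pow,
            Polynomial.eval₂_X, Polynomial.eval₂_C, map_mul]
          exact heq
      exact isIntegral_trans _ h2
    obtain ⟨w, hw⟩ : ∃ w : 𝓞 K, (w : K) = algebraMap k K u * x := ⟨⟨_, hint⟩, rfl⟩
    rw [SetLike.mem_coe, Ideal.mem_span_singleton']
    refine ⟨w, ?_⟩
    apply FaithfulSMul.algebraMap_injective (𝓞 K) K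
    rw [map_mul, map_mul]
    change (w : K) * algebraMap k K (f 0) = (z : K) * algebraMap k K u
    rw [hw, hy]
    ring
  have h2 := (mul_dvd_mul_iff_right hcmap).1 h1
  rw [Ideal.dvd_iff_le, Ideal.span_singleton_le_iff_mem] at h2
  exact h2

theorem absNorm_pairK (K : Type) [Field K] [NumberField K] [Algebra k K] (hK : finrank k K = 2)
    (x : K) (hx : x ∉ Set.range (algebraMap k K)) (f : Fin 3 → 𝓞 k) (hf0 : f ≠ 0)
    (hf : algebraMap k K (f 0) * x ^ 2 + algebraMap k K (f 1) * x + algebraMap k K (f 2) = 0)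
    (y : 𝓞 K) (hy : (y : K) = algebraMap k K (f 0) * x) :
    Ideal.absNorm (Ideal.span {algebraMap (𝓞 k) (𝓞 K) (f 0), y}) =
      (Algebra.norm ℤ (f 0)).natAbs * Ideal.absNorm (contentK f) := by
  by_cases ha : f 0 = 0
  · have hy0 : y = 0 := by
      apply FaithfulSMul.algebraMap_injective (𝓞 K) K
      rw [map_zero]
      change (y : K) = 0
      rw [hy, ha]
      simp
    rw [ha, hy0]
    simp
  set φ := algebraMap (𝓞 k) (𝓞 K) with hφ
  obtain ⟨σ, hσ⟩ := IdealK_conj K hK x hx (f 0) (f 1) (f 2) hf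
  set y' : 𝓞 K := - φ (f 1) - y with hy'
  have hyy : y * y' = φ (f 0) * φ (f 2) := by
    apply FaithfulSMul.algebraMap_injective (𝓞 K) K
    rw [map_mul, map_mul, hy', map_sub, map_neg]
    change (y : K) * (- algebraMap k K (f 1) - (y : K)) = algebraMap k K (f 0) * algebraMap k K (f 2)
    rw [hy]
    linear_combination (-algebraMap k K (f 0)) * hf
  have hmem := IdealK_mem K x f ha hf y hy
  set J : Ideal (𝓞 K) := Ideal.span {φ (f 0), y} with hJ
  set J' : Ideal (𝓞 K) := Ideal.span {φ (f 0), y'} with hJ'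
  have hprod : J * J' = Ideal.span {φ (f 0)} * (contentK f).map φ := by
    apply le_antisymm
    · rw [hJ, hJ', Ideal.span_pair_mul_span_pair, Ideal.span_le]
      have hm : ∀ z ∈ (contentK f).map φ, φ (f 0) * z ∈ Ideal.span {φ (f 0)} * (contentK f).map φ :=
        fun z hz => Ideal.mul_mem_mul (Ideal.mem_span_singleton_self _) hz
      have hfi : ∀ i, φ (f i) ∈ (contentK f).map φ := fun i =>
        Ideal.mem_map_of_mem _ (Ideal.subset_span ⟨i, rfl⟩)
      have hy'm : y' ∈ (contentK f).map φ := by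
        rw [hy']
        exact Ideal.sub_mem _ (neg_mem (hfi 1)) hmem
      intro z hz
      simp only [Set.mem_insert_iff, Set.mem_singleton_iff] at hz
      rcases hz with rfl | rfl | rfl | rfl
      · exact hm _ (hfi 0)
      · exact hm _ hy'm
      · rw [mul_comm y]
        exact hm _ hmem
      · rw [hyy]
        exact hm _ (hfi 2)
    · rw [IdealK_map_span, ← hφ, Ideal.span_mul_span', Ideal.span_le]
      rintro _ ⟨p, hp, z, hz, rfl⟩
      rw [Set.mem_singleton_iff] at hp
      subst hp
      have h0 : φ (f 0) ∈ J := Ideal.subset_span (by simp)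
      have h0' : φ (f 0) ∈ J' := Ideal.subset_span (by simp)
      have h1 : y ∈ J := Ideal.subset_span (by simp)
      have h1' : y' ∈ J' := Ideal.subset_span (by simp)
      simp only [Set.mem_insert_iff, Set.mem_singleton_iff] at hz
      rcases hz with rfl | rfl | rfl
      · exact Ideal.mul_mem_mul h0 h0'
      · have : φ (f 0) * φ (f 1) = - (φ (f 0) * y' + y * φ (f 0)) := by
          rw [hy']; ring
        change φ (f 0) * φ (f 1) ∈ J * J'
        rw [this]
        exact neg_mem (Ideal.add_mem _ (Ideal.mul_mem_mul h0 h1') (Ideal.mul_mem_mul h1 h0'))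
      · change φ (f 0) * φ (f 2) ∈ J * J'
        rw [← hyy]
        exact Ideal.mul_mem_mul h1 h1'
  have hJJ : Ideal.absNorm J' = Ideal.absNorm J := by
    have h1 : J' = J.map (RingOfIntegers.mapAlgEquiv σ) := by
      rw [hJ, hJ', Ideal.map_span, Set.image_pair]
      congr 2
      · exact ((RingOfIntegers.mapAlgEquiv σ).commutes (f 0)).symm
      · congr 1
        apply FaithfulSMul.algebraMap_injective (𝓞 K) K
        rw [hy', map_sub, map_neg]
        change - algebraMap k K (f 1) - (y : K) = σ (y : K)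
        rw [hy, hσ]
    rw [h1, ← Ideal.absNorm_relNorm (𝓞 k), Ideal.relNorm_map_algEquiv, Ideal.absNorm_relNorm]
  have hnorm := congrArg Ideal.absNorm hprod
  rw [map_mul, map_mul, hJJ, IdealK_absNorm_map K hK] at hnorm
  have hsp : Ideal.span {φ (f 0)} = (Ideal.span {f 0}).map φ := by
    rw [Ideal.map_span, Set.image_singleton]
  rw [hsp, IdealK_absNorm_map K hK, Ideal.absNorm_span_singleton, ← mul_pow, ← pow_two] at hnorm
  exact Nat.pow_left_injective (n := 2) (by norm_num) hnorm

end Pool.Agent.SST
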