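import Pool.Agent.SST.KDefs
import Mathlib.FieldTheory.PrimitiveElement
import Mathlib.NumberTheory.NumberField.InfinitePlace.Embeddings

/-! The roots of a quadratic form with coefficients in a number field. -/

set_option autoImplicit false

open Module NumberField

namespace Pool.Agent.SST

variable {k : Type} [Field k] [NumberField k]

private theorem rootsK_lead (K : Type) [Field K] [Algebra k K] (x : K)
    (hx : x ∉ Set.range (algebraMap k K)) (f : Fin 3 → 𝓞 k) (hf0 : f ≠ 0)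
    (hf : algebraMap k K (f 0) * x ^ 2 + algebraMap k K (f 1) * x + algebraMap k K (f 2) = 0) :
    f 0 ≠ 0 := by
  intro h0
  rw [h0] at hf
  simp only [map_zero, zero_mul, zero_add] at hf
  by_cases h1 : f 1 = 0
  · rw [h1] at hf
    simp only [map_zero, zero_mul, zero_add] at hf
    apply hf0
    have h2 : f 2 = 0 := by
      have h3 : ((f 2 : 𝓞 k) : k) = 0 := (map_eq_zero (algebraMap k K)).1 hf
      exact_mod_cast h3
    funext i
    fin_cases i
    · exact h0
    · exact h1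
    · exact h2
  · apply hx
    have h1' : ((f 1 : 𝓞 k) : k) ≠ 0 := by exact_mod_cast h1
    have h1'' : algebraMap k K ((f 1 : 𝓞 k) : k) ≠ 0 := (map_ne_zero _).2 h1'
    refine ⟨-((f 2 : 𝓞 k) : k) / ((f 1 : 𝓞 k) : k), ?_⟩
    rw [map_div₀, map_neg, div_eq_iff h1'']
    linear_combination -hf

private theorem rootsK_disc (K : Type) [Field K] [Algebra k K] (x : K)
    (hx : x ∉ Set.range (algebraMap k K)) (f : Fin 3 → 𝓞 k) (h00 : f 0 ≠ 0)
    (hf : algebraMap k K (f 0) * x ^ 2 + algebraMap k K (f 1) * x + algebraMap k K (f 2) = 0) :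
    ¬ IsSquare ((discK f : 𝓞 k) : k) := by
  rintro ⟨s, hs⟩
  have h0' : ((f 0 : 𝓞 k) : k) ≠ 0 := by exact_mod_cast h00
  have h0'' : algebraMap k K ((f 0 : 𝓞 k) : k) ≠ 0 := (map_ne_zero _).2 h0'
  have : CharZero K := charZero_of_injective_algebraMap (algebraMap k K).injective
  have h2 : (2 : K) ≠ 0 := two_ne_zero
  have hd : ((discK f : 𝓞 k) : k) = ((f 1 : 𝓞 k) : k) ^ 2 -
      4 * ((f 0 : 𝓞 k) : k) * ((f 2 : 𝓞 k) : k) := by
    change algebraMap (𝓞 k) k (f 1 ^ 2 - 4 * f 0 * f 2) = _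
    rw [map_sub, map_mul, map_mul, map_pow, map_ofNat]
  rw [hd] at hs
  have hs' := congrArg (algebraMap k K) hs
  simp only [map_sub, map_mul, map_pow, map_ofNat] at hs'
  have h3 : (2 * algebraMap k K ((f 0 : 𝓞 k) : k) * x + algebraMap k K ((f 1 : 𝓞 k) : k) -
      algebraMap k K s) * (2 * algebraMap k K ((f 0 : 𝓞 k) : k) * x +
      algebraMap k K ((f 1 : 𝓞 k) : k) + algebraMap k K s) = 0 := by
    linear_combination 4 * algebraMap k K ((f 0 : 𝓞 k) : k) * hf + hs'
  rcases mul_eq_zero.1 h3 with h4 | h4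
  · apply hx
    refine ⟨(s - ((f 1 : 𝓞 k) : k)) / (2 * ((f 0 : 𝓞 k) : k)), ?_⟩
    rw [map_div₀, map_sub, map_mul, map_ofNat, div_eq_iff (mul_ne_zero h2 h0'')]
    linear_combination -h4
  · apply hx
    refine ⟨(-s - ((f 1 : 𝓞 k) : k)) / (2 * ((f 0 : 𝓞 k) : k)), ?_⟩
    rw [map_div₀, map_sub, map_neg, map_mul, map_ofNat, div_eq_iff (mul_ne_zero h2 h0'')]
    linear_combination -h4

private theorem rootsK_fib (A : Type) [Field A] [CharZero A] [IsAlgClosed A] (K : Type) [Field K]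
    [NumberField K] [Algebra k K] [DecidableEq (k →+* A)] (hK : finrank k K = 2) (ρ : k →+* A) :
    (Finset.univ.filter (fun σ : K →+* A => σ.comp (algebraMap k K) = ρ)).card = 2 := by
  have hfin : FiniteDimensional k K := Module.finite_of_finrank_pos (by rw [hK]; norm_num)
  let _ : Algebra k A := ρ.toAlgebra
  have h1 : Fintype.card (K →ₐ[k] A) = 2 := by rw [AlgHom.card k K A, hK]
  rw [← h1, ← Finset.card_univ]
  symm
  refine Finset.card_bij (fun τ _ => (τ : K →+* A)) ?_ ?_ ?_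
  · intro τ _
    rw [Finset.mem_filter]
    exact ⟨Finset.mem_univ _, τ.comp_algebraMap⟩
  · intro τ _ τ' _ h
    exact AlgHom.coe_ringHom_injective h
  · intro σ hσ
    rw [Finset.mem_filter] at hσ
    refine ⟨{ σ with commutes' := fun r => ?_ }, Finset.mem_univ _, ?_⟩
    · exact congrArg (fun e : k →+* A => e r) hσ.2
    · ext y
      rfl

private theorem rootsK_inj (A : Type) [Field A] (K : Type) [Field K]
    [Algebra k K] (hK : finrank k K = 2) (x : K) (hx : x ∉ Set.range (algebraMap k K))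
    (σ₁ σ₂ : K →+* A) (hc : σ₁.comp (algebraMap k K) = σ₂.comp (algebraMap k K)) (hne : σ₁ ≠ σ₂) :
    σ₁ x ≠ σ₂ x := by
  have hfin : FiniteDimensional k K := Module.finite_of_finrank_pos (by rw [hK]; norm_num)
  have hgen : IntermediateField.adjoin k {x} = (⊤ : IntermediateField k K) := by
    have hdvd : Module.finrank k (IntermediateField.adjoin k {x}) ∣ 2 := by
      rw [← hK]
      exact ⟨_, (Module.finrank_mul_finrank k (IntermediateField.adjoin k {x}) K).symm⟩
    rcases (Nat.dvd_prime Nat.prime_two).mp hdvd with h | h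
    · exfalso
      apply hx
      have h2 := IntermediateField.finrank_eq_one_iff.mp h
      have h3 : x ∈ (⊥ : IntermediateField k K) := by
        rw [← h2]
        exact IntermediateField.mem_adjoin_simple_self k x
      exact IntermediateField.mem_bot.mp h3
    · exact IntermediateField.eq_of_le_of_finrank_eq le_top
        (by rw [h, IntermediateField.finrank_top', hK])
  intro h
  apply hne
  have h1 : ∀ y ∈ IntermediateField.adjoin k {x}, σ₁ y = σ₂ y := by
    intro y hy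
    induction hy using IntermediateField.adjoin_induction with
    | mem z hz =>
      rw [Set.mem_singleton_iff] at hz
      rw [hz, h]
    | algebraMap q => exact congrArg (fun e : k →+* A => e q) hc
    | add a b _ _ ha hb => rw [map_add, map_add, ha, hb]
    | inv a _ ha => rw [map_inv₀, map_inv₀, ha]
    | mul a b _ _ ha hb => rw [map_mul, map_mul, ha, hb]
  ext y
  exact h1 y (by rw [hgen]; trivial)

theorem exists_rootsK (A : Type) [Field A] [CharZero A] [IsAlgClosed A] (K : Type) [Field K]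
    [NumberField K] [Algebra k K] (hK : finrank k K = 2) (x : K)
    (hx : x ∉ Set.range (algebraMap k K)) (f : Fin 3 → 𝓞 k) (hf0 : f ≠ 0)
    (hf : algebraMap k K (f 0) * x ^ 2 + algebraMap k K (f 1) * x + algebraMap k K (f 2) = 0) :
    f 0 ≠ 0 ∧ ¬ IsSquare ((discK f : 𝓞 k) : k) ∧ ∃ ξ₁ ξ₂ : (k →+* A) → A,
      (∀ ρ z, ρ (f 0) * z ^ 2 + ρ (f 1) * z + ρ (f 2) = ρ (f 0) * (z - ξ₁ ρ) * (z - ξ₂ ρ)) ∧
      ∀ G : (k →+* A) → A → ℝ, ∑ σ : K →+* A, G (σ.comp (algebraMap k K)) (σ x) =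
        ∑ ρ : k →+* A, (G ρ (ξ₁ ρ) + G ρ (ξ₂ ρ)) := by
  classical
  have h00 := rootsK_lead K x hx f hf0 hf
  refine ⟨h00, rootsK_disc K x hx f h00 hf, ?_⟩
  have hfib := rootsK_fib (k := k) A K hK
  have hex : ∀ ρ : k →+* A, ∃ σ₁ σ₂ : K →+* A, σ₁ ≠ σ₂ ∧
      (Finset.univ.filter (fun σ : K →+* A => σ.comp (algebraMap k K) = ρ)) = {σ₁, σ₂} :=
    fun ρ => Finset.card_eq_two.mp (hfib ρ)
  choose σ₁ σ₂ hne hu using hex
  have hm1 : ∀ ρ, (σ₁ ρ).comp (algebraMap k K) = ρ := by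
    intro ρ
    have : σ₁ ρ ∈ (Finset.univ.filter (fun σ : K →+* A => σ.comp (algebraMap k K) = ρ)) := by
      rw [hu]
      exact Finset.mem_insert_self _ _
    exact (Finset.mem_filter.1 this).2
  have hm2 : ∀ ρ, (σ₂ ρ).comp (algebraMap k K) = ρ := by
    intro ρ
    have : σ₂ ρ ∈ (Finset.univ.filter (fun σ : K →+* A => σ.comp (algebraMap k K) = ρ)) := by
      rw [hu]
      exact Finset.mem_insert_of_mem (Finset.mem_singleton_self _)
    exact (Finset.mem_filter.1 this).2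
  have hroot : ∀ (ρ : k →+* A) (σ : K →+* A), σ.comp (algebraMap k K) = ρ →
      ρ (f 0) * (σ x) ^ 2 + ρ (f 1) * σ x + ρ (f 2) = 0 := by
    intro ρ σ hσ
    have h1 := congrArg σ hf
    rw [← hσ]
    simpa using h1
  refine ⟨fun ρ => σ₁ ρ x, fun ρ => σ₂ ρ x, ?_, ?_⟩
  · intro ρ z
    have hinj := rootsK_inj A K hK x hx (σ₁ ρ) (σ₂ ρ) ((hm1 ρ).trans (hm2 ρ).symm) (hne ρ)
    have h1 := hroot ρ _ (hm1 ρ)
    have h2 := hroot ρ _ (hm2 ρ)
    have hsub : σ₁ ρ x - σ₂ ρ x ≠ 0 := sub_ne_zero.mpr hinj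
    have hs : ρ (f 0) * (σ₁ ρ x + σ₂ ρ x) + ρ (f 1) = 0 := by
      have h3 : (σ₁ ρ x - σ₂ ρ x) * (ρ (f 0) * (σ₁ ρ x + σ₂ ρ x) + ρ (f 1)) = 0 := by
        linear_combination h1 - h2
      exact (mul_eq_zero.mp h3).resolve_left hsub
    linear_combination (z - σ₁ ρ x) * hs + h1
  · intro G
    rw [← Finset.sum_fiberwise Finset.univ (fun σ : K →+* A => σ.comp (algebraMap k K))
      (fun σ : K →+* A => G (σ.comp (algebraMap k K)) (σ x))]
    refine Finset.sum_congr rfl fun ρ _ => ?_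
    rw [hu ρ, Finset.sum_pair (hne ρ), hm1, hm2]

end Pool.Agent.SST
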