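import Pool.Agent.SST.KDefs
import Pool.Agent.SST.RootsK
import Pool.Agent.SST.IdealK
import Mathlib.NumberTheory.Height.NumberField

/-!
# The height of a quadratic point over a number field
-/

open Module NumberField

namespace Pool.Agent.SST

section

variable {k : Type} [Field k] [NumberField k]

/-- Products over the infinite places as products over the complex embeddings. -/
theorem heightK_prod_infinite (K : Type) [Field K] [NumberField K] (F : InfinitePlace K → ℝ) :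
    ∏ v : InfinitePlace K, F v ^ v.mult = ∏ σ : K →+* ℂ, F (InfinitePlace.mk σ) := by
  classical
  rw [← Finset.prod_fiberwise Finset.univ InfinitePlace.mk (fun φ => F (InfinitePlace.mk φ))]
  refine Finset.prod_congr rfl fun v _ => ?_
  have h1 : ∀ φ ∈ ({φ | InfinitePlace.mk φ = v} : Finset (K →+* ℂ)),
      F (InfinitePlace.mk φ) = F v := by
    intro φ hφ
    rw [(Finset.mem_filter.mp hφ).2]
  rw [Finset.prod_congr rfl h1, Finset.prod_const, InfinitePlace.card_filter_mk_eq]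

/-- The norm as a product over the complex embeddings. -/
theorem heightK_norm (a : 𝓞 k) :
    ∏ ρ : k →+* ℂ, ‖ρ (a : k)‖ = ((Algebra.norm ℤ a).natAbs : ℝ) := by
  have h1 := InfinitePlace.prod_eq_abs_norm (a : k)
  rw [heightK_prod_infinite k (fun v => v (a : k))] at h1
  simp only [InfinitePlace.apply] at h1
  rw [h1, ← Algebra.coe_norm_int]
  push_cast
  rw [Nat.cast_natAbs, Int.cast_abs]

omit [NumberField k] in
/-- The size of a form and its roots. -/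
theorem heightK_nf (ρ : k →+* ℂ) (f : Fin 3 → 𝓞 k) (z₁ z₂ : ℂ)
    (h : ∀ z, ρ (f 0) * z ^ 2 + ρ (f 1) * z + ρ (f 2) = ρ (f 0) * (z - z₁) * (z - z₂)) :
    nfA ρ f ≤ 2 * (‖ρ (f 0 : k)‖ * (max 1 ‖z₁‖ * max 1 ‖z₂‖)) := by
  have h2 : ρ (f 2 : k) = ρ (f 0) * (z₁ * z₂) := by
    have h3 := h 0
    linear_combination h3
  have h1 : ρ (f 1 : k) = -(ρ (f 0) * (z₁ + z₂)) := by
    have h3 := h 1
    linear_combination h3 - h2
  have m1 : 1 ≤ max 1 ‖z₁‖ := le_max_left _ _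
  have m2 : 1 ≤ max 1 ‖z₂‖ := le_max_left _ _
  have n1 : ‖z₁‖ ≤ max 1 ‖z₁‖ := le_max_right _ _
  have n2 : ‖z₂‖ ≤ max 1 ‖z₂‖ := le_max_right _ _
  set M1 := max 1 ‖z₁‖
  set M2 := max 1 ‖z₂‖
  have hN : 0 ≤ ‖ρ (f 0 : k)‖ := norm_nonneg _
  have hM : 1 ≤ M1 * M2 := one_le_mul_of_one_le_of_one_le m1 m2
  have hM1 : M1 ≤ M1 * M2 := le_mul_of_one_le_right (by linarith) m2
  have hM2 : M2 ≤ M1 * M2 := le_mul_of_one_le_left (by linarith) m1
  unfold nfA
  refine max_le ?_ (max_le ?_ ?_)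
  · nlinarith
  · rw [h1, norm_neg, norm_mul]
    have h4 : ‖z₁ + z₂‖ ≤ 2 * (M1 * M2) := (norm_add_le _ _).trans (by linarith)
    calc ‖ρ (f 0 : k)‖ * ‖z₁ + z₂‖ ≤ ‖ρ (f 0 : k)‖ * (2 * (M1 * M2)) :=
          mul_le_mul_of_nonneg_left h4 hN
      _ = _ := by ring
  · rw [h2, norm_mul, norm_mul]
    have h4 : ‖z₁‖ * ‖z₂‖ ≤ M1 * M2 :=
      mul_le_mul n1 n2 (norm_nonneg _) (by linarith)
    have h5 : ‖ρ (f 0 : k)‖ * (‖z₁‖ * ‖z₂‖) ≤ ‖ρ (f 0 : k)‖ * (M1 * M2) :=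
      mul_le_mul_of_nonneg_left h4 hN
    have h6 : 0 ≤ ‖ρ (f 0 : k)‖ * (M1 * M2) := by positivity
    linarith

omit [NumberField k] in
/-- The algebraic integer `f 0 * x`. -/
theorem heightK_integral (K : Type) [Field K] [NumberField K] [Algebra k K] (x : K)
    (f : Fin 3 → 𝓞 k)
    (hf : algebraMap k K (f 0) * x ^ 2 + algebraMap k K (f 1) * x + algebraMap k K (f 2) = 0) :
    IsIntegral ℤ (algebraMap k K (f 0) * x) := by
  have h1 : IsIntegral (𝓞 k) (algebraMap k K (f 0) * x) := by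
    refine ⟨Polynomial.X ^ 2 + Polynomial.C (f 1) * Polynomial.X + Polynomial.C (f 0 * f 2),
      ?_, ?_⟩
    · monicity!
    · rw [Polynomial.eval₂_add, Polynomial.eval₂_add, Polynomial.eval₂_mul, Polynomial.eval₂_pow,
        Polynomial.eval₂_X, Polynomial.eval₂_C, Polynomial.eval₂_C]
      have e : ∀ z : 𝓞 k, algebraMap (𝓞 k) K z = algebraMap k K (z : k) := fun z =>
        IsScalarTower.algebraMap_apply (𝓞 k) k K z
      rw [e, e]
      have e2 : ((f 0 * f 2 : 𝓞 k) : k) = (f 0 : k) * (f 2 : k) := rfl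
      rw [e2, map_mul]
      linear_combination algebraMap k K (f 0 : k) * hf
  exact isIntegral_trans _ h1

/-- The height of a quadratic point. -/
theorem heightK_core (K : Type) [Field K] [NumberField K] [Algebra k K] (x : K)
    (f : Fin 3 → 𝓞 k)
    (hf : algebraMap k K (f 0) * x ^ 2 + algebraMap k K (f 1) * x + algebraMap k K (f 2) = 0)
    (h0 : f 0 ≠ 0) (ξ₁ ξ₂ : (k →+* ℂ) → ℂ)
    (hroots : ∀ ρ z, ρ (f 0) * z ^ 2 + ρ (f 1) * z + ρ (f 2) =
      ρ (f 0) * (z - ξ₁ ρ) * (z - ξ₂ ρ))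
    (hG : ∀ G : (k →+* ℂ) → ℂ → ℝ, ∑ σ : K →+* ℂ, G (σ.comp (algebraMap k K)) (σ x) =
        ∑ ρ : k →+* ℂ, (G ρ (ξ₁ ρ) + G ρ (ξ₂ ρ)))
    (hI : ∀ y : 𝓞 K, (y : K) = algebraMap k K (f 0) * x →
      Ideal.absNorm (Ideal.span {algebraMap (𝓞 k) (𝓞 K) (f 0), y}) =
        (Algebra.norm ℤ (f 0)).natAbs * Ideal.absNorm (contentK f)) :
    ∏ ρ : k →+* ℂ, nfA ρ f ≤
      4 ^ (finrank ℚ k) * Ideal.absNorm (contentK f) * Height.mulHeight₁ x := by
  classical
  set a : K := algebraMap k K (f 0) with ha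
  have ha0 : a ≠ 0 := by
    rw [ha]
    intro h
    have h1 : (f 0 : k) = 0 := by
      exact (map_eq_zero (algebraMap k K)).1 h
    exact h0 (by exact_mod_cast h1)
  set y : 𝓞 K := ⟨a * x, heightK_integral K x f hf⟩ with hy
  have hyK : (y : K) = a * x := rfl
  set b : 𝓞 K := algebraMap (𝓞 k) (𝓞 K) (f 0) with hb
  have hbK : (b : K) = a := rfl
  have hIdeal := hI y hyK
  have hspan : Ideal.span (Set.range ![y, b]) = Ideal.span {b, y} := by
    congr 1
    ext z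
    simp only [Matrix.range_cons, Matrix.range_empty, Set.union_empty, Set.mem_union,
      Set.mem_singleton_iff, Set.mem_insert_iff]
    tauto
  have hne : (![y, b] : Fin 2 → 𝓞 K) ≠ 0 := by
    intro h
    have h1 := congrFun h 1
    have h2 : b = 0 := h1
    apply ha0
    rw [← hbK, h2]
    rfl
  have hfin := absNorm_mul_finprod_finitePlace_eq_one hne
  rw [hspan, hIdeal] at hfin
  have hcoe : (fun i => ((![y, b] i : 𝓞 K) : K)) = ![a * x, a] := by
    funext i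
    fin_cases i
    · rfl
    · rfl
  have hne' : (![a * x, a] : Fin 2 → K) ≠ 0 := by
    intro h
    exact ha0 (congrFun h 1)
  have hH : Height.mulHeight₁ x = Height.mulHeight ![a * x, a] := by
    rw [← Height.mulHeight₁_div_eq_mulHeight, mul_div_cancel_left₀ _ ha0]
  rw [mulHeight_eq hne'] at hH
  set C : ℝ := (((Algebra.norm ℤ (f 0)).natAbs * Ideal.absNorm (contentK f) : ℕ) : ℝ) with hC
  have hfin' : C * ∏ᶠ v : FinitePlace K, ⨆ i, v (![a * x, a] i) = 1 := by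
    rw [← hcoe]
    exact hfin
  set P : ℝ := ∏ v : InfinitePlace K, (⨆ i, v (![a * x, a] i)) ^ v.mult with hP
  set Q : ℝ := ∏ᶠ v : FinitePlace K, ⨆ i, v (![a * x, a] i) with hQ
  have hPH : P = C * Height.mulHeight₁ x := by
    rw [hH]
    linear_combination -P * hfin'
  -- the infinite part
  have hsup : ∀ v : InfinitePlace K, (⨆ i, v (![a * x, a] i)) = v a * max 1 (v x) := by
    intro v
    have h1 : (⨆ i, v (![a * x, a] i)) = max (v (a * x)) (v a) := by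
      refine le_antisymm (ciSup_le fun i => ?_) ?_
      · fin_cases i
        · exact le_max_left _ _
        · exact le_max_right _ _
      · have hbd : BddAbove (Set.range fun i => v (![a * x, a] i)) :=
          Set.Finite.bddAbove (Set.finite_range _)
        exact max_le (le_ciSup hbd 0) (le_ciSup hbd 1)
    rw [h1, map_mul, mul_max_of_nonneg _ _ (apply_nonneg v a), mul_one, max_comm]
  have hPemb : P = ∏ σ : K →+* ℂ, (‖σ a‖ * max 1 ‖σ x‖) := by
    rw [hP, heightK_prod_infinite K (fun v => ⨆ i, v (![a * x, a] i))]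
    refine Finset.prod_congr rfl fun σ _ => ?_
    rw [hsup, InfinitePlace.apply, InfinitePlace.apply]
  have hpos : ∀ σ : K →+* ℂ, 0 < ‖σ a‖ * max 1 ‖σ x‖ := by
    intro σ
    have h1 : 0 < ‖σ a‖ := norm_pos_iff.2 ((map_ne_zero σ).2 ha0)
    exact mul_pos h1 (lt_of_lt_of_le one_pos (le_max_left _ _))
  have hf0k : (f 0 : k) ≠ 0 := by exact_mod_cast h0
  have hρ : ∀ ρ : k →+* ℂ, 0 < ‖ρ (f 0 : k)‖ := fun ρ => norm_pos_iff.2 ((map_ne_zero ρ).2 hf0k)
  have hm : ∀ z : ℂ, 0 < max 1 ‖z‖ := fun z => lt_of_lt_of_le one_pos (le_max_left _ _)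
  have hPpos : 0 < P := by
    rw [hPemb]
    exact Finset.prod_pos fun σ _ => hpos σ
  set R : ℝ := ∏ ρ : k →+* ℂ, ((‖ρ (f 0 : k)‖ * max 1 ‖ξ₁ ρ‖) * (‖ρ (f 0 : k)‖ * max 1 ‖ξ₂ ρ‖))
    with hR
  have hRpos : 0 < R := by
    rw [hR]
    exact Finset.prod_pos fun ρ _ => mul_pos (mul_pos (hρ ρ) (hm _)) (mul_pos (hρ ρ) (hm _))
  have hPR : P = R := by
    have h1 : Real.log P = Real.log R := by
      rw [hPemb, hR, Real.log_prod (fun σ _ => (hpos σ).ne'), Real.log_prod (fun ρ _ =>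
        (mul_pos (mul_pos (hρ ρ) (hm _)) (mul_pos (hρ ρ) (hm _))).ne')]
      have h2 := hG (fun ρ z => Real.log (‖ρ (f 0 : k)‖ * max 1 ‖z‖))
      have h3 : ∑ σ : K →+* ℂ, Real.log (‖σ a‖ * max 1 ‖σ x‖) =
          ∑ σ : K →+* ℂ, Real.log (‖(σ.comp (algebraMap k K)) (f 0 : k)‖ * max 1 ‖σ x‖) := rfl
      rw [h3, h2]
      refine Finset.sum_congr rfl fun ρ _ => ?_
      rw [← Real.log_mul (mul_pos (hρ ρ) (hm _)).ne' (mul_pos (hρ ρ) (hm _)).ne']
    exact Real.log_injOn_pos (Set.mem_Ioi.2 hPpos) (Set.mem_Ioi.2 hRpos) h1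
  set N : ℝ := ∏ ρ : k →+* ℂ, ‖ρ (f 0 : k)‖ with hN
  have hNpos : 0 < N := Finset.prod_pos fun ρ _ => hρ ρ
  have hNC : C = N * Ideal.absNorm (contentK f) := by
    rw [hC, hN, heightK_norm]
    push_cast
    rfl
  have hcard : Fintype.card (k →+* ℂ) = finrank ℚ k := NumberField.Embeddings.card k ℂ
  have hle : N * ∏ ρ : k →+* ℂ, nfA ρ f ≤ 2 ^ (finrank ℚ k) * R := by
    rw [hN, ← Finset.prod_mul_distrib, ← hcard, ← Finset.card_univ, ← Finset.prod_const, hR,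
      ← Finset.prod_mul_distrib]
    refine Finset.prod_le_prod (fun ρ _ => mul_nonneg (norm_nonneg _) ?_) fun ρ _ => ?_
    · exact le_max_of_le_left (norm_nonneg _)
    · have h1 := heightK_nf ρ f (ξ₁ ρ) (ξ₂ ρ) (hroots ρ)
      calc ‖ρ (f 0 : k)‖ * nfA ρ f
          ≤ ‖ρ (f 0 : k)‖ * (2 * (‖ρ (f 0 : k)‖ * (max 1 ‖ξ₁ ρ‖ * max 1 ‖ξ₂ ρ‖))) :=
            mul_le_mul_of_nonneg_left h1 (norm_nonneg _)
        _ = _ := by ring
  have hHpos : 0 < Height.mulHeight₁ x := Height.mulHeight₁_pos x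
  have hle2 : N * ∏ ρ : k →+* ℂ, nfA ρ f ≤
      N * (2 ^ (finrank ℚ k) * Ideal.absNorm (contentK f) * Height.mulHeight₁ x) := by
    refine hle.trans (le_of_eq ?_)
    rw [← hPR, hPH, hNC]
    ring
  refine (le_of_mul_le_mul_left hle2 hNpos).trans ?_
  have h24 : (2 : ℝ) ^ (finrank ℚ k) ≤ 4 ^ (finrank ℚ k) :=
    pow_le_pow_left₀ (by norm_num) (by norm_num) _
  have hc : (0 : ℝ) ≤ Ideal.absNorm (contentK f) := Nat.cast_nonneg _
  exact mul_le_mul_of_nonneg_right (mul_le_mul_of_nonneg_right h24 hc) hHpos.le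


/-- The height of a quadratic point. -/
theorem heightK (K : Type) [Field K] [NumberField K] [Algebra k K] (hK : finrank k K = 2) (x : K)
    (hx : x ∉ Set.range (algebraMap k K)) (f : Fin 3 → 𝓞 k) (hf0 : f ≠ 0)
    (hf : algebraMap k K (f 0) * x ^ 2 + algebraMap k K (f 1) * x + algebraMap k K (f 2) = 0) :
    ∏ ρ : k →+* ℂ, nfA ρ f ≤
      4 ^ (finrank ℚ k) * Ideal.absNorm (contentK f) * Height.mulHeight₁ x := by
  obtain ⟨h0, -, ξ₁, ξ₂, hroots, hG⟩ := exists_rootsK ℂ K hK x hx f hf0 hf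
  exact heightK_core K x f hf h0 ξ₁ ξ₂ hroots hG
    (fun y hy => absNorm_pairK K hK x hx f hf0 hf y hy)

end

end Pool.Agent.SST
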