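import Pool.Agent.SST.KDefs
import Mathlib.RingTheory.Valuation.Integral
import Mathlib.Topology.Algebra.Valued.NormedValued

/-! Basic facts on the absolute values of a number field. -/

open MvPolynomial Filter Module NumberField
open scoped Topology

namespace Pool.Agent.SST

lemma kaux_integral_le_one {A : Type} [NormedField A] [IsUltrametricDist A] {z : A}
    (hz : (Int.castRingHom A).IsIntegralElem z) : ‖z‖ ≤ 1 := by
  obtain ⟨P, hP, hPz⟩ := hz
  have h1 : IsIntegral (NormedField.valuation (K := A)).integer z := by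
    refine ⟨P.map (Int.castRingHom _), hP.map _, ?_⟩
    rw [Polynomial.eval₂_map, ← hPz]
    congr 1
  have h2 := (Valuation.integer.integers (NormedField.valuation (K := A))).mem_of_integral h1
  exact h2

section

variable {k : Type} [Field k]

lemma kaux_integer_le_one (p : ℕ) [Fact p.Prime] (ρ : k →+* ℂ_[p]) (y : 𝓞 k) : ‖ρ y‖ ≤ 1 := by
  apply kaux_integral_le_one
  obtain ⟨P, hP, hPy⟩ := y.isIntegral_coe
  refine ⟨P, hP, ?_⟩
  have h1 := Polynomial.hom_eval₂ P (algebraMap ℤ k) ρ (y : k)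
  rw [hPy, map_zero] at h1
  rw [h1]
  congr 1
  apply RingHom.ext
  intro z
  rw [eq_intCast, eq_intCast]

variable {T : Type} {p : T → ℕ} [∀ t, Fact (p t).Prime]

lemma VK_algebraMap (e : ExtK k p) (l : PlK k p) (y : k) :
    VK e l (algebraMap k (AlgebraicClosure k) y) = vk l y := by
  rcases l with ρ | ρ
  · change ‖e.E ρ (algebraMap k _ y)‖ = ‖ρ y‖
    rw [e.hE]
  · change ‖e.E' ρ.1 ρ.2 (algebraMap k _ y)‖ = ‖ρ.2 y‖
    rw [e.hE']

lemma kaux_map_bsqK (γ : AlgebraicClosure k ≃ₐ[k] AlgebraicClosure k) (f : Fin 3 → 𝓞 k)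
    (i : Fin 2) : γ (bsqK f i) = bsqK f i := by
  fin_cases i <;> exact γ.commutes _

lemma kaux_map_aeval (γ : AlgebraicClosure k ≃ₐ[k] AlgebraicClosure k) (f : Fin 3 → 𝓞 k)
    (P : MvPolynomial (Fin 2) (AlgebraicClosure k)) :
    γ (aeval (bsqK f) P) =
      aeval (bsqK f) (map (γ : AlgebraicClosure k →+* AlgebraicClosure k) P) := by
  have h1 := MvPolynomial.eval₂_comp_left (γ : AlgebraicClosure k →+* AlgebraicClosure k)
    (algebraMap (AlgebraicClosure k) (AlgebraicClosure k)) (bsqK f) P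
  have h2 : (γ : AlgebraicClosure k →+* AlgebraicClosure k) ∘ bsqK f = bsqK f :=
    funext fun i => kaux_map_bsqK γ f i
  rw [h2] at h1
  change (γ : AlgebraicClosure k →+* AlgebraicClosure k) (aeval (bsqK f) P) = _
  rw [MvPolynomial.aeval_def, h1, MvPolynomial.aeval_def, MvPolynomial.eval₂_map]
  rfl

lemma kaux_coe_ne {y : 𝓞 k} (h : y ≠ 0) : (y : k) ≠ 0 := by
  intro h0
  exact h (RingOfIntegers.coe_eq_zero_iff.mp h0)

lemma kaux_alg_ne {y : 𝓞 k} (h : y ≠ 0) : algebraMap k (AlgebraicClosure k) (y : k) ≠ 0 := by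
  rw [Ne, map_eq_zero]
  exact kaux_coe_ne h

lemma kaux_bsq_val (f : Fin 3 → 𝓞 k) (h0 : f 0 ≠ 0) (α : AlgebraicClosure k) :
    fq α (bsqK f) = evk f (α : OnePoint (AlgebraicClosure k)) /
      algebraMap k (AlgebraicClosure k) (f 0 : k) := by
  have h0' := kaux_alg_ne h0
  change (algebraMap (AlgebraicClosure k) (AlgebraicClosure k) α) ^ 2 +
    algebraMap k (AlgebraicClosure k) ((f 1 : k) / (f 0 : k)) *
      (algebraMap (AlgebraicClosure k) (AlgebraicClosure k) α) +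
    algebraMap k (AlgebraicClosure k) ((f 2 : k) / (f 0 : k)) =
    (algebraMap k _ (f 0 : k) * α ^ 2 + algebraMap k _ (f 1 : k) * α +
      algebraMap k _ (f 2 : k)) / algebraMap k (AlgebraicClosure k) (f 0 : k)
  rw [Algebra.algebraMap_self, RingHom.id_apply, map_div₀, map_div₀]
  field_simp

lemma kaux_disc_coe (f : Fin 3 → 𝓞 k) :
    ((discK f : 𝓞 k) : k) = (f 1 : k) ^ 2 - 4 * (f 0 : k) * (f 2 : k) := by
  have h4 : algebraMap (𝓞 k) k 4 = 4 := map_ofNat (algebraMap (𝓞 k) k) 4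
  rw [discK]
  change algebraMap (𝓞 k) k (f 1 ^ 2 - 4 * f 0 * f 2) = _
  rw [map_sub, map_mul, map_mul, map_pow, h4]

lemma kaux_bsq_disc (f : Fin 3 → 𝓞 k) (h0 : f 0 ≠ 0) :
    dq (bsqK f) = algebraMap k (AlgebraicClosure k) ((discK f : 𝓞 k) : k) /
      (algebraMap k (AlgebraicClosure k) (f 0 : k)) ^ 2 := by
  have h0' := kaux_alg_ne h0
  change (algebraMap k (AlgebraicClosure k) ((f 1 : k) / (f 0 : k))) ^ 2 -
    4 * (algebraMap k (AlgebraicClosure k) ((f 2 : k) / (f 0 : k))) = _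
  rw [kaux_disc_coe, map_div₀, map_div₀]
  simp only [map_sub, map_mul, map_pow, map_ofNat]
  field_simp

lemma kaux_disc_ne {f : Fin 3 → 𝓞 k} (h : ¬ IsSquare ((discK f : 𝓞 k) : k)) : discK f ≠ 0 := by
  intro h0
  apply h
  rw [h0]
  exact ⟨0, by simp⟩

lemma kaux_f0_ne {f : Fin 3 → 𝓞 k} (h : ¬ IsSquare ((discK f : 𝓞 k) : k)) : f 0 ≠ 0 := by
  intro h0
  apply h
  refine ⟨f 1, ?_⟩
  rw [kaux_disc_coe, h0]
  simp
  ring

/-- an irreducible form has no root in `k` -/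
lemma kaux_no_root {f : Fin 3 → 𝓞 k} (h : ¬ IsSquare ((discK f : 𝓞 k) : k)) (r : k)
    (hr : (f 0 : k) * r ^ 2 + (f 1 : k) * r + (f 2 : k) = 0) : False := by
  apply h
  refine ⟨2 * (f 0 : k) * r + (f 1 : k), ?_⟩
  rw [kaux_disc_coe]
  linear_combination (-4 * (f 0 : k)) * hr

end

end Pool.Agent.SST
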