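import Mathlib.NumberTheory.Height.NumberField
import Mathlib.NumberTheory.NumberField.Discriminant.Basic
import Mathlib.Topology.Compactification.OnePoint.Basic

/-! Proximity functions, heights and logarithmic discriminants of algebraic points of the
projective line, at the archimedean place of the rational numbers. -/

namespace Pool.Agent.SST

/-- The chordal distance of the points `(z : 1)` and `α` of the projective line over `ℂ`, where
`OnePoint ℂ` is the projective line, `∞` being the point `(1 : 0)`. -/
noncomputable def chord (z : ℂ) (α : OnePoint ℂ) : ℝ :=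
  match α with
  | OnePoint.infty => 1 / Real.sqrt (1 + ‖z‖ ^ 2)
  | OnePoint.some w => ‖z - w‖ / (Real.sqrt (1 + ‖z‖ ^ 2) * Real.sqrt (1 + ‖w‖ ^ 2))

/-- The proximity function `m(D, P)` for the divisor `∑ α ∈ D, (α)` of the projective line, the
point `P = (x : 1)` with residue field `K` (so `K = ℚ(x)`) and the set of places `{∞}` of `ℚ`. -/
noncomputable def prox (D : Finset (OnePoint ℂ)) (K : Type) [Field K] [NumberField K] (x : K) : ℝ :=
  (∑ σ : K →+* ℂ, ∑ α ∈ D, -Real.log (chord (σ x) α)) / Module.finrank ℚ K

/-- The absolute logarithmic height of the point `(x : 1)`, `x ∈ K`. -/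
noncomputable def ht (K : Type) [Field K] [NumberField K] (x : K) : ℝ :=
  Height.logHeight₁ x / Module.finrank ℚ K

/-- The normalised logarithmic discriminant of a number field. -/
noncomputable def logDisc (K : Type) [Field K] [NumberField K] : ℝ :=
  Real.log |(NumberField.discr K : ℝ)| / Module.finrank ℚ K

end Pool.Agent.SST
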