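import Pool.Agent.SST.SeqDefs
import Pool.Agent.SST.ProxDefs
import Mathlib.RingTheory.Polynomial.Basic
import Mathlib.NumberTheory.NumberField.Norm
import Mathlib.RingTheory.Ideal.Norm.AbsNorm

/-! Number field case: definitions. -/

open MvPolynomial Filter Module NumberField
open scoped Topology

namespace Pool.Agent.SST

/-- the absolute value defined by an embedding in a normed field -/
noncomputable def absOf {k A : Type} [Field k] [NormedField A] (ι : k →+* A) :
    AbsoluteValue k ℝ :=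
  (NormedField.toAbsoluteValue A).comp ι.injective

/-- the places: embeddings of `k` in `ℂ` and in the fields `ℂ_[p t]` -/
abbrev PlK (k : Type) [Field k] {T : Type} (p : T → ℕ) [∀ t, Fact (p t).Prime] : Type :=
  (k →+* ℂ) ⊕ (Σ t, (k →+* ℂ_[p t]))

section

variable {k : Type} [Field k] {T : Type} {p : T → ℕ} [∀ t, Fact (p t).Prime]

/-- the absolute values on `k` -/
noncomputable def vk : PlK k p → AbsoluteValue k ℝ
  | Sum.inl ρ => absOf ρ
  | Sum.inr ρ => absOf ρ.2

variable (k p) in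
/-- a choice of extensions of the embeddings of `k` to its algebraic closure -/
structure ExtK where
  /-- extensions of the complex embeddings -/
  E : (k →+* ℂ) → (AlgebraicClosure k →+* ℂ)
  /-- extensions of the `p`-adic embeddings -/
  E' : ∀ t, (k →+* ℂ_[p t]) → (AlgebraicClosure k →+* ℂ_[p t])
  hE : ∀ ρ x, E ρ (algebraMap k _ x) = ρ x
  hE' : ∀ t ρ x, E' t ρ (algebraMap k _ x) = ρ x

/-- the absolute values on the algebraic closure -/
noncomputable def VK (e : ExtK k p) : PlK k p → AbsoluteValue (AlgebraicClosure k) ℝ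
  | Sum.inl ρ => absOf (e.E ρ)
  | Sum.inr ρ => absOf (e.E' ρ.1 ρ.2)

/-- size of a form at an embedding -/
noncomputable def nfA {A : Type} [NormedField A] (ρ : k →+* A) (f : Fin 3 → 𝓞 k) : ℝ :=
  max ‖ρ (f 0)‖ (max ‖ρ (f 1)‖ ‖ρ (f 2)‖)

/-- size of a form at a place -/
noncomputable def nfk : PlK k p → (Fin 3 → 𝓞 k) → ℝ
  | Sum.inl ρ => nfA ρ
  | Sum.inr ρ => nfA ρ.2

/-- the coordinates `(f 1 / f 0, f 2 / f 0)` -/
noncomputable def bsqK (f : Fin 3 → 𝓞 k) : Fin 2 → AlgebraicClosure k :=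
  ![algebraMap k _ ((f 1 : k) / (f 0 : k)), algebraMap k _ ((f 2 : k) / (f 0 : k))]

/-- discriminant of a quadratic form -/
def discK (f : Fin 3 → 𝓞 k) : 𝓞 k := f 1 ^ 2 - 4 * f 0 * f 2

/-- value of a form at a point of the projective line -/
noncomputable def evk (f : Fin 3 → 𝓞 k) (γ : OnePoint (AlgebraicClosure k)) :
    AlgebraicClosure k :=
  match γ with
  | OnePoint.infty => algebraMap k _ (f 0 : k)
  | OnePoint.some z => algebraMap k _ (f 0 : k) * z ^ 2 + algebraMap k _ (f 1 : k) * z +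
      algebraMap k _ (f 2 : k)

/-- the ideal generated by the coefficients -/
def contentK (f : Fin 3 → 𝓞 k) : Ideal (𝓞 k) := Ideal.span (Set.range f)

variable (p) in
/-- a sequence of vectors of algebraic integers of size `exp (h n)`, with leading coefficients of
maximal size up to `exp (o (h n))` at all places -/
structure SeqK (U : Ultrafilter ℕ) (h : ℕ → ℝ) (f : ℕ → Fin 3 → 𝓞 k) : Prop where
  tend : Tendsto h U atTop
  ne : ∀ n, f n 0 ≠ 0
  le : ∀ n i (ρ : k →+* ℂ), ‖ρ (f n i)‖ ≤ Real.exp (h n)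
  lim0 : ∀ ρ : k →+* ℂ, Tendsto (fun n => Real.log ‖ρ (f n 0)‖ / h n) U (𝓝 1)
  limt : ∀ t (ρ : k →+* ℂ_[p t]), Tendsto (fun n => Real.log ‖ρ (f n 0)‖ / h n) U (𝓝 0)

end

end Pool.Agent.SST
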