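import Pool.Agent.SST.SchlickC
import Pool.Agent.SST.KDefs
import Mathlib.RingTheory.Discriminant
import Mathlib.LinearAlgebra.Matrix.Kronecker

/-! The subspace theorem over a number field, first step: relations of trace zero. -/

open MvPolynomial Filter Module NumberField
open scoped Topology

namespace Pool.Agent.SST

section

variable {k : Type} [Field k] [NumberField k]

/-- integral coordinates -/
noncomputable def schlickTrK_co {ι : Type} (x : ι → 𝓞 k) :
    ι × Free.ChooseBasisIndex ℤ (𝓞 k) → ℤ :=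
  fun q => (RingOfIntegers.basis k).repr (x q.1) q.2

/-- the embeddings matrix -/
noncomputable def schlickTrK_Om {A : Type} [Field A]
    (e : Free.ChooseBasisIndex ℤ (𝓞 k) ≃ (k →+* A)) :
    Matrix (Free.ChooseBasisIndex ℤ (𝓞 k)) (Free.ChooseBasisIndex ℤ (𝓞 k)) A :=
  Matrix.of fun (c d : Free.ChooseBasisIndex ℤ (𝓞 k)) =>
      e c ((RingOfIntegers.basis k d : 𝓞 k) : k)

/-- the determinant of the embeddings matrix is not zero -/
theorem schlickTrK_det {A : Type} [Field A] [CharZero A] [IsAlgClosed A]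
    (e : Free.ChooseBasisIndex ℤ (𝓞 k) ≃ (k →+* A)) :
    (schlickTrK_Om e).det ≠ 0 := by
  let _ : Algebra ℚ A := DivisionRing.toRatAlgebra
  have h := Algebra.discr_eq_det_embeddingsMatrixReindex_pow_two ℚ A (integralBasis k)
    (e.trans (RingHom.equivRatAlgHom k A))
  have h1 := Algebra.discr_not_zero_of_basis ℚ (integralBasis k)
  have h2 : (schlickTrK_Om e).det =
      (Algebra.embeddingsMatrixReindex ℚ A (integralBasis k)
        (e.trans (RingHom.equivRatAlgHom k A))).det := by
    rw [← Matrix.det_transpose]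
    congr 1
    ext i j
    simp [Algebra.embeddingsMatrixReindex, Algebra.embeddingsMatrix, schlickTrK_Om]
  rw [h2]
  intro h3
  rw [h3] at h
  simp at h
  exact h1 h

/-- values of the embeddings in terms of coordinates -/
theorem schlickTrK_emb {A : Type} [Field A] (ρ : k →+* A) {ι : Type} (x : ι → 𝓞 k) (j : ι) :
    ∑ d, ρ ((RingOfIntegers.basis k d : 𝓞 k) : k) * ((schlickTrK_co x (j, d) : ℤ) : A) =
      ρ (x j) := by
  have h := (RingOfIntegers.basis k).sum_repr (x j)
  have h2 := congrArg (fun y : 𝓞 k => ρ (y : k)) h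
  simp only [map_sum] at h2
  rw [← h2]
  refine Finset.sum_congr rfl fun d _ => ?_
  simp [schlickTrK_co, mul_comm, zsmul_eq_mul]

/-- a matrix over `A` combining the embeddings -/
theorem schlickTrK_matrix {A : Type} [Field A] [CharZero A] [IsAlgClosed A] [Algebra ℚ A]
    {ι : Type} [Fintype ι] [DecidableEq ι]
    (E : (k →+* A) → (AlgebraicClosure k →+* A))
    (hE : ∀ ρ x, E ρ (algebraMap k _ x) = ρ x)
    (e : Free.ChooseBasisIndex ℤ (𝓞 k) ≃ (k →+* A))
    (L : (k →+* A) → Matrix ι ι (AlgebraicClosure k)) (hL : ∀ ρ, (L ρ).det ≠ 0) :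
    ∃ M : Matrix (ι × Free.ChooseBasisIndex ℤ (𝓞 k)) (ι × Free.ChooseBasisIndex ℤ (𝓞 k)) A,
      (∀ i j, IsAlgebraic ℚ (M i j)) ∧ M.det ≠ 0 ∧
      ∀ (x : ι → 𝓞 k) i c, M.mulVec (fun q => ((schlickTrK_co x q : ℤ) : A)) (i, c) =
        E (e c) ((L (e c)).mulVec (fun j => algebraMap k _ (x j : k)) i) := by
  have halg : ∀ (ρ : k →+* A) (y : AlgebraicClosure k), IsAlgebraic ℚ (E ρ y) := by
    intro ρ y
    have h1 : IsAlgebraic ℚ y := by
      have : Algebra.IsAlgebraic ℚ (AlgebraicClosure k) := Algebra.IsAlgebraic.trans ℚ k _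
      exact Algebra.IsAlgebraic.isAlgebraic y
    have h2 := IsAlgebraic.algHom (RingHom.toRatAlgHom (E ρ)) h1
    simpa using h2
  refine ⟨Matrix.of fun q r => E (e q.2) (L (e q.2) q.1 r.1) *
    e q.2 ((RingOfIntegers.basis k r.2 : 𝓞 k) : k), ?_, ?_, ?_⟩
  · intro q r
    simp only [Matrix.of_apply]
    rw [← hE]
    exact (halg _ _).mul (halg _ _)
  · have hM : (Matrix.of fun (q r : ι × Free.ChooseBasisIndex ℤ (𝓞 k)) =>
        E (e q.2) (L (e q.2) q.1 r.1) * e q.2 ((RingOfIntegers.basis k r.2 : 𝓞 k) : k)) =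
        Matrix.blockDiagonal (fun c => (L (e c)).map (E (e c))) *
          Matrix.kroneckerMap (· * ·) (1 : Matrix ι ι A) (schlickTrK_Om e) := by
      ext ⟨i, c⟩ ⟨j, d⟩
      rw [Matrix.mul_apply, Fintype.sum_prod_type, Finset.sum_comm]
      simp only [Matrix.blockDiagonal_apply, Matrix.kroneckerMap_apply, Matrix.map_apply,
        Matrix.of_apply, schlickTrK_Om]
      rw [Finset.sum_eq_single c]
      · rw [Finset.sum_eq_single j]
        · simp
        · intro b _ hb
          simp [Matrix.one_apply, hb]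
        · simp
      · intro b _ hb
        refine Finset.sum_eq_zero fun a _ => ?_
        rw [if_neg (fun h => hb h.symm)]
        simp
      · simp
    rw [hM, Matrix.det_mul, Matrix.det_blockDiagonal, Matrix.det_kronecker]
    refine mul_ne_zero (Finset.prod_ne_zero_iff.2 fun c _ => ?_) ?_
    · have : ((L (e c)).map (E (e c))).det = E (e c) (L (e c)).det := by
        rw [RingHom.map_det, RingHom.mapMatrix_apply]
      rw [this]
      exact (map_ne_zero _).2 (hL _)
    · simp only [Matrix.det_one, one_pow, one_mul]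
      exact pow_ne_zero _ (schlickTrK_det e)
  · intro x i c
    simp only [Matrix.mulVec, dotProduct, Matrix.of_apply, map_sum, map_mul, hE]
    rw [Fintype.sum_prod_type]
    refine Finset.sum_congr rfl fun j _ => ?_
    rw [← schlickTrK_emb (e c) x j, Finset.mul_sum]
    refine Finset.sum_congr rfl fun d _ => ?_
    ring

/-- a bound for the coordinates -/
theorem schlickTrK_bound (ι : Type) : ∃ C : ℝ, 1 ≤ C ∧ ∀ (x : ι → 𝓞 k) (H : ℝ),
    (∀ (ρ : k →+* ℂ) i, ‖ρ (x i)‖ ≤ H) →
      ∀ q, |((schlickTrK_co x q : ℤ) : ℝ)| ≤ C * H := by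
  classical
  have hcard : Fintype.card (Free.ChooseBasisIndex ℤ (𝓞 k)) = Fintype.card (k →+* ℂ) := by
    rw [NumberField.Embeddings.card, ← finrank_eq_card_chooseBasisIndex, RingOfIntegers.rank]
  let e := Fintype.equivOfCardEq hcard
  have hdet := schlickTrK_det e
  let N := (schlickTrK_Om e)⁻¹
  have hN : N * schlickTrK_Om e = 1 := Matrix.nonsing_inv_mul _ (isUnit_iff_ne_zero.2 hdet)
  refine ⟨1 + ∑ c, ∑ d, ‖N c d‖, ?_, ?_⟩
  · have : 0 ≤ ∑ c, ∑ d, ‖N c d‖ := Finset.sum_nonneg fun _ _ => Finset.sum_nonneg fun _ _ =>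
      norm_nonneg _
    linarith
  · rintro x H hx ⟨j, c⟩
    have h1 : (schlickTrK_Om e).mulVec (fun d => ((schlickTrK_co x (j, d) : ℤ) : ℂ)) =
        fun c => e c (x j) := by
      ext c
      rw [← schlickTrK_emb (e c) x j]
      simp [Matrix.mulVec, dotProduct, schlickTrK_Om]
    have h2 : N.mulVec (fun c => e c (x j)) = fun d => ((schlickTrK_co x (j, d) : ℤ) : ℂ) := by
      rw [← h1, Matrix.mulVec_mulVec, hN, Matrix.one_mulVec]
    have h3 := congrFun h2 c
    have hH : 0 ≤ H := (norm_nonneg _).trans (hx (e c) j)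
    have h4 : |((schlickTrK_co x (j, c) : ℤ) : ℝ)| = ‖((schlickTrK_co x (j, c) : ℤ) : ℂ)‖ := by
      simp
    rw [h4, ← h3]
    calc ‖N.mulVec (fun c => e c (x j)) c‖ ≤ ∑ d, ‖N c d‖ * H := by
          rw [Matrix.mulVec, dotProduct]
          refine (norm_sum_le _ _).trans (Finset.sum_le_sum fun d _ => ?_)
          rw [norm_mul]
          exact mul_le_mul_of_nonneg_left (hx _ _) (norm_nonneg _)
      _ = (∑ d, ‖N c d‖) * H := by rw [Finset.sum_mul]
      _ ≤ (1 + ∑ c, ∑ d, ‖N c d‖) * H := by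
          refine mul_le_mul_of_nonneg_right ?_ hH
          have : ∑ d, ‖N c d‖ ≤ ∑ c, ∑ d, ‖N c d‖ :=
            Finset.single_le_sum (f := fun c => ∑ d, ‖N c d‖)
              (fun _ _ => Finset.sum_nonneg fun _ _ => norm_nonneg _) (Finset.mem_univ c)
          linarith

/-- the relation over `k` -/
theorem schlickTrK_rel {ι : Type} [Fintype ι] [DecidableEq ι]
    (b : ι × Free.ChooseBasisIndex ℤ (𝓞 k) → ℤ) (hb : b ≠ 0) :
    ∃ β : ι → k, β ≠ 0 ∧ ∀ x : ι → 𝓞 k, ∑ q, b q * schlickTrK_co x q = 0 →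
      Algebra.trace ℚ k (∑ i, β i * (x i : k)) = 0 := by
  classical
  let w := (integralBasis k).traceDual
  refine ⟨fun i => ∑ d, (b (i, d) : ℚ) • w d, ?_, ?_⟩
  · intro h
    apply hb
    ext ⟨i, d⟩
    have h1 := congrFun h i
    have h2 : w.repr (∑ d, (b (i, d) : ℚ) • w d) d = 0 := by
      simp only [Pi.zero_apply] at h1
      rw [h1]
      simp
    rw [map_sum] at h2
    simp [Finsupp.single_apply] at h2
    simpa using h2
  · intro x hx
    have h1 : ∀ i, ((x i : 𝓞 k) : k) = ∑ c, (schlickTrK_co x (i, c) : ℚ) • integralBasis k c := by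
      intro i
      have h := (RingOfIntegers.basis k).sum_repr (x i)
      have h2 := congrArg (fun y : 𝓞 k => (y : k)) h
      simp only [map_sum] at h2
      rw [← h2]
      refine Finset.sum_congr rfl fun d _ => ?_
      simp [schlickTrK_co, Algebra.smul_def]
    have h2 : ∀ i, Algebra.trace ℚ k ((∑ d, (b (i, d) : ℚ) • w d) * (x i : k)) =
        ∑ d, (b (i, d) : ℚ) * schlickTrK_co x (i, d) := by
      intro i
      rw [h1, Finset.sum_mul, map_sum]
      refine Finset.sum_congr rfl fun d _ => ?_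
      rw [Finset.mul_sum, map_sum, Finset.sum_eq_single d]
      · rw [smul_mul_smul_comm, map_smul, (integralBasis k).trace_traceDual_mul]
        simp
      · intro c _ hc
        rw [smul_mul_smul_comm, map_smul, (integralBasis k).trace_traceDual_mul]
        simp [hc]
      · simp
    rw [map_sum]
    simp only [h2]
    have h3 : ((∑ q, b q * schlickTrK_co x q : ℤ) : ℚ) = 0 := by rw [hx]; simp
    rw [Fintype.sum_prod_type] at h3
    push_cast at h3
    exact h3

/-- every vector satisfies a non-trivial relation -/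
theorem schlickTrK_triv {ι : Type} [Fintype ι] [DecidableEq ι] (hι : 2 ≤ Fintype.card ι)
    (x : ι → 𝓞 k) : ∃ β : ι → k, β ≠ 0 ∧ ∑ i, β i * (x i : k) = 0 := by
  obtain ⟨i, j, hij⟩ := Fintype.one_lt_card_iff.1 (by omega : 1 < Fintype.card ι)
  by_cases h : (x i : k) = 0
  · refine ⟨Pi.single i 1, fun h0 => ?_, ?_⟩
    · have := congrFun h0 i
      simp at this
    · rw [Finset.sum_eq_single i]
      · simp [h]
      · intro b _ hb
        simp [Pi.single_apply, hb]
      · simp
  · refine ⟨Pi.single i (x j : k) - Pi.single j (x i : k), fun h0 => ?_, ?_⟩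
    · have := congrFun h0 j
      simp [Pi.single_apply, hij.symm] at this
      exact h (by simpa using this)
    · simp only [Pi.sub_apply, sub_mul, Finset.sum_sub_distrib]
      rw [Finset.sum_eq_single i, Finset.sum_eq_single j]
      · simp [mul_comm]
      · intro b _ hb
        simp [Pi.single_apply, hb]
      · simp
      · intro b _ hb
        simp [Pi.single_apply, hb]
      · simp

theorem schlickTrK_finite {ι : Type} [Finite ι] (B : ℝ) :
    {x : ι → 𝓞 k | ∀ (ρ : k →+* ℂ) i, ‖ρ (x i)‖ ≤ B}.Finite := by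
  have h := Embeddings.finite_of_norm_le k ℂ B
  have h2 : {y : 𝓞 k | ∀ ρ : k →+* ℂ, ‖ρ y‖ ≤ B}.Finite := by
    refine Set.Finite.of_finite_image (f := fun y : 𝓞 k => (y : k)) (h.subset ?_)
      (fun a _ b _ hab => RingOfIntegers.coe_injective hab)
    rintro _ ⟨y, hy, rfl⟩
    exact ⟨RingOfIntegers.isIntegral_coe y, hy⟩
  refine (Set.Finite.pi' fun _ : ι => h2).subset ?_
  intro x hx i ρ
  exact hx ρ i

variable {T : Type} [Fintype T] [DecidableEq T] {p : T → ℕ} [∀ t, Fact (p t).Prime]

/-- first step: relations of trace zero -/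
theorem schlick_trK (e : ExtK k p) (hp : Function.Injective p) {ι : Type} [Fintype ι]
    [DecidableEq ι] (hι : 2 ≤ Fintype.card ι)
    (L : PlK k p → Matrix ι ι (AlgebraicClosure k)) (hL : ∀ l, (L l).det ≠ 0)
    (δ : ℝ) (hδ : 0 < δ) :
    ∃ F : Finset (ι → k), 0 ∉ F ∧ ∀ (x : ι → 𝓞 k) (H : ℝ), 1 ≤ H →
      (∀ (ρ : k →+* ℂ) i, ‖ρ (x i)‖ ≤ H) →
      ∏ l, ∏ i, VK e l ((L l).mulVec (fun j => algebraMap k _ (x j : k)) i) ≤ H ^ (-δ) →
      ∃ β ∈ F, Algebra.trace ℚ k (∑ i, β i * (x i : k)) = 0 := by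
  classical
  have hcard : ∀ (A : Type) [Field A] [CharZero A] [IsAlgClosed A],
      Fintype.card (Free.ChooseBasisIndex ℤ (𝓞 k)) = Fintype.card (k →+* A) := by
    intro A _ _ _
    rw [NumberField.Embeddings.card, ← finrank_eq_card_chooseBasisIndex, RingOfIntegers.rank]
  let eC := Fintype.equivOfCardEq (hcard ℂ)
  let eT := fun t => Fintype.equivOfCardEq (hcard ℂ_[p t])
  obtain ⟨M, hMalg, hMdet, hM⟩ := schlickTrK_matrix e.E e.hE eC (fun ρ => L (Sum.inl ρ))
    (fun ρ => hL _)
  choose M' hM'alg hM'det hM' using fun t => schlickTrK_matrix (e.E' t) (e.hE' t) (eT t)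
    (fun ρ => L (Sum.inr ⟨t, ρ⟩)) (fun ρ => hL _)
  have hcard2 : 2 ≤ Fintype.card (ι × Free.ChooseBasisIndex ℤ (𝓞 k)) := by
    rw [Fintype.card_prod]
    have : 1 ≤ Fintype.card (Free.ChooseBasisIndex ℤ (𝓞 k)) := by
      rw [← finrank_eq_card_chooseBasisIndex, RingOfIntegers.rank]
      exact finrank_pos
    nlinarith
  obtain ⟨F', hF0, hF'⟩ := schlickeweiC hcard2 p hp M hMalg hMdet M' hM'alg hM'det (δ / 2)
    (by positivity)
  obtain ⟨C, hC1, hC⟩ := schlickTrK_bound (k := k) ι
  choose f hf0 hf using fun b : {b : ι × Free.ChooseBasisIndex ℤ (𝓞 k) → ℤ // b ≠ 0} =>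
    schlickTrK_rel b.1 b.2
  choose g hg0 hg using fun x : ι → 𝓞 k => schlickTrK_triv hι x
  have hfin := schlickTrK_finite (k := k) (ι := ι) C
  refine ⟨F'.attach.image (fun b => f ⟨b.1, fun h => hF0 (h ▸ b.2)⟩) ∪ hfin.toFinset.image g,
    ?_, ?_⟩
  · simp only [Finset.mem_union, Finset.mem_image, not_or, not_exists, not_and]
    exact ⟨fun b _ => hf0 _, fun x _ => hg0 x⟩
  · intro x H hH hx hprod
    rcases lt_or_ge H C with hHC | hHC
    · refine ⟨g x, Finset.mem_union_right _ (Finset.mem_image_of_mem _ ?_), ?_⟩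
      · rw [Set.Finite.mem_toFinset]
        exact fun ρ i => (hx ρ i).trans hHC.le
      · rw [hg x, map_zero]
    · have hCH : 1 ≤ C * H := by nlinarith
      obtain ⟨b, hb, hb2⟩ := hF' (schlickTrK_co x) (C * H) hCH (fun q => hC x H hx q) (by
        have h1 : (∏ q, ‖M.mulVec (fun j => ((schlickTrK_co x j : ℤ) : ℂ)) q‖) *
            ∏ t, ∏ q, ‖(M' t).mulVec (fun j => ((schlickTrK_co x j : ℤ) : ℂ_[p t])) q‖ =
            ∏ l, ∏ i, VK e l ((L l).mulVec (fun j => algebraMap k _ (x j : k)) i) := by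
          rw [Fintype.prod_sum_type, Fintype.prod_sigma]
          congr 1
          · rw [Fintype.prod_prod_type_right]
            refine Fintype.prod_equiv eC _ _ fun c => ?_
            refine Finset.prod_congr rfl fun i _ => ?_
            rw [hM]
            rfl
          · refine Finset.prod_congr rfl fun t _ => ?_
            rw [Fintype.prod_prod_type_right]
            refine Fintype.prod_equiv (eT t) _ _ fun c => ?_
            refine Finset.prod_congr rfl fun i _ => ?_
            rw [hM']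
            rfl
        rw [h1]
        refine hprod.trans ?_
        have hH0 : 0 < H := by linarith
        have h2 : C * H ≤ H * H := by nlinarith
        calc H ^ (-δ) = (H * H) ^ (-(δ / 2)) := by
              rw [Real.mul_rpow hH0.le hH0.le, ← Real.rpow_add hH0]
              congr 1
              ring
          _ ≤ (C * H) ^ (-(δ / 2)) :=
              Real.rpow_le_rpow_of_nonpos (by linarith) h2 (by linarith))
      refine ⟨f ⟨b, fun h => hF0 (h ▸ hb)⟩, Finset.mem_union_left _ (Finset.mem_image.2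
        ⟨⟨b, hb⟩, Finset.mem_attach _ _, rfl⟩), ?_⟩
      exact hf _ x hb2

end

end Pool.Agent.SST
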