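import Pool.Agent.SST.KDefs
import Pool.Agent.SST.SchlickTrK
import Mathlib.RingTheory.Trace.Basic
import Mathlib.LinearAlgebra.Lagrange
import Mathlib.NumberTheory.NumberField.Basic
import Mathlib.NumberTheory.NumberField.InfinitePlace.Embeddings

/-! The subspace theorem over a number field: from relations of trace zero to linear relations. -/

open Filter Module NumberField
open scoped Topology

namespace Pool.Agent.SST

section

variable {k : Type} [Field k] [NumberField k]

/-- the multipliers -/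
noncomputable def schlickKU (k : Type) [Field k] [NumberField k] (s : ℕ) : 𝓞 k :=
  ∑ l, (s : 𝓞 k) ^ (Fintype.equivFin (Free.ChooseBasisIndex ℤ (𝓞 k)) l : ℕ) *
    RingOfIntegers.basis k l

theorem schlickK_trace (y : k)
    (h : ∀ l, Algebra.trace ℚ k ((RingOfIntegers.basis k l : k) * y) = 0) : y = 0 := by
  have h1 : (Algebra.trace ℚ k).comp (LinearMap.mulRight ℚ y) = 0 := by
    refine (integralBasis k).ext fun l => ?_
    rw [integralBasis_apply]
    exact h l
  have h2 := (traceForm_nondegenerate ℚ k).2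
  refine h2 y fun z => ?_
  rw [Algebra.traceForm_apply]
  have h3 := LinearMap.congr_fun h1 z
  exact h3

theorem schlickK_span (y : k) (S : Finset ℕ)
    (hS : Fintype.card (Free.ChooseBasisIndex ℤ (𝓞 k)) ≤ S.card)
    (h : ∀ s ∈ S, Algebra.trace ℚ k ((schlickKU k s : k) * y) = 0) : y = 0 := by
  classical
  refine schlickK_trace y fun l => ?_
  set e := Fintype.equivFin (Free.ChooseBasisIndex ℤ (𝓞 k)) with he
  set P : Polynomial ℚ := ∑ l, Polynomial.monomial (e l : ℕ)
    (Algebra.trace ℚ k ((RingOfIntegers.basis k l : k) * y)) with hP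
  have hco : ∀ m, P.coeff m = ∑ l, if (e l : ℕ) = m then
      Algebra.trace ℚ k ((RingOfIntegers.basis k l : k) * y) else 0 := by
    intro m
    rw [hP, Polynomial.finsetSum_coeff]
    exact Finset.sum_congr rfl fun l _ => Polynomial.coeff_monomial
  have hP0 : P = 0 := by
    refine Polynomial.eq_zero_of_degree_lt_of_eval_index_eq_zero (s := S) (v := fun s : ℕ => (s : ℚ))
      (Nat.cast_injective.injOn) ?_ ?_
    · rw [Polynomial.degree_lt_iff_coeff_zero]
      intro m hm
      rw [hco]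
      refine Finset.sum_eq_zero fun l _ => if_neg ?_
      have := (e l).2
      omega
    · intro s hs
      have h1 := h s hs
      rw [hP, Polynomial.eval_finsetSum]
      rw [← h1]
      unfold schlickKU
      push_cast
      rw [Finset.sum_mul, map_sum]
      refine Finset.sum_congr rfl fun l _ => ?_
      rw [Polynomial.eval_monomial]
      have e1 : (s : k) ^ (e l : ℕ) * (RingOfIntegers.basis k l : k) * y =
          ((s : ℚ) ^ (e l : ℕ)) • ((RingOfIntegers.basis k l : k) * y) := by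
        rw [Algebra.smul_def]
        push_cast
        ring
      rw [e1, map_smul, smul_eq_mul, mul_comm]
  have h2 := hco (e l)
  rw [hP0, Polynomial.coeff_zero] at h2
  rw [Finset.sum_eq_single l] at h2
  · rw [if_pos rfl] at h2
    exact h2.symm
  · intro l' _ hl'
    refine if_neg fun h3 => hl' (e.injective (Fin.ext h3))
  · intro h3
    exact absurd (Finset.mem_univ l) h3

theorem schlickK_finite {ι : Type} [Finite ι] (B : ℝ) :
    {x : ι → 𝓞 k | ∀ (ρ : k →+* ℂ) i, ‖ρ (x i)‖ ≤ B}.Finite := by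
  have h1 := Embeddings.finite_of_norm_le k ℂ B
  have h2 : {z : 𝓞 k | ∀ ρ : k →+* ℂ, ‖ρ z‖ ≤ B}.Finite := by
    refine Set.Finite.of_finite_image (f := fun z : 𝓞 k => (z : k)) (h1.subset ?_)
      (RingOfIntegers.coe_injective.injOn)
    rintro _ ⟨z, hz, rfl⟩
    exact ⟨z.isIntegral_coe, hz⟩
  refine (Set.Finite.pi fun _ : ι => h2).subset fun x hx => ?_
  intro i _ ρ
  exact hx ρ i

theorem schlickK_rel {ι : Type} [Fintype ι] [DecidableEq ι] (hι : 2 ≤ Fintype.card ι)
    (x : ι → k) : ∃ β : ι → k, β ≠ 0 ∧ ∑ i, β i * x i = 0 := by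
  obtain ⟨a, b, hab⟩ := Fintype.exists_pair_of_one_lt_card (α := ι) (by omega)
  by_cases hb : x b = 0
  · refine ⟨Pi.single b 1, fun h => ?_, ?_⟩
    · have := congrFun h b
      rw [Pi.single_eq_same] at this
      exact one_ne_zero this
    · rw [Finset.sum_eq_single b, hb, mul_zero]
      · intro c _ hc
        rw [Pi.single_eq_of_ne hc, zero_mul]
      · intro h
        exact absurd (Finset.mem_univ b) h
  · refine ⟨Pi.single a (x b) - Pi.single b (x a), fun h => ?_, ?_⟩
    · have := congrFun h a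
      rw [Pi.sub_apply, Pi.single_eq_same, Pi.single_eq_of_ne hab, sub_zero] at this
      exact hb this
    · have e1 : ∀ (c : ι) (t : k), ∑ i, (Pi.single c t : ι → k) i * x i = t * x c := by
        intro c t
        rw [Finset.sum_eq_single c, Pi.single_eq_same]
        · intro d _ hd
          rw [Pi.single_eq_of_ne hd, zero_mul]
        · intro h
          exact absurd (Finset.mem_univ c) h
      simp only [Pi.sub_apply, sub_mul, Finset.sum_sub_distrib, e1]
      ring

variable {T : Type} [Fintype T] [DecidableEq T] {p : T → ℕ} [∀ t, Fact (p t).Prime]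

omit [NumberField k] [Fintype T] [DecidableEq T] in
theorem schlickK_VK (e : ExtK k p) (l : PlK k p) (x : k) :
    VK e l (algebraMap k _ x) = vk l x := by
  rcases l with ρ | ρ
  · change ‖e.E ρ (algebraMap k _ x)‖ = ‖ρ x‖
    rw [e.hE]
  · change ‖e.E' ρ.1 ρ.2 (algebraMap k _ x)‖ = ‖ρ.2 x‖
    rw [e.hE']

omit [DecidableEq T] in
theorem schlickK_prod (e : ExtK k p) {ι : Type} [Fintype ι]
    (L : PlK k p → Matrix ι ι (AlgebraicClosure k)) (u : 𝓞 k) (x : ι → 𝓞 k) :
    ∏ l, ∏ i, VK e l ((L l).mulVec (fun j => algebraMap k _ ((u * x j : 𝓞 k) : k)) i) =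
      (∏ l : PlK k p, vk l (u : k) ^ Fintype.card ι) *
        ∏ l, ∏ i, VK e l ((L l).mulVec (fun j => algebraMap k _ (x j : k)) i) := by
  rw [← Finset.prod_mul_distrib]
  refine Finset.prod_congr rfl fun l _ => ?_
  have h1 : ∀ i, VK e l ((L l).mulVec (fun j => algebraMap k _ ((u * x j : 𝓞 k) : k)) i) =
      vk l (u : k) * VK e l ((L l).mulVec (fun j => algebraMap k _ (x j : k)) i) := by
    intro i
    rw [← schlickK_VK e l, ← map_mul]
    congr 1
    have h2 : (fun j => algebraMap k (AlgebraicClosure k) ((u * x j : 𝓞 k) : k)) =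
        algebraMap k (AlgebraicClosure k) (u : k) •
          fun j => algebraMap k (AlgebraicClosure k) (x j : k) := by
      funext j
      rw [Pi.smul_apply, smul_eq_mul, ← map_mul]
      push_cast
      rfl
    rw [h2, Matrix.mulVec_smul, Pi.smul_apply, smul_eq_mul]
  rw [Finset.prod_congr rfl fun i _ => h1 i, Finset.prod_mul_distrib, Finset.prod_const,
    Finset.card_univ]

theorem schlickeweiK_of (e : ExtK k p) {ι : Type} [Fintype ι]
    [DecidableEq ι] (hι : 2 ≤ Fintype.card ι)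
    (L : PlK k p → Matrix ι ι (AlgebraicClosure k)) (δ : ℝ) (hδ : 0 < δ)
    (htr : ∀ δ : ℝ, 0 < δ → ∃ F : Finset (ι → k), 0 ∉ F ∧ ∀ (x : ι → 𝓞 k) (H : ℝ), 1 ≤ H →
      (∀ (ρ : k →+* ℂ) i, ‖ρ (x i)‖ ≤ H) →
      ∏ l, ∏ i, VK e l ((L l).mulVec (fun j => algebraMap k _ (x j : k)) i) ≤ H ^ (-δ) →
      ∃ β ∈ F, Algebra.trace ℚ k (∑ i, β i * (x i : k)) = 0) :
    ∃ F : Finset (ι → k), 0 ∉ F ∧ ∀ (x : ι → 𝓞 k) (H : ℝ), 1 ≤ H →
      (∀ (ρ : k →+* ℂ) i, ‖ρ (x i)‖ ≤ H) →
      ∏ l, ∏ i, VK e l ((L l).mulVec (fun j => algebraMap k _ (x j : k)) i) ≤ H ^ (-δ) →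
      ∃ β ∈ F, ∑ i, β i * (x i : k) = 0 := by
  classical
  obtain ⟨F0, hF0, hF⟩ := htr (δ / 2) (by linarith)
  set d := Fintype.card (Free.ChooseBasisIndex ℤ (𝓞 k)) with hd
  set M := F0.card * d + 1 with hM
  set C : ℝ := 1 + ∑ s ∈ Finset.range M, ∑ ρ : k →+* ℂ, ‖ρ (schlickKU k s)‖ with hC
  set C' : ℝ := 1 + ∑ s ∈ Finset.range M,
    ∏ l : PlK k p, vk l (schlickKU k s : k) ^ Fintype.card ι with hC'
  have hC1 : 1 ≤ C := by
    have : 0 ≤ ∑ s ∈ Finset.range M, ∑ ρ : k →+* ℂ, ‖ρ (schlickKU k s)‖ :=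
      Finset.sum_nonneg fun s _ => Finset.sum_nonneg fun ρ _ => norm_nonneg _
    linarith
  have hpr : ∀ s, 0 ≤ ∏ l : PlK k p, vk l (schlickKU k s : k) ^ Fintype.card ι := fun s =>
    Finset.prod_nonneg fun l _ => pow_nonneg (AbsoluteValue.nonneg _ _) _
  have hC'1 : 1 ≤ C' := by
    have : 0 ≤ ∑ s ∈ Finset.range M,
        ∏ l : PlK k p, vk l (schlickKU k s : k) ^ Fintype.card ι :=
      Finset.sum_nonneg fun s _ => hpr s
    linarith
  have hCs : ∀ s ∈ Finset.range M, ∀ ρ : k →+* ℂ, ‖ρ (schlickKU k s)‖ ≤ C := by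
    intro s hs ρ
    have h1 : ‖ρ (schlickKU k s)‖ ≤ ∑ ρ : k →+* ℂ, ‖ρ (schlickKU k s)‖ :=
      Finset.single_le_sum (f := fun ρ : k →+* ℂ => ‖ρ (schlickKU k s)‖)
        (fun ρ _ => norm_nonneg _) (Finset.mem_univ ρ)
    have h2 : ∑ ρ : k →+* ℂ, ‖ρ (schlickKU k s)‖ ≤
        ∑ s ∈ Finset.range M, ∑ ρ : k →+* ℂ, ‖ρ (schlickKU k s)‖ :=
      Finset.single_le_sum (f := fun s => ∑ ρ : k →+* ℂ, ‖ρ (schlickKU k s)‖)
        (fun s _ => Finset.sum_nonneg fun ρ _ => norm_nonneg _) hs
    linarith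
  have hC's : ∀ s ∈ Finset.range M,
      ∏ l : PlK k p, vk l (schlickKU k s : k) ^ Fintype.card ι ≤ C' := by
    intro s hs
    have h2 := Finset.single_le_sum
      (f := fun s => ∏ l : PlK k p, vk l (schlickKU k s : k) ^ Fintype.card ι)
      (fun s _ => hpr s) hs
    linarith
  set H0 : ℝ := (C' * C ^ (δ / 2)) ^ (2 / δ) with hH0
  have hfin := schlickK_finite (k := k) (ι := ι) H0
  choose b hb0 hb using fun x : ι → 𝓞 k => schlickK_rel hι fun i => (x i : k)
  refine ⟨F0 ∪ hfin.toFinset.image b, ?_, ?_⟩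
  · rw [Finset.mem_union, not_or]
    refine ⟨hF0, fun h => ?_⟩
    obtain ⟨x, _, hx⟩ := Finset.mem_image.1 h
    exact hb0 x hx
  · intro x H hH hxH hprod
    by_cases hHH : H < H0
    · refine ⟨b x, ?_, hb x⟩
      refine Finset.mem_union_right _ (Finset.mem_image_of_mem _ ?_)
      rw [Set.Finite.mem_toFinset]
      intro ρ i
      exact (hxH ρ i).trans hHH.le
    · push Not at hHH
      have hHpos : 0 < H := by linarith
      have hCpos : 0 < C := by linarith
      have hprod0 : 0 ≤ ∏ l, ∏ i,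
          VK e l ((L l).mulVec (fun j => algebraMap k _ (x j : k)) i) :=
        Finset.prod_nonneg fun l _ => Finset.prod_nonneg fun i _ => AbsoluteValue.nonneg _ _
      have hkey : C' * H ^ (-δ) ≤ (C * H) ^ (-(δ / 2)) := by
        have hA : 0 < C' * C ^ (δ / 2) := mul_pos (by linarith) (Real.rpow_pos_of_pos hCpos _)
        have h1 : C' * C ^ (δ / 2) ≤ H ^ (δ / 2) := by
          have h2 : H0 ^ (δ / 2) ≤ H ^ (δ / 2) :=
            Real.rpow_le_rpow (Real.rpow_nonneg hA.le _) hHH (by linarith)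
          have h3 : H0 ^ (δ / 2) = C' * C ^ (δ / 2) := by
            rw [hH0, ← Real.rpow_mul hA.le]
            have : 2 / δ * (δ / 2) = 1 := by field_simp
            rw [this, Real.rpow_one]
          rw [h3] at h2
          exact h2
        have h4 : (C * H) ^ (-(δ / 2)) = (C ^ (δ / 2))⁻¹ * (H ^ (δ / 2))⁻¹ := by
          rw [Real.rpow_neg (by positivity), Real.mul_rpow hCpos.le hHpos.le, mul_inv]
        have h5 : H ^ (-δ) = (H ^ (δ / 2))⁻¹ * (H ^ (δ / 2))⁻¹ := by
          rw [Real.rpow_neg hHpos.le, ← mul_inv, ← Real.rpow_add hHpos]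
          congr 2
          ring
        have hCp : 0 < C ^ (δ / 2) := Real.rpow_pos_of_pos hCpos _
        have hHp : 0 < H ^ (δ / 2) := Real.rpow_pos_of_pos hHpos _
        rw [h4, h5, ← mul_assoc]
        refine mul_le_mul_of_nonneg_right ?_ (inv_nonneg.2 hHp.le)
        rw [← div_eq_mul_inv, div_le_iff₀ hHp, inv_mul_eq_div, le_div_iff₀ hCp]
        exact h1
      have hex : ∀ s ∈ Finset.range M, ∃ β ∈ F0,
          Algebra.trace ℚ k ((schlickKU k s : k) * ∑ i, β i * (x i : k)) = 0 := by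
        intro s hs
        obtain ⟨β, hβ, h1⟩ := hF (fun i => schlickKU k s * x i) (C * H)
          (one_le_mul_of_one_le_of_one_le hC1 hH) (by
            intro ρ i
            have h2 : ρ ((schlickKU k s * x i : 𝓞 k) : k) =
                ρ (schlickKU k s : k) * ρ (x i : k) := by
              push_cast
              exact map_mul _ _ _
            rw [h2, norm_mul]
            exact mul_le_mul (hCs s hs ρ) (hxH ρ i) (norm_nonneg _) hCpos.le) (by
            rw [schlickK_prod]
            refine le_trans ?_ hkey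
            exact mul_le_mul (hC's s hs) hprod hprod0 (by linarith))
        refine ⟨β, hβ, ?_⟩
        rw [← h1]
        congr 1
        rw [Finset.mul_sum]
        refine Finset.sum_congr rfl fun i _ => ?_
        push_cast
        ring
      choose! c hcF hc using hex
      obtain ⟨β, hβ, hcard⟩ := Finset.exists_lt_card_fiber_of_mul_lt_card_of_maps_to
        (s := Finset.range M) (t := F0) (f := c) (n := d) hcF (by
          rw [Finset.card_range, hM]
          omega)
      refine ⟨β, Finset.mem_union_left _ hβ, ?_⟩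
      refine schlickK_span _ _ hcard.le fun s hs => ?_
      obtain ⟨hs1, hs2⟩ := Finset.mem_filter.1 hs
      have := hc s hs1
      rw [hs2] at this
      exact this

/-- the subspace theorem over a number field -/
theorem schlickeweiK (e : ExtK k p) (hp : Function.Injective p) {ι : Type} [Fintype ι]
    [DecidableEq ι] (hι : 2 ≤ Fintype.card ι)
    (L : PlK k p → Matrix ι ι (AlgebraicClosure k)) (hL : ∀ l, (L l).det ≠ 0)
    (δ : ℝ) (hδ : 0 < δ) :
    ∃ F : Finset (ι → k), 0 ∉ F ∧ ∀ (x : ι → 𝓞 k) (H : ℝ), 1 ≤ H →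
      (∀ (ρ : k →+* ℂ) i, ‖ρ (x i)‖ ≤ H) →
      ∏ l, ∏ i, VK e l ((L l).mulVec (fun j => algebraMap k _ (x j : k)) i) ≤ H ^ (-δ) →
      ∃ β ∈ F, ∑ i, β i * (x i : k) = 0 :=
  schlickeweiK_of e hι L δ hδ fun δ' hδ' => schlick_trK e hp hι L hL δ' hδ'

end

end Pool.Agent.SST
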