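import Pool.Agent.SST.ProxDefs
import Mathlib.NumberTheory.Padics.Complex

/-! Proximity functions over a number field, for a finite set of places. -/

namespace Pool.Agent.SST

/-- The proximity function `m(D, P)` for the point `P = (x : 1)` of the projective line over the
number field `k`, with residue field `K = k(x)`, and the set of all places of `k` above
`∞, p 0, ..., p (r - 1)`. The divisor `D` is the divisor of zeros of the binary form
`G(X, Y) = Y ^ n g(X / Y)` of degree `n`, and at a place `v` the distance of the point `(z : 1)`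
to `D` is `|G(z, 1)| / max(1, |z|) ^ n`. -/
noncomputable def proxK {k : Type} [Field k] {r : ℕ} (p : Fin r → ℕ) [∀ t, Fact (p t).Prime]
    (g : Polynomial k) (n : ℕ) (K : Type) [Field K] [NumberField K] [Algebra k K] (x : K) : ℝ :=
  ((∑ σ : K →+* ℂ, -Real.log (‖σ (Polynomial.aeval x g)‖ / max 1 ‖σ x‖ ^ n)) +
    ∑ t, ∑ σ : K →+* ℂ_[p t], -Real.log (‖σ (Polynomial.aeval x g)‖ / max 1 ‖σ x‖ ^ n)) /
    Module.finrank ℚ K

end Pool.Agent.SST
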