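import Pool.Agent.SST.Defs

/-!
# A Liouville type lower bound for values of linear forms at a place
-/

set_option autoImplicit false

namespace Pool.Agent.SST

/-- Lower bound for a nonzero algebraic integer. -/
private theorem liouville_aux {K : Type} [Field K] [NumberField K] (v : AbsoluteValue K ℝ)
    (hle : ∀ n : ℤ, v (n : K) ≤ |(n : ℝ)|) (x : K) (hx : x ≠ 0) (hi : IsIntegral ℤ x)
    (Q V : ℝ) (hQ : 1 ≤ Q) (hV : 1 ≤ V) (hφ : ∀ φ : K →+* ℂ, ‖φ x‖ ≤ Q) (hv : v x ≤ V) :
    ∃ a : ℤ, a ≠ 0 ∧ |(a : ℝ)| ≤ (2 * Q) ^ Module.finrank ℚ K ∧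
      v (a : K) ≤ v x * (Module.finrank ℚ K * ((2 * Q) ^ Module.finrank ℚ K *
        V ^ Module.finrank ℚ K)) := by
  set d := Module.finrank ℚ K with hd
  set p := minpoly ℤ x with hp
  have hmon : p.Monic := minpoly.monic hi
  have hmap : minpoly ℚ x = p.map (algebraMap ℤ ℚ) :=
    minpoly.isIntegrallyClosed_eq_field_fractions' ℚ hi
  have hdeg : p.natDegree ≤ d := by
    rw [← hmon.natDegree_map (algebraMap ℤ ℚ), ← hmap]
    exact minpoly.natDegree_le x
  have hcoef : ∀ i, |((p.coeff i : ℤ) : ℝ)| ≤ (2 * Q) ^ d := by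
    intro i
    have h1 := NumberField.Embeddings.coeff_bdd_of_norm_le (A := ℂ) hφ i
    rw [hmap, Polynomial.coeff_map, eq_intCast, Int.norm_cast_rat, Int.norm_eq_abs,
      max_eq_left hQ] at h1
    refine h1.trans ?_
    rw [mul_pow, mul_comm]
    have h2 : ((d.choose (d / 2) : ℕ) : ℝ) ≤ 2 ^ d := by
      exact_mod_cast Nat.choose_le_two_pow d (d / 2)
    have hQ0 : 0 ≤ Q ^ d := by positivity
    exact mul_le_mul_of_nonneg_right h2 hQ0
  have h0 : p.coeff 0 ≠ 0 := by
    have h := minpoly.coeff_zero_ne_zero (A := ℚ) (Algebra.IsIntegral.isIntegral x) hx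
    rw [hmap, Polynomial.coeff_map] at h
    intro h'
    exact h (by rw [h', map_zero])
  refine ⟨p.coeff 0, h0, hcoef 0, ?_⟩
  have heval : Polynomial.aeval x p = 0 := minpoly.aeval ℤ x
  have hdiv := Polynomial.divX_mul_X_add p
  have hx2 : (Polynomial.aeval x p.divX) * x + ((p.coeff 0 : ℤ) : K) = 0 := by
    have := congrArg (Polynomial.aeval x) hdiv
    rw [map_add, map_mul, Polynomial.aeval_X, Polynomial.aeval_C, heval] at this
    simpa using this
  have hx3 : ((p.coeff 0 : ℤ) : K) = -(x * Polynomial.aeval x p.divX) := by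
    linear_combination hx2
  rw [hx3, v.map_neg, v.map_mul]
  refine mul_le_mul_of_nonneg_left ?_ (v.nonneg _)
  have hp0 : p.natDegree ≠ 0 := by
    intro h
    have h1 := (Polynomial.Monic.natDegree_eq_zero hmon).mp h
    rw [h1] at heval
    simp at heval
  have hlt : p.divX.natDegree < d := by
    rw [Polynomial.natDegree_divX_eq_natDegree_tsub_one]
    omega
  rw [Polynomial.aeval_eq_sum_range' hlt]
  refine (v.sum_le _ _).trans ?_
  calc ∑ i ∈ Finset.range d, v (p.divX.coeff i • x ^ i)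
      ≤ ∑ i ∈ Finset.range d, (2 * Q) ^ d * V ^ d := by
        refine Finset.sum_le_sum fun i hi => ?_
        rw [zsmul_eq_mul, v.map_mul, v.map_pow, Polynomial.coeff_divX]
        have h1 : v x ^ i ≤ V ^ d := by
          calc v x ^ i ≤ V ^ i := pow_le_pow_left₀ (v.nonneg _) hv _
            _ ≤ V ^ d := pow_le_pow_right₀ hV (Finset.mem_range.mp hi).le
        have h2 : v ((p.coeff (i + 1) : ℤ) : K) ≤ (2 * Q) ^ d := (hle _).trans (hcoef _)
        exact mul_le_mul h2 h1 (pow_nonneg (v.nonneg _) _) (by positivity)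
    _ = d * ((2 * Q) ^ d * V ^ d) := by
        rw [Finset.sum_const, Finset.card_range, nsmul_eq_mul]

theorem liouville_lin {S : Type} [Fintype S] (K : S → Type) [∀ s, Field (K s)]
    [∀ s, NumberField (K s)] (v : ∀ s, AbsoluteValue (K s) ℝ) (hv : GoodPlaces K v)
    {ι : Type} [Fintype ι] (s : S) (c : ι → K s) :
    ∃ (C : ℝ) (k : ℕ), 1 ≤ C ∧ ∀ (b : ι → ℤ) (B : ℝ), 1 ≤ B → (∀ i, |((b i : ℤ) : ℝ)| ≤ B) →
      ∑ i, c i * (b i : K s) ≠ 0 → (C * B ^ k)⁻¹ ≤ v s (∑ i, c i * (b i : K s)) := by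
  classical
  have : Algebra.IsAlgebraic ℤ (K s) :=
    ⟨fun x => IsFractionRing.isAlgebraic_iff ℤ ℚ (K s) |>.mpr (.of_finite ℚ x)⟩
  obtain ⟨D, hD, hint⟩ := Algebra.IsAlgebraic.exists_integral_multiples ℤ
    (A := K s) (Finset.univ.image c)
  set d := Module.finrank ℚ (K s) with hd
  set r := Fintype.card S with hr
  set C₁ : ℝ := 1 + |(D : ℝ)| * ∑ φ : K s →+* ℂ, ∑ i, ‖φ (c i)‖ with hC₁
  set C₂ : ℝ := 1 + |(D : ℝ)| * ∑ i, v s (c i) with hC₂
  have hDr : 1 ≤ |(D : ℝ)| := by
    exact_mod_cast Int.one_le_abs hD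
  have hC₁1 : 1 ≤ C₁ := by
    have : 0 ≤ |(D : ℝ)| * ∑ φ : K s →+* ℂ, ∑ i, ‖φ (c i)‖ := by positivity
    linarith
  have hC₂1 : 1 ≤ C₂ := by
    have : 0 ≤ |(D : ℝ)| * ∑ i, v s (c i) :=
      mul_nonneg (abs_nonneg _) (Finset.sum_nonneg fun i _ => (v s).nonneg _)
    linarith
  have hd1 : 1 ≤ d := Module.finrank_pos
  refine ⟨|(D : ℝ)| * (d * ((2 * C₁) ^ (d * (r + 1)) * C₂ ^ d)), d * (r + 2), ?_, ?_⟩
  · have h1 : (1 : ℝ) ≤ (2 * C₁) ^ (d * (r + 1)) := one_le_pow₀ (by linarith)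
    have h2 : (1 : ℝ) ≤ C₂ ^ d := one_le_pow₀ hC₂1
    have h3 : (1 : ℝ) ≤ d := by exact_mod_cast hd1
    exact one_le_mul_of_one_le_of_one_le hDr
      (one_le_mul_of_one_le_of_one_le h3 (one_le_mul_of_one_le_of_one_le h1 h2))
  · intro b B hB hb hne
    set x := ∑ i, c i * (b i : K s) with hx
    have hDK : (D : K s) ≠ 0 := by exact_mod_cast hD
    set x' : K s := (D : K s) * x with hx'
    have hx'0 : x' ≠ 0 := mul_ne_zero hDK hne
    have hx'i : IsIntegral ℤ x' := by
      have : x' = ∑ i, (D • c i) * ((b i : ℤ) : K s) := by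
        rw [hx', hx, Finset.mul_sum]
        refine Finset.sum_congr rfl fun i _ => ?_
        rw [zsmul_eq_mul]
        ring
      rw [this]
      refine IsIntegral.sum _ fun i _ => ?_
      refine IsIntegral.mul (hint _ (Finset.mem_image_of_mem _ (Finset.mem_univ i))) ?_
      exact isIntegral_algebraMap (R := ℤ) (A := K s) (x := b i)
    have hφ : ∀ φ : K s →+* ℂ, ‖φ x'‖ ≤ C₁ * B := by
      intro φ
      rw [hx', hx, map_mul, map_sum, norm_mul, map_intCast, Complex.norm_intCast]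
      have h1 : ‖∑ i, φ (c i * (b i : K s))‖ ≤ (∑ i, ‖φ (c i)‖) * B := by
        rw [Finset.sum_mul]
        refine (norm_sum_le _ _).trans (Finset.sum_le_sum fun i _ => ?_)
        rw [map_mul, norm_mul, map_intCast, Complex.norm_intCast]
        exact mul_le_mul_of_nonneg_left (hb i) (norm_nonneg _)
      have h2 : ∑ i, ‖φ (c i)‖ ≤ ∑ φ : K s →+* ℂ, ∑ i, ‖φ (c i)‖ :=
        Finset.single_le_sum (f := fun φ : K s →+* ℂ => ∑ i, ‖φ (c i)‖)
          (fun ψ _ => Finset.sum_nonneg fun i _ => norm_nonneg _) (Finset.mem_univ φ)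
      calc |(D : ℝ)| * ‖∑ i, φ (c i * (b i : K s))‖
          ≤ |(D : ℝ)| * ((∑ φ : K s →+* ℂ, ∑ i, ‖φ (c i)‖) * B) := by
            refine mul_le_mul_of_nonneg_left (h1.trans ?_) (abs_nonneg _)
            exact mul_le_mul_of_nonneg_right h2 (by linarith)
        _ ≤ C₁ * B := by
            rw [hC₁, ← mul_assoc]
            refine mul_le_mul_of_nonneg_right ?_ (by linarith)
            linarith
    have hvx : v s x' ≤ C₂ * B := by
      rw [hx', hx, (v s).map_mul]
      have h1 : v s (∑ i, c i * (b i : K s)) ≤ (∑ i, v s (c i)) * B := by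
        rw [Finset.sum_mul]
        refine ((v s).sum_le _ _).trans (Finset.sum_le_sum fun i _ => ?_)
        rw [(v s).map_mul]
        exact mul_le_mul_of_nonneg_left ((hv.le s _).trans (hb i)) ((v s).nonneg _)
      calc v s (D : K s) * v s (∑ i, c i * (b i : K s))
          ≤ |(D : ℝ)| * ((∑ i, v s (c i)) * B) :=
            mul_le_mul (hv.le s D) h1 ((v s).nonneg _) (abs_nonneg _)
        _ ≤ C₂ * B := by
            rw [hC₂, ← mul_assoc]
            refine mul_le_mul_of_nonneg_right ?_ (by linarith)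
            linarith
    have hQ1 : 1 ≤ C₁ * B := one_le_mul_of_one_le_of_one_le hC₁1 hB
    have hV1 : 1 ≤ C₂ * B := one_le_mul_of_one_le_of_one_le hC₂1 hB
    obtain ⟨a, ha0, haQ, hav⟩ := liouville_aux (v s) (hv.le s) x' hx'0 hx'i (C₁ * B) (C₂ * B)
      hQ1 hV1 hφ hvx
    rw [← hd] at haQ hav
    set A : ℝ := (2 * (C₁ * B)) ^ d with hA
    have hA1 : 1 ≤ A := one_le_pow₀ (by linarith)
    -- lower bound for `v s a`
    have hlow : 1 ≤ v s (a : K s) * A ^ r := by
      have h1 := hv.prod a ha0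
      rw [← Finset.mul_prod_erase Finset.univ (fun t => v t (a : K t)) (Finset.mem_univ s)] at h1
      have h2 : ∏ t ∈ Finset.univ.erase s, v t (a : K t) ≤ A ^ r := by
        calc ∏ t ∈ Finset.univ.erase s, v t (a : K t) ≤ ∏ t ∈ Finset.univ.erase s, A :=
              Finset.prod_le_prod (fun t _ => (v t).nonneg _)
                fun t _ => (hv.le t a).trans haQ
          _ = A ^ (Finset.univ.erase s).card := by rw [Finset.prod_const]
          _ ≤ A ^ r := pow_le_pow_right₀ hA1 (by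
              rw [hr, ← Finset.card_univ]
              exact Finset.card_le_card (Finset.erase_subset _ _))
      exact h1.trans (mul_le_mul_of_nonneg_left h2 ((v s).nonneg _))
    have hvs : v s x' ≤ |(D : ℝ)| * v s x := by
      rw [hx', (v s).map_mul]
      exact mul_le_mul_of_nonneg_right (hv.le s D) ((v s).nonneg _)
    have hfin : 1 ≤ v s x * (|(D : ℝ)| * (d * ((2 * C₁) ^ (d * (r + 1)) * C₂ ^ d)) *
        B ^ (d * (r + 2))) := by
      have hG : 0 ≤ (d : ℝ) * (A * (C₂ * B) ^ d) := by positivity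
      calc (1 : ℝ) ≤ v s (a : K s) * A ^ r := hlow
        _ ≤ (v s x' * (d * (A * (C₂ * B) ^ d))) * A ^ r :=
            mul_le_mul_of_nonneg_right hav (by positivity)
        _ ≤ ((|(D : ℝ)| * v s x) * (d * (A * (C₂ * B) ^ d))) * A ^ r := by
            refine mul_le_mul_of_nonneg_right ?_ (by positivity)
            exact mul_le_mul_of_nonneg_right hvs hG
        _ = v s x * (|(D : ℝ)| * (d * ((2 * C₁) ^ (d * (r + 1)) * C₂ ^ d)) *
        B ^ (d * (r + 2))) := by
            have e : 2 * (C₁ * B) = (2 * C₁) * B := by ring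
            rw [hA, e]
            generalize 2 * C₁ = E
            rw [mul_pow, mul_pow]
            ring_nf
    have hpos : 0 < |(D : ℝ)| * (d * ((2 * C₁) ^ (d * (r + 1)) * C₂ ^ d)) *
        B ^ (d * (r + 2)) := by
      have : (0 : ℝ) < d := by exact_mod_cast hd1
      positivity
    rw [inv_le_iff_one_le_mul₀ hpos]
    exact hfin

end Pool.Agent.SST
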