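import Pool.Agent.SST.SeqDefs
import Pool.Agent.SST.Liouville

/-! The Liouville inequality for values of a polynomial along a sequence of rational points. -/

set_option autoImplicit false

open MvPolynomial Filter Module
open scoped Topology

namespace Pool.Agent.SST

/-- Liouville's inequality for linear forms with algebraic coefficients -/
theorem tame_lin (w : AbsoluteValue Qb ℝ) (h1 : ∀ n : ℤ, w (n : Qb) ≤ |(n : ℝ)|)
    (h2 : ∀ n : ℤ, n ≠ 0 → |(n : ℝ)|⁻¹ ≤ w (n : Qb)) {J : Type} [Fintype J] (c : J → Qb) :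
    ∃ (C : ℝ) (k : ℕ), 1 ≤ C ∧ ∀ (b : J → ℤ) (B : ℝ), 1 ≤ B → (∀ i, |((b i : ℤ) : ℝ)| ≤ B) →
      ∑ i, c i * (b i : Qb) ≠ 0 → (C * B ^ k)⁻¹ ≤ w (∑ i, c i * (b i : Qb)) := by
  classical
  obtain ⟨E, hE⟩ : ∃ E : IntermediateField ℚ Qb, E = IntermediateField.adjoin ℚ (Set.range c) :=
    ⟨_, rfl⟩
  have halg : Algebra.IsAlgebraic ℚ Qb := AlgebraicClosure.isAlgebraic ℚ
  have hfin : FiniteDimensional ℚ E := by
    rw [hE]
    refine IntermediateField.finiteDimensional_adjoin fun x _ => ?_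
    exact (Algebra.IsAlgebraic.isAlgebraic x).isIntegral
  have hmem : ∀ i, c i ∈ E := by
    intro i
    rw [hE]
    exact IntermediateField.subset_adjoin ℚ _ ⟨i, rfl⟩
  have : NumberField E := { to_charZero := inferInstance, to_finiteDimensional := hfin }
  obtain ⟨φ⟩ : Nonempty (E →+* ℂ) := inferInstance
  let v : ∀ _ : Bool, AbsoluteValue E ℝ := fun s =>
    if s then w.comp (f := algebraMap E Qb) (algebraMap E Qb).injective
    else (NormedField.toAbsoluteValue ℂ).comp φ.injective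
  have hvt : ∀ x : E, v true x = w (x : Qb) := fun x => rfl
  have hvf : ∀ x : E, v false x = ‖φ x‖ := fun x => rfl
  have hint : ∀ n : ℤ, ((n : E) : Qb) = (n : Qb) := fun n => by push_cast; rfl
  have hgood : GoodPlaces (fun _ : Bool => (E : Type)) v := by
    refine ⟨?_, ?_⟩
    · intro s n
      cases s
      · rw [hvf, map_intCast, Complex.norm_intCast]
      · rw [hvt, hint]
        exact h1 n
    · intro n hn
      have hn' : (0 : ℝ) < |(n : ℝ)| := by
        rw [abs_pos]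
        exact_mod_cast hn
      rw [Fintype.prod_bool, hvt, hvf, map_intCast, Complex.norm_intCast, hint]
      calc (1 : ℝ) = |(n : ℝ)|⁻¹ * |(n : ℝ)| := (inv_mul_cancel₀ hn'.ne').symm
        _ ≤ w (n : Qb) * |(n : ℝ)| := mul_le_mul_of_nonneg_right (h2 n hn) hn'.le
  obtain ⟨C, k, hC, hlin⟩ := liouville_lin (fun _ : Bool => (E : Type)) v hgood true
    (fun i => (⟨c i, hmem i⟩ : E))
  refine ⟨C, k, hC, fun b B hB hb hne => ?_⟩
  have hsum : ((∑ i, (⟨c i, hmem i⟩ : E) * (b i : E) : E) : Qb) = ∑ i, c i * (b i : Qb) := by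
    push_cast
    rfl
  have h3 := hlin b B hB hb (fun h => hne (by rw [← hsum, h]; rfl))
  rw [hvt, hsum] at h3
  exact h3

/-- the monomials of a homogenised polynomial -/
def tameMon (m : ℕ) (f : Fin 3 → ℤ) (μ : Fin 2 →₀ ℕ) : ℤ :=
  f 0 ^ (m - (μ 0 + μ 1)) * f 1 ^ μ 0 * f 2 ^ μ 1

theorem tame_hom (P : MvPolynomial (Fin 2) Qb) (f : Fin 3 → ℤ) (hf : f 0 ≠ 0) :
    (f 0 : Qb) ^ P.totalDegree * aeval (bsq f) P =
      ∑ μ : P.support, coeff μ.1 P * ((tameMon P.totalDegree f μ.1 : ℤ) : Qb) := by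
  have hf' : (f 0 : Qb) ≠ 0 := by exact_mod_cast hf
  rw [aeval_def, eval₂_eq', Finset.mul_sum, ← Finset.sum_coe_sort]
  refine Finset.sum_congr rfl fun μ _ => ?_
  have hdeg : μ.1 0 + μ.1 1 ≤ P.totalDegree := by
    have h1 := le_totalDegree μ.2
    rw [Finsupp.sum_fintype _ _ (fun _ => rfl), Fin.sum_univ_two] at h1
    exact h1
  obtain ⟨r, hr⟩ := Nat.exists_eq_add_of_le hdeg
  have e1 : P.totalDegree - (μ.1 0 + μ.1 1) = r := by omega
  rw [Fin.prod_univ_two, tameMon, e1, Algebra.algebraMap_self, RingHom.id_apply]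
  conv_lhs => rw [hr]
  simp only [bsq, Matrix.cons_val_zero, Matrix.cons_val_one, Matrix.cons_val_fin_one]
  push_cast
  rw [div_pow, div_pow]
  field_simp
  ring

/-! ### P42 (Tame.lean) -/

theorem tame {T : Type} [Fintype T] [DecidableEq T] (p : T → ℕ) [∀ t, Fact (p t).Prime]
    {U : Ultrafilter ℕ} {h : ℕ → ℝ} {f : ℕ → Fin 3 → ℤ} (hs : SeqData p U h f)
    {A : Type} [NormedField A] [CharZero A] (hA1 : ∀ n : ℤ, ‖(n : A)‖ ≤ |(n : ℝ)|)
    (hA2 : ∀ n : ℤ, n ≠ 0 → |(n : ℝ)|⁻¹ ≤ ‖(n : A)‖) (ι : Qb →+* A)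
    (P : MvPolynomial (Fin 2) Qb) (hP : ∀ᶠ n in (U : Filter ℕ), aeval (bsq (f n)) P ≠ 0) :
    ∃ C : ℝ, ∀ᶠ n in (U : Filter ℕ),
      |Real.log (placeAbs ι (aeval (bsq (f n)) P))| ≤ C * h n := by
  classical
  obtain ⟨w, hw⟩ : ∃ w, w = placeAbs ι := ⟨_, rfl⟩
  have hwι : ∀ x, w x = ‖ι x‖ := fun x => by rw [hw]; rfl
  have h1 : ∀ n : ℤ, w (n : Qb) ≤ |(n : ℝ)| := fun n => by
    rw [hwι, map_intCast]
    exact hA1 n
  have h2 : ∀ n : ℤ, n ≠ 0 → |(n : ℝ)|⁻¹ ≤ w (n : Qb) := fun n hn => by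
    rw [hwι, map_intCast]
    exact hA2 n hn
  obtain ⟨m, hm⟩ : ∃ m, m = P.totalDegree := ⟨_, rfl⟩
  obtain ⟨C, k, hC, hlin⟩ := tame_lin w h1 h2 (fun μ : P.support => coeff μ.1 P)
  obtain ⟨C₂, hC₂⟩ : ∃ C₂ : ℝ, C₂ = 1 + ∑ μ : P.support, w (coeff μ.1 P) := ⟨_, rfl⟩
  have hC₂1 : 1 ≤ C₂ := by
    rw [hC₂]
    have : 0 ≤ ∑ μ : P.support, w (coeff μ.1 P) := Finset.sum_nonneg fun _ _ => w.nonneg _
    linarith
  refine ⟨Real.log C + Real.log C₂ + (k + 1) * m + m, ?_⟩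
  have hh1 : ∀ᶠ n in (U : Filter ℕ), 1 ≤ h n := hs.tend.eventually_ge_atTop 1
  filter_upwards [hP, hh1] with n hn hhn
  rw [← hw]
  have hf0 : (f n 0 : Qb) ≠ 0 := by exact_mod_cast hs.ne n
  have hf0' : (0 : ℝ) < |((f n 0 : ℤ) : ℝ)| := by
    rw [abs_pos]
    exact_mod_cast hs.ne n
  obtain ⟨z, hz⟩ : ∃ z, z = ∑ μ : P.support, coeff μ.1 P * ((tameMon m (f n) μ.1 : ℤ) : Qb) :=
    ⟨_, rfl⟩
  have hz1 : (f n 0 : Qb) ^ m * aeval (bsq (f n)) P = z := by
    rw [hz, hm]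
    exact tame_hom P (f n) (hs.ne n)
  have hz0 : z ≠ 0 := by
    rw [← hz1]
    exact mul_ne_zero (pow_ne_zero _ hf0) hn
  have hB1 : (1 : ℝ) ≤ Real.exp (m * h n) := by
    rw [← Real.exp_zero]
    exact Real.exp_le_exp.2 (by positivity)
  have hexp1 : (1 : ℝ) ≤ Real.exp (h n) := by
    rw [← Real.exp_zero]
    exact Real.exp_le_exp.2 (by linarith)
  have hb : ∀ μ : P.support, |((tameMon m (f n) μ.1 : ℤ) : ℝ)| ≤ Real.exp (m * h n) := by
    intro μ
    have hdeg : μ.1 0 + μ.1 1 ≤ m := by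
      have h1 := le_totalDegree μ.2
      rw [Finsupp.sum_fintype _ _ (fun _ => rfl), Fin.sum_univ_two] at h1
      rw [hm]
      exact h1
    have e : (m : ℝ) * h n = ((m - (μ.1 0 + μ.1 1) : ℕ) : ℝ) * h n + (μ.1 0 : ℝ) * h n +
        (μ.1 1 : ℝ) * h n := by
      rw [Nat.cast_sub hdeg]
      push_cast
      ring
    rw [e, Real.exp_add, Real.exp_add, Real.exp_nat_mul, Real.exp_nat_mul, Real.exp_nat_mul,
      tameMon]
    push_cast
    rw [abs_mul, abs_mul, abs_pow, abs_pow, abs_pow]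
    have g : ∀ (i : Fin 3) (j : ℕ), |((f n i : ℤ) : ℝ)| ^ j ≤ Real.exp (h n) ^ j := fun i j =>
      pow_le_pow_left₀ (abs_nonneg _) (hs.le n i) j
    exact mul_le_mul (mul_le_mul (g 0 _) (g 1 _) (by positivity) (by positivity)) (g 2 _)
      (by positivity) (by positivity)
  -- the lower bound
  have hlow := hlin (fun μ => tameMon m (f n) μ.1) (Real.exp (m * h n)) hB1 hb (by rw [← hz]; exact hz0)
  rw [← hz] at hlow
  have hwz : 0 < w z := w.pos hz0
  have hlogC : 0 ≤ Real.log C := Real.log_nonneg hC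
  have hlogC₂ : 0 ≤ Real.log C₂ := Real.log_nonneg hC₂1
  have hlow2 : -(Real.log C + k * (m * h n)) ≤ Real.log (w z) := by
    have h3 := Real.log_le_log (by positivity) hlow
    rw [Real.log_inv, Real.log_mul (by positivity) (by positivity), Real.log_pow,
      Real.log_exp] at h3
    exact h3
  -- the upper bound
  have hup : Real.log (w z) ≤ Real.log C₂ + m * h n := by
    have h3 : w z ≤ C₂ * Real.exp (m * h n) := by
      rw [hz]
      refine (w.sum_le _ _).trans ?_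
      have h4 : ∑ μ : P.support, w (coeff μ.1 P * ((tameMon m (f n) μ.1 : ℤ) : Qb)) ≤
          ∑ μ : P.support, w (coeff μ.1 P) * Real.exp (m * h n) := by
        refine Finset.sum_le_sum fun μ _ => ?_
        rw [w.map_mul]
        exact mul_le_mul_of_nonneg_left ((h1 _).trans (hb μ)) (w.nonneg _)
      refine h4.trans ?_
      rw [← Finset.sum_mul, hC₂]
      exact mul_le_mul_of_nonneg_right (by linarith) (by positivity)
    have h4 := Real.log_le_log hwz h3
    rwa [Real.log_mul (by positivity) (by positivity), Real.log_exp] at h4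
  -- the leading coefficient
  have hw0 : 0 < w (f n 0 : Qb) := w.pos hf0
  have hl1 : Real.log (w (f n 0 : Qb)) ≤ h n := by
    have h3 := Real.log_le_log hw0 ((h1 (f n 0)).trans (hs.le n 0))
    rwa [Real.log_exp] at h3
  have hl2 : -h n ≤ Real.log (w (f n 0 : Qb)) := by
    have h3 := Real.log_le_log (by positivity) (h2 (f n 0) (hs.ne n))
    rw [Real.log_inv] at h3
    have h4 := Real.log_le_log hf0' (hs.le n 0)
    rw [Real.log_exp] at h4
    linarith
  have hval : Real.log (w (aeval (bsq (f n)) P)) =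
      Real.log (w z) - m * Real.log (w (f n 0 : Qb)) := by
    rw [← hz1, w.map_mul, w.map_pow, Real.log_mul (pow_pos hw0 _).ne' (w.pos hn).ne', Real.log_pow]
    ring
  have hm0 : (0 : ℝ) ≤ m := Nat.cast_nonneg _
  have hk0 : (0 : ℝ) ≤ k := Nat.cast_nonneg _
  have hml1 : (m : ℝ) * Real.log (w (f n 0 : Qb)) ≤ m * h n := mul_le_mul_of_nonneg_left hl1 hm0
  have hml2 : -((m : ℝ) * h n) ≤ m * Real.log (w (f n 0 : Qb)) := by
    have := mul_le_mul_of_nonneg_left hl2 hm0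
    linarith
  have hCh : Real.log C ≤ Real.log C * h n := le_mul_of_one_le_right hlogC hhn
  have hC₂h : Real.log C₂ ≤ Real.log C₂ * h n := le_mul_of_one_le_right hlogC₂ hhn
  have hCh0 : 0 ≤ Real.log C * h n := by positivity
  have hC₂h0 : 0 ≤ Real.log C₂ * h n := by positivity
  have hkm : 0 ≤ (k : ℝ) * (m * h n) := by positivity
  rw [hval, abs_le]
  constructor
  · nlinarith
  · nlinarith

end Pool.Agent.SST
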