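import Pool.Agent.SST.KDefs
import Pool.Agent.SST.Tame
import Mathlib.NumberTheory.NumberField.House

/-! The Liouville inequality for values of a polynomial along a sequence, over a number field. -/

set_option autoImplicit false

open MvPolynomial Filter Module NumberField
open scoped Topology

namespace Pool.Agent.SST

/-- Liouville's inequality for linear forms with algebraic coefficients -/
theorem tameK_lin {Ω : Type} [Field Ω] [CharZero Ω] [halg : Algebra.IsAlgebraic ℚ Ω]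
    (w : AbsoluteValue Ω ℝ) (h1 : ∀ n : ℤ, w (n : Ω) ≤ |(n : ℝ)|)
    (h2 : ∀ n : ℤ, n ≠ 0 → |(n : ℝ)|⁻¹ ≤ w (n : Ω)) {J : Type} [Fintype J] (c : J → Ω) :
    ∃ (C : ℝ) (k : ℕ), 1 ≤ C ∧ ∀ (b : J → ℤ) (B : ℝ), 1 ≤ B → (∀ i, |((b i : ℤ) : ℝ)| ≤ B) →
      ∑ i, c i * (b i : Ω) ≠ 0 → (C * B ^ k)⁻¹ ≤ w (∑ i, c i * (b i : Ω)) := by
  classical
  obtain ⟨E, hE⟩ : ∃ E : IntermediateField ℚ Ω, E = IntermediateField.adjoin ℚ (Set.range c) :=
    ⟨_, rfl⟩
  have hfin : FiniteDimensional ℚ E := by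
    rw [hE]
    refine IntermediateField.finiteDimensional_adjoin fun x _ => ?_
    exact (Algebra.IsAlgebraic.isAlgebraic x).isIntegral
  have hmem : ∀ i, c i ∈ E := by
    intro i
    rw [hE]
    exact IntermediateField.subset_adjoin ℚ _ ⟨i, rfl⟩
  have : NumberField E := { to_charZero := inferInstance, to_finiteDimensional := hfin }
  obtain ⟨φ⟩ : Nonempty (E →+* ℂ) := inferInstance
  let v : ∀ _ : Bool, AbsoluteValue E ℝ := fun s =>
    if s then w.comp (f := algebraMap E Ω) (algebraMap E Ω).injective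
    else (NormedField.toAbsoluteValue ℂ).comp φ.injective
  have hvt : ∀ x : E, v true x = w (x : Ω) := fun x => rfl
  have hvf : ∀ x : E, v false x = ‖φ x‖ := fun x => rfl
  have hint : ∀ n : ℤ, ((n : E) : Ω) = (n : Ω) := fun n => by push_cast; rfl
  have hgood : GoodPlaces (fun _ : Bool => (E : Type)) v := by
    refine ⟨?_, ?_⟩
    · intro s n
      cases s
      · rw [hvf, map_intCast, Complex.norm_intCast]
      · rw [hvt, hint]
        exact h1 n
    · intro n hn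
      have hn' : (0 : ℝ) < |(n : ℝ)| := by
        rw [abs_pos]
        exact_mod_cast hn
      rw [Fintype.prod_bool, hvt, hvf, map_intCast, Complex.norm_intCast, hint]
      calc (1 : ℝ) = |(n : ℝ)|⁻¹ * |(n : ℝ)| := (inv_mul_cancel₀ hn'.ne').symm
        _ ≤ w (n : Ω) * |(n : ℝ)| := mul_le_mul_of_nonneg_right (h2 n hn) hn'.le
  obtain ⟨C, k, hC, hlin⟩ := liouville_lin (fun _ : Bool => (E : Type)) v hgood true
    (fun i => (⟨c i, hmem i⟩ : E))
  refine ⟨C, k, hC, fun b B hB hb hne => ?_⟩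
  have hsum : ((∑ i, (⟨c i, hmem i⟩ : E) * (b i : E) : E) : Ω) = ∑ i, c i * (b i : Ω) := by
    push_cast
    rfl
  have h3 := hlin b B hB hb (fun h => hne (by rw [← hsum, h]; rfl))
  rw [hvt, hsum] at h3
  exact h3

/-- two-sided bound for the logarithm of a linear form -/
theorem tameK_log {Ω : Type} [Field Ω] [CharZero Ω] [Algebra.IsAlgebraic ℚ Ω]
    (w : AbsoluteValue Ω ℝ) (h1 : ∀ n : ℤ, w (n : Ω) ≤ |(n : ℝ)|)
    (h2 : ∀ n : ℤ, n ≠ 0 → |(n : ℝ)|⁻¹ ≤ w (n : Ω)) {J : Type} [Fintype J] (c : J → Ω) :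
    ∃ C : ℝ, 0 ≤ C ∧ ∀ (b : J → ℤ) (H : ℝ), 1 ≤ H → (∀ i, |((b i : ℤ) : ℝ)| ≤ Real.exp H) →
      ∑ i, c i * (b i : Ω) ≠ 0 → |Real.log (w (∑ i, c i * (b i : Ω)))| ≤ C * H := by
  obtain ⟨C, k, hC, hlin⟩ := tameK_lin w h1 h2 c
  obtain ⟨C₂, hC₂⟩ : ∃ C₂ : ℝ, C₂ = 1 + ∑ j, w (c j) := ⟨_, rfl⟩
  have hsn : 0 ≤ ∑ j, w (c j) := Finset.sum_nonneg fun _ _ => w.nonneg _
  have hC₂1 : 1 ≤ C₂ := by rw [hC₂]; linarith
  have hlogC : 0 ≤ Real.log C := Real.log_nonneg hC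
  have hlogC₂ : 0 ≤ Real.log C₂ := Real.log_nonneg hC₂1
  refine ⟨Real.log C + Real.log C₂ + k + 1, by positivity, fun b H hH hb hne => ?_⟩
  have hexp1 : (1 : ℝ) ≤ Real.exp H := by
    rw [← Real.exp_zero]
    exact Real.exp_le_exp.2 (by linarith)
  have hlow := hlin b (Real.exp H) hexp1 hb hne
  obtain ⟨z, hz⟩ : ∃ z, z = ∑ i, c i * (b i : Ω) := ⟨_, rfl⟩
  rw [← hz] at hlow hne ⊢
  have hwz : 0 < w z := w.pos hne
  have hlow2 : -(Real.log C + k * H) ≤ Real.log (w z) := by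
    have h3 := Real.log_le_log (by positivity) hlow
    rw [Real.log_inv, Real.log_mul (by positivity) (by positivity), Real.log_pow,
      Real.log_exp] at h3
    exact h3
  have hup : Real.log (w z) ≤ Real.log C₂ + H := by
    have h3 : w z ≤ C₂ * Real.exp H := by
      rw [hz]
      refine (w.sum_le _ _).trans ?_
      have h4 : ∑ i, w (c i * (b i : Ω)) ≤ ∑ i, w (c i) * Real.exp H := by
        refine Finset.sum_le_sum fun i _ => ?_
        rw [w.map_mul]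
        exact mul_le_mul_of_nonneg_left ((h1 _).trans (hb i)) (w.nonneg _)
      refine h4.trans ?_
      rw [← Finset.sum_mul, hC₂]
      exact mul_le_mul_of_nonneg_right (by linarith) (by positivity)
    have h4 := Real.log_le_log hwz h3
    rwa [Real.log_mul (by positivity) (by positivity), Real.log_exp] at h4
  have hCh : Real.log C ≤ Real.log C * H := le_mul_of_one_le_right hlogC hH
  have hC₂h : Real.log C₂ ≤ Real.log C₂ * H := le_mul_of_one_le_right hlogC₂ hH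
  have hk0 : (0 : ℝ) ≤ k := Nat.cast_nonneg _
  have hkH : 0 ≤ (k : ℝ) * H := by positivity
  have a1 : 0 ≤ Real.log C * H := by positivity
  have a2 : 0 ≤ Real.log C₂ * H := by positivity
  rw [abs_le]
  constructor
  · nlinarith
  · nlinarith

section

variable {k : Type} [Field k] [NumberField k]

/-- coordinates of an algebraic integer are bounded by its conjugates -/
theorem tameK_repr : ∃ C : ℝ, 1 ≤ C ∧ ∀ (y : 𝓞 k) (B : ℝ), (∀ ρ : k →+* ℂ, ‖ρ y‖ ≤ B) →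
    ∀ i, |(((RingOfIntegers.basis k).repr y i : ℤ) : ℝ)| ≤ C * B := by
  classical
  have hex : ∃ C : ℝ, ∀ (α : 𝓞 k) (i : k →+* ℂ),
      ‖(((integralBasis k).reindex (equivReindex k).symm).repr α i : ℂ)‖ ≤
        C * house (algebraMap (𝓞 k) k α) :=
    ⟨_, house.basis_repr_norm_le_const_mul_house k⟩
  obtain ⟨C, hC⟩ := hex
  refine ⟨max 1 C, le_max_left _ _, fun y B hB i => ?_⟩
  have h1 := hC y ((equivReindex k).symm i)
  have hB0 : house (algebraMap (𝓞 k) k y) ≤ B := by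
    obtain ⟨ρ0⟩ : Nonempty (k →+* ℂ) := inferInstance
    have hBn : 0 ≤ B := (norm_nonneg _).trans (hB ρ0)
    rw [house, pi_norm_le_iff_of_nonneg hBn]
    intro ρ
    exact hB ρ
  have h2 : ‖(((integralBasis k).reindex (equivReindex k).symm).repr y
      ((equivReindex k).symm i) : ℂ)‖ =
      |(((RingOfIntegers.basis k).repr y i : ℤ) : ℝ)| := by
    rw [Basis.repr_reindex_apply, Equiv.symm_symm, Equiv.apply_symm_apply]
    have h3 := integralBasis_repr_apply k y i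
    rw [h3]
    simp
  rw [h2] at h1
  refine h1.trans ?_
  have hh : 0 ≤ house (algebraMap (𝓞 k) k y) := house_nonneg _
  calc C * house (algebraMap (𝓞 k) k y) ≤ max 1 C * house (algebraMap (𝓞 k) k y) :=
        mul_le_mul_of_nonneg_right (le_max_right _ _) hh
    _ ≤ max 1 C * B := mul_le_mul_of_nonneg_left hB0 (by positivity)

theorem tameK_alg : Algebra.IsAlgebraic ℚ (AlgebraicClosure k) :=
  Algebra.IsAlgebraic.trans ℚ k (AlgebraicClosure k)

/-- two-sided bound for the logarithm of a linear form in algebraic integers -/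
theorem tameK_form (w : AbsoluteValue (AlgebraicClosure k) ℝ)
    (h1 : ∀ n : ℤ, w (n : AlgebraicClosure k) ≤ |(n : ℝ)|)
    (h2 : ∀ n : ℤ, n ≠ 0 → |(n : ℝ)|⁻¹ ≤ w (n : AlgebraicClosure k)) {J : Type} [Fintype J]
    (c : J → AlgebraicClosure k) :
    ∃ C : ℝ, 0 ≤ C ∧ ∀ (y : J → 𝓞 k) (H : ℝ), 1 ≤ H →
      (∀ (ρ : k →+* ℂ) i, ‖ρ (y i)‖ ≤ Real.exp H) →
      ∑ i, c i * algebraMap k _ (y i : k) ≠ 0 →
      |Real.log (w (∑ i, c i * algebraMap k _ (y i : k)))| ≤ C * H := by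
  classical
  have halg : Algebra.IsAlgebraic ℚ (AlgebraicClosure k) := tameK_alg
  obtain ⟨C₀, hC₀, hrep⟩ := tameK_repr (k := k)
  obtain ⟨C, hC, hlog⟩ := tameK_log w h1 h2
    (fun q : J × Free.ChooseBasisIndex ℤ (𝓞 k) =>
      c q.1 * algebraMap k _ ((RingOfIntegers.basis k q.2 : 𝓞 k) : k))
  have hlC : 0 ≤ Real.log C₀ := Real.log_nonneg hC₀
  refine ⟨C * (1 + Real.log C₀), by positivity, fun y H hH hy hne => ?_⟩
  have hsum : ∑ q : J × Free.ChooseBasisIndex ℤ (𝓞 k),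
      c q.1 * algebraMap k _ ((RingOfIntegers.basis k q.2 : 𝓞 k) : k) *
        (((RingOfIntegers.basis k).repr (y q.1) q.2 : ℤ) : AlgebraicClosure k) =
      ∑ i, c i * algebraMap k _ (y i : k) := by
    rw [Fintype.sum_prod_type]
    refine Finset.sum_congr rfl fun j _ => ?_
    have h := (RingOfIntegers.basis k).sum_repr (y j)
    have h' : (y j : k) = ∑ i, (((RingOfIntegers.basis k).repr (y j) i : ℤ) : k) *
        ((RingOfIntegers.basis k i : 𝓞 k) : k) := by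
      conv_lhs => rw [← h]
      change algebraMap (𝓞 k) k (∑ i, (RingOfIntegers.basis k).repr (y j) i •
        RingOfIntegers.basis k i) = _
      rw [map_sum]
      refine Finset.sum_congr rfl fun i _ => ?_
      rw [zsmul_eq_mul, map_mul, map_intCast]
    rw [h', map_sum, Finset.mul_sum]
    refine Finset.sum_congr rfl fun i _ => ?_
    rw [map_mul, map_intCast]
    ring
  have hb : ∀ q : J × Free.ChooseBasisIndex ℤ (𝓞 k),
      |(((RingOfIntegers.basis k).repr (y q.1) q.2 : ℤ) : ℝ)| ≤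
        Real.exp (H + Real.log C₀) := by
    intro q
    rw [Real.exp_add, Real.exp_log (by linarith), mul_comm]
    exact hrep (y q.1) (Real.exp H) (fun ρ => hy ρ q.1) q.2
  have h3 := hlog (fun q => (RingOfIntegers.basis k).repr (y q.1) q.2) (H + Real.log C₀)
    (by linarith) hb (by rw [hsum]; exact hne)
  rw [hsum] at h3
  refine h3.trans ?_
  have h4 : H + Real.log C₀ ≤ (1 + Real.log C₀) * H := by
    have : Real.log C₀ ≤ Real.log C₀ * H := le_mul_of_one_le_right hlC hH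
    linarith
  calc C * (H + Real.log C₀) ≤ C * ((1 + Real.log C₀) * H) := mul_le_mul_of_nonneg_left h4 hC
    _ = C * (1 + Real.log C₀) * H := by ring

/-- the monomials of a homogenised polynomial -/
noncomputable def tameMonK (m : ℕ) (f : Fin 3 → 𝓞 k) (μ : Fin 2 →₀ ℕ) : 𝓞 k :=
  f 0 ^ (m - (μ 0 + μ 1)) * f 1 ^ μ 0 * f 2 ^ μ 1

theorem tameK_hom (P : MvPolynomial (Fin 2) (AlgebraicClosure k)) (f : Fin 3 → 𝓞 k)
    (hf : f 0 ≠ 0) :
    (algebraMap k (AlgebraicClosure k) (f 0 : k)) ^ P.totalDegree * aeval (bsqK f) P =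
      ∑ μ : P.support, coeff μ.1 P *
        algebraMap k (AlgebraicClosure k) ((tameMonK P.totalDegree f μ.1 : 𝓞 k) : k) := by
  have hf1 : ((f 0 : 𝓞 k) : k) ≠ 0 := by exact_mod_cast hf
  have hf' : algebraMap k (AlgebraicClosure k) ((f 0 : 𝓞 k) : k) ≠ 0 := (map_ne_zero _).2 hf1
  rw [aeval_def, eval₂_eq', Finset.mul_sum, ← Finset.sum_coe_sort]
  refine Finset.sum_congr rfl fun μ _ => ?_
  have hdeg : μ.1 0 + μ.1 1 ≤ P.totalDegree := by
    have h1 := le_totalDegree μ.2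
    rw [Finsupp.sum_fintype _ _ (fun _ => rfl), Fin.sum_univ_two] at h1
    exact h1
  obtain ⟨r, hr⟩ := Nat.exists_eq_add_of_le hdeg
  have e1 : P.totalDegree - (μ.1 0 + μ.1 1) = r := by omega
  rw [Fin.prod_univ_two, tameMonK, e1, Algebra.algebraMap_self, RingHom.id_apply]
  conv_lhs => rw [hr]
  simp only [bsqK, Matrix.cons_val_zero, Matrix.cons_val_one, Matrix.cons_val_fin_one, map_mul,
    map_pow, map_div₀]
  rw [div_pow, div_pow]
  field_simp
  ring

variable {T : Type} [Fintype T] [DecidableEq T] {p : T → ℕ} [∀ t, Fact (p t).Prime]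

/-! ### K3 (TameK.lean) -/

theorem tameK {U : Ultrafilter ℕ} {h : ℕ → ℝ} {f : ℕ → Fin 3 → 𝓞 k} (hs : SeqK p U h f)
    {A : Type} [NormedField A] [CharZero A] (hA1 : ∀ n : ℤ, ‖(n : A)‖ ≤ |(n : ℝ)|)
    (hA2 : ∀ n : ℤ, n ≠ 0 → |(n : ℝ)|⁻¹ ≤ ‖(n : A)‖) (ι : AlgebraicClosure k →+* A)
    (P : MvPolynomial (Fin 2) (AlgebraicClosure k))
    (hP : ∀ᶠ n in (U : Filter ℕ), aeval (bsqK (f n)) P ≠ 0) :
    ∃ C : ℝ, ∀ᶠ n in (U : Filter ℕ),
      |Real.log (absOf ι (aeval (bsqK (f n)) P))| ≤ C * h n := by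
  classical
  obtain ⟨w, hw⟩ : ∃ w, w = absOf ι := ⟨_, rfl⟩
  have hwι : ∀ x, w x = ‖ι x‖ := fun x => by rw [hw]; rfl
  have h1 : ∀ n : ℤ, w (n : AlgebraicClosure k) ≤ |(n : ℝ)| := fun n => by
    rw [hwι, map_intCast]
    exact hA1 n
  have h2 : ∀ n : ℤ, n ≠ 0 → |(n : ℝ)|⁻¹ ≤ w (n : AlgebraicClosure k) := fun n hn => by
    rw [hwι, map_intCast]
    exact hA2 n hn
  obtain ⟨m, hm⟩ : ∃ m, m = P.totalDegree := ⟨_, rfl⟩
  obtain ⟨C₁, hC₁, hform⟩ := tameK_form w h1 h2 (fun μ : P.support => coeff μ.1 P)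
  obtain ⟨C₂, hC₂, hform2⟩ := tameK_form w h1 h2 (fun _ : Unit => (1 : AlgebraicClosure k))
  refine ⟨C₁ * (m + 1) + m * C₂, ?_⟩
  have hh1 : ∀ᶠ n in (U : Filter ℕ), 1 ≤ h n := hs.tend.eventually_ge_atTop 1
  filter_upwards [hP, hh1] with n hn hhn
  rw [← hw]
  have hf1 : ((f n 0 : 𝓞 k) : k) ≠ 0 := by exact_mod_cast hs.ne n
  have hf0 : algebraMap k (AlgebraicClosure k) ((f n 0 : 𝓞 k) : k) ≠ 0 := (map_ne_zero _).2 hf1
  obtain ⟨z, hz⟩ : ∃ z, z = ∑ μ : P.support, coeff μ.1 P *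
      algebraMap k (AlgebraicClosure k) ((tameMonK m (f n) μ.1 : 𝓞 k) : k) := ⟨_, rfl⟩
  have hz1 : (algebraMap k (AlgebraicClosure k) ((f n 0 : 𝓞 k) : k)) ^ m *
      aeval (bsqK (f n)) P = z := by
    rw [hz, hm]
    exact tameK_hom P (f n) (hs.ne n)
  have hz0 : z ≠ 0 := by
    rw [← hz1]
    exact mul_ne_zero (pow_ne_zero _ hf0) hn
  have hm0 : (0 : ℝ) ≤ m := Nat.cast_nonneg _
  have hH : 1 ≤ ((m : ℝ) + 1) * h n := by nlinarith
  have hb : ∀ (ρ : k →+* ℂ) (μ : P.support),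
      ‖ρ (tameMonK m (f n) μ.1 : 𝓞 k)‖ ≤ Real.exp (((m : ℝ) + 1) * h n) := by
    intro ρ μ
    have hdeg : μ.1 0 + μ.1 1 ≤ m := by
      have h1 := le_totalDegree μ.2
      rw [Finsupp.sum_fintype _ _ (fun _ => rfl), Fin.sum_univ_two] at h1
      rw [hm]
      exact h1
    have hle : ‖ρ (tameMonK m (f n) μ.1 : 𝓞 k)‖ ≤ Real.exp ((m : ℝ) * h n) := by
      have e : (m : ℝ) * h n = ((m - (μ.1 0 + μ.1 1) : ℕ) : ℝ) * h n + (μ.1 0 : ℝ) * h n +
          (μ.1 1 : ℝ) * h n := by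
        rw [Nat.cast_sub hdeg]
        push_cast
        ring
      rw [e, Real.exp_add, Real.exp_add, Real.exp_nat_mul, Real.exp_nat_mul, Real.exp_nat_mul,
        tameMonK]
      simp only [map_mul, map_pow, norm_mul, norm_pow]
      have g : ∀ (i : Fin 3) (j : ℕ), ‖ρ (f n i : 𝓞 k)‖ ^ j ≤ Real.exp (h n) ^ j := fun i j =>
        pow_le_pow_left₀ (norm_nonneg _) (hs.le n i ρ) j
      exact mul_le_mul (mul_le_mul (g 0 _) (g 1 _) (by positivity) (by positivity)) (g 2 _)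
        (by positivity) (by positivity)
    refine hle.trans (Real.exp_le_exp.2 ?_)
    nlinarith
  have hZ := hform (fun μ => tameMonK m (f n) μ.1) (((m : ℝ) + 1) * h n) hH hb
    (by rw [← hz]; exact hz0)
  rw [← hz] at hZ
  have hF := hform2 (fun _ => f n 0) (h n) hhn (fun ρ _ => hs.le n 0 ρ) (by simpa using hf1)
  have hF' : |Real.log (w (algebraMap k (AlgebraicClosure k) ((f n 0 : 𝓞 k) : k)))| ≤
      C₂ * h n := by
    simpa using hF
  have hw0 : 0 < w (algebraMap k (AlgebraicClosure k) ((f n 0 : 𝓞 k) : k)) := w.pos hf0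
  have hval : Real.log (w (aeval (bsqK (f n)) P)) =
      Real.log (w z) - m * Real.log (w (algebraMap k (AlgebraicClosure k) ((f n 0 : 𝓞 k) : k))) := by
    rw [← hz1, w.map_mul, w.map_pow, Real.log_mul (pow_pos hw0 _).ne' (w.pos hn).ne', Real.log_pow]
    ring
  rw [hval]
  obtain ⟨a, ha⟩ : ∃ a, a = Real.log (w z) := ⟨_, rfl⟩
  obtain ⟨b, hb'⟩ : ∃ b,
      b = Real.log (w (algebraMap k (AlgebraicClosure k) ((f n 0 : 𝓞 k) : k))) := ⟨_, rfl⟩
  rw [← ha] at hZ ⊢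
  rw [← hb'] at hF' ⊢
  calc |a - m * b| ≤ |a| + |(m : ℝ) * b| := abs_sub _ _
    _ = |a| + m * |b| := by rw [abs_mul, abs_of_nonneg hm0]
    _ ≤ C₁ * (((m : ℝ) + 1) * h n) + m * (C₂ * h n) :=
        add_le_add hZ (mul_le_mul_of_nonneg_left hF' hm0)
    _ = (C₁ * (m + 1) + m * C₂) * h n := by ring

end

end Pool.Agent.SST
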