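import Pool.Agent.SST.Lim

/-! The inequality for all forms. -/

open MvPolynomial Filter Module
open scoped Topology

namespace Pool.Agent.SST

/-- `u` is at most `o (h)` along `U` -/
def Sm (U : Ultrafilter ℕ) (h u : ℕ → ℝ) : Prop := ∀ δ : ℝ, 0 < δ → ∀ᶠ n in (U : Filter ℕ), u n ≤ δ * h n

lemma Sm.add {U : Ultrafilter ℕ} {h u v : ℕ → ℝ} (hu : Sm U h u) (hv : Sm U h v) :
    Sm U h (fun n => u n + v n) := by
  intro δ hδ
  filter_upwards [hu (δ / 2) (by linarith), hv (δ / 2) (by linarith)] with n h1 h2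
  linarith

lemma Sm.mono {U : Ultrafilter ℕ} {h u v : ℕ → ℝ} (hu : Sm U h u) (hv : ∀ n, v n ≤ u n) :
    Sm U h v := fun δ hδ => (hu δ hδ).mono fun n hn => (hv n).trans hn

lemma Sm.const {U : Ultrafilter ℕ} {h : ℕ → ℝ} (hh : Tendsto h U atTop) (c : ℝ) :
    Sm U h (fun _ => c) := by
  intro δ hδ
  filter_upwards [hh.eventually_ge_atTop (c / δ)] with n hn
  rwa [div_le_iff₀' hδ] at hn

lemma Sm.nsmul {U : Ultrafilter ℕ} {h u : ℕ → ℝ} (hh : Tendsto h U atTop) (hu : Sm U h u)
    (k : ℕ) : Sm U h (fun n => k * u n) := by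
  induction k with
  | zero => simpa using Sm.const hh 0
  | succ k ih =>
    refine (ih.add hu).mono fun n => ?_
    push_cast
    linarith

lemma Sm.sum {U : Ultrafilter ℕ} {h : ℕ → ℝ} (hh : Tendsto h U atTop) {ι : Type}
    (s : Finset ι) (u : ι → ℕ → ℝ) (hu : ∀ i ∈ s, Sm U h (u i)) :
    Sm U h (fun n => ∑ i ∈ s, u i n) := by
  classical
  induction s using Finset.induction_on with
  | empty => simpa using Sm.const hh 0
  | insert a s ha ih =>
    have h1 := (hu a (Finset.mem_insert_self a s)).add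
      (ih fun i hi => hu i (Finset.mem_insert_of_mem hi))
    refine h1.mono fun n => ?_
    rw [Finset.sum_insert ha]

lemma Sm.of_tendsto {U : Ultrafilter ℕ} {h u : ℕ → ℝ} (hh : Tendsto h U atTop)
    (hu : Tendsto (fun n => u n / h n) U (𝓝 0)) : Sm U h (fun n => |u n|) := by
  intro δ hδ
  have h1 := hu.abs
  rw [abs_zero] at h1
  filter_upwards [h1.eventually_lt_const hδ, hh.eventually_gt_atTop 0] with n h2 h3
  rw [abs_div, abs_of_pos h3, div_lt_iff₀ h3] at h2
  exact h2.le

lemma Sm.max_zero {U : Ultrafilter ℕ} {h u : ℕ → ℝ} (hh : Tendsto h U atTop) (hu : Sm U h u) :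
    Sm U h (fun n => max (u n) 0) := by
  intro δ hδ
  filter_upwards [hu δ hδ, hh.eventually_gt_atTop 0] with n h1 h2
  exact max_le h1 (by positivity)

/-- nonarchimedean or archimedean bound for `fq` -/
lemma fq_le (V : AbsoluteValue Qb ℝ) (β : Qb) : ∃ C : ℝ, 0 ≤ C ∧ ∀ (b : Fin 2 → Qb) (u : ℝ),
    0 ≤ u → (∀ i, Real.log (V (b i)) ≤ u) → Real.log (V (fq β b)) ≤ C + u := by
  refine ⟨Real.log (V β ^ 2 + V β + 1), Real.log_nonneg ?_, ?_⟩
  · nlinarith [V.nonneg β, sq_nonneg (V β)]
  · intro b u hu hb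
    have h1 : ∀ i, V (b i) ≤ Real.exp u := by
      intro i
      rcases eq_or_ne (b i) 0 with h0 | h0
      · rw [h0, map_zero]
        exact (Real.exp_pos u).le
      · rw [← Real.log_le_iff_le_exp (V.pos h0)]
        exact hb i
    have he : 1 ≤ Real.exp u := Real.one_le_exp hu
    have h2 : V (fq β b) ≤ (V β ^ 2 + V β + 1) * Real.exp u := by
      change V (β ^ 2 + b 0 * β + b 1) ≤ _
      have e1 := V.add_le (β ^ 2 + b 0 * β) (b 1)
      have e2 := V.add_le (β ^ 2) (b 0 * β)
      rw [map_mul, map_pow] at e2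
      have e3 := h1 0
      have e4 := h1 1
      have e5 : V (b 0) * V β ≤ Real.exp u * V β := mul_le_mul_of_nonneg_right e3 (V.nonneg β)
      have e6 : V β ^ 2 ≤ V β ^ 2 * Real.exp u := le_mul_of_one_le_right (by positivity) he
      nlinarith
    rcases eq_or_ne (fq β b) 0 with h0 | h0
    · rw [h0, map_zero, Real.log_zero]
      have : 0 ≤ Real.log (V β ^ 2 + V β + 1) :=
        Real.log_nonneg (by nlinarith [V.nonneg β, sq_nonneg (V β)])
      linarith
    · have h3 := Real.log_le_log (V.pos h0) h2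
      rwa [Real.log_mul (by nlinarith [V.nonneg β, sq_nonneg (V β)]) (Real.exp_pos u).ne',
        Real.log_exp] at h3

/-- a finite Galois stable set containing a given one -/
lemma exists_stable (D : Finset Qb) : ∃ D' : Finset Qb, D ⊆ D' ∧
    ∀ σ : Qb ≃+* Qb, ∀ α ∈ D', σ α ∈ D' := by
  classical
  refine ⟨D.biUnion fun β => ((minpoly ℚ β).aroots Qb).toFinset, ?_, ?_⟩
  · intro β hβ
    rw [Finset.mem_biUnion]
    refine ⟨β, hβ, ?_⟩
    rw [Multiset.mem_toFinset, Polynomial.mem_aroots]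
    exact ⟨minpoly.ne_zero ((AlgebraicClosure.isAlgebraic ℚ).isAlgebraic β).isIntegral,
      minpoly.aeval ℚ β⟩
  · intro σ α hα
    rw [Finset.mem_biUnion] at hα ⊢
    obtain ⟨β, hβ, h1⟩ := hα
    refine ⟨β, hβ, ?_⟩
    rw [Multiset.mem_toFinset, Polynomial.mem_aroots] at h1 ⊢
    refine ⟨h1.1, ?_⟩
    have h2 := congrArg σ h1.2
    rw [map_zero, Polynomial.aeval_def] at h2
    rw [Polynomial.aeval_def, ← h2]
    have h3 := Polynomial.hom_eval₂ (minpoly ℚ β) (algebraMap ℚ Qb) (σ : Qb →+* Qb) α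
    have h4 : (σ : Qb →+* Qb).comp (algebraMap ℚ Qb) = algebraMap ℚ Qb := Subsingleton.elim _ _
    rw [h4] at h3
    exact h3.symm

lemma nf_prim (p : ℕ) [Fact p.Prime] (f : Fin 3 → ℤ)
    (hf : ∀ d : ℤ, (∀ i, d ∣ f i) → IsUnit d) : nf ℂ_[p] f = 1 := by
  refine le_antisymm (nf_padic_le p f) ?_
  by_contra hcon
  push Not at hcon
  have h1 : ∀ i, ‖(f i : ℂ_[p])‖ < 1 := by
    intro i
    refine lt_of_le_of_lt ?_ hcon
    fin_cases i
    · exact le_max_left _ _
    · exact (le_max_left _ _).trans (le_max_right _ _)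
    · exact (le_max_right _ _).trans (le_max_right _ _)
  have h2 := hf p fun i => by
    have h3 := h1 i
    rw [norm_intCast_padic] at h3
    exact Padic.norm_intCast_lt_one_iff.mp h3
  have h4 : Prime (p : ℤ) := Nat.prime_iff_prime_int.mp (Fact.out : p.Prime)
  exact h4.not_isUnit h2

section Q

variable {T : Type} [Fintype T] [DecidableEq T] (p : T → ℕ) [∀ t, Fact (p t).Prime]

lemma placesQ_evK (ι : Qb →+* ℂ) (ι' : ∀ t, Qb →+* ℂ_[p t]) (f : Fin 3 → ℤ) (γ : OnePoint Qb) :
    placesQ p ι ι' none (evK f γ) = ‖evK f (OnePoint.map ι γ)‖ ∧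
    ∀ t, placesQ p ι ι' (some t) (evK f γ) = ‖evK f (OnePoint.map (ι' t) γ)‖ := by
  rcases γ with _ | α
  · constructor
    · change ‖ι (f 0 : Qb)‖ = ‖(f 0 : ℂ)‖
      rw [map_intCast]
    · intro t
      change ‖ι' t (f 0 : Qb)‖ = ‖(f 0 : ℂ_[p t])‖
      rw [map_intCast]
  · constructor
    · exact congrArg norm (map_evK ι f α)
    · intro t
      exact congrArg norm (map_evK (ι' t) f α)

/-- the form centred at `q` -/
def shiftF (f : Fin 3 → ℤ) (q : ℤ) : Fin 3 → ℤ :=
  ![f 0 * q ^ 2 + f 1 * q + f 2, 2 * f 0 * q + f 1, f 0]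

lemma shiftF_disc (f : Fin 3 → ℤ) (q : ℤ) : discq (shiftF f q) = discq f := by
  simp only [discq, shiftF, Matrix.cons_val_zero, Matrix.cons_val_one, Matrix.cons_val]
  ring

lemma shiftF_max (f : Fin 3 → ℤ) (q : ℤ) : maxq (shiftF f q) ≤ (1 + |(q : ℝ)|) ^ 2 * maxq f ∧
    maxq f ≤ (1 + |(q : ℝ)|) ^ 2 * maxq (shiftF f q) := by
  have key : ∀ (x y z M Q : ℝ), |x| ≤ M → |y| ≤ M → |z| ≤ M →
      |x * Q ^ 2 + y * Q + z| ≤ (1 + |Q|) ^ 2 * M ∧ |2 * x * Q + y| ≤ (1 + |Q|) ^ 2 * M ∧
        |x| ≤ (1 + |Q|) ^ 2 * M := by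
    intro x y z M Q hx hy hz
    have hM : 0 ≤ M := (abs_nonneg x).trans hx
    have hQ := abs_nonneg Q
    have e1 : |x * Q ^ 2| = |x| * |Q| ^ 2 := by rw [abs_mul, abs_pow]
    have e2 : |y * Q| = |y| * |Q| := abs_mul _ _
    have e3 : |2 * x * Q| = 2 * |x| * |Q| := by rw [abs_mul, abs_mul, abs_two]
    have a1 := abs_add_le (x * Q ^ 2 + y * Q) z
    have a2 := abs_add_le (x * Q ^ 2) (y * Q)
    have a3 := abs_add_le (2 * x * Q) y
    have b1 : |x| * |Q| ^ 2 ≤ M * |Q| ^ 2 := mul_le_mul_of_nonneg_right hx (by positivity)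
    have b2 : |y| * |Q| ≤ M * |Q| := mul_le_mul_of_nonneg_right hy hQ
    have b3 : |x| * |Q| ≤ M * |Q| := mul_le_mul_of_nonneg_right hx hQ
    have b4 : 0 ≤ M * |Q| := by positivity
    have b5 : 0 ≤ M * |Q| ^ 2 := by positivity
    refine ⟨?_, ?_, ?_⟩ <;> nlinarith
  have hle : ∀ (f : Fin 3 → ℤ) (i : Fin 3), |(f i : ℝ)| ≤ maxq f := by
    intro f i
    fin_cases i
    · exact le_max_left _ _
    · exact (le_max_left _ _).trans (le_max_right _ _)
    · exact (le_max_right _ _).trans (le_max_right _ _)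
  constructor
  · obtain ⟨h1, h2, h3⟩ := key (f 0) (f 1) (f 2) (maxq f) q (hle f 0) (hle f 1) (hle f 2)
    refine max_le ?_ (max_le ?_ ?_)
    · simpa [shiftF] using h1
    · simpa [shiftF] using h2
    · simpa [shiftF] using h3
  · obtain ⟨h1, h2, h3⟩ := key (shiftF f q 2) (shiftF f q 1) (shiftF f q 0) (maxq (shiftF f q))
      (-q) (hle _ 2) (hle _ 1) (hle _ 0)
    have e0 : ((shiftF f q 0 : ℤ) : ℝ) = f 0 * q ^ 2 + f 1 * q + f 2 := by simp [shiftF]
    have e1 : ((shiftF f q 1 : ℤ) : ℝ) = 2 * f 0 * q + f 1 := by simp [shiftF]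
    have e2 : ((shiftF f q 2 : ℤ) : ℝ) = f 0 := by simp [shiftF]
    rw [abs_neg, e0, e1, e2] at h1
    rw [abs_neg, e1, e2] at h2
    rw [abs_neg, e2] at h3
    rw [show (f 0 : ℝ) * (-q) ^ 2 + (2 * f 0 * q + f 1) * (-q) + (f 0 * q ^ 2 + f 1 * q + f 2) =
      f 2 by ring] at h1
    rw [show 2 * (f 0 : ℝ) * (-q) + (2 * f 0 * q + f 1) = f 1 by ring] at h2
    exact max_le h3 (max_le h2 h1)

theorem all_form (hp : Function.Injective p) (ι : Qb →+* ℂ) (ι' : ∀ t, Qb →+* ℂ_[p t])
    (D : Finset (OnePoint Qb)) (ε : ℝ) (hε : 0 < ε) :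
    ∃ C : ℝ, ∀ f : Fin 3 → ℤ, (∀ d : ℤ, (∀ i, d ∣ f i) → IsUnit d) → ¬ IsSquare (discq f) →
      (∀ γ ∈ D, evK f γ ≠ 0) →
        ∑ γ ∈ D, (Real.log (maxq f) - Real.log ‖evK f (OnePoint.map ι γ)‖) +
        ∑ t, ∑ γ ∈ D, (-Real.log ‖evK f (OnePoint.map (ι' t) γ)‖) +
        (2 * Real.log (maxq f) - Real.log |((discq f : ℤ) : ℝ)| -
          ∑ t, Real.log ‖((discq f : ℤ) : ℂ_[p t])‖) ≤ (4 + ε) * Real.log (maxq f) + C := by
  classical
  set V := placesQ p ι ι' with hV
  by_contra hcon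
  push Not at hcon
  choose F hprim hirr hev hbig using fun n : ℕ => hcon n
  set h : ℕ → ℝ := fun n => Real.log (maxq (F n)) with hh
  have hmax1 : ∀ n, 1 ≤ maxq (F n) := fun n => one_le_maxq (discq_ne_of_not_sq (hirr n))
  have hle : ∀ (f : Fin 3 → ℤ) (i : Fin 3), |(f i : ℝ)| ≤ maxq f := by
    intro f i
    fin_cases i
    · exact le_max_left _ _
    · exact (le_max_left _ _).trans (le_max_right _ _)
    · exact (le_max_right _ _).trans (le_max_right _ _)
  have htend : Tendsto h atTop atTop := by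
    rw [tendsto_atTop]
    intro M
    set L : (Fin 3 → ℤ) → ℝ := fun f =>
      ∑ γ ∈ D, (Real.log (maxq f) - Real.log ‖evK f (OnePoint.map ι γ)‖) +
        ∑ t, ∑ γ ∈ D, (-Real.log ‖evK f (OnePoint.map (ι' t) γ)‖) +
        (2 * Real.log (maxq f) - Real.log |((discq f : ℤ) : ℝ)| -
          ∑ t, Real.log ‖((discq f : ℤ) : ℂ_[p t])‖) with hL
    set 𝒮 : Finset (Fin 3 → ℤ) := Fintype.piFinset fun _ =>
      Finset.Icc (-⌈Real.exp M⌉) ⌈Real.exp M⌉ with h𝒮
    set B : ℝ := ∑ f ∈ 𝒮, |L f| with hB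
    filter_upwards [eventually_gt_atTop ⌈B⌉₊] with n hn
    by_contra hlt
    push Not at hlt
    have hFm : F n ∈ 𝒮 := by
      rw [h𝒮, Fintype.mem_piFinset]
      intro i
      rw [Finset.mem_Icc]
      have h1 : |(F n i : ℝ)| ≤ Real.exp M := by
        refine (hle (F n) i).trans ?_
        rw [← Real.log_le_iff_le_exp (by linarith [hmax1 n])]
        exact hlt.le
      rw [abs_le] at h1
      constructor
      · have h2 : -(⌈Real.exp M⌉ : ℝ) ≤ (F n i : ℝ) := by
          have := Int.le_ceil (Real.exp M)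
          linarith [h1.1]
        exact_mod_cast h2
      · have h2 : (F n i : ℝ) ≤ (⌈Real.exp M⌉ : ℝ) := by
          have := Int.le_ceil (Real.exp M)
          linarith [h1.2]
        exact_mod_cast h2
    have h2 : L (F n) ≤ B := (le_abs_self _).trans
      (Finset.single_le_sum (f := fun f => |L f|) (fun _ _ => abs_nonneg _) hFm)
    have h3 : (4 + ε) * Real.log (maxq (F n)) + n < L (F n) := hbig n
    have h4 : 0 ≤ Real.log (maxq (F n)) := Real.log_nonneg (hmax1 n)
    have h5 : (⌈B⌉₊ : ℝ) < n := by exact_mod_cast hn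
    have h6 := Nat.le_ceil B
    have h7 : 0 ≤ (4 + ε) * Real.log (maxq (F n)) := by positivity
    linarith
  set U : Ultrafilter ℕ := hyperfilter ℕ with hU
  have hUle : (U : Filter ℕ) ≤ atTop := Nat.hyperfilter_le_atTop
  have hhU : Tendsto h U atTop := htend.mono_left hUle
  obtain ⟨q, hq1, hq2⟩ := exists_good_point p hhU F hirr
  set g : ℕ → Fin 3 → ℤ := fun n => shiftF (F n) q with hg
  set K : ℝ := Real.log ((1 + |(q : ℝ)|) ^ 2) with hK
  set h' : ℕ → ℝ := fun n => Real.log (maxq (g n)) with hh'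
  have hK0 : (0 : ℝ) < (1 + |(q : ℝ)|) ^ 2 := by positivity
  have hmaxg : ∀ n, 1 ≤ maxq (g n) := fun n => one_le_maxq (by
    rw [hg]; simp only [shiftF_disc]; exact discq_ne_of_not_sq (hirr n))
  have hhh : ∀ n, |h' n - h n| ≤ K := by
    intro n
    obtain ⟨h1, h2⟩ := shiftF_max (F n) q
    have h3 := Real.log_le_log (by linarith [hmaxg n]) h1
    have h4 := Real.log_le_log (by linarith [hmax1 n]) h2
    rw [Real.log_mul hK0.ne' (by linarith [hmax1 n])] at h3
    rw [Real.log_mul hK0.ne' (by linarith [hmaxg n])] at h4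
    rw [abs_le]
    constructor
    · change -K ≤ Real.log (maxq (shiftF (F n) q)) - Real.log (maxq (F n))
      linarith
    · change Real.log (maxq (shiftF (F n) q)) - Real.log (maxq (F n)) ≤ K
      linarith
  have hirr' : ∀ n, ¬ IsSquare (discq (g n)) := fun n => by
    rw [hg]; simp only [shiftF_disc]; exact hirr n
  have hg0 : ∀ n, g n 0 = F n 0 * q ^ 2 + F n 1 * q + F n 2 := fun n => rfl
  have hF0 : ∀ n, F n 0 ≠ 0 := by
    intro n h0
    apply hirr n
    refine ⟨F n 1, ?_⟩
    rw [discq, h0]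
    ring
  have hgne : ∀ n, g n 0 ≠ 0 := by
    intro n h0
    rw [hg0] at h0
    refine no_rat_root (hirr n) (hF0 n) (q : ℚ) ?_
    exact_mod_cast h0
  have hposU : ∀ᶠ n in (U : Filter ℕ), 0 < h n := hhU.eventually_gt_atTop 0
  have hratio : Tendsto (fun n => h' n / h n) U (𝓝 1) := by
    have h1 : Tendsto (fun n => K / h n) U (𝓝 0) := hhU.const_div_atTop K
    have h2 : Tendsto (fun n => (h' n - h n) / h n) U (𝓝 0) := by
      refine squeeze_zero_norm' ?_ h1
      filter_upwards [hposU] with n hn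
      rw [norm_div, Real.norm_eq_abs, Real.norm_eq_abs, abs_of_pos hn]
      exact div_le_div_of_nonneg_right (hhh n) hn.le
    have h3 := h2.const_add 1
    rw [add_zero] at h3
    refine h3.congr' ?_
    filter_upwards [hposU] with n hn
    rw [sub_div, div_self hn.ne']
    ring
  have htend' : Tendsto h' U atTop := by
    have h1 : Tendsto (fun n => h n - K) U atTop := tendsto_atTop_add_const_right _ (-K) hhU
    refine tendsto_atTop_mono (fun n => ?_) h1
    have := (abs_le.mp (hhh n)).1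
    linarith
  have hs : SeqData p U h' g := by
    refine ⟨htend', hgne, fun n i => ?_, ?_, fun t => ?_⟩
    · rw [hh']
      simp only
      rw [Real.exp_log (by linarith [hmaxg n])]
      exact hle (g n) i
    · have h1 : Tendsto (fun n => Real.log |((g n 0 : ℤ) : ℝ)| / h n) U (𝓝 1) := by
        have h2 := hq1.const_sub 1
        rw [sub_zero] at h2
        refine h2.congr' ?_
        filter_upwards [hposU] with n hn
        rw [sub_div]
        change 1 - (h n / h n - _) = _
        rw [div_self hn.ne', hg0]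
        ring
      have h3 := h1.div hratio one_ne_zero
      rw [div_one] at h3
      refine h3.congr' ?_
      filter_upwards [hposU] with n hn
      rw [Pi.div_apply, div_div_div_cancel_right₀ hn.ne']
    · have h1 : Tendsto (fun n => Real.log ‖((g n 0 : ℤ) : ℚ_[p t])‖ / h n) U (𝓝 0) := by
        have h2 := (hq2 t).neg
        rw [neg_zero] at h2
        refine h2.congr fun n => ?_
        rw [nf_prim (p t) (F n) (hprim n), Real.log_one, hg0, ← norm_intCast_padic]
        ring
      have h3 := h1.div hratio one_ne_zero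
      rw [div_one] at h3
      refine h3.congr' ?_
      filter_upwards [hposU] with n hn
      rw [Pi.div_apply, div_div_div_cancel_right₀ hn.ne']
  -- the normalised sizes at all places
  set Nl : Option T → ℕ → ℝ := fun l n => l.elim (h n) fun _ => 0 with hNl
  set E : Option T → ℕ → ℝ := fun l n => Nl l n - Real.log (V l ((g n 0 : ℤ) : Qb)) with hE
  have hE0 : ∀ l, Sm U h (fun n => |E l n|) := by
    intro l
    apply Sm.of_tendsto hhU
    cases l with
    | none =>
      refine hq1.congr fun n => ?_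
      rw [hE, hNl, hV]
      simp only [Option.elim]
      rw [placesQ_int_none, hg0]
    | some t =>
      refine (hq2 t).congr fun n => ?_
      rw [hE, hNl, hV]
      simp only [Option.elim]
      rw [placesQ_int_some, hg0, nf_prim (p t) (F n) (hprim n), Real.log_one, ← norm_intCast_padic]
  -- the finite set of points
  set βf : OnePoint Qb → Qb := fun γ => γ.elim 0 fun α => 1 / (α - (q : Qb)) with hβf
  set D0 : Finset Qb := (D.erase (((q : ℤ) : Qb) : OnePoint Qb)).image βf with hD0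
  obtain ⟨D1, hD01, hD1⟩ := exists_stable D0
  have hlim := lim_all p hp ι ι' hs hirr' (fun n => rfl) D1 hD1 (ε / 2) (by linarith)
  choose u hu0 hu using log_bsq_le p ι ι' hs
  choose Cf hCf0 hCf using fun (l : Option T) (β : Qb) => fq_le (V l) β
  have hu1 : ∀ l, Sm U h (fun n => max (u l n) 0) := by
    intro l
    have h1 : Tendsto (fun n => u l n / h n) U (𝓝 0) := by
      have h2 := (hu0 l).mul hratio
      rw [zero_mul] at h2
      refine h2.congr' ?_
      filter_upwards [hposU, htend'.eventually_gt_atTop 0] with n hn hn'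
      field_simp
    exact Sm.max_zero hhU ((Sm.of_tendsto hhU h1).mono fun n => le_abs_self _)
  set cγ : Option T → OnePoint Qb → ℝ := fun l γ =>
    γ.elim 0 fun α => 2 * Real.log (V l (α - (q : Qb))) with hcγ
  set R : Option T → ℕ → ℝ := fun l n => ((D.card + 3 : ℕ) : ℝ) * |E l n| + ∑ γ ∈ D, |cγ l γ| +
    ∑ β ∈ D1, (Cf l β + max (u l n) 0) with hR
  have hRs : ∀ l, Sm U h (R l) := by
    intro l
    refine ((Sm.nsmul hhU (hE0 l) _).add (Sm.const hhU _)).add ?_
    exact Sm.sum hhU D1 _ fun β _ => (Sm.const hhU _).add (hu1 l)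
  have hg0V : ∀ l n, 0 < V l ((g n 0 : ℤ) : Qb) := fun l n => (V l).pos (by exact_mod_cast hgne n)
  have hkey : ∀ l n, ∀ γ ∈ D.erase (((q : ℤ) : Qb) : OnePoint Qb),
      Nl l n - Real.log (V l (evK (F n) γ)) =
        E l n - cγ l γ + -Real.log (V l (fq (βf γ) (bsq (g n)))) := by
    intro l n γ hγ
    rw [Finset.mem_erase] at hγ
    have hevn := hev n γ hγ.2
    have hg0' : ((g n 0 : ℤ) : Qb) ≠ 0 := by exact_mod_cast hgne n
    rcases γ with _ | α
    · have e1 : evK (F n) (OnePoint.infty : OnePoint Qb) =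
          fq (0 : Qb) (bsq (g n)) * ((g n 0 : ℤ) : Qb) := by
        rw [bsq_val _ (hgne n)]
        change (F n 0 : Qb) = ((g n 0 : Qb) * 0 ^ 2 + (g n 1 : Qb) * 0 + (g n 2 : Qb)) /
          (g n 0 : Qb) * (g n 0 : Qb)
        rw [div_mul_cancel₀ _ hg0']
        change (F n 0 : Qb) = (g n 0 : Qb) * 0 ^ 2 + (g n 1 : Qb) * 0 + ((F n 0 : ℤ) : Qb)
        ring
      have e2 : fq (0 : Qb) (bsq (g n)) ≠ 0 := by
        intro h0
        apply hevn
        change evK (F n) (OnePoint.infty : OnePoint Qb) = 0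
        rw [e1, h0, zero_mul]
      change Nl l n - Real.log (V l (evK (F n) (OnePoint.infty : OnePoint Qb))) =
        Nl l n - Real.log (V l ((g n 0 : ℤ) : Qb)) - 0 + -Real.log (V l (fq (0 : Qb) (bsq (g n))))
      rw [e1, map_mul, Real.log_mul ((V l).ne_zero e2) (hg0V l n).ne']
      ring
    · have hαq : α - (q : Qb) ≠ 0 := by
        intro h0
        apply hγ.1
        rw [sub_eq_zero] at h0
        rw [h0]
        rfl
      have e1 : evK (F n) (α : OnePoint Qb) =
          (α - (q : Qb)) ^ 2 * (fq (1 / (α - (q : Qb))) (bsq (g n)) * ((g n 0 : ℤ) : Qb)) := by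
        rw [bsq_val _ (hgne n)]
        change (F n 0 : Qb) * α ^ 2 + (F n 1 : Qb) * α + (F n 2 : Qb) =
          (α - (q : Qb)) ^ 2 * (((g n 0 : Qb) * (1 / (α - (q : Qb))) ^ 2 +
            (g n 1 : Qb) * (1 / (α - (q : Qb))) + (g n 2 : Qb)) / (g n 0 : Qb) * (g n 0 : Qb))
        rw [div_mul_cancel₀ _ hg0']
        have a0 : ((g n 0 : ℤ) : Qb) = (F n 0 : Qb) * q ^ 2 + (F n 1 : Qb) * q + (F n 2 : Qb) := by
          rw [hg0]
          push_cast
          ring
        have a1 : ((g n 1 : ℤ) : Qb) = 2 * (F n 0 : Qb) * q + (F n 1 : Qb) := by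
          have : g n 1 = 2 * F n 0 * q + F n 1 := rfl
          rw [this]
          push_cast
          ring
        have a2 : ((g n 2 : ℤ) : Qb) = (F n 0 : Qb) := rfl
        rw [a0, a1, a2]
        field_simp
        ring
      have e2 : fq (1 / (α - (q : Qb))) (bsq (g n)) ≠ 0 := by
        intro h0
        apply hevn
        change evK (F n) (α : OnePoint Qb) = 0
        rw [e1, h0, zero_mul, mul_zero]
      change Nl l n - Real.log (V l (evK (F n) (α : OnePoint Qb))) =
        Nl l n - Real.log (V l ((g n 0 : ℤ) : Qb)) - 2 * Real.log (V l (α - (q : Qb))) +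
          -Real.log (V l (fq (1 / (α - (q : Qb))) (bsq (g n))))
      rw [e1, map_mul, map_mul, map_pow, Real.log_mul (pow_ne_zero 2 ((V l).ne_zero hαq))
        (mul_ne_zero ((V l).ne_zero e2) (hg0V l n).ne'),
        Real.log_mul ((V l).ne_zero e2) (hg0V l n).ne', Real.log_pow]
      push_cast
      ring
  have hinj : Set.InjOn βf ((D.erase (((q : ℤ) : Qb) : OnePoint Qb) : Finset (OnePoint Qb)) :
      Set (OnePoint Qb)) := by
    have hne : ∀ α : Qb, (α : OnePoint Qb) ∈ D.erase (((q : ℤ) : Qb) : OnePoint Qb) →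
        α - (q : Qb) ≠ 0 := by
      intro α hα h0
      rw [sub_eq_zero] at h0
      rw [h0] at hα
      exact (Finset.mem_erase.mp hα).1 rfl
    intro γ hγ γ' hγ' heq
    rw [Finset.mem_coe] at hγ hγ'
    rcases γ with _ | α <;> rcases γ' with _ | α'
    · rfl
    · exfalso
      have h1 := hne α' hγ'
      change (0 : Qb) = 1 / (α' - (q : Qb)) at heq
      exact one_div_ne_zero h1 heq.symm
    · exfalso
      have h1 := hne α hγ
      change 1 / (α - (q : Qb)) = (0 : Qb) at heq
      exact one_div_ne_zero h1 heq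
    · change 1 / (α - (q : Qb)) = 1 / (α' - (q : Qb)) at heq
      rw [one_div, one_div, inv_inj, sub_left_inj] at heq
      rw [heq]
  have hDl : ∀ l n, ∑ γ ∈ D, (Nl l n - Real.log (V l (evK (F n) γ))) +
      (2 * Nl l n - Real.log (V l ((discq (F n) : ℤ) : Qb))) ≤
      (∑ β ∈ D1, -Real.log (V l (fq β (bsq (g n)))) - Real.log (V l (dq (bsq (g n))))) + R l n := by
    intro l n
    have hEa : |E l n| = |E l n| := rfl
    -- the discriminant
    have hdg : discq (g n) = discq (F n) := shiftF_disc (F n) q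
    have hdne : ((discq (F n) : ℤ) : Qb) ≠ 0 := by
      exact_mod_cast discq_ne_of_not_sq (hirr n)
    have hd1 : Real.log (V l (dq (bsq (g n)))) = Real.log (V l ((discq (F n) : ℤ) : Qb)) -
        2 * Real.log (V l ((g n 0 : ℤ) : Qb)) := by
      rw [bsq_disc _ (hgne n), hdg, map_div₀, map_pow,
        Real.log_div ((V l).ne_zero hdne) (pow_ne_zero 2 (hg0V l n).ne'), Real.log_pow]
      push_cast
      ring
    have hd2 : 2 * Nl l n - Real.log (V l ((discq (F n) : ℤ) : Qb)) ≤
        -Real.log (V l (dq (bsq (g n)))) + 2 * |E l n| := by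
      have h1 : E l n = Nl l n - Real.log (V l ((g n 0 : ℤ) : Qb)) := rfl
      have h2 := le_abs_self (E l n)
      linarith
    -- the points
    have hp1 : ∑ γ ∈ D, (Nl l n - Real.log (V l (evK (F n) γ))) ≤
        ∑ γ ∈ D.erase (((q : ℤ) : Qb) : OnePoint Qb),
          (Nl l n - Real.log (V l (evK (F n) γ))) + |E l n| := by
      by_cases hq : (((q : ℤ) : Qb) : OnePoint Qb) ∈ D
      · rw [← Finset.sum_erase_add _ _ hq]
        have h1 : evK (F n) (((q : ℤ) : Qb) : OnePoint Qb) = ((g n 0 : ℤ) : Qb) := by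
          change (F n 0 : Qb) * (q : Qb) ^ 2 + (F n 1 : Qb) * (q : Qb) + (F n 2 : Qb) = _
          rw [hg0]
          push_cast
          ring
        rw [h1]
        have h2 := le_abs_self (E l n)
        have h3 : E l n = Nl l n - Real.log (V l ((g n 0 : ℤ) : Qb)) := rfl
        linarith
      · rw [Finset.erase_eq_of_notMem hq]
        have := abs_nonneg (E l n)
        linarith
    have hp2 : ∑ γ ∈ D.erase (((q : ℤ) : Qb) : OnePoint Qb),
          (Nl l n - Real.log (V l (evK (F n) γ))) ≤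
        D.card * |E l n| + ∑ γ ∈ D, |cγ l γ| +
        ∑ β ∈ D0, -Real.log (V l (fq β (bsq (g n)))) := by
      rw [Finset.sum_congr rfl (hkey l n), Finset.sum_add_distrib, hD0,
        Finset.sum_image hinj]
      have h1 : ∑ γ ∈ D.erase (((q : ℤ) : Qb) : OnePoint Qb), (E l n - cγ l γ) ≤
          ∑ γ ∈ D, (|E l n| + |cγ l γ|) := by
        refine (Finset.sum_le_sum fun γ _ => ?_).trans
          (Finset.sum_le_sum_of_subset_of_nonneg (Finset.erase_subset _ _)
            fun γ _ _ => by positivity)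
        have h2 := le_abs_self (E l n)
        have h3 := neg_abs_le (cγ l γ)
        linarith
      rw [Finset.sum_add_distrib, Finset.sum_const, nsmul_eq_mul] at h1
      linarith
    have hp3 : ∑ β ∈ D0, -Real.log (V l (fq β (bsq (g n)))) ≤
        ∑ β ∈ D1, -Real.log (V l (fq β (bsq (g n)))) + ∑ β ∈ D1, (Cf l β + max (u l n) 0) := by
      rw [← Finset.sum_add_distrib]
      have hy : ∀ β, 0 ≤ Cf l β + max (u l n) 0 := fun β =>
        add_nonneg (hCf0 l β) (le_max_right _ _)
      have hxy : ∀ β, Real.log (V l (fq β (bsq (g n)))) ≤ Cf l β + max (u l n) 0 := fun β =>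
        hCf l β (bsq (g n)) (max (u l n) 0) (le_max_right _ _)
          fun i => (hu l n i).trans (le_max_left _ _)
      refine (Finset.sum_le_sum fun β _ => ?_).trans
        (Finset.sum_le_sum_of_subset_of_nonneg hD01 fun β _ _ => ?_)
      · have := hy β
        linarith
      · have := hxy β
        linarith
    have hRl : R l n = ((D.card + 3 : ℕ) : ℝ) * |E l n| + ∑ γ ∈ D, |cγ l γ| +
      ∑ β ∈ D1, (Cf l β + max (u l n) 0) := rfl
    rw [hRl]
    push_cast
    linarith
  have hL : ∀ n, (4 + ε) * h n + n < ∑ l, (∑ γ ∈ D, (Nl l n - Real.log (V l (evK (F n) γ))) +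
      (2 * Nl l n - Real.log (V l ((discq (F n) : ℤ) : Qb)))) := by
    intro n
    refine (hbig n).trans_le (le_of_eq ?_)
    rw [Fintype.sum_option]
    have h1 : ∀ γ, V none (evK (F n) γ) = ‖evK (F n) (OnePoint.map ι γ)‖ := fun γ =>
      (placesQ_evK p ι ι' (F n) γ).1
    have h2 : ∀ t γ, V (some t) (evK (F n) γ) = ‖evK (F n) (OnePoint.map (ι' t) γ)‖ := fun t γ =>
      (placesQ_evK p ι ι' (F n) γ).2 t
    have h3 : V none ((discq (F n) : ℤ) : Qb) = |((discq (F n) : ℤ) : ℝ)| :=
      placesQ_int_none p ι ι' _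
    have h4 : ∀ t, V (some t) ((discq (F n) : ℤ) : Qb) = ‖((discq (F n) : ℤ) : ℂ_[p t])‖ := by
      intro t
      rw [norm_intCast_padic]
      exact placesQ_int_some p ι ι' t _
    simp only [h1, h2, h3, h4, hNl, Option.elim, zero_sub, mul_zero]
    rw [Finset.sum_add_distrib, Finset.sum_neg_distrib]
    ring
  have hfin : Sm U h (fun n => ∑ l, R l n + (4 + ε / 2) * K) :=
    (Sm.sum hhU Finset.univ _ fun l _ => hRs l).add (Sm.const hhU _)
  obtain ⟨n, hn1, hn2, hn3⟩ := (hlim.and ((hfin (ε / 4) (by linarith)).and hposU)).exists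
  have h1 := hL n
  have h2 := Finset.sum_le_sum fun l (_ : l ∈ Finset.univ) => hDl l n
  rw [Finset.sum_add_distrib (g := fun l => R l n)] at h2
  have h3 := (abs_le.mp (hhh n)).2
  have h4 : (4 + ε / 2) * h' n ≤ (4 + ε / 2) * (h n + K) :=
    mul_le_mul_of_nonneg_left (by linarith) (by linarith)
  have h5 : (0 : ℝ) ≤ n := Nat.cast_nonneg n
  have h6 : 0 < ε * h n := by positivity
  linarith

end Q

end Pool.Agent.SST
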