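import Pool.Agent.SST.SchmidtComplex

/-! Two algebraic points and the discriminant: the generic case. -/

open MvPolynomial Filter

namespace Pool.Agent.SST

/-- the coefficients of `f ↦ evq f α` -/
noncomputable def evRow (α : OnePoint ℂ) : Fin 3 → ℂ :=
  match α with
  | OnePoint.infty => ![1, 0, 0]
  | OnePoint.some z => ![z ^ 2, z, 1]

/-- the coefficients of the derivative at `α` -/
noncomputable def dRow (α : OnePoint ℂ) : Fin 3 → ℂ :=
  match α with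
  | OnePoint.infty => ![0, 1, 0]
  | OnePoint.some z => ![2 * z, 1, 0]

/-- the matrix of the three forms -/
noncomputable def triMat (α β : OnePoint ℂ) : Matrix (Fin 3) (Fin 3) ℂ :=
  Matrix.of ![evRow α, dRow α, evRow β]

/-- the value of the derivative -/
noncomputable def dvq (f : Fin 3 → ℤ) (α : OnePoint ℂ) : ℂ := ∑ j, dRow α j * (f j : ℂ)

theorem evRow_sum (f : Fin 3 → ℤ) (α : OnePoint ℂ) : ∑ j, evRow α j * (f j : ℂ) = evq f α := by
  induction α using OnePoint.rec with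
  | infty =>
    show ∑ j, (![1, 0, 0] : Fin 3 → ℂ) j * (f j : ℂ) = (f 0 : ℂ)
    simp [Fin.sum_univ_three]
  | coe z =>
    show ∑ j, (![z ^ 2, z, 1] : Fin 3 → ℂ) j * (f j : ℂ) =
      (f 0 : ℂ) * z ^ 2 + (f 1 : ℂ) * z + (f 2 : ℂ)
    simp [Fin.sum_univ_three]
    ring

theorem triMat_mulVec (f : Fin 3 → ℤ) (α β : OnePoint ℂ) :
    ∏ i, ‖(triMat α β).mulVec (fun j => (f j : ℂ)) i‖ = ‖evq f α‖ * ‖dvq f α‖ * ‖evq f β‖ := by
  rw [Fin.prod_univ_three]
  have h0 : (triMat α β).mulVec (fun j => (f j : ℂ)) 0 = evq f α := evRow_sum f α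
  have h1 : (triMat α β).mulVec (fun j => (f j : ℂ)) 1 = dvq f α := rfl
  have h2 : (triMat α β).mulVec (fun j => (f j : ℂ)) 2 = evq f β := evRow_sum f β
  rw [h0, h1, h2]

theorem triMat_det {α β : OnePoint ℂ} (hne : α ≠ β) : (triMat α β).det ≠ 0 := by
  rw [Matrix.det_fin_three]
  induction α using OnePoint.rec with
  | infty =>
    induction β using OnePoint.rec with
    | infty => exact absurd rfl hne
    | coe w =>
      show (1 : ℂ) * 1 * 1 - 1 * 0 * w - 0 * 0 * 1 + 0 * 0 * w ^ 2 + 0 * 0 * w - 0 * 1 * w ^ 2 ≠ 0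
      norm_num
  | coe z =>
    induction β using OnePoint.rec with
    | infty =>
      show z ^ 2 * 1 * 0 - z ^ 2 * 0 * 0 - z * (2 * z) * 0 + z * 0 * 1 + 1 * (2 * z) * 0 -
        1 * 1 * 1 ≠ (0 : ℂ)
      norm_num
    | coe w =>
      show z ^ 2 * 1 * 1 - z ^ 2 * 0 * w - z * (2 * z) * 1 + z * 0 * w ^ 2 + 1 * (2 * z) * w -
        1 * 1 * w ^ 2 ≠ (0 : ℂ)
      have h1 : z ≠ w := fun h => hne (by rw [h])
      have h2 : z ^ 2 * 1 * 1 - z ^ 2 * 0 * w - z * (2 * z) * 1 + z * 0 * w ^ 2 + 1 * (2 * z) * w -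
        1 * 1 * w ^ 2 = -(z - w) ^ 2 := by ring
      rw [h2, neg_ne_zero]
      exact pow_ne_zero 2 (sub_ne_zero.2 h1)

theorem alg_evRow {α : OnePoint ℂ} (hα : AlgPt α) (j : Fin 3) : IsAlgebraic ℚ (evRow α j) := by
  induction α using OnePoint.rec with
  | infty =>
    show IsAlgebraic ℚ ((![1, 0, 0] : Fin 3 → ℂ) j)
    fin_cases j
    · exact isAlgebraic_one
    · exact isAlgebraic_zero
    · exact isAlgebraic_zero
  | coe z =>
    have hz := hα z rfl
    show IsAlgebraic ℚ ((![z ^ 2, z, 1] : Fin 3 → ℂ) j)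
    fin_cases j
    · exact hz.pow 2
    · exact hz
    · exact isAlgebraic_one

theorem alg_dRow {α : OnePoint ℂ} (hα : AlgPt α) (j : Fin 3) : IsAlgebraic ℚ (dRow α j) := by
  induction α using OnePoint.rec with
  | infty =>
    show IsAlgebraic ℚ ((![0, 1, 0] : Fin 3 → ℂ) j)
    fin_cases j
    · exact isAlgebraic_zero
    · exact isAlgebraic_one
    · exact isAlgebraic_zero
  | coe z =>
    have hz := hα z rfl
    show IsAlgebraic ℚ ((![2 * z, 1, 0] : Fin 3 → ℂ) j)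
    fin_cases j
    · show IsAlgebraic ℚ (2 * z)
      rw [two_mul]
      exact hz.add hz
    · exact isAlgebraic_one
    · exact isAlgebraic_zero

theorem alg_triMat {α β : OnePoint ℂ} (hα : AlgPt α) (hβ : AlgPt β) (i j : Fin 3) :
    IsAlgebraic ℚ (triMat α β i j) := by
  fin_cases i
  · exact alg_evRow hα j
  · exact alg_dRow hα j
  · exact alg_evRow hβ j

/-- `disc = L' ^ 2 - 4 w L` with `|w| ≤ H` -/
theorem disc_le (f : Fin 3 → ℤ) (α : OnePoint ℂ) :
    ‖dvq f α‖ ^ 2 ≤ |(discq f : ℝ)| + 4 * maxq f * ‖evq f α‖ := by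
  have key : ∃ w : ℂ, ‖w‖ ≤ maxq f ∧ dvq f α ^ 2 = (discq f : ℂ) + 4 * w * evq f α := by
    induction α using OnePoint.rec with
    | infty =>
      refine ⟨(f 2 : ℂ), ?_, ?_⟩
      · rw [Complex.norm_intCast]
        exact le_max_of_le_right (le_max_right _ _)
      · show (∑ j, (![0, 1, 0] : Fin 3 → ℂ) j * (f j : ℂ)) ^ 2 = _ + 4 * _ * (f 0 : ℂ)
        simp [Fin.sum_univ_three, discq]
        ring
    | coe z =>
      refine ⟨(f 0 : ℂ), ?_, ?_⟩
      · rw [Complex.norm_intCast]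
        exact le_max_left _ _
      · show (∑ j, (![2 * z, 1, 0] : Fin 3 → ℂ) j * (f j : ℂ)) ^ 2 = _ + 4 * _ *
          ((f 0 : ℂ) * z ^ 2 + (f 1 : ℂ) * z + (f 2 : ℂ))
        simp [Fin.sum_univ_three, discq]
        ring
  obtain ⟨w, hw, h⟩ := key
  rw [← norm_pow, h]
  refine (norm_add_le _ _).trans ?_
  rw [norm_mul, norm_mul, Complex.norm_intCast]
  have h4 : ‖(4 : ℂ)‖ = 4 := by norm_num
  rw [h4]
  have := mul_le_mul_of_nonneg_right hw (norm_nonneg (evq f α))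
  nlinarith

theorem one_le_maxq {f : Fin 3 → ℤ} (hf : discq f ≠ 0) : 1 ≤ maxq f := by
  have h : ∃ i : Fin 3, f i ≠ 0 := by
    by_contra h
    push Not at h
    apply hf
    rw [discq, h 0, h 1]
    ring
  obtain ⟨i, hi⟩ := h
  have h1 : (1 : ℝ) ≤ |(f i : ℝ)| := by
    have := Int.one_le_abs hi
    exact_mod_cast this
  have h2 : |(f i : ℝ)| ≤ maxq f := by
    fin_cases i
    · exact le_max_left _ _
    · exact le_max_of_le_right (le_max_left _ _)
    · exact le_max_of_le_right (le_max_right _ _)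
  exact h1.trans h2

theorem abs_le_maxq (f : Fin 3 → ℤ) (i : Fin 3) : |((f i : ℤ) : ℝ)| ≤ maxq f := by
  fin_cases i
  · exact le_max_left _ _
  · exact le_max_of_le_right (le_max_left _ _)
  · exact le_max_of_le_right (le_max_right _ _)

/-- three independent forms control the height -/
theorem maxq_le {α β : OnePoint ℂ} (hne : α ≠ β) :
    ∃ C : ℝ, 1 ≤ C ∧ ∀ f : Fin 3 → ℤ, maxq f ≤ C * (‖evq f α‖ + ‖dvq f α‖ + ‖evq f β‖) := by
  set M := triMat α β with hM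
  have hdet : IsUnit M.det := (triMat_det hne).isUnit
  refine ⟨1 + ∑ i, ∑ j, ‖M⁻¹ i j‖, ?_, ?_⟩
  · have : (0 : ℝ) ≤ ∑ i, ∑ j, ‖M⁻¹ i j‖ :=
      Finset.sum_nonneg fun i _ => Finset.sum_nonneg fun j _ => norm_nonneg _
    linarith
  · intro f
    set S := ‖evq f α‖ + ‖dvq f α‖ + ‖evq f β‖ with hS
    have hS0 : 0 ≤ S := by positivity
    have h0 : M.mulVec (fun j => (f j : ℂ)) 0 = evq f α := evRow_sum f α
    have h1 : M.mulVec (fun j => (f j : ℂ)) 1 = dvq f α := rfl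
    have h2 : M.mulVec (fun j => (f j : ℂ)) 2 = evq f β := evRow_sum f β
    have hle : ∀ j, ‖M.mulVec (fun j => (f j : ℂ)) j‖ ≤ S := by
      intro j
      have a0 := norm_nonneg (evq f α)
      have a1 := norm_nonneg (dvq f α)
      have a2 := norm_nonneg (evq f β)
      fin_cases j
      · show ‖M.mulVec (fun j => (f j : ℂ)) 0‖ ≤ S
        rw [h0]; linarith
      · show ‖M.mulVec (fun j => (f j : ℂ)) 1‖ ≤ S
        rw [h1]; linarith
      · show ‖M.mulVec (fun j => (f j : ℂ)) 2‖ ≤ S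
        rw [h2]; linarith
    have hi : ∀ i, |((f i : ℤ) : ℝ)| ≤ (1 + ∑ i, ∑ j, ‖M⁻¹ i j‖) * S := by
      intro i
      have e1 : (f i : ℂ) = ∑ j, M⁻¹ i j * M.mulVec (fun j => (f j : ℂ)) j := by
        have e2 : M⁻¹.mulVec (M.mulVec (fun j => (f j : ℂ))) = fun j => (f j : ℂ) := by
          rw [Matrix.mulVec_mulVec, Matrix.nonsing_inv_mul _ hdet, Matrix.one_mulVec]
        exact (congrFun e2 i).symm
      rw [← Complex.norm_intCast, e1]
      refine (norm_sum_le _ _).trans ?_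
      have e3 : ∑ j, ‖M⁻¹ i j * M.mulVec (fun j => (f j : ℂ)) j‖ ≤ (∑ j, ‖M⁻¹ i j‖) * S := by
        rw [Finset.sum_mul]
        refine Finset.sum_le_sum fun j _ => ?_
        rw [norm_mul]
        exact mul_le_mul_of_nonneg_left (hle j) (norm_nonneg _)
      refine e3.trans (mul_le_mul_of_nonneg_right ?_ hS0)
      have e4 : ∑ j, ‖M⁻¹ i j‖ ≤ ∑ i, ∑ j, ‖M⁻¹ i j‖ :=
        Finset.single_le_sum (f := fun i => ∑ j, ‖M⁻¹ i j‖)
          (fun i _ => Finset.sum_nonneg fun j _ => norm_nonneg _) (Finset.mem_univ i)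
      linarith
    exact max_le (hi 0) (max_le (hi 1) (hi 2))

theorem tg_caseA {H D s c E u v r : ℝ} (hc : c ≤ 1 / 2) (hE : 0 < E) (hss : s ^ 2 = D)
    (hs : 1 ≤ s) (hu : 0 < u) (hv : 0 < v) (hr : 0 ≤ r) (hur : E < u * r * v)
    (hD : r ^ 2 ≤ D + 4 * H * u) (h8 : 8 * H * u ≤ r ^ 2) : c * E ≤ u * v * s := by
  have a1 : r ^ 2 ≤ (2 * s) ^ 2 := by
    have e : (2 * s) ^ 2 = 4 * s ^ 2 := by ring
    have e2 : 0 ≤ s ^ 2 := by positivity
    rw [e]
    linarith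
  have a2 : r ≤ 2 * s := (pow_le_pow_iff_left₀ hr (by linarith) (by norm_num)).1 a1
  have a3 : u * r * v ≤ u * v * (2 * s) := by
    have h := mul_le_mul_of_nonneg_left a2 (mul_pos hu hv).le
    have e : u * r * v = u * v * r := by ring
    rw [e]
    exact h
  have a4 : c * E ≤ 1 / 2 * E := mul_le_mul_of_nonneg_right hc hE.le
  have a5 : u * v * (2 * s) = 2 * (u * v * s) := by ring
  linarith

theorem tg_caseB {H s c c₁ E u v r : ℝ} (hH : 0 < H) (hc0 : 0 < c) (hc : c ≤ 1 / 2)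
    (hc8 : c ≤ c₁ / 8) (hE0 : 0 < E) (hE1 : E ≤ 1) (hs : 1 ≤ s) (hu : 0 < u) (hv : 0 < v)
    (hur : E < u * r * v) (h8 : r ^ 2 < 8 * H * u) (hv1 : c₁ * H ≤ v) :
    c * E ≤ u * v * s := by
  have b1 : E ^ 2 ≤ 8 * H * u ^ 3 * v ^ 2 := by
    have b2 : E ^ 2 < (u * r * v) ^ 2 := pow_lt_pow_left₀ hur hE0.le (by norm_num)
    have b3 : (u * r * v) ^ 2 = r ^ 2 * (u ^ 2 * v ^ 2) := by ring
    have b4 : r ^ 2 * (u ^ 2 * v ^ 2) ≤ 8 * H * u * (u ^ 2 * v ^ 2) :=
      mul_le_mul_of_nonneg_right h8.le (by positivity)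
    have b5 : 8 * H * u * (u ^ 2 * v ^ 2) = 8 * H * u ^ 3 * v ^ 2 := by ring
    linarith
  have b6 : v * E ^ 2 ≤ v * (8 * H * u ^ 3 * v ^ 2) := mul_le_mul_of_nonneg_left b1 hv.le
  have b7 : c₁ * H * E ^ 2 ≤ v * E ^ 2 := mul_le_mul_of_nonneg_right hv1 (by positivity)
  have b8 : c₁ * E ^ 2 ≤ 8 * (u * v) ^ 3 := by
    have e1 : H * (c₁ * E ^ 2) = c₁ * H * E ^ 2 := by ring
    have e2 : H * (8 * (u * v) ^ 3) = v * (8 * H * u ^ 3 * v ^ 2) := by ring
    have : H * (c₁ * E ^ 2) ≤ H * (8 * (u * v) ^ 3) := by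
      rw [e1, e2]
      exact b7.trans b6
    exact le_of_mul_le_mul_left this hH
  have b9 : (c * E) ^ 3 ≤ (u * v) ^ 3 := by
    have e1 : (c * E) ^ 3 = c ^ 3 * E ^ 3 := by ring
    have e2 : c ^ 3 ≤ c := by
      have := pow_le_pow_of_le_one hc0.le (by linarith) (show 1 ≤ 3 by norm_num)
      rwa [pow_one] at this
    have e3 : E ^ 3 ≤ E ^ 2 := pow_le_pow_of_le_one hE0.le hE1 (by norm_num)
    have e4 : c ^ 3 * E ^ 3 ≤ c * E ^ 2 := mul_le_mul e2 e3 (by positivity) hc0.le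
    have e5 : c * E ^ 2 ≤ c₁ / 8 * E ^ 2 := mul_le_mul_of_nonneg_right hc8 (by positivity)
    have e6 : c₁ / 8 * E ^ 2 = c₁ * E ^ 2 / 8 := by ring
    rw [e1]
    linarith
  have b10 : c * E ≤ u * v :=
    (pow_le_pow_iff_left₀ (by positivity) (by positivity) (by norm_num)).1 b9
  have b11 : u * v ≤ u * v * s := le_mul_of_one_le_right (by positivity) hs
  linarith

/-- **the generic case** -/
theorem two_points_generic (α β : OnePoint ℂ) (hα : AlgPt α) (hβ : AlgPt β) (hne : α ≠ β)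
    (ε : ℝ) (hε : 0 < ε) :
    ∃ (c : ℝ) (F : Finset (Fin 3 → ℤ)), 0 < c ∧ 0 ∉ F ∧ ∀ f : Fin 3 → ℤ, discq f ≠ 0 →
      evq f α ≠ 0 → evq f β ≠ 0 → (∀ b ∈ F, ∑ i, b i * f i ≠ 0) →
      c * maxq f ^ (-ε) ≤ ‖evq f α‖ * ‖evq f β‖ * Real.sqrt |(discq f : ℝ)| := by
  classical
  obtain ⟨F₁, hF₁, h₁⟩ := schmidt_complex (m := 2) (by norm_num) (triMat α β)
    (alg_triMat hα hβ) (triMat_det hne) ε hε
  obtain ⟨F₂, hF₂, h₂⟩ := schmidt_complex (m := 2) (by norm_num) (triMat β α)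
    (alg_triMat hβ hα) (triMat_det hne.symm) ε hε
  obtain ⟨C, hC1, hC⟩ := maxq_le hne
  have hC0 : 0 < C := by linarith
  set c₁ : ℝ := 1 / (128 * C ^ 2) with hc₁
  have hc₁0 : 0 < c₁ := by positivity
  have hc₁1 : c₁ ≤ 1 := by
    rw [hc₁, div_le_one (by positivity)]
    nlinarith
  refine ⟨min (1 / 2) (c₁ / 8), F₁ ∪ F₂, by positivity, ?_, ?_⟩
  · rw [Finset.mem_union, not_or]
    exact ⟨hF₁, hF₂⟩
  intro f hf hfα hfβ hF
  set c := min (1 / 2) (c₁ / 8) with hc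
  have hcpos : 0 < c := by positivity
  have hc2 : c ≤ 1 / 2 := min_le_left _ _
  have hc8 : c ≤ c₁ / 8 := min_le_right _ _
  set H := maxq f with hH
  have hH1 : 1 ≤ H := one_le_maxq hf
  have hH0 : 0 < H := by linarith
  set E := H ^ (-ε) with hE
  have hE0 : 0 < E := Real.rpow_pos_of_pos hH0 _
  have hE1 : E ≤ 1 := Real.rpow_le_one_of_one_le_of_nonpos hH1 (by linarith)
  have g₁ : E < ‖evq f α‖ * ‖dvq f α‖ * ‖evq f β‖ := by
    by_contra hcon
    push Not at hcon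
    obtain ⟨b, hb, hb0⟩ := h₁ f H hH1 (abs_le_maxq f) (by rw [triMat_mulVec]; exact hcon)
    exact hF b (Finset.mem_union_left _ hb) hb0
  have g₂ : E < ‖evq f β‖ * ‖dvq f β‖ * ‖evq f α‖ := by
    by_contra hcon
    push Not at hcon
    obtain ⟨b, hb, hb0⟩ := h₂ f H hH1 (abs_le_maxq f) (by rw [triMat_mulVec]; exact hcon)
    exact hF b (Finset.mem_union_right _ hb) hb0
  have d₁ := disc_le f α
  have d₂ := disc_le f β
  rw [← hH] at d₁ d₂
  set x := ‖evq f α‖ with hx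
  set y := ‖evq f β‖ with hy
  set p := ‖dvq f α‖ with hp
  set q := ‖dvq f β‖ with hq
  have hx0 : 0 < x := norm_pos_iff.2 hfα
  have hy0 : 0 < y := norm_pos_iff.2 hfβ
  have hp0 : 0 ≤ p := norm_nonneg _
  have hq0 : 0 ≤ q := norm_nonneg _
  set D := |(discq f : ℝ)| with hD
  have hD1 : 1 ≤ D := by
    have := Int.one_le_abs hf
    rw [hD]
    exact_mod_cast this
  set s := Real.sqrt D with hs
  have hs1 : 1 ≤ s := Real.one_le_sqrt.2 hD1
  have hss : s ^ 2 = D := Real.sq_sqrt (by linarith)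
  by_cases k1 : 8 * H * x ≤ p ^ 2
  · exact tg_caseA hc2 hE0 hss hs1 hx0 hy0 hp0 g₁ d₁ k1
  push Not at k1
  by_cases k2 : c₁ * H ≤ y
  · exact tg_caseB hH0 hcpos hc2 hc8 hE0 hE1 hs1 hx0 hy0 g₁ k1 k2
  push Not at k2
  by_cases k3 : 8 * H * y ≤ q ^ 2
  · have := tg_caseA hc2 hE0 hss hs1 hy0 hx0 hq0 g₂ d₂ k3
    rw [mul_comm y x] at this
    exact this
  push Not at k3
  by_cases k4 : c₁ * H ≤ x
  · have := tg_caseB hH0 hcpos hc2 hc8 hE0 hE1 hs1 hy0 hx0 g₂ k3 k4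
    rw [mul_comm y x] at this
    exact this
  push Not at k4
  exfalso
  have k5 := hC f
  rw [← hH] at k5
  have k6 : p ^ 2 < (H / (4 * C)) ^ 2 := by
    have : (H / (4 * C)) ^ 2 = 8 * H * (c₁ * H) := by
      rw [hc₁]
      field_simp
      norm_num
    rw [this]
    have := mul_lt_mul_of_pos_left k4 (show (0 : ℝ) < 8 * H by positivity)
    linarith
  have k7 : p < H / (4 * C) := lt_of_pow_lt_pow_left₀ 2 (by positivity) k6
  have k8 : c₁ * H ≤ H / (4 * C) := by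
    rw [hc₁, div_mul_eq_mul_div, one_mul, div_le_div_iff₀ (by positivity) (by positivity)]
    refine mul_le_mul_of_nonneg_left ?_ hH0.le
    nlinarith
  have k9 : x + p + y < 3 * (H / (4 * C)) := by linarith
  have k10 : C * (x + p + y) < C * (3 * (H / (4 * C))) := mul_lt_mul_of_pos_left k9 hC0
  have k11 : C * (3 * (H / (4 * C))) = 3 / 4 * H := by
    field_simp
  linarith

end Pool.Agent.SST
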