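import Pool.Agent.SST.VeroDefs
import Pool.Agent.SST.TwoGeneric

/-! Auxiliary lemmas for the inequality at several places. -/

open MvPolynomial

namespace Pool.Agent.SST

section Rows

variable {K : Type} [Field K]

theorem det_evR_dR_evR {α β : OnePoint K} (hne : α ≠ β) :
    (Matrix.of ![evR α, dR α, evR β]).det ≠ 0 := by
  rw [Matrix.det_fin_three]
  induction α using OnePoint.rec with
  | infty =>
    induction β using OnePoint.rec with
    | infty => exact absurd rfl hne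
    | coe w =>
      show (1 : K) * 1 * 1 - 1 * 0 * w - 0 * 0 * 1 + 0 * 0 * w ^ 2 + 0 * 0 * w - 0 * 1 * w ^ 2 ≠ 0
      simp
  | coe z =>
    induction β using OnePoint.rec with
    | infty =>
      show z ^ 2 * 1 * 0 - z ^ 2 * 0 * 0 - z * (2 * z) * 0 + z * 0 * 1 + 1 * (2 * z) * 0 -
        1 * 1 * 1 ≠ (0 : K)
      simp
    | coe w =>
      show z ^ 2 * 1 * 1 - z ^ 2 * 0 * w - z * (2 * z) * 1 + z * 0 * w ^ 2 + 1 * (2 * z) * w -
        1 * 1 * w ^ 2 ≠ 0
      have h1 : z ≠ w := fun h => hne (by rw [h])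
      have h2 : z ^ 2 * 1 * 1 - z ^ 2 * 0 * w - z * (2 * z) * 1 + z * 0 * w ^ 2 + 1 * (2 * z) * w -
        1 * 1 * w ^ 2 = -(z - w) ^ 2 := by ring
      rw [h2, neg_ne_zero]
      exact pow_ne_zero 2 (sub_ne_zero.2 h1)

theorem det_evR_dR_wR (α : OnePoint K) : (Matrix.of ![evR α, dR α, wR α]).det ≠ 0 := by
  rw [Matrix.det_fin_three]
  induction α using OnePoint.rec with
  | infty =>
    show (1 : K) * 1 * 1 - 1 * 0 * 0 - 0 * 0 * 1 + 0 * 0 * 0 + 0 * 0 * 0 - 0 * 1 * 0 ≠ 0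
    simp
  | coe z =>
    show z ^ 2 * 1 * 0 - z ^ 2 * 0 * 0 - z * (2 * z) * 0 + z * 0 * 1 + 1 * (2 * z) * 0 -
      1 * 1 * 1 ≠ (0 : K)
    simp

variable [CharZero K]

theorem alg_evR {α : OnePoint K} (hα : AlgPtK α) (j : Fin 3) : IsAlgebraic ℚ (evR α j) := by
  induction α using OnePoint.rec with
  | infty =>
    show IsAlgebraic ℚ ((![1, 0, 0] : Fin 3 → K) j)
    fin_cases j
    · exact isAlgebraic_one
    · exact isAlgebraic_zero
    · exact isAlgebraic_zero
  | coe z =>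
    have hz := hα z rfl
    show IsAlgebraic ℚ ((![z ^ 2, z, 1] : Fin 3 → K) j)
    fin_cases j
    · exact hz.pow 2
    · exact hz
    · exact isAlgebraic_one

theorem alg_dR {α : OnePoint K} (hα : AlgPtK α) (j : Fin 3) : IsAlgebraic ℚ (dR α j) := by
  induction α using OnePoint.rec with
  | infty =>
    show IsAlgebraic ℚ ((![0, 1, 0] : Fin 3 → K) j)
    fin_cases j
    · exact isAlgebraic_zero
    · exact isAlgebraic_one
    · exact isAlgebraic_zero
  | coe z =>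
    have hz := hα z rfl
    show IsAlgebraic ℚ ((![2 * z, 1, 0] : Fin 3 → K) j)
    fin_cases j
    · show IsAlgebraic ℚ (2 * z)
      rw [two_mul]
      exact hz.add hz
    · exact isAlgebraic_one
    · exact isAlgebraic_zero

theorem alg_wR (α : OnePoint K) (j : Fin 3) : IsAlgebraic ℚ (wR α j) := by
  induction α using OnePoint.rec with
  | infty =>
    show IsAlgebraic ℚ ((![0, 0, 1] : Fin 3 → K) j)
    fin_cases j
    · exact isAlgebraic_zero
    · exact isAlgebraic_zero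
    · exact isAlgebraic_one
  | coe z =>
    show IsAlgebraic ℚ ((![1, 0, 0] : Fin 3 → K) j)
    fin_cases j
    · exact isAlgebraic_one
    · exact isAlgebraic_zero
    · exact isAlgebraic_zero

end Rows

theorem nf_complex (f : Fin 3 → ℤ) : nf ℂ f = maxq f := by
  rw [nf, maxq, Complex.norm_intCast, Complex.norm_intCast, Complex.norm_intCast]

theorem norm_intCast_padic (p : ℕ) [Fact p.Prime] (n : ℤ) : ‖(n : ℂ_[p])‖ = ‖(n : ℚ_[p])‖ := by
  have h : (n : ℂ_[p]) = algebraMap ℚ_[p] ℂ_[p] (n : ℚ_[p]) := (map_intCast _ n).symm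
  rw [h, norm_algebraMap']

theorem norm_intCast_padic_le_one (p : ℕ) [Fact p.Prime] (n : ℤ) : ‖(n : ℂ_[p])‖ ≤ 1 := by
  rw [norm_intCast_padic]
  exact Padic.norm_int_le_one n

theorem norm_intCast_padic_le (p : ℕ) [Fact p.Prime] (n : ℤ) : ‖(n : ℂ_[p])‖ ≤ |(n : ℝ)| := by
  by_cases h : n = 0
  · simp [h]
  · refine (norm_intCast_padic_le_one p n).trans ?_
    have := Int.one_le_abs h
    exact_mod_cast this

theorem nf_padic_le (p : ℕ) [Fact p.Prime] (f : Fin 3 → ℤ) : nf ℂ_[p] f ≤ 1 :=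
  max_le (norm_intCast_padic_le_one p _)
    (max_le (norm_intCast_padic_le_one p _) (norm_intCast_padic_le_one p _))

theorem nf_nonneg (K : Type) [NormedField K] (f : Fin 3 → ℤ) : 0 ≤ nf K f :=
  (norm_nonneg _).trans (le_max_left _ _)

theorem norm_intCast_padic_eq (p : ℕ) [hp : Fact p.Prime] (n : ℤ) (hn : n ≠ 0) :
    ‖(n : ℂ_[p])‖ = (((p ^ (padicValInt p n) : ℕ) : ℤ) : ℝ)⁻¹ := by
  rw [norm_intCast_padic]
  have h1 : ((n : ℤ) : ℚ_[p]) = ((n : ℚ) : ℚ_[p]) := by push_cast; rfl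
  have hn' : (n : ℚ) ≠ 0 := by exact_mod_cast hn
  rw [h1, Padic.eq_padicNorm, padicNorm.eq_zpow_of_nonzero hn', padicValRat.of_int]
  push_cast
  rw [zpow_neg, zpow_natCast]

/-- the product formula for finitely many distinct primes -/
theorem one_le_prod_norm {T : Type} [Fintype T] (p : T → ℕ) [hP : ∀ t, Fact (p t).Prime]
    (hp : Function.Injective p) (n : ℤ) (hn : n ≠ 0) :
    1 ≤ |(n : ℝ)| * ∏ t, ‖(n : ℂ_[p t])‖ := by
  classical
  have h1 : ∏ t, ‖(n : ℂ_[p t])‖ = ((∏ t, (((p t) ^ (padicValInt (p t) n) : ℕ) : ℤ) : ℤ) : ℝ)⁻¹ := by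
    rw [Int.cast_prod, ← Finset.prod_inv_distrib]
    exact Finset.prod_congr rfl fun t _ => norm_intCast_padic_eq (p t) n hn
  have h2 : (∏ t, (((p t) ^ (padicValInt (p t) n) : ℕ) : ℤ)) ∣ n := by
    apply Fintype.prod_dvd_of_coprime
    · intro s t hst
      show IsCoprime _ _
      rw [Nat.isCoprime_iff_coprime]
      apply Nat.Coprime.pow
      exact (Nat.coprime_primes (hP s).out (hP t).out).2 fun h => hst (hp h)
    · intro t
      have := padicValInt_dvd (p := p t) n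
      exact_mod_cast this
  have h3 : (0 : ℤ) < ∏ t, (((p t) ^ (padicValInt (p t) n) : ℕ) : ℤ) :=
    Finset.prod_pos fun t _ => by
      have : 0 < p t := (hP t).out.pos
      positivity
  have h4 : (∏ t, (((p t) ^ (padicValInt (p t) n) : ℕ) : ℤ)) ≤ |n| :=
    Int.le_of_dvd (abs_pos.2 hn) ((dvd_abs _ _).2 h2)
  rw [h1]
  have h5 : (0 : ℝ) < ((∏ t, (((p t) ^ (padicValInt (p t) n) : ℕ) : ℤ) : ℤ) : ℝ) := by
    exact_mod_cast h3
  rw [← div_eq_mul_inv, le_div_iff₀ h5, one_mul]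
  exact_mod_cast h4

theorem vero_le {N : ℕ} (f : Fin 3 → ℤ) (μ : Idx N) :
    |((vero N f μ : ℤ) : ℝ)| ≤ maxq f ^ N := by
  rw [vero, Int.cast_prod, Finset.abs_prod]
  calc ∏ i, |((f i ^ (μ.1 i : ℕ) : ℤ) : ℝ)| ≤ ∏ i, maxq f ^ (μ.1 i : ℕ) := by
        refine Finset.prod_le_prod (fun i _ => abs_nonneg _) fun i _ => ?_
        rw [Int.cast_pow, abs_pow]
        exact pow_le_pow_left₀ (abs_nonneg _) (abs_le_maxq f i) _
    _ = maxq f ^ N := by
        rw [Finset.prod_pow_eq_pow_sum, μ.2]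

end Pool.Agent.SST
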