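import Pool.Agent.SST.KAux
import Pool.Agent.SST.TwoSAux
import Pool.Agent.SST.Schlick
import Mathlib.NumberTheory.NumberField.Basic
import Mathlib.RingTheory.Ideal.Norm.AbsNorm

/-! Auxiliary facts for the reduction to sequences, number field case. -/

open MvPolynomial Filter Module NumberField
open scoped Topology

namespace Pool.Agent.SST

/-- `u` is at most `o (h)` along `U` -/
def Smk (U : Ultrafilter ℕ) (h u : ℕ → ℝ) : Prop :=
  ∀ δ : ℝ, 0 < δ → ∀ᶠ n in (U : Filter ℕ), u n ≤ δ * h n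

lemma Smk.add {U : Ultrafilter ℕ} {h u v : ℕ → ℝ} (hu : Smk U h u) (hv : Smk U h v) :
    Smk U h (fun n => u n + v n) := by
  intro δ hδ
  filter_upwards [hu (δ / 2) (by linarith), hv (δ / 2) (by linarith)] with n h1 h2
  linarith

lemma Smk.mono {U : Ultrafilter ℕ} {h u v : ℕ → ℝ} (hu : Smk U h u) (hv : ∀ n, v n ≤ u n) :
    Smk U h v := fun δ hδ => (hu δ hδ).mono fun n hn => (hv n).trans hn

lemma Smk.const {U : Ultrafilter ℕ} {h : ℕ → ℝ} (hh : Tendsto h U atTop) (c : ℝ) :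
    Smk U h (fun _ => c) := by
  intro δ hδ
  filter_upwards [hh.eventually_ge_atTop (c / δ)] with n hn
  rwa [div_le_iff₀' hδ] at hn

lemma Smk.nsmul {U : Ultrafilter ℕ} {h u : ℕ → ℝ} (hh : Tendsto h U atTop) (hu : Smk U h u)
    (m : ℕ) : Smk U h (fun n => m * u n) := by
  induction m with
  | zero => simpa using Smk.const hh 0
  | succ m ih =>
    refine (ih.add hu).mono fun n => ?_
    push_cast
    linarith

lemma Smk.sum {U : Ultrafilter ℕ} {h : ℕ → ℝ} (hh : Tendsto h U atTop) {ι : Type}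
    (s : Finset ι) (u : ι → ℕ → ℝ) (hu : ∀ i ∈ s, Smk U h (u i)) :
    Smk U h (fun n => ∑ i ∈ s, u i n) := by
  classical
  induction s using Finset.induction_on with
  | empty => simpa using Smk.const hh 0
  | insert a s ha ih =>
    have h1 := (hu a (Finset.mem_insert_self a s)).add
      (ih fun i hi => hu i (Finset.mem_insert_of_mem hi))
    refine h1.mono fun n => ?_
    rw [Finset.sum_insert ha]

lemma Smk.of_tendsto {U : Ultrafilter ℕ} {h u : ℕ → ℝ} (hh : Tendsto h U atTop)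
    (hu : Tendsto (fun n => u n / h n) U (𝓝 0)) : Smk U h (fun n => |u n|) := by
  intro δ hδ
  have h1 := hu.abs
  rw [abs_zero] at h1
  filter_upwards [h1.eventually_lt_const hδ, hh.eventually_gt_atTop 0] with n h2 h3
  rw [abs_div, abs_of_pos h3, div_lt_iff₀ h3] at h2
  exact h2.le

lemma Smk.max_zero {U : Ultrafilter ℕ} {h u : ℕ → ℝ} (hh : Tendsto h U atTop) (hu : Smk U h u) :
    Smk U h (fun n => max (u n) 0) := by
  intro δ hδ
  filter_upwards [hu δ hδ, hh.eventually_gt_atTop 0] with n h1 h2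
  exact max_le h1 (by positivity)

/-- nonarchimedean or archimedean bound for `fq` -/
lemma fqk_le {κ : Type} [Field κ] (V : AbsoluteValue κ ℝ) (β : κ) :
    ∃ C : ℝ, 0 ≤ C ∧ ∀ (b : Fin 2 → κ) (u : ℝ),
    0 ≤ u → (∀ i, Real.log (V (b i)) ≤ u) → Real.log (V (fq β b)) ≤ C + u := by
  refine ⟨Real.log (V β ^ 2 + V β + 1), Real.log_nonneg ?_, ?_⟩
  · nlinarith [V.nonneg β, sq_nonneg (V β)]
  · intro b u hu hb
    have h1 : ∀ i, V (b i) ≤ Real.exp u := by
      intro i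
      rcases eq_or_ne (b i) 0 with h0 | h0
      · rw [h0, map_zero]
        exact (Real.exp_pos u).le
      · rw [← Real.log_le_iff_le_exp (V.pos h0)]
        exact hb i
    have he : 1 ≤ Real.exp u := Real.one_le_exp hu
    have h2 : V (fq β b) ≤ (V β ^ 2 + V β + 1) * Real.exp u := by
      change V (β ^ 2 + b 0 * β + b 1) ≤ _
      have e1 := V.add_le (β ^ 2 + b 0 * β) (b 1)
      have e2 := V.add_le (β ^ 2) (b 0 * β)
      rw [map_mul, map_pow] at e2
      have e3 := h1 0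
      have e4 := h1 1
      have e5 : V (b 0) * V β ≤ Real.exp u * V β := mul_le_mul_of_nonneg_right e3 (V.nonneg β)
      have e6 : V β ^ 2 ≤ V β ^ 2 * Real.exp u := le_mul_of_one_le_right (by positivity) he
      nlinarith
    rcases eq_or_ne (fq β b) 0 with h0 | h0
    · rw [h0, map_zero, Real.log_zero]
      have : 0 ≤ Real.log (V β ^ 2 + V β + 1) :=
        Real.log_nonneg (by nlinarith [V.nonneg β, sq_nonneg (V β)])
      linarith
    · have h3 := Real.log_le_log (V.pos h0) h2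
      rwa [Real.log_mul (by nlinarith [V.nonneg β, sq_nonneg (V β)]) (Real.exp_pos u).ne',
        Real.log_exp] at h3

section

variable {k : Type} [Field k]

/-- a finite Galois stable set containing a given one -/
lemma exists_stableK (D : Finset (AlgebraicClosure k)) : ∃ D' : Finset (AlgebraicClosure k),
    D ⊆ D' ∧ ∀ σ : AlgebraicClosure k ≃ₐ[k] AlgebraicClosure k, ∀ α ∈ D', σ α ∈ D' := by
  classical
  refine ⟨D.biUnion fun β => ((minpoly k β).aroots (AlgebraicClosure k)).toFinset, ?_, ?_⟩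
  · intro β hβ
    rw [Finset.mem_biUnion]
    refine ⟨β, hβ, ?_⟩
    rw [Multiset.mem_toFinset, Polynomial.mem_aroots]
    exact ⟨minpoly.ne_zero ((AlgebraicClosure.isAlgebraic k).isAlgebraic β).isIntegral,
      minpoly.aeval k β⟩
  · intro σ α hα
    rw [Finset.mem_biUnion] at hα ⊢
    obtain ⟨β, hβ, h1⟩ := hα
    refine ⟨β, hβ, ?_⟩
    rw [Multiset.mem_toFinset, Polynomial.mem_aroots] at h1 ⊢
    refine ⟨h1.1, ?_⟩
    have h2 := congrArg σ h1.2
    rw [map_zero] at h2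
    rw [← h2]
    exact Polynomial.aeval_algHom_apply σ.toAlgHom α (minpoly k β)

lemma nfA_nonneg {A : Type} [NormedField A] (ρ : k →+* A) (f : Fin 3 → 𝓞 k) : 0 ≤ nfA ρ f :=
  (norm_nonneg _).trans (le_max_left _ _)

lemma norm_le_nfA {A : Type} [NormedField A] (ρ : k →+* A) (f : Fin 3 → 𝓞 k) (i : Fin 3) :
    ‖ρ (f i)‖ ≤ nfA ρ f := by
  fin_cases i
  · exact le_max_left _ _
  · exact (le_max_left _ _).trans (le_max_right _ _)
  · exact (le_max_right _ _).trans (le_max_right _ _)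

lemma nfA_pos {A : Type} [NormedField A] (ρ : k →+* A) (f : Fin 3 → 𝓞 k) (hf : f ≠ 0) :
    0 < nfA ρ f := by
  obtain ⟨i, hi⟩ : ∃ i, f i ≠ 0 := by
    by_contra hcon
    push Not at hcon
    exact hf (funext hcon)
  exact (norm_pos_iff.mpr ((map_ne_zero ρ).mpr (kaux_coe_ne hi))).trans_le (norm_le_nfA ρ f i)

lemma nfA_padic_le (p : ℕ) [Fact p.Prime] (ρ : k →+* ℂ_[p]) (f : Fin 3 → 𝓞 k) : nfA ρ f ≤ 1 :=
  max_le (kaux_integer_le_one p ρ _)
    (max_le (kaux_integer_le_one p ρ _) (kaux_integer_le_one p ρ _))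

/-- the content bounds the sizes at the finite places from below -/
lemma nfA_padic_ge [NumberField k] (p : ℕ) [Fact p.Prime] (ρ : k →+* ℂ_[p]) (f : Fin 3 → 𝓞 k)
    (hf : f ≠ 0) : (Ideal.absNorm (contentK f) : ℝ)⁻¹ ≤ nfA ρ f := by
  have hI : contentK f ≠ ⊥ := by
    intro h0
    apply hf
    funext i
    have h1 : f i ∈ contentK f := Ideal.subset_span ⟨i, rfl⟩
    rw [h0] at h1
    simpa using h1
  have hm0 : Ideal.absNorm (contentK f) ≠ 0 := Ideal.absNorm_ne_zero_iff_mem_nonZeroDivisors.mpr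
    (mem_nonZeroDivisors_iff_ne_zero.mpr hI)
  have h1 : ((Ideal.absNorm (contentK f) : ℕ) : 𝓞 k) ∈ contentK f := Ideal.absNorm_mem _
  rw [contentK, Ideal.mem_span_range_iff_exists_fun] at h1
  obtain ⟨c, hc⟩ := h1
  have h2 : ‖ρ (((Ideal.absNorm (contentK f) : ℕ) : 𝓞 k) : k)‖ ≤ nfA ρ f := by
    rw [contentK] at *
    rw [← hc, Fin.sum_univ_three]
    have h3 : ∀ i, ‖ρ ((c i * f i : 𝓞 k) : k)‖ ≤ nfA ρ f := by
      intro i
      change ‖ρ (algebraMap (𝓞 k) k (c i * f i))‖ ≤ _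
      rw [map_mul, map_mul, norm_mul]
      calc ‖ρ (c i)‖ * ‖ρ (f i)‖ ≤ 1 * ‖ρ (f i)‖ :=
            mul_le_mul_of_nonneg_right (kaux_integer_le_one p ρ _) (norm_nonneg _)
        _ ≤ nfA ρ f := by rw [one_mul]; exact norm_le_nfA ρ f i
    change ‖ρ (algebraMap (𝓞 k) k (c 0 * f 0 + c 1 * f 1 + c 2 * f 2))‖ ≤ _
    rw [map_add, map_add, map_add, map_add]
    refine (IsUltrametricDist.norm_add_le_max _ _).trans (max_le ?_ (h3 2))
    exact (IsUltrametricDist.norm_add_le_max _ _).trans (max_le (h3 0) (h3 1))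
  refine le_trans ?_ h2
  have h4 : ρ (((Ideal.absNorm (contentK f) : ℕ) : 𝓞 k) : k) =
      ((Ideal.absNorm (contentK f) : ℤ) : ℂ_[p]) := by
    simp
  rw [h4]
  have h5 := sk_prod_ge (T := Unit) (fun _ => p) (fun a b _ => Subsingleton.elim a b)
    (Ideal.absNorm (contentK f) : ℤ) (by exact_mod_cast hm0)
  rw [Fintype.prod_unique] at h5
  rw [norm_intCast_padic]
  have h0 : (0 : ℝ) < (Ideal.absNorm (contentK f) : ℝ) := by positivity
  rw [inv_le_iff_one_le_mul₀' h0]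
  have h6 : |((Ideal.absNorm (contentK f) : ℤ) : ℝ)| = (Ideal.absNorm (contentK f) : ℝ) := by
    rw [Int.cast_natCast, Nat.abs_cast]
  rw [h6] at h5
  exact h5

/-- the form centred at `q` -/
def shiftK (f : Fin 3 → 𝓞 k) (q : ℤ) : Fin 3 → 𝓞 k :=
  ![f 0 * q ^ 2 + f 1 * q + f 2, 2 * f 0 * q + f 1, f 0]

lemma shiftK_disc (f : Fin 3 → 𝓞 k) (q : ℤ) : discK (shiftK f q) = discK f := by
  simp only [discK, shiftK, Matrix.cons_val_zero, Matrix.cons_val_one, Matrix.cons_val]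
  ring

lemma shiftK_le (f : Fin 3 → 𝓞 k) (q : ℤ) (ρ : k →+* ℂ) (i : Fin 3) :
    ‖ρ (shiftK f q i)‖ ≤ (1 + |(q : ℝ)|) ^ 2 * nfA ρ f := by
  have h0 := norm_le_nfA ρ f 0
  have h1 := norm_le_nfA ρ f 1
  have h2 := norm_le_nfA ρ f 2
  have hM : 0 ≤ nfA ρ f := nfA_nonneg ρ f
  have hQ := abs_nonneg (q : ℝ)
  have hq : ‖(q : ℂ)‖ = |(q : ℝ)| := Complex.norm_intCast q
  have b1 : ‖ρ (f 0)‖ * |(q : ℝ)| ^ 2 ≤ nfA ρ f * |(q : ℝ)| ^ 2 :=
    mul_le_mul_of_nonneg_right h0 (by positivity)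
  have b2 : ‖ρ (f 1)‖ * |(q : ℝ)| ≤ nfA ρ f * |(q : ℝ)| := mul_le_mul_of_nonneg_right h1 hQ
  have b3 : ‖ρ (f 0)‖ * |(q : ℝ)| ≤ nfA ρ f * |(q : ℝ)| := mul_le_mul_of_nonneg_right h0 hQ
  have b4 : 0 ≤ nfA ρ f * |(q : ℝ)| := by positivity
  have b5 : 0 ≤ nfA ρ f * |(q : ℝ)| ^ 2 := by positivity
  have hqk : ρ (((q : 𝓞 k)) : k) = (q : ℂ) := by simp
  have h2k : ρ (((2 : 𝓞 k)) : k) = (2 : ℂ) := by
    change ρ (algebraMap (𝓞 k) k 2) = 2
    rw [map_ofNat, map_ofNat]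
  fin_cases i
  · change ‖ρ (algebraMap (𝓞 k) k (f 0 * q ^ 2 + f 1 * q + f 2))‖ ≤ _
    have e : ρ (algebraMap (𝓞 k) k (f 0 * q ^ 2 + f 1 * q + f 2)) =
        ρ (f 0) * (q : ℂ) ^ 2 + ρ (f 1) * (q : ℂ) + ρ (f 2) := by
      simp only [map_add, map_mul, map_pow, map_intCast]
    rw [e]
    have a1 := norm_add_le (ρ (f 0) * (q : ℂ) ^ 2 + ρ (f 1) * (q : ℂ)) (ρ (f 2))
    have a2 := norm_add_le (ρ (f 0) * (q : ℂ) ^ 2) (ρ (f 1) * (q : ℂ))
    rw [norm_mul, norm_mul, norm_pow, hq] at a2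
    nlinarith
  · change ‖ρ (algebraMap (𝓞 k) k (2 * f 0 * q + f 1))‖ ≤ _
    have e : ρ (algebraMap (𝓞 k) k (2 * f 0 * q + f 1)) =
        2 * ρ (f 0) * (q : ℂ) + ρ (f 1) := by
      simp only [map_add, map_mul, map_intCast, map_ofNat]
    rw [e]
    have a1 := norm_add_le (2 * ρ (f 0) * (q : ℂ)) (ρ (f 1))
    rw [norm_mul, norm_mul, Complex.norm_ofNat, hq] at a1
    nlinarith
  · change ‖ρ (f 0)‖ ≤ _
    nlinarith

end

end Pool.Agent.SST
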