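import Pool.Agent.SST.KDefs
import Mathlib.NumberTheory.NumberField.InfinitePlace.Embeddings

/-! A rational point away from the roots of a sequence of forms, at all places of a number field. -/

open MvPolynomial Filter Module NumberField
open scoped Topology

namespace Pool.Agent.SST

section GoodPointKGen

variable {A : Type} [NormedField A]

/-- three values of a quadratic polynomial determine it -/
private lemma goodPointK_three [CharZero A] {a b c : ℤ} (h1 : a ≠ b) (h2 : a ≠ c) (h3 : b ≠ c) :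
    ∃ C : ℝ, 0 < C ∧ ∀ x y z : A, max ‖x‖ (max ‖y‖ ‖z‖) ≤
      C * max ‖x * (a : A) ^ 2 + y * a + z‖ (max ‖x * (b : A) ^ 2 + y * b + z‖
        ‖x * (c : A) ^ 2 + y * c + z‖) := by
  have e1 : ((a : A) - b) ≠ 0 := sub_ne_zero.2 (Int.cast_injective.ne h1)
  have e2 : ((a : A) - c) ≠ 0 := sub_ne_zero.2 (Int.cast_injective.ne h2)
  have e3 : ((b : A) - c) ≠ 0 := sub_ne_zero.2 (Int.cast_injective.ne h3)
  have e1' : ((b : A) - a) ≠ 0 := sub_ne_zero.2 (Int.cast_injective.ne h1.symm)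
  have e2' : ((c : A) - a) ≠ 0 := sub_ne_zero.2 (Int.cast_injective.ne h2.symm)
  have e3' : ((c : A) - b) ≠ 0 := sub_ne_zero.2 (Int.cast_injective.ne h3.symm)
  obtain ⟨u, hu⟩ : ∃ u : A, u = 1 / (((a : A) - b) * (a - c)) := ⟨_, rfl⟩
  obtain ⟨v, hv⟩ : ∃ v : A, v = 1 / (((b : A) - a) * (b - c)) := ⟨_, rfl⟩
  obtain ⟨w, hw⟩ : ∃ w : A, w = 1 / (((c : A) - a) * (c - b)) := ⟨_, rfl⟩
  have key : ∀ (r s t X Y Z : A) (M : ℝ), ‖X‖ ≤ M → ‖Y‖ ≤ M → ‖Z‖ ≤ M →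
      ‖r * X + s * Y + t * Z‖ ≤ (‖r‖ + ‖s‖ + ‖t‖) * M := by
    intro r s t X Y Z M hX hY hZ
    calc ‖r * X + s * Y + t * Z‖ ≤ ‖r * X‖ + ‖s * Y‖ + ‖t * Z‖ := norm_add₃_le
      _ = ‖r‖ * ‖X‖ + ‖s‖ * ‖Y‖ + ‖t‖ * ‖Z‖ := by rw [norm_mul, norm_mul, norm_mul]
      _ ≤ ‖r‖ * M + ‖s‖ * M + ‖t‖ * M := by gcongr
      _ = _ := by ring
  obtain ⟨C0, hC0⟩ : ∃ C0 : ℝ, C0 = ‖u‖ + ‖v‖ + ‖w‖ := ⟨_, rfl⟩
  obtain ⟨C1, hC1⟩ : ∃ C1 : ℝ, C1 = ‖-(u * (b + c))‖ + ‖-(v * (a + c))‖ + ‖-(w * (a + b))‖ :=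
    ⟨_, rfl⟩
  obtain ⟨C2, hC2⟩ : ∃ C2 : ℝ, C2 = ‖u * (b * c)‖ + ‖v * (a * c)‖ + ‖w * (a * b)‖ := ⟨_, rfl⟩
  have p0 : 0 ≤ C0 := by rw [hC0]; positivity
  have p1 : 0 ≤ C1 := by rw [hC1]; positivity
  have p2 : 0 ≤ C2 := by rw [hC2]; positivity
  refine ⟨C0 + C1 + C2 + 1, by linarith, fun x y z => ?_⟩
  obtain ⟨X, hX⟩ : ∃ X : A, X = x * (a : A) ^ 2 + y * a + z := ⟨_, rfl⟩
  obtain ⟨Y, hY⟩ : ∃ Y : A, Y = x * (b : A) ^ 2 + y * b + z := ⟨_, rfl⟩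
  obtain ⟨Z, hZ⟩ : ∃ Z : A, Z = x * (c : A) ^ 2 + y * c + z := ⟨_, rfl⟩
  rw [← hX, ← hY, ← hZ]
  obtain ⟨M, hM⟩ : ∃ M : ℝ, M = max ‖X‖ (max ‖Y‖ ‖Z‖) := ⟨_, rfl⟩
  rw [← hM]
  have m1 : ‖X‖ ≤ M := hM ▸ le_max_left _ _
  have m2 : ‖Y‖ ≤ M := hM ▸ (le_max_left _ _).trans (le_max_right _ _)
  have m3 : ‖Z‖ ≤ M := hM ▸ (le_max_right _ _).trans (le_max_right _ _)
  have m0 : 0 ≤ M := (norm_nonneg _).trans m1
  have x0 : x = u * X + v * Y + w * Z := by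
    rw [hu, hv, hw, hX, hY, hZ]
    field_simp
    ring
  have x1 : y = -(u * (b + c)) * X + -(v * (a + c)) * Y + -(w * (a + b)) * Z := by
    rw [hu, hv, hw, hX, hY, hZ]
    field_simp
    ring
  have x2 : z = u * (b * c) * X + v * (a * c) * Y + w * (a * b) * Z := by
    rw [hu, hv, hw, hX, hY, hZ]
    field_simp
    ring
  have b0 : ‖x‖ ≤ C0 * M := by
    rw [x0, hC0]
    exact key _ _ _ _ _ _ _ m1 m2 m3
  have b1 : ‖y‖ ≤ C1 * M := by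
    rw [x1, hC1]
    exact key _ _ _ _ _ _ _ m1 m2 m3
  have b2 : ‖z‖ ≤ C2 * M := by
    rw [x2, hC2]
    exact key _ _ _ _ _ _ _ m1 m2 m3
  have q0 : 0 ≤ C0 * M := mul_nonneg p0 m0
  have q1 : 0 ≤ C1 * M := mul_nonneg p1 m0
  have q2 : 0 ≤ C2 * M := mul_nonneg p2 m0
  have e : (C0 + C1 + C2 + 1) * M = C0 * M + C1 * M + C2 * M + M := by ring
  rw [e]
  exact max_le (by linarith) (max_le (by linarith) (by linarith))

variable {k : Type} [Field k] (ρ : k →+* A)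

/-- value at an integer -/
private lemma goodPointK_ev (f : Fin 3 → 𝓞 k) (q : ℤ) :
    absOf ρ ((f 0 * q ^ 2 + f 1 * q + f 2 : 𝓞 k) : k) =
      ‖ρ (f 0) * (q : A) ^ 2 + ρ (f 1) * q + ρ (f 2)‖ := by
  change ‖ρ ((f 0 * q ^ 2 + f 1 * q + f 2 : 𝓞 k) : k)‖ = _
  congr 1
  simp only [map_add, map_mul, map_pow, map_intCast]

private lemma goodPointK_ne {f : Fin 3 → 𝓞 k} (hirr : ¬ IsSquare ((discK f : 𝓞 k) : k)) (q : ℤ) :
    ((f 0 * q ^ 2 + f 1 * q + f 2 : 𝓞 k) : k) ≠ 0 := by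
  intro h
  apply hirr
  refine ⟨2 * (f 0 : k) * q + f 1, ?_⟩
  unfold discK
  simp only [map_add, map_mul, map_pow, map_intCast, map_sub, map_ofNat] at h ⊢
  linear_combination (-4 * (f 0 : k)) * h

/-- upper bound of the value -/
private lemma goodPointK_upper (q : ℤ) : ∃ C : ℝ, 0 < C ∧ ∀ f : Fin 3 → 𝓞 k,
    absOf ρ ((f 0 * q ^ 2 + f 1 * q + f 2 : 𝓞 k) : k) ≤ C * nfA ρ f := by
  refine ⟨‖(q : A)‖ ^ 2 + ‖(q : A)‖ + 1, by positivity, fun f => ?_⟩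
  have h0 : ‖ρ (f 0)‖ ≤ nfA ρ f := le_max_left _ _
  have h1 : ‖ρ (f 1)‖ ≤ nfA ρ f := (le_max_left _ _).trans (le_max_right _ _)
  have h2 : ‖ρ (f 2)‖ ≤ nfA ρ f := (le_max_right _ _).trans (le_max_right _ _)
  rw [goodPointK_ev]
  calc ‖ρ (f 0) * (q : A) ^ 2 + ρ (f 1) * (q : A) + ρ (f 2)‖
      ≤ ‖ρ (f 0) * (q : A) ^ 2‖ + ‖ρ (f 1) * (q : A)‖ + ‖ρ (f 2)‖ := norm_add₃_le
    _ = ‖ρ (f 0)‖ * ‖(q : A)‖ ^ 2 + ‖ρ (f 1)‖ * ‖(q : A)‖ + ‖ρ (f 2)‖ := by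
        rw [norm_mul, norm_mul, norm_pow]
    _ ≤ nfA ρ f * ‖(q : A)‖ ^ 2 + nfA ρ f * ‖(q : A)‖ + nfA ρ f := by
        have := mul_le_mul_of_nonneg_right h0 (pow_nonneg (norm_nonneg (q : A)) 2)
        have := mul_le_mul_of_nonneg_right h1 (norm_nonneg (q : A))
        linarith
    _ = (‖(q : A)‖ ^ 2 + ‖(q : A)‖ + 1) * nfA ρ f := by ring

/-- a sequence bounded below which is not `o(h)` is at least `κ h` -/
private lemma goodPointK_bad {U : Ultrafilter ℕ} {h : ℕ → ℝ} (hh : Tendsto h U atTop) (a : ℕ → ℝ)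
    (C : ℝ) (hC : ∀ n, -C ≤ a n) (hbad : ¬ Tendsto (fun n => a n / h n) U (𝓝 0)) :
    ∃ κ : ℝ, 0 < κ ∧ ∀ᶠ n in (U : Filter ℕ), κ * h n ≤ a n := by
  by_contra hcon
  push Not at hcon
  apply hbad
  rw [Metric.tendsto_nhds]
  intro ε hε
  have h1 : ∀ᶠ n in (U : Filter ℕ), a n < ε * h n := hcon ε hε
  filter_upwards [h1, hh.eventually_gt_atTop (|C| / ε), hh.eventually_gt_atTop 0] with n hn hn2 hn3
  rw [Real.dist_eq, sub_zero, abs_lt]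
  constructor
  · rw [lt_div_iff₀ hn3]
    rw [div_lt_iff₀ hε] at hn2
    have := hC n
    have := le_abs_self C
    linarith
  · rw [div_lt_iff₀ hn3]
    exact hn

private lemma goodPointK_finite [CharZero A] {U : Ultrafilter ℕ} {h : ℕ → ℝ}
    (hh : Tendsto h U atTop)
    (F : ℕ → Fin 3 → 𝓞 k) (hirr : ∀ n, ¬ IsSquare ((discK (F n) : 𝓞 k) : k)) :
    {q : ℤ | ¬ Tendsto (fun n => (Real.log (nfA ρ (F n)) -
        Real.log (absOf ρ ((F n 0 * q ^ 2 + F n 1 * q + F n 2 : 𝓞 k) : k))) / h n)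
          U (𝓝 0)}.Finite := by
  by_contra hinf
  obtain ⟨s, hs, hcard⟩ := (show Set.Infinite _ from hinf).exists_subset_card_eq 3
  obtain ⟨q1, q2, q3, h12, h13, h23, rfl⟩ := Finset.card_eq_three.1 hcard
  have hval : ∀ (n : ℕ) (q : ℤ),
      0 < absOf ρ ((F n 0 * q ^ 2 + F n 1 * q + F n 2 : 𝓞 k) : k) := by
    intro n q
    exact (absOf ρ).pos (goodPointK_ne (hirr n) q)
  have hnf : ∀ n, 0 < nfA ρ (F n) := by
    intro n
    obtain ⟨C, hC, hCf⟩ := goodPointK_upper ρ q1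
    have h1 := hCf (F n)
    have h2 := hval n q1
    by_contra hneg
    push Not at hneg
    have : C * nfA ρ (F n) ≤ 0 := mul_nonpos_of_nonneg_of_nonpos hC.le hneg
    linarith
  have hk : ∀ q : ℤ, ¬ Tendsto (fun n => (Real.log (nfA ρ (F n)) -
        Real.log (absOf ρ ((F n 0 * q ^ 2 + F n 1 * q + F n 2 : 𝓞 k) : k))) / h n) U (𝓝 0) →
      ∃ κ : ℝ, 0 < κ ∧ ∀ᶠ n in (U : Filter ℕ), κ * h n ≤ Real.log (nfA ρ (F n)) -
        Real.log (absOf ρ ((F n 0 * q ^ 2 + F n 1 * q + F n 2 : 𝓞 k) : k)) := by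
    intro q hq
    obtain ⟨C, hC, hCf⟩ := goodPointK_upper ρ q
    refine goodPointK_bad hh _ (Real.log C) ?_ hq
    intro n
    have h1 := Real.log_le_log (hval n q) (hCf (F n))
    rw [Real.log_mul hC.ne' (hnf n).ne'] at h1
    linarith
  obtain ⟨k1, hk1, e1⟩ := hk q1 (hs (by simp))
  obtain ⟨k2, hk2, e2⟩ := hk q2 (hs (by simp))
  obtain ⟨k3, hk3, e3⟩ := hk q3 (hs (by simp))
  obtain ⟨C, hC, hCf⟩ := goodPointK_three (A := A) h12 h13 h23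
  obtain ⟨κ, hkdef⟩ : ∃ κ : ℝ, κ = min k1 (min k2 k3) := ⟨_, rfl⟩
  have hkpos : 0 < κ := hkdef ▸ lt_min hk1 (lt_min hk2 hk3)
  have hkk1 : κ ≤ k1 := hkdef ▸ min_le_left _ _
  have hkk2 : κ ≤ k2 := hkdef ▸ (min_le_right _ _).trans (min_le_left _ _)
  have hkk3 : κ ≤ k3 := hkdef ▸ (min_le_right _ _).trans (min_le_right _ _)
  have hev : ∀ᶠ n in (U : Filter ℕ), False := by
    filter_upwards [e1, e2, e3, hh.eventually_gt_atTop (Real.log C / κ),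
      hh.eventually_gt_atTop 0] with n f1 f2 f3 f4 f5
    have hexp : ∀ (q : ℤ) (kq : ℝ), κ ≤ kq → kq * h n ≤ Real.log (nfA ρ (F n)) -
        Real.log (absOf ρ ((F n 0 * q ^ 2 + F n 1 * q + F n 2 : 𝓞 k) : k)) →
        absOf ρ ((F n 0 * q ^ 2 + F n 1 * q + F n 2 : 𝓞 k) : k) ≤
          Real.exp (Real.log (nfA ρ (F n)) - κ * h n) := by
      intro q kq hq hq'
      rw [← Real.log_le_iff_le_exp (hval n q)]
      have := mul_le_mul_of_nonneg_right hq f5.le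
      linarith
    have key := hCf (ρ (F n 0)) (ρ (F n 1)) (ρ (F n 2))
    rw [← goodPointK_ev, ← goodPointK_ev, ← goodPointK_ev] at key
    have hmax := max_le (hexp q1 k1 hkk1 f1) (max_le (hexp q2 k2 hkk2 f2) (hexp q3 k3 hkk3 f3))
    have h2 : nfA ρ (F n) ≤ C * Real.exp (Real.log (nfA ρ (F n)) - κ * h n) :=
      key.trans (mul_le_mul_of_nonneg_left hmax hC.le)
    have h3 := Real.log_le_log (hnf n) h2
    rw [Real.log_mul hC.ne' (Real.exp_pos _).ne', Real.log_exp] at h3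
    rw [div_lt_iff₀ hkpos] at f4
    linarith
  exact (Filter.eventually_false_iff_eq_bot.1 hev) |> (Ultrafilter.neBot U).ne

end GoodPointKGen

section K

variable {k : Type} [Field k] [NumberField k] {T : Type} [Fintype T] [DecidableEq T] {p : T → ℕ}
  [∀ t, Fact (p t).Prime]

/-! ### K7 (GoodPointK.lean) -/

theorem exists_good_pointK {U : Ultrafilter ℕ} {h : ℕ → ℝ} (hh : Tendsto h U atTop)
    (F : ℕ → Fin 3 → 𝓞 k) (hirr : ∀ n, ¬ IsSquare ((discK (F n) : 𝓞 k) : k)) :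
    ∃ q : ℤ, ∀ l : PlK k p, Tendsto (fun n => (Real.log (nfk l (F n)) -
        Real.log (vk l ((F n 0 * q ^ 2 + F n 1 * q + F n 2 : 𝓞 k) : k))) / h n) U (𝓝 0) := by
  have hfin : (⋃ l : PlK k p, {q : ℤ | ¬ Tendsto (fun n => (Real.log (nfk l (F n)) -
        Real.log (vk l ((F n 0 * q ^ 2 + F n 1 * q + F n 2 : 𝓞 k) : k))) / h n)
          U (𝓝 0)}).Finite := by
    refine Set.finite_iUnion fun l => ?_
    rcases l with ρ | ⟨t, ρ⟩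
    · exact goodPointK_finite ρ hh F hirr
    · exact goodPointK_finite ρ hh F hirr
  obtain ⟨q, hq⟩ := hfin.exists_notMem
  simp only [Set.mem_ofPred_eq, Set.mem_iUnion, not_not, not_exists] at hq
  exact ⟨q, hq⟩

end K

end Pool.Agent.SST
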