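import Pool.Agent.SST.LimK
import Pool.Agent.SST.FormKAux
import Pool.Agent.SST.GoodPointK

/-! The inequality for all forms over a number field. -/

open MvPolynomial Filter Module NumberField
open scoped Topology

namespace Pool.Agent.SST

section K

variable {k : Type} [Field k] [NumberField k] {T : Type} [Fintype T] [DecidableEq T] {p : T → ℕ}
  [∀ t, Fact (p t).Prime]

/-- sum of the logarithmic sizes at the complex embeddings -/
noncomputable def sizeK (f : Fin 3 → 𝓞 k) : ℝ := ∑ ρ : k →+* ℂ, Real.log (nfA ρ f)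

lemma card_embK : (Fintype.card (k →+* ℂ) : ℝ) = finrank ℚ k := by
  rw [NumberField.Embeddings.card]

/-- for balanced forms all complex sizes are equal up to a constant -/
lemma balancedK_log (B : ℝ) (hB : 1 ≤ B) (f : Fin 3 → 𝓞 k) (hf : f ≠ 0)
    (hbal : ∀ ρ ρ' : k →+* ℂ, nfA ρ f ≤ B * nfA ρ' f) (ρ : k →+* ℂ) :
    |Real.log (nfA ρ f) - sizeK f / finrank ℚ k| ≤ Real.log B := by
  have hd := finrank_posK (k := k)
  have h1 : ∀ ρ ρ' : k →+* ℂ, Real.log (nfA ρ f) ≤ Real.log B + Real.log (nfA ρ' f) := by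
    intro ρ ρ'
    rw [← Real.log_mul (by linarith) (nfA_pos ρ' f hf).ne']
    exact Real.log_le_log (nfA_pos ρ f hf) (hbal ρ ρ')
  have h2 : (finrank ℚ k : ℝ) * (Real.log (nfA ρ f) - Real.log B) ≤ sizeK f := by
    rw [sizeK, ← card_embK, ← nsmul_eq_mul, ← Finset.card_univ, ← Finset.sum_const]
    exact Finset.sum_le_sum fun ρ' _ => by linarith [h1 ρ ρ']
  have h3 : sizeK f ≤ (finrank ℚ k : ℝ) * (Real.log (nfA ρ f) + Real.log B) := by
    rw [sizeK, ← card_embK, ← nsmul_eq_mul, ← Finset.card_univ, ← Finset.sum_const]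
    exact Finset.sum_le_sum fun ρ' _ => by linarith [h1 ρ' ρ]
  have h4 : Real.log (nfA ρ f) - Real.log B ≤ sizeK f / finrank ℚ k := by
    rwa [le_div_iff₀' hd]
  have h5 : sizeK f / finrank ℚ k ≤ Real.log (nfA ρ f) + Real.log B := by
    rwa [div_le_iff₀' hd]
  rw [abs_le]
  constructor <;> linarith

lemma finite_formsK (R : ℝ) : {f : Fin 3 → 𝓞 k | ∀ (ρ : k →+* ℂ) i, ‖ρ (f i)‖ ≤ R}.Finite := by
  have h1 := NumberField.Embeddings.finite_of_norm_le k ℂ R
  have h2 : {y : 𝓞 k | ∀ ρ : k →+* ℂ, ‖ρ y‖ ≤ R}.Finite := by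
    refine Set.Finite.of_finite_image (f := fun y : 𝓞 k => (y : k)) (h1.subset ?_)
      (RingOfIntegers.coe_injective.injOn)
    rintro _ ⟨y, hy, rfl⟩
    exact ⟨y.isIntegral_coe, fun ρ => hy ρ⟩
  refine (Set.Finite.pi' (fun _ : Fin 3 => h2)).subset ?_
  intro f hf i ρ
  exact hf ρ i

lemma kaux_evk_q (f : Fin 3 → 𝓞 k) (q : ℤ) :
    evk f (((q : ℤ) : AlgebraicClosure k) : OnePoint (AlgebraicClosure k)) =
      algebraMap k (AlgebraicClosure k) (shiftK f q 0 : k) := by
  change algebraMap k (AlgebraicClosure k) (f 0 : k) * ((q : ℤ) : AlgebraicClosure k) ^ 2 +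
    algebraMap k (AlgebraicClosure k) (f 1 : k) * ((q : ℤ) : AlgebraicClosure k) +
    algebraMap k (AlgebraicClosure k) (f 2 : k) =
    algebraMap k (AlgebraicClosure k) (algebraMap (𝓞 k) k (f 0 * q ^ 2 + f 1 * q + f 2))
  simp only [map_add, map_mul, map_pow, map_intCast]

/-- reduction of the inequality for a sequence of balanced forms to the limit theorem -/
theorem reduceK (e : ExtK k p) (U : Ultrafilter ℕ) (F : ℕ → Fin 3 → 𝓞 k) (B : ℝ) (hB : 1 ≤ B)
    (hcont : ∀ n, (Ideal.absNorm (contentK (F n)) : ℝ) ≤ B)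
    (hbal : ∀ n, ∀ ρ ρ' : k →+* ℂ, nfA ρ (F n) ≤ B * nfA ρ' (F n))
    (hirr : ∀ n, ¬ IsSquare ((discK (F n) : 𝓞 k) : k))
    (D : Finset (OnePoint (AlgebraicClosure k))) (hev : ∀ n, ∀ γ ∈ D, evk (F n) γ ≠ 0)
    (hS : Tendsto (fun n => sizeK (F n)) U atTop) (c A : ℝ) (hc0 : 0 ≤ c) (hc1 : c ≤ 1)
    (hA : 0 < A)
    (hlim : ∀ (q : ℤ) (h' : ℕ → ℝ), SeqK p U h' (fun n => shiftK (F n) q) →
      ∀ D1 : Finset (AlgebraicClosure k),
      (∀ γ : AlgebraicClosure k ≃ₐ[k] AlgebraicClosure k, ∀ α ∈ D1, γ α ∈ D1) →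
      ∀ ε' : ℝ, 0 < ε' → ∀ᶠ n in (U : Filter ℕ),
        ∑ l, (∑ α ∈ D1, -Real.log (VK e l (fq α (bsqK (shiftK (F n) q)))) -
          c * Real.log (VK e l (dq (bsqK (shiftK (F n) q))))) ≤ (A * finrank ℚ k + ε') * h' n)
    (ε : ℝ) (hε : 0 < ε) (M : ℝ) :
    ∀ᶠ n in (U : Filter ℕ),
      ∑ l, (∑ γ ∈ D, (Real.log (nfk l (F n)) - Real.log (VK e l (evk (F n) γ))) +
        c * (2 * Real.log (nfk l (F n)) - Real.log (vk l ((discK (F n) : 𝓞 k) : k)))) + M ≤
        (A + ε) * sizeK (F n) := by
  classical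
  have hd := finrank_posK (k := k)
  set d : ℝ := (finrank ℚ k : ℝ) with hdd
  set h : ℕ → ℝ := fun n => sizeK (F n) / d with hh
  have hhU : Tendsto h U atTop := hS.atTop_div_const hd
  have hF0 : ∀ n, F n 0 ≠ 0 := fun n => kaux_f0_ne (hirr n)
  have hFne : ∀ n, F n ≠ 0 := fun n h0 => hF0 n (by rw [h0]; rfl)
  have hlogB : 0 ≤ Real.log B := Real.log_nonneg hB
  have hbl : ∀ n (ρ : k →+* ℂ), |Real.log (nfA ρ (F n)) - h n| ≤ Real.log B := fun n ρ =>
    balancedK_log B hB (F n) (hFne n) (hbal n) ρ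
  obtain ⟨q, hq⟩ := exists_good_pointK (p := p) hhU F hirr
  set g : ℕ → Fin 3 → 𝓞 k := fun n => shiftK (F n) q with hg
  set K : ℝ := Real.log B + Real.log ((1 + |(q : ℝ)|) ^ 2) with hK
  set h' : ℕ → ℝ := fun n => h n + K with hh'
  have hq0 : (1 : ℝ) ≤ (1 + |(q : ℝ)|) ^ 2 := by
    have := abs_nonneg (q : ℝ)
    nlinarith
  have hK0 : 0 ≤ K := add_nonneg hlogB (Real.log_nonneg hq0)
  have hirr' : ∀ n, ¬ IsSquare ((discK (g n) : 𝓞 k) : k) := fun n => by
    rw [hg]; simp only [shiftK_disc]; exact hirr n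
  have hgne : ∀ n, g n 0 ≠ 0 := fun n => kaux_f0_ne (hirr' n)
  have hposU : ∀ᶠ n in (U : Filter ℕ), 0 < h n := hhU.eventually_gt_atTop 0
  have htend' : Tendsto h' U atTop := tendsto_atTop_add_const_right _ K hhU
  have hratio : Tendsto (fun n => h' n / h n) U (𝓝 1) := by
    have h1 : Tendsto (fun n => K / h n) U (𝓝 0) := hhU.const_div_atTop K
    have h3 := h1.const_add 1
    rw [add_zero] at h3
    refine h3.congr' ?_
    filter_upwards [hposU] with n hn
    change 1 + K / h n = (h n + K) / h n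
    rw [add_div (h n), div_self hn.ne']
  -- the sizes at all places
  set Nl : PlK k p → ℕ → ℝ := fun l n => Real.log (nfk l (F n)) with hNl
  set E : PlK k p → ℕ → ℝ := fun l n => Nl l n - Real.log (vk l (g n 0 : k)) with hE
  have hElim : ∀ l, Tendsto (fun n => E l n / h n) U (𝓝 0) := fun l => hq l
  have hE0 : ∀ l, Smk U h (fun n => |E l n|) := fun l => Smk.of_tendsto hhU (hElim l)
  have hNinf : ∀ ρ : k →+* ℂ, Tendsto (fun n => Real.log (nfA ρ (F n)) / h n) U (𝓝 1) := by
    intro ρ
    have h1 : Tendsto (fun n => Real.log B / h n) U (𝓝 0) := hhU.const_div_atTop _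
    have h2 : Tendsto (fun n => (Real.log (nfA ρ (F n)) - h n) / h n) U (𝓝 0) := by
      refine squeeze_zero_norm' ?_ h1
      filter_upwards [hposU] with n hn
      rw [norm_div, Real.norm_eq_abs, Real.norm_eq_abs, abs_of_pos hn]
      exact div_le_div_of_nonneg_right (hbl n ρ) hn.le
    have h3 := h2.const_add 1
    rw [add_zero] at h3
    refine h3.congr' ?_
    filter_upwards [hposU] with n hn
    rw [sub_div, div_self hn.ne']
    ring
  have hNfin : ∀ t (ρ : k →+* ℂ_[p t]),
      Tendsto (fun n => Real.log (nfA ρ (F n)) / h n) U (𝓝 0) := by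
    intro t ρ
    have h1 : Tendsto (fun n => Real.log B / h n) U (𝓝 0) := hhU.const_div_atTop _
    refine squeeze_zero_norm' ?_ h1
    filter_upwards [hposU] with n hn
    rw [norm_div, Real.norm_eq_abs, Real.norm_eq_abs, abs_of_pos hn]
    refine div_le_div_of_nonneg_right ?_ hn.le
    have e1 := nfA_padic_le (p t) ρ (F n)
    have e2 := nfA_padic_ge (p t) ρ (F n) (hFne n)
    have e3 := nfA_pos ρ (F n) (hFne n)
    have e4 : B⁻¹ ≤ nfA ρ (F n) := by
      refine le_trans ?_ e2
      rcases eq_or_lt_of_le (Nat.cast_nonneg (α := ℝ) (Ideal.absNorm (contentK (F n)))) with h0 | h0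
      · exfalso
        have h1 : (Ideal.absNorm (contentK (F n)) : ℝ) = 0 := h0.symm
        have h2 : Ideal.absNorm (contentK (F n)) = 0 := by exact_mod_cast h1
        rw [Ideal.absNorm_eq_zero_iff] at h2
        have h3 : F n 0 ∈ contentK (F n) := Ideal.subset_span ⟨0, rfl⟩
        rw [h2] at h3
        exact hF0 n (by simpa using h3)
      · exact inv_anti₀ h0 (hcont n)
    rw [abs_le]
    constructor
    · have e5 := Real.log_le_log (by positivity) e4
      rwa [Real.log_inv] at e5
    · exact (Real.log_nonpos e3.le e1).trans hlogB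
  have hs : SeqK p U h' g := by
    refine ⟨htend', hgne, fun n i ρ => ?_, fun ρ => ?_, fun t ρ => ?_⟩
    · refine (shiftK_le (F n) q ρ i).trans ?_
      have h1 : nfA ρ (F n) ≤ Real.exp (h n + Real.log B) := by
        rw [← Real.log_le_iff_le_exp (nfA_pos ρ (F n) (hFne n))]
        have := (abs_le.mp (hbl n ρ)).2
        linarith
      have h2 : Real.exp (h' n) = (1 + |(q : ℝ)|) ^ 2 * Real.exp (h n + Real.log B) := by
        rw [hh', hK]
        simp only
        rw [← add_assoc, Real.exp_add (h n + Real.log B), Real.exp_log (by linarith)]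
        ring
      rw [h2]
      exact mul_le_mul_of_nonneg_left h1 (by linarith)
    · have h1 : Tendsto (fun n => Real.log ‖ρ (g n 0)‖ / h n) U (𝓝 1) := by
        have h2 := (hNinf ρ).sub (hElim (Sum.inl ρ))
        rw [sub_zero] at h2
        refine h2.congr fun n => ?_
        rw [← sub_div]
        congr 1
        change Real.log (nfA ρ (F n)) - (Real.log (nfA ρ (F n)) - Real.log ‖ρ (g n 0)‖) = _
        ring
      have h3 := h1.div hratio one_ne_zero
      rw [div_one] at h3
      refine h3.congr' ?_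
      filter_upwards [hposU] with n hn
      rw [Pi.div_apply, div_div_div_cancel_right₀ hn.ne']
    · have h1 : Tendsto (fun n => Real.log ‖ρ (g n 0)‖ / h n) U (𝓝 0) := by
        have h2 := (hNfin t ρ).sub (hElim (Sum.inr ⟨t, ρ⟩))
        rw [sub_zero] at h2
        refine h2.congr fun n => ?_
        rw [← sub_div]
        congr 1
        change Real.log (nfA ρ (F n)) - (Real.log (nfA ρ (F n)) - Real.log ‖ρ (g n 0)‖) = _
        ring
      have h3 := h1.div hratio one_ne_zero
      rw [div_one] at h3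
      refine h3.congr' ?_
      filter_upwards [hposU] with n hn
      rw [Pi.div_apply, div_div_div_cancel_right₀ hn.ne']
  -- the finite set of points
  set βf : OnePoint (AlgebraicClosure k) → AlgebraicClosure k :=
    fun γ => γ.elim 0 fun α => 1 / (α - (q : AlgebraicClosure k)) with hβf
  set qp : OnePoint (AlgebraicClosure k) :=
    (((q : ℤ) : AlgebraicClosure k) : OnePoint (AlgebraicClosure k)) with hqp
  set D0 : Finset (AlgebraicClosure k) := (D.erase qp).image βf with hD0
  obtain ⟨D1, hD01, hD1⟩ := exists_stableK D0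
  have hlimq := hlim q h' hs D1 hD1 (ε / 2) (by linarith)
  choose u hu0 hu using log_bsqK_le e hs
  choose Cf hCf0 hCf using fun (l : PlK k p) (β : AlgebraicClosure k) => fqk_le (VK e l) β
  have hu1 : ∀ l, Smk U h (fun n => max (u l n) 0) := by
    intro l
    have h1 : Tendsto (fun n => u l n / h n) U (𝓝 0) := by
      have h2 := (hu0 l).mul hratio
      rw [zero_mul] at h2
      refine h2.congr' ?_
      filter_upwards [hposU, htend'.eventually_gt_atTop 0] with n hn hn'
      field_simp
    exact Smk.max_zero hhU ((Smk.of_tendsto hhU h1).mono fun n => le_abs_self _)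
  set cγ : PlK k p → OnePoint (AlgebraicClosure k) → ℝ := fun l γ =>
    γ.elim 0 fun α => 2 * Real.log (VK e l (α - (q : AlgebraicClosure k))) with hcγ
  set R : PlK k p → ℕ → ℝ := fun l n => ((D.card + 3 : ℕ) : ℝ) * |E l n| + ∑ γ ∈ D, |cγ l γ| +
    ∑ β ∈ D1, (Cf l β + max (u l n) 0) with hR
  have hRs : ∀ l, Smk U h (R l) := by
    intro l
    refine ((Smk.nsmul hhU (hE0 l) _).add (Smk.const hhU _)).add ?_
    exact Smk.sum hhU D1 _ fun β _ => (Smk.const hhU _).add (hu1 l)
  have hg0V : ∀ l n, 0 < VK e l (algebraMap k (AlgebraicClosure k) (g n 0 : k)) := fun l n =>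
    (VK e l).pos (kaux_alg_ne (hgne n))
  have hEV : ∀ l n, E l n = Nl l n -
      Real.log (VK e l (algebraMap k (AlgebraicClosure k) (g n 0 : k))) := by
    intro l n
    rw [VK_algebraMap]
  have hcoe0 : ∀ n, algebraMap k (AlgebraicClosure k) (g n 0 : k) =
      algebraMap k (AlgebraicClosure k) (F n 0 : k) * (q : AlgebraicClosure k) ^ 2 +
      algebraMap k (AlgebraicClosure k) (F n 1 : k) * (q : AlgebraicClosure k) +
      algebraMap k (AlgebraicClosure k) (F n 2 : k) := by
    intro n
    rw [hg]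
    simp only
    rw [← kaux_evk_q]
    rfl
  have hcoe1 : ∀ n, algebraMap k (AlgebraicClosure k) (g n 1 : k) =
      2 * algebraMap k (AlgebraicClosure k) (F n 0 : k) * (q : AlgebraicClosure k) +
      algebraMap k (AlgebraicClosure k) (F n 1 : k) := by
    intro n
    change algebraMap k (AlgebraicClosure k) (algebraMap (𝓞 k) k (2 * F n 0 * q + F n 1)) = _
    simp only [map_add, map_mul, map_intCast, map_ofNat]
  have hcoe2 : ∀ n, algebraMap k (AlgebraicClosure k) (g n 2 : k) =
      algebraMap k (AlgebraicClosure k) (F n 0 : k) := fun n => rfl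
  have hkey : ∀ l n, ∀ γ ∈ D.erase qp,
      Nl l n - Real.log (VK e l (evk (F n) γ)) =
        E l n - cγ l γ + -Real.log (VK e l (fq (βf γ) (bsqK (g n)))) := by
    intro l n γ hγ
    rw [Finset.mem_erase] at hγ
    have hevn := hev n γ hγ.2
    have hg0' := kaux_alg_ne (hgne n)
    rcases γ with _ | α
    · have e1 : evk (F n) (OnePoint.infty : OnePoint (AlgebraicClosure k)) =
          fq (0 : AlgebraicClosure k) (bsqK (g n)) *
            algebraMap k (AlgebraicClosure k) (g n 0 : k) := by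
        rw [kaux_bsq_val _ (hgne n), div_mul_cancel₀ _ hg0']
        change algebraMap k (AlgebraicClosure k) (F n 0 : k) =
          algebraMap k (AlgebraicClosure k) (g n 0 : k) * 0 ^ 2 +
          algebraMap k (AlgebraicClosure k) (g n 1 : k) * 0 +
          algebraMap k (AlgebraicClosure k) (g n 2 : k)
        rw [hcoe2]
        ring
      have e2 : fq (0 : AlgebraicClosure k) (bsqK (g n)) ≠ 0 := by
        intro h0
        apply hevn
        change evk (F n) (OnePoint.infty : OnePoint (AlgebraicClosure k)) = 0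
        rw [e1, h0, zero_mul]
      rw [hEV]
      change Nl l n - Real.log (VK e l (evk (F n)
          (OnePoint.infty : OnePoint (AlgebraicClosure k)))) =
        Nl l n - Real.log (VK e l (algebraMap k (AlgebraicClosure k) (g n 0 : k))) - 0 +
          -Real.log (VK e l (fq (0 : AlgebraicClosure k) (bsqK (g n))))
      rw [e1, map_mul, Real.log_mul ((VK e l).ne_zero e2) (hg0V l n).ne']
      ring
    · have hαq : α - (q : AlgebraicClosure k) ≠ 0 := by
        intro h0
        apply hγ.1
        rw [sub_eq_zero] at h0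
        rw [h0]
        rfl
      have e1 : evk (F n) (α : OnePoint (AlgebraicClosure k)) =
          (α - (q : AlgebraicClosure k)) ^ 2 *
            (fq (1 / (α - (q : AlgebraicClosure k))) (bsqK (g n)) *
              algebraMap k (AlgebraicClosure k) (g n 0 : k)) := by
        rw [kaux_bsq_val _ (hgne n), div_mul_cancel₀ _ hg0']
        change algebraMap k (AlgebraicClosure k) (F n 0 : k) * α ^ 2 +
          algebraMap k (AlgebraicClosure k) (F n 1 : k) * α +
          algebraMap k (AlgebraicClosure k) (F n 2 : k) =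
          (α - (q : AlgebraicClosure k)) ^ 2 *
          (algebraMap k (AlgebraicClosure k) (g n 0 : k) * (1 / (α - (q : AlgebraicClosure k))) ^ 2 +
            algebraMap k (AlgebraicClosure k) (g n 1 : k) * (1 / (α - (q : AlgebraicClosure k))) +
            algebraMap k (AlgebraicClosure k) (g n 2 : k))
        rw [hcoe0, hcoe1, hcoe2]
        field_simp
        ring
      have e2 : fq (1 / (α - (q : AlgebraicClosure k))) (bsqK (g n)) ≠ 0 := by
        intro h0
        apply hevn
        change evk (F n) (α : OnePoint (AlgebraicClosure k)) = 0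
        rw [e1, h0, zero_mul, mul_zero]
      rw [hEV]
      change Nl l n - Real.log (VK e l (evk (F n) (α : OnePoint (AlgebraicClosure k)))) =
        Nl l n - Real.log (VK e l (algebraMap k (AlgebraicClosure k) (g n 0 : k))) -
          2 * Real.log (VK e l (α - (q : AlgebraicClosure k))) +
          -Real.log (VK e l (fq (1 / (α - (q : AlgebraicClosure k))) (bsqK (g n))))
      rw [e1, map_mul, map_mul, map_pow, Real.log_mul (pow_ne_zero 2 ((VK e l).ne_zero hαq))
        (mul_ne_zero ((VK e l).ne_zero e2) (hg0V l n).ne'),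
        Real.log_mul ((VK e l).ne_zero e2) (hg0V l n).ne', Real.log_pow]
      push_cast
      ring
  have hinj : Set.InjOn βf ((D.erase qp : Finset (OnePoint (AlgebraicClosure k))) :
      Set (OnePoint (AlgebraicClosure k))) := by
    have hne : ∀ α : AlgebraicClosure k, (α : OnePoint (AlgebraicClosure k)) ∈ D.erase qp →
        α - (q : AlgebraicClosure k) ≠ 0 := by
      intro α hα h0
      rw [sub_eq_zero] at h0
      rw [h0] at hα
      exact (Finset.mem_erase.mp hα).1 rfl
    intro γ hγ γ' hγ' heq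
    rw [Finset.mem_coe] at hγ hγ'
    rcases γ with _ | α <;> rcases γ' with _ | α'
    · rfl
    · exfalso
      have h1 := hne α' hγ'
      change (0 : AlgebraicClosure k) = 1 / (α' - (q : AlgebraicClosure k)) at heq
      exact one_div_ne_zero h1 heq.symm
    · exfalso
      have h1 := hne α hγ
      change 1 / (α - (q : AlgebraicClosure k)) = (0 : AlgebraicClosure k) at heq
      exact one_div_ne_zero h1 heq
    · change 1 / (α - (q : AlgebraicClosure k)) = 1 / (α' - (q : AlgebraicClosure k)) at heq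
      rw [one_div, one_div, inv_inj, sub_left_inj] at heq
      rw [heq]
  have hDl : ∀ l n, ∑ γ ∈ D, (Nl l n - Real.log (VK e l (evk (F n) γ))) +
      c * (2 * Nl l n - Real.log (vk l ((discK (F n) : 𝓞 k) : k))) ≤
      (∑ β ∈ D1, -Real.log (VK e l (fq β (bsqK (g n)))) -
        c * Real.log (VK e l (dq (bsqK (g n))))) + R l n := by
    intro l n
    -- the discriminant
    have hdg : discK (g n) = discK (F n) := shiftK_disc (F n) q
    have hdne := kaux_alg_ne (kaux_disc_ne (hirr n))
    have hd1 : Real.log (VK e l (dq (bsqK (g n)))) =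
        Real.log (vk l ((discK (F n) : 𝓞 k) : k)) -
        2 * Real.log (VK e l (algebraMap k (AlgebraicClosure k) (g n 0 : k))) := by
      rw [kaux_bsq_disc _ (hgne n), hdg, map_div₀, map_pow,
        Real.log_div ((VK e l).ne_zero hdne) (pow_ne_zero 2 (hg0V l n).ne'), Real.log_pow,
        VK_algebraMap]
      push_cast
      ring
    have hd2 : c * (2 * Nl l n - Real.log (vk l ((discK (F n) : 𝓞 k) : k))) ≤
        -(c * Real.log (VK e l (dq (bsqK (g n))))) + 2 * |E l n| := by
      have h1 := hEV l n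
      have h2 := le_abs_self (E l n)
      have h3 : c * E l n ≤ |E l n| := by
        calc c * E l n ≤ c * |E l n| := mul_le_mul_of_nonneg_left h2 hc0
          _ ≤ 1 * |E l n| := mul_le_mul_of_nonneg_right hc1 (abs_nonneg _)
          _ = |E l n| := one_mul _
      have h4 : c * (2 * Nl l n - Real.log (vk l ((discK (F n) : 𝓞 k) : k))) =
          -(c * Real.log (VK e l (dq (bsqK (g n))))) + 2 * (c * E l n) := by
        rw [hd1, h1]
        ring
      linarith
    -- the points
    have hp1 : ∑ γ ∈ D, (Nl l n - Real.log (VK e l (evk (F n) γ))) ≤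
        ∑ γ ∈ D.erase qp, (Nl l n - Real.log (VK e l (evk (F n) γ))) + |E l n| := by
      by_cases hqD : qp ∈ D
      · rw [← Finset.sum_erase_add _ _ hqD]
        have h1 : evk (F n) qp = algebraMap k (AlgebraicClosure k) (g n 0 : k) := kaux_evk_q _ _
        rw [h1]
        have h2 := le_abs_self (E l n)
        have h3 := hEV l n
        linarith
      · rw [Finset.erase_eq_of_notMem hqD]
        have := abs_nonneg (E l n)
        linarith
    have hp2 : ∑ γ ∈ D.erase qp, (Nl l n - Real.log (VK e l (evk (F n) γ))) ≤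
        D.card * |E l n| + ∑ γ ∈ D, |cγ l γ| +
        ∑ β ∈ D0, -Real.log (VK e l (fq β (bsqK (g n)))) := by
      rw [Finset.sum_congr rfl (hkey l n), Finset.sum_add_distrib, hD0,
        Finset.sum_image hinj]
      have h1 : ∑ γ ∈ D.erase qp, (E l n - cγ l γ) ≤
          ∑ γ ∈ D, (|E l n| + |cγ l γ|) := by
        refine (Finset.sum_le_sum fun γ _ => ?_).trans
          (Finset.sum_le_sum_of_subset_of_nonneg (Finset.erase_subset _ _)
            fun γ _ _ => by positivity)
        have h2 := le_abs_self (E l n)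
        have h3 := neg_abs_le (cγ l γ)
        linarith
      rw [Finset.sum_add_distrib, Finset.sum_const, nsmul_eq_mul] at h1
      linarith
    have hp3 : ∑ β ∈ D0, -Real.log (VK e l (fq β (bsqK (g n)))) ≤
        ∑ β ∈ D1, -Real.log (VK e l (fq β (bsqK (g n)))) +
          ∑ β ∈ D1, (Cf l β + max (u l n) 0) := by
      rw [← Finset.sum_add_distrib]
      have hy : ∀ β, 0 ≤ Cf l β + max (u l n) 0 := fun β =>
        add_nonneg (hCf0 l β) (le_max_right _ _)
      have hxy : ∀ β, Real.log (VK e l (fq β (bsqK (g n)))) ≤ Cf l β + max (u l n) 0 := fun β =>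
        hCf l β (bsqK (g n)) (max (u l n) 0) (le_max_right _ _)
          fun i => (hu l n i).trans (le_max_left _ _)
      refine (Finset.sum_le_sum fun β _ => ?_).trans
        (Finset.sum_le_sum_of_subset_of_nonneg hD01 fun β _ _ => ?_)
      · have := hy β
        linarith
      · have := hxy β
        linarith
    have hRl : R l n = ((D.card + 3 : ℕ) : ℝ) * |E l n| + ∑ γ ∈ D, |cγ l γ| +
      ∑ β ∈ D1, (Cf l β + max (u l n) 0) := rfl
    rw [hRl]
    push_cast
    linarith [abs_nonneg (E l n)]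
  have hfin : Smk U h (fun n => ∑ l, R l n + ((A * d + ε / 2) * K + M)) :=
    (Smk.sum hhU Finset.univ _ fun l _ => hRs l).add (Smk.const hhU _)
  have hd1 : 1 ≤ d := by
    rw [hdd]
    exact_mod_cast Nat.one_le_iff_ne_zero.mpr Module.finrank_pos.ne'
  filter_upwards [hlimq, hfin (ε / 2) (by linarith), hposU] with n hn1 hn2 hn3
  have h2 := Finset.sum_le_sum fun l (_ : l ∈ Finset.univ) => hDl l n
  rw [Finset.sum_add_distrib (g := fun l => R l n)] at h2
  have h3 : sizeK (F n) = d * h n := by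
    rw [hh]
    simp only
    field_simp
  have h4 : h' n = h n + K := rfl
  rw [h4] at hn1
  rw [h3]
  have h5 : ε * h n ≤ ε * (d * h n) := by
    refine mul_le_mul_of_nonneg_left ?_ hε.le
    exact le_mul_of_one_le_left hn3.le hd1
  have h6 : (A * d + ε / 2) * (h n + K) = A * (d * h n) + ε / 2 * h n + (A * d + ε / 2) * K := by
    ring
  rw [h6] at hn1
  have h7 : (A + ε) * (d * h n) = A * (d * h n) + ε * (d * h n) := by ring
  rw [h7]
  linarith

/-- the left hand side for a form -/
noncomputable def lhsK (e : ExtK k p) (D : Finset (OnePoint (AlgebraicClosure k))) (c : ℝ)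
    (f : Fin 3 → 𝓞 k) : ℝ :=
  ∑ l, (∑ γ ∈ D, (Real.log (nfk l f) - Real.log (VK e l (evk f γ))) +
        c * (2 * Real.log (nfk l f) - Real.log (vk l ((discK f : 𝓞 k) : k))))

lemma tend_sizeK (e : ExtK k p) (D : Finset (OnePoint (AlgebraicClosure k))) (c A : ℝ)
    (hA : 0 < A) (B : ℝ) (hB : 1 ≤ B)
    (F : ℕ → Fin 3 → 𝓞 k) (hFne : ∀ n, F n ≠ 0)
    (hbal : ∀ n, ∀ ρ ρ' : k →+* ℂ, nfA ρ (F n) ≤ B * nfA ρ' (F n))
    (hbig : ∀ n : ℕ, A * sizeK (F n) + n < lhsK e D c (F n)) :
    Tendsto (fun n => sizeK (F n)) atTop atTop := by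
  have hd := finrank_posK (k := k)
  rw [tendsto_atTop]
  intro M
  by_contra hcon
  rw [not_eventually] at hcon
  set R : ℝ := Real.exp (|M| / finrank ℚ k + Real.log B) with hR
  set 𝒮 : Finset (Fin 3 → 𝓞 k) := (finite_formsK (k := k) R).toFinset with h𝒮
  set Q : ℝ := ∑ f ∈ 𝒮, |lhsK e D c f| with hQ
  set Q' : ℝ := ∑ f ∈ 𝒮, |sizeK f| with hQ'
  obtain ⟨n, hn1, hn2⟩ := (hcon.and_eventually (eventually_gt_atTop ⌈Q + A * Q'⌉₊)).exists
  push Not at hn1
  have hmem : F n ∈ 𝒮 := by
    rw [h𝒮, Set.Finite.mem_toFinset]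
    intro ρ i
    refine (norm_le_nfA ρ (F n) i).trans ?_
    rw [hR, ← Real.log_le_iff_le_exp (nfA_pos ρ (F n) (hFne n))]
    have h1 := (abs_le.mp (balancedK_log B hB (F n) (hFne n) (hbal n) ρ)).2
    have h2 : sizeK (F n) / finrank ℚ k ≤ |M| / finrank ℚ k :=
      div_le_div_of_nonneg_right (hn1.le.trans (le_abs_self M)) hd.le
    linarith
  have h2 : lhsK e D c (F n) ≤ Q := (le_abs_self _).trans
    (Finset.single_le_sum (f := fun f => |lhsK e D c f|) (fun _ _ => abs_nonneg _) hmem)
  have h3 : |sizeK (F n)| ≤ Q' :=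
    Finset.single_le_sum (f := fun f => |sizeK f|) (fun _ _ => abs_nonneg _) hmem
  have h4 := hbig n
  have h5 : (⌈Q + A * Q'⌉₊ : ℝ) < n := by exact_mod_cast hn2
  have h6 := Nat.le_ceil (Q + A * Q')
  have h7 := neg_abs_le (sizeK (F n))
  have h8 : A * (-Q') ≤ A * sizeK (F n) := mul_le_mul_of_nonneg_left (by linarith) hA.le
  linarith

theorem all_formK (e : ExtK k p) (hp : Function.Injective p) (B : ℝ) (hB : 1 ≤ B)
    (D : Finset (OnePoint (AlgebraicClosure k))) (ε : ℝ) (hε : 0 < ε) :
    ∃ C : ℝ, ∀ f : Fin 3 → 𝓞 k, (Ideal.absNorm (contentK f) : ℝ) ≤ B →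
      (∀ ρ ρ' : k →+* ℂ, nfA ρ f ≤ B * nfA ρ' f) → ¬ IsSquare ((discK f : 𝓞 k) : k) →
      (∀ γ ∈ D, evk f γ ≠ 0) → lhsK e D 1 f ≤ (4 + ε) * sizeK f + C := by
  by_contra hcon
  push Not at hcon
  choose F hcont hbal hirr hev hbig using fun n : ℕ => hcon n
  have hFne : ∀ n, F n ≠ 0 := fun n h0 => kaux_f0_ne (hirr n) (by rw [h0]; rfl)
  have htend := tend_sizeK e D 1 (4 + ε) (by linarith) B hB F hFne hbal hbig
  set U : Ultrafilter ℕ := hyperfilter ℕ with hU
  have hUle : (U : Filter ℕ) ≤ atTop := Nat.hyperfilter_le_atTop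
  have h1 := reduceK e U F B hB hcont hbal hirr D hev (htend.mono_left hUle) 1 4 zero_le_one
    le_rfl (by norm_num) (fun q h' hs D1 hD1 ε' hε' => lim_allK e hp hs (fun n => by
      rw [shiftK_disc]; exact hirr n) D1 hD1 ε' hε') ε hε 0
  obtain ⟨n, hn⟩ := h1.exists
  have h2 := hbig n
  have h3 : (0 : ℝ) ≤ n := Nat.cast_nonneg n
  rw [add_zero] at hn
  exact absurd (h2.trans_le hn) (by linarith)

end K

end Pool.Agent.SST
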