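import Pool.Agent.SST.SpecDefs
import Pool.Agent.DD7719.AuxPoly

/-! The auxiliary polynomials with integer coefficients, balanced at finitely many places. -/

open MvPolynomial NumberField

namespace Pool.Agent.SST

open Pool.Agent.DD7719

open Finset in
open Classical in
/-- Few exponents are unbalanced. -/
lemma unbal_card_gen {ι : Type} [Fintype ι] [DecidableEq ι] [Nonempty ι] (κ : ℕ) (δ : ℝ)
    (hδ : 0 < δ) {M : ℕ} (hM : 0 < M) (hM' : κ * (Fintype.card ι : ℝ) / δ ^ 2 ≤ M)
    (r : Fin M → ℕ) (hr : ∀ h, 0 < r h) :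
    κ * ((Tset ι r).filter (fun j => ¬ Bal δ r j)).card ≤ (Tset ι r).card := by
  have hMR : (0 : ℝ) < M := by exact_mod_cast hM
  have hsub : (Tset ι r).filter (fun j => ¬ Bal δ r j) ⊆
      (univ : Finset ι).biUnion (fun J => (Tset ι r).filter (fun j => δ * M <
        |∑ h, ((j h J : ℝ) / r h - 1 / Fintype.card ι)|)) := by
    intro j hj
    rw [Finset.mem_filter] at hj
    obtain ⟨hj1, hj2⟩ := hj
    unfold Bal at hj2
    push Not at hj2
    obtain ⟨J, hJ⟩ := hj2
    rw [Finset.mem_biUnion]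
    refine ⟨J, mem_univ _, ?_⟩
    rw [Finset.mem_filter]
    refine ⟨hj1, ?_⟩
    have : ∑ h : Fin M, ((j h J : ℝ) / r h - 1 / Fintype.card ι) =
        ∑ h, (j h J : ℝ) / r h - M / Fintype.card ι := by
      rw [Finset.sum_sub_distrib]
      simp [div_eq_mul_inv]
    rw [this]
    exact hJ
  have h1 : ∀ J : ι, (δ * M) ^ 2 * (((Tset ι r).filter (fun j => δ * M <
        |∑ h, ((j h J : ℝ) / r h - 1 / Fintype.card ι)|)).card : ℝ) ≤ M * (Tset ι r).card := by
    intro J
    exact chebyshev (fun h => Comp ι (r h)) (fun h c => (c J : ℝ) / r h - 1 / Fintype.card ι)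
      (fun h => centered (r h) (hr h) J) (fun h c hc => centered_abs_le (r h) (hr h) J c hc) δ hδ
  have h2 : (((Tset ι r).filter (fun j => ¬ Bal δ r j)).card : ℝ) ≤
      ∑ J : ι, (((Tset ι r).filter (fun j => δ * M <
        |∑ h, ((j h J : ℝ) / r h - 1 / Fintype.card ι)|)).card : ℝ) := by
    have := (Finset.card_le_card hsub).trans Finset.card_biUnion_le
    exact_mod_cast this
  have h3 : (δ * M) ^ 2 * (((Tset ι r).filter (fun j => ¬ Bal δ r j)).card : ℝ) ≤
      Fintype.card ι * (M * (Tset ι r).card) := by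
    calc _ ≤ (δ * M) ^ 2 * ∑ J : ι, (((Tset ι r).filter (fun j => δ * M <
        |∑ h, ((j h J : ℝ) / r h - 1 / Fintype.card ι)|)).card : ℝ) := by gcongr
      _ = ∑ J : ι, (δ * M) ^ 2 * (((Tset ι r).filter (fun j => δ * M <
        |∑ h, ((j h J : ℝ) / r h - 1 / Fintype.card ι)|)).card : ℝ) := by rw [Finset.mul_sum]
      _ ≤ ∑ _J : ι, M * ((Tset ι r).card : ℝ) := Finset.sum_le_sum fun J _ => h1 J
      _ = _ := by simp
  have h4 : κ * (Fintype.card ι : ℝ) ≤ δ ^ 2 * M := by
    rw [div_le_iff₀ (by positivity)] at hM'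
    linarith
  have h5 : (κ : ℝ) * ((Tset ι r).filter (fun j => ¬ Bal δ r j)).card ≤ (Tset ι r).card := by
    have h6 : M * ((δ ^ 2 * M) * (((Tset ι r).filter (fun j => ¬ Bal δ r j)).card : ℝ)) ≤
      M * (Fintype.card ι * (Tset ι r).card : ℝ) := by
      calc _ = (δ * M) ^ 2 * (((Tset ι r).filter (fun j => ¬ Bal δ r j)).card : ℝ) := by ring
        _ ≤ _ := h3
        _ = _ := by ring
    have h7 := le_of_mul_le_mul_left h6 hMR
    have hN : (0 : ℝ) < Fintype.card ι := by
      have := Fintype.card_pos (α := ι)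
      positivity
    have h8 : (Fintype.card ι : ℝ) * (κ * ((Tset ι r).filter (fun j => ¬ Bal δ r j)).card) ≤
        Fintype.card ι * (Tset ι r).card := by
      calc _ = (κ * (Fintype.card ι : ℝ)) * ((Tset ι r).filter (fun j => ¬ Bal δ r j)).card := by
            ring
        _ ≤ (δ ^ 2 * M) * ((Tset ι r).filter (fun j => ¬ Bal δ r j)).card := by gcongr
        _ ≤ _ := h7
    exact le_of_mul_le_mul_left h8 hN
  exact_mod_cast h5

lemma coord_extract (K : Type*) [Field K] [NumberField K] :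
    ∃ c : ℝ, ∀ (x : 𝓞 K) (i : K →+* ℂ),
      ‖(((integralBasis K).reindex (equivReindex K).symm).repr x i : ℂ)‖ ≤
        c * house (algebraMap (𝓞 K) K x) := by
  classical
  exact ⟨_, fun x i => house.basis_repr_norm_le_const_mul_house K x i⟩

/-- Integer coordinates, bounded by the house. -/
lemma exists_coord (K : Type*) [Field K] [NumberField K] :
    ∃ (b : Module.Basis (K →+* ℂ) ℤ (𝓞 K)) (c : ℝ), 1 ≤ c ∧ ∀ (x : 𝓞 K) (i : K →+* ℂ),
      |((b.repr x i : ℤ) : ℝ)| ≤ c * house (algebraMap (𝓞 K) K x) := by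
  classical
  obtain ⟨c, hc⟩ := coord_extract K
  refine ⟨(RingOfIntegers.basis K).reindex (equivReindex K).symm, max 1 c, le_max_left _ _,
    fun x i => ?_⟩
  have h1 := hc x i
  simp only [Module.Basis.repr_reindex, Finsupp.mapDomain_equiv_apply,
        integralBasis_repr_apply, eq_intCast, Rat.cast_intCast,
          Complex.norm_intCast] at h1
  have h2 : c * house (algebraMap (𝓞 K) K x) ≤ max 1 c * house (algebraMap (𝓞 K) K x) := by
    have := house_nonneg (algebraMap (𝓞 K) K x)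
    gcongr
    exact le_max_right _ _
  refine le_trans ?_ h2
  simpa only [Module.Basis.repr_reindex, Finsupp.mapDomain_equiv_apply] using h1

attribute [local instance] Matrix.seminormedAddCommGroup in
/-- Siegel's lemma over the integers. -/
lemma siegelZ {α β : Type*} [Fintype α] [Fintype β] (a : Matrix α β ℤ) (A : ℝ) (hA : 1 ≤ A)
    (ha : ∀ k l, |((a k l : ℤ) : ℝ)| ≤ A) (h2 : 2 * Fintype.card α ≤ Fintype.card β)
    (h0 : 0 < Fintype.card β) : ∃ ξ : β → ℤ, ξ ≠ 0 ∧ Matrix.mulVec a ξ = 0 ∧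
      ∀ l, |((ξ l : ℤ) : ℝ)| ≤ Fintype.card β * A := by
  have hβ1 : (1 : ℝ) ≤ Fintype.card β := by exact_mod_cast h0
  by_cases hα : Fintype.card α = 0
  · have : Nonempty β := Fintype.card_pos_iff.1 h0
    have : IsEmpty α := Fintype.card_eq_zero_iff.1 hα
    refine ⟨fun _ => 1, ?_, Subsingleton.elim _ _, fun l => ?_⟩
    · intro h
      have := congrFun h (Classical.arbitrary β)
      simp at this
    · simp only [Int.cast_one, abs_one]
      nlinarith
  · have hα0 : 0 < Fintype.card α := Nat.pos_of_ne_zero hα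
    obtain ⟨t, ht0, hta, htn⟩ := Int.Matrix.exists_ne_zero_int_vec_norm_le a (by omega) hα0
    refine ⟨t, ht0, hta, fun l => ?_⟩
    have h3 : ‖a‖ ≤ A := by
      rw [Matrix.norm_le_iff (by linarith)]
      intro k l
      rw [Int.norm_eq_abs]
      exact ha k l
    have h4 : max 1 ‖a‖ ≤ A := max_le hA h3
    have h5 : ((Fintype.card α : ℝ) / (Fintype.card β - Fintype.card α)) ≤ 1 := by
      have h6 : (2 : ℝ) * Fintype.card α ≤ Fintype.card β := by exact_mod_cast h2
      have h7 : (0 : ℝ) < Fintype.card α := by exact_mod_cast hα0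
      rw [div_le_one (by linarith)]
      linarith
    have hb1 : (1 : ℝ) ≤ Fintype.card β * max 1 ‖a‖ := by
      have : (1 : ℝ) ≤ max 1 ‖a‖ := le_max_left _ _
      nlinarith
    calc |((t l : ℤ) : ℝ)| = ‖t l‖ := (Int.norm_eq_abs _).symm
      _ ≤ ‖t‖ := norm_le_pi_norm t l
      _ ≤ _ := htn
      _ ≤ (Fintype.card β * max 1 ‖a‖) ^ (1 : ℝ) := Real.rpow_le_rpow_of_exponent_le hb1 h5
      _ = Fintype.card β * max 1 ‖a‖ := Real.rpow_one _
      _ ≤ _ := by gcongr

/-- clearing denominators of a matrix -/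
lemma exists_den {K ι : Type} [Field K] [NumberField K] [Fintype ι] (Ψ : Matrix ι ι K) :
    ∃ (d : 𝓞 K) (Ψ' : Matrix ι ι (𝓞 K)), (algebraMap (𝓞 K) K) d ≠ 0 ∧
      Ψ'.map (algebraMap (𝓞 K) K) = (algebraMap (𝓞 K) K) d • Ψ := by
  obtain ⟨b, hb⟩ := IsLocalization.exist_integer_multiples_of_finite (nonZeroDivisors (𝓞 K))
    (fun q : ι × ι => Ψ q.1 q.2)
  choose Ψ'' hΨ'' using fun q => hb q
  refine ⟨b, Matrix.of fun J J' => Ψ'' (J, J'), ?_, ?_⟩
  · have : (b : 𝓞 K) ≠ 0 := nonZeroDivisors.ne_zero b.2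
    simp
  · ext J J'
    have := hΨ'' (J, J')
    simp only [Algebra.smul_def] at this
    rw [Matrix.map_apply, Matrix.smul_apply, smul_eq_mul, Matrix.of_apply]
    exact this

/-- (P1) Auxiliary polynomials with integer coefficients. -/
theorem auxZ {S : Type} [Fintype S] (K : S → Type) [∀ s, Field (K s)] [∀ s, NumberField (K s)]
    (ι : Type) [Fintype ι] [DecidableEq ι] [Nonempty ι] : AuxZ K ι := by
  classical
  intro δ hδ
  choose bas c hc1 hc using fun s => exists_coord (K s)
  set D : ℕ := ∑ s, Fintype.card (K s →+* ℂ) with hD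
  refine ⟨⌈((2 * D : ℕ) : ℝ) * (Fintype.card ι : ℝ) / δ ^ 2⌉₊, fun M hM hMpos Ψ => ?_⟩
  have hM' : ((2 * D : ℕ) : ℝ) * (Fintype.card ι : ℝ) / δ ^ 2 ≤ M :=
    (Nat.le_ceil _).trans (by exact_mod_cast hM)
  choose d Ψ' hd0 hΨmap using fun s => exists_den (Ψ s)
  set H : ℝ := 1 + ∑ s, ∑ J, ∑ J', house ((Ψ' s J J' : 𝓞 (K s)) : K s) with hH
  have hH1 : 1 ≤ H := by
    have : 0 ≤ ∑ s, ∑ J, ∑ J', house ((Ψ' s J J' : 𝓞 (K s)) : K s) :=
      Finset.sum_nonneg fun s _ => Finset.sum_nonneg fun J _ => Finset.sum_nonneg fun J' _ =>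
        house_nonneg _
    linarith
  have hHle : ∀ s J J', house ((Ψ' s J J' : 𝓞 (K s)) : K s) ≤ H := by
    intro s J J'
    have h1 : house ((Ψ' s J J' : 𝓞 (K s)) : K s) ≤ ∑ J', house ((Ψ' s J J' : 𝓞 (K s)) : K s) :=
      Finset.single_le_sum (f := fun J' => house ((Ψ' s J J' : 𝓞 (K s)) : K s))
        (fun J' _ => house_nonneg _) (Finset.mem_univ J')
    have h2 : ∑ J', house ((Ψ' s J J' : 𝓞 (K s)) : K s) ≤
        ∑ J, ∑ J', house ((Ψ' s J J' : 𝓞 (K s)) : K s) :=
      Finset.single_le_sum (f := fun J => ∑ J', house ((Ψ' s J J' : 𝓞 (K s)) : K s))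
        (fun J _ => Finset.sum_nonneg fun J' _ => house_nonneg _) (Finset.mem_univ J)
    have h3 : ∑ J, ∑ J', house ((Ψ' s J J' : 𝓞 (K s)) : K s) ≤
        ∑ s, ∑ J, ∑ J', house ((Ψ' s J J' : 𝓞 (K s)) : K s) :=
      Finset.single_le_sum (f := fun s => ∑ J, ∑ J', house ((Ψ' s J J' : 𝓞 (K s)) : K s))
        (fun s _ => Finset.sum_nonneg fun J _ => Finset.sum_nonneg fun J' _ => house_nonneg _)
        (Finset.mem_univ s)
    linarith
  set c' : ℝ := 1 + ∑ s, c s with hc'
  have hc'1 : 1 ≤ c' := by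
    have : 0 ≤ ∑ s, c s := Finset.sum_nonneg fun s _ => (zero_le_one.trans (hc1 s))
    linarith
  have hcle : ∀ s, c s ≤ c' := by
    intro s
    have : c s ≤ ∑ s, c s :=
      Finset.single_le_sum (f := c) (fun s _ => (zero_le_one.trans (hc1 s))) (Finset.mem_univ s)
    linarith
  have hN1 : (1 : ℝ) ≤ Fintype.card ι := by
    have := Fintype.card_pos (α := ι)
    exact_mod_cast this
  set NH : ℝ := Fintype.card ι * H with hNH
  have hNH1 : 1 ≤ NH := by nlinarith
  refine ⟨Real.log c' + Fintype.card ι + Real.log NH + 1, ?_, fun r hr => ?_⟩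
  · have := Real.log_nonneg hc'1
    have := Real.log_nonneg hNH1
    positivity
  set T := Tset ι r with hT
  set U := T.filter (fun j => ¬ Bal δ r j) with hU
  have hUcard : 2 * D * U.card ≤ T.card := unbal_card_gen (2 * D) δ hδ hMpos hM' r hr
  have hTpos : 0 < T.card := Finset.card_pos.2 (Tset_nonempty r)
  let toF : (Fin M → ι → ℕ) → (Fin M × ι →₀ ℕ) := fun j =>
    Finsupp.equivFunOnFinite.symm (fun p => j p.1 p.2)
  have toF_apply : ∀ j h J, toF j (h, J) = j h J := fun j h J => rfl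
  have toF_inj : Function.Injective toF := by
    intro j j' hjj
    ext h J
    rw [← toF_apply j h J, hjj, toF_apply]
  have toF_sum : ∀ j ∈ T, ∑ p, toF j p = ∑ h, r h := by
    intro j hj
    rw [Fintype.sum_prod_type]
    refine Finset.sum_congr rfl fun h _ => ?_
    exact mem_Tset.1 hj h
  set A : ℝ := c' * NH ^ (∑ h, r h) with hA
  have hA0 : 1 ≤ NH ^ (∑ h, r h) := one_le_pow₀ hNH1
  have hA1 : 1 ≤ A := by nlinarith
  let a : Matrix (Σ s, (K s →+* ℂ) × U) T ℤ := fun k j =>
    (bas k.1).repr (coeff (toF k.2.2.1) (Mon (Ψ' k.1) (toF j.1))) k.2.1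
  have ha : ∀ k l, |((a k l : ℤ) : ℝ)| ≤ A := by
    rintro ⟨s, i, u⟩ j
    refine (hc s _ i).trans ?_
    rw [hA]
    refine mul_le_mul (hcle s) ?_ (house_nonneg _) (by linarith)
    refine house_le_of _ _ (by linarith) fun φ => ?_
    have h1 : (algebraMap (𝓞 (K s)) (K s)) (coeff (toF u.1) (Mon (Ψ' s) (toF j.1))) =
        coeff (toF u.1) (Mon ((Ψ' s).map (algebraMap (𝓞 (K s)) (K s))) (toF j.1)) := by
      rw [← map_Mon, coeff_map]
    rw [h1]
    refine (Mon_bound φ _ H (fun J J' => ?_) _ _).trans (le_of_eq ?_)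
    · exact (norm_embedding_le_house _ φ).trans (hHle s J J')
    · rw [toF_sum _ j.2]
  have hcard : 2 * Fintype.card (Σ s, (K s →+* ℂ) × U) ≤ Fintype.card T := by
    rw [Fintype.card_sigma]
    simp only [Fintype.card_prod, Fintype.card_coe]
    rw [← Finset.sum_mul, ← mul_assoc]
    exact hUcard
  obtain ⟨ξ, hξ0, hξa, hξh⟩ := siegelZ a A hA1 ha hcard (by simpa only [Fintype.card_coe] using hTpos)
  set P : MvPolynomial (Fin M × ι) ℤ := ∑ j : T, monomial (toF j.1) (ξ j) with hP
  have hPcoeff : ∀ j : T, P.coeff (toF j.1) = ξ j := by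
    intro j
    rw [hP, coeff_sum, Finset.sum_eq_single j]
    · simp
    · intro j' _ hne
      rw [coeff_monomial, if_neg]
      intro h
      exact hne (Subtype.ext (toF_inj h))
    · intro hh; exact absurd (Finset.mem_univ j) hh
  have hPcoeff0 : ∀ d, (∀ j : T, toF j.1 ≠ d) → P.coeff d = 0 := by
    intro d hd
    rw [hP, coeff_sum]
    refine Finset.sum_eq_zero fun j _ => ?_
    rw [coeff_monomial, if_neg (hd j)]
  have hPsupp : ∀ d ∈ P.support, ∃ j : T, toF j.1 = d := by
    intro d hd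
    by_contra hcon
    push Not at hcon
    rw [MvPolynomial.mem_support_iff] at hd
    exact hd (hPcoeff0 d hcon)
  refine ⟨P, ?_, ?_, ?_, ?_⟩
  · intro h0
    apply hξ0
    ext j
    have := hPcoeff j
    rw [h0, coeff_zero] at this
    simpa using this.symm
  · intro e he h
    obtain ⟨j, rfl⟩ := hPsupp e he
    exact mem_Tset.1 j.2 h
  · intro s e he
    have hbind : bind₁ (fun hJ : Fin M × ι => ∑ J' : ι, C (Ψ s hJ.2 J') * X (hJ.1, J'))
        (MvPolynomial.map (Int.castRingHom (K s)) P) =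
        ∑ j : T, C ((ξ j : ℤ) : K s) * Mon (Ψ s) (toF j.1) := by
      rw [hP, map_sum, map_sum]
      refine Finset.sum_congr rfl fun j _ => ?_
      rw [map_monomial]
      exact bind₁_monomial_eq (Ψ s) _ _
    rw [hbind, MvPolynomial.mem_support_iff, coeff_sum] at he
    -- e is block homogeneous
    have heT : ∀ h, ∑ J, e (h, J) = r h := by
      obtain ⟨j, _, hj⟩ := Finset.exists_ne_zero_of_sum_ne_zero he
      rw [coeff_C_mul] at hj
      have hj' : coeff e (Mon (Ψ s) (toF j.1)) ≠ 0 := right_ne_zero_of_mul hj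
      intro h
      rw [coeff_Mon_ne (Ψ s) _ _ hj' h]
      exact mem_Tset.1 j.2 h
    set u : Fin M → ι → ℕ := fun h J => e (h, J) with hu
    have hud : toF u = e := by
      ext ⟨h, J⟩
      exact toF_apply u h J
    have huT : u ∈ T := mem_Tset.2 heT
    by_cases hbal : Bal δ r u
    · exact hbal
    · exfalso
      have huU : u ∈ U := Finset.mem_filter.2 ⟨huT, hbal⟩
      have h2 : ∑ j : T, ((ξ j : ℤ) : 𝓞 (K s)) * coeff (toF u) (Mon (Ψ' s) (toF j.1)) = 0 := by
        apply (bas s).repr.injective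
        rw [map_zero]
        ext i
        have h1 := congrFun hξa ⟨s, i, ⟨u, huU⟩⟩
        simp only [Matrix.mulVec, dotProduct, Pi.zero_apply, a] at h1
        rw [map_sum, Finsupp.coe_finsetSum, Finset.sum_apply, Finsupp.coe_zero, Pi.zero_apply,
          ← h1]
        refine Finset.sum_congr rfl fun j _ => ?_
        rw [← zsmul_eq_mul, map_zsmul, Finsupp.smul_apply, zsmul_eq_mul, mul_comm]
        rfl
      have h3 := congrArg (algebraMap (𝓞 (K s)) (K s)) h2
      rw [map_sum, map_zero] at h3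
      have h4 : ∀ j : T, algebraMap (𝓞 (K s)) (K s)
          (((ξ j : ℤ) : 𝓞 (K s)) * coeff (toF u) (Mon (Ψ' s) (toF j.1))) =
          (algebraMap (𝓞 (K s)) (K s) (d s)) ^ (∑ h, r h) *
            coeff e (C ((ξ j : ℤ) : K s) * Mon (Ψ s) (toF j.1)) := by
        intro j
        rw [map_mul]
        have h5 : (algebraMap (𝓞 (K s)) (K s)) (coeff (toF u) (Mon (Ψ' s) (toF j.1))) =
            coeff (toF u) (Mon ((Ψ' s).map (algebraMap (𝓞 (K s)) (K s))) (toF j.1)) := by
          rw [← map_Mon, coeff_map]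
        rw [h5, hΨmap, Mon_smul, coeff_C_mul, coeff_C_mul, hud, toF_sum _ j.2, map_intCast]
        ring
      rw [Finset.sum_congr rfl (fun j _ => h4 j), ← Finset.mul_sum] at h3
      rcases mul_eq_zero.1 h3 with h5 | h5
      · exact hd0 s (eq_zero_of_pow_eq_zero h5)
      · exact he h5
  · intro e
    by_cases he : ∃ j : T, toF j.1 = e
    · obtain ⟨j, rfl⟩ := he
      rw [hPcoeff]
      refine (hξh j).trans ?_
      have hs1 : (1 : ℝ) ≤ ∑ h, (r h : ℝ) := by
        have h5 : (1 : ℝ) ≤ r ⟨0, hMpos⟩ := by exact_mod_cast hr _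
        have h6 : (r ⟨0, hMpos⟩ : ℝ) ≤ ∑ h, (r h : ℝ) :=
          Finset.single_le_sum (f := fun h => (r h : ℝ)) (fun _ _ => Nat.cast_nonneg _)
            (Finset.mem_univ _)
        linarith
      set s : ℝ := ∑ h, (r h : ℝ) with hs
      have hc0 : 0 < c' := by linarith
      have hNH0 : 0 < NH := by linarith
      have e1 : c' ≤ Real.exp (Real.log c' * s) := by
        calc c' = Real.exp (Real.log c' * 1) := by rw [mul_one, Real.exp_log hc0]
          _ ≤ _ := by
            have := Real.log_nonneg hc'1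
            gcongr
      have e2 : (Fintype.card T : ℝ) ≤ Real.exp (Fintype.card ι * s) := by
        rw [Fintype.card_coe]
        exact card_Tset_le r
      have e3 : NH ^ (∑ h, r h) = Real.exp (Real.log NH * s) := by
        rw [hs, ← Nat.cast_sum, mul_comm, Real.exp_nat_mul, Real.exp_log hNH0]
      calc (Fintype.card T : ℝ) * A
          ≤ Real.exp (Fintype.card ι * s) * (Real.exp (Real.log c' * s) *
            Real.exp (Real.log NH * s)) := by
            rw [hA, e3]
            gcongr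
        _ = Real.exp ((Real.log c' + Fintype.card ι + Real.log NH) * s) := by
            rw [← Real.exp_add, ← Real.exp_add]
            congr 1
            ring
        _ ≤ _ := by
            apply Real.exp_le_exp.2
            nlinarith
    · push Not at he
      rw [hPcoeff0 e he]
      simp only [Int.cast_zero, abs_zero]
      exact (Real.exp_pos _).le

end Pool.Agent.SST
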