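import Pool.Agent.SST.KDefs
import Mathlib.NumberTheory.NumberField.Discriminant.Basic
import Mathlib.RingTheory.FractionalIdeal.Norm

/-! K8: every binary quadratic form over a number field is proportional to a balanced one. -/

open NumberField Module mixedEmbedding MeasureTheory ZSpan
open scoped nonZeroDivisors NNReal ENNReal

namespace Pool.Agent.SST

variable (k : Type) [Field k] [NumberField k]

open scoped Classical in
/-- Minkowski's theorem for fractional ideals -/
theorem balancedK_mink : ∃ C : ℝ≥0, 1 ≤ C ∧ ∀ (I : (FractionalIdeal (𝓞 k)⁰ k)ˣ)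
    (s : InfinitePlace k → ℝ≥0), (∀ w, s w ≠ 0) →
    ENNReal.ofReal (FractionalIdeal.absNorm I.1 : ℝ) =
      ((∏ w, (s w) ^ (InfinitePlace.mult w) : ℝ≥0) : ℝ≥0∞) →
    ∃ a ∈ (I : FractionalIdeal (𝓞 k)⁰ k), a ≠ 0 ∧
      ∀ w : InfinitePlace k, w a < ((C * s w : ℝ≥0) : ℝ) := by
  have hM : volume (fundamentalDomain (latticeBasis k)) *
      (2 : ℝ≥0∞) ^ (finrank ℝ (mixedSpace k)) < ⊤ :=
    ENNReal.mul_lt_top (fundamentalDomain_isBounded _).measure_lt_top <|
      ENNReal.pow_lt_top ENNReal.ofNat_lt_top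
  set M : ℝ≥0∞ := volume (fundamentalDomain (latticeBasis k)) *
      (2 : ℝ≥0∞) ^ (finrank ℝ (mixedSpace k)) with hMdef
  refine ⟨M.toNNReal + 1, by simp, fun I s hs h => ?_⟩
  refine exists_ne_zero_mem_ideal_lt k (f := fun w => (M.toNNReal + 1) * s w) I ?_
  rw [convexBodyLT_volume, minkowskiBound, volume_fundamentalDomain_fractionalIdealLatticeBasis,
    mul_assoc, ← hMdef, h]
  have h1 : ∏ w, ((M.toNNReal + 1) * s w) ^ (InfinitePlace.mult w) =
      (M.toNNReal + 1) ^ finrank ℚ k * ∏ w, (s w) ^ (InfinitePlace.mult w) := by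
    rw [← InfinitePlace.sum_mult_eq, ← Finset.prod_pow_eq_pow_sum, ← Finset.prod_mul_distrib]
    refine Finset.prod_congr rfl fun w _ => ?_
    rw [mul_pow]
  rw [h1]
  have h2 : M = ((M.toNNReal : ℝ≥0) : ℝ≥0∞) := (ENNReal.coe_toNNReal hM.ne).symm
  conv_lhs => rw [h2]
  rw [← ENNReal.coe_mul, ← ENNReal.coe_mul, ENNReal.coe_lt_coe]
  have h3 : (0 : ℝ≥0) < ∏ w, (s w) ^ (InfinitePlace.mult w) :=
    Finset.prod_pos fun w _ => pow_pos (pos_iff_ne_zero.2 (hs w)) _
  have h4 : M.toNNReal < (M.toNNReal + 1) ^ finrank ℚ k := by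
    refine lt_of_lt_of_le (lt_add_one _) ?_
    exact le_self_pow₀ (by simp) (finrank_pos (R := ℚ) (M := k)).ne'
  calc (∏ w, (s w) ^ (InfinitePlace.mult w)) * M.toNNReal
      < (∏ w, (s w) ^ (InfinitePlace.mult w)) * (M.toNNReal + 1) ^ finrank ℚ k :=
        mul_lt_mul_of_pos_left h4 h3
    _ = 1 * ((M.toNNReal + 1) ^ finrank ℚ k * ∏ w, (s w) ^ (InfinitePlace.mult w)) := by ring
    _ ≤ _ := mul_le_mul_of_nonneg_right (one_le_convexBodyLTFactor k) (by positivity)

variable {k}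

/-- the ideal of the coefficients of `c f` -/
theorem balancedK_content (c : k) (f g : Fin 3 → 𝓞 k) (hfg : ∀ i, (g i : k) = c * f i) :
    ((contentK g : Ideal (𝓞 k)) : FractionalIdeal (𝓞 k)⁰ k) =
      FractionalIdeal.spanSingleton (𝓞 k)⁰ c *
        ((contentK f : Ideal (𝓞 k)) : FractionalIdeal (𝓞 k)⁰ k) := by
  apply FractionalIdeal.coeToSubmodule_injective
  beta_reduce
  rw [FractionalIdeal.coe_mul, FractionalIdeal.coe_spanSingleton, FractionalIdeal.coe_coeIdeal,
    FractionalIdeal.coe_coeIdeal]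
  unfold contentK
  rw [IsLocalization.coeSubmodule_span, IsLocalization.coeSubmodule_span, Submodule.span_mul_span]
  congr 1
  rw [Set.singleton_mul]
  ext z
  simp only [Set.mem_image, Set.mem_range, exists_exists_eq_and]
  constructor
  · rintro ⟨i, rfl⟩
    exact ⟨i, (hfg i).symm⟩
  · rintro ⟨i, rfl⟩
    exact ⟨i, hfg i⟩

theorem balancedK_norm (c : k) (f g : Fin 3 → 𝓞 k) (hfg : ∀ i, (g i : k) = c * f i) :
    (Ideal.absNorm (contentK g) : ℝ) = |((Algebra.norm ℚ c : ℚ) : ℝ)| *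
      Ideal.absNorm (contentK f) := by
  have h := congrArg FractionalIdeal.absNorm (balancedK_content c f g hfg)
  rw [map_mul, FractionalIdeal.coeIdeal_absNorm, FractionalIdeal.coeIdeal_absNorm,
    FractionalIdeal.absNorm_span_singleton] at h
  have h' : ((Ideal.absNorm (contentK g) : ℚ) : ℝ) =
      ((|(Algebra.norm ℚ c)| * (Ideal.absNorm (contentK f) : ℚ) : ℚ) : ℝ) := by rw [h]
  push_cast at h'
  exact_mod_cast h'

/-- size of a form at an infinite place -/
noncomputable def balancedK_S (f : Fin 3 → 𝓞 k) (w : InfinitePlace k) : ℝ :=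
  max (w (f 0 : k)) (max (w (f 1 : k)) (w (f 2 : k)))

omit [NumberField k] in
theorem balancedK_nfA (f : Fin 3 → 𝓞 k) (ρ : k →+* ℂ) :
    nfA ρ f = balancedK_S f (InfinitePlace.mk ρ) := by
  unfold nfA balancedK_S
  simp only [InfinitePlace.apply]

omit [NumberField k] in
theorem balancedK_S_pos {f : Fin 3 → 𝓞 k} (hf : f ≠ 0) (w : InfinitePlace k) :
    0 < balancedK_S f w := by
  by_contra h
  apply hf
  have h1 : ∀ i, f i = 0 := by
    have h2 : balancedK_S f w ≤ 0 := not_lt.1 h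
    unfold balancedK_S at h2
    rw [max_le_iff, max_le_iff] at h2
    have h3 : ∀ z : 𝓞 k, w (z : k) ≤ 0 → z = 0 := by
      intro z hz
      by_contra hne
      have : (0 : ℝ) < w (z : k) := InfinitePlace.pos_iff.2 (by simpa using hne)
      linarith
    intro i
    fin_cases i
    · exact h3 _ h2.1
    · exact h3 _ h2.2.1
    · exact h3 _ h2.2.2
  exact funext h1

omit [NumberField k] in
theorem balancedK_S_mul (c : k) (f g : Fin 3 → 𝓞 k) (hfg : ∀ i, (g i : k) = c * f i)
    (w : InfinitePlace k) : balancedK_S g w = w c * balancedK_S f w := by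
  unfold balancedK_S
  rw [hfg, hfg, hfg, map_mul, map_mul, map_mul, mul_max_of_nonneg _ _ (apply_nonneg w c),
    mul_max_of_nonneg _ _ (apply_nonneg w c)]

variable (k)

/-- **K8.** -/
theorem exists_balanced : ∃ B : ℝ, 1 ≤ B ∧ ∀ f : Fin 3 → 𝓞 k, f ≠ 0 →
    ∃ (c : k) (g : Fin 3 → 𝓞 k), c ≠ 0 ∧ (∀ i, (g i : k) = c * f i) ∧
      (Ideal.absNorm (contentK g) : ℝ) ≤ B ∧
      ∀ ρ ρ' : k →+* ℂ, nfA ρ g ≤ B * nfA ρ' g := by
  classical
  obtain ⟨C, hC1, hC⟩ := balancedK_mink k
  have hd0 : finrank ℚ k ≠ 0 := (finrank_pos (R := ℚ) (M := k)).ne'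
  have hC1' : (1 : ℝ) ≤ C := by exact_mod_cast hC1
  have hC0 : (0 : ℝ) < C := by linarith
  refine ⟨(C : ℝ) ^ finrank ℚ k, one_le_pow₀ hC1', fun f hf => ?_⟩
  have hI0 : contentK f ≠ ⊥ := by
    intro h
    apply hf
    funext i
    have : f i ∈ contentK f := Ideal.subset_span ⟨i, rfl⟩
    rw [h] at this
    exact this
  have hN : 0 < (Ideal.absNorm (contentK f) : ℝ) := by
    have : Ideal.absNorm (contentK f) ≠ 0 := fun h => hI0 (Ideal.absNorm_eq_zero_iff.1 h)
    exact_mod_cast Nat.pos_of_ne_zero this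
  set N := (Ideal.absNorm (contentK f) : ℝ) with hNdef
  have hS := balancedK_S_pos hf
  set P := ∏ w : InfinitePlace k, balancedK_S f w ^ (InfinitePlace.mult w) with hPdef
  have hP : 0 < P := Finset.prod_pos fun w _ => pow_pos (hS w) _
  obtain ⟨t, ht, htd⟩ : ∃ t : ℝ, 0 < t ∧ t ^ finrank ℚ k = P / N :=
    ⟨(P / N) ^ ((finrank ℚ k : ℝ)⁻¹), Real.rpow_pos_of_pos (div_pos hP hN) _,
      Real.rpow_inv_natCast_pow (div_pos hP hN).le hd0⟩
  have hI0' : ((contentK f : Ideal (𝓞 k)) : FractionalIdeal (𝓞 k)⁰ k) ≠ 0 :=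
    FractionalIdeal.coeIdeal_ne_zero.2 hI0
  have hprodpow : ∀ x : ℝ, ∏ w : InfinitePlace k, x ^ (InfinitePlace.mult w) =
      x ^ finrank ℚ k := by
    intro x
    rw [Finset.prod_pow_eq_pow_sum, InfinitePlace.sum_mult_eq]
  obtain ⟨c, hcI, hc0, hcw⟩ := hC (Units.mk0 _ hI0')⁻¹
    (fun w => ⟨t / balancedK_S f w, (div_pos ht (hS w)).le⟩)
    (fun w h => (div_pos ht (hS w)).ne' (congrArg NNReal.toReal h)) (by
      have e1 : (FractionalIdeal.absNorm ((Units.mk0 _ hI0')⁻¹ : (FractionalIdeal (𝓞 k)⁰ k)ˣ).1 :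
          ℝ) = 1 / N := by
        rw [Units.val_inv_eq_inv_val, Units.val_mk0, map_inv₀, FractionalIdeal.coeIdeal_absNorm]
        push_cast
        rw [hNdef, one_div]
      rw [e1, ENNReal.ofReal_eq_coe_nnreal (by positivity), ENNReal.coe_inj]
      apply NNReal.eq
      push_cast
      change 1 / N = ∏ w : InfinitePlace k, (t / balancedK_S f w) ^ (InfinitePlace.mult w)
      simp_rw [div_pow]
      rw [Finset.prod_div_distrib, hprodpow, htd, ← hPdef]
      field_simp)
  have hmem : ∀ i, ∃ z : 𝓞 k, (z : k) = c * f i := by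
    intro i
    have h1 : (f i : k) ∈ ((contentK f : Ideal (𝓞 k)) : FractionalIdeal (𝓞 k)⁰ k) := by
      rw [FractionalIdeal.mem_coeIdeal]
      exact ⟨f i, Ideal.subset_span ⟨i, rfl⟩, rfl⟩
    have h2 := FractionalIdeal.mul_mem_mul hcI h1
    rw [Units.val_inv_eq_inv_val, Units.val_mk0, inv_mul_cancel₀ hI0',
      FractionalIdeal.mem_one_iff] at h2
    exact h2
  choose g hg using hmem
  have hg0 : g ≠ 0 := by
    intro h
    apply hf
    funext i
    have h1 := hg i
    rw [h] at h1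
    have h2 : c * (f i : k) = 0 := by rw [← h1]; simp
    have h3 := (mul_eq_zero.1 h2).resolve_left hc0
    exact_mod_cast h3
  have hGI0 : contentK g ≠ ⊥ := by
    intro h
    apply hg0
    funext i
    have : g i ∈ contentK g := Ideal.subset_span ⟨i, rfl⟩
    rw [h] at this
    exact this
  have hNg : 1 ≤ (Ideal.absNorm (contentK g) : ℝ) := by
    have : Ideal.absNorm (contentK g) ≠ 0 := fun h => hGI0 (Ideal.absNorm_eq_zero_iff.1 h)
    exact_mod_cast Nat.one_le_iff_ne_zero.2 this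
  set Ng := (Ideal.absNorm (contentK g) : ℝ) with hNgdef
  have hG := balancedK_S_pos hg0
  have hGS := balancedK_S_mul c f g hg
  -- normalised sizes
  have hx1 : ∀ w, balancedK_S g w / (C * t) ≤ 1 := by
    intro w
    rw [div_le_one (by positivity), hGS w]
    have h1 : w c ≤ C * (t / balancedK_S f w) := (hcw w).le
    calc w c * balancedK_S f w ≤ C * (t / balancedK_S f w) * balancedK_S f w :=
          mul_le_mul_of_nonneg_right h1 (hS w).le
      _ = C * t := by
          field_simp [(hS w).ne']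
  have hx0 : ∀ w, 0 ≤ balancedK_S g w / (C * t) := fun w => (div_pos (hG w) (by positivity)).le
  have hprod : ∏ w : InfinitePlace k, (balancedK_S g w / (C * t)) ^ (InfinitePlace.mult w) =
      Ng / (C : ℝ) ^ finrank ℚ k := by
    simp_rw [div_pow, Finset.prod_div_distrib]
    rw [hprodpow, mul_pow, htd]
    have e1 : ∏ w : InfinitePlace k, balancedK_S g w ^ (InfinitePlace.mult w) =
        |((Algebra.norm ℚ c : ℚ) : ℝ)| * P := by
      simp_rw [hGS, mul_pow]
      rw [Finset.prod_mul_distrib, InfinitePlace.prod_eq_abs_norm]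
      push_cast
      rfl
    rw [e1, hNgdef, balancedK_norm c f g hg, ← hNdef]
    field_simp
  have hle : ∀ w0, Ng / (C : ℝ) ^ finrank ℚ k ≤ balancedK_S g w0 / (C * t) := by
    intro w0
    rw [← hprod, ← Finset.mul_prod_erase _ _ (Finset.mem_univ w0)]
    have h1 : ∏ w ∈ Finset.univ.erase w0, (balancedK_S g w / (C * t)) ^ (InfinitePlace.mult w) ≤
        1 := Finset.prod_le_one (fun w _ => pow_nonneg (hx0 w) _)
          fun w _ => pow_le_one₀ (hx0 w) (hx1 w)
    have h2 : (balancedK_S g w0 / (C * t)) ^ (InfinitePlace.mult w0) ≤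
        balancedK_S g w0 / (C * t) :=
      pow_le_of_le_one (hx0 w0) (hx1 w0) InfinitePlace.mult_ne_zero
    calc (balancedK_S g w0 / (C * t)) ^ (InfinitePlace.mult w0) *
          ∏ w ∈ Finset.univ.erase w0, (balancedK_S g w / (C * t)) ^ (InfinitePlace.mult w)
        ≤ (balancedK_S g w0 / (C * t)) ^ (InfinitePlace.mult w0) * 1 :=
          mul_le_mul_of_nonneg_left h1 (pow_nonneg (hx0 w0) _)
      _ ≤ _ := by rw [mul_one]; exact h2
  refine ⟨c, g, hc0, hg, ?_, fun ρ ρ' => ?_⟩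
  · have w0 : InfinitePlace k := Classical.arbitrary _
    have h1 := (hle w0).trans (hx1 w0)
    rwa [div_le_one (by positivity)] at h1
  · rw [balancedK_nfA, balancedK_nfA]
    have h1 := hx1 (InfinitePlace.mk ρ)
    rw [div_le_one (by positivity)] at h1
    have h2 := hle (InfinitePlace.mk ρ')
    have h3 : 1 / (C : ℝ) ^ finrank ℚ k ≤ balancedK_S g (InfinitePlace.mk ρ') / (C * t) :=
      (div_le_div_of_nonneg_right hNg (by positivity)).trans h2
    rw [div_le_div_iff₀ (by positivity) (by positivity), one_mul] at h3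
    calc balancedK_S g (InfinitePlace.mk ρ) ≤ C * t := h1
      _ ≤ balancedK_S g (InfinitePlace.mk ρ') * (C : ℝ) ^ finrank ℚ k := h3
      _ = _ := mul_comm _ _

end Pool.Agent.SST
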