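import Pool.Agent.SST.ProxS

/-! The two best points, in a normed field. -/

namespace Pool.Agent.SST

open scoped BigOperators

section

variable {A : Type} [NormedField A]

lemma evR_sum (f : Fin 3 → ℤ) (α : OnePoint A) : ∑ j, evR α j * (f j : A) = evK f α := by
  rcases α with _ | z
  · change ∑ j, (![1, 0, 0] : Fin 3 → A) j * (f j : A) = (f 0 : A)
    simp [Fin.sum_univ_three]
  · change ∑ j, (![z ^ 2, z, 1] : Fin 3 → A) j * (f j : A) =
      (f 0 : A) * z ^ 2 + (f 1 : A) * z + (f 2 : A)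
    simp [Fin.sum_univ_three]
    ring

/-- three values determine the form -/
lemma three_pointsA {α β γ : OnePoint A} (h1 : α ≠ β) (h2 : α ≠ γ) (h3 : β ≠ γ) :
    ∃ C : ℝ, 0 < C ∧ ∀ f : Fin 3 → ℤ, nf A f ≤
      C * max ‖evK f α‖ (max ‖evK f β‖ ‖evK f γ‖) := by
  classical
  let V : Matrix (Fin 3) (Fin 3) A := Matrix.of ![evR α, evR β, evR γ]
  have hdet : V.det ≠ 0 := by
    rw [Matrix.det_fin_three]
    rcases α with _ | a <;> rcases β with _ | b <;> rcases γ with _ | c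
    · exact absurd rfl h1
    · exact absurd rfl h1
    · exact absurd rfl h2
    · have hbc : b ≠ c := fun h => h3 (by rw [h])
      change ((1 : A) * b * 1 - 1 * 1 * c - 0 * b ^ 2 * 1 + 0 * 1 * c ^ 2 + 0 * b ^ 2 * c -
        0 * b * c ^ 2) ≠ 0
      intro h
      apply hbc
      linear_combination h
    · exact absurd rfl h3
    · have hac : a ≠ c := fun h => h2 (by rw [h])
      change (a ^ 2 * 0 * 1 - a ^ 2 * 0 * c - a * 1 * 1 + a * 0 * c ^ 2 + 1 * 1 * c -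
        1 * 0 * c ^ 2) ≠ 0
      intro h
      apply hac
      linear_combination -h
    · have hab : a ≠ b := fun h => h1 (by rw [h])
      change (a ^ 2 * b * 0 - a ^ 2 * 1 * 0 - a * b ^ 2 * 0 + a * 1 * 1 + 1 * b ^ 2 * 0 -
        1 * b * 1) ≠ 0
      intro h
      apply hab
      linear_combination h
    · have hab : a ≠ b := fun h => h1 (by rw [h])
      have hac : a ≠ c := fun h => h2 (by rw [h])
      have hbc : b ≠ c := fun h => h3 (by rw [h])
      change (a ^ 2 * b * 1 - a ^ 2 * 1 * c - a * b ^ 2 * 1 + a * 1 * c ^ 2 + 1 * b ^ 2 * c -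
        1 * b * c ^ 2) ≠ 0
      have : (a ^ 2 * b * 1 - a ^ 2 * 1 * c - a * b ^ 2 * 1 + a * 1 * c ^ 2 + 1 * b ^ 2 * c -
        1 * b * c ^ 2) = (a - b) * (a - c) * (b - c) := by ring
      rw [this]
      exact mul_ne_zero (mul_ne_zero (sub_ne_zero.mpr hab) (sub_ne_zero.mpr hac))
        (sub_ne_zero.mpr hbc)
  refine ⟨1 + ∑ i, ∑ j, ‖V⁻¹ i j‖, by positivity, fun f => ?_⟩
  set m := max ‖evK f α‖ (max ‖evK f β‖ ‖evK f γ‖) with hm
  have hm0 : 0 ≤ m := (norm_nonneg (evK f α)).trans (le_max_left _ _)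
  have hV : ∀ i, ‖V.mulVec (fun j => (f j : A)) i‖ ≤ m := by
    intro i
    fin_cases i
    · have : V.mulVec (fun j => (f j : A)) 0 = evK f α := evR_sum f α
      change ‖V.mulVec (fun j => (f j : A)) 0‖ ≤ m
      rw [this]
      exact le_max_left _ _
    · have : V.mulVec (fun j => (f j : A)) 1 = evK f β := evR_sum f β
      change ‖V.mulVec (fun j => (f j : A)) 1‖ ≤ m
      rw [this]
      exact (le_max_left _ _).trans (le_max_right _ _)
    · have : V.mulVec (fun j => (f j : A)) 2 = evK f γ := evR_sum f γ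
      change ‖V.mulVec (fun j => (f j : A)) 2‖ ≤ m
      rw [this]
      exact (le_max_right _ _).trans (le_max_right _ _)
  have hf : ∀ i, ‖(f i : A)‖ ≤ (1 + ∑ i, ∑ j, ‖V⁻¹ i j‖) * m := by
    intro i
    have h1 : V⁻¹.mulVec (V.mulVec (fun j => (f j : A))) = fun j => (f j : A) := by
      rw [Matrix.mulVec_mulVec, Matrix.nonsing_inv_mul V (isUnit_iff_ne_zero.mpr hdet),
        Matrix.one_mulVec]
    have h2 : (f i : A) = ∑ j, V⁻¹ i j * V.mulVec (fun j => (f j : A)) j := by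
      have := congrFun h1 i
      exact this.symm
    rw [h2]
    calc ‖∑ j, V⁻¹ i j * V.mulVec (fun j => (f j : A)) j‖ ≤ ∑ j, ‖V⁻¹ i j‖ * m := by
          refine (norm_sum_le _ _).trans (Finset.sum_le_sum fun j _ => ?_)
          rw [norm_mul]
          exact mul_le_mul_of_nonneg_left (hV j) (norm_nonneg _)
      _ = (∑ j, ‖V⁻¹ i j‖) * m := by rw [Finset.sum_mul]
      _ ≤ (1 + ∑ i, ∑ j, ‖V⁻¹ i j‖) * m := by
          refine mul_le_mul_of_nonneg_right ?_ hm0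
          have : ∑ j, ‖V⁻¹ i j‖ ≤ ∑ i, ∑ j, ‖V⁻¹ i j‖ :=
            Finset.single_le_sum (f := fun i => ∑ j, ‖V⁻¹ i j‖)
              (fun i _ => Finset.sum_nonneg fun j _ => norm_nonneg _) (Finset.mem_univ i)
          linarith
  rw [nf]
  exact max_le (hf 0) (max_le (hf 1) (hf 2))

/-- the two best points among the images of a finite set -/
lemma best_twoA {B : Type} (D : Finset B) (j : B → OnePoint A) (hj : Function.Injective j)
    (α₀ β₀ : B) (hα₀ : α₀ ∈ D) (hβ₀ : β₀ ∈ D)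
    (hne : α₀ ≠ β₀) : ∃ C : ℝ, ∀ f : Fin 3 → ℤ, 0 < nf A f → (∀ γ ∈ D, evK f (j γ) ≠ 0) →
      ∃ α ∈ D, ∃ β ∈ D, α ≠ β ∧ ∑ γ ∈ D, (Real.log (nf A f) - Real.log ‖evK f (j γ)‖) ≤
        C + (2 * Real.log (nf A f) - Real.log ‖evK f (j α)‖ - Real.log ‖evK f (j β)‖) := by
  classical
  have htri : ∀ t : B × B × B, ∃ C : ℝ, 1 ≤ C ∧
      (t.1 ≠ t.2.1 → t.1 ≠ t.2.2 → t.2.1 ≠ t.2.2 → ∀ f : Fin 3 → ℤ, nf A f ≤
      C * max ‖evK f (j t.1)‖ (max ‖evK f (j t.2.1)‖ ‖evK f (j t.2.2)‖)) := by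
    rintro ⟨a, b, c⟩
    by_cases h : a ≠ b ∧ a ≠ c ∧ b ≠ c
    · obtain ⟨C, hC, hC'⟩ := three_pointsA (hj.ne h.1) (hj.ne h.2.1) (hj.ne h.2.2)
      refine ⟨max 1 C, le_max_left _ _, fun _ _ _ f => (hC' f).trans ?_⟩
      refine mul_le_mul_of_nonneg_right (le_max_right _ _) ?_
      exact (norm_nonneg (evK f (j a))).trans (le_max_left _ _)
    · refine ⟨1, le_rfl, fun h1 h2 h3 => absurd ⟨h1, h2, h3⟩ h⟩
  choose Ct hCt1 hCt using htri
  set Cm : ℝ := ∑ t ∈ D ×ˢ D ×ˢ D, Ct t with hCm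
  have hCle : ∀ t ∈ D ×ˢ D ×ˢ D, Ct t ≤ Cm := fun t ht =>
    Finset.single_le_sum (f := Ct) (fun t _ => by linarith [hCt1 t]) ht
  have hCm1 : 1 ≤ Cm := (hCt1 (α₀, α₀, α₀)).trans (hCle _ (by simp [hα₀]))
  refine ⟨D.card * Real.log Cm, fun f hf1 hf => ?_⟩
  obtain ⟨α, hα, hαmin⟩ := D.exists_min_image (fun γ => ‖evK f (j γ)‖) ⟨α₀, hα₀⟩
  have hDe : (D.erase α).Nonempty := by
    by_cases h : α₀ = α
    · exact ⟨β₀, Finset.mem_erase.mpr ⟨fun h2 => hne (h.trans h2.symm), hβ₀⟩⟩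
    · exact ⟨α₀, Finset.mem_erase.mpr ⟨h, hα₀⟩⟩
  obtain ⟨β, hβ, hβmin⟩ := (D.erase α).exists_min_image (fun γ => ‖evK f (j γ)‖) hDe
  have hβD := Finset.mem_of_mem_erase hβ
  have hβα := Finset.ne_of_mem_erase hβ
  refine ⟨α, hα, β, hβD, hβα.symm, ?_⟩
  rw [← Finset.add_sum_erase D _ hα, ← Finset.add_sum_erase (D.erase α) _ hβ]
  have hrest : ∑ γ ∈ (D.erase α).erase β, (Real.log (nf A f) - Real.log ‖evK f (j γ)‖) ≤
      D.card * Real.log Cm := by
    have h1 : ∀ γ ∈ (D.erase α).erase β, Real.log (nf A f) - Real.log ‖evK f (j γ)‖ ≤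
        Real.log Cm := by
      intro γ hγ
      have hγβ := Finset.ne_of_mem_erase hγ
      have hγe := Finset.mem_of_mem_erase hγ
      have hγα := Finset.ne_of_mem_erase hγe
      have hγD := Finset.mem_of_mem_erase hγe
      have h2 := hCt (α, β, γ) hβα.symm hγα.symm hγβ.symm f
      have h3 : max ‖evK f (j α)‖ (max ‖evK f (j β)‖ ‖evK f (j γ)‖) = ‖evK f (j γ)‖ := by
        rw [max_eq_right (hβmin γ hγe)]
        exact max_eq_right (hαmin γ hγD)
      simp only at h2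
      rw [h3] at h2
      have h4 : nf A f ≤ Cm * ‖evK f (j γ)‖ := h2.trans
        (mul_le_mul_of_nonneg_right (hCle _ (by simp [hα, hβD, hγD])) (norm_nonneg _))
      have h5 : 0 < ‖evK f (j γ)‖ := norm_pos_iff.mpr (hf γ hγD)
      have h6 := Real.log_le_log hf1 h4
      rw [Real.log_mul (by linarith) h5.ne'] at h6
      linarith
    refine (Finset.sum_le_card_nsmul _ _ _ h1).trans ?_
    rw [nsmul_eq_mul]
    refine mul_le_mul_of_nonneg_right ?_ (Real.log_nonneg hCm1)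
    exact_mod_cast (Finset.card_erase_le.trans Finset.card_erase_le)
  linarith

end

end Pool.Agent.SST
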