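import Pool.Agent.SST.SpecDefs

/-! Weighted `ℓ¹`-norms for an absolute value, and size estimates. -/

set_option autoImplicit false

open MvPolynomial

namespace Pool.Agent.SST

open Pool.Agent.DD7719

section WA

variable {U : Type*} [Fintype U] {K : Type*} [Field K]

/-- The weighted `ℓ¹`-norm of a polynomial at an absolute value. -/
noncomputable def wa (v : AbsoluteValue K ℝ) (ρ : U → ℝ) (F : MvPolynomial U K) : ℝ :=
  ∑ κ ∈ F.support, v (F.coeff κ) * wmon ρ κ

variable {ρ : U → ℝ} (hρ : ∀ u, 0 ≤ ρ u) (v : AbsoluteValue K ℝ)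

include hρ

lemma wa_nonneg (F : MvPolynomial U K) : 0 ≤ wa v ρ F :=
  Finset.sum_nonneg fun _ _ => mul_nonneg (v.nonneg _) (wmon_nonneg hρ _)

omit hρ in
lemma wa_eq_sum (F : MvPolynomial U K) (s : Finset (U →₀ ℕ))
    (hs : F.support ⊆ s) : wa v ρ F = ∑ i ∈ s, v (F.coeff i) * wmon ρ i := by
  refine Finset.sum_subset hs fun i _ hi => ?_
  rw [notMem_support_iff.mp hi, map_zero, zero_mul]

omit hρ in
lemma wa_zero : wa v ρ (0 : MvPolynomial U K) = 0 := by
  simp [wa]

lemma wa_add (F G : MvPolynomial U K) : wa v ρ (F + G) ≤ wa v ρ F + wa v ρ G := by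
  classical
  rw [wa_eq_sum v (F + G) (F.support ∪ G.support) support_add,
    wa_eq_sum v F (F.support ∪ G.support) Finset.subset_union_left,
    wa_eq_sum v G (F.support ∪ G.support) Finset.subset_union_right, ← Finset.sum_add_distrib]
  refine Finset.sum_le_sum fun i _ => ?_
  rw [coeff_add, ← add_mul]
  exact mul_le_mul_of_nonneg_right (v.add_le _ _) (wmon_nonneg hρ _)

lemma wa_sum {ι : Type*} (s : Finset ι) (F : ι → MvPolynomial U K) :
    wa v ρ (∑ a ∈ s, F a) ≤ ∑ a ∈ s, wa v ρ (F a) := by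
  classical
  induction s using Finset.induction_on with
  | empty => simp [wa_zero]
  | insert a s ha ih =>
    rw [Finset.sum_insert ha, Finset.sum_insert ha]
    exact (wa_add hρ v _ _).trans (by linarith)

omit hρ in
lemma wa_monomial_mul (i : U →₀ ℕ) (a : K) (G : MvPolynomial U K) :
    wa v ρ (monomial i a * G) ≤ v a * wmon ρ i * wa v ρ G := by
  classical
  have h1 : (monomial i a * G).support ⊆ G.support.map (addLeftEmbedding i) := by
    intro j hj
    rw [mem_support_iff, coeff_monomial_mul'] at hj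
    have h2 : i ≤ j := by
      by_contra h
      exact hj (if_neg h)
    rw [if_pos h2] at hj
    rw [Finset.mem_map]
    exact ⟨j - i, mem_support_iff.mpr (right_ne_zero_of_mul hj), by
      simp [add_tsub_cancel_of_le h2]⟩
  rw [wa_eq_sum v _ _ h1, Finset.sum_map, wa, Finset.mul_sum]
  refine Finset.sum_le_sum fun j _ => ?_
  simp only [addLeftEmbedding_apply]
  rw [coeff_monomial_mul, map_mul, wmon_add]
  exact le_of_eq (by ring)

lemma wa_mul (F G : MvPolynomial U K) : wa v ρ (F * G) ≤ wa v ρ F * wa v ρ G := by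
  classical
  have h1 : F * G = ∑ i ∈ F.support, monomial i (F.coeff i) * G := by
    rw [← Finset.sum_mul, support_sum_monomial_coeff]
  rw [h1]
  refine (wa_sum hρ v _ _).trans ?_
  rw [wa, Finset.sum_mul]
  exact Finset.sum_le_sum fun i _ => wa_monomial_mul v i _ G

omit hρ in
lemma wa_monomial_le (κ : U →₀ ℕ) (a : K) : wa v ρ (monomial κ a) ≤ v a * wmon ρ κ := by
  classical
  have h1 : (monomial κ a : MvPolynomial U K).support ⊆ {κ} := support_monomial_subset
  rw [wa_eq_sum v _ _ h1, Finset.sum_singleton, coeff_monomial, if_pos rfl]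

lemma wa_C_le (a : K) : wa v ρ (C a : MvPolynomial U K) ≤ v a := by
  have := wa_monomial_le (ρ := ρ) v (0 : U →₀ ℕ) a
  rwa [wmon_zero, mul_one] at this

lemma wa_one_le : wa v ρ (1 : MvPolynomial U K) ≤ 1 := by
  have := wa_C_le hρ v (1 : K)
  rwa [C_1, map_one] at this

lemma wa_X_le (u : U) : wa v ρ (X u : MvPolynomial U K) ≤ ρ u := by
  classical
  have := wa_monomial_le (ρ := ρ) v (Finsupp.single u 1) (1 : K)
  change wa v ρ (X u) ≤ _ at this
  rw [map_one v, one_mul] at this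
  refine this.trans (le_of_eq ?_)
  rw [wmon, Finset.prod_eq_single u]
  · simp
  · intro b _ hb
    simp [Finsupp.single_apply, Ne.symm hb]
  · simp

lemma wa_C_mul_le (a : K) (F : MvPolynomial U K) : wa v ρ (C a * F) ≤ v a * wa v ρ F :=
  (wa_mul hρ v _ _).trans (mul_le_mul_of_nonneg_right (wa_C_le hρ v a) (wa_nonneg hρ v F))

lemma wa_prod_le {ι : Type*} (s : Finset ι) (F : ι → MvPolynomial U K) :
    wa v ρ (∏ a ∈ s, F a) ≤ ∏ a ∈ s, wa v ρ (F a) := by
  classical
  induction s using Finset.induction_on with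
  | empty => simpa using wa_one_le hρ v
  | insert a s ha ih =>
    rw [Finset.prod_insert ha, Finset.prod_insert ha]
    exact (wa_mul hρ v _ _).trans (mul_le_mul_of_nonneg_left ih (wa_nonneg hρ v _))

lemma wa_pow_le (F : MvPolynomial U K) (k : ℕ) : wa v ρ (F ^ k) ≤ wa v ρ F ^ k := by
  induction k with
  | zero => simpa using wa_one_le hρ v
  | succ k ih =>
    rw [pow_succ, pow_succ]
    exact (wa_mul hρ v _ _).trans (mul_le_mul_of_nonneg_right ih (wa_nonneg hρ v _))

lemma coeff_le_wa (F : MvPolynomial U K) (κ : U →₀ ℕ) :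
    v (F.coeff κ) * wmon ρ κ ≤ wa v ρ F := by
  by_cases h : κ ∈ F.support
  · exact Finset.single_le_sum (f := fun κ => v (F.coeff κ) * wmon ρ κ)
      (fun i _ => mul_nonneg (v.nonneg _) (wmon_nonneg hρ _)) h
  · rw [notMem_support_iff.mp h, map_zero, zero_mul]
    exact wa_nonneg hρ v F

/-- substitution. -/
lemma wa_aeval_le {S : Type*} [Fintype S] (ℓ : S → MvPolynomial U K) (a : S → ℝ)
    (ha : ∀ s, wa v ρ (ℓ s) ≤ a s) (P : MvPolynomial S K) :
    wa v ρ (aeval ℓ P) ≤ ∑ j ∈ P.support, v (P.coeff j) * wmon a j := by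
  rw [aeval_def, eval₂_eq']
  refine (wa_sum hρ v _ _).trans (Finset.sum_le_sum fun j _ => ?_)
  rw [algebraMap_eq]
  refine (wa_C_mul_le hρ v _ _).trans (mul_le_mul_of_nonneg_left ?_ (v.nonneg _))
  refine (wa_prod_le hρ v _ _).trans ?_
  refine Finset.prod_le_prod (fun s _ => wa_nonneg hρ v _) fun s _ => ?_
  exact (wa_pow_le hρ v _ _).trans (pow_le_pow_left₀ (wa_nonneg hρ v _) (ha s) _)

end WA

/-- sum of the absolute values of the coefficients. -/
lemma sum_coeff_le {S : Type*} [Fintype S] {K : Type*} [Field K] (v : AbsoluteValue K ℝ)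
    (P : MvPolynomial S K) (r : S → ℕ)
    (hP : ∀ j ∈ P.support, ∀ s, j s ≤ r s) (B : ℝ) (hB : ∀ j, v (P.coeff j) ≤ B) :
    ∑ j ∈ P.support, v (P.coeff j) ≤ 2 ^ (∑ s, r s) * B := by
  classical
  have hB0 : 0 ≤ B := (v.nonneg _).trans (hB 0)
  have h1 : ∑ j ∈ P.support, v (P.coeff j) ≤ P.support.card * B := by
    refine (Finset.sum_le_sum fun i _ => hB i).trans ?_
    rw [Finset.sum_const, nsmul_eq_mul]
  refine h1.trans (mul_le_mul_of_nonneg_right ?_ hB0)
  have h2 : P.support.card ≤ (Fintype.piFinset fun h => Finset.range (r h + 1)).card := by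
    refine Finset.card_le_card_of_injOn (fun i h => i h) ?_ ?_
    · intro i hi
      rw [Finset.mem_coe, Fintype.mem_piFinset]
      intro h
      rw [Finset.mem_range]
      exact Nat.lt_succ_of_le (hP i hi h)
    · intro i _ j _ hij
      exact DFunLike.coe_injective hij
  rw [Fintype.card_piFinset] at h2
  have h3 : ∏ h, (Finset.range (r h + 1)).card ≤ 2 ^ (∑ h, r h) := by
    rw [← Finset.prod_pow_eq_pow_sum]
    refine Finset.prod_le_prod' fun h _ => ?_
    rw [Finset.card_range]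
    exact Nat.lt_two_pow_self
  exact_mod_cast h2.trans h3

section Est

variable {M k : ℕ} {ι : Type} [Fintype ι] [DecidableEq ι] {K : Type} [Field K]

theorem sum_bind_le (v : AbsoluteValue K ℝ) (Ψ : Matrix ι ι K) (U : ℝ) (hU1 : 1 ≤ U)
    (hU : ∀ J J', v (Ψ J J') ≤ U) (hι : 1 ≤ Fintype.card ι) (r : Fin M → ℕ)
    (P : MvPolynomial (Fin M × ι) K) (hhom : ∀ j ∈ P.support, ∀ h, ∑ J, j (h, J) = r h) (B : ℝ)
    (hP : ∀ j, v (P.coeff j) ≤ B) (Pt : MvPolynomial (Fin M × ι) K)
    (hPt : Pt = bind₁ (fun p : Fin M × ι => ∑ J' : ι, C (Ψ p.2 J') * X (p.1, J')) P) :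
    ∑ j ∈ Pt.support, v (Pt.coeff j) ≤ 2 ^ (∑ p : Fin M × ι, r p.1) * B *
      Real.exp ((∑ h, (r h : ℝ)) * Real.log (Fintype.card ι * U)) := by
  have hN1 : (1 : ℝ) ≤ Fintype.card ι := by exact_mod_cast hι
  have hNU : 1 ≤ (Fintype.card ι : ℝ) * U := by nlinarith
  have hlogNU : 0 ≤ Real.log (Fintype.card ι * U) := Real.log_nonneg hNU
  have hjr : ∀ j ∈ P.support, ∀ p : Fin M × ι, j p ≤ r p.1 := by
    intro j hj p
    rw [← hhom j hj p.1]
    exact Finset.single_le_sum (f := fun J => j (p.1, J)) (fun _ _ => Nat.zero_le _)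
      (Finset.mem_univ p.2)
  have hBsum := sum_coeff_le v P (fun p => r p.1) hjr B hP
  have hρ : ∀ u : Fin M × ι, (0 : ℝ) ≤ (fun _ => 1 : Fin M × ι → ℝ) u := fun _ => zero_le_one
  have h1 : ∑ j ∈ Pt.support, v (Pt.coeff j) = wa v (fun _ => 1) Pt := by
    rw [wa]
    refine Finset.sum_congr rfl fun j _ => ?_
    simp [wmon]
  have h2 : ∀ p : Fin M × ι, wa v (fun _ => 1) (∑ J' : ι, C (Ψ p.2 J') * X (p.1, J') :
      MvPolynomial (Fin M × ι) K) ≤ Real.exp (Real.log (Fintype.card ι * U)) := by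
    intro p
    rw [Real.exp_log (by linarith)]
    refine (wa_sum hρ v _ _).trans ?_
    calc _ ≤ ∑ J' : ι, U := by
          refine Finset.sum_le_sum fun J' _ => ?_
          refine (wa_C_mul_le hρ v _ _).trans ?_
          calc _ ≤ U * 1 := mul_le_mul (hU _ _) (wa_X_le hρ v _) (wa_nonneg hρ v _)
                (by linarith)
            _ = U := mul_one _
      _ = Fintype.card ι * U := by
          rw [Finset.sum_const, Finset.card_univ, nsmul_eq_mul]
  have h3 := wa_aeval_le hρ v _ _ h2 P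
  rw [h1, hPt]
  change wa v (fun _ => 1) (aeval _ P) ≤ _
  refine h3.trans ?_
  have h4 : ∀ j ∈ P.support, v (P.coeff j) * wmon (fun _ : Fin M × ι =>
      Real.exp (Real.log (Fintype.card ι * U))) j ≤ v (P.coeff j) *
        Real.exp ((∑ h, (r h : ℝ)) * Real.log (Fintype.card ι * U)) := by
    intro j hj
    refine mul_le_mul_of_nonneg_left ?_ (v.nonneg _)
    rw [wmon_exp, Real.exp_le_exp, ← Finset.sum_mul]
    refine mul_le_mul_of_nonneg_right ?_ hlogNU
    rw [Fintype.sum_prod_type]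
    refine le_of_eq (Finset.sum_congr rfl fun h _ => ?_)
    rw [← hhom j hj h]
    push_cast
    rfl
  refine (Finset.sum_le_sum h4).trans ?_
  rw [← Finset.sum_mul]
  exact mul_le_mul_of_nonneg_right hBsum (Real.exp_pos _).le

theorem est_abs (v : AbsoluteValue K ℝ) (L Ψ : Matrix ι ι K) (hΨ : Ψ * L = 1)
    (U : ℝ) (hU1 : 1 ≤ U) (hU : ∀ J J', v (L J J') ≤ U) (n r : Fin M → ℕ) (T : ℕ)
    (Z : Fin M → Fin k → ι → K) (J₁ : ι) (a : ι → ℝ)
    (hZ : ∀ h l J, v (∑ J', L J J' * Z h l J') ≤ Real.exp (n h * a J))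
    (P : MvPolynomial (Fin M × ι) K) (Pt : MvPolynomial (Fin M × ι) K)
    (hPt : Pt = bind₁ (fun p : Fin M × ι => ∑ J' : ι, C (Ψ p.2 J') * X (p.1, J')) P) (E : ℕ)
    (hbal : ∀ j ∈ Pt.support, ∀ J, |((∑ h, n h * j (h, J) : ℕ) : ℝ) - T| ≤ E)
    (hdeg : ∀ j ∈ Pt.support, ∀ p : Fin M × ι, j p ≤ 2 * M * r p.1)
    (B : ℝ) (hB : ∑ j ∈ Pt.support, v (Pt.coeff j) ≤ B)
    (Ca : ℝ) (hCa : ∀ J, - Ca ≤ a J) (c : ℝ) (hc : ∀ J, |a J| ≤ c)
    (κ : (Fin M ⊕ (Fin M × Fin k)) →₀ ℕ) :
    v ((subZ Z J₁ P).coeff κ) ≤ B * Real.exp (∑ J, T * a J + Fintype.card ι * E * c +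
      (∑ h, κ (Sum.inl h) * (n h * Ca)) +
      (2 * M * Fintype.card ι * ∑ h, (r h : ℝ)) * Real.log (k + U)) := by
  have hρ : ∀ u, 0 ≤ (Sum.elim (fun h => Real.exp (n h * (-Ca))) (fun _ => 1) :
      (Fin M ⊕ (Fin M × Fin k)) → ℝ) u := by
    intro u
    rcases u with h | q
    · exact (Real.exp_pos _).le
    · exact zero_le_one
  have hk0 : (1 : ℝ) ≤ k + U := by
    have : (0 : ℝ) ≤ k := Nat.cast_nonneg k
    linarith
  -- the forms `L_J`
  let y : Fin M × ι → MvPolynomial (Fin M ⊕ (Fin M × Fin k)) K := fun p =>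
    ∑ l, C (∑ J', L p.2 J' * Z p.1 l J') * X (Sum.inr (p.1, l)) +
      C (L p.2 J₁) * X (Sum.inl p.1)
  have hy : ∀ p, y p = ∑ J', C (L p.2 J') * linZ Z J₁ (p.1, J') := by
    intro p
    simp only [y, linZ, mul_add, Finset.sum_add_distrib]
    congr 1
    · simp only [Finset.mul_sum]
      rw [Finset.sum_comm]
      refine Finset.sum_congr rfl fun l _ => ?_
      rw [map_sum, Finset.sum_mul]
      refine Finset.sum_congr rfl fun J' _ => ?_
      simp only [map_mul]
      ring
    · rw [Finset.sum_eq_single J₁]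
      · rw [if_pos rfl]
      · intro J' _ hJ'
        rw [if_neg hJ', mul_zero]
      · simp
  have hG : subZ Z J₁ P = aeval y Pt := by
    rw [hPt, aeval_bind₁, subZ]
    congr 2
    funext p
    rw [map_sum]
    have h1 : ∀ J', aeval y (C (Ψ p.2 J') * X (p.1, J') : MvPolynomial (Fin M × ι) K) =
        ∑ J'', C (Ψ p.2 J' * L J' J'') * linZ Z J₁ (p.1, J'') := by
      intro J'
      rw [map_mul, aeval_C, aeval_X, hy, algebraMap_eq, Finset.mul_sum]
      refine Finset.sum_congr rfl fun J'' _ => ?_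
      rw [C_mul]
      ring
    simp only [h1]
    rw [Finset.sum_comm]
    simp only [← Finset.sum_mul, ← map_sum]
    have h2 : ∀ J'', ∑ J', Ψ p.2 J' * L J' J'' = if p.2 = J'' then 1 else 0 := by
      intro J''
      have := congrFun (congrFun hΨ p.2) J''
      rw [Matrix.mul_apply, Matrix.one_apply] at this
      exact this
    simp only [h2]
    rw [Finset.sum_eq_single p.2]
    · rw [if_pos rfl, C_1, one_mul]
    · intro J'' _ hJ''
      rw [if_neg (Ne.symm hJ''), C_0, zero_mul]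
    · simp
  -- the norm of the linear forms
  have h1 : ∀ p : Fin M × ι, wa v (Sum.elim (fun h => Real.exp (n h * (-Ca))) (fun _ => 1)) (y p) ≤
      Real.exp (n p.1 * a p.2 + Real.log (k + U)) := by
    intro p
    refine (wa_add hρ v _ _).trans ?_
    have h3 : wa v (Sum.elim (fun h => Real.exp (n h * (-Ca))) (fun _ => 1))
        (∑ l, C (∑ J', L p.2 J' * Z p.1 l J') * X (Sum.inr (p.1, l)) :
          MvPolynomial (Fin M ⊕ (Fin M × Fin k)) K) ≤ k * Real.exp (n p.1 * a p.2) := by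
      refine (wa_sum hρ v _ _).trans ?_
      calc _ ≤ ∑ l : Fin k, Real.exp (n p.1 * a p.2) := by
            refine Finset.sum_le_sum fun l _ => ?_
            refine (wa_C_mul_le hρ v _ _).trans ?_
            calc _ ≤ Real.exp (n p.1 * a p.2) * 1 :=
                  mul_le_mul (hZ _ _ _) (by simpa using wa_X_le hρ v (Sum.inr (p.1, l)))
                    (wa_nonneg hρ v _) (Real.exp_pos _).le
              _ = _ := mul_one _
        _ = _ := by simp
    have h4 : wa v (Sum.elim (fun h => Real.exp (n h * (-Ca))) (fun _ => 1))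
        (C (L p.2 J₁) * X (Sum.inl p.1) :
          MvPolynomial (Fin M ⊕ (Fin M × Fin k)) K) ≤ U * Real.exp (n p.1 * a p.2) := by
      refine (wa_C_mul_le hρ v _ _).trans ?_
      have h5 := wa_X_le hρ v (Sum.inl p.1)
      rw [Sum.elim_inl] at h5
      calc _ ≤ U * Real.exp (n p.1 * (-Ca)) :=
            mul_le_mul (hU _ _) h5 (wa_nonneg hρ v _) (by linarith)
        _ ≤ U * Real.exp (n p.1 * a p.2) := by
            refine mul_le_mul_of_nonneg_left ?_ (by linarith)
            rw [Real.exp_le_exp]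
            exact mul_le_mul_of_nonneg_left (hCa _) (Nat.cast_nonneg _)
    rw [Real.exp_add, Real.exp_log (by linarith)]
    linarith
  have h2 := (coeff_le_wa hρ v (aeval y Pt) κ).trans (wa_aeval_le hρ v _ _ h1 Pt)
  rw [wmon_elim] at h2
  have hlog : 0 ≤ Real.log (k + U) := Real.log_nonneg hk0
  have h3 : ∀ j ∈ Pt.support, v (Pt.coeff j) * wmon (fun p : Fin M × ι =>
      Real.exp (n p.1 * a p.2 + Real.log (k + U))) j ≤ v (Pt.coeff j) *
      Real.exp (∑ J, T * a J + Fintype.card ι * E * c +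
        (2 * M * Fintype.card ι * ∑ h, (r h : ℝ)) * Real.log (k + U)) := by
    intro j hj
    refine mul_le_mul_of_nonneg_left ?_ (v.nonneg _)
    rw [wmon_exp, sum_exponents n j a (Real.log (k + U))]
    rw [Real.exp_le_exp]
    have h4 : (∑ p, (j p : ℝ)) ≤ 2 * M * Fintype.card ι * ∑ h, (r h : ℝ) := by
      calc (∑ p, (j p : ℝ)) ≤ ∑ p : Fin M × ι, (2 * M * r p.1 : ℝ) := by
            refine Finset.sum_le_sum fun p _ => ?_
            exact_mod_cast hdeg j hj p
        _ = _ := by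
            rw [Fintype.sum_prod_type]
            simp only [Finset.sum_const, Finset.card_univ, nsmul_eq_mul]
            rw [Finset.mul_sum]
            exact Finset.sum_congr rfl fun h _ => by ring
    have h7 := sum_mul_le a (fun J => ∑ h, n h * j (h, J)) T E c hc (hbal j hj)
    have h8 := mul_le_mul_of_nonneg_right h4 hlog
    rw [mul_comm (Real.log (k + U))]
    linarith
  have h4 := h2.trans (Finset.sum_le_sum h3)
  rw [← Finset.sum_mul] at h4
  have h5 := h4.trans (mul_le_mul_of_nonneg_right hB (Real.exp_pos _).le)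
  rw [← hG] at h5
  have h6 : v ((subZ Z J₁ P).coeff κ) =
      v ((subZ Z J₁ P).coeff κ) * Real.exp (∑ h, κ (Sum.inl h) * (n h * (-Ca))) *
        Real.exp ((∑ h, κ (Sum.inl h) * (n h * Ca))) := by
    rw [mul_assoc, ← Real.exp_add, ← Finset.sum_add_distrib]
    have : ∑ h : Fin M, ((κ (Sum.inl h) : ℝ) * (n h * (-Ca)) + κ (Sum.inl h) * (n h * Ca)) = 0 :=
      Finset.sum_eq_zero fun h _ => by ring
    rw [this, Real.exp_zero, mul_one]
  rw [h6]
  refine (mul_le_mul_of_nonneg_right h5 (Real.exp_pos _).le).trans (le_of_eq ?_)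
  rw [mul_assoc, ← Real.exp_add]
  congr 2
  ring

end Est

end Pool.Agent.SST
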