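import Pool.Agent.SST.SpecDefs
import Pool.Agent.SST.Est
import Pool.Agent.DD7719.SubSpace

/-!
# The contradiction at the heart of the Subspace theorem over `ℤ`, several places
-/

open MvPolynomial Filter

namespace Pool.Agent.SST

open Pool.Agent.DD7719

/-- the final numerical inequality -/
lemma numeric_negZ (D Sc N κ₀ e₀ ε δ θ c₁ c₂ c₃ nmin RM Sr E W Asum : ℝ) (hN : 0 < N)
    (hSc : 0 ≤ Sc) (hD : Sc ≤ D) (hD0 : 0 < D) (hκ₀ : 0 < κ₀)
    (he₀ : e₀ = κ₀ / (8 * N * D)) (hε : ε ≤ e₀) (hδ : c₁ * δ ≤ e₀)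
    (hθ : c₂ * θ ≤ e₀) (hc₁ : 0 ≤ c₁) (hc₂ : 0 ≤ c₂) (hc₃ : 0 ≤ c₃) (hn : 0 < nmin)
    (hn' : c₃ ≤ e₀ * nmin) (hRM : 0 < RM) (hSr : Sr * nmin ≤ RM) (hE : E ≤ δ * RM)
    (hW : W ≤ θ * RM)
    (hA : Asum ≤ RM * (-(κ₀ / N) + Sc * ε) + Sc * (c₁ * E + c₂ * W + c₃ * Sr)) :
    Asum < 0 := by
  have h1 : c₃ * Sr ≤ e₀ * RM := by
    have h2 : Sr ≤ RM / nmin := by rwa [le_div_iff₀ hn]
    calc c₃ * Sr ≤ c₃ * (RM / nmin) := mul_le_mul_of_nonneg_left h2 hc₃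
      _ = (c₃ / nmin) * RM := by ring
      _ ≤ e₀ * RM := by
          refine mul_le_mul_of_nonneg_right ?_ hRM.le
          rwa [div_le_iff₀ hn]
  have h2 : c₁ * E ≤ e₀ * RM := by
    calc c₁ * E ≤ c₁ * (δ * RM) := mul_le_mul_of_nonneg_left hE hc₁
      _ = (c₁ * δ) * RM := by ring
      _ ≤ e₀ * RM := mul_le_mul_of_nonneg_right hδ hRM.le
  have h3 : c₂ * W ≤ e₀ * RM := by
    calc c₂ * W ≤ c₂ * (θ * RM) := mul_le_mul_of_nonneg_left hW hc₂
      _ = (c₂ * θ) * RM := by ring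
      _ ≤ e₀ * RM := mul_le_mul_of_nonneg_right hθ hRM.le
  have he₀0 : 0 < e₀ := by rw [he₀]; positivity
  have h4 : Sc * (c₁ * E + c₂ * W + c₃ * Sr) ≤ Sc * (3 * e₀ * RM) :=
    mul_le_mul_of_nonneg_left (by linarith) hSc
  have h5 : RM * (Sc * ε) ≤ RM * (Sc * e₀) :=
    mul_le_mul_of_nonneg_left (mul_le_mul_of_nonneg_left hε hSc) hRM.le
  have h6 : Sc * (4 * e₀ * RM) ≤ D * (4 * e₀ * RM) :=
    mul_le_mul_of_nonneg_right hD (by positivity)
  have h9 : 4 * D * e₀ = κ₀ / (2 * N) := by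
    rw [he₀]
    field_simp
    ring
  have h10 : κ₀ / N = 2 * (κ₀ / (2 * N)) := by field_simp
  have h11 : 0 < κ₀ / (2 * N) := by positivity
  have h12 : Asum ≤ RM * (-(κ₀ / (2 * N))) := by
    calc Asum ≤ RM * (-(κ₀ / N) + Sc * ε) + Sc * (c₁ * E + c₂ * W + c₃ * Sr) := hA
      _ ≤ RM * (-(κ₀ / N)) + D * (4 * e₀ * RM) := by nlinarith
      _ = RM * (-(κ₀ / N) + 4 * D * e₀) := by ring
      _ = RM * (-(κ₀ / (2 * N))) := by rw [h9, h10]; ring
  have h13 : RM * (-(κ₀ / (2 * N))) < 0 := by nlinarith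
  linarith

theorem core {S : Type} [Fintype S] (K : S → Type) [∀ s, Field (K s)] [∀ s, NumberField (K s)]
    (v : ∀ s, AbsoluteValue (K s) ℝ) (hv : GoodPlaces K v) {ι : Type} [Fintype ι] [DecidableEq ι]
    (haux : AuxZ K ι) (L : ∀ s, Matrix ι ι (K s)) (hL : ∀ s, (L s).det ≠ 0)
    (e : S → ι → ℝ) (hneg : ∑ s, ∑ J, e s J < 0) (J₁ J₂ : ι) (hJ : J₁ ≠ J₂) (h₀ : ℝ)
    (hh₀ : 0 < h₀)
    (H : ∀ ε : ℝ, 0 < ε → ∀ n₀ : ℕ, ∃ n : ℕ, n₀ ≤ n ∧ DatumZ K v L e J₁ J₂ h₀ ε n) :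
    False := by
  classical
  -- constants
  have hN2 : 2 ≤ Fintype.card ι := by
    have := Fintype.one_lt_card_iff.mpr ⟨J₁, J₂, hJ⟩
    omega
  obtain ⟨k, hk⟩ : ∃ k, k = Fintype.card ι - 1 := ⟨_, rfl⟩
  have hk1 : k + 1 = Fintype.card ι := by omega
  obtain ⟨N, hN⟩ : ∃ N : ℝ, N = Fintype.card ι := ⟨_, rfl⟩
  have hN0 : 0 < N := by rw [hN]; exact_mod_cast (by omega : 0 < Fintype.card ι)
  have hN1 : 1 ≤ N := by rw [hN]; exact_mod_cast (by omega : 1 ≤ Fintype.card ι)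
  obtain ⟨Sc, hSc⟩ : ∃ Sc : ℝ, Sc = Fintype.card S := ⟨_, rfl⟩
  have hSc0 : 0 ≤ Sc := by rw [hSc]; positivity
  obtain ⟨D, hD⟩ : ∃ D : ℝ, D = Sc + 1 := ⟨_, rfl⟩
  have hD0 : 0 < D := by rw [hD]; positivity
  obtain ⟨S', hS'⟩ : ∃ S', S' = ∑ s, ∑ J, |e s J| := ⟨_, rfl⟩
  have hsS' : ∀ s J, |e s J| ≤ S' := by
    intro s J
    rw [hS']
    refine le_trans ?_ (Finset.single_le_sum (f := fun s => ∑ J, |e s J|)
      (fun s _ => Finset.sum_nonneg fun J _ => abs_nonneg _) (Finset.mem_univ s))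
    exact Finset.single_le_sum (f := fun J => |e s J|) (fun J _ => abs_nonneg _) (Finset.mem_univ J)
  have hS'0 : 0 ≤ S' := by
    rw [hS']
    exact Finset.sum_nonneg fun s _ => Finset.sum_nonneg fun J _ => abs_nonneg _
  obtain ⟨Ψ, hΨdef⟩ : ∃ Ψ : ∀ s, Matrix ι ι (K s), Ψ = fun s => (L s)⁻¹ := ⟨_, rfl⟩
  have hΨ : ∀ s, Ψ s * L s = 1 := by
    intro s
    rw [hΨdef]
    exact Matrix.nonsing_inv_mul (L s) (isUnit_iff_ne_zero.mpr (hL s))
  obtain ⟨U, hUdef⟩ : ∃ U : ℝ, U = 1 + ∑ s, ∑ J, ∑ J', (v s (L s J J') + v s (Ψ s J J')) :=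
    ⟨_, rfl⟩
  have hvn : ∀ s (x : K s), 0 ≤ v s x := fun s x => (v s).nonneg x
  have hUpos : ∀ s J J', v s (L s J J') + v s (Ψ s J J') ≤ U := by
    intro s J J'
    have h1 : v s (L s J J') + v s (Ψ s J J') ≤
        ∑ s, ∑ J, ∑ J', (v s (L s J J') + v s (Ψ s J J')) := by
      refine le_trans ?_ (Finset.single_le_sum (f := fun s =>
        ∑ J, ∑ J', (v s (L s J J') + v s (Ψ s J J'))) (fun s _ => Finset.sum_nonneg fun J _ =>
          Finset.sum_nonneg fun J' _ => add_nonneg (hvn _ _) (hvn _ _)) (Finset.mem_univ s))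
      refine le_trans ?_ (Finset.single_le_sum (f := fun J =>
        ∑ J', (v s (L s J J') + v s (Ψ s J J'))) (fun J _ => Finset.sum_nonneg fun J' _ =>
          add_nonneg (hvn _ _) (hvn _ _)) (Finset.mem_univ J))
      exact Finset.single_le_sum (f := fun J' => v s (L s J J') + v s (Ψ s J J'))
        (fun J _ => add_nonneg (hvn _ _) (hvn _ _)) (Finset.mem_univ J')
    rw [hUdef]; linarith
  have hU1 : 1 ≤ U := by
    rw [hUdef]
    have : 0 ≤ ∑ s, ∑ J, ∑ J', (v s (L s J J') + v s (Ψ s J J')) :=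
      Finset.sum_nonneg fun s _ => Finset.sum_nonneg fun J _ => Finset.sum_nonneg fun J' _ =>
        add_nonneg (hvn _ _) (hvn _ _)
    linarith
  have hUL : ∀ s J J', v s (L s J J') ≤ U := fun s J J' => by
    have := hUpos s J J'
    have := hvn s (Ψ s J J')
    linarith
  have hUΨ : ∀ s J J', v s (Ψ s J J') ≤ U := fun s J J' => by
    have := hUpos s J J'
    have := hvn s (L s J J')
    linarith
  obtain ⟨Ca, hCadef⟩ : ∃ Ca, Ca = S' := ⟨_, rfl⟩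
  have hCa0 : 0 ≤ Ca := by rw [hCadef]; positivity
  obtain ⟨c', hc'def⟩ : ∃ c', c' = S' + 1 := ⟨_, rfl⟩
  obtain ⟨c₁, hc₁def⟩ : ∃ c₁, c₁ = N * c' := ⟨_, rfl⟩
  obtain ⟨c₂, hc₂def⟩ : ∃ c₂, c₂ = Ca := ⟨_, rfl⟩
  have hc₁0 : 0 ≤ c₁ := by rw [hc₁def, hc'def]; positivity
  have hc₂0 : 0 ≤ c₂ := by rw [hc₂def]; positivity
  obtain ⟨κ₀, hκ₀def⟩ : ∃ κ₀, κ₀ = -∑ s, ∑ J, e s J := ⟨_, rfl⟩
  have hκ₀ : 0 < κ₀ := by rw [hκ₀def]; linarith
  obtain ⟨e₀, he₀⟩ : ∃ e₀, e₀ = κ₀ / (8 * N * D) := ⟨_, rfl⟩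
  have he₀0 : 0 < e₀ := by rw [he₀]; positivity
  obtain ⟨ε, hε⟩ : ∃ ε, ε = min 1 e₀ := ⟨_, rfl⟩
  have hε0 : 0 < ε := by rw [hε]; exact lt_min one_pos he₀0
  have hε1 : ε ≤ 1 := by rw [hε]; exact min_le_left _ _
  have hεe : ε ≤ e₀ := by rw [hε]; exact min_le_right _ _
  obtain ⟨δ, hδ⟩ : ∃ δ, δ = min 1 (e₀ / (c₁ + 1)) := ⟨_, rfl⟩
  have hδ0 : 0 < δ := by rw [hδ]; exact lt_min one_pos (by positivity)
  have hδ1 : δ ≤ 1 := by rw [hδ]; exact min_le_left _ _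
  have hδe : c₁ * δ ≤ e₀ := by
    have h1 : δ ≤ e₀ / (c₁ + 1) := by rw [hδ]; exact min_le_right _ _
    have h2 : δ * (c₁ + 1) ≤ e₀ := by rwa [le_div_iff₀ (by positivity)] at h1
    nlinarith
  obtain ⟨θ, hθ⟩ : ∃ θ, θ = e₀ / (c₂ + 1) := ⟨_, rfl⟩
  have hθ0 : 0 < θ := by rw [hθ]; positivity
  have hθe : c₂ * θ ≤ e₀ := by
    have h2 : θ * (c₂ + 1) = e₀ := by rw [hθ]; field_simp
    nlinarith
  -- the auxiliary polynomial and Roth's lemma
  obtain ⟨M₀, hM₀⟩ := haux δ hδ0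
  obtain ⟨M, hMdef⟩ : ∃ M, M = max M₀ 1 := ⟨_, rfl⟩
  have hM0 : 0 < M := by rw [hMdef]; exact lt_of_lt_of_le one_pos (le_max_right _ _)
  have hMr : (0 : ℝ) < M := by exact_mod_cast hM0
  obtain ⟨C₀, hC₀, hP⟩ := hM₀ M (by rw [hMdef]; exact le_max_left _ _) hM0 Ψ
  obtain ⟨σ, hσ0, hσ1, CR, hCR0, hroth⟩ := roth_lemma ℚ M (θ * M) (by positivity)
  have hkU : (1 : ℝ) ≤ k + U := by
    have : (0 : ℝ) ≤ k := Nat.cast_nonneg k
    linarith
  have hNU : (1 : ℝ) ≤ N * U := by nlinarith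
  obtain ⟨c₃, hc₃def⟩ : ∃ c₃, c₃ = N + C₀ + Real.log (N * U) +
    2 * M * N * Real.log (k + U) := ⟨_, rfl⟩
  have hlogNU : 0 ≤ Real.log (N * U) := Real.log_nonneg hNU
  have hlogkU : 0 ≤ Real.log (k + U) := Real.log_nonneg hkU
  have hc₃0 : 0 ≤ c₃ := by rw [hc₃def]; positivity
  obtain ⟨nmin, hnmin⟩ : ∃ nmin : ℕ, nmin = ⌈max (c₃ / e₀) (CR * (C₀ + 1) * M / h₀)⌉₊ + 1 := ⟨_, rfl⟩
  have hnmin0 : (0 : ℝ) < nmin := by rw [hnmin]; positivity
  have hnmin1 : c₃ ≤ e₀ * nmin := by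
    have h1 : c₃ / e₀ ≤ nmin := by
      rw [hnmin]; push_cast
      have := Nat.le_ceil (max (c₃ / e₀) (CR * (C₀ + 1) * M / h₀))
      have h2 := le_max_left (c₃ / e₀) (CR * (C₀ + 1) * M / h₀)
      linarith
    rw [div_le_iff₀ he₀0] at h1
    linarith
  have hnmin2 : CR * (C₀ + 1) * M ≤ h₀ * nmin := by
    have h1 : CR * (C₀ + 1) * M / h₀ ≤ nmin := by
      rw [hnmin]; push_cast
      have := Nat.le_ceil (max (c₃ / e₀) (CR * (C₀ + 1) * M / h₀))
      have h2 := le_max_right (c₃ / e₀) (CR * (C₀ + 1) * M / h₀)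
      linarith
    rw [div_le_iff₀ hh₀] at h1
    linarith
  obtain ⟨f, hf1, hf2, hf3⟩ := exists_seq _ (H ε hε0) nmin σ hσ0 hσ1
  obtain ⟨n, hn⟩ : ∃ n : Fin M → ℕ, n = fun h : Fin M => f (M - 1 - (h : ℕ)) := ⟨_, rfl⟩
  have hnmin' : ∀ h, nmin ≤ n h := fun h => by rw [hn]; exact hf1 _
  have hn0 : ∀ h, 0 < n h := fun h => by
    have := hnmin' h
    have h2 : 0 < nmin := by exact_mod_cast hnmin0
    omega
  have hnσ : ∀ h h' : Fin M, h < h' → (n h' : ℝ) ≤ σ * n h := by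
    intro h h' hh
    rw [hn]
    refine hf2 _ _ ?_
    have h1 := h'.2
    have h2 : (h : ℕ) < h' := hh
    omega
  have hdat : ∀ h, DatumZ K v L e J₁ J₂ h₀ ε (n h) := fun h => by rw [hn]; exact hf3 _
  choose Z hZlin hZφ w hwZ hwJ₁ hwJ₂ hwh using hdat
  -- the degrees
  obtain ⟨pn, hpn⟩ : ∃ pn : ℕ, pn = ∏ h, n h := ⟨_, rfl⟩
  have hpn0 : 0 < pn := by rw [hpn]; exact Finset.prod_pos fun h _ => hn0 h
  obtain ⟨R, hR⟩ : ∃ R : ℕ, R = Fintype.card ι * pn := ⟨_, rfl⟩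
  obtain ⟨T, hT⟩ : ∃ T : ℕ, T = M * pn := ⟨_, rfl⟩
  have hR0 : 0 < R := by rw [hR]; exact Nat.mul_pos (by omega) hpn0
  have hRr : (0 : ℝ) < R := by exact_mod_cast hR0
  have hNT : N * T = R * M := by
    rw [hN, hT, hR]; push_cast; ring
  have hdvd : ∀ h, n h ∣ R := by
    intro h
    rw [hR, hpn]
    exact Dvd.dvd.mul_left (Finset.dvd_prod_of_mem n (Finset.mem_univ h)) _
  obtain ⟨r, hr⟩ : ∃ r : Fin M → ℕ, r = fun h => R / n h := ⟨_, rfl⟩
  have hnr : ∀ h, n h * r h = R := fun h => by rw [hr]; exact Nat.mul_div_cancel' (hdvd h)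
  have hr0 : ∀ h, 0 < r h := by
    intro h
    rcases Nat.eq_zero_or_pos (r h) with h1 | h1
    · have := hnr h
      rw [h1, mul_zero] at this
      omega
    · exact h1
  have hnr' : ∀ h, (n h : ℝ) * r h = R := fun h => by exact_mod_cast hnr h
  have hlac : ∀ h h' : Fin M, h < h' → (r h : ℝ) ≤ σ * r h' := by
    intro h h' hh
    have h1 := hnσ h h' hh
    have h2 : (0 : ℝ) < n h := by exact_mod_cast hn0 h
    have h3 : (0 : ℝ) < r h' := by exact_mod_cast hr0 h'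
    have h4 : (n h : ℝ) * r h ≤ n h * (σ * r h') := by
      rw [hnr' h, ← hnr' h']
      calc (n h' : ℝ) * r h' ≤ (σ * n h) * r h' := mul_le_mul_of_nonneg_right h1 h3.le
        _ = n h * (σ * r h') := by ring
    exact le_of_mul_le_mul_left h4 h2
  obtain ⟨Sr, hSr⟩ : ∃ Sr : ℝ, Sr = ∑ h, (r h : ℝ) := ⟨_, rfl⟩
  have hSr0 : 0 ≤ Sr := by rw [hSr]; exact Finset.sum_nonneg fun h _ => Nat.cast_nonneg _
  have hSrn : Sr * nmin ≤ R * M := by
    rw [hSr, Finset.sum_mul]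
    have h1 : ∀ h : Fin M, (r h : ℝ) * nmin ≤ R := by
      intro h
      rw [← hnr' h, mul_comm (n h : ℝ)]
      exact mul_le_mul_of_nonneg_left (by exact_mod_cast hnmin' h) (Nat.cast_nonneg _)
    calc ∑ h : Fin M, (r h : ℝ) * nmin ≤ ∑ h : Fin M, (R : ℝ) := Finset.sum_le_sum fun h _ => h1 h
      _ = R * M := by simp [mul_comm]
  obtain ⟨P, hP0, hPhom, hPbal', hPsize⟩ := hP r hr0
  obtain ⟨Pt, hPt⟩ : ∃ Pt : ∀ s, MvPolynomial (Fin M × ι) (K s), Pt = fun s =>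
      MvPolynomial.bind₁ (fun hJ : Fin M × ι =>
        ∑ J' : ι, C (Ψ s hJ.2 J') * X (hJ.1, J'))
        (MvPolynomial.map (Int.castRingHom (K s)) P) := ⟨_, rfl⟩
  replace hPbal' : ∀ s, ∀ j ∈ (Pt s).support,
        ∀ J, |∑ h, (j (h, J) : ℝ) / r h - M / Fintype.card ι| ≤ δ * M := by
    rw [hPt]; exact hPbal'
  obtain ⟨E, hE⟩ : ∃ E : ℕ, E = ⌊δ * (R * M)⌋₊ := ⟨_, rfl⟩
  have hEr : (E : ℝ) ≤ δ * (R * M) := by rw [hE]; exact Nat.floor_le (by positivity)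
  -- balancedness in terms of n
  have hbalconv : ∀ (j : (Fin M × ι) →₀ ℕ) (J : ι),
      |∑ h, (j (h, J) : ℝ) / r h - M / Fintype.card ι| ≤ δ * M →
      |((∑ h, n h * j (h, J) : ℕ) : ℝ) - T| ≤ E := by
    intro j J h1
    have h2 : ((∑ h, n h * j (h, J) : ℕ) : ℝ) - T =
        R * (∑ h, (j (h, J) : ℝ) / r h - M / Fintype.card ι) := by
      rw [mul_sub, Finset.mul_sum]
      congr 1
      · push_cast
        refine Finset.sum_congr rfl fun h _ => ?_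
        have h3 : (r h : ℝ) ≠ 0 := by exact_mod_cast (hr0 h).ne'
        rw [← hnr' h]
        field_simp
      · rw [← hN]
        field_simp
        linarith
    have h3 : |((∑ h, n h * j (h, J) : ℕ) : ℝ) - T| ≤ δ * (R * M) := by
      rw [h2, abs_mul, abs_of_pos hRr]
      calc (R : ℝ) * |∑ h, (j (h, J) : ℝ) / r h - M / Fintype.card ι| ≤ R * (δ * M) :=
            mul_le_mul_of_nonneg_left h1 hRr.le
        _ = δ * (R * M) := by ring
    have h4 : |((∑ h, n h * j (h, J) : ℕ) : ℝ) - T| =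
        ((((∑ h, n h * j (h, J) : ℕ) : ℤ) - T).natAbs : ℝ) := by
      rw [Nat.cast_natAbs]
      push_cast
      rfl
    rw [h4] at h3 ⊢
    rw [hE]
    exact_mod_cast Nat.le_floor h3
  have hbal' := fun s j hj J => hbalconv j J (hPbal' s j hj J)
  have hdeg' : ∀ s, ∀ j ∈ (Pt s).support, ∀ p : Fin M × ι, j p ≤ 2 * M * r p.1 := by
    intro s j hj p
    have h1 := hPbal' s j hj p.2
    have h2 : (j p : ℝ) / r p.1 ≤ ∑ h, (j (h, p.2) : ℝ) / r h :=
      Finset.single_le_sum (f := fun h => (j (h, p.2) : ℝ) / r h) (fun h _ => by positivity)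
        (Finset.mem_univ p.1)
    have h3 := (abs_le.mp h1).2
    have h4 : (M : ℝ) / Fintype.card ι ≤ M := by
      rw [← hN]
      exact div_le_self hMr.le hN1
    have h5 : (j p : ℝ) / r p.1 ≤ 2 * M := by nlinarith
    have h6 : (0 : ℝ) < r p.1 := by exact_mod_cast hr0 p.1
    rw [div_le_iff₀ h6] at h5
    exact_mod_cast h5
  have hjr : ∀ j ∈ P.support, ∀ p : Fin M × ι, j p ≤ r p.1 := by
    intro j hj p
    rw [← hPhom j hj p.1]
    exact Finset.single_le_sum (f := fun J => j (p.1, J)) (fun _ _ => Nat.zero_le _)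
      (Finset.mem_univ p.2)
  -- sizes
  have hsumr : ((∑ p : Fin M × ι, r p.1 : ℕ) : ℝ) = N * Sr := by
    rw [Fintype.sum_prod_type]
    simp only [Finset.sum_const, Finset.card_univ, smul_eq_mul]
    push_cast
    rw [hSr, hN, Finset.mul_sum]
  obtain ⟨B', hB'def⟩ : ∃ B' : ℝ, B' = 2 ^ (∑ p : Fin M × ι, r p.1) * Real.exp (C₀ * Sr) *
    Real.exp (Sr * Real.log (N * U)) := ⟨_, rfl⟩
  have hB'0 : 0 < B' := by rw [hB'def]; positivity
  have hlogB' : Real.log B' ≤ (N + C₀) * Sr + Sr * Real.log (N * U) := by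
    rw [hB'def, Real.log_mul (by positivity) (by positivity),
      Real.log_mul (by positivity) (by positivity), Real.log_exp, Real.log_exp, Real.log_pow, hsumr]
    have := Real.log_two_lt_d9
    have h1 : 0 ≤ N * Sr := by positivity
    nlinarith
  have hB'sum : ∀ s, ∑ j ∈ (Pt s).support, v s ((Pt s).coeff j) ≤ B' := by
    intro s
    rw [hB'def, hSr, hN]
    refine sum_bind_le (v s) (Ψ s) U hU1 (hUΨ s) (by omega) r
      (MvPolynomial.map (Int.castRingHom (K s)) P) ?_ _ ?_ (Pt s) (by rw [hPt])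
    · intro j hj
      refine hPhom j ?_
      rw [mem_support_iff] at hj ⊢
      intro h
      apply hj
      rw [coeff_map, h, map_zero]
    · intro j
      rw [coeff_map]
      exact (hv.le s _).trans (hPsize j)
  -- the linear forms
  obtain ⟨a, ha⟩ : ∃ a : S → ι → ℝ, a = fun s J => e s J + ε := ⟨_, rfl⟩
  have hCa : ∀ s J, -Ca ≤ a s J := by
    intro s J
    rw [ha, hCadef]
    have h3 := (abs_le.mp (hsS' s J)).1
    simp only
    linarith
  have hc' : ∀ s J, |a s J| ≤ c' := by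
    intro s J
    rw [ha, hc'def, abs_le]
    have h3 := abs_le.mp (hsS' s J)
    simp only
    constructor <;> linarith [h3.1, h3.2]
  -- vanishing
  have hgoodZ : ∀ κ : (Fin M ⊕ (Fin M × Fin (Fintype.card ι - 1))) →₀ ℕ,
      ∑ h, (tpart κ h : ℝ) / r h ≤ θ * M → (subZ Z J₁ P).coeff κ = 0 := by
    intro κ hcon
    obtain ⟨W, hWdef⟩ : ∃ W : ℝ, W = ∑ h, (κ (Sum.inl h) : ℝ) * n h := ⟨_, rfl⟩
    have hSle : W ≤ θ * (R * M) := by
      have h1 : W = R * ∑ h, (tpart κ h : ℝ) / r h := by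
        rw [hWdef, Finset.mul_sum]
        refine Finset.sum_congr rfl fun h _ => ?_
        rw [tpart_apply]
        have h3 : (r h : ℝ) ≠ 0 := by exact_mod_cast (hr0 h).ne'
        rw [← hnr' h]
        field_simp
      rw [h1]
      calc (R : ℝ) * ∑ h, (tpart κ h : ℝ) / r h ≤ R * (θ * M) :=
            mul_le_mul_of_nonneg_left hcon hRr.le
        _ = θ * (R * M) := by ring
    by_contra hne
    have hprod := hv.prod _ hne
    obtain ⟨A, hA⟩ : ∃ A : S → ℝ, A = fun s => R * M * ((∑ J, e s J) / N + ε) +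
      (c₁ * E + c₂ * W + c₃ * Sr) := ⟨_, rfl⟩
    have hbound : ∀ s, v s (((subZ Z J₁ P).coeff κ : ℤ) : K s) ≤ Real.exp (A s) := by
      intro s
      have h1 : (((subZ Z J₁ P).coeff κ : ℤ) : K s) =
          (subZ (fun h l J => ((Z h l J : ℤ) : K s)) J₁
            (MvPolynomial.map (Int.castRingHom (K s)) P)).coeff κ := by
        have h2 := map_subZ (Int.castRingHom (K s)) Z J₁ P
        have h3 := congrArg (MvPolynomial.coeff κ) h2
        rw [coeff_map] at h3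
        simpa using h3
      rw [h1]
      refine (est_abs (v s) (L s) (Ψ s) (hΨ s) U hU1 (hUL s) n r T
        (fun h l J => ((Z h l J : ℤ) : K s)) J₁ (a s) ?_
        (MvPolynomial.map (Int.castRingHom (K s)) P) (Pt s) (by rw [hPt]) E (hbal' s) (hdeg' s)
        B' (hB'sum s) Ca (hCa s) c' (hc' s) κ).trans ?_
      · intro h l J
        rw [ha]
        exact hZφ h s l J
      · have h2 : B' = Real.exp (Real.log B') := (Real.exp_log hB'0).symm
        rw [h2, ← Real.exp_add, Real.exp_le_exp, hA]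
        have h3 : ∑ J, (T : ℝ) * a s J = R * M * ((∑ J, e s J) / N + ε) := by
          rw [ha, ← Finset.mul_sum, Finset.sum_add_distrib, Finset.sum_const, Finset.card_univ,
            nsmul_eq_mul, ← hN, ← hNT]
          field_simp
        have h4 : (Fintype.card ι : ℝ) * E * c' = c₁ * E := by
          rw [hc₁def, hN]; ring
        have h5 : ∑ h, (κ (Sum.inl h) : ℝ) * (n h * Ca) = c₂ * W := by
          rw [hc₂def, hWdef, Finset.mul_sum]
          exact Finset.sum_congr rfl fun h _ => by ring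
        rw [h3, h4, h5, ← hSr, ← hN, ← hk]
        have h6 : Real.log B' + 2 * M * N * Sr * Real.log (k + U) ≤ c₃ * Sr := by
          rw [hc₃def]
          linarith
        linarith
    have hAneg : ∑ s, A s < 0 := by
      refine numeric_negZ D Sc N κ₀ e₀ ε δ θ c₁ c₂ c₃ nmin (R * M) Sr E W _ hN0 hSc0
        (by rw [hD]; linarith) hD0 hκ₀ he₀ hεe hδe hθe hc₁0 hc₂0 hc₃0 hnmin0 hnmin1
        (by positivity) hSrn hEr hSle ?_
      rw [hA, Finset.sum_add_distrib, ← Finset.mul_sum, Finset.sum_add_distrib, Finset.sum_const,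
        Finset.sum_const, Finset.card_univ, nsmul_eq_mul, nsmul_eq_mul, ← hSc, ← Finset.sum_div,
        hκ₀def]
      refine le_of_eq ?_
      ring
    have h7 : ∏ s, v s (((subZ Z J₁ P).coeff κ : ℤ) : K s) ≤ Real.exp (∑ s, A s) := by
      rw [Real.exp_sum]
      exact Finset.prod_le_prod (fun s _ => hvn s _) fun s _ => hbound s
    have h8 : Real.exp (∑ s, A s) < 1 := by
      rw [← Real.exp_zero]
      exact Real.exp_lt_exp.mpr hAneg
    linarith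
  obtain ⟨Z', hZ'⟩ : ∃ Z' : Fin M → Fin (Fintype.card ι - 1) → ι → ℚ,
    Z' = fun h l J => ((Z h l J : ℤ) : ℚ) := ⟨_, rfl⟩
  obtain ⟨PQ, hPQ⟩ : ∃ PQ, PQ = MvPolynomial.map (Int.castRingHom ℚ) P := ⟨_, rfl⟩
  have hsupp : PQ.support = P.support := by
    rw [hPQ]
    exact MvPolynomial.support_map_of_injective _ (Int.cast_injective)
  have hPQ0 : PQ ≠ 0 := by
    intro h
    apply hP0
    rw [← MvPolynomial.support_eq_empty] at h ⊢
    rw [← hsupp, h]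
  have hgood : ∀ κ ∈ (subG (fun _ => (1 : ℚ)) n Z' J₁ PQ).support,
      θ * M < ∑ h, (tpart κ h : ℝ) / r h := by
    intro κ hκ
    by_contra hcon
    push Not at hcon
    refine (mem_support_iff.mp hκ) ?_
    rw [subG_one, hPQ, hZ']
    have h2 := map_subZ (Int.castRingHom ℚ) Z J₁ P
    have h3 := congrArg (MvPolynomial.coeff κ) h2
    rw [coeff_map, hgoodZ κ hcon, map_zero] at h3
    simpa using h3.symm
  -- the polynomial for Roth's lemma
  have hZlin' : ∀ h, LinearIndependent ℚ (Z' h) := by rw [hZ']; exact hZlin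
  have hwJ₁' : ∀ h, ((w h J₁ : ℤ) : ℚ) ≠ 0 := fun h => by exact_mod_cast hwJ₁ h
  have hwZ' : ∀ h l, ∑ J, ((w h J : ℤ) : ℚ) * ((fun _ => (1 : ℚ)) J ^ n h * Z' h l J) = 0 := by
    intro h l
    have h1 := hwZ h l
    rw [hZ']
    simp only [one_pow, one_mul]
    exact_mod_cast h1
  have hvan := fun x hx => support_of_subG (fun _ => (1 : ℚ)) (fun _ => one_ne_zero) n Z'
    (by omega) hZlin' (fun h J => ((w h J : ℤ) : ℚ)) J₁
    hwJ₁' hwZ' PQ (fun i => θ * M < ∑ h, (i h : ℝ) / r h) hgood x hx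
  have hPQhom : ∀ j ∈ PQ.support, ∀ h, ∑ J, j (h, J) = r h := by rw [hsupp]; exact hPhom
  obtain ⟨F, hF0, hFcoeff, hFdeg, hFgood⟩ := exists_lowF hJ r PQ hPQ0 hPQhom
    (fun h J => -(((w h J : ℤ) : ℚ) / ((w h J₁ : ℤ) : ℚ)))
    (fun i => θ * M < ∑ h, (i h : ℝ) / r h) hvan
  have hPQint : ∀ j, IsIntegral ℤ (PQ.coeff j) := by
    intro j
    rw [hPQ, coeff_map]
    exact isIntegral_algebraMap (R := ℤ) (A := ℚ) (x := P.coeff j)
  have hPQsize : ∀ j, ∀ φ : ℚ →+* ℂ, ‖φ (PQ.coeff j)‖ ≤ Real.exp (C₀ * Sr) := by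
    intro j φ
    rw [hPQ, coeff_map, hSr]
    have h1 : φ (Int.castRingHom ℚ (P.coeff j)) = ((P.coeff j : ℤ) : ℂ) := by simp
    rw [h1, Complex.norm_intCast]
    exact hPsize j
  obtain ⟨i, hi, hi'⟩ := hroth r (fun h => -(((w h J₂ : ℤ) : ℚ) / ((w h J₁ : ℤ) : ℚ))) F
    (Real.exp (C₀ * Sr)) hr0 hlac hF0
    (fun h => MvPolynomial.degreeOf_le_iff.mpr fun i hi => hFdeg i hi h)
    (by
      rw [← Real.exp_zero, Real.exp_le_exp]
      positivity)
    (by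
      intro i
      rcases hFcoeff i with h | ⟨j, _, h⟩
      · rw [h]; exact isIntegral_zero
      · rw [h]; exact hPQint j)
    (by
      intro i σ
      rcases hFcoeff i with h | ⟨j, _, h⟩
      · rw [h, map_zero, norm_zero]; exact (Real.exp_pos _).le
      · rw [h]; exact hPQsize j σ)
    (by
      intro h
      rw [Real.log_exp, ← hSr, Height.logHeight₁_neg]
      have h1 : Height.logHeight₁ (((w h J₂ : ℤ) : ℚ) / ((w h J₁ : ℤ) : ℚ)) =
          Height.logHeight₁ (((w h J₁ : ℤ) : ℚ) / ((w h J₂ : ℤ) : ℚ)) := by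
        rw [← Height.logHeight₁_inv, inv_div]
      rw [h1]
      have h2 := hwh h
      have h3 : (0 : ℝ) ≤ r h := Nat.cast_nonneg _
      calc CR * (C₀ * Sr + Sr) = (CR * (C₀ + 1)) * Sr := by ring
        _ ≤ (CR * (C₀ + 1)) * (R * M / nmin) := by
            refine mul_le_mul_of_nonneg_left ?_ (by positivity)
            rwa [le_div_iff₀ hnmin0]
        _ = (CR * (C₀ + 1) * M) * (R / nmin) := by ring
        _ ≤ (h₀ * nmin) * (R / nmin) := mul_le_mul_of_nonneg_right hnmin2 (by positivity)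
        _ = R * h₀ := by field_simp
        _ = r h * (n h * h₀) := by rw [← hnr' h]; ring
        _ ≤ r h * Height.logHeight₁ (((w h J₁ : ℤ) : ℚ) / ((w h J₂ : ℤ) : ℚ)) :=
            mul_le_mul_of_nonneg_left h2 h3)
  have := hFgood i hi
  linarith

end Pool.Agent.SST
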