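import Pool.Agent.SST.CurveDefs
import Mathlib.Algebra.MvPolynomial.Derivation
import Mathlib.Algebra.MvPolynomial.NoZeroDivisors
import Mathlib.Algebra.MvPolynomial.Nilpotent
import Mathlib.Algebra.Polynomial.Derivation
import Mathlib.Algebra.Polynomial.Bivariate
import Mathlib.Tactic

/-! The form `Bt g` on the curve `g = 0`. -/

open MvPolynomial

namespace Pool.Agent.SST

section

variable {κ 𝓕 : Type} [Field κ] [Field 𝓕] [Algebra κ 𝓕]

/-! ### Degrees -/

lemma cb_totalDegree_pderiv_le (i : Fin 2) (g : MvPolynomial (Fin 2) κ) :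
    (pderiv i g).totalDegree ≤ g.totalDegree - 1 := by
  refine Finset.sup_le ?_
  intro m hm
  rw [mem_support_iff, coeff_pderiv] at hm
  have h1 : coeff (m + Finsupp.single i 1) g ≠ 0 := by
    intro h
    exact hm (by rw [h, zero_mul])
  have h2 := le_totalDegree (mem_support_iff.2 h1)
  have h3 : ((m + Finsupp.single i 1).sum fun _ e => e) = (m.sum fun _ e => e) + 1 := by
    rw [Finsupp.sum_add_index' (fun _ => rfl) (fun _ _ _ => rfl), Finsupp.sum_single_index rfl]
  omega

lemma cb_coeff_X_mul_pderiv (i : Fin 2) (g : MvPolynomial (Fin 2) κ) (m : Fin 2 →₀ ℕ) :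
    coeff m (X i * pderiv i g) = (m i : κ) * coeff m g := by
  rw [coeff_X_mul']
  split_ifs with h
  · rw [coeff_pderiv]
    have h1 : 0 < m i := Nat.pos_of_ne_zero (Finsupp.mem_support_iff.1 h)
    have h2 : m - Finsupp.single i 1 + Finsupp.single i 1 = m := by
      apply tsub_add_cancel_of_le
      rw [Finsupp.single_le_iff]
      exact h1
    rw [h2]
    have h3 : (m - Finsupp.single i 1 : Fin 2 →₀ ℕ) i = m i - 1 := by simp
    rw [h3]
    have h4 : ((m i - 1 : ℕ) : κ) + 1 = (m i : κ) := by
      rw [← Nat.cast_succ]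
      congr 1
      omega
    rw [h4, mul_comm]
  · have h1 : m i = 0 := by simpa using h
    rw [h1]
    simp

lemma cb_totalDegree_euler_le (g : MvPolynomial (Fin 2) κ) (hg : 0 < g.totalDegree) :
    (C (g.totalDegree : κ) * g - X 0 * pderiv 0 g - X 1 * pderiv 1 g).totalDegree ≤
      g.totalDegree - 1 := by
  refine Finset.sup_le ?_
  intro m hm
  rw [mem_support_iff, coeff_sub, coeff_sub, coeff_C_mul, cb_coeff_X_mul_pderiv,
    cb_coeff_X_mul_pderiv] at hm
  have h1 : coeff m g ≠ 0 := by
    intro h
    exact hm (by rw [h]; ring)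
  have h2 := le_totalDegree (mem_support_iff.2 h1)
  have h3 : (m.sum fun _ e => e) = m 0 + m 1 := by
    rw [Finsupp.sum_fintype _ _ (fun _ => rfl), Fin.sum_univ_two]
  have h4 : g.totalDegree ≠ m 0 + m 1 := by
    intro h
    apply hm
    rw [h]
    push_cast
    ring
  omega

theorem Bt_degree (g : MvPolynomial (Fin 2) κ) (hg : 0 < g.totalDegree) :
    (Bt g).totalDegree + 2 ≤ 2 * g.totalDegree := by
  have h0 := cb_totalDegree_pderiv_le 0 g
  have h1 := cb_totalDegree_pderiv_le 1 g
  have h2 := cb_totalDegree_euler_le g hg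
  have h3 : ((pderiv 0 g) ^ 2).totalDegree ≤ 2 * (g.totalDegree - 1) :=
    (totalDegree_pow _ _).trans (by omega)
  have h4 : ((C (g.totalDegree : κ) * g - X 0 * pderiv 0 g - X 1 * pderiv 1 g) *
      pderiv 1 g).totalDegree ≤ 2 * (g.totalDegree - 1) :=
    (totalDegree_mul _ _).trans (by omega)
  have h5 : (Bt g).totalDegree ≤ 2 * (g.totalDegree - 1) := by
    unfold Bt
    exact (totalDegree_sub _ _).trans (max_le h3 h4)
  omega

/-! ### Nonvanishing -/

/-- chain rule -/
lemma cb_derivative_aeval_two (f : Fin 2 → Polynomial 𝓕) (h : MvPolynomial (Fin 2) κ) :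
    Polynomial.derivative (aeval f h) =
      aeval f (pderiv 0 h) * Polynomial.derivative (f 0) +
      aeval f (pderiv 1 h) * Polynomial.derivative (f 1) := by
  induction h using MvPolynomial.induction_on with
  | C a =>
    simp [IsScalarTower.algebraMap_apply κ 𝓕 (Polynomial 𝓕)]
  | add p q hp hq =>
    simp only [map_add, hp, hq]
    ring
  | mul_X p n hp =>
    rw [map_mul, Polynomial.derivative_mul, hp, aeval_X, pderiv_mul, pderiv_mul]
    fin_cases n
    · simp [pderiv_X]
      ring
    · simp [pderiv_X]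
      ring

lemma cb_eval_aeval_two (f : Fin 2 → Polynomial 𝓕) (a : 𝓕) (h : MvPolynomial (Fin 2) κ) :
    Polynomial.eval a (aeval f h) = aeval (fun i => Polynomial.eval a (f i)) h := by
  induction h using MvPolynomial.induction_on with
  | C a =>
    simp [IsScalarTower.algebraMap_apply κ 𝓕 (Polynomial 𝓕)]
  | add p q hp hq =>
    simp only [map_add, Polynomial.eval_add, hp, hq]
  | mul_X p n hp =>
    rw [map_mul, Polynomial.eval_mul, hp, aeval_X, map_mul, aeval_X]

/-- evaluation of the inner variable at `x` -/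
noncomputable def cb_psiOne (x : 𝓕) : Polynomial (Polynomial κ) →+* Polynomial 𝓕 :=
  Polynomial.mapRingHom (Polynomial.aeval x : Polynomial κ →ₐ[κ] 𝓕).toRingHom

/-- evaluation of the outer variable at `y` -/
noncomputable def cb_psiTwo (y : 𝓕) : Polynomial (Polynomial κ) →+* Polynomial 𝓕 :=
  Polynomial.eval₂RingHom (Polynomial.mapRingHom (algebraMap κ 𝓕)) (Polynomial.C y)

lemma cb_psi_eval (x y : 𝓕) (F : Polynomial (Polynomial κ)) :
    Polynomial.eval y (cb_psiOne x F) = Polynomial.eval x (cb_psiTwo y F) := by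
  induction F using Polynomial.induction_on' with
  | add p q hp hq => simp only [map_add, Polynomial.eval_add, hp, hq]
  | monomial n a =>
    simp only [cb_psiOne, cb_psiTwo, Polynomial.coe_mapRingHom, Polynomial.map_monomial,
      Polynomial.eval_monomial, Polynomial.coe_eval₂RingHom, Polynomial.eval₂_monomial,
      Polynomial.eval_mul, Polynomial.eval_pow, Polynomial.eval_C, Polynomial.eval_map]
    rfl

lemma cb_psi_aeval (ψ : Polynomial (Polynomial κ) →+* Polynomial 𝓕)
    (hψ : ∀ a : κ, ψ (Polynomial.C (Polynomial.C a)) = Polynomial.C (algebraMap κ 𝓕 a))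
    (v : Fin 2 → Polynomial (Polynomial κ)) (h : MvPolynomial (Fin 2) κ) :
    ψ (aeval v h) = aeval (fun i => ψ (v i)) h := by
  induction h using MvPolynomial.induction_on with
  | C a =>
    rw [aeval_C, aeval_C]
    exact hψ a
  | add p q hp hq => simp only [map_add, hp, hq]
  | mul_X p n hp => rw [map_mul, map_mul, hp, aeval_X, map_mul, aeval_X]

lemma cb_psiOne_C (x : 𝓕) (a : Polynomial κ) :
    cb_psiOne x (Polynomial.C a) = Polynomial.C (Polynomial.aeval x a) := by
  simp [cb_psiOne]

lemma cb_psiOne_derivative (x : 𝓕) (F : Polynomial (Polynomial κ)) :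
    cb_psiOne x (Polynomial.derivative F) = Polynomial.derivative (cb_psiOne x F) := by
  simp [cb_psiOne, Polynomial.derivative_map]

/-- pseudo-division by a nonzero polynomial of minimal degree -/
lemma cb_exists_mul_eq (x y : 𝓕) (m : Polynomial (Polynomial κ)) (hm0 : m ≠ 0)
    (hm : Polynomial.eval y (cb_psiOne x m) = 0)
    (hmin : ∀ F : Polynomial (Polynomial κ), F ≠ 0 → Polynomial.eval y (cb_psiOne x F) = 0 →
      m.natDegree ≤ F.natDegree) (n : ℕ) :
    ∀ F : Polynomial (Polynomial κ), F.natDegree < n → Polynomial.eval y (cb_psiOne x F) = 0 →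
      ∃ (c : Polynomial κ) (q : Polynomial (Polynomial κ)), c ≠ 0 ∧ Polynomial.C c * F = m * q := by
  induction n with
  | zero => intro F hF; omega
  | succ n ih =>
    intro F hFn hF
    by_cases h0 : F = 0
    · exact ⟨1, 0, one_ne_zero, by rw [h0]; simp⟩
    have hle := hmin F h0 hF
    have hlc : m.leadingCoeff ≠ 0 := Polynomial.leadingCoeff_ne_zero.2 hm0
    set G : Polynomial (Polynomial κ) := Polynomial.C m.leadingCoeff * F -
      Polynomial.C F.leadingCoeff * Polynomial.X ^ (F.natDegree - m.natDegree) * m with hG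
    have hGev : Polynomial.eval y (cb_psiOne x G) = 0 := by
      rw [hG]
      simp only [map_sub, map_mul, Polynomial.eval_sub, Polynomial.eval_mul, hF, hm, mul_zero,
        sub_zero]
    have hGdeg : G = 0 ∨ G.natDegree < F.natDegree := by
      by_cases hG0 : G = 0
      · exact Or.inl hG0
      right
      have hd1 : (Polynomial.C m.leadingCoeff * F).degree = F.degree := by
        rw [Polynomial.degree_mul, Polynomial.degree_C hlc, zero_add]
      have hd2 : (Polynomial.C F.leadingCoeff * Polynomial.X ^ (F.natDegree - m.natDegree) *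
          m).degree = F.degree := by
        rw [Polynomial.degree_mul, Polynomial.degree_mul,
          Polynomial.degree_C (Polynomial.leadingCoeff_ne_zero.2 h0), zero_add,
          Polynomial.degree_X_pow, Polynomial.degree_eq_natDegree hm0,
          Polynomial.degree_eq_natDegree h0, ← Nat.cast_add]
        congr 1
        omega
      have hd3 : G.degree < F.degree := by
        rw [hG, ← hd1]
        apply Polynomial.degree_sub_lt_left
        · rw [hd1, hd2]
        · exact mul_ne_zero (Polynomial.C_ne_zero.2 hlc) h0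
        · rw [Polynomial.leadingCoeff_mul, Polynomial.leadingCoeff_mul,
            Polynomial.leadingCoeff_mul, Polynomial.leadingCoeff_C, Polynomial.leadingCoeff_C,
            Polynomial.leadingCoeff_X_pow]
          ring
      exact Polynomial.natDegree_lt_natDegree hG0 hd3
    have hex : ∃ (c : Polynomial κ) (q : Polynomial (Polynomial κ)), c ≠ 0 ∧
        Polynomial.C c * G = m * q := by
      rcases hGdeg with h | h
      · exact ⟨1, 0, one_ne_zero, by rw [h]; simp⟩
      · exact ih G (by omega) hGev
    obtain ⟨c, q, hc, hq⟩ := hex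
    refine ⟨c * m.leadingCoeff, q + Polynomial.C c * Polynomial.C F.leadingCoeff *
      Polynomial.X ^ (F.natDegree - m.natDegree), mul_ne_zero hc hlc, ?_⟩
    have h1 : Polynomial.C c * Polynomial.C m.leadingCoeff * F = Polynomial.C c * G +
        Polynomial.C c * Polynomial.C F.leadingCoeff *
        Polynomial.X ^ (F.natDegree - m.natDegree) * m := by
      rw [hG]; ring
    rw [map_mul, h1, hq]
    ring

/-- a point of a curve, not constant, at which one derivative vanishes is singular -/
lemma cb_deriv_eq_zero [CharZero κ] (x y : 𝓕) (hx : Transcendental κ x)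
    (F : Polynomial (Polynomial κ)) (hF : Polynomial.eval y (cb_psiOne x F) = 0)
    (hF1 : Polynomial.eval y (Polynomial.derivative (cb_psiOne x F)) = 0) :
    Polynomial.eval x (Polynomial.derivative (cb_psiTwo y F)) = 0 := by
  by_cases h0 : F = 0
  · rw [h0]; simp
  classical
  have hex : ∃ n : ℕ, ∃ m : Polynomial (Polynomial κ), m ≠ 0 ∧
      Polynomial.eval y (cb_psiOne x m) = 0 ∧ m.natDegree = n := ⟨_, F, h0, hF, rfl⟩
  obtain ⟨m, hm0, hm, hmn⟩ := Nat.find_spec hex
  have hmin : ∀ F : Polynomial (Polynomial κ), F ≠ 0 → Polynomial.eval y (cb_psiOne x F) = 0 →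
      m.natDegree ≤ F.natDegree := by
    intro F hF0 hF
    rw [hmn]
    exact Nat.find_min' hex ⟨F, hF0, hF, rfl⟩
  have hmpos : 0 < m.natDegree := by
    rcases Nat.eq_zero_or_pos m.natDegree with h | h
    · exfalso
      obtain ⟨a, ha⟩ : ∃ a, m = Polynomial.C a := ⟨_, Polynomial.eq_C_of_natDegree_eq_zero h⟩
      rw [ha, cb_psiOne_C, Polynomial.eval_C] at hm
      have := (transcendental_iff.1 hx) a hm
      rw [this] at ha
      exact hm0 (by rw [ha]; simp)
    · exact h
  have hmT : Polynomial.eval y (Polynomial.derivative (cb_psiOne x m)) ≠ 0 := by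
    intro h
    rw [← cb_psiOne_derivative] at h
    by_cases hd : Polynomial.derivative m = 0
    · have := Polynomial.derivative_eq_zero.1 hd
      omega
    · have h1 := hmin _ hd h
      have h2 := Polynomial.natDegree_derivative_lt (p := m) (by omega)
      omega
  obtain ⟨c, q, hc, hcq⟩ := cb_exists_mul_eq x y m hm0 hm hmin (F.natDegree + 1) F (by omega) hF
  have hcx : Polynomial.aeval x c ≠ 0 := by
    intro h
    exact hc ((transcendental_iff.1 hx) c h)
  have hq : Polynomial.eval y (cb_psiOne x q) = 0 := by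
    have h1 : Polynomial.eval y (Polynomial.derivative (cb_psiOne x (Polynomial.C c * F))) = 0 := by
      rw [map_mul, cb_psiOne_C, Polynomial.derivative_mul, Polynomial.derivative_C]
      simp [hF1]
    rw [hcq, map_mul, Polynomial.derivative_mul, Polynomial.eval_add, Polynomial.eval_mul,
      Polynomial.eval_mul, hm, zero_mul, add_zero] at h1
    exact (mul_eq_zero.1 h1).resolve_left hmT
  have h2 : Polynomial.eval x (Polynomial.derivative (cb_psiTwo y (Polynomial.C c * F))) = 0 := by
    rw [hcq, map_mul, Polynomial.derivative_mul, Polynomial.eval_add, Polynomial.eval_mul,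
      Polynomial.eval_mul, ← cb_psi_eval, ← cb_psi_eval, hm, hq]
    ring
  rw [map_mul, Polynomial.derivative_mul, Polynomial.eval_add, Polynomial.eval_mul,
    Polynomial.eval_mul, ← cb_psi_eval, ← cb_psi_eval, hF, cb_psiOne_C, Polynomial.eval_C, mul_zero,
    zero_add] at h2
  exact (mul_eq_zero.1 h2).resolve_left hcx

lemma cb_irr_pderiv [CharZero κ] {g : MvPolynomial (Fin 2) κ} (hg : Irreducible g)
    (h0 : g ∣ pderiv 0 g) (h1 : g ∣ pderiv 1 g) : False := by
  have hg0 : g ≠ 0 := hg.ne_zero
  have hconst : ∀ a : κ, g ≠ C a := by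
    intro a h
    by_cases ha : a = 0
    · rw [ha, map_zero] at h
      exact hg0 h
    · apply hg.not_isUnit
      rw [h]
      exact (isUnit_iff_ne_zero.2 ha).map C
  have hpos : 0 < g.totalDegree := by
    rcases Nat.eq_zero_or_pos g.totalDegree with h | h
    · exact absurd (totalDegree_eq_zero_iff_eq_C.1 h) (hconst _)
    · exact h
  have key : ∀ i : Fin 2, pderiv i g = 0 := by
    intro i
    have hdvd : g ∣ pderiv i g := by fin_cases i <;> assumption
    by_contra hne
    obtain ⟨q, hq⟩ := hdvd
    have hq0 : q ≠ 0 := by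
      rintro rfl
      exact hne (by rw [hq, mul_zero])
    have h2 := totalDegree_mul_of_isDomain hg0 hq0
    rw [← hq] at h2
    have h3 := cb_totalDegree_pderiv_le i g
    omega
  apply hconst (coeff 0 g)
  ext m
  rw [coeff_C]
  split_ifs with h
  · rw [h]
  · obtain ⟨i, hi⟩ : ∃ i, m i ≠ 0 := by
      by_contra hcon
      push Not at hcon
      exact h (by ext i; simp [hcon i])
    have h4 := cb_coeff_X_mul_pderiv i g m
    rw [key i, mul_zero, coeff_zero] at h4
    exact (mul_eq_zero.1 h4.symm).resolve_left (Nat.cast_ne_zero.2 hi)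

theorem Bt_ne [IsAlgClosed κ] [CharZero κ] {b : Fin 2 → 𝓕} {g : MvPolynomial (Fin 2) κ}
    (hC : CurveField b g) (htan : ∀ α : κ, fq α b ≠ 0) (hd : dq b ≠ 0) :
    aeval b (Bt g) ≠ 0 := by
  intro hB
  have hgb : aeval b g = 0 := (hC.ker g).2 dvd_rfl
  set P : 𝓕 := aeval b (pderiv 0 g) with hP
  set Q : 𝓕 := aeval b (pderiv 1 g) with hQ
  have hPQ : P ^ 2 + (b 0 * P + b 1 * Q) * Q = 0 := by
    have : aeval b (Bt g) = P ^ 2 + (b 0 * P + b 1 * Q) * Q := by
      unfold Bt
      simp only [map_sub, map_mul, map_pow, aeval_X, aeval_C, hgb, hP, hQ]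
      ring
    rw [← this]
    exact hB
  by_cases hQ0 : Q = 0
  · have hP0 : P = 0 := by
      rw [hQ0, mul_zero, add_zero] at hPQ
      exact pow_eq_zero_iff (two_ne_zero) |>.1 hPQ
    exact cb_irr_pderiv hC.irr ((hC.ker _).1 hP0) ((hC.ker _).1 hQ0)
  set x : 𝓕 := P / Q with hx
  have hPx : P = x * Q := by rw [hx]; field_simp
  have hxq : x ^ 2 + b 0 * x + b 1 = 0 := by
    have h1 : Q ^ 2 * (x ^ 2 + b 0 * x + b 1) = 0 := by
      rw [← hPQ, hPx]; ring
    exact (mul_eq_zero.1 h1).resolve_left (pow_ne_zero 2 hQ0)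
  have hxt : Transcendental κ x := by
    intro halg
    have hdeg := IsAlgClosed.degree_eq_one_of_irreducible κ
      (minpoly.irreducible halg.isIntegral)
    obtain ⟨α, hα⟩ := minpoly.mem_range_of_degree_eq_one κ x hdeg
    apply htan α
    unfold fq
    rw [hα]
    exact hxq
  have hsq : (2 * x + b 0) ^ 2 = dq b := by
    unfold dq
    linear_combination 4 * hxq
  have hx2 : 2 * x + b 0 ≠ 0 := by
    intro h
    rw [h] at hsq
    exact hd (by rw [← hsq]; ring)
  -- the curve in the coordinates `x`, `b 0`
  set v : Fin 2 → Polynomial (Polynomial κ) :=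
    ![Polynomial.X, -(Polynomial.C (Polynomial.X : Polynomial κ) * Polynomial.C Polynomial.X) -
      Polynomial.X * Polynomial.C Polynomial.X] with hv
  set F : Polynomial (Polynomial κ) := aeval v g with hF
  have hone : cb_psiOne x F = aeval (fun i => cb_psiOne x (v i)) g := by
    exact cb_psi_aeval _ (fun a => by simp [cb_psiOne]) v g
  have htwo : cb_psiTwo (b 0) F = aeval (fun i => cb_psiTwo (b 0) (v i)) g := by
    exact cb_psi_aeval _ (fun a => by simp [cb_psiTwo]) v g
  have hone0 : cb_psiOne x (v 0) = Polynomial.X := by simp [hv, cb_psiOne]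
  have hone1 : cb_psiOne x (v 1) = -(Polynomial.C x * Polynomial.C x) - Polynomial.X * Polynomial.C x := by
    simp [hv, cb_psiOne]
  have htwo0 : cb_psiTwo (b 0) (v 0) = Polynomial.C (b 0) := by simp [hv, cb_psiTwo]
  have htwo1 : cb_psiTwo (b 0) (v 1) = -(Polynomial.X * Polynomial.X) -
      Polynomial.C (b 0) * Polynomial.X := by
    simp [hv, cb_psiTwo]
  have hb1 : b 1 = -x ^ 2 - b 0 * x := by linear_combination hxq
  have hbone : (fun i => Polynomial.eval (b 0) (cb_psiOne x (v i))) = b := by
    funext i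
    fin_cases i
    · simp [hone0]
    · simp [hone1, hb1]
      ring
  have hbtwo : (fun i => Polynomial.eval x (cb_psiTwo (b 0) (v i))) = b := by
    funext i
    fin_cases i
    · simp [htwo0]
    · simp [htwo1, hb1]
      ring
  have e1 : Polynomial.eval (b 0) (cb_psiOne x F) = 0 := by
    rw [hone, cb_eval_aeval_two, hbone, hgb]
  have e2 : Polynomial.eval (b 0) (Polynomial.derivative (cb_psiOne x F)) = 0 := by
    rw [hone, cb_derivative_aeval_two, Polynomial.eval_add, Polynomial.eval_mul, Polynomial.eval_mul,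
      cb_eval_aeval_two, cb_eval_aeval_two, hbone, ← hP, ← hQ, hone0, hone1, hPx]
    simp
    ring
  have e3 := cb_deriv_eq_zero x (b 0) hxt F e1 e2
  rw [htwo, cb_derivative_aeval_two, Polynomial.eval_add, Polynomial.eval_mul, Polynomial.eval_mul,
    cb_eval_aeval_two, cb_eval_aeval_two, hbtwo, ← hP, ← hQ, htwo0, htwo1] at e3
  have e4 : Q * (2 * x + b 0) = 0 := by
    simp only [Polynomial.derivative_C, Polynomial.eval_zero, mul_zero, zero_add,
      Polynomial.derivative_sub, Polynomial.derivative_neg, Polynomial.derivative_mul,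
      Polynomial.derivative_X, Polynomial.eval_sub, Polynomial.eval_neg, Polynomial.eval_add,
      Polynomial.eval_mul, Polynomial.eval_X, Polynomial.eval_one, Polynomial.eval_C] at e3
    linear_combination -e3
  rcases mul_eq_zero.1 e4 with h | h
  · exact hQ0 h
  · exact hx2 h

end

end Pool.Agent.SST
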