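import Pool.Agent.SST.CurveHilb
import Mathlib.RingTheory.Polynomial.Basic
import Mathlib.FieldTheory.IsAlgClosed.Basic
import Mathlib.LinearAlgebra.Dimension.Constructions
import Mathlib.LinearAlgebra.FiniteDimensional.Lemmas

/-! A basis of the space of polynomials of degree at most `N` with distinct values. -/

open MvPolynomial Module

namespace Pool.Agent.SST

section

variable {κ 𝓕 : Type} [Field κ] [Field 𝓕] [Algebra κ 𝓕]

instance cb_Md_finite (b : Fin 2 → 𝓕) (N : ℕ) : Module.Finite κ (Md κ b N) := by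
  unfold Md
  infer_instance

theorem cb_mem_Md {b : Fin 2 → 𝓕} {N : ℕ} {y : 𝓕} :
    y ∈ Md κ b N ↔ ∃ P : MvPolynomial (Fin 2) κ, P.totalDegree ≤ N ∧ aeval b P = y := by
  unfold Md
  rw [Submodule.mem_map]
  constructor
  · rintro ⟨P, hP, rfl⟩
    exact ⟨P, (mem_restrictTotalDegree _ _ _).1 hP, rfl⟩
  · rintro ⟨P, hP, rfl⟩
    exact ⟨P, (mem_restrictTotalDegree _ _ _).2 hP, rfl⟩

theorem cb_Md_mul {b : Fin 2 → 𝓕} {N M : ℕ} {x y : 𝓕} (hx : x ∈ Md κ b N) (hy : y ∈ Md κ b M) :
    x * y ∈ Md κ b (N + M) := by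
  rw [cb_mem_Md] at *
  obtain ⟨P, hP, rfl⟩ := hx
  obtain ⟨Q, hQ, rfl⟩ := hy
  exact ⟨P * Q, (totalDegree_mul _ _).trans (add_le_add hP hQ), by simp⟩

theorem cb_Md_pow {b : Fin 2 → 𝓕} {N : ℕ} {x : 𝓕} (hx : x ∈ Md κ b N) (k : ℕ) :
    x ^ k ∈ Md κ b (k * N) := by
  induction k with
  | zero => rw [cb_mem_Md]; exact ⟨1, by simp, by simp⟩
  | succ k ih =>
    rw [pow_succ, Nat.succ_mul]
    exact cb_Md_mul ih hx

theorem cb_Md_mono {b : Fin 2 → 𝓕} {N M : ℕ} (h : N ≤ M) : Md κ b N ≤ Md κ b M := by
  intro x hx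
  rw [cb_mem_Md] at *
  obtain ⟨P, hP, rfl⟩ := hx
  exact ⟨P, hP.trans h, rfl⟩

theorem CPlace.cb_le_one {b : Fin 2 → 𝓕} {w : AbsoluteValue 𝓕 ℝ} (hw : CPlace κ b w)
    (P : MvPolynomial (Fin 2) κ) : w (aeval b P) ≤ 1 := by
  have hc : ∀ c : κ, w (algebraMap κ 𝓕 c) ≤ 1 := by
    intro c
    by_cases h : c = 0
    · simp [h]
    · exact (hw.triv c h).le
  induction P using MvPolynomial.induction_on with
  | C a => simpa using hc a
  | add p q hp hq =>
    rw [map_add]
    exact (hw.nonarch _ _).trans (max_le hp hq)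
  | mul_X p i hp =>
    rw [map_mul, aeval_X, map_mul]
    exact mul_le_one₀ hp (w.nonneg _) (hw.le i)

theorem CPlace.cb_add_eq {b : Fin 2 → 𝓕} {w : AbsoluteValue 𝓕 ℝ} (hw : CPlace κ b w) {x y : 𝓕}
    (h : w x < w y) : w (x + y) = w y := by
  apply le_antisymm
  · exact (hw.nonarch x y).trans (max_le h.le le_rfl)
  · have h1 : w y ≤ max (w (x + y)) (w (-x)) := by
      have := hw.nonarch (x + y) (-x)
      rwa [show x + y + -x = y by ring] at this
    rw [AbsoluteValue.map_neg] at h1
    rcases le_max_iff.1 h1 with h2 | h2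
    · exact h2
    · exact absurd h2 (not_le.2 h)

theorem CPlace.cb_add_ne {b : Fin 2 → 𝓕} {w : AbsoluteValue 𝓕 ℝ} (hw : CPlace κ b w) {x y : 𝓕}
    (h : w x ≠ w y) : w (x + y) = w x ∨ w (x + y) = w y := by
  rcases lt_or_gt_of_ne h with h1 | h1
  · exact Or.inr (hw.cb_add_eq h1)
  · left
    rw [add_comm]
    exact hw.cb_add_eq h1

/-- values of polynomials in an element without cb_residue -/
theorem cb_val_poly [IsAlgClosed κ] {w : AbsoluteValue 𝓕 ℝ}
    (htriv : ∀ c : κ, c ≠ 0 → w (algebraMap κ 𝓕 c) = 1) {y : 𝓕}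
    (hy : ∀ c : κ, w (y - algebraMap κ 𝓕 c) = 1) :
    ∀ (n : ℕ) (R : Polynomial κ), R.natDegree = n → R ≠ 0 → w (Polynomial.aeval y R) = 1 := by
  intro n
  induction n with
  | zero =>
    intro R hR h0
    rw [Polynomial.natDegree_eq_zero] at hR
    obtain ⟨c, rfl⟩ := hR
    simp only [Polynomial.aeval_C]
    apply htriv
    rintro rfl
    simp at h0
  | succ n ih =>
    intro R hR h0
    obtain ⟨c, hc⟩ := IsAlgClosed.exists_root R (by
      rw [Polynomial.degree_eq_natDegree h0, hR]
      exact_mod_cast Nat.succ_ne_zero n)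
    obtain ⟨Q, hQ⟩ := Polynomial.dvd_iff_isRoot.2 hc
    have hQ0 : Q ≠ 0 := by
      rintro rfl
      simp at hQ
      exact h0 hQ
    have hd : Q.natDegree = n := by
      have h1 := congrArg Polynomial.natDegree hQ
      rw [Polynomial.natDegree_mul (Polynomial.X_sub_C_ne_zero c) hQ0,
        Polynomial.natDegree_X_sub_C, hR] at h1
      omega
    rw [hQ, map_mul, map_mul, ih Q hd hQ0, mul_one, map_sub, Polynomial.aeval_X,
      Polynomial.aeval_C]
    exact hy c

theorem cb_indep_powers [IsAlgClosed κ] {b : Fin 2 → 𝓕} {w : AbsoluteValue 𝓕 ℝ}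
    (hw : CPlace κ b w) {y T : 𝓕} (hy : ∀ c : κ, w (y - algebraMap κ 𝓕 c) = 1) (hT0 : T ≠ 0)
    (hT : w T < 1) :
    ∀ (J : ℕ) (R : Fin J → Polynomial κ),
      w (∑ j, Polynomial.aeval y (R j) * T ^ (j : ℕ)) ≤ 1 ∧
      (∑ j, Polynomial.aeval y (R j) * T ^ (j : ℕ) = 0 → R = 0) := by
  intro J
  induction J with
  | zero =>
    intro R
    exact ⟨by simp, fun _ => Subsingleton.elim _ _⟩
  | succ J ih =>
    intro R
    have hs : ∑ j : Fin (J + 1), Polynomial.aeval y (R j) * T ^ (j : ℕ) =
        T * (∑ j : Fin J, Polynomial.aeval y (R j.succ) * T ^ (j : ℕ)) +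
          Polynomial.aeval y (R 0) := by
      rw [Fin.sum_univ_succ, Finset.mul_sum, add_comm]
      simp only [Fin.val_zero, pow_zero, mul_one, Fin.val_succ]
      congr 1
      apply Finset.sum_congr rfl
      intro j _
      ring
    obtain ⟨h1, h2⟩ := ih (fun j => R j.succ)
    have h3 : w (T * (∑ j : Fin J, Polynomial.aeval y (R j.succ) * T ^ (j : ℕ))) < 1 := by
      rw [map_mul]
      calc w T * _ ≤ w T * 1 := by gcongr
        _ < 1 := by simpa using hT
    have h4 : w (Polynomial.aeval y (R 0)) ≤ 1 := by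
      by_cases h : R 0 = 0
      · simp [h]
      · exact (cb_val_poly hw.triv hy _ (R 0) rfl h).le
    rw [hs]
    refine ⟨(hw.nonarch _ _).trans (max_le h3.le h4), fun h => ?_⟩
    have h0 : R 0 = 0 := by
      by_contra h0
      have h5 := cb_val_poly hw.triv hy _ (R 0) rfl h0
      have h6 := hw.cb_add_eq (x := T * (∑ j : Fin J, Polynomial.aeval y (R j.succ) * T ^ (j : ℕ)))
        (y := Polynomial.aeval y (R 0)) (by rw [h5]; exact h3)
      rw [h, h5] at h6
      simp at h6
    rw [h0, map_zero, add_zero, mul_eq_zero] at h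
    have h7 := h2 (h.resolve_left hT0)
    funext j
    refine Fin.cases h0 (fun i => ?_) j
    exact congrFun h7 i

theorem cb_exists_small {b : Fin 2 → 𝓕} {g : MvPolynomial (Fin 2) κ}
    (hC : CurveField b g) {w : AbsoluteValue 𝓕 ℝ} (hw : CPlace κ b w) {t : ℝ} (ht : IsGen w t) :
    ∃ P : MvPolynomial (Fin 2) κ, aeval b P ≠ 0 ∧ w (aeval b P) < 1 := by
  obtain ⟨y, hy0, hy⟩ := ht.unif
  obtain ⟨P, Q, hQ, rfl⟩ := hC.frac y
  have hP : aeval b P ≠ 0 := by
    intro h
    rw [h, zero_div] at hy0
    exact hy0 rfl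
  refine ⟨P, hP, ?_⟩
  have h1 : w (aeval b P / aeval b Q) < 1 := by
    have h2 : Real.log (w (aeval b P / aeval b Q)) < 0 := by
      rw [hy]
      linarith [ht.pos]
    exact (Real.log_neg_iff (w.pos hy0)).1 h2
  rw [map_div₀, div_lt_one (w.pos hQ)] at h1
  exact h1.trans_le (hw.cb_le_one Q)

/-- the cb_residue field is the field of constants -/
theorem cb_residue [IsAlgClosed κ] {b : Fin 2 → 𝓕} {g : MvPolynomial (Fin 2) κ}
    (hC : CurveField b g) {w : AbsoluteValue 𝓕 ℝ} (hw : CPlace κ b w) {t : ℝ} (ht : IsGen w t)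
    {y : 𝓕} (hy : w y = 1) : ∃ c : κ, w (y - algebraMap κ 𝓕 c) < 1 := by
  by_contra hcon
  push Not at hcon
  have hc1 : ∀ c : κ, w (algebraMap κ 𝓕 c) ≤ 1 := by
    intro c
    by_cases h : c = 0
    · simp [h]
    · exact (hw.triv c h).le
  have hy1 : ∀ c : κ, w (y - algebraMap κ 𝓕 c) = 1 := by
    intro c
    apply le_antisymm _ (hcon c)
    rw [sub_eq_add_neg]
    apply (hw.nonarch _ _).trans
    rw [AbsoluteValue.map_neg, hy]
    exact max_le le_rfl (hc1 c)
  obtain ⟨P, hP0, hP⟩ := cb_exists_small hC hw ht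
  obtain ⟨A, B, hB, hAB⟩ := hC.frac y
  obtain ⟨c, hc⟩ := hilb hC
  set δ := g.totalDegree with hδ
  set m := P.totalDegree with hm
  set d := max A.totalDegree B.totalDegree with hd
  set k := δ * m with hk
  set J := δ * (k * d) + c with hJ
  set T := aeval b P with hT
  have hAM : aeval b A ∈ Md κ b d := cb_mem_Md.2 ⟨A, le_max_left _ _, rfl⟩
  have hBM : aeval b B ∈ Md κ b d := cb_mem_Md.2 ⟨B, le_max_right _ _, rfl⟩
  have hTM : T ∈ Md κ b m := cb_mem_Md.2 ⟨P, le_rfl, rfl⟩
  -- the polynomials of degree at most `k`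
  have hkey : ∀ R : Polynomial κ, R ∈ Polynomial.degreeLT κ (k + 1) →
      aeval b B ^ k * Polynomial.aeval y R ∈ Md κ b (k * d) := by
    intro R hR
    rw [Polynomial.mem_degreeLT] at hR
    rw [Polynomial.aeval_eq_sum_range' (n := k + 1) (by
      by_cases h0 : R = 0
      · simp [h0]
      · rw [Polynomial.degree_eq_natDegree h0] at hR
        exact_mod_cast hR), Finset.mul_sum]
    apply Submodule.sum_mem
    intro i hi
    rw [Finset.mem_range] at hi
    have h1 : aeval b B ^ k * R.coeff i • y ^ i =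
        R.coeff i • (aeval b A ^ i * aeval b B ^ (k - i)) := by
      rw [hAB, div_pow, mul_smul_comm]
      congr 1
      rw [show k = (k - i) + i by omega, pow_add]
      rw [show k - i + i - i = k - i by omega]
      field_simp
    rw [h1]
    apply Submodule.smul_mem
    have h2 := cb_Md_mul (cb_Md_pow hAM i) (cb_Md_pow hBM (k - i))
    rwa [← add_mul, show i + (k - i) = k by omega] at h2
  let Φ : (Fin (J + 1) → Polynomial.degreeLT κ (k + 1)) →ₗ[κ] Md κ b (k * d + J * m) :=
    { toFun := fun R => ⟨aeval b B ^ k * ∑ j, Polynomial.aeval y (R j : Polynomial κ) * T ^ (j : ℕ),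
        by
          rw [Finset.mul_sum]
          apply Submodule.sum_mem
          intro j _
          rw [← mul_assoc]
          refine cb_Md_mono ?_ (cb_Md_mul (hkey _ (R j).2) (cb_Md_pow hTM (j : ℕ)))
          have := j.2
          gcongr
          omega⟩
      map_add' := by
        intro R S
        ext
        simp only [Pi.add_apply, Submodule.coe_add, map_add, add_mul, Finset.sum_add_distrib,
          mul_add]
      map_smul' := by
        intro a R
        ext
        simp only [Pi.smul_apply, Submodule.coe_smul, map_smul, smul_mul_assoc,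
          ← Finset.smul_sum, mul_smul_comm, RingHom.id_apply] }
  have hinj : Function.Injective Φ := by
    rw [← LinearMap.ker_eq_bot, LinearMap.ker_eq_bot']
    intro R hR
    have h1 : aeval b B ^ k * ∑ j, Polynomial.aeval y (R j : Polynomial κ) * T ^ (j : ℕ) = 0 :=
      congrArg Subtype.val hR
    have h2 := (mul_eq_zero.1 h1).resolve_left (pow_ne_zero _ hB)
    have h3 := (cb_indep_powers hw hy1 hP0 hP (J + 1) (fun j => (R j : Polynomial κ))).2 h2
    funext j
    exact Subtype.ext (congrFun h3 j)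
  have hle := LinearMap.finrank_le_finrank_of_injective hinj
  have hfin : Module.Finite κ (Polynomial.degreeLT κ (k + 1)) :=
    Module.Finite.equiv (Polynomial.degreeLTEquiv κ (k + 1)).symm
  have hdom : finrank κ (Fin (J + 1) → Polynomial.degreeLT κ (k + 1)) = (J + 1) * (k + 1) := by
    rw [Module.finrank_pi_fintype]
    have : finrank κ (Polynomial.degreeLT κ (k + 1)) = k + 1 := by
      rw [LinearEquiv.finrank_eq (Polynomial.degreeLTEquiv κ (k + 1))]
      simp
    simp [this]
  rw [hdom] at hle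
  have h2 := (hc (k * d + J * m)).2
  have h3 := hle.trans h2
  have h4 : δ * (k * d + J * m) = δ * (k * d) + J * k := by rw [hk]; ring
  rw [h4] at h3
  have h5 : (J + 1) * (k + 1) = J * k + J + k + 1 := by ring
  rw [h5] at h3
  omega

/-- elements with distinct values are linearly independent -/
theorem cb_indep_distinct {b : Fin 2 → 𝓕} {w : AbsoluteValue 𝓕 ℝ} (hw : CPlace κ b w) {ι : Type}
    (f : ι → 𝓕) (hf0 : ∀ i, f i ≠ 0) (hf : Function.Injective fun i => w (f i)) :
    LinearIndependent κ f := by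
  classical
  have key : ∀ (s : Finset ι) (c : ι → κ), s.Nonempty → (∀ i ∈ s, c i ≠ 0) →
      ∃ i ∈ s, w (∑ i ∈ s, c i • f i) = w (f i) := by
    intro s c
    induction s using Finset.induction_on with
    | empty => intro h; exact absurd h (by simp)
    | insert a s ha ih =>
      intro _ hc
      have hva : w (c a • f a) = w (f a) := by
        rw [Algebra.smul_def, map_mul, hw.triv _ (hc a (Finset.mem_insert_self _ _)), one_mul]
      rw [Finset.sum_insert ha]
      rcases s.eq_empty_or_nonempty with rfl | hs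
      · exact ⟨a, by simp, by simpa using hva⟩
      · obtain ⟨i, hi, hwi⟩ := ih hs (fun i hi => hc i (Finset.mem_insert_of_mem hi))
        have hne : w (c a • f a) ≠ w (∑ i ∈ s, c i • f i) := by
          rw [hva, hwi]
          intro h
          have := hf h
          subst this
          exact ha hi
        rcases hw.cb_add_ne hne with h | h
        · exact ⟨a, Finset.mem_insert_self _ _, by rw [h, hva]⟩
        · exact ⟨i, Finset.mem_insert_of_mem hi, by rw [h, hwi]⟩
  rw [linearIndependent_iff']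
  intro s c hs i hi
  by_contra hci
  have hne : (s.filter fun i => c i ≠ 0).Nonempty := ⟨i, by simp [hi, hci]⟩
  obtain ⟨j, hj, hwj⟩ := key (s.filter fun i => c i ≠ 0) c hne (fun i hi => (Finset.mem_filter.1 hi).2)
  have h1 : ∑ i ∈ s.filter (fun i => c i ≠ 0), c i • f i = 0 := by
    rw [← hs]
    apply Finset.sum_subset (Finset.filter_subset _ _)
    intro x hx hx2
    have : c x = 0 := by
      by_contra h
      exact hx2 (Finset.mem_filter.2 ⟨hx, h⟩)
    simp [this]
  rw [h1, map_zero] at hwj
  exact hf0 j ((w.eq_zero).1 hwj.symm)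

/-- existence of bases with distinct values -/
theorem cb_exists_distinct [IsAlgClosed κ] {b : Fin 2 → 𝓕} {g : MvPolynomial (Fin 2) κ}
    (hC : CurveField b g) {w : AbsoluteValue 𝓕 ℝ} (hw : CPlace κ b w) {t : ℝ} (ht : IsGen w t)
    (M : Submodule κ 𝓕) [Module.Finite κ M] :
    ∀ k : ℕ, k ≤ finrank κ M → ∃ f : Fin k → 𝓕, (∀ i, f i ∈ M) ∧ (∀ i, f i ≠ 0) ∧
      Function.Injective fun i => w (f i) := by
  intro k
  induction k with
  | zero => intro _; exact ⟨Fin.elim0, fun i => i.elim0, fun i => i.elim0, fun i => i.elim0⟩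
  | succ k ih =>
    intro hk
    obtain ⟨f, hfM, hf0, hf⟩ := ih (by omega)
    -- an element outside the span
    have hex : ∃ v ∈ M, v ∉ Submodule.span κ (Set.range f) := by
      by_contra hcon
      push Not at hcon
      have h1 : M ≤ Submodule.span κ (Set.range f) := hcon
      have : Module.Finite κ (Submodule.span κ (Set.range f)) :=
        FiniteDimensional.span_of_finite κ (Set.finite_range f)
      have h2 := Submodule.finrank_mono h1
      have h3 := finrank_range_le_card (R := κ) f
      rw [Set.finrank, Fintype.card_fin] at h3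
      omega
    obtain ⟨v, hvM, hv⟩ := hex
    -- an element of the coset with a new value
    have hnew : ∃ u, u - v ∈ Submodule.span κ (Set.range f) ∧ ∀ i, w u ≠ w (f i) := by
      by_contra hcon
      push Not at hcon
      set S : Set 𝓕 := {u | u - v ∈ Submodule.span κ (Set.range f)} with hS
      have hfin : (w '' S).Finite := by
        apply (Set.finite_range fun i => w (f i)).subset
        rintro _ ⟨u, hu, rfl⟩
        obtain ⟨i, hi⟩ := hcon u hu
        exact ⟨i, hi.symm⟩
      obtain ⟨z, hz, hmin⟩ := Set.exists_min_image (w '' S) id hfin ⟨w v, v, by simp [hS], rfl⟩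
      obtain ⟨u, hu, rfl⟩ := hz
      obtain ⟨i, hi⟩ := hcon u hu
      have hu0 : u ≠ 0 := by
        rintro rfl
        rw [map_zero] at hi
        exact hf0 i (w.eq_zero.1 hi.symm)
      have h1 : w (u / f i) = 1 := by
        rw [map_div₀, hi, div_self]
        exact (w.pos (hf0 i)).ne'
      obtain ⟨c, hc⟩ := cb_residue hC hw ht h1
      have h2 : w (u - c • f i) < w u := by
        have h3 : u - c • f i = (u / f i - algebraMap κ 𝓕 c) * f i := by
          rw [Algebra.smul_def]
          have := hf0 i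
          field_simp
        rw [h3, map_mul, hi]
        exact mul_lt_of_lt_one_left (w.pos (hf0 i)) hc
      have h3 : u - c • f i ∈ S := by
        change u - c • f i - v ∈ Submodule.span κ (Set.range f)
        rw [show u - c • f i - v = (u - v) - c • f i by ring]
        exact Submodule.sub_mem _ hu (Submodule.smul_mem _ _ (Submodule.subset_span ⟨i, rfl⟩))
      have h4 := hmin _ ⟨_, h3, rfl⟩
      simp only [id] at h4
      linarith
    obtain ⟨u, hu, hui⟩ := hnew
    have hspan : Submodule.span κ (Set.range f) ≤ M := by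
      rw [Submodule.span_le]
      rintro _ ⟨i, rfl⟩
      exact hfM i
    have huM : u ∈ M := by
      have := Submodule.add_mem _ (hspan hu) hvM
      simpa using this
    have hu0 : u ≠ 0 := by
      rintro rfl
      apply hv
      rw [zero_sub, Submodule.neg_mem_iff] at hu
      exact hu
    refine ⟨Fin.cons u f, ?_, ?_, ?_⟩
    · intro i
      refine Fin.cases ?_ (fun j => ?_) i
      · simpa using huM
      · simpa using hfM j
    · intro i
      refine Fin.cases ?_ (fun j => ?_) i
      · simpa using hu0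
      · simpa using hf0 j
    · intro i j
      refine Fin.cases ?_ (fun i' => ?_) i
      · refine Fin.cases (fun _ => rfl) (fun j' => ?_) j
        intro h
        simp only [Fin.cons_zero, Fin.cons_succ] at h
        exact absurd h (hui j')
      · refine Fin.cases ?_ (fun j' => ?_) j
        · intro h
          simp only [Fin.cons_zero, Fin.cons_succ] at h
          exact absurd h.symm (hui i')
        · intro h
          simp only [Fin.cons_succ] at h
          rw [hf h]

theorem exists_adapted [IsAlgClosed κ] {b : Fin 2 → 𝓕} {g : MvPolynomial (Fin 2) κ}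
    (hC : CurveField b g) {w : AbsoluteValue 𝓕 ℝ} (hw : CPlace κ b w) {t : ℝ} (ht : IsGen w t)
    (N : ℕ) :
    ∃ (A : Fin (finrank κ (Md κ b N)) → MvPolynomial (Fin 2) κ)
      (e : Fin (finrank κ (Md κ b N)) → ℕ), (∀ i, (A i).totalDegree ≤ N) ∧
      LinearIndependent κ (fun i => aeval b (A i)) ∧ Function.Injective e ∧
      ∀ i, Real.log (w (aeval b (A i))) = -(e i * t) := by
  obtain ⟨f, hfM, hf0, hf⟩ := cb_exists_distinct hC hw ht (Md κ b N) _ le_rfl
  choose A hAN hA using fun i => cb_mem_Md.1 (hfM i)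
  choose n hn using fun i => ht.val (f i) (hf0 i)
  have hn0 : ∀ i, n i ≤ 0 := by
    intro i
    have h1 : w (f i) ≤ 1 := by rw [← hA i]; exact hw.cb_le_one _
    have h2 : Real.log (w (f i)) ≤ 0 := Real.log_nonpos (w.nonneg _) h1
    rw [hn i] at h2
    have h3 : (n i : ℝ) ≤ 0 := by
      by_contra h
      push Not at h
      have := mul_pos h ht.pos
      linarith
    exact_mod_cast h3
  refine ⟨A, fun i => (-n i).toNat, hAN, ?_, ?_, ?_⟩
  · simp only [hA]
    exact cb_indep_distinct hw f hf0 hf
  · intro i j hij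
    have h1 : n i = n j := by
      have hi := hn0 i
      have hj := hn0 j
      simp only at hij
      omega
    apply hf
    simp only
    have h2 : Real.log (w (f i)) = Real.log (w (f j)) := by rw [hn i, hn j, h1]
    exact Real.log_injOn_pos (w.pos (hf0 i)) (w.pos (hf0 j)) h2
  · intro i
    rw [hA i, hn i]
    have h1 : (((-n i).toNat : ℤ) : ℝ) = -(n i : ℝ) := by
      rw [Int.toNat_of_nonneg (by have := hn0 i; omega)]
      push_cast
      ring
    have h2 : (((-n i).toNat : ℕ) : ℝ) = -(n i : ℝ) := by exact_mod_cast h1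
    rw [h2]
    ring

end

end Pool.Agent.SST
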