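import Pool.Agent.SST.CurveIndep
import Mathlib.RingTheory.Polynomial.Basic
import Mathlib.Algebra.Order.Ring.IsNonarchimedean

/-! The degree of a divisor on a plane curve at one or two places. -/

open MvPolynomial Module

namespace Pool.Agent.SST

section

variable {κ 𝓕 : Type} [Field κ] [Field 𝓕] [Algebra κ 𝓕]

theorem CPlace.bz_const_le {b : Fin 2 → 𝓕} {w : AbsoluteValue 𝓕 ℝ} (hw : CPlace κ b w) (c : κ) :
    w (algebraMap κ 𝓕 c) ≤ 1 := by
  by_cases hc : c = 0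
  · subst hc; simp
  · exact (hw.triv c hc).le

/-- polynomials in the coordinates are integral at a place -/
theorem CPlace.bz_poly_le {b : Fin 2 → 𝓕} {w : AbsoluteValue 𝓕 ℝ} (hw : CPlace κ b w)
    (P : MvPolynomial (Fin 2) κ) : w (aeval b P) ≤ 1 := by
  induction P using MvPolynomial.induction_on with
  | C c => simpa using hw.bz_const_le c
  | add p q hp hq =>
    rw [map_add]
    exact (hw.nonarch _ _).trans (max_le hp hq)
  | mul_X p i hp =>
    rw [map_mul, map_mul, aeval_X]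
    calc w (aeval b p) * w (b i) ≤ 1 * 1 :=
          mul_le_mul hp (hw.le i) (w.nonneg _) (by norm_num)
      _ = 1 := by norm_num

/-- polynomials in an integral element are integral -/
theorem CPlace.bz_aeval_le {b : Fin 2 → 𝓕} {w : AbsoluteValue 𝓕 ℝ} (hw : CPlace κ b w)
    {T : 𝓕} (hT : w T ≤ 1) (c : Polynomial κ) : w (Polynomial.aeval T c) ≤ 1 := by
  induction c using Polynomial.induction_on with
  | C c => simpa using hw.bz_const_le c
  | add p q hp hq =>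
    rw [map_add]
    exact (hw.nonarch _ _).trans (max_le hp hq)
  | monomial n c _ =>
    rw [map_mul, map_mul, map_pow, map_pow, Polynomial.aeval_C, Polynomial.aeval_X]
    calc w (algebraMap κ 𝓕 c) * w T ^ (n + 1) ≤ 1 * 1 :=
          mul_le_mul (hw.bz_const_le c) (pow_le_one₀ (w.nonneg _) hT) (by positivity) (by norm_num)
      _ = 1 := by norm_num

theorem CPlace.bz_aeval_dvd {b : Fin 2 → 𝓕} {w : AbsoluteValue 𝓕 ℝ} (hw : CPlace κ b w)
    {T : 𝓕} (hT : w T ≤ 1) {c : Polynomial κ} (hc : Polynomial.X ∣ c) :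
    w (Polynomial.aeval T c) ≤ w T := by
  obtain ⟨d, rfl⟩ := hc
  rw [map_mul, map_mul, Polynomial.aeval_X]
  calc w T * w (Polynomial.aeval T d) ≤ w T * 1 :=
        mul_le_mul_of_nonneg_left (hw.bz_aeval_le hT d) (w.nonneg _)
    _ = w T := mul_one _

theorem CPlace.bz_aeval_not_dvd {b : Fin 2 → 𝓕} {w : AbsoluteValue 𝓕 ℝ} (hw : CPlace κ b w)
    {T : 𝓕} (hT : w T < 1) {c : Polynomial κ} (hc : ¬ Polynomial.X ∣ c) :
    w (Polynomial.aeval T c) = 1 := by
  have h0 : c.coeff 0 ≠ 0 := fun h => hc (Polynomial.X_dvd_iff.mpr h)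
  have h1 : c = Polynomial.X * c.divX + Polynomial.C (c.coeff 0) :=
    (Polynomial.X_mul_divX_add c).symm
  have h2 : Polynomial.aeval T c =
      T * Polynomial.aeval T c.divX + algebraMap κ 𝓕 (c.coeff 0) := by
    have h2' := congrArg (Polynomial.aeval T) h1
    rwa [map_add, map_mul, Polynomial.aeval_X, Polynomial.aeval_C] at h2'
  rw [h2]
  have h3 : w (algebraMap κ 𝓕 (c.coeff 0)) = 1 := hw.triv _ h0
  have h4 : w (T * Polynomial.aeval T c.divX) < w (algebraMap κ 𝓕 (c.coeff 0)) := by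
    rw [h3, map_mul]
    calc w T * w (Polynomial.aeval T c.divX) ≤ w T * 1 :=
          mul_le_mul_of_nonneg_left (hw.bz_aeval_le hT.le _) (w.nonneg _)
      _ < 1 := by rw [mul_one]; exact hT
  have h5 : IsNonarchimedean (w : 𝓕 → ℝ) := fun x y => hw.nonarch x y
  have h6 := IsNonarchimedean.apply_sum_eq_of_lt h5 (fun a => (w.map_neg a).symm)
    (s := (Finset.univ : Finset (Fin 2)))
    (l := ![T * Polynomial.aeval T c.divX, algebraMap κ 𝓕 (c.coeff 0)]) (k := 1)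
    (Finset.mem_univ _) (by
      intro j _ hj
      fin_cases j
      · simpa using h4
      · exact absurd rfl hj)
  simpa [h3] using h6

/-- the coefficients of a relation vanish at the origin on the set `p` of indices -/
theorem CPlace.bz_rel_dvd {b : Fin 2 → 𝓕} {w : AbsoluteValue 𝓕 ℝ} (hw : CPlace κ b w)
    {T : 𝓕} {t : ℝ} (ht : 0 < t) {e : ℕ} (he : 0 < e) (hT : w T = Real.exp (-(e * t)))
    {ι : Type} [Fintype ι] (y : ι → 𝓕) (p : ι → Prop) (k : ι → ℕ)
    (hk : ∀ i, p i → k i < e ∧ w (y i) = Real.exp (-(k i * t)))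
    (hinj : ∀ i j, p i → p j → k i = k j → i = j)
    (hn : ∀ i, ¬ p i → w (y i) ≤ Real.exp (-(e * t)))
    (c : ι → Polynomial κ) (hc : ∑ i, Polynomial.aeval T (c i) * y i = 0) :
    ∀ i, p i → Polynomial.X ∣ c i := by
  classical
  by_contra hcon
  push Not at hcon
  have hT1 : w T < 1 := by
    rw [hT, Real.exp_lt_one_iff]
    have : (0 : ℝ) < e * t := by positivity
    linarith
  let S : Finset ι := Finset.univ.filter (fun i => p i ∧ ¬ Polynomial.X ∣ c i)
  have hS : S.Nonempty := by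
    obtain ⟨i, hi, hi'⟩ := hcon
    exact ⟨i, by simp [S, hi, hi']⟩
  obtain ⟨j0, hj0, hmin⟩ := S.exists_min_image k hS
  have hj0' : p j0 ∧ ¬ Polynomial.X ∣ c j0 := by simpa [S] using hj0
  have h5 : IsNonarchimedean (w : 𝓕 → ℝ) := fun x y => hw.nonarch x y
  have hv : w (Polynomial.aeval T (c j0) * y j0) = Real.exp (-(k j0 * t)) := by
    rw [map_mul, hw.bz_aeval_not_dvd hT1 hj0'.2, one_mul, (hk j0 hj0'.1).2]
  have hlt : Real.exp (-(e * t)) < Real.exp (-(k j0 * t)) := by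
    rw [Real.exp_lt_exp]
    have h1 : (k j0 : ℝ) < e := by exact_mod_cast (hk j0 hj0'.1).1
    nlinarith
  have h6 := IsNonarchimedean.apply_sum_eq_of_lt h5 (fun a => (w.map_neg a).symm)
    (s := (Finset.univ : Finset ι)) (l := fun i => Polynomial.aeval T (c i) * y i) (k := j0)
    (Finset.mem_univ _) (by
      intro j _ hj
      show w (Polynomial.aeval T (c j) * y j) < w (Polynomial.aeval T (c j0) * y j0)
      rw [hv, map_mul]
      by_cases hpj : p j
      · by_cases hd : Polynomial.X ∣ c j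
        · calc w (Polynomial.aeval T (c j)) * w (y j) ≤ w T * 1 := by
                refine mul_le_mul (hw.bz_aeval_dvd hT1.le hd) ?_ (w.nonneg _) (w.nonneg _)
                rw [(hk j hpj).2, Real.exp_le_one_iff]
                have : (0 : ℝ) ≤ k j * t := by positivity
                linarith
            _ = Real.exp (-(e * t)) := by rw [mul_one, hT]
            _ < _ := hlt
        · have h7 : k j0 ≤ k j := hmin j (by simp [S, hpj, hd])
          have h8 : k j0 ≠ k j := fun h => hj (hinj _ _ hj0'.1 hpj h).symm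
          have h9 : k j0 < k j := lt_of_le_of_ne h7 h8
          rw [hw.bz_aeval_not_dvd hT1 hd, one_mul, (hk j hpj).2, Real.exp_lt_exp]
          have h10 : (k j0 : ℝ) < k j := by exact_mod_cast h9
          nlinarith
      · calc w (Polynomial.aeval T (c j)) * w (y j) ≤ 1 * Real.exp (-(e * t)) :=
              mul_le_mul (hw.bz_aeval_le hT1.le _) (hn j hpj) (w.nonneg _) (by norm_num)
          _ = Real.exp (-(e * t)) := one_mul _
          _ < _ := hlt)
  rw [hc, map_zero, hv] at h6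
  exact absurd h6 (Real.exp_pos _).ne

/-- if the coefficients of all relations vanish at the origin, all relations are trivial -/
theorem bz_rel_zero {T : 𝓕} (hT : T ≠ 0) {ι : Type} [Fintype ι] (y : ι → 𝓕)
    (h : ∀ c : ι → Polynomial κ, ∑ i, Polynomial.aeval T (c i) * y i = 0 →
      ∀ i, Polynomial.X ∣ c i)
    (c : ι → Polynomial κ) (hc : ∑ i, Polynomial.aeval T (c i) * y i = 0) : c = 0 := by
  have key : ∀ n : ℕ, ∀ c : ι → Polynomial κ, ∑ i, Polynomial.aeval T (c i) * y i = 0 →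
      ∀ i, Polynomial.X ^ n ∣ c i := by
    intro n
    induction n with
    | zero => intro c _ i; simp
    | succ n ih =>
      intro c hc i
      choose d hd using h c hc
      have h1 : ∑ i, Polynomial.aeval T (d i) * y i = 0 := by
        have h2 : T * ∑ i, Polynomial.aeval T (d i) * y i = 0 := by
          rw [← hc, Finset.mul_sum]
          refine Finset.sum_congr rfl fun i _ => ?_
          rw [hd i, map_mul, Polynomial.aeval_X, mul_assoc]
        exact (mul_eq_zero.mp h2).resolve_left hT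
      rw [hd i, pow_succ']
      exact mul_dvd_mul_left _ (ih d h1 i)
  funext i
  by_contra hne
  have h1 := Polynomial.natDegree_le_of_dvd (key ((c i).natDegree + 1) c hc i) hne
  rw [Polynomial.natDegree_X_pow] at h1
  omega

/-- the order of an integral nonzero element -/
theorem bz_exists_ord {w : AbsoluteValue 𝓕 ℝ} {t : ℝ} (ht : IsGen w t) {T : 𝓕} (hT0 : T ≠ 0)
    (hT : w T ≤ 1) : ∃ e : ℕ, w T = Real.exp (-(e * t)) := by
  obtain ⟨n, hn⟩ := ht.val T hT0
  have hpos : 0 < w T := w.pos hT0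
  have h1 : Real.log (w T) ≤ 0 := Real.log_nonpos hpos.le hT
  rw [hn] at h1
  have h2 : (n : ℝ) ≤ 0 := by
    by_contra h
    push Not at h
    have := mul_pos h ht.pos
    linarith
  have h3 : n ≤ 0 := by exact_mod_cast h2
  obtain ⟨e, he⟩ := Int.eq_ofNat_of_zero_le (neg_nonneg.mpr h3)
  refine ⟨e, ?_⟩
  rw [← Real.exp_log hpos, hn]
  congr 1
  have h4 : (e : ℝ) = -n := by exact_mod_cast he.symm
  rw [h4]; ring

theorem bz_exists_unif {w : AbsoluteValue 𝓕 ℝ} {t : ℝ} (ht : IsGen w t) :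
    ∃ y : 𝓕, y ≠ 0 ∧ w y = Real.exp (-t) := by
  obtain ⟨y, hy0, hy⟩ := ht.unif
  refine ⟨y, hy0, ?_⟩
  rw [← Real.exp_log (w.pos hy0), hy]

theorem bezout_one {b : Fin 2 → 𝓕} {g : MvPolynomial (Fin 2) κ}
    (hC : CurveField b g) {w : AbsoluteValue 𝓕 ℝ} (hw : CPlace κ b w) {t : ℝ} (ht : IsGen w t)
    (P : MvPolynomial (Fin 2) κ) (m : ℕ) (hPm : P.totalDegree ≤ m) (hP : aeval b P ≠ 0) :
    -Real.log (w (aeval b P)) / t ≤ m * g.totalDegree := by
  obtain ⟨e, he⟩ := bz_exists_ord ht hP (hw.bz_poly_le P)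
  obtain ⟨y, hy0, hy⟩ := bz_exists_unif ht
  have h1 : -Real.log (w (aeval b P)) / t = e := by
    rw [he, Real.log_exp, neg_neg, mul_div_assoc, div_self ht.pos.ne', mul_one]
  rw [h1]
  rcases Nat.eq_zero_or_pos e with h0 | hepos
  · rw [h0, Nat.cast_zero]
    exact_mod_cast Nat.zero_le _
  · have h2 := indep_le hC P m hPm (s := e) (fun i => y ^ (i : ℕ)) (by
      intro c hc
      refine bz_rel_zero hP (fun i : Fin e => y ^ (i : ℕ)) ?_ c hc
      intro c hc i
      exact hw.bz_rel_dvd ht.pos hepos he (fun i : Fin e => y ^ (i : ℕ)) (fun _ => True)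
        (fun i => (i : ℕ)) (fun i _ => ⟨i.2, by
          rw [map_pow, hy, ← Real.exp_nat_mul]
          congr 1
          ring⟩) (fun i j _ _ h => Fin.ext h) (fun i h => absurd trivial h) c hc i trivial)
    exact_mod_cast h2

theorem bz_exists_approx {b : Fin 2 → 𝓕} {w₁ w₂ : AbsoluteValue 𝓕 ℝ} (hw₁ : CPlace κ b w₁)
    (hw₂ : CPlace κ b w₂) (h₁ : w₁.IsNontrivial) (h₂ : w₂.IsNontrivial)
    (hne : ¬ w₁.IsEquiv w₂) {y : 𝓕} (hy : y ≠ 0) :
    ∃ z : 𝓕, w₁ z = w₁ y ∧ w₂ z = 1 := by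
  obtain ⟨a, ha₁, ha₂⟩ := AbsoluteValue.exists_one_lt_lt_one_of_not_isEquiv h₁ h₂ hne
  have hn₁ : IsNonarchimedean (w₁ : 𝓕 → ℝ) := fun x y => hw₁.nonarch x y
  have hn₂ : IsNonarchimedean (w₂ : 𝓕 → ℝ) := fun x y => hw₂.nonarch x y
  have hy1 : 0 < w₁ y := w₁.pos hy
  have hy2 : 0 < w₂ y := w₂.pos hy
  obtain ⟨n1, hn1⟩ := exists_pow_lt_of_lt_one hy1 (inv_lt_one_of_one_lt₀ ha₁)
  obtain ⟨n2, hn2⟩ := exists_pow_lt_of_lt_one (inv_pos.mpr hy2) ha₂
  set n := max (max n1 n2) 1 with hn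
  have hnn1 : n1 ≤ n := le_trans (le_max_left _ _) (le_max_left _ _)
  have hnn2 : n2 ≤ n := le_trans (le_max_right _ _) (le_max_left _ _)
  have hnpos : n ≠ 0 := by
    have : 1 ≤ n := le_max_right _ _
    omega
  have ha0 : a ≠ 0 := by
    intro h
    rw [h, map_zero] at ha₁
    linarith
  have A1 : 1 < w₁ (a ^ n) := by
    rw [map_pow]; exact one_lt_pow₀ ha₁ hnpos
  have A2 : w₂ (a ^ n) < 1 := by
    rw [map_pow]; exact pow_lt_one₀ (w₂.nonneg _) ha₂ hnpos
  have B1 : w₁ (1 + a ^ n) = w₁ (a ^ n) :=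
    IsNonarchimedean.add_eq_right_of_lt hn₁ (by rw [map_one]; exact A1)
  have B2 : w₂ (1 + a ^ n) = 1 := by
    rw [IsNonarchimedean.add_eq_left_of_lt hn₂ (by rw [map_one]; exact A2), map_one]
  have hne0 : 1 + a ^ n ≠ 0 := by
    intro h
    rw [h, map_zero] at B2
    norm_num at B2
  have A1' : 0 < w₁ (a ^ n) := by linarith
  refine ⟨(y * a ^ n + 1) / (1 + a ^ n), ?_, ?_⟩
  · have h3 : w₁ (1 : 𝓕) < w₁ (y * a ^ n) := by
      rw [map_one, map_mul]
      have h4 : (w₁ a)⁻¹ ^ n ≤ (w₁ a)⁻¹ ^ n1 :=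
        pow_le_pow_of_le_one (by positivity) (inv_lt_one_of_one_lt₀ ha₁).le hnn1
      have h5 : (w₁ (a ^ n))⁻¹ < w₁ y := by
        rw [map_pow, ← inv_pow]
        exact lt_of_le_of_lt h4 hn1
      have h6 := mul_lt_mul_of_pos_right h5 A1'
      rwa [inv_mul_cancel₀ A1'.ne'] at h6
    rw [map_div₀, IsNonarchimedean.add_eq_left_of_lt hn₁ h3, B1, map_mul,
      mul_div_assoc, div_self A1'.ne', mul_one]
  · have h3 : w₂ (y * a ^ n) < w₂ (1 : 𝓕) := by
      rw [map_one, map_mul]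
      have h4 : (w₂ a) ^ n ≤ (w₂ a) ^ n2 :=
        pow_le_pow_of_le_one (w₂.nonneg _) ha₂.le hnn2
      have h5 : w₂ (a ^ n) < (w₂ y)⁻¹ := by
        rw [map_pow]
        exact lt_of_le_of_lt h4 hn2
      have h6 := mul_lt_mul_of_pos_left h5 hy2
      rwa [mul_inv_cancel₀ hy2.ne'] at h6
    rw [map_div₀, IsNonarchimedean.add_eq_right_of_lt hn₂ h3, B2, map_one, div_one]

theorem IsGen.bz_nontriv {w : AbsoluteValue 𝓕 ℝ} {t : ℝ} (ht : IsGen w t) : w.IsNontrivial := by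
  obtain ⟨y, hy0, hy⟩ := bz_exists_unif ht
  refine ⟨y, hy0, ?_⟩
  rw [hy]
  have : Real.exp (-t) < 1 := by
    rw [Real.exp_lt_one_iff]
    have := ht.pos
    linarith
  exact this.ne

theorem bezout_two {b : Fin 2 → 𝓕} {g : MvPolynomial (Fin 2) κ}
    (hC : CurveField b g) {w₁ w₂ : AbsoluteValue 𝓕 ℝ} (hw₁ : CPlace κ b w₁)
    (hw₂ : CPlace κ b w₂) {t₁ t₂ : ℝ} (ht₁ : IsGen w₁ t₁) (ht₂ : IsGen w₂ t₂)
    (hne : ¬ w₁.IsEquiv w₂) (P : MvPolynomial (Fin 2) κ) (m : ℕ) (hPm : P.totalDegree ≤ m)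
    (hP : aeval b P ≠ 0) :
    -Real.log (w₁ (aeval b P)) / t₁ + -Real.log (w₂ (aeval b P)) / t₂ ≤ m * g.totalDegree := by
  obtain ⟨e₁, he₁⟩ := bz_exists_ord ht₁ hP (hw₁.bz_poly_le P)
  obtain ⟨e₂, he₂⟩ := bz_exists_ord ht₂ hP (hw₂.bz_poly_le P)
  have h1 : -Real.log (w₁ (aeval b P)) / t₁ = e₁ := by
    rw [he₁, Real.log_exp, neg_neg, mul_div_assoc, div_self ht₁.pos.ne', mul_one]
  have h2 : -Real.log (w₂ (aeval b P)) / t₂ = e₂ := by
    rw [he₂, Real.log_exp, neg_neg, mul_div_assoc, div_self ht₂.pos.ne', mul_one]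
  rcases Nat.eq_zero_or_pos e₁ with h0 | hpos₁
  · have h3 := bezout_one hC hw₂ ht₂ P m hPm hP
    rw [h1, h0, Nat.cast_zero, zero_add]
    exact h3
  rcases Nat.eq_zero_or_pos e₂ with h0 | hpos₂
  · have h3 := bezout_one hC hw₁ ht₁ P m hPm hP
    rw [h2, h0, Nat.cast_zero, add_zero]
    exact h3
  rw [h1, h2]
  obtain ⟨y₁, hy₁0, hy₁⟩ := bz_exists_unif ht₁
  obtain ⟨y₂, hy₂0, hy₂⟩ := bz_exists_unif ht₂
  obtain ⟨z₁, hz₁, hz₁'⟩ := bz_exists_approx hw₁ hw₂ ht₁.bz_nontriv ht₂.bz_nontriv hne hy₁0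
  obtain ⟨z₂, hz₂, hz₂'⟩ := bz_exists_approx hw₂ hw₁ ht₂.bz_nontriv ht₁.bz_nontriv
    (fun h => hne h.symm) hy₂0
  rw [hy₁] at hz₁
  rw [hy₂] at hz₂
  have q1 : ∀ j k : ℕ, w₁ (z₁ ^ j * z₂ ^ k) = Real.exp (-(j * t₁)) := by
    intro j k
    rw [map_mul, map_pow, map_pow, hz₁, hz₂', one_pow, mul_one, ← Real.exp_nat_mul]
    congr 1
    ring
  have q2 : ∀ j k : ℕ, w₂ (z₁ ^ j * z₂ ^ k) = Real.exp (-(k * t₂)) := by
    intro j k
    rw [map_mul, map_pow, map_pow, hz₂, hz₁', one_pow, one_mul, ← Real.exp_nat_mul]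
    congr 1
    ring
  let Y : Fin (e₁ + e₂) → 𝓕 :=
    Fin.addCases (fun j => z₁ ^ (j : ℕ) * z₂ ^ e₂) (fun j => z₁ ^ e₁ * z₂ ^ (j : ℕ))
  have hYl : ∀ i : Fin (e₁ + e₂), (i : ℕ) < e₁ → Y i = z₁ ^ (i : ℕ) * z₂ ^ e₂ := by
    intro i hi
    have h3 : i = Fin.castAdd e₂ ⟨i, hi⟩ := Fin.ext rfl
    rw [h3]
    exact Fin.addCases_left _
  have hYr : ∀ i : Fin (e₁ + e₂), ¬ (i : ℕ) < e₁ →
      Y i = z₁ ^ e₁ * z₂ ^ ((i : ℕ) - e₁) := by
    intro i hi
    have h4 : (i : ℕ) - e₁ < e₂ := by have := i.2; omega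
    have h3 : i = Fin.natAdd e₁ ⟨(i : ℕ) - e₁, h4⟩ := by
      apply Fin.ext
      simp only [Fin.val_natAdd]
      omega
    rw [h3]
    simp only [Fin.val_natAdd, Nat.add_sub_cancel_left]
    exact Fin.addCases_right _
  have h3 := indep_le hC P m hPm (s := e₁ + e₂) Y (by
    intro c hc
    refine bz_rel_zero hP Y ?_ c hc
    intro c hc i
    by_cases hi : (i : ℕ) < e₁
    · exact hw₁.bz_rel_dvd ht₁.pos hpos₁ he₁ Y (fun i => (i : ℕ) < e₁) (fun i => (i : ℕ))
        (fun i hi => ⟨hi, by rw [hYl i hi, q1]⟩) (fun i j _ _ h => Fin.ext h)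
        (fun i hi => by rw [hYr i hi, q1]) c hc i hi
    · exact hw₂.bz_rel_dvd ht₂.pos hpos₂ he₂ Y (fun i => ¬ (i : ℕ) < e₁) (fun i => (i : ℕ) - e₁)
        (fun i hi => ⟨by have := i.2; omega, by rw [hYr i hi, q2]⟩)
        (fun i j hi hj h => Fin.ext (by omega))
        (fun i hi => by
          rw [not_not] at hi
          rw [hYl i hi, q2]) c hc i hi)
  exact_mod_cast h3

end

end Pool.Agent.SST
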