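import Pool.Agent.SST.CurveDefs
import Mathlib

/-! Polynomial changes of coordinates of plane curves. -/

open MvPolynomial

namespace Pool.Agent.SST

section Alg

variable {κ 𝓕 : Type} [Field κ] [Field 𝓕] [Algebra κ 𝓕]

theorem CurveCoord_aeval (b : Fin 2 → 𝓕)
    (φ : MvPolynomial (Fin 2) κ →ₐ[κ] MvPolynomial (Fin 2) κ) (P : MvPolynomial (Fin 2) κ) :
    aeval (fun i => aeval b (φ (X i))) P = aeval b (φ P) := by
  have h : aeval (fun i => aeval b (φ (X i))) = (aeval b : _ →ₐ[κ] 𝓕).comp φ := by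
    apply MvPolynomial.algHom_ext
    intro i
    simp
  rw [h]
  rfl

theorem CurveField.coord {b : Fin 2 → 𝓕} {g : MvPolynomial (Fin 2) κ} (hC : CurveField b g)
    (φ : MvPolynomial (Fin 2) κ ≃ₐ[κ] MvPolynomial (Fin 2) κ) :
    CurveField (fun i => aeval b (φ (X i))) (φ.symm g) := by
  have key : ∀ P, aeval (fun i => aeval b (φ (X i))) P = aeval b (φ P) := fun P =>
    CurveCoord_aeval b (φ : MvPolynomial (Fin 2) κ →ₐ[κ] MvPolynomial (Fin 2) κ) P
  refine ⟨?_, fun P => ?_, fun y => ?_⟩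
  · exact (MulEquiv.irreducible_iff φ.symm.toMulEquiv).2 hC.irr
  · rw [key, hC.ker]
    constructor
    · intro h
      have := map_dvd φ.symm h
      rwa [AlgEquiv.symm_apply_apply] at this
    · intro h
      have := map_dvd φ h
      rwa [AlgEquiv.apply_symm_apply] at this
  · obtain ⟨P, Q, hQ, hy⟩ := hC.frac y
    refine ⟨φ.symm P, φ.symm Q, ?_, ?_⟩
    · rw [key, AlgEquiv.apply_symm_apply]
      exact hQ
    · rw [key, key, AlgEquiv.apply_symm_apply, AlgEquiv.apply_symm_apply]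
      exact hy

/-- the chain rule -/
theorem CurveCoord_chain (φ : MvPolynomial (Fin 2) κ →ₐ[κ] MvPolynomial (Fin 2) κ) (i : Fin 2)
    (p : MvPolynomial (Fin 2) κ) :
    pderiv i (φ p) = φ (pderiv 0 p) * pderiv i (φ (X 0)) + φ (pderiv 1 p) * pderiv i (φ (X 1)) := by
  induction p using MvPolynomial.induction_on with
  | C a =>
    have h : φ (C a) = C a := φ.commutes a
    rw [h, pderiv_C, pderiv_C, pderiv_C, map_zero]
    ring
  | add p q hp hq =>
    rw [map_add, map_add, hp, hq, map_add, map_add, map_add, map_add]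
    ring
  | mul_X p j hp =>
    rw [map_mul, Derivation.leibniz, hp, Derivation.leibniz, Derivation.leibniz]
    simp only [smul_eq_mul, map_add, map_mul]
    fin_cases j
    · simp only [Fin.zero_eta, Fin.isValue, pderiv_X_self, map_one]
      have h : pderiv 1 (X 0 : MvPolynomial (Fin 2) κ) = 0 := pderiv_X_of_ne (by decide)
      rw [h, map_zero]
      ring
    · simp only [Fin.mk_one, Fin.isValue, pderiv_X_self, map_one]
      have h : pderiv 0 (X 1 : MvPolynomial (Fin 2) κ) = 0 := pderiv_X_of_ne (by decide)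
      rw [h, map_zero]
      ring

/-- the value of `Bt g` -/
theorem CurveCoord_Bt {b : Fin 2 → 𝓕} {g : MvPolynomial (Fin 2) κ} (hC : CurveField b g) :
    aeval b (Bt g) = aeval b (pderiv 0 g) ^ 2 +
      b 0 * aeval b (pderiv 0 g) * aeval b (pderiv 1 g) + b 1 * aeval b (pderiv 1 g) ^ 2 := by
  have hg : aeval b g = 0 := (hC.ker g).2 dvd_rfl
  unfold Bt
  simp only [map_sub, map_mul, map_pow, aeval_X, hg]
  ring

/-- the change of coordinates for `coord_double` -/
noncomputable def CurveCoord_e1 (κ : Type) [Field κ] [CharZero κ] (a : κ) :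
    MvPolynomial (Fin 2) κ ≃ₐ[κ] MvPolynomial (Fin 2) κ :=
  AlgEquiv.ofAlgHom (aeval ![X 0 + C a, X 0 ^ 2 - C 4 * X 1])
    (aeval ![X 0 - C a, C (1 / 4) * ((X 0 - C a) ^ 2 - X 1)])
    (by
      apply MvPolynomial.algHom_ext
      intro i
      have h4 : (C (1 / 4) * C 4 : MvPolynomial (Fin 2) κ) = 1 := by
        rw [← C_mul, one_div, inv_mul_cancel₀ (by norm_num), C_1]
      fin_cases i
      · simp [MvPolynomial.algebraMap_eq]
      · simp only [Fin.mk_one, Fin.isValue, AlgHom.coe_comp, Function.comp_apply, aeval_X,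
          Matrix.cons_val_one, Matrix.cons_val_zero, map_mul, map_sub, map_pow, aeval_C,
          MvPolynomial.algebraMap_eq, AlgHom.coe_id, id_eq, Matrix.cons_val_fin_one]
        linear_combination (X 1 : MvPolynomial (Fin 2) κ) * h4)
    (by
      apply MvPolynomial.algHom_ext
      intro i
      have h4 : (C 4 * C (1 / 4) : MvPolynomial (Fin 2) κ) = 1 := by
        rw [← C_mul, one_div, mul_inv_cancel₀ (by norm_num), C_1]
      fin_cases i
      · simp [MvPolynomial.algebraMap_eq]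
      · simp only [Fin.mk_one, Fin.isValue, AlgHom.coe_comp, Function.comp_apply, aeval_X,
          Matrix.cons_val_one, Matrix.cons_val_zero, map_mul, map_sub, map_pow, aeval_C,
          MvPolynomial.algebraMap_eq, AlgHom.coe_id, id_eq, Matrix.cons_val_fin_one]
        linear_combination (-((X 0 - C a) ^ 2 - X 1) : MvPolynomial (Fin 2) κ) * h4)

theorem coord_double [CharZero κ] {b : Fin 2 → 𝓕} {g : MvPolynomial (Fin 2) κ}
    (hC : CurveField b g) (α : κ) :
    ∃ g' : MvPolynomial (Fin 2) κ, CurveField ![b 0 + 2 * algebraMap κ 𝓕 α, dq b] g' ∧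
      aeval b (Bt g) =
        (aeval ![b 0 + 2 * algebraMap κ 𝓕 α, dq b] (pderiv 0 g')) ^ 2 -
        4 * dq b * (aeval ![b 0 + 2 * algebraMap κ 𝓕 α, dq b] (pderiv 1 g')) ^ 2 := by
  obtain ⟨φ, hφ⟩ : ∃ φ, φ = CurveCoord_e1 κ (2 * α) := ⟨_, rfl⟩
  have h0 : φ (X 0) = X 0 + C (2 * α) := by
    rw [hφ]
    simp [CurveCoord_e1]
  have h1 : φ (X 1) = X 0 ^ 2 - C 4 * X 1 := by
    rw [hφ]
    simp [CurveCoord_e1]
  have hb : (fun i => aeval b (φ (X i))) = ![b 0 + 2 * algebraMap κ 𝓕 α, dq b] := by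
    funext i
    fin_cases i
    · have h2 : algebraMap κ 𝓕 2 = 2 := map_ofNat _ 2
      simp [h0, h2]
    · have h4 : algebraMap κ 𝓕 4 = 4 := map_ofNat _ 4
      simp [h1, dq, h4]
  refine ⟨φ.symm g, ?_, ?_⟩
  · rw [← hb]
    exact hC.coord φ
  · obtain ⟨g', hg'⟩ : ∃ g', g' = φ.symm g := ⟨_, rfl⟩
    have hg : g = φ g' := by rw [hg', AlgEquiv.apply_symm_apply]
    rw [← hg', ← hb]
    have k := CurveCoord_aeval b (φ : MvPolynomial (Fin 2) κ →ₐ[κ] MvPolynomial (Fin 2) κ)
    have k0 : aeval (fun i => aeval b (φ (X i))) (pderiv 0 g') = aeval b (φ (pderiv 0 g')) := k _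
    have k1 : aeval (fun i => aeval b (φ (X i))) (pderiv 1 g') = aeval b (φ (pderiv 1 g')) := k _
    have c0 : pderiv 0 g = φ (pderiv 0 g') * pderiv 0 (φ (X 0)) +
        φ (pderiv 1 g') * pderiv 0 (φ (X 1)) := by
      rw [hg]
      exact CurveCoord_chain (φ : MvPolynomial (Fin 2) κ →ₐ[κ] MvPolynomial (Fin 2) κ) 0 g'
    have c1 : pderiv 1 g = φ (pderiv 0 g') * pderiv 1 (φ (X 0)) +
        φ (pderiv 1 g') * pderiv 1 (φ (X 1)) := by
      rw [hg]
      exact CurveCoord_chain (φ : MvPolynomial (Fin 2) κ →ₐ[κ] MvPolynomial (Fin 2) κ) 1 g'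
    have d10 : pderiv 1 (X 0 : MvPolynomial (Fin 2) κ) = 0 := pderiv_X_of_ne (by decide)
    have d01 : pderiv 0 (X 1 : MvPolynomial (Fin 2) κ) = 0 := pderiv_X_of_ne (by decide)
    rw [h0, h1] at c0 c1
    simp only [map_add, map_sub, pderiv_X_self, pderiv_C, Derivation.leibniz, Derivation.leibniz_pow,
      d10, d01, smul_eq_mul, mul_zero, mul_one, add_zero, zero_add, sub_zero, nsmul_eq_mul,
      Nat.add_one_sub_one, pow_one, zero_sub, smul_zero] at c0 c1
    rw [CurveCoord_Bt hC, c0, c1, k0, k1]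
    simp only [map_add, map_mul, map_neg, aeval_X, aeval_C, map_ofNat, dq, map_natCast,
      Nat.cast_ofNat]
    ring

/-- the change of coordinates for `coord_two` -/
noncomputable def CurveCoord_e2 (κ : Type) [Field κ] (β γ : κ) (hne : β ≠ γ) :
    MvPolynomial (Fin 2) κ ≃ₐ[κ] MvPolynomial (Fin 2) κ :=
  AlgEquiv.ofAlgHom (aeval ![C β ^ 2 + C β * X 0 + X 1, C γ ^ 2 + C γ * X 0 + X 1])
    (aeval ![C (β - γ)⁻¹ * (X 0 - X 1) - C (β + γ),
      X 0 - C β ^ 2 - C β * (C (β - γ)⁻¹ * (X 0 - X 1) - C (β + γ))])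
    (by
      have h4 : (C (β - γ)⁻¹ * (C β - C γ) : MvPolynomial (Fin 2) κ) = 1 := by
        rw [← C_sub, ← C_mul, inv_mul_cancel₀ (sub_ne_zero.2 hne), C_1]
      apply MvPolynomial.algHom_ext
      intro i
      fin_cases i
      · simp only [Fin.zero_eta, Fin.isValue, AlgHom.coe_comp, Function.comp_apply, aeval_X,
          Matrix.cons_val_one, Matrix.cons_val_zero, map_mul, map_sub, map_pow, aeval_C, map_add,
          MvPolynomial.algebraMap_eq, AlgHom.coe_id, id_eq, Matrix.cons_val_fin_one]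
        linear_combination ((C β + C γ) + X 0 : MvPolynomial (Fin 2) κ) * h4
      · simp only [Fin.mk_one, Fin.isValue, AlgHom.coe_comp, Function.comp_apply, aeval_X,
          Matrix.cons_val_one, Matrix.cons_val_zero, map_mul, map_sub, map_pow, aeval_C, map_add,
          MvPolynomial.algebraMap_eq, AlgHom.coe_id, id_eq, Matrix.cons_val_fin_one]
        linear_combination (-C β * ((C β + C γ) + X 0) : MvPolynomial (Fin 2) κ) * h4)
    (by
      have h4 : (C (β - γ)⁻¹ * (C β - C γ) : MvPolynomial (Fin 2) κ) = 1 := by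
        rw [← C_sub, ← C_mul, inv_mul_cancel₀ (sub_ne_zero.2 hne), C_1]
      apply MvPolynomial.algHom_ext
      intro i
      fin_cases i
      · simp only [Fin.zero_eta, Fin.isValue, AlgHom.coe_comp, Function.comp_apply, aeval_X,
          Matrix.cons_val_one, Matrix.cons_val_zero, map_mul, map_sub, map_pow, aeval_C, map_add,
          MvPolynomial.algebraMap_eq, AlgHom.coe_id, id_eq, Matrix.cons_val_fin_one]
        ring
      · simp only [Fin.mk_one, Fin.isValue, AlgHom.coe_comp, Function.comp_apply, aeval_X,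
          Matrix.cons_val_one, Matrix.cons_val_zero, map_mul, map_sub, map_pow, aeval_C, map_add,
          MvPolynomial.algebraMap_eq, AlgHom.coe_id, id_eq, Matrix.cons_val_fin_one]
        linear_combination (-(X 0 - X 1) : MvPolynomial (Fin 2) κ) * h4)

theorem coord_two {b : Fin 2 → 𝓕} {g : MvPolynomial (Fin 2) κ}
    (hC : CurveField b g) (β γ : κ) (hne : β ≠ γ) :
    ∃ g' : MvPolynomial (Fin 2) κ, CurveField ![fq β b, fq γ b] g' ∧
      aeval b (Bt g) =
        fq β b * (aeval ![fq β b, fq γ b] (pderiv 0 g')) ^ 2 +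
        fq γ b * (aeval ![fq β b, fq γ b] (pderiv 1 g')) ^ 2 +
        (fq β b + fq γ b - algebraMap κ 𝓕 (β - γ) ^ 2) *
          aeval ![fq β b, fq γ b] (pderiv 0 g') * aeval ![fq β b, fq γ b] (pderiv 1 g') := by
  obtain ⟨φ, hφ⟩ : ∃ φ, φ = CurveCoord_e2 κ β γ hne := ⟨_, rfl⟩
  have h0 : φ (X 0) = C β ^ 2 + C β * X 0 + X 1 := by
    rw [hφ]
    simp [CurveCoord_e2]
  have h1 : φ (X 1) = C γ ^ 2 + C γ * X 0 + X 1 := by
    rw [hφ]
    simp [CurveCoord_e2]
  have hb : (fun i => aeval b (φ (X i))) = ![fq β b, fq γ b] := by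
    funext i
    fin_cases i
    · simp only [Fin.zero_eta, Fin.isValue, h0, map_add, map_mul, map_pow, aeval_C, aeval_X,
        Matrix.cons_val_zero, fq]
      ring
    · simp only [Fin.mk_one, Fin.isValue, h1, map_add, map_mul, map_pow, aeval_C, aeval_X,
        Matrix.cons_val_one, Matrix.cons_val_fin_one, fq]
      ring
  refine ⟨φ.symm g, ?_, ?_⟩
  · rw [← hb]
    exact hC.coord φ
  · obtain ⟨g', hg'⟩ : ∃ g', g' = φ.symm g := ⟨_, rfl⟩
    have hg : g = φ g' := by rw [hg', AlgEquiv.apply_symm_apply]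
    rw [← hg', ← hb]
    have k := CurveCoord_aeval b (φ : MvPolynomial (Fin 2) κ →ₐ[κ] MvPolynomial (Fin 2) κ)
    have k0 : aeval (fun i => aeval b (φ (X i))) (pderiv 0 g') = aeval b (φ (pderiv 0 g')) := k _
    have k1 : aeval (fun i => aeval b (φ (X i))) (pderiv 1 g') = aeval b (φ (pderiv 1 g')) := k _
    have c0 : pderiv 0 g = φ (pderiv 0 g') * pderiv 0 (φ (X 0)) +
        φ (pderiv 1 g') * pderiv 0 (φ (X 1)) := by
      rw [hg]
      exact CurveCoord_chain (φ : MvPolynomial (Fin 2) κ →ₐ[κ] MvPolynomial (Fin 2) κ) 0 g'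
    have c1 : pderiv 1 g = φ (pderiv 0 g') * pderiv 1 (φ (X 0)) +
        φ (pderiv 1 g') * pderiv 1 (φ (X 1)) := by
      rw [hg]
      exact CurveCoord_chain (φ : MvPolynomial (Fin 2) κ →ₐ[κ] MvPolynomial (Fin 2) κ) 1 g'
    have d10 : pderiv 1 (X 0 : MvPolynomial (Fin 2) κ) = 0 := pderiv_X_of_ne (by decide)
    have d01 : pderiv 0 (X 1 : MvPolynomial (Fin 2) κ) = 0 := pderiv_X_of_ne (by decide)
    rw [h0, h1] at c0 c1
    simp only [← C_pow, map_add, map_sub, pderiv_X_self, pderiv_C, Derivation.leibniz,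
      d10, d01, smul_eq_mul, mul_zero, mul_one, add_zero, zero_add, sub_zero,
      smul_zero] at c0 c1
    rw [CurveCoord_Bt hC, c0, c1, k0, k1]
    simp only [map_add, map_mul, map_sub, aeval_X, aeval_C, fq]
    ring

end Alg

end Pool.Agent.SST
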