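import Mathlib.Algebra.MvPolynomial.PDeriv
import Mathlib.Analysis.AbsoluteValue.Equivalence
import Mathlib.Analysis.SpecialFunctions.Log.Basic
import Mathlib.FieldTheory.IsAlgClosed.Basic
import Mathlib.RingTheory.MvPolynomial.Basic
import Mathlib.LinearAlgebra.Dimension.Finrank

/-! Function fields of plane curves and their places, definitions. -/

open MvPolynomial

namespace Pool.Agent.SST

section

variable {κ 𝓕 : Type} [Field κ] [Field 𝓕] [Algebra κ 𝓕]

/-- `𝓕` is the function field of the plane curve `g = 0` with coordinate functions `b`. -/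
structure CurveField (b : Fin 2 → 𝓕) (g : MvPolynomial (Fin 2) κ) : Prop where
  irr : Irreducible g
  ker : ∀ P : MvPolynomial (Fin 2) κ, aeval b P = 0 ↔ g ∣ P
  frac : ∀ y : 𝓕, ∃ P Q : MvPolynomial (Fin 2) κ, aeval b Q ≠ 0 ∧ y = aeval b P / aeval b Q

/-- `w` is a nonarchimedean absolute value, trivial on the constants, at which the coordinate
functions `b` are integral. -/
structure CPlace (κ : Type) [Field κ] [Algebra κ 𝓕] (b : Fin 2 → 𝓕) (w : AbsoluteValue 𝓕 ℝ) :
    Prop where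
  nonarch : ∀ x y : 𝓕, w (x + y) ≤ max (w x) (w y)
  triv : ∀ c : κ, c ≠ 0 → w (algebraMap κ 𝓕 c) = 1
  le : ∀ i, w (b i) ≤ 1

/-- `t` is the positive generator of the group `log (w 𝓕ˣ)`. -/
structure IsGen (w : AbsoluteValue 𝓕 ℝ) (t : ℝ) : Prop where
  pos : 0 < t
  val : ∀ y : 𝓕, y ≠ 0 → ∃ n : ℤ, Real.log (w y) = n * t
  unif : ∃ y : 𝓕, y ≠ 0 ∧ Real.log (w y) = -t

/-- the functions given by polynomials of degree at most `N` in the coordinates -/
noncomputable def Md (κ : Type) [Field κ] [Algebra κ 𝓕] (b : Fin 2 → 𝓕) (N : ℕ) :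
    Submodule κ 𝓕 :=
  (restrictTotalDegree (Fin 2) κ N).map (aeval b : MvPolynomial (Fin 2) κ →ₐ[κ] 𝓕).toLinearMap

/-- value of the quadratic polynomial `X ^ 2 + b 0 X + b 1` at `α` -/
noncomputable def fq (α : κ) (b : Fin 2 → 𝓕) : 𝓕 :=
  algebraMap κ 𝓕 α ^ 2 + b 0 * algebraMap κ 𝓕 α + b 1

/-- discriminant of the quadratic polynomial `X ^ 2 + b 0 X + b 1` -/
def dq (b : Fin 2 → 𝓕) : 𝓕 := b 0 ^ 2 - 4 * b 1

/-- the dual of the discriminant conic at the gradient of `g` -/
noncomputable def Bt (g : MvPolynomial (Fin 2) κ) : MvPolynomial (Fin 2) κ :=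
  (pderiv 0 g) ^ 2 -
    (C (g.totalDegree : κ) * g - X 0 * pderiv 0 g - X 1 * pderiv 1 g) * pderiv 1 g

end

end Pool.Agent.SST
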