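import Pool.Agent.SST.CurveHilb

/-! The value group of a place of a curve is discrete. -/

set_option autoImplicit false

open MvPolynomial Module

namespace Pool.Agent.SST

variable {κ 𝓕 : Type} [Field κ] [Field 𝓕] [Algebra κ 𝓕]

lemma cg_sum_lt {w : AbsoluteValue 𝓕 ℝ} (hw : ∀ x y : 𝓕, w (x + y) ≤ max (w x) (w y))
    {ι : Type*} (s : Finset ι) (f : ι → 𝓕) {B : ℝ} (hB : 0 < B) (h : ∀ i ∈ s, w (f i) < B) :
    w (∑ i ∈ s, f i) < B := by
  classical
  induction s using Finset.induction_on with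
  | empty => simpa using hB
  | insert a s ha ih =>
    rw [Finset.sum_insert ha]
    refine (hw _ _).trans_lt (max_lt (h a (Finset.mem_insert_self _ _)) ?_)
    exact ih fun i hi => h i (Finset.mem_insert_of_mem hi)

lemma CPlace.smul_eq {b : Fin 2 → 𝓕} {w : AbsoluteValue 𝓕 ℝ} (hw : CPlace κ b w) {c : κ}
    (hc : c ≠ 0) (z : 𝓕) : w (c • z) = w z := by
  rw [Algebra.smul_def, map_mul, hw.triv c hc, one_mul]

/-- elements with different values are linearly independent -/
lemma cg_linInd {b : Fin 2 → 𝓕} {w : AbsoluteValue 𝓕 ℝ} (hw : CPlace κ b w) {ι : Type*}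
    (z : ι → 𝓕) (hz : ∀ i, z i ≠ 0) (hinj : ∀ i j, w (z i) = w (z j) → i = j) :
    LinearIndependent κ z := by
  classical
  rw [linearIndependent_iff']
  intro s g hsum
  by_contra hcon
  push Not at hcon
  obtain ⟨i₁, hi₁, hgi₁⟩ := hcon
  set s' := s.filter (fun i => g i ≠ 0) with hs'
  have hne : s'.Nonempty := ⟨i₁, by rw [hs', Finset.mem_filter]; exact ⟨hi₁, hgi₁⟩⟩
  obtain ⟨i₀, hi₀, hmax⟩ := s'.exists_max_image (fun i => w (z i)) hne
  have hg₀ : g i₀ ≠ 0 := (Finset.mem_filter.mp hi₀).2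
  have hsum' : ∑ i ∈ s', g i • z i = 0 := by
    rw [← hsum, hs']
    refine Finset.sum_filter_of_ne ?_
    intro i _ h h0
    rw [h0, zero_smul] at h
    exact h rfl
  rw [← Finset.add_sum_erase _ _ hi₀] at hsum'
  have h1 : w (g i₀ • z i₀) = w (∑ i ∈ s'.erase i₀, g i • z i) := by
    rw [eq_neg_of_add_eq_zero_left hsum', AbsoluteValue.map_neg]
  rw [hw.smul_eq hg₀] at h1
  have h2 : w (∑ i ∈ s'.erase i₀, g i • z i) < w (z i₀) := by
    refine cg_sum_lt hw.nonarch _ _ (w.pos (hz i₀)) ?_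
    intro i hi
    obtain ⟨hi1, hi2⟩ := Finset.mem_erase.mp hi
    rw [hw.smul_eq (Finset.mem_filter.mp hi2).2]
    exact lt_of_le_of_ne (hmax i hi2) fun h => hi1 (hinj _ _ h)
  exact absurd h1 h2.ne'

/-- polynomials in the coordinates are integral -/
lemma CPlace.poly_le {b : Fin 2 → 𝓕} {w : AbsoluteValue 𝓕 ℝ} (hw : CPlace κ b w)
    (P : MvPolynomial (Fin 2) κ) : w (aeval b P) ≤ 1 := by
  induction P using MvPolynomial.induction_on with
  | C a =>
    rw [aeval_C]
    by_cases ha : a = 0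
    · rw [ha, map_zero, map_zero]
      exact zero_le_one
    · exact (hw.triv a ha).le
  | add p q hp hq =>
    rw [map_add]
    exact (hw.nonarch _ _).trans (max_le hp hq)
  | mul_X p i hp =>
    rw [map_mul, aeval_X, map_mul]
    exact mul_le_one₀ hp (w.nonneg _) (hw.le i)

/-- a bound for the number of classes of values modulo the value of a polynomial -/
lemma cg_card_le {b : Fin 2 → 𝓕} {g : MvPolynomial (Fin 2) κ}
    (hC : CurveField b g) {w : AbsoluteValue 𝓕 ℝ} (hw : CPlace κ b w)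
    (T : MvPolynomial (Fin 2) κ) (hT0 : aeval b T ≠ 0) (hT1 : w (aeval b T) < 1) {s : ℕ}
    (y : Fin s → 𝓕) (hy0 : ∀ i, y i ≠ 0)
    (hy : ∀ i j, i ≠ j → ∀ n : ℤ,
      Real.log (w (y i)) - Real.log (w (y j)) ≠ n * Real.log (w (aeval b T))) :
    s ≤ T.totalDegree * g.totalDegree := by
  classical
  obtain ⟨c, hc⟩ := hilb hC
  choose A Q hQ hAQ using fun i => hC.frac (y i)
  set m := T.totalDegree with hm
  set δ := g.totalDegree with hδ
  set Q' : MvPolynomial (Fin 2) κ := ∏ i, Q i with hQ'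
  set A' : Fin s → MvPolynomial (Fin 2) κ := fun i => A i * ∏ j ∈ Finset.univ.erase i, Q j
    with hA'
  have hQ'0 : aeval b Q' ≠ 0 := by
    rw [hQ', map_prod]
    exact Finset.prod_ne_zero_iff.mpr fun i _ => hQ i
  have hA'y : ∀ i, aeval b (A' i) = y i * aeval b Q' := by
    intro i
    rw [hA', hQ', map_mul, ← Finset.mul_prod_erase Finset.univ Q (Finset.mem_univ i), map_mul,
      ← mul_assoc]
    congr 1
    rw [hAQ i, div_mul_cancel₀ _ (hQ i)]
  set e : ℕ := Finset.univ.sup fun i => (A' i).totalDegree with he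
  have heA : ∀ i, (A' i).totalDegree ≤ e := fun i =>
    Finset.le_sup (f := fun i => (A' i).totalDegree) (Finset.mem_univ i)
  have hlT : Real.log (w (aeval b T)) < 0 := Real.log_neg (w.pos hT0) hT1
  have key : ∀ J : ℕ, s * (J + 1) ≤ δ * (e + m * J) + c := by
    intro J
    set z : Fin s × Fin (J + 1) → 𝓕 := fun p => aeval b (A' p.1 * T ^ (p.2 : ℕ)) with hz
    have hz0 : ∀ p, z p ≠ 0 := by
      intro p
      rw [hz]
      simp only [map_mul, map_pow]
      rw [hA'y]
      exact mul_ne_zero (mul_ne_zero (hy0 _) hQ'0) (pow_ne_zero _ hT0)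
    have hzlog : ∀ p, Real.log (w (z p)) = Real.log (w (y p.1)) + Real.log (w (aeval b Q')) +
        (p.2 : ℕ) * Real.log (w (aeval b T)) := by
      intro p
      rw [hz]
      simp only [map_mul, map_pow]
      rw [hA'y, map_mul, Real.log_mul (mul_ne_zero (w.ne_zero (hy0 _)) (w.ne_zero hQ'0))
        (pow_ne_zero _ (w.ne_zero hT0)), Real.log_mul (w.ne_zero (hy0 _)) (w.ne_zero hQ'0),
        Real.log_pow]
    have hlin : LinearIndependent κ z := by
      refine cg_linInd hw z hz0 ?_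
      intro p q hpq
      have h1 := congrArg Real.log hpq
      rw [hzlog, hzlog] at h1
      by_cases hpq1 : p.1 = q.1
      · rw [hpq1] at h1
        have h2 : ((p.2 : ℕ) : ℝ) = ((q.2 : ℕ) : ℝ) := by
          have h3 : ((p.2 : ℕ) : ℝ) * Real.log (w (aeval b T)) =
              ((q.2 : ℕ) : ℝ) * Real.log (w (aeval b T)) := by linarith
          exact mul_right_cancel₀ hlT.ne h3
        have h4 : p.2 = q.2 := Fin.ext (by exact_mod_cast h2)
        exact Prod.ext hpq1 h4
      · exfalso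
        refine hy p.1 q.1 hpq1 (((q.2 : ℕ) : ℤ) - ((p.2 : ℕ) : ℤ)) ?_
        push_cast
        linarith
    have hmem : ∀ p, z p ∈ Md κ b (e + m * J) := by
      intro p
      refine Submodule.mem_map.mpr ⟨A' p.1 * T ^ (p.2 : ℕ), ?_, rfl⟩
      rw [mem_restrictTotalDegree]
      refine (totalDegree_mul _ _).trans (add_le_add (heA _) ?_)
      refine (totalDegree_pow _ _).trans ?_
      rw [mul_comm]
      exact Nat.mul_le_mul_left _ (Nat.lt_succ_iff.mp p.2.isLt)
    have hfin : Module.Finite κ (Md κ b (e + m * J)) := by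
      unfold Md
      infer_instance
    set z' : Fin s × Fin (J + 1) → Md κ b (e + m * J) := fun p => ⟨z p, hmem p⟩ with hz'
    have hlin' : LinearIndependent κ z' := by
      refine LinearIndependent.of_comp (Md κ b (e + m * J)).subtype ?_
      exact hlin
    have hcard := hlin'.fintype_card_le_finrank
    rw [Fintype.card_prod, Fintype.card_fin, Fintype.card_fin] at hcard
    exact hcard.trans (hc _).2
  by_contra hcon
  push Not at hcon
  have h1 := key (δ * e + c)
  have h2 : (m * δ + 1) * (δ * e + c + 1) ≤ s * (δ * e + c + 1) := Nat.mul_le_mul_right _ hcon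
  have h3 : (m * δ + 1) * (δ * e + c + 1) = δ * (e + m * (δ * e + c)) + c + m * δ + 1 := by ring
  omega

theorem exists_gen {b : Fin 2 → 𝓕} {g : MvPolynomial (Fin 2) κ}
    (hC : CurveField b g) {w : AbsoluteValue 𝓕 ℝ} (hw : CPlace κ b w) (hnt : w.IsNontrivial) :
    ∃ t : ℝ, IsGen w t := by
  classical
  -- a polynomial with value less than one
  obtain ⟨T, hT0, hT1⟩ : ∃ T : MvPolynomial (Fin 2) κ, aeval b T ≠ 0 ∧ w (aeval b T) < 1 := by
    by_contra hcon
    push Not at hcon
    obtain ⟨x, hx0, hx1⟩ := hnt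
    obtain ⟨P, Q, hQ, hPQ⟩ := hC.frac x
    have hP : aeval b P ≠ 0 := by
      intro h0
      rw [h0, zero_div] at hPQ
      exact hx0 hPQ
    have h1 : ∀ R : MvPolynomial (Fin 2) κ, aeval b R ≠ 0 → w (aeval b R) = 1 := fun R hR =>
      le_antisymm (hw.poly_le R) (hcon R hR)
    apply hx1
    rw [hPQ, map_div₀, h1 P hP, h1 Q hQ, div_one]
  set τ : ℝ := -Real.log (w (aeval b T)) with hτ
  have hτ0 : 0 < τ := by
    have := Real.log_neg (w.pos hT0) hT1
    linarith
  set M : ℕ := T.totalDegree * g.totalDegree with hM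
  -- every value is a rational multiple of `τ` with bounded denominator
  have hrat : ∀ y : 𝓕, y ≠ 0 → ∃ k : ℕ, 0 < k ∧ k ≤ M ∧ ∃ n : ℤ,
      k * Real.log (w y) = n * τ := by
    intro y hy
    by_contra hcon
    push Not at hcon
    have h1 := cg_card_le hC hw T hT0 hT1 (s := M + 1) (fun i => y ^ (i : ℕ))
      (fun i => pow_ne_zero _ hy) (by
        intro i j hij n hn
        rw [map_pow, map_pow, Real.log_pow, Real.log_pow] at hn
        rcases lt_or_gt_of_ne hij with h | h
        · have h2 : (i : ℕ) < j := h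
          refine hcon ((j : ℕ) - i) (by omega) (by omega) n ?_
          rw [Nat.cast_sub h2.le, hτ]
          linarith
        · have h2 : (j : ℕ) < i := h
          refine hcon ((i : ℕ) - j) (by omega) (by omega) (-n) ?_
          rw [Nat.cast_sub h2.le, hτ]
          push_cast
          linarith)
    omega
  set t₀ : ℝ := τ / (M.factorial : ℝ) with ht₀
  have hfac : (0 : ℝ) < M.factorial := by exact_mod_cast M.factorial_pos
  have ht₀0 : 0 < t₀ := div_pos hτ0 hfac
  have hint : ∀ y : 𝓕, y ≠ 0 → ∃ n : ℤ, Real.log (w y) = n * t₀ := by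
    intro y hy
    obtain ⟨k, hk0, hkM, n, hn⟩ := hrat y hy
    obtain ⟨d, hd⟩ := Nat.dvd_factorial hk0 hkM
    refine ⟨n * d, ?_⟩
    have hkR : (k : ℝ) ≠ 0 := by exact_mod_cast hk0.ne'
    have hdR : (M.factorial : ℝ) = k * d := by exact_mod_cast hd
    have hd0 : (d : ℝ) ≠ 0 := by
      intro h0
      rw [h0, mul_zero] at hdR
      exact hfac.ne' hdR
    rw [ht₀, hdR]
    push_cast
    field_simp
    linarith
  -- the group of values
  let H : AddSubgroup ℤ :=
    { carrier := {n | ∃ y : 𝓕, y ≠ 0 ∧ Real.log (w y) = n * t₀}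
      zero_mem' := ⟨1, one_ne_zero, by simp⟩
      add_mem' := by
        rintro n n' ⟨y, hy, hy'⟩ ⟨z, hz, hz'⟩
        refine ⟨y * z, mul_ne_zero hy hz, ?_⟩
        rw [map_mul, Real.log_mul (w.ne_zero hy) (w.ne_zero hz), hy', hz']
        push_cast
        ring
      neg_mem' := by
        rintro n ⟨y, hy, hy'⟩
        refine ⟨y⁻¹, inv_ne_zero hy, ?_⟩
        rw [map_inv₀, Real.log_inv, hy']
        push_cast
        ring }
  obtain ⟨a, ha⟩ := Int.subgroup_cyclic H
  have hmemH : ∀ n : ℤ, n ∈ H ↔ ∃ k : ℤ, n = k * a := by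
    intro n
    rw [ha, AddSubgroup.mem_closure_singleton]
    constructor
    · rintro ⟨k, hk⟩
      exact ⟨k, by rw [← hk, smul_eq_mul]⟩
    · rintro ⟨k, hk⟩
      exact ⟨k, by rw [hk, smul_eq_mul]⟩
  have ha0 : a ≠ 0 := by
    intro h0
    obtain ⟨n, hn⟩ := hint (aeval b T) hT0
    have h1 : n ∈ H := ⟨aeval b T, hT0, hn⟩
    obtain ⟨k, hk⟩ := (hmemH n).mp h1
    rw [hk, h0, mul_zero, Int.cast_zero, zero_mul] at hn
    linarith
  have habs : |a| ∈ H := by
    rcases abs_choice a with h | h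
    · rw [h]
      exact (hmemH a).mpr ⟨1, by ring⟩
    · rw [h]
      exact (hmemH (-a)).mpr ⟨-1, by ring⟩
  refine ⟨|a| * t₀, mul_pos (by exact_mod_cast abs_pos.mpr ha0) ht₀0, ?_, ?_⟩
  · intro y hy
    obtain ⟨n, hn⟩ := hint y hy
    have h1 : n ∈ H := ⟨y, hy, hn⟩
    obtain ⟨k, hk⟩ := (hmemH n).mp h1
    rcases abs_choice a with h | h
    · refine ⟨k, ?_⟩
      rw [hn, hk, h]
      push_cast
      ring
    · refine ⟨-k, ?_⟩
      rw [hn, hk, h]
      push_cast
      ring
  · obtain ⟨y, hy, hy'⟩ := habs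
    refine ⟨y⁻¹, inv_ne_zero hy, ?_⟩
    rw [map_inv₀, Real.log_inv, hy']

end Pool.Agent.SST
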