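import Pool.Agent.SST.CurveDefs
import Mathlib

/-! Hilbert function of a plane curve. -/

open MvPolynomial Module

namespace Pool.Agent.SST

variable {κ 𝓕 : Type} [Field κ] [Field 𝓕] [Algebra κ 𝓕]

/-- exponents of degree at most `N` in two variables -/
noncomputable def expEquiv (N : ℕ) : {n : Fin 2 →₀ ℕ // (n.sum fun _ e => e) ≤ N} ≃
    (Σ i : Fin (N + 1), Fin (N + 1 - i)) where
  toFun n := ⟨⟨n.1 0, by
      have h := n.2
      rw [Finsupp.sum_fintype _ _ (fun _ => rfl), Fin.sum_univ_two] at h
      omega⟩, ⟨n.1 1, by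
      have h := n.2
      rw [Finsupp.sum_fintype _ _ (fun _ => rfl), Fin.sum_univ_two] at h
      simp only
      omega⟩⟩
  invFun p := ⟨Finsupp.equivFunOnFinite.symm ![p.1.1, p.2.1], by
      rw [Finsupp.sum_fintype _ _ (fun _ => rfl), Fin.sum_univ_two]
      have h1 := p.1.2
      have h2 := p.2.2
      simp
      omega⟩
  left_inv n := by
    ext i
    fin_cases i <;> rfl
  right_inv p := rfl

theorem finrank_rtd (N : ℕ) :
    2 * finrank κ (restrictTotalDegree (Fin 2) κ N) = (N + 1) * (N + 2) := by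
  have h1 : finrank κ (restrictTotalDegree (Fin 2) κ N) =
      Nat.card {n : Fin 2 →₀ ℕ // (n.sum fun _ e => e) ≤ N} :=
    finrank_eq_nat_card_basis (basisRestrictSupport κ {n : Fin 2 →₀ ℕ | (n.sum fun _ e => e) ≤ N})
  rw [h1, Nat.card_congr (expEquiv N), Nat.card_eq_fintype_card, Fintype.card_sigma]
  simp only [Fintype.card_fin]
  rw [Fin.sum_univ_eq_sum_range (fun i => N + 1 - i) (N + 1)]
  have h2 : ∑ i ∈ Finset.range (N + 1), (N + 1 - i) = ∑ i ∈ Finset.range (N + 1), (i + 1) := by
    rw [← Finset.sum_range_reflect]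
    apply Finset.sum_congr rfl
    intro i hi
    rw [Finset.mem_range] at hi
    omega
  rw [h2]
  clear h1 h2
  induction N with
  | zero => simp
  | succ n ih =>
    rw [Finset.sum_range_succ, mul_add, ih]
    ring

/-- image of the polynomials of degree at most `N` -/
theorem hilb_core (φ : MvPolynomial (Fin 2) κ →ₐ[κ] 𝓕) (g : MvPolynomial (Fin 2) κ) (hg : g ≠ 0)
    (hφ : ∀ P, φ P = 0 ↔ g ∣ P) (N : ℕ) :
    finrank κ ((restrictTotalDegree (Fin 2) κ (N + g.totalDegree)).map φ.toLinearMap) +
      finrank κ (restrictTotalDegree (Fin 2) κ N) =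
      finrank κ (restrictTotalDegree (Fin 2) κ (N + g.totalDegree)) := by
  set δ := g.totalDegree
  let f : restrictTotalDegree (Fin 2) κ (N + δ) →ₗ[κ] 𝓕 :=
    φ.toLinearMap.domRestrict (restrictTotalDegree (Fin 2) κ (N + δ))
  have hr : LinearMap.range f = (restrictTotalDegree (Fin 2) κ (N + δ)).map φ.toLinearMap := by
    exact LinearMap.range_domRestrict _ _
  have hk : finrank κ (LinearMap.ker f) = finrank κ (restrictTotalDegree (Fin 2) κ N) := by
    symm
    have hmem : ∀ P ∈ restrictTotalDegree (Fin 2) κ N,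
        g * P ∈ restrictTotalDegree (Fin 2) κ (N + δ) := by
      intro P hP
      rw [mem_restrictTotalDegree] at hP ⊢
      refine (totalDegree_mul _ _).trans ?_
      omega
    let e : restrictTotalDegree (Fin 2) κ N →ₗ[κ] LinearMap.ker f :=
      LinearMap.codRestrict _
        (LinearMap.restrict (LinearMap.mulLeft κ g) hmem) (by
          intro c
          rw [LinearMap.mem_ker]
          change φ (g * c.1) = 0
          rw [hφ]
          exact dvd_mul_right _ _)
    apply LinearEquiv.finrank_eq
    apply LinearEquiv.ofBijective e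
    constructor
    · intro x y hxy
      have h := congrArg (fun z => (z.1.1 : MvPolynomial (Fin 2) κ)) hxy
      change g * x.1 = g * y.1 at h
      exact Subtype.ext (mul_left_cancel₀ hg h)
    · intro y
      have hy := y.2
      rw [LinearMap.mem_ker] at hy
      change φ y.1.1 = 0 at hy
      rw [hφ] at hy
      obtain ⟨P, hP⟩ := hy
      have hd : P ∈ restrictTotalDegree (Fin 2) κ N := by
        rw [mem_restrictTotalDegree]
        by_cases h0 : P = 0
        · rw [h0]; simp
        · have h1 := (mem_restrictTotalDegree _ _ _).1 y.1.2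
          rw [hP, totalDegree_mul_of_isDomain hg h0] at h1
          omega
      refine ⟨⟨P, hd⟩, ?_⟩
      apply Subtype.ext
      apply Subtype.ext
      exact hP.symm
  have h := LinearMap.finrank_range_add_finrank_ker f
  rw [hk, hr] at h
  exact h

theorem hilb_aux (φ : MvPolynomial (Fin 2) κ →ₐ[κ] 𝓕) (g : MvPolynomial (Fin 2) κ) (hg : g ≠ 0)
    (hφ : ∀ P, φ P = 0 ↔ g ∣ P) :
    ∃ c : ℕ, ∀ N : ℕ, g.totalDegree * N ≤
        finrank κ ((restrictTotalDegree (Fin 2) κ N).map φ.toLinearMap) + c ∧
      finrank κ ((restrictTotalDegree (Fin 2) κ N).map φ.toLinearMap) ≤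
        g.totalDegree * N + c := by
  refine ⟨(g.totalDegree + 1) * (g.totalDegree + 2), fun N => ?_⟩
  set δ := g.totalDegree with hδ
  rcases Nat.lt_or_ge N δ with hN | hN
  · have h1 : finrank κ ((restrictTotalDegree (Fin 2) κ N).map φ.toLinearMap) ≤
        finrank κ (restrictTotalDegree (Fin 2) κ N) := Submodule.finrank_map_le _ _
    have h2 := finrank_rtd (κ := κ) N
    constructor
    · nlinarith
    · nlinarith
  · obtain ⟨M, rfl⟩ := Nat.exists_eq_add_of_le' hN
    have h1 := hilb_core φ g hg hφ M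
    rw [← hδ] at h1
    have h2 := finrank_rtd (κ := κ) M
    have h3 := finrank_rtd (κ := κ) (M + δ)
    generalize finrank κ (restrictTotalDegree (Fin 2) κ M) = x at *
    generalize finrank κ (restrictTotalDegree (Fin 2) κ (M + δ)) = y at *
    constructor
    · nlinarith
    · nlinarith

theorem CurveField.totalDegree_pos {b : Fin 2 → 𝓕} {g : MvPolynomial (Fin 2) κ}
    (hC : CurveField b g) : 0 < g.totalDegree := by
  by_contra h
  have h0 : g.totalDegree = 0 := by omega
  rw [totalDegree_eq_zero_iff_eq_C] at h0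
  have hirr := hC.irr
  rw [h0] at hirr
  by_cases hc : coeff 0 g = 0
  · rw [hc, C_0] at hirr
    exact not_irreducible_zero hirr
  · exact hirr.not_isUnit ((isUnit_iff_ne_zero.2 hc).map C)

theorem hilb {b : Fin 2 → 𝓕} {g : MvPolynomial (Fin 2) κ} (hC : CurveField b g) :
    ∃ c : ℕ, ∀ N : ℕ, g.totalDegree * N ≤ finrank κ (Md κ b N) + c ∧
      finrank κ (Md κ b N) ≤ g.totalDegree * N + c :=
  hilb_aux (aeval b) g hC.irr.ne_zero hC.ker

end Pool.Agent.SST
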