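import Pool.Agent.SST.CurveHilb

/-!
# Functions linearly independent over the field generated by a polynomial
-/

set_option autoImplicit false

open MvPolynomial Module

namespace Pool.Agent.SST

variable {κ 𝓕 : Type} [Field κ] [Field 𝓕] [Algebra κ 𝓕]

theorem Md_finite (b : Fin 2 → 𝓕) (N : ℕ) : Module.Finite κ (Md κ b N) := by
  unfold Md
  infer_instance

theorem mem_Md {b : Fin 2 → 𝓕} {N : ℕ} {P : MvPolynomial (Fin 2) κ} (hP : P.totalDegree ≤ N) :
    aeval b P ∈ Md κ b N :=
  ⟨P, (mem_restrictTotalDegree _ _ _).2 hP, rfl⟩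

/-- Finitely many functions have a common denominator. -/
theorem common_denom {b : Fin 2 → 𝓕} {g : MvPolynomial (Fin 2) κ} (hC : CurveField b g) {s : ℕ}
    (y : Fin s → 𝓕) : ∃ (q : 𝓕) (B : Fin s → MvPolynomial (Fin 2) κ), q ≠ 0 ∧
      ∀ i, aeval b (B i) = y i * q := by
  classical
  choose A Q hQ hy using fun i => hC.frac (y i)
  refine ⟨aeval b (∏ i, Q i), fun i => A i * ∏ j ∈ Finset.univ.erase i, Q j, ?_, fun i => ?_⟩
  · rw [map_prod]
    exact Finset.prod_ne_zero_iff.2 fun i _ => hQ i
  · rw [map_mul, ← Finset.mul_prod_erase Finset.univ Q (Finset.mem_univ i), map_mul]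
    conv_rhs => rw [hy i]
    rw [div_mul_eq_mul_div, mul_comm (aeval b (Q i)), ← mul_assoc, mul_div_assoc, div_self (hQ i),
      mul_one]

theorem indep_le {b : Fin 2 → 𝓕} {g : MvPolynomial (Fin 2) κ}
    (hC : CurveField b g) (P : MvPolynomial (Fin 2) κ) (m : ℕ) (hP : P.totalDegree ≤ m) {s : ℕ}
    (y : Fin s → 𝓕) (hy : ∀ c : Fin s → Polynomial κ,
      ∑ i, Polynomial.aeval (aeval b P) (c i) * y i = 0 → c = 0) :
    s ≤ m * g.totalDegree := by
  classical
  obtain ⟨q, B, hq, hB⟩ := common_denom hC y
  obtain ⟨c, hc⟩ := hilb hC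
  set e : ℕ := Finset.univ.sup fun i => (B i).totalDegree with he
  have hBe : ∀ i, (B i).totalDegree ≤ e := fun i =>
    Finset.le_sup (f := fun i => (B i).totalDegree) (Finset.mem_univ i)
  have key : ∀ J : ℕ, s * (J + 1) ≤ finrank κ (Md κ b (e + m * J)) := by
    intro J
    have := Md_finite (κ := κ) b (e + m * J)
    have hmem : ∀ x : Fin s × Fin (J + 1), aeval b (B x.1 * P ^ (x.2 : ℕ)) ∈
        Md κ b (e + m * J) := by
      intro x
      apply mem_Md
      refine (totalDegree_mul _ _).trans (add_le_add (hBe _) ?_)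
      refine (totalDegree_pow _ _).trans ?_
      rw [mul_comm]
      exact Nat.mul_le_mul hP (Nat.lt_succ_iff.1 x.2.2)
    have hli : LinearIndependent κ fun x : Fin s × Fin (J + 1) =>
        (⟨aeval b (B x.1 * P ^ (x.2 : ℕ)), hmem x⟩ : Md κ b (e + m * J)) := by
      rw [Fintype.linearIndependent_iff]
      intro f hf
      have h1 : ∑ x : Fin s × Fin (J + 1), f x • aeval b (B x.1 * P ^ (x.2 : ℕ)) = 0 := by
        have h2 := congrArg (Submodule.subtype _) hf
        rw [map_sum, map_zero] at h2
        simpa using h2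
      set cc : Fin s → Polynomial κ := fun i =>
        ∑ j : Fin (J + 1), Polynomial.monomial (j : ℕ) (f (i, j)) with hcc
      have h3 : ∑ i, Polynomial.aeval (aeval b P) (cc i) * y i = 0 := by
        have h4 : (∑ i, Polynomial.aeval (aeval b P) (cc i) * y i) * q = 0 := by
          rw [← h1, Finset.sum_mul, Fintype.sum_prod_type]
          refine Finset.sum_congr rfl fun i _ => ?_
          rw [mul_assoc, ← hB i, hcc]
          simp only [map_sum, Polynomial.aeval_monomial, Finset.sum_mul]
          refine Finset.sum_congr rfl fun j _ => ?_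
          rw [map_mul, map_pow, Algebra.smul_def]
          ring
        exact (mul_eq_zero.1 h4).resolve_right hq
      have h5 := hy cc h3
      rintro ⟨i, j⟩
      have h6 : (cc i).coeff (j : ℕ) = 0 := by
        rw [h5]
        simp
      rw [hcc, Polynomial.finsetSum_coeff] at h6
      simp only [Polynomial.coeff_monomial] at h6
      rw [Finset.sum_eq_single j] at h6
      · simpa using h6
      · intro k _ hk
        rw [if_neg]
        exact fun h => hk (Fin.ext h)
      · intro h
        exact absurd (Finset.mem_univ _) h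
    have h7 := hli.fintype_card_le_finrank
    rwa [Fintype.card_prod, Fintype.card_fin, Fintype.card_fin] at h7
  by_contra hlt
  push Not at hlt
  set δ := g.totalDegree
  have h8 := key (δ * e + c)
  have h9 := (hc (e + m * (δ * e + c))).2
  have h10 : (m * δ + 1) * (δ * e + c + 1) ≤ s * (δ * e + c + 1) :=
    Nat.mul_le_mul_right _ hlt
  have h11 := h10.trans (h8.trans h9)
  nlinarith

end Pool.Agent.SST
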