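import Pool.Agent.SST.DavZMain
import Pool.Agent.SST.RedZ

/-! Davenport's lemma over `ℤ` (one real place). -/

namespace Pool.Agent.SST

theorem davenportZ (n : ℕ) (b : Fin (n + 1)) (hb : (b : ℕ) + 1 = n) (c : ℝ) (hc : 1 ≤ c) :
    ∃ C : ℝ, 1 ≤ C ∧ ∀ (A : Matrix (Fin (n + 1)) (Fin (n + 1)) ℝ) (_ : A.det ≠ 0)
      (y : Fin (n + 1) → Fin (n + 1) → ℤ) (lam : Fin (n + 1) → ℝ) (_ : Monotone lam)
      (_ : RedZ c A y lam) (_ : C * lam b < lam (Fin.last n)),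
      ∃ (π : Equiv.Perm (Fin (n + 1))) (y' : Fin n → Fin (n + 1) → ℤ),
        LinearIndependent ℚ (fun i k => (y' i k : ℚ)) ∧
        (∀ w : Fin (n + 1) → ℤ, (∀ l : Fin n, ∑ k, w k * y l.castSucc k = 0) →
          ∀ i, ∑ k, w k * y' i k = 0) ∧
        (∀ i j, |A.mulVec (fun k => (y' i k : ℝ)) (π j)| ≤ C * min (lam j) (lam b)) :=
  davenportZ_of exists_redZ n b hb c hc

end Pool.Agent.SST
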