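import Pool.Agent.SST.SpecDefs
import Pool.Agent.DD7719.Pivot

/-! Davenport's lemma over `ℤ` (one real place), from the existence of reduced bases. -/

namespace Pool.Agent.SST

open Matrix Pool.Agent.DD7719.M

namespace DavZ

variable {N : ℕ}

/-- the scaled matrix of values -/
noncomputable def gz (A : Matrix (Fin N) (Fin N) ℝ) (y : Fin N → Fin N → ℤ) (lam : Fin N → ℝ) :
    Matrix (Fin N) (Fin N) ℝ :=
  Matrix.of fun j i => A.mulVec (fun k => (y i k : ℝ)) j / lam i

lemma det_map_ofReal {n : ℕ} (M : Matrix (Fin n) (Fin n) ℝ) :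
    (M.map (fun x : ℝ => (x : ℂ))).det = ((M.det : ℝ) : ℂ) :=
  (RingHom.map_det Complex.ofRealHom M).symm

lemma norm_det_map {n : ℕ} (M : Matrix (Fin n) (Fin n) ℝ) :
    ‖(M.map (fun x : ℝ => (x : ℂ))).det‖ = |M.det| := by
  rw [det_map_ofReal, Complex.norm_real, Real.norm_eq_abs]

lemma abs_det_le {n : ℕ} (M : Matrix (Fin n) (Fin n) ℝ) (c : ℝ) (h : ∀ i j, |M i j| ≤ c) :
    |M.det| ≤ n.factorial * c ^ n := by
  rw [← norm_det_map]
  apply norm_det_le
  intro i j
  rw [Matrix.map_apply, Complex.norm_real, Real.norm_eq_abs]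
  exact h i j

lemma pivot_real (c : ℝ) (hc : 1 ≤ c) (n : ℕ) (M : Matrix (Fin n) (Fin n) ℝ)
    (hM : ∀ i j, |M i j| ≤ c) (δ : ℝ) (hδ : 0 < δ) (hdet : δ ≤ |M.det|) :
    ∃ π : Equiv.Perm (Fin n), ∀ (j : ℕ) (h : j ≤ n),
      min δ 1 / (n.factorial * c ^ n) ≤
        |(M.submatrix (fun i => π (Fin.castLE h i)) (Fin.castLE h)).det| := by
  obtain ⟨π, hπ⟩ := exists_pivot c hc n (M.map (fun x : ℝ => (x : ℂ)))
    (fun i j => by rw [Matrix.map_apply, Complex.norm_real, Real.norm_eq_abs]; exact hM i j)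
    δ hδ (by rw [norm_det_map]; exact hdet)
  refine ⟨π, fun j h => ?_⟩
  have h1 := hπ j h
  rw [Matrix.submatrix_map, norm_det_map] at h1
  exact h1

lemma cramer_real {n : ℕ} (M : Matrix (Fin n) (Fin n) ℝ) (c δ R : ℝ) (hc : 1 ≤ c) (hδ : 0 < δ)
    (hM : ∀ i j, |M i j| ≤ c) (hdet : δ ≤ |M.det|) (x : Fin n → ℝ)
    (hx : ∀ j, |M.mulVec x j| ≤ R) (l : Fin n) :
    |x l| ≤ n * (n.factorial * c ^ n) / δ * R := by
  have h := cramer_bound (M.map (fun x : ℝ => (x : ℂ))) c δ R hc hδ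
    (fun i j => by rw [Matrix.map_apply, Complex.norm_real, Real.norm_eq_abs]; exact hM i j)
    (by rw [norm_det_map]; exact hdet) (fun l => (x l : ℂ)) (fun j => by
      have : (M.map (fun x : ℝ => (x : ℂ))).mulVec (fun l => (x l : ℂ)) j =
          ((M.mulVec x j : ℝ) : ℂ) := by
        simp [Matrix.mulVec, dotProduct]
      rw [this, Complex.norm_real, Real.norm_eq_abs]
      exact hx j) l
  rwa [Complex.norm_real, Real.norm_eq_abs] at h

/-- the coordinates, multiplied by the determinant -/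
def crd (y : Fin N → Fin N → ℤ) (z : Fin N → ℤ) : Fin N → ℤ :=
  Matrix.vecMul z (Matrix.of y).adjugate

lemma crd_spec (y : Fin N → Fin N → ℤ) (z : Fin N → ℤ) (k : Fin N) :
    (Matrix.of y).det * z k = ∑ l, crd y z l * y l k := by
  have h : Matrix.vecMul (crd y z) (Matrix.of y) = (Matrix.of y).det • z := by
    rw [crd, Matrix.vecMul_vecMul, Matrix.adjugate_mul, Matrix.vecMul_smul, Matrix.vecMul_one]
  have h1 := congrFun h k
  rw [Pi.smul_apply, smul_eq_mul] at h1
  rw [← h1]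
  rfl

lemma crd_ne {y : Fin N → Fin N → ℤ} (hy : (Matrix.of y).det ≠ 0) {z : Fin N → ℤ} (hz : z ≠ 0) :
    crd y z ≠ 0 := by
  intro h
  apply hz
  funext k
  have h1 := crd_spec y z k
  rw [h] at h1
  simp only [Pi.zero_apply, zero_mul, Finset.sum_const_zero] at h1
  exact (mul_eq_zero.1 h1).resolve_left hy

lemma mulVec_eq_gz (A : Matrix (Fin N) (Fin N) ℝ) (y : Fin N → Fin N → ℤ)
    (hy : (Matrix.of y).det ≠ 0) (lam : Fin N → ℝ) (hlam : ∀ i, 0 < lam i) (z : Fin N → ℤ) :
    A.mulVec (fun k => (z k : ℝ)) =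
      (gz A y lam).mulVec (fun l => lam l * ((crd y z l : ℝ) / ((Matrix.of y).det : ℤ))) := by
  have hD : (((Matrix.of y).det : ℤ) : ℝ) ≠ 0 := by exact_mod_cast hy
  funext j
  have h1 : (fun k => (z k : ℝ)) =
      fun k => ∑ l, ((crd y z l : ℝ) / ((Matrix.of y).det : ℤ)) * (y l k : ℝ) := by
    funext k
    have h2 : ((((Matrix.of y).det * z k : ℤ)) : ℝ) = ((∑ l, crd y z l * y l k : ℤ) : ℝ) := by
      rw [crd_spec]
    rw [Int.cast_mul, Int.cast_sum] at h2
    simp only [Int.cast_mul] at h2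
    have h3 : ∑ l, ((crd y z l : ℝ) / ((Matrix.of y).det : ℤ)) * (y l k : ℝ) =
        (∑ l, (crd y z l : ℝ) * (y l k : ℝ)) / ((Matrix.of y).det : ℤ) := by
      rw [Finset.sum_div]
      exact Finset.sum_congr rfl fun l _ => by ring
    rw [h3, eq_div_iff hD, ← h2]
    ring
  rw [h1]
  simp only [Matrix.mulVec, dotProduct, gz, Matrix.of_apply]
  simp only [Finset.mul_sum]
  rw [Finset.sum_comm]
  apply Finset.sum_congr rfl
  intro l _
  have hl : lam l ≠ 0 := (hlam l).ne'
  rw [Finset.sum_div, Finset.sum_mul]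
  apply Finset.sum_congr rfl
  intro k _
  field_simp

lemma exists_topZ (a : Fin N → ℤ) (ha : a ≠ 0) : ∃ l, a l ≠ 0 ∧ ∀ k, l < k → a k = 0 := by
  classical
  have hne : (Finset.univ.filter fun l => a l ≠ 0).Nonempty := by
    obtain ⟨l, hl⟩ := Function.ne_iff.mp ha
    exact ⟨l, by simpa using hl⟩
  refine ⟨(Finset.univ.filter fun l => a l ≠ 0).max' hne, ?_, ?_⟩
  · have := Finset.max'_mem _ hne
    simpa using this
  · intro k hk
    by_contra h
    have := Finset.le_max' (Finset.univ.filter fun l => a l ≠ 0) k (by simpa using h)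
    exact absurd hk (not_lt.mpr this)

/-- Upper bound for the top coefficient, using only the first forms. -/
lemma coeff_bound_leadZ {c : ℝ} (hc : 1 ≤ c) {A : Matrix (Fin N) (Fin N) ℝ}
    {y : Fin N → Fin N → ℤ} {lam : Fin N → ℝ} (hred : RedZ c A y lam)
    (π : Equiv.Perm (Fin N)) (δ : ℝ) (hδ : 0 < δ)
    (hπ : ∀ (j : ℕ) (h : j ≤ N), δ ≤ |((gz A y lam).submatrix
      (fun i => π (Fin.castLE h i)) (Fin.castLE h)).det|)
    (z : Fin N → ℤ) (l : Fin N) (hl : ∀ k, l < k → crd y z k = 0) (R : ℝ)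
    (hR : ∀ j ≤ l, |A.mulVec (fun k => (z k : ℝ)) (π j)| ≤ R) :
    lam l * |(crd y z l : ℝ) / ((Matrix.of y).det : ℤ)| ≤ N * (N.factorial * c ^ N) / δ * R := by
  have hl1 : (l : ℕ) + 1 ≤ N := l.2
  have hR0 : 0 ≤ R := (abs_nonneg _).trans (hR l le_rfl)
  have hup : ∀ j i, |gz A y lam j i| ≤ c := by
    intro j i
    rw [gz, Matrix.of_apply, abs_div, abs_of_pos (hred.pos i), div_le_iff₀ (hred.pos i)]
    exact hred.upper j i
  set a : Fin N → ℝ := fun l => (crd y z l : ℝ) / ((Matrix.of y).det : ℤ) with ha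
  have hal : ∀ k, l < k → a k = 0 := by
    intro k hk
    simp only [ha]
    rw [hl k hk]
    simp
  set M := (gz A y lam).submatrix (fun i => π (Fin.castLE hl1 i)) (Fin.castLE hl1) with hM
  have h1 := cramer_real M c δ R hc hδ (fun i j => hup _ _) (hπ _ hl1)
    (fun k => lam (Fin.castLE hl1 k) * a (Fin.castLE hl1 k)) (by
      intro j
      have hj : Fin.castLE hl1 j ≤ l := by
        rw [Fin.le_def]
        simp only [Fin.val_castLE]
        omega
      have h2 := hR _ hj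
      rw [mulVec_eq_gz A y hred.ne lam hred.pos z] at h2
      convert h2 using 2
      simp only [Matrix.mulVec, dotProduct, hM, Matrix.submatrix_apply]
      have h3 : ∀ f : Fin N → ℝ, (∀ k, l < k → f k = 0) →
          ∑ k, f k = ∑ k : Fin ((l : ℕ) + 1), f (Fin.castLE hl1 k) := by
        intro f hf
        have e1 : ∑ k, f k = ∑ k ∈ Finset.univ.image (Fin.castLE hl1), f k := by
          symm
          apply Finset.sum_subset (Finset.subset_univ _)
          intro k _ hk
          apply hf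
          by_contra hkl
          apply hk
          rw [Finset.mem_image]
          exact ⟨⟨k, by rw [not_lt, Fin.le_def] at hkl; omega⟩, Finset.mem_univ _, rfl⟩
        rw [e1, Finset.sum_image]
        intro x _ y _ hxy
        exact Fin.castLE_injective hl1 hxy
      rw [h3]
      intro k hk
      have := hal k hk
      simp only [ha] at this
      rw [this, mul_zero, mul_zero]) ⟨l, Nat.lt_succ_self _⟩
  have e2 : Fin.castLE hl1 ⟨l, Nat.lt_succ_self _⟩ = l := rfl
  rw [e2, abs_mul, abs_of_pos (hred.pos l)] at h1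
  refine h1.trans ?_
  apply mul_le_mul_of_nonneg_right _ hR0
  apply div_le_div_of_nonneg_right _ hδ.le
  have h4 : (((l : ℕ) + 1 : ℕ) : ℝ) ≤ N := by exact_mod_cast hl1
  have h5 : ((((l : ℕ) + 1).factorial : ℕ) : ℝ) ≤ N.factorial := by
    exact_mod_cast Nat.factorial_le hl1
  have h6 : c ^ ((l : ℕ) + 1) ≤ c ^ N := pow_le_pow_right₀ hc hl1
  have h7 : (0 : ℝ) ≤ c ^ ((l : ℕ) + 1) := by positivity
  gcongr

/-- the modified forms -/
noncomputable def modifZ (ρ : Fin N → ℝ) (π : Equiv.Perm (Fin N)) (A : Matrix (Fin N) (Fin N) ℝ) :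
    Matrix (Fin N) (Fin N) ℝ :=
  Matrix.diagonal (fun i => ρ (π.symm i)) * A

lemma abs_det_modifZ (ρ : Fin N → ℝ) (π : Equiv.Perm (Fin N)) (A : Matrix (Fin N) (Fin N) ℝ)
    (hρ : ∀ i, 0 < ρ i) : |(modifZ ρ π A).det| = (∏ i, ρ i) * |A.det| := by
  rw [modifZ, Matrix.det_mul, Matrix.det_diagonal, abs_mul, Equiv.prod_comp π.symm (fun i => ρ i),
    abs_of_pos (Finset.prod_pos fun i _ => hρ i)]

lemma modifZ_mulVec (ρ : Fin N → ℝ) (π : Equiv.Perm (Fin N)) (A : Matrix (Fin N) (Fin N) ℝ)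
    (hρ : ∀ i, 0 < ρ i) (x : Fin N → ℝ) (j : Fin N) :
    |(modifZ ρ π A).mulVec x (π j)| = ρ j * |A.mulVec x (π j)| := by
  rw [modifZ, ← Matrix.mulVec_mulVec, Matrix.mulVec_diagonal, abs_mul,
    Equiv.symm_apply_apply, abs_of_pos (hρ _)]

/-- lower bound for the modified norm. -/
lemma modif_lowerZ {c : ℝ} (hc : 1 ≤ c) {A : Matrix (Fin N) (Fin N) ℝ}
    {y : Fin N → Fin N → ℤ} {lam : Fin N → ℝ} (hred : RedZ c A y lam)
    (hmono : Monotone lam) (π : Equiv.Perm (Fin N)) (δ : ℝ) (hδ : 0 < δ)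
    (hπ : ∀ (j : ℕ) (h : j ≤ N), δ ≤ |((gz A y lam).submatrix
      (fun i => π (Fin.castLE h i)) (Fin.castLE h)).det|) (β : ℝ) (hβ : 0 < β)
    (z : Fin N → ℤ) (l : Fin N) (hal : crd y z l ≠ 0) (hl : ∀ k, l < k → crd y z k = 0) (R : ℝ)
    (hR : ∀ j, |(modifZ (fun j => β / min (lam j) β) π A).mulVec (fun k => (z k : ℝ)) j| ≤ R) :
    max (lam l) β ≤ c * (N * (N.factorial * c ^ N) / δ) * R := by
  set ρ : Fin N → ℝ := fun j => β / min (lam j) β with hρdef
  have hmin : ∀ j, 0 < min (lam j) β := fun j => lt_min (hred.pos j) hβ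
  have hρ : ∀ j, 0 < ρ j := fun j => div_pos hβ (hmin j)
  set B : ℝ := N * (N.factorial * c ^ N) / δ with hB
  have hR0 : 0 ≤ R := (abs_nonneg _).trans (hR l)
  have hρle : ∀ j ≤ l, ρ l ≤ ρ j := by
    intro j hj
    apply div_le_div_of_nonneg_left hβ.le (hmin j)
    exact min_le_min_right _ (hmono hj)
  have hc0 : 0 < c := by linarith
  have hB0 : 0 ≤ B := by positivity
  have hphi : lam l * |(crd y z l : ℝ) / ((Matrix.of y).det : ℤ)| ≤ B * (R / ρ l) := by
    apply coeff_bound_leadZ hc hred π δ hδ hπ z l hl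
    intro j hj
    rw [le_div_iff₀ (hρ l)]
    have h1 := hR (π j)
    rw [modifZ_mulVec ρ π A hρ] at h1
    have h2 := hρle j hj
    have h3 := abs_nonneg (A.mulVec (fun k => (z k : ℝ)) (π j))
    nlinarith
  have h1 : 1 / c ≤ |(crd y z l : ℝ) / ((Matrix.of y).det : ℤ)| := by
    have hD : (0 : ℝ) < |(((Matrix.of y).det : ℤ) : ℝ)| := by
      rw [abs_pos]
      exact_mod_cast hred.ne
    have h2 : (1 : ℝ) ≤ |(crd y z l : ℝ)| := by
      have h3 : (1 : ℤ) ≤ |crd y z l| := Int.one_le_abs hal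
      exact_mod_cast h3
    rw [abs_div, div_le_div_iff₀ hc0 hD]
    have h3 := hred.index
    nlinarith
  have h2 : lam l * ρ l = max (lam l) β := by
    simp only [hρdef]
    rw [mul_div_assoc', div_eq_iff (hmin l).ne', mul_comm (max _ _), min_mul_max]
  rw [← h2]
  have h3 : lam l * (1 / c) ≤ B * (R / ρ l) :=
    (mul_le_mul_of_nonneg_left h1 (hred.pos l).le).trans hphi
  have h4 : lam l * ρ l = lam l * (1 / c) * (c * ρ l) := by
    field_simp
  rw [h4]
  calc lam l * (1 / c) * (c * ρ l) ≤ B * (R / ρ l) * (c * ρ l) := by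
        apply mul_le_mul_of_nonneg_right h3
        have := hρ l
        positivity
    _ = c * B * R := by
        have := (hρ l).ne'
        field_simp

end DavZ

open DavZ in
theorem davenportZ_of (hR : ∀ N : ℕ, ∃ C : ℝ, 1 ≤ C ∧ ∀ A : Matrix (Fin N) (Fin N) ℝ,
    A.det ≠ 0 → ∃ (y : Fin N → Fin N → ℤ) (lam : Fin N → ℝ), Monotone lam ∧ RedZ C A y lam ∧
      ∏ i, lam i ≤ C * |A.det|)
    (n : ℕ) (b : Fin (n + 1)) (hb : (b : ℕ) + 1 = n) (c : ℝ) (hc : 1 ≤ c) :
    ∃ C : ℝ, 1 ≤ C ∧ ∀ (A : Matrix (Fin (n + 1)) (Fin (n + 1)) ℝ) (_ : A.det ≠ 0)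
      (y : Fin (n + 1) → Fin (n + 1) → ℤ) (lam : Fin (n + 1) → ℝ) (_ : Monotone lam)
      (_ : RedZ c A y lam) (_ : C * lam b < lam (Fin.last n)),
      ∃ (π : Equiv.Perm (Fin (n + 1))) (y' : Fin n → Fin (n + 1) → ℤ),
        LinearIndependent ℚ (fun i k => (y' i k : ℚ)) ∧
        (∀ w : Fin (n + 1) → ℤ, (∀ l : Fin n, ∑ k, w k * y l.castSucc k = 0) →
          ∀ i, ∑ k, w k * y' i k = 0) ∧
        (∀ i j, |A.mulVec (fun k => (y' i k : ℝ)) (π j)| ≤ C * min (lam j) (lam b)) := by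
  classical
  obtain ⟨C0, hC0, hred0⟩ := hR (n + 1)
  have hc0 : 0 < c := by linarith
  have hfac : (0 : ℝ) < (n + 1).factorial := by exact_mod_cast (n + 1).factorial_pos
  have hfac1 : (1 : ℝ) ≤ (n + 1).factorial := by exact_mod_cast (n + 1).factorial_pos
  have hcp : (1 : ℝ) ≤ c ^ (n + 1) := one_le_pow₀ hc
  set δ : ℝ := (1 / c) / ((n + 1).factorial * c ^ (n + 1)) with hδdef
  have hδ : 0 < δ := by positivity
  set c₂ : ℝ := c * (((n + 1 : ℕ) : ℝ) * ((n + 1).factorial * c ^ (n + 1)) / δ) with hc2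
  have hc2pos : 0 < c₂ := by positivity
  set c₃ : ℝ := 1 / (c₂ * C0) with hc3
  have hc3pos : 0 < c₃ := by positivity
  set C₄ : ℝ := C0 * ((n + 1).factorial * c ^ (n + 1)) with hC4
  have hC4pos : 0 < C₄ := by positivity
  refine ⟨1 + C₄ / c₃ ^ (n + 1) + C0 * (C₄ / c₃ ^ n), ?_, ?_⟩
  · have : 0 ≤ C₄ / c₃ ^ (n + 1) + C0 * (C₄ / c₃ ^ n) := by positivity
    linarith
  intro A hdet y lam hmono hred hgap
  set β := lam b with hβdef
  set L := lam (Fin.last n) with hL
  have hβ : 0 < β := hred.pos b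
  have hLpos : 0 < L := hred.pos _
  have hβL : β ≤ L := hmono (Fin.le_last b)
  have hup : ∀ j i, |gz A y lam j i| ≤ c := by
    intro j i
    rw [gz, Matrix.of_apply, abs_div, abs_of_pos (hred.pos i), div_le_iff₀ (hred.pos i)]
    exact hred.upper j i
  obtain ⟨π, hπ⟩ := pivot_real c hc (n + 1) (gz A y lam) hup (1 / c)
    (by positivity) hred.lower
  have hmin1 : min (1 / c) 1 = 1 / c := min_eq_left (by rw [div_le_one hc0]; exact hc)
  rw [hmin1] at hπ
  set ρ : Fin (n + 1) → ℝ := fun j => β / min (lam j) β with hρdef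
  have hmin : ∀ j, 0 < min (lam j) β := fun j => lt_min (hred.pos j) hβ
  have hρ : ∀ j, 0 < ρ j := fun j => div_pos hβ (hmin j)
  have hdet' : (modifZ ρ π A).det ≠ 0 := by
    rw [← abs_pos, abs_det_modifZ ρ π A hρ]
    exact mul_pos (Finset.prod_pos fun i _ => hρ i) (abs_pos.2 hdet)
  obtain ⟨y₂, lam₂, hmono₂, hred₂, hprod₂⟩ := hred0 (modifZ ρ π A) hdet'
  have hy₂ : ∀ i, y₂ i ≠ 0 := by
    intro i h
    apply hred₂.ne
    apply Matrix.det_eq_zero_of_row_eq_zero i
    intro j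
    rw [Matrix.of_apply, h, Pi.zero_apply]
  -- lower bounds for the new minima
  have hlow : ∀ i, c₃ * β ≤ lam₂ i ∧ (crd y (y₂ i) (Fin.last n) ≠ 0 → c₃ * L ≤ lam₂ i) := by
    intro i
    obtain ⟨l, hal, hl⟩ := exists_topZ (crd y (y₂ i)) (crd_ne hred.ne (hy₂ i))
    have h1 := modif_lowerZ hc hred hmono π δ hδ hπ β hβ (y₂ i) l hal hl
      (C0 * lam₂ i) (fun j => hred₂.upper j i)
    have h2 : c₃ * max (lam l) β ≤ lam₂ i := by
      rw [hc3, div_mul_eq_mul_div, one_mul, div_le_iff₀ (by positivity)]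
      calc max (lam l) β ≤ c * (((n + 1 : ℕ) : ℝ) * ((n + 1).factorial * c ^ (n + 1)) / δ) *
            (C0 * lam₂ i) := h1
        _ = lam₂ i * (c₂ * C0) := by rw [hc2]; ring
    refine ⟨(mul_le_mul_of_nonneg_left (le_max_right _ _) hc3pos.le).trans h2, fun hS => ?_⟩
    have hlast : l = Fin.last n := by
      by_contra hne
      exact hS (hl _ (lt_of_le_of_ne (Fin.le_last l) hne))
    rw [hlast] at h2
    exact (mul_le_mul_of_nonneg_left (le_max_left _ _) hc3pos.le).trans h2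
  -- upper bound for the product
  have hprodA : |A.det| ≤ ((n + 1).factorial * c ^ (n + 1)) * ∏ i, lam i := by
    have hlamprod : 0 < ∏ i, lam i := Finset.prod_pos fun i _ => hred.pos i
    have h1 : (gz A y lam).det * ∏ i, lam i = A.det * (((Matrix.of y).det : ℤ) : ℝ) := by
      have e1 : gz A y lam * Matrix.diagonal lam =
          A * ((Matrix.of y).map (Int.cast : ℤ → ℝ))ᵀ := by
        ext j i
        rw [Matrix.mul_diagonal, gz, Matrix.of_apply, div_mul_cancel₀ _ (hred.pos i).ne']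
        rfl
      have e2 := congrArg Matrix.det e1
      rw [Matrix.det_mul, Matrix.det_mul, Matrix.det_diagonal, Matrix.det_transpose] at e2
      rw [e2]
      congr 1
      exact (Int.cast_det (R := ℝ) (Matrix.of y)).symm
    have h2 := abs_det_le (gz A y lam) c hup
    have h3 : (1 : ℝ) ≤ |(((Matrix.of y).det : ℤ) : ℝ)| := by
      have h3 : (1 : ℤ) ≤ |(Matrix.of y).det| := Int.one_le_abs hred.ne
      exact_mod_cast h3
    have h4 : |A.det| * |(((Matrix.of y).det : ℤ) : ℝ)| = |(gz A y lam).det| * ∏ i, lam i := by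
      rw [← abs_mul, ← h1, abs_mul, abs_of_pos hlamprod]
    calc |A.det| ≤ |A.det| * |(((Matrix.of y).det : ℤ) : ℝ)| := by
          nlinarith [abs_nonneg A.det]
      _ = |(gz A y lam).det| * ∏ i, lam i := h4
      _ ≤ _ := mul_le_mul_of_nonneg_right h2 hlamprod.le
  have hmaxprod : ∏ j, max (lam j) β = β ^ n * L := by
    rw [Fin.prod_univ_castSucc]
    congr 1
    · rw [Finset.prod_congr rfl (fun j _ => ?_), Finset.prod_const, Finset.card_univ,
        Fintype.card_fin]
      apply max_eq_right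
      apply hmono
      rw [Fin.le_def, Fin.val_castSucc]
      have := j.2
      omega
    · exact max_eq_left hβL
  have hprodlam₂ : ∏ i, lam₂ i ≤ C₄ * (β ^ n * L) := by
    rw [abs_det_modifZ ρ π A hρ] at hprod₂
    have h2 : (∏ i, ρ i) * (∏ i, lam i) = ∏ j, max (lam j) β := by
      rw [← Finset.prod_mul_distrib]
      apply Finset.prod_congr rfl
      intro i _
      simp only [hρdef]
      rw [div_mul_eq_mul_div, div_eq_iff (hmin i).ne', mul_comm (max _ _), min_mul_max]
      ring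
    have hρp : 0 < ∏ i, ρ i := Finset.prod_pos fun i _ => hρ i
    calc ∏ i, lam₂ i ≤ C0 * ((∏ i, ρ i) * |A.det|) := hprod₂
      _ ≤ C0 * ((∏ i, ρ i) * (((n + 1).factorial * c ^ (n + 1)) * ∏ i, lam i)) := by
          gcongr
      _ = C0 * ((n + 1).factorial * c ^ (n + 1)) * ((∏ i, ρ i) * ∏ i, lam i) := by ring
      _ = C₄ * (β ^ n * L) := by rw [h2, hmaxprod]
  -- lower bound for the product
  have hlowprod : ∀ i : Fin n, (c₃ * β) ^ (n - 1) * lam₂ i.castSucc * lam₂ (Fin.last n) ≤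
      ∏ i, lam₂ i := by
    intro i
    rw [Fin.prod_univ_castSucc]
    apply mul_le_mul_of_nonneg_right _ (hred₂.pos _).le
    rw [← Finset.mul_prod_erase Finset.univ _ (Finset.mem_univ i), mul_comm]
    apply mul_le_mul_of_nonneg_left _ (hred₂.pos _).le
    calc (c₃ * β) ^ (n - 1) = ∏ _j ∈ Finset.univ.erase i, (c₃ * β) := by
          rw [Finset.prod_const, Finset.card_erase_of_mem (Finset.mem_univ i), Finset.card_univ,
            Fintype.card_fin]
      _ ≤ _ := Finset.prod_le_prod (fun _ _ => by positivity) (fun j _ => (hlow _).1)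
  have hnn : n - 1 + 1 = n := by omega
  have hS : ∀ i : Fin n, crd y (y₂ i.castSucc) (Fin.last n) = 0 := by
    intro i
    by_contra hnot
    have h1 := (hlow i.castSucc).2 hnot
    have h2 : c₃ * L ≤ lam₂ (Fin.last n) := h1.trans (hmono₂ (Fin.le_last _))
    have h3 := (hlowprod i).trans hprodlam₂
    have h4 : (c₃ * β) ^ (n - 1) * (c₃ * L) * (c₃ * L) ≤ C₄ * (β ^ n * L) := by
      refine le_trans ?_ h3
      have h8 := (hred₂.pos i.castSucc).le
      apply mul_le_mul _ h2 (by positivity) (by positivity)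
      exact mul_le_mul_of_nonneg_left h1 (by positivity)
    have h5 : c₃ ^ (n + 1) * L ≤ C₄ * β := by
      have e1 : (c₃ * β) ^ (n - 1) * (c₃ * L) * (c₃ * L) =
          (β ^ (n - 1) * L) * (c₃ ^ (n + 1) * L) := by
        have : c₃ ^ (n + 1) = c₃ ^ (n - 1) * c₃ * c₃ := by
          rw [← pow_succ, ← pow_succ, hnn]
        rw [this, mul_pow]
        ring
      have e2 : C₄ * (β ^ n * L) = (β ^ (n - 1) * L) * (C₄ * β) := by
        have : β ^ n = β ^ (n - 1) * β := by rw [← pow_succ, hnn]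
        rw [this]
        ring
      rw [e1, e2] at h4
      exact le_of_mul_le_mul_left h4 (by positivity)
    have h6 : L ≤ C₄ / c₃ ^ (n + 1) * β := by
      rw [div_mul_eq_mul_div, le_div_iff₀ (by positivity)]
      linarith
    have h7 : 0 ≤ C0 * (C₄ / c₃ ^ n) * β := by positivity
    nlinarith
  have hlast : c₃ * L ≤ lam₂ (Fin.last n) := by
    apply (hlow _).2
    intro hmem
    have hall : ∀ i, crd y (y₂ i) (Fin.last n) = 0 := by
      intro i
      rcases Fin.eq_castSucc_or_eq_last i with ⟨j, rfl⟩ | rfl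
      · exact hS j
      · exact hmem
    have h1 : (Matrix.of y₂).mulVec (fun k => (Matrix.of y).adjugate k (Fin.last n)) = 0 := by
      funext i
      exact hall i
    have h2 := Matrix.eq_zero_of_mulVec_eq_zero hred₂.ne h1
    have h3 := congrFun (congrFun (Matrix.mul_adjugate (Matrix.of y)) (Fin.last n)) (Fin.last n)
    rw [Matrix.mul_apply, Matrix.smul_apply, Matrix.one_apply_eq, smul_eq_mul, mul_one] at h3
    apply hred.ne
    rw [← h3]
    apply Finset.sum_eq_zero
    intro k _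
    have := congrFun h2 k
    simp only [Pi.zero_apply] at this
    rw [this, mul_zero]
  have hbound : ∀ i : Fin n, lam₂ i.castSucc ≤ C₄ / c₃ ^ n * β := by
    intro i
    have h3 := (hlowprod i).trans hprodlam₂
    have h4 : (c₃ * β) ^ (n - 1) * lam₂ i.castSucc * (c₃ * L) ≤ C₄ * (β ^ n * L) := by
      refine le_trans ?_ h3
      apply mul_le_mul_of_nonneg_left hlast
      have := hred₂.pos i.castSucc
      positivity
    have e1 : (c₃ * β) ^ (n - 1) * lam₂ i.castSucc * (c₃ * L) =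
        (β ^ (n - 1) * L) * (c₃ ^ n * lam₂ i.castSucc) := by
      have : c₃ ^ n = c₃ ^ (n - 1) * c₃ := by rw [← pow_succ, hnn]
      rw [this, mul_pow]
      ring
    have e2 : C₄ * (β ^ n * L) = (β ^ (n - 1) * L) * (C₄ * β) := by
      have : β ^ n = β ^ (n - 1) * β := by rw [← pow_succ, hnn]
      rw [this]
      ring
    rw [e1, e2] at h4
    have h5 := le_of_mul_le_mul_left h4 (by positivity)
    rw [div_mul_eq_mul_div, le_div_iff₀ (by positivity)]
    linarith
  have hfinal : ∀ i : Fin n, C0 * lam₂ i.castSucc ≤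
      (1 + C₄ / c₃ ^ (n + 1) + C0 * (C₄ / c₃ ^ n)) * β := by
    intro i
    have h1 := mul_le_mul_of_nonneg_left (hbound i) (by linarith : (0 : ℝ) ≤ C0)
    have h2 : 0 ≤ (1 + C₄ / c₃ ^ (n + 1)) * β := by positivity
    linarith
  refine ⟨π, fun i => y₂ i.castSucc, ?_, ?_, ?_⟩
  · have h1 : LinearIndependent ℚ (fun i => ((Matrix.of y₂).map (Int.cast : ℤ → ℚ)).row i) := by
      rw [Matrix.linearIndependent_rows_iff_isUnit, Matrix.isUnit_iff_isUnit_det,
        isUnit_iff_ne_zero]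
      have h2 : ((Matrix.of y₂).map (Int.cast : ℤ → ℚ)).det = (((Matrix.of y₂).det : ℤ) : ℚ) :=
        (Int.cast_det (R := ℚ) (Matrix.of y₂)).symm
      rw [h2]
      exact_mod_cast hred₂.ne
    exact h1.comp _ (Fin.castSucc_injective n)
  · intro w hw i
    have h1 : (Matrix.of y).det * ∑ k, w k * y₂ i.castSucc k = 0 := by
      calc (Matrix.of y).det * ∑ k, w k * y₂ i.castSucc k
          = ∑ k, w k * ((Matrix.of y).det * y₂ i.castSucc k) := by
            rw [Finset.mul_sum]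
            exact Finset.sum_congr rfl fun k _ => by ring
        _ = ∑ k, w k * ∑ l, crd y (y₂ i.castSucc) l * y l k := by
            exact Finset.sum_congr rfl fun k _ => by rw [crd_spec]
        _ = ∑ l, crd y (y₂ i.castSucc) l * ∑ k, w k * y l k := by
            simp only [Finset.mul_sum]
            rw [Finset.sum_comm]
            exact Finset.sum_congr rfl fun l _ => Finset.sum_congr rfl fun k _ => by ring
        _ = 0 := by
            rw [Fin.sum_univ_castSucc, hS i, zero_mul, add_zero]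
            apply Finset.sum_eq_zero
            intro l _
            rw [hw l, mul_zero]
    exact (mul_eq_zero.1 h1).resolve_left hred.ne
  · intro i j
    have h3 := hred₂.upper (π j) i.castSucc
    rw [modifZ_mulVec ρ π A hρ] at h3
    have h4 := h3.trans (hfinal i)
    have h5 : (1 + C₄ / c₃ ^ (n + 1) + C0 * (C₄ / c₃ ^ n)) * min (lam j) β =
        (1 + C₄ / c₃ ^ (n + 1) + C0 * (C₄ / c₃ ^ n)) * β / ρ j := by
      simp only [hρdef]
      have := (hmin j).ne'
      field_simp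
    rw [h5, le_div_iff₀ (hρ j), mul_comm]
    exact h4

end Pool.Agent.SST
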