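import Pool.Agent.DD7719.SubZero
import Pool.Agent.DD7719.SubLow
import Pool.Agent.DD7719.NormalVector

/-! Definitions for the Subspace theorem over `ℤ` (MP_6f1c57_nt). -/

open MvPolynomial

namespace Pool.Agent.SST

/-- A finite family of number fields `K s` with absolute values `v s`, which are at most the usual
absolute value on `ℤ`, and satisfy `∏ v s(n) ≥ 1` for nonzero integers `n`. -/
structure GoodPlaces {S : Type} [Fintype S] (K : S → Type) [∀ s, Field (K s)]
    (v : ∀ s, AbsoluteValue (K s) ℝ) : Prop where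
  le : ∀ s (n : ℤ), v s (n : K s) ≤ |(n : ℝ)|
  prod : ∀ n : ℤ, n ≠ 0 → 1 ≤ ∏ s, v s (n : K s)

section Subst

variable {M k : ℕ} {ι : Type*} [DecidableEq ι] {R : Type*} [CommRing R]

/-- the linear forms in the variables `b` (inr) and `t` (inl). -/
noncomputable def linZ (Z : Fin M → Fin k → ι → R) (J₁ : ι) (p : Fin M × ι) :
    MvPolynomial (Fin M ⊕ (Fin M × Fin k)) R :=
  ∑ l, C (Z p.1 l p.2) * X (Sum.inr (p.1, l)) + if p.2 = J₁ then X (Sum.inl p.1) else 0

/-- the substituted polynomial. -/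
noncomputable def subZ (Z : Fin M → Fin k → ι → R) (J₁ : ι)
    (P : MvPolynomial (Fin M × ι) R) : MvPolynomial (Fin M ⊕ (Fin M × Fin k)) R :=
  aeval (linZ Z J₁) P

lemma map_linZ {R' : Type*} [CommRing R'] (f : R →+* R') (Z : Fin M → Fin k → ι → R) (J₁ : ι)
    (p : Fin M × ι) : MvPolynomial.map f (linZ Z J₁ p) = linZ (fun h l J => f (Z h l J)) J₁ p := by
  rw [linZ, linZ, map_add, map_sum]
  congr 1
  · exact Finset.sum_congr rfl fun l _ => by rw [map_mul, map_C, map_X]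
  · split_ifs
    · rw [map_X]
    · rw [map_zero]

lemma map_subZ {R' : Type*} [CommRing R'] (f : R →+* R') (Z : Fin M → Fin k → ι → R) (J₁ : ι)
    (P : MvPolynomial (Fin M × ι) R) :
    MvPolynomial.map f (subZ Z J₁ P) = subZ (fun h l J => f (Z h l J)) J₁ (MvPolynomial.map f P) := by
  rw [subZ, subZ]
  have h1 : (MvPolynomial.map f).comp (aeval (linZ Z J₁) : _ →ₐ[R] _).toRingHom =
      ((aeval (linZ (fun h l J => f (Z h l J)) J₁) : _ →ₐ[R'] _).toRingHom).comp
        (MvPolynomial.map f) := by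
    apply MvPolynomial.ringHom_ext
    · intro r
      simp
    · intro p
      simp [map_linZ]
  have h2 := RingHom.congr_fun h1 P
  exact h2

lemma subG_one {K : Type*} [Field K] (n : Fin M → ℕ) (Z : Fin M → Fin k → ι → K) (J₁ : ι)
    (P : MvPolynomial (Fin M × ι) K) :
    Pool.Agent.DD7719.subG (fun _ => 1) n Z J₁ P = subZ Z J₁ P := by
  have h : (fun p : Fin M × ι => C (((fun _ => 1 : ι → K) p.2) ^ n p.1) *
      Pool.Agent.DD7719.linB Z J₁ p) = linZ Z J₁ := by
    funext p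
    simp only [one_pow, C_1, one_mul]
    rfl
  rw [Pool.Agent.DD7719.subG, subZ, ← h]

end Subst

open Pool.Agent.DD7719.M in
/-- Reduced (Minkowski) basis data over `ℤ`, including Davenport's lemma for the compounds. -/
structure MinBasis {m : ℕ} (C : ℝ) (A : Matrix (Fin (m + 1)) (Fin (m + 1)) ℝ)
    (y : Fin (m + 1) → Fin (m + 1) → ℤ) (lam : Fin (m + 1) → ℝ) : Prop where
  mono : Monotone lam
  pos : ∀ i, 0 < lam i
  det_ne : (Matrix.of y).det ≠ 0
  vec : ∀ i j, |A.mulVec (fun k => (y i k : ℝ)) j| ≤ C * lam i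
  upper : ∏ i, lam i ≤ C * |A.det|
  lower : |A.det| ≤ C * ∏ i, lam i
  mem : ∀ (z : Fin (m + 1) → ℤ) (R : ℝ), (∀ j, |A.mulVec (fun k => (z k : ℝ)) j| ≤ R) →
    ∀ p : Fin (m + 1), C * R < lam p →
      ∀ j, p ≤ j → Matrix.vecMul z (Matrix.of y).adjugate j = 0
  gap : ∀ (p q : ℕ) (h : p + q = m + 1) (hp : 0 < p) (hq : 0 < q),
    C * lam ⟨p - 1, by omega⟩ < lam ⟨p, by omega⟩ →
    ∃ (π : Equiv.Perm (Fin q ↪o Fin (m + 1)))
      (Z : Fin (Fintype.card (Fin q ↪o Fin (m + 1)) - 1) → (Fin q ↪o Fin (m + 1)) → ℤ),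
      LinearIndependent ℚ (fun i J => (Z i J : ℚ)) ∧
      (∀ i, ∑ J, Z i J * compound q (Matrix.of y).adjugate J (topEmb h) = 0) ∧
      ∀ i I, |∑ J, compound q A (π I) J * (Z i J : ℝ)| ≤
        C * (if I = topEmb h then (∏ a, lam (I a)) * lam ⟨p - 1, by omega⟩ / lam ⟨p, by omega⟩
          else ∏ a, lam (I a))

end Pool.Agent.SST
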