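import Pool.Agent.SST.KDefs
import Mathlib.NumberTheory.NumberField.Discriminant.Basic
import Mathlib.LinearAlgebra.Matrix.SchurComplement

/-!
# The discriminant of the order of a quadratic point over a number field
-/

open MvPolynomial Filter Module NumberField
open scoped Topology

namespace Pool.Agent.SST

/-- The trace of `w` in a quadratic extension, if `w ^ 2 + p w + q = 0`. -/
lemma discK_trace {k K : Type} [Field k] [Field K] [Algebra k K] (hK : finrank k K = 2) (w : K)
    (hw : w ∉ Set.range (algebraMap k K)) (p q : k)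
    (h : w * w = -(p • w) - q • 1) : Algebra.trace k K w = -p := by
  have hli : LinearIndependent k ![(1 : K), w] := by
    rw [LinearIndependent.pair_iff]
    intro s t hst
    by_cases ht : t = 0
    · subst ht
      refine ⟨?_, rfl⟩
      simpa using hst
    · exfalso
      apply hw
      refine ⟨-(s / t), ?_⟩
      have ht' : (algebraMap k K t) ≠ 0 := by
        rw [Ne, map_eq_zero]
        exact ht
      rw [Algebra.smul_def, Algebra.smul_def, mul_one] at hst
      rw [map_neg, map_div₀]
      field_simp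
      linear_combination -hst
  set B : Basis (Fin 2) k K := basisOfLinearIndependentOfCardEqFinrank hli (by simp [hK]) with hB
  have hB0 : B 0 = 1 := by simp [hB]
  have hB1 : B 1 = w := by simp [hB]
  rw [Algebra.trace_eq_matrix_trace B w, Matrix.trace_fin_two, Algebra.leftMulMatrix_eq_repr_mul,
    Algebra.leftMulMatrix_eq_repr_mul]
  have e0 : B.repr (w * B 0) 0 = 0 := by
    rw [hB0, mul_one]
    conv_lhs => rw [← hB1]
    rw [B.repr_self]
    simp
  have e1 : B.repr (w * B 1) 1 = -p := by
    rw [hB1, h]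
    have e2 : -(p • w) - q • (1 : K) = (-p) • B 1 + (-q) • B 0 := by
      rw [hB0, hB1]
      module
    rw [e2, map_add, map_smul, map_smul, B.repr_self, B.repr_self]
    simp
  rw [e0, e1, zero_add]

/-- The Gram matrix twisted by multiplication with `z`. -/
lemma discK_gram {ι k : Type} [Fintype ι] [DecidableEq ι] [Field k] [Algebra ℚ k]
    (b : Basis ι ℚ k) (z : k) (i j : ι) :
    (Algebra.traceMatrix ℚ b * Algebra.leftMulMatrix b z) i j =
      Algebra.trace ℚ k (b i * b j * z) := by
  rw [Matrix.mul_apply]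
  simp only [Algebra.traceMatrix_apply, Algebra.traceForm_apply, Algebra.leftMulMatrix_eq_repr_mul]
  have h1 : b i * b j * z = ∑ l, (b.repr (z * b j) l) • (b i * b l) := by
    conv_lhs => rw [mul_assoc, mul_comm (b j) z, ← b.sum_repr (z * b j), Finset.mul_sum]
    refine Finset.sum_congr rfl fun l _ => ?_
    rw [mul_smul_comm]
  rw [h1, map_sum]
  refine Finset.sum_congr rfl fun l _ => ?_
  rw [map_smul, smul_eq_mul, mul_comm]

/-- The discriminant of `(b_i, b_j y)`. -/
lemma discK_block {ι k K : Type} [Fintype ι] [DecidableEq ι] [Field k] [NumberField k]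
    [Field K] [NumberField K] [Algebra k K] (hK : finrank k K = 2)
    (b : Basis ι ℚ k) (y : K) (s t : k) (hy : Algebra.trace k K y = -s)
    (hyy : Algebra.trace k K (y * y) = t) :
    Algebra.discr ℚ (Sum.elim (fun i => algebraMap k K (b i))
      (fun i => algebraMap k K (b i) * y)) =
      Algebra.discr ℚ b ^ 2 * Algebra.norm ℚ (2 * t - s ^ 2) := by
  have ht0 : Algebra.trace k K (1 : K) = 2 := by
    have h1 := Algebra.trace_algebraMap (R := k) (S := K) (1 : k)
    rw [map_one, hK] at h1
    rw [h1]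
    norm_num
  have hkey : ∀ (c : k) (z : K), Algebra.trace ℚ K (algebraMap k K c * z) =
      Algebra.trace ℚ k (c * Algebra.trace k K z) := by
    intro c z
    rw [← Algebra.trace_trace (R := ℚ) (S := k) (T := K), ← Algebra.smul_def, map_smul,
      smul_eq_mul]
  set T0 := Algebra.traceMatrix ℚ b with hT0
  set M := Algebra.leftMulMatrix b with hM
  have h1 : Algebra.traceMatrix ℚ (Sum.elim (fun i => algebraMap k K (b i))
      (fun i => algebraMap k K (b i) * y)) =
      Matrix.fromBlocks T0 0 0 T0 * Matrix.fromBlocks (M 2) (M (-s)) (M (-s)) (M t) := by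
    rw [Matrix.fromBlocks_multiply]
    simp only [zero_mul, add_zero, zero_add]
    ext i j
    rcases i with i | i <;> rcases j with j | j
    · rw [Matrix.fromBlocks_apply₁₁, discK_gram, Algebra.traceMatrix_apply,
        Algebra.traceForm_apply, Sum.elim_inl, Sum.elim_inl, ← map_mul, ← mul_one (algebraMap k K _),
        hkey, ht0]
    · rw [Matrix.fromBlocks_apply₁₂, discK_gram, Algebra.traceMatrix_apply,
        Algebra.traceForm_apply, Sum.elim_inl, Sum.elim_inr, ← mul_assoc, ← map_mul,
        hkey, hy]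
    · rw [Matrix.fromBlocks_apply₂₁, discK_gram, Algebra.traceMatrix_apply,
        Algebra.traceForm_apply, Sum.elim_inl, Sum.elim_inr, mul_right_comm, ← map_mul,
        hkey, hy]
    · rw [Matrix.fromBlocks_apply₂₂, discK_gram, Algebra.traceMatrix_apply,
        Algebra.traceForm_apply, Sum.elim_inr, Sum.elim_inr, mul_mul_mul_comm, ← map_mul,
        hkey, hyy]
  have hM2 : M 2 * M (1 / 2) = 1 := by
    rw [← map_mul]
    norm_num
  have hM2' : M (1 / 2) * M 2 = 1 := by
    rw [← map_mul]
    norm_num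
  let _ : Invertible (M 2) := ⟨M (1 / 2), hM2', hM2⟩
  have h2 : ⅟(M 2) = M (1 / 2) := rfl
  have h3 : (2 : k) * (t - -s * (1 / 2) * -s) = 2 * t - s ^ 2 := by
    field_simp
    try ring
  have h4 : (M 2).det * (M (t - -s * (1 / 2) * -s)).det = (M (2 * t - s ^ 2)).det := by
    rw [← Matrix.det_mul, ← map_mul, h3]
  rw [Algebra.discr_def, h1, Matrix.det_mul, Matrix.det_fromBlocks_zero₂₁, Matrix.det_fromBlocks₁₁,
    h2, ← map_mul, ← map_mul, ← map_sub, h4, Algebra.discr_def, ← hT0,
    Algebra.norm_eq_matrix_det b, ← hM]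
  ring

open scoped nonZeroDivisors in
/-- a basis of the inverse of an ideal -/
lemma discK_det {k : Type} [Field k] [NumberField k] (I : Ideal (𝓞 k)) (hI : I ≠ ⊥) :
    ∃ τ : Free.ChooseBasisIndex ℤ (𝓞 k) → k, (∀ i, ∀ a ∈ I, IsIntegral ℤ (τ i * (a : k))) ∧
      |((integralBasis k).toMatrix τ).det| * (Ideal.absNorm I : ℚ) = 1 := by
  classical
  have hI' : (I : FractionalIdeal (𝓞 k)⁰ k) ≠ 0 := FractionalIdeal.coeIdeal_ne_zero.mpr hI
  set J : (FractionalIdeal (𝓞 k)⁰ k)ˣ := (Units.mk0 (I : FractionalIdeal (𝓞 k)⁰ k) hI')⁻¹ with hJ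
  have hJ1 : (J : FractionalIdeal (𝓞 k)⁰ k) = (I : FractionalIdeal (𝓞 k)⁰ k)⁻¹ := by
    rw [hJ, Units.val_inv_eq_inv_val, Units.val_mk0]
  have hcard : Fintype.card (Free.ChooseBasisIndex ℤ (𝓞 k)) =
      Fintype.card (Free.ChooseBasisIndex ℤ J) := by
    rw [← finrank_eq_card_chooseBasisIndex, ← finrank_eq_card_chooseBasisIndex,
      fractionalIdeal_rank]
  set e := Fintype.equivOfCardEq hcard with he
  refine ⟨(basisOfFractionalIdeal k J).reindex e.symm, ?_, ?_⟩
  · intro i a ha
    have h1 : ((basisOfFractionalIdeal k J).reindex e.symm) i ∈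
        (J : FractionalIdeal (𝓞 k)⁰ k) := by
      rw [Basis.reindex_apply, basisOfFractionalIdeal_apply]
      exact Subtype.property _
    have h3 : ∀ z : k, z ∈ (J : FractionalIdeal (𝓞 k)⁰ k) →
        z ∈ (I : FractionalIdeal (𝓞 k)⁰ k)⁻¹ := fun z hz => hJ1 ▸ hz
    have h2 := (FractionalIdeal.mem_inv_iff hI').1 (h3 _ h1) (a : k)
      (FractionalIdeal.mem_coeIdeal_of_mem _ ha)
    rw [FractionalIdeal.mem_one_iff] at h2
    obtain ⟨c, hc⟩ := h2
    rw [← hc]
    exact c.isIntegral_coe
  · have h1 := det_basisOfFractionalIdeal_eq_absNorm k J e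
    rw [Basis.det_apply] at h1
    rw [h1, hJ1, map_inv₀, FractionalIdeal.coeIdeal_absNorm]
    have h2 : (Ideal.absNorm I : ℚ) ≠ 0 := by
      rw [Ne, Nat.cast_eq_zero, Ideal.absNorm_eq_zero_iff]
      exact hI
    exact inv_mul_cancel₀ h2

section F

variable {k : Type} [Field k] [NumberField k]

theorem exists_condK (K : Type) [Field K] [NumberField K] [Algebra k K] (hK : finrank k K = 2)
    (x : K) (hx : x ∉ Set.range (algebraMap k K)) (f : Fin 3 → 𝓞 k) (hf0 : f ≠ 0)
    (hf : algebraMap k K (f 0) * x ^ 2 + algebraMap k K (f 1) * x + algebraMap k K (f 2) = 0) :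
    ∃ F : ℕ, 0 < F ∧ NumberField.discr k ^ 2 * |Algebra.norm ℤ (discK f)| =
      (F : ℤ) ^ 2 * (Ideal.absNorm (contentK f) : ℤ) ^ 2 * |NumberField.discr K| := by
  classical
  -- the leading coefficient is not zero
  have hf0k : (f 0 : k) ≠ 0 := by
    intro h0
    rw [h0, map_zero, zero_mul, zero_add] at hf
    by_cases h1 : (f 1 : k) = 0
    · rw [h1, map_zero, zero_mul, zero_add, map_eq_zero] at hf
      apply hf0
      funext i
      fin_cases i
      · exact RingOfIntegers.ext h0
      · exact RingOfIntegers.ext h1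
      · exact RingOfIntegers.ext hf
    · apply hx
      refine ⟨-((f 2 : k) / (f 1 : k)), ?_⟩
      have h1' : algebraMap k K (f 1 : k) ≠ 0 := by rwa [Ne, map_eq_zero]
      rw [map_neg, map_div₀]
      field_simp
      linear_combination -hf
  have hf0K : algebraMap k K (f 0 : k) ≠ 0 := by rwa [Ne, map_eq_zero]
  set w : K := algebraMap k K (f 0) * x with hw
  have hww : w * w = -((f 1 : k) • w) - ((f 0 : k) * (f 2 : k)) • 1 := by
    rw [Algebra.smul_def, Algebra.smul_def, mul_one, map_mul, hw]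
    linear_combination algebraMap k K (f 0) * hf
  have hwn : w ∉ Set.range (algebraMap k K) := by
    rintro ⟨r, hr⟩
    apply hx
    refine ⟨r / (f 0 : k), ?_⟩
    rw [map_div₀, hr, hw]
    field_simp
  -- traces
  have ht1 : Algebra.trace k K w = -(f 1 : k) := discK_trace hK w hwn _ _ hww
  have ht0 : Algebra.trace k K (1 : K) = 2 := by
    have h1 := Algebra.trace_algebraMap (R := k) (S := K) (1 : k)
    rw [map_one, hK] at h1
    rw [h1]
    norm_num
  have ht2 : Algebra.trace k K (w * w) = (f 1 : k) ^ 2 - 2 * ((f 0 : k) * (f 2 : k)) := by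
    rw [hww, map_sub, map_neg, map_smul, map_smul, ht1, ht0, smul_eq_mul, smul_eq_mul]
    ring
  have hdu := discK_block hK (integralBasis k) w (f 1 : k) _ ht1 ht2
  have hd : 2 * ((f 1 : k) ^ 2 - 2 * ((f 0 : k) * (f 2 : k))) - (f 1 : k) ^ 2 =
      ((discK f : 𝓞 k) : k) := by
    have h5 : ((discK f : 𝓞 k) : k) = (f 1 : k) ^ 2 - 4 * (f 0 : k) * (f 2 : k) := by
      change algebraMap (𝓞 k) k (discK f) = _
      rw [discK]
      simp only [map_sub, map_pow, map_mul, map_ofNat]
    rw [h5]
    ring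
  have hdne : ((discK f : 𝓞 k) : k) ≠ 0 := by
    intro h0
    rw [← hd] at h0
    have h1 : (2 * w + algebraMap k K (f 1)) ^ 2 = 0 := by
      have h3 : algebraMap k K (2 * ((f 1 : k) ^ 2 - 2 * ((f 0 : k) * (f 2 : k))) -
          (f 1 : k) ^ 2) = 0 := by rw [h0, map_zero]
      have h4 := hww
      rw [Algebra.smul_def, Algebra.smul_def, mul_one, map_mul] at h4
      simp only [map_sub, map_mul, map_pow, map_ofNat] at h3
      linear_combination 4 * h4 + h3
    have h4 : 2 * w + algebraMap k K (f 1) = 0 := pow_eq_zero_iff (two_ne_zero) |>.1 h1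
    apply hwn
    refine ⟨-((f 1 : k) / 2), ?_⟩
    rw [map_neg, map_div₀, map_ofNat]
    field_simp
    linear_combination -h4
  rw [hd] at hdu
  -- the inverse ideal
  have hI : contentK f ≠ ⊥ := by
    intro h0
    apply hf0k
    have h1 : f 0 ∈ contentK f := Ideal.subset_span ⟨0, rfl⟩
    rw [h0, Ideal.mem_bot] at h1
    rw [h1]
    rfl
  obtain ⟨τ, hτ, hdet⟩ := discK_det (contentK f) hI
  have hmem : ∀ i, f i ∈ contentK f := fun i => Ideal.subset_span ⟨i, rfl⟩
  have hint : ∀ i, IsIntegral ℤ (algebraMap k K (τ i) * w) := by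
    intro i
    have h1 : IsIntegral (𝓞 k) (algebraMap k K (τ i) * w) := by
      set b' : 𝓞 k := ⟨τ i * (f 1 : k), hτ i _ (hmem 1)⟩ with hb'
      set a' : 𝓞 k := ⟨τ i * (f 0 : k), hτ i _ (hmem 0)⟩ with ha'
      set c' : 𝓞 k := ⟨τ i * (f 2 : k), hτ i _ (hmem 2)⟩ with hc'
      refine ⟨Polynomial.X ^ 2 + (Polynomial.C b' * Polynomial.X + Polynomial.C (a' * c')),
        Polynomial.monic_X_pow_add (lt_of_le_of_lt Polynomial.degree_linear_le (by norm_num)), ?_⟩
      simp only [Polynomial.eval₂_add, Polynomial.eval₂_mul, Polynomial.eval₂_pow,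
        Polynomial.eval₂_X, Polynomial.eval₂_C]
      have e1 : algebraMap (𝓞 k) K b' = algebraMap k K (τ i) * algebraMap k K (f 1) := by
        rw [← map_mul]
        rfl
      have e2 : algebraMap (𝓞 k) K (a' * c') = algebraMap k K (τ i) * algebraMap k K (f 0) *
          (algebraMap k K (τ i) * algebraMap k K (f 2)) := by
        rw [← map_mul, ← map_mul, ← map_mul]
        rfl
      rw [e1, e2]
      have h4 := hww
      rw [Algebra.smul_def, Algebra.smul_def, mul_one, map_mul] at h4
      linear_combination (algebraMap k K (τ i)) ^ 2 * h4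
    exact isIntegral_trans (R := ℤ) (A := 𝓞 k) _ h1
  -- the vectors
  set v : Free.ChooseBasisIndex ℤ (𝓞 k) ⊕ Free.ChooseBasisIndex ℤ (𝓞 k) → 𝓞 K :=
    Sum.elim (fun i => algebraMap (𝓞 k) (𝓞 K) (RingOfIntegers.basis k i))
      (fun i => ⟨algebraMap k K (τ i) * w, hint i⟩) with hv
  set Q := (integralBasis k).toMatrix τ with hQ
  have hvQ : Algebra.discr ℚ (fun i => (v i : K)) = Q.det ^ 2 *
      (Algebra.discr ℚ (integralBasis k) ^ 2 * Algebra.norm ℚ ((discK f : 𝓞 k) : k)) := by
    rw [← hdu]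
    have h1 := Algebra.discr_of_matrix_vecMul (A := ℚ) (Sum.elim
      (fun i => algebraMap k K (integralBasis k i))
      (fun i => algebraMap k K (integralBasis k i) * w)) (Matrix.fromBlocks 1 0 0 Q)
    rw [Matrix.det_fromBlocks_zero₂₁, Matrix.det_one, one_mul] at h1
    rw [← h1]
    congr 1
    funext i
    rw [Matrix.vecMul_eq_sum, Finset.sum_apply, Fintype.sum_sum_type]
    rcases i with i | i
    · simp only [Sum.elim_inl, Sum.elim_inr, Matrix.map_apply, Pi.smul_apply, smul_eq_mul,
        Matrix.fromBlocks_apply₁₁, Matrix.fromBlocks_apply₂₁, Matrix.zero_apply, map_zero,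
        mul_zero, Finset.sum_const_zero, add_zero, Matrix.one_apply]
      rw [Finset.sum_eq_single i]
      · rw [if_pos rfl, map_one, mul_one, hv, Sum.elim_inl, integralBasis_apply]
        rfl
      · intro j _ hj
        rw [if_neg hj, map_zero, mul_zero]
      · intro h
        exact absurd (Finset.mem_univ i) h
    · simp only [Sum.elim_inl, Sum.elim_inr, Matrix.map_apply, Pi.smul_apply, smul_eq_mul,
        Matrix.fromBlocks_apply₁₂, Matrix.fromBlocks_apply₂₂, Matrix.zero_apply, map_zero,
        mul_zero, Finset.sum_const_zero, zero_add]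
      have h2 : τ i = ∑ j, Q j i • integralBasis k j := by
        rw [hQ]
        exact ((integralBasis k).sum_repr (τ i)).symm
      have h3 : ((v (Sum.inr i) : 𝓞 K) : K) = algebraMap k K (τ i) * w := rfl
      rw [h3, h2, map_sum, Finset.sum_mul]
      refine Finset.sum_congr rfl fun j _ => ?_
      rw [Algebra.smul_def, map_mul, ← IsScalarTower.algebraMap_apply ℚ k K]
      ring
  -- integral basis
  have hcard : Fintype.card (Free.ChooseBasisIndex ℤ (𝓞 K)) =
      Fintype.card (Free.ChooseBasisIndex ℤ (𝓞 k) ⊕ Free.ChooseBasisIndex ℤ (𝓞 k)) := by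
    rw [Fintype.card_sum, ← finrank_eq_card_chooseBasisIndex, ← finrank_eq_card_chooseBasisIndex,
      RingOfIntegers.rank, RingOfIntegers.rank, ← finrank_mul_finrank ℚ k K, hK]
    ring
  set e := Fintype.equivOfCardEq hcard with he
  set B : Basis (Free.ChooseBasisIndex ℤ (𝓞 k) ⊕ Free.ChooseBasisIndex ℤ (𝓞 k)) ℤ (𝓞 K) :=
    (RingOfIntegers.basis K).reindex e with hB
  have hBd : Algebra.discr ℤ B = NumberField.discr K := by
    have h1 : (B : _ → 𝓞 K) = RingOfIntegers.basis K ∘ e.symm := by
      rw [hB, Basis.coe_reindex]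
    rw [h1, Algebra.discr_reindex]
  have hP : Algebra.discr ℤ v = (B.toMatrix v).det ^ 2 * Algebra.discr ℤ B := by
    have h1 := Algebra.discr_of_matrix_vecMul (A := ℤ) (B : _ → 𝓞 K) (B.toMatrix v)
    rw [Basis.toMatrix_map_vecMul] at h1
    exact h1
  have hcoe : (Algebra.discr ℤ v : ℚ) = Algebra.discr ℚ (fun i => (v i : K)) := by
    rw [Algebra.discr_def, Algebra.discr_def]
    change (Int.castRingHom ℚ) _ = _
    rw [RingHom.map_det]
    congr 1
    ext i j
    rw [RingHom.mapMatrix_apply, Matrix.map_apply, Algebra.traceMatrix_apply,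
      Algebra.traceForm_apply, Algebra.traceMatrix_apply, Algebra.traceForm_apply]
    exact Algebra.coe_trace_int (v i * v j)
  rw [hP, hBd, hvQ, ← coe_discr, ← Algebra.coe_norm_int] at hcoe
  have hdet2 : Q.det ^ 2 * (Ideal.absNorm (contentK f) : ℚ) ^ 2 = 1 := by
    rw [← sq_abs Q.det, ← mul_pow, hdet, one_pow]
  have hmain : (((NumberField.discr k) ^ 2 * Algebra.norm ℤ (discK f) : ℤ) : ℚ) =
      (((B.toMatrix v).det ^ 2 * (Ideal.absNorm (contentK f) : ℤ) ^ 2 * NumberField.discr K : ℤ) :
        ℚ) := by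
    push_cast at hcoe ⊢
    linear_combination -(Ideal.absNorm (contentK f) : ℚ) ^ 2 * hcoe -
      (NumberField.discr k : ℚ) ^ 2 * (Algebra.norm ℤ (discK f) : ℚ) * hdet2
  have hmain' : (NumberField.discr k) ^ 2 * Algebra.norm ℤ (discK f) =
      (B.toMatrix v).det ^ 2 * (Ideal.absNorm (contentK f) : ℤ) ^ 2 * NumberField.discr K := by
    exact_mod_cast hmain
  refine ⟨(B.toMatrix v).det.natAbs, ?_, ?_⟩
  · rw [Int.natAbs_pos]
    intro h0
    rw [h0] at hmain'
    have h1 : (NumberField.discr k) ^ 2 * Algebra.norm ℤ (discK f) = 0 := by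
      rw [hmain']
      ring
    rcases mul_eq_zero.1 h1 with h2 | h2
    · exact NumberField.discr_ne_zero k (pow_eq_zero_iff two_ne_zero |>.1 h2)
    · rw [Algebra.norm_eq_zero_iff] at h2
      apply hdne
      rw [h2]
      rfl
  · have h1 := congrArg abs hmain'
    rw [abs_mul, abs_mul, abs_of_nonneg (sq_nonneg (NumberField.discr k)),
      abs_of_nonneg (by positivity : (0 : ℤ) ≤ (B.toMatrix v).det ^ 2 *
        (Ideal.absNorm (contentK f) : ℤ) ^ 2)] at h1
    rw [h1, Int.natCast_natAbs, sq_abs]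

end F

end Pool.Agent.SST
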