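import Pool.Agent.SST.SpecDefs
import Mathlib.NumberTheory.NumberField.Discriminant.Basic

/-!
# The discriminant of the minimal polynomial of a quadratic number
-/

open MvPolynomial Filter
namespace Pool.Agent.SST

open Module

/-- The trace of `w` in a quadratic field, if `w ^ 2 + p w + q = 0`. -/
lemma trace_quadratic (K : Type) [Field K] [NumberField K] (hK : Module.finrank ℚ K = 2) (w : K)
    (hw : w ∉ Set.range (algebraMap ℚ K)) (p q : ℚ)
    (h : w * w = -(p • w) - q • 1) : Algebra.trace ℚ K w = -p := by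
  have hli : LinearIndependent ℚ ![(1 : K), w] := by
    rw [LinearIndependent.pair_iff]
    intro s t hst
    by_cases ht : t = 0
    · subst ht
      refine ⟨?_, rfl⟩
      simpa using hst
    · exfalso
      apply hw
      refine ⟨-(s / t), ?_⟩
      have ht' : (algebraMap ℚ K t) ≠ 0 := by
        rw [Ne, map_eq_zero]
        exact ht
      rw [Algebra.smul_def, Algebra.smul_def, mul_one] at hst
      rw [map_neg, map_div₀]
      field_simp
      linear_combination -hst
  set B : Basis (Fin 2) ℚ K := basisOfLinearIndependentOfCardEqFinrank hli (by simp [hK]) with hB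
  have hB0 : B 0 = 1 := by simp [hB]
  have hB1 : B 1 = w := by simp [hB]
  rw [Algebra.trace_eq_matrix_trace B w, Matrix.trace_fin_two, Algebra.leftMulMatrix_eq_repr_mul,
    Algebra.leftMulMatrix_eq_repr_mul]
  have e0 : B.repr (w * B 0) 0 = 0 := by
    rw [hB0, mul_one]
    conv_lhs => rw [← hB1]
    rw [B.repr_self]
    simp
  have e1 : B.repr (w * B 1) 1 = -p := by
    rw [hB1, h]
    have e2 : -(p • w) - q • (1 : K) = (-p) • B 1 + (-q) • B 0 := by
      rw [hB0, hB1]
      module
    rw [e2, map_add, map_smul, map_smul, B.repr_self, B.repr_self]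
    simp
  rw [e0, e1, zero_add]

theorem exists_cond (K : Type) [Field K] [NumberField K] (hK : Module.finrank ℚ K = 2) (x : K)
    (hx : x ∉ Set.range (algebraMap ℚ K)) (f : Fin 3 → ℤ)
    (hf : (f 0 : K) * x ^ 2 + (f 1 : K) * x + (f 2 : K) = 0)
    (hgcd : ∀ d : ℤ, (∀ i, d ∣ f i) → IsUnit d) :
    ∃ F : ℕ, 0 < F ∧ discq f = (F : ℤ) ^ 2 * NumberField.discr K := by
  -- the leading coefficient is not zero
  have hf0 : f 0 ≠ 0 := by
    intro h0
    rw [h0, Int.cast_zero, zero_mul, zero_add] at hf
    by_cases h1 : f 1 = 0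
    · rw [h1, Int.cast_zero, zero_mul, zero_add] at hf
      have h2 : f 2 = 0 := by exact_mod_cast hf
      have h3 := hgcd 2 (by
        intro i
        fin_cases i
        · change (2 : ℤ) ∣ f 0
          rw [h0]; exact dvd_zero _
        · change (2 : ℤ) ∣ f 1
          rw [h1]; exact dvd_zero _
        · change (2 : ℤ) ∣ f 2
          rw [h2]; exact dvd_zero _)
      rw [Int.isUnit_iff] at h3
      omega
    · apply hx
      refine ⟨-((f 2 : ℚ) / (f 1 : ℚ)), ?_⟩
      have h1' : (f 1 : K) ≠ 0 := by exact_mod_cast h1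
      rw [map_neg, map_div₀, map_intCast, map_intCast]
      field_simp
      linear_combination -hf
  have hf0K : (f 0 : K) ≠ 0 := by exact_mod_cast hf0
  set w : K := (f 0 : K) * x with hw
  have hww : w * w = -((f 1 : K) * w) - (f 0 : K) * (f 2 : K) := by
    rw [hw]
    linear_combination (f 0 : K) * hf
  have hwn : w ∉ Set.range (algebraMap ℚ K) := by
    rintro ⟨r, hr⟩
    apply hx
    refine ⟨r / (f 0 : ℚ), ?_⟩
    rw [map_div₀, map_intCast, hr, hw]
    field_simp
  have hwint : IsIntegral ℤ w := by
    refine ⟨Polynomial.X ^ 2 + Polynomial.C (f 1) * Polynomial.X + Polynomial.C (f 0 * f 2),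
      ?_, ?_⟩
    · have h1 : (Polynomial.X ^ 2 + Polynomial.C (f 1) * Polynomial.X +
          Polynomial.C (f 0 * f 2) : Polynomial ℤ) =
          Polynomial.X ^ 2 + (Polynomial.C (f 1) * Polynomial.X + Polynomial.C (f 0 * f 2)) := by
        ring
      rw [h1]
      exact Polynomial.monic_X_pow_add (lt_of_le_of_lt Polynomial.degree_linear_le (by norm_num))
    · simp only [Polynomial.eval₂_add, Polynomial.eval₂_mul, Polynomial.eval₂_pow,
        Polynomial.eval₂_X, Polynomial.eval₂_C]
      simp only [algebraMap_int_eq, eq_intCast, Int.cast_mul]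
      linear_combination hww
  -- traces
  have ht1 : Algebra.trace ℚ K w = -(f 1 : ℚ) := by
    refine trace_quadratic K hK w hwn (f 1 : ℚ) ((f 0 : ℚ) * (f 2 : ℚ)) ?_
    rw [hww, Algebra.smul_def, Algebra.smul_def, mul_one]
    simp
  have ht0 : Algebra.trace ℚ K (1 : K) = 2 := by
    have h1 := Algebra.trace_algebraMap (R := ℚ) (S := K) (1 : ℚ)
    rw [map_one, hK] at h1
    rw [h1]
    norm_num
  have ht2 : Algebra.trace ℚ K (w * w) = (f 1 : ℚ) ^ 2 - 2 * ((f 0 : ℚ) * (f 2 : ℚ)) := by
    have h1 : w * w = (-(f 1 : ℚ)) • w + (-((f 0 : ℚ) * (f 2 : ℚ))) • (1 : K) := by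
      rw [hww, Algebra.smul_def, Algebra.smul_def, mul_one]
      simp
      ring
    rw [h1, map_add, map_smul, map_smul, ht1, ht0, smul_eq_mul, smul_eq_mul]
    ring
  -- the discriminant of `1, w`
  set w' : NumberField.RingOfIntegers K := ⟨w, hwint⟩ with hw'
  set v : Fin 2 → NumberField.RingOfIntegers K := ![1, w'] with hv
  have hdv : (Algebra.discr ℤ v : ℚ) = (discq f : ℚ) := by
    rw [Algebra.discr_def, Matrix.det_fin_two]
    simp only [Algebra.traceMatrix_apply, Algebra.traceForm_apply]
    push_cast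
    rw [Algebra.coe_trace_int, Algebra.coe_trace_int, Algebra.coe_trace_int,
      Algebra.coe_trace_int]
    have e00 : ((v 0 * v 0 : NumberField.RingOfIntegers K) : K) = 1 := by simp [hv]
    have e01 : ((v 0 * v 1 : NumberField.RingOfIntegers K) : K) = w := by simp [hv, hw']
    have e10 : ((v 1 * v 0 : NumberField.RingOfIntegers K) : K) = w := by simp [hv, hw']
    have e11 : ((v 1 * v 1 : NumberField.RingOfIntegers K) : K) = w * w := by simp [hv, hw']
    rw [e00, e01, e10, e11, ht0, ht1, ht2, discq]
    push_cast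
    ring
  have hdv' : Algebra.discr ℤ v = discq f := by exact_mod_cast hdv
  -- change of basis
  have hcard : Fintype.card (Module.Free.ChooseBasisIndex ℤ (NumberField.RingOfIntegers K)) =
      Fintype.card (Fin 2) := by
    rw [← Module.finrank_eq_card_chooseBasisIndex, NumberField.RingOfIntegers.rank, hK,
      Fintype.card_fin]
  set e := Fintype.equivOfCardEq hcard with he
  set B : Basis (Fin 2) ℤ (NumberField.RingOfIntegers K) :=
    (NumberField.RingOfIntegers.basis K).reindex e with hB
  have hBd : Algebra.discr ℤ B = NumberField.discr K := by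
    have h1 : (B : Fin 2 → NumberField.RingOfIntegers K) =
        NumberField.RingOfIntegers.basis K ∘ e.symm := by
      rw [hB, Basis.coe_reindex]
    rw [h1, Algebra.discr_reindex]
  have hP : Algebra.discr ℤ v = (B.toMatrix v).det ^ 2 * Algebra.discr ℤ B := by
    have h1 := Algebra.discr_of_matrix_vecMul (A := ℤ) (B : Fin 2 → NumberField.RingOfIntegers K)
      (B.toMatrix v)
    rw [Basis.toMatrix_map_vecMul] at h1
    exact h1
  rw [hdv', hBd] at hP
  refine ⟨(B.toMatrix v).det.natAbs, ?_, ?_⟩
  · rw [Int.natAbs_pos]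
    intro h0
    rw [h0] at hP
    have h1 : discq f = 0 := by rw [hP]; ring
    rw [discq] at h1
    have h2 : (2 * w + (f 1 : K)) ^ 2 = 0 := by
      have h3 : ((f 1 : K)) ^ 2 - 4 * (f 0 : K) * (f 2 : K) = 0 := by exact_mod_cast h1
      linear_combination 4 * hww + h3
    have h4 : 2 * w + (f 1 : K) = 0 := by
      exact pow_eq_zero_iff (two_ne_zero) |>.1 h2
    apply hwn
    refine ⟨-((f 1 : ℚ) / 2), ?_⟩
    rw [map_neg, map_div₀, map_intCast, map_ofNat]
    field_simp
    linear_combination -h4
  · rw [hP, Int.natCast_natAbs, sq_abs]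

end Pool.Agent.SST
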