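import Mathlib

/-! Extension of a nonarchimedean absolute value to an algebraically closed field. -/

namespace Pool.Agent.SST

theorem exists_ext {F : Type} [Field F] (w : AbsoluteValue F ℝ)
    (hw : ∀ x y : F, w (x + y) ≤ max (w x) (w y)) (hnt : w.IsNontrivial) :
    ∃ (L : Type) (_ : Field L) (_ : IsAlgClosed L) (j : F →+* L) (W : AbsoluteValue L ℝ),
      (∀ x y : L, W (x + y) ≤ max (W x) (W y)) ∧ ∀ x : F, W (j x) = w x := by
  have hu0 : IsUltrametricDist (WithAbs w) :=
    IsUltrametricDist.isUltrametricDist_of_forall_norm_add_le_max_norm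
      (fun x y => hw (WithAbs.ofAbs x) (WithAbs.ofAbs y))
  have hu : IsUltrametricDist w.Completion := IsUltrametricDist.of_normedAlgebra (WithAbs w)
  obtain ⟨x, hx0, hx1⟩ := hnt
  have hnorm : ∀ y : F, ‖((WithAbs.toAbs w y : WithAbs w) : w.Completion)‖ = w y := by
    intro y
    rw [UniformSpace.Completion.norm_coe]
    rfl
  let nf : NontriviallyNormedField w.Completion :=
    NontriviallyNormedField.ofNormNeOne
      ⟨((WithAbs.toAbs w x : WithAbs w) : w.Completion), by
        intro h
        have := hnorm x
        rw [h, norm_zero] at this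
        exact hx0 ((map_eq_zero w).1 this.symm), by rw [hnorm]; exact hx1⟩
  let L := AlgebraicClosure w.Completion
  let W0 : MulAlgebraNorm w.Completion L := spectralMulAlgNorm w.Completion L
  let W : AbsoluteValue L ℝ :=
    { toFun := fun z => spectralNorm w.Completion L z
      map_mul' := fun a b => map_mul W0 a b
      nonneg' := fun a => spectralNorm_nonneg a
      eq_zero' := fun a => map_eq_zero_iff_eq_zero W0
      add_le' := fun a b => map_add_le_add W0 a b }
  let j : F →+* L := ((algebraMap w.Completion L).comp
    (algebraMap (WithAbs w) w.Completion)).comp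
      ((WithAbs.equiv w).symm : F →+* WithAbs w)
  refine ⟨L, inferInstance, inferInstance, j, W, ?_, ?_⟩
  · intro a b
    exact isNonarchimedean_spectralNorm a b
  · intro y
    change spectralNorm w.Completion L (algebraMap w.Completion L _) = w y
    rw [spectralNorm_extends]
    exact hnorm y

end Pool.Agent.SST
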