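import Pool.Agent.SST.KDefs
import Mathlib.RingTheory.Localization.Integer

/-! A form over the algebraic closure of a number field vanishing at points with coordinates in
the ring of integers is dominated by a form over the ring of integers. -/

open MvPolynomial Filter Module NumberField
open scoped Topology

namespace Pool.Agent.SST

variable {k : Type} [Field k] [NumberField k]

theorem form_descend (P : MvPolynomial (Fin 3) (AlgebraicClosure k)) (hP : P ≠ 0) (m : ℕ)
    (hPm : P.IsHomogeneous m) :
    ∃ G : MvPolynomial (Fin 3) (𝓞 k), G ≠ 0 ∧ G.IsHomogeneous m ∧ ∀ f : Fin 3 → 𝓞 k,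
      aeval (fun i => algebraMap k (AlgebraicClosure k) (f i : k)) P = 0 → eval f G = 0 := by
  classical
  obtain ⟨s₀, hs₀⟩ := MvPolynomial.ne_zero_iff.1 hP
  obtain ⟨φ, hφ⟩ := Module.Projective.exists_dual_ne_zero k hs₀
  obtain ⟨b, hb⟩ := IsLocalization.exist_integer_multiples (nonZeroDivisors (𝓞 k)) P.support
    (fun s => φ (P.coeff s))
  choose! g hg using hb
  have hg' : ∀ s ∈ P.support, ((g s : 𝓞 k) : k) = ((b : 𝓞 k) : k) * φ (P.coeff s) := by
    intro s hs
    have := hg s hs
    rw [Algebra.smul_def] at this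
    exact this
  have hb0 : ((b : 𝓞 k) : k) ≠ 0 := by
    intro h
    have : (b : 𝓞 k) = 0 := by
      apply FaithfulSMul.algebraMap_injective (𝓞 k) k
      rw [map_zero]; exact h
    exact nonZeroDivisors.coe_ne_zero b this
  refine ⟨∑ s ∈ P.support, monomial s (g s), ?_, ?_, ?_⟩
  · rw [MvPolynomial.ne_zero_iff]
    refine ⟨s₀, ?_⟩
    have hmem : s₀ ∈ P.support := MvPolynomial.mem_support_iff.2 hs₀
    have : coeff s₀ (∑ s ∈ P.support, monomial s (g s)) = g s₀ := by
      rw [coeff_sum]
      rw [Finset.sum_eq_single s₀]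
      · rw [coeff_monomial, if_pos rfl]
      · intro t _ ht
        rw [coeff_monomial, if_neg ht]
      · intro h
        exact absurd hmem h
    rw [this]
    intro h0
    have h1 := hg' s₀ hmem
    rw [h0] at h1
    have h2 : ((0 : 𝓞 k) : k) = 0 := map_zero _
    rw [h2] at h1
    rcases mul_eq_zero.1 h1.symm with h3 | h3
    · exact hb0 h3
    · exact hφ h3
  · apply IsHomogeneous.sum
    intro s hs
    apply isHomogeneous_monomial
    by_contra hne
    exact MvPolynomial.mem_support_iff.1 hs (hPm.coeff_eq_zero hne)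
  · intro f hf
    apply FaithfulSMul.algebraMap_injective (𝓞 k) k
    rw [map_zero, map_sum, map_sum]
    have key : φ (aeval (fun i => algebraMap k (AlgebraicClosure k) (f i : k)) P) = 0 := by
      rw [hf, map_zero]
    have hexp : aeval (fun i => algebraMap k (AlgebraicClosure k) (f i : k)) P =
        ∑ s ∈ P.support, (∏ i, (f i : k) ^ s i) • P.coeff s := by
      rw [aeval_def, eval₂_eq']
      apply Finset.sum_congr rfl
      intro s _
      rw [Algebra.smul_def, mul_comm, map_prod]
      simp only [map_pow]
      rfl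
    rw [hexp, map_sum] at key
    have hsum : ∑ s ∈ P.support, algebraMap (𝓞 k) k (eval f (monomial s (g s))) =
        ((b : 𝓞 k) : k) * ∑ s ∈ P.support, φ ((∏ i, (f i : k) ^ s i) • P.coeff s) := by
      rw [Finset.mul_sum]
      apply Finset.sum_congr rfl
      intro s hs
      rw [eval_monomial, Finsupp.prod_fintype _ _ (fun i => pow_zero _), map_mul, map_smul,
        smul_eq_mul, map_prod]
      simp only [map_pow]
      have h4 : algebraMap (𝓞 k) k (g s) = ((b : 𝓞 k) : k) * φ (P.coeff s) := hg' s hs
      rw [h4]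
      have h5 : ∏ x, (algebraMap (𝓞 k) k) (f x) ^ s x = ∏ i, (f i : k) ^ s i := rfl
      rw [h5]
      ring
    rw [hsum, key, mul_zero]

end Pool.Agent.SST
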