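import Pool.Agent.SST.AllFormK
import Pool.Agent.SST.FormDesc
import Mathlib.Algebra.MvPolynomial.Cardinal
import Mathlib.RingTheory.MvPolynomial.Homogeneous

/-! The inequality with half of the discriminant outside a curve, forms over a number field. -/

open MvPolynomial Filter Module NumberField
open scoped Topology

namespace Pool.Agent.SST

section

variable {k : Type} [Field k] [NumberField k]

lemma countable_ringK : Countable (𝓞 k) :=
  (RingOfIntegers.basis k).equivFun.injective.countable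

lemma countable_polyK (R : Type) [CommRing R] [Countable R] :
    Countable (MvPolynomial (Fin 3) R) := by
  rw [← Cardinal.mk_le_aleph0_iff]
  refine (MvPolynomial.cardinalMk_le_max (σ := Fin 3) (R := R)).trans ?_
  simp

/-- exponent of the homogenised monomial -/
noncomputable def homExp (m : ℕ) (d : Fin 2 →₀ ℕ) : Fin 3 →₀ ℕ :=
  Finsupp.equivFunOnFinite.symm ![m - (d 0 + d 1), d 0, d 1]

/-- homogenisation -/
noncomputable def homP {κ : Type} [Field κ] (m : ℕ) (P : MvPolynomial (Fin 2) κ) :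
    MvPolynomial (Fin 3) κ :=
  ∑ d ∈ P.support, monomial (homExp m d) (coeff d P)

lemma supp_leK {κ : Type} [Field κ] (P : MvPolynomial (Fin 2) κ) (d : Fin 2 →₀ ℕ)
    (hd : d ∈ P.support) : d 0 + d 1 ≤ P.totalDegree := by
  have h1 := le_totalDegree hd
  rwa [Finsupp.sum_fintype _ _ (fun _ => rfl), Fin.sum_univ_two] at h1

lemma homP_hom {κ : Type} [Field κ] (P : MvPolynomial (Fin 2) κ) :
    (homP P.totalDegree P).IsHomogeneous P.totalDegree := by
  refine MvPolynomial.IsHomogeneous.sum _ _ _ fun d hd => ?_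
  refine isHomogeneous_monomial _ ?_
  rw [Finsupp.degree_eq_sum, Fin.sum_univ_three, homExp]
  have h1 := supp_leK P d hd
  simp
  omega

lemma homP_val {κ : Type} [Field κ] (P : MvPolynomial (Fin 2) κ) (y : Fin 3 → κ) (hy : y 0 ≠ 0) :
    aeval y (homP P.totalDegree P) = y 0 ^ P.totalDegree * aeval ![y 1 / y 0, y 2 / y 0] P := by
  have h0 : aeval ![y 1 / y 0, y 2 / y 0] P =
      ∑ d ∈ P.support, aeval ![y 1 / y 0, y 2 / y 0] (monomial d (coeff d P)) := by
    conv_lhs => rw [P.as_sum]
    rw [map_sum]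
  rw [homP, map_sum, h0, Finset.mul_sum]
  refine Finset.sum_congr rfl fun d hd => ?_
  have h1 := supp_leK P d hd
  rw [aeval_monomial, aeval_monomial, Finsupp.prod_fintype _ _ (fun i => pow_zero _),
    Finsupp.prod_fintype _ _ (fun i => pow_zero _), Fin.prod_univ_three, Fin.prod_univ_two, homExp]
  simp only [Finsupp.equivFunOnFinite_symm_apply_apply, Matrix.cons_val_zero, Matrix.cons_val_one,
    Matrix.cons_val]
  have h2 : y 0 ^ P.totalDegree = y 0 ^ (P.totalDegree - (d 0 + d 1)) * y 0 ^ d 0 * y 0 ^ d 1 := by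
    rw [← pow_add, ← pow_add]
    congr 1
    omega
  rw [h2, div_pow, div_pow]
  field_simp

/-- the substitution corresponding to `shiftK` -/
noncomputable def shiftP (κ : Type) [Field κ] (q : ℤ) : Fin 3 → MvPolynomial (Fin 3) κ :=
  ![C ((q : κ) ^ 2) * X 0 + C (q : κ) * X 1 + X 2, C (2 * (q : κ)) * X 0 + X 1, X 0]

lemma shiftP_hom (κ : Type) [Field κ] (q : ℤ) (i : Fin 3) : (shiftP κ q i).IsHomogeneous 1 := by
  fin_cases i
  · exact ((isHomogeneous_C_mul_X _ _).add (isHomogeneous_C_mul_X _ _)).add (isHomogeneous_X _ _)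
  · exact (isHomogeneous_C_mul_X _ _).add (isHomogeneous_X _ _)
  · exact isHomogeneous_X _ _

/-- a polynomial vanishing at the coordinates of the shifted form comes from a form over `k` -/
lemma gen_descendK (q : ℤ) (P : MvPolynomial (Fin 2) (AlgebraicClosure k)) (hP : P ≠ 0) :
    ∃ (G : MvPolynomial (Fin 3) (𝓞 k)) (m : ℕ), G ≠ 0 ∧ G.IsHomogeneous m ∧
      ∀ f : Fin 3 → 𝓞 k, shiftK f q 0 ≠ 0 → aeval (bsqK (shiftK f q)) P = 0 → eval f G = 0 := by
  set Q : MvPolynomial (Fin 3) (AlgebraicClosure k) :=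
    aeval (shiftP (AlgebraicClosure k) q) (homP P.totalDegree P) with hQ
  have hQval : ∀ y : Fin 3 → AlgebraicClosure k, aeval y Q =
      aeval ![(q : AlgebraicClosure k) ^ 2 * y 0 + (q : AlgebraicClosure k) * y 1 + y 2,
        2 * (q : AlgebraicClosure k) * y 0 + y 1, y 0] (homP P.totalDegree P) := by
    intro y
    have h1 := AlgHom.congr_fun (MvPolynomial.comp_aeval (R := AlgebraicClosure k)
      (shiftP (AlgebraicClosure k) q) (aeval y)) (homP P.totalDegree P)
    rw [AlgHom.comp_apply] at h1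
    rw [hQ, h1]
    congr 2
    funext i
    fin_cases i <;> simp [shiftP]
  have hQhom : Q.IsHomogeneous P.totalDegree := by
    have := (homP_hom P).aeval (S := AlgebraicClosure k) (shiftP (AlgebraicClosure k) q)
      (shiftP_hom _ q)
    rwa [one_mul] at this
  have hQ0 : Q ≠ 0 := by
    intro h0
    apply hP
    apply MvPolynomial.funext
    intro z
    rw [map_zero]
    have h1 := hQval ![z 1, z 0 - 2 * (q : AlgebraicClosure k) * z 1,
      1 - (q : AlgebraicClosure k) ^ 2 * z 1 - (q : AlgebraicClosure k) *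
        (z 0 - 2 * (q : AlgebraicClosure k) * z 1)]
    rw [h0, map_zero] at h1
    simp only [Matrix.cons_val_zero, Matrix.cons_val_one, Matrix.cons_val] at h1
    rw [homP_val _ _ (by
      simp only [Matrix.cons_val_zero]
      ring_nf
      exact one_ne_zero)] at h1
    simp only [Matrix.cons_val_zero, Matrix.cons_val_one, Matrix.cons_val] at h1
    have e1 : (q : AlgebraicClosure k) ^ 2 * z 1 + (q : AlgebraicClosure k) *
        (z 0 - 2 * (q : AlgebraicClosure k) * z 1) + (1 - (q : AlgebraicClosure k) ^ 2 * z 1 -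
          (q : AlgebraicClosure k) * (z 0 - 2 * (q : AlgebraicClosure k) * z 1)) = 1 := by ring
    have e2 : 2 * (q : AlgebraicClosure k) * z 1 + (z 0 - 2 * (q : AlgebraicClosure k) * z 1) =
        z 0 := by ring
    rw [e1, e2, one_pow, one_mul, div_one, div_one] at h1
    have e3 : (![z 0, z 1] : Fin 2 → AlgebraicClosure k) = z := by
      funext i
      fin_cases i <;> rfl
    rw [e3] at h1
    exact h1.symm
  obtain ⟨G, hG0, hGh, hG⟩ := form_descend Q hQ0 _ hQhom
  refine ⟨G, _, hG0, hGh, fun f hf0 hfP => hG f ?_⟩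
  rw [hQval]
  have e : (![(q : AlgebraicClosure k) ^ 2 * algebraMap k (AlgebraicClosure k) (f 0 : k) +
      (q : AlgebraicClosure k) * algebraMap k (AlgebraicClosure k) (f 1 : k) +
      algebraMap k (AlgebraicClosure k) (f 2 : k),
      2 * (q : AlgebraicClosure k) * algebraMap k (AlgebraicClosure k) (f 0 : k) +
      algebraMap k (AlgebraicClosure k) (f 1 : k),
      algebraMap k (AlgebraicClosure k) (f 0 : k)] : Fin 3 → AlgebraicClosure k) =
      fun i => algebraMap k (AlgebraicClosure k) (shiftK f q i : k) := by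
    funext i
    fin_cases i
    · change _ = algebraMap k (AlgebraicClosure k)
        (algebraMap (𝓞 k) k (f 0 * q ^ 2 + f 1 * q + f 2))
      simp only [map_add, map_mul, map_pow, map_intCast]
      simp
      ring
    · change _ = algebraMap k (AlgebraicClosure k) (algebraMap (𝓞 k) k (2 * f 0 * q + f 1))
      simp only [map_add, map_mul, map_intCast, map_ofNat]
      simp
      ring
    · rfl
  rw [e, homP_val _ _ (kaux_alg_ne hf0)]
  have e4 : (![algebraMap k (AlgebraicClosure k) (shiftK f q 1 : k) /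
      algebraMap k (AlgebraicClosure k) (shiftK f q 0 : k),
      algebraMap k (AlgebraicClosure k) (shiftK f q 2 : k) /
      algebraMap k (AlgebraicClosure k) (shiftK f q 0 : k)] : Fin 2 → AlgebraicClosure k) =
      bsqK (shiftK f q) := by
    rw [bsqK, map_div₀, map_div₀]
  rw [e4, hfP, mul_zero]

end

section K

variable {k : Type} [Field k] [NumberField k] {T : Type} [Fintype T] [DecidableEq T] {p : T → ℕ}
  [∀ t, Fact (p t).Prime]

theorem gen_formK (e : ExtK k p) (hp : Function.Injective p) (B : ℝ) (hB : 1 ≤ B)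
    (D : Finset (OnePoint (AlgebraicClosure k))) (ε : ℝ) (hε : 0 < ε) :
    ∃ (C : ℝ) (G : MvPolynomial (Fin 3) (𝓞 k)) (m : ℕ), G ≠ 0 ∧ G.IsHomogeneous m ∧
      ∀ f : Fin 3 → 𝓞 k, (Ideal.absNorm (contentK f) : ℝ) ≤ B →
      (∀ ρ ρ' : k →+* ℂ, nfA ρ f ≤ B * nfA ρ' f) → ¬ IsSquare ((discK f : 𝓞 k) : k) →
      (∀ γ ∈ D, evk f γ ≠ 0) → eval f G ≠ 0 →
      lhsK e D (1 / 2) f ≤ (3 + ε) * sizeK f + C := by
  classical
  by_contra hcon
  push Not at hcon
  have : Countable (𝓞 k) := countable_ringK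
  have : Countable (MvPolynomial (Fin 3) (𝓞 k)) := countable_polyK _
  set 𝒢 : Type := {G : MvPolynomial (Fin 3) (𝓞 k) // G ≠ 0 ∧ ∃ m, G.IsHomogeneous m} with h𝒢
  have : Nonempty 𝒢 := ⟨⟨1, one_ne_zero, 0, isHomogeneous_one _ _⟩⟩
  obtain ⟨φ, hφ⟩ := exists_surjective_nat 𝒢
  choose deg hdeg using fun G : 𝒢 => G.2.2
  choose F hcont hbal hirr hev hG hbig using fun n : ℕ =>
    hcon n (∏ i ∈ Finset.range n, (φ i).1) (∑ i ∈ Finset.range n, deg (φ i))
      (Finset.prod_ne_zero_iff.mpr fun i _ => (φ i).2.1)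
      (MvPolynomial.IsHomogeneous.prod _ _ _ fun i _ => hdeg (φ i))
  have hFne : ∀ n, F n ≠ 0 := fun n h0 => kaux_f0_ne (hirr n) (by rw [h0]; rfl)
  have htend := tend_sizeK e D (1 / 2) (3 + ε) (by linarith) B hB F hFne hbal hbig
  set U : Ultrafilter ℕ := hyperfilter ℕ with hU
  have hUle : (U : Filter ℕ) ≤ atTop := Nat.hyperfilter_le_atTop
  have hgen : ∀ (G : MvPolynomial (Fin 3) (𝓞 k)) (m : ℕ), G ≠ 0 → G.IsHomogeneous m →
      ∀ᶠ n in (U : Filter ℕ), eval (F n) G ≠ 0 := by
    intro G m hG0 hGh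
    obtain ⟨i, hi⟩ := hφ ⟨G, hG0, m, hGh⟩
    refine hUle ?_
    filter_upwards [eventually_gt_atTop i] with n hn
    have h1 := hG n
    rw [map_prod, Finset.prod_ne_zero_iff] at h1
    have h2 := h1 i (Finset.mem_range.mpr hn)
    rw [hi] at h2
    exact h2
  have h1 := reduceK e U F B hB hcont hbal hirr D hev (htend.mono_left hUle) (1 / 2) 3
    (by norm_num) (by norm_num) (by norm_num) (fun q h' hs D1 _ ε' hε' =>
      (lim_genK e hp hs (fun P hP => by
        obtain ⟨G, m, hG0, hGh, hGP⟩ := gen_descendK q P hP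
        filter_upwards [hgen G m hG0 hGh] with n hn
        intro h0
        exact hn (hGP (F n) (kaux_f0_ne (by rw [shiftK_disc]; exact hirr n)) h0)) D1 ε' hε').1)
      ε hε 0
  obtain ⟨n, hn⟩ := h1.exists
  have h2 := hbig n
  have h3 : (0 : ℝ) ≤ n := Nat.cast_nonneg n
  rw [add_zero] at hn
  exact absurd (h2.trans_le hn) (by linarith)

end K

end Pool.Agent.SST
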