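import Pool.Agent.SST.CurveHilb

/-! The limit inequality in the generic case. -/

open MvPolynomial Module Filter
open scoped Topology

namespace Pool.Agent.SST

/-- exponents of degree at most `N` -/
def glT (N : ℕ) : Finset (ℕ × ℕ) := (Finset.range (N + 1)).biUnion Finset.HasAntidiagonal.antidiagonal

theorem glT_mem {N : ℕ} {q : ℕ × ℕ} : q ∈ glT N ↔ q.1 + q.2 ≤ N := by
  simp only [glT, Finset.mem_biUnion, Finset.mem_range, Finset.HasAntidiagonal.mem_antidiagonal]
  constructor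
  · rintro ⟨a, ha, hq⟩
    omega
  · intro h
    exact ⟨q.1 + q.2, by omega, rfl⟩

theorem glT_sum {M : Type} [AddCommMonoid M] (N : ℕ) (f : ℕ × ℕ → M) :
    ∑ q ∈ glT N, f q = ∑ s ∈ Finset.range (N + 1), ∑ q ∈ Finset.HasAntidiagonal.antidiagonal s, f q := by
  apply Finset.sum_biUnion
  intro a _ c _ hac
  rw [Function.onFun, Finset.disjoint_left]
  intro q hq hq'
  rw [Finset.HasAntidiagonal.mem_antidiagonal] at hq hq'
  exact hac (hq.symm.trans hq')

theorem glT_card (N : ℕ) : 2 * (glT N).card = (N + 1) * (N + 2) := by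
  rw [Finset.card_eq_sum_ones, glT_sum]
  induction N with
  | zero => simp
  | succ n ih =>
    rw [Finset.sum_range_succ, mul_add, ih]
    simp
    ring

theorem gl_antidiag (s : ℕ) : 2 * ∑ q ∈ Finset.HasAntidiagonal.antidiagonal s, q.1 = s * (s + 1) := by
  rw [Finset.Nat.sum_antidiagonal_eq_sum_range_succ_mk]
  have h := Finset.sum_range_id_mul_two (s + 1)
  simp only [Nat.succ_eq_add_one]
  rw [mul_comm, h, Nat.add_sub_cancel, mul_comm]

theorem gl_antidiag' (s : ℕ) : 2 * ∑ q ∈ Finset.HasAntidiagonal.antidiagonal s, q.2 = s * (s + 1) := by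
  rw [← gl_antidiag s, ← Finset.Nat.sum_antidiagonal_swap]
  rfl

theorem glT_fst (N : ℕ) : 6 * ∑ q ∈ glT N, q.1 = N * (N + 1) * (N + 2) := by
  rw [glT_sum]
  induction N with
  | zero => simp
  | succ n ih =>
    rw [Finset.sum_range_succ, mul_add, ih]
    have h := gl_antidiag (n + 1)
    have h2 : 6 * ∑ q ∈ Finset.HasAntidiagonal.antidiagonal (n + 1), q.1 = 3 * ((n + 1) * (n + 1 + 1)) := by
      rw [← h]; ring
    rw [h2]
    ring

theorem glT_snd (N : ℕ) : 6 * ∑ q ∈ glT N, q.2 = N * (N + 1) * (N + 2) := by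
  rw [glT_sum]
  induction N with
  | zero => simp
  | succ n ih =>
    rw [Finset.sum_range_succ, mul_add, ih]
    have h := gl_antidiag' (n + 1)
    have h2 : 6 * ∑ q ∈ Finset.HasAntidiagonal.antidiagonal (n + 1), q.2 = 3 * ((n + 1) * (n + 1 + 1)) := by
      rw [← h]; ring
    rw [h2]
    ring

theorem glT_fst_real (N : ℕ) : ∑ q ∈ glT N, (q.1 : ℝ) = N * (glT N).card / 3 := by
  have h1 := glT_fst N
  have h2 := glT_card N
  have h1' : (6 : ℝ) * ∑ q ∈ glT N, (q.1 : ℝ) = N * (N + 1) * (N + 2) := by exact_mod_cast h1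
  have h2' : (2 : ℝ) * (glT N).card = (N + 1) * (N + 2) := by exact_mod_cast h2
  have h3 : (N : ℝ) * (N + 1) * (N + 2) = N * (2 * (glT N).card) := by rw [h2']; ring
  linarith

theorem glT_snd_real (N : ℕ) : ∑ q ∈ glT N, (q.2 : ℝ) = N * (glT N).card / 3 := by
  have h1 := glT_snd N
  have h2 := glT_card N
  have h1' : (6 : ℝ) * ∑ q ∈ glT N, (q.2 : ℝ) = N * (N + 1) * (N + 2) := by exact_mod_cast h1
  have h2' : (2 : ℝ) * (glT N).card = (N + 1) * (N + 2) := by exact_mod_cast h2
  have h3 : (N : ℝ) * (N + 1) * (N + 2) = N * (2 * (glT N).card) := by rw [h2']; ring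
  linarith

section

variable {κ 𝓕 : Type} [Field κ] [Field 𝓕] [Algebra κ 𝓕]

theorem gl_span {F : ℕ → Submodule κ (MvPolynomial (Fin 2) κ)} (hmono : Monotone F)
    (h1 : (1 : MvPolynomial (Fin 2) κ) ∈ F 0)
    (hX : ∀ i n, ∀ P ∈ F n, X i * P ∈ F (n + 1)) (N : ℕ) :
    restrictTotalDegree (Fin 2) κ N ≤ F N := by
  have hp : ∀ (i : Fin 2) (a n : ℕ) (P : MvPolynomial (Fin 2) κ), P ∈ F n →
      X i ^ a * P ∈ F (n + a) := by
    intro i a
    induction a with
    | zero => intro n P hP; simpa using hP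
    | succ a ih =>
      intro n P hP
      rw [pow_succ', mul_assoc]
      exact hX i _ _ (ih n P hP)
  change restrictSupport κ {n : Fin 2 →₀ ℕ | (n.sum fun _ e => e) ≤ N} ≤ F N
  rw [restrictSupport_eq_span, Submodule.span_le]
  rintro _ ⟨s, hs, rfl⟩
  have hs' : s 0 + s 1 ≤ N := by
    have h : (s.sum fun _ e => e) ≤ N := hs
    rwa [Finsupp.sum_fintype _ _ (fun _ => rfl), Fin.sum_univ_two] at h
  have he : (monomial s (1 : κ) : MvPolynomial (Fin 2) κ) = X 0 ^ s 0 * (X 1 ^ s 1 * 1) := by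
    rw [monomial_eq, Finsupp.prod_fintype _ _ (fun _ => pow_zero _), Fin.prod_univ_two, C_1,
      one_mul, mul_one]
  change (monomial s (1 : κ) : MvPolynomial (Fin 2) κ) ∈ F N
  rw [he]
  have h := hp 0 (s 0) _ _ (hp 1 (s 1) 0 1 h1)
  exact hmono (by omega) h

theorem gl_indep (P : ℕ × ℕ → MvPolynomial (Fin 2) κ) (u v : MvPolynomial (Fin 2) κ)
    (hP0 : P (0, 0) = 1)
    (hu : ∀ q : ℕ × ℕ, u * P q ∈ Submodule.span κ (P '' (glT (q.1 + q.2 + 1) : Set (ℕ × ℕ))))
    (hv : ∀ q : ℕ × ℕ, v * P q ∈ Submodule.span κ (P '' (glT (q.1 + q.2 + 1) : Set (ℕ × ℕ))))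
    (hX : ∀ i : Fin 2, ∃ a c d : κ, (X i : MvPolynomial (Fin 2) κ) = C a + C c * u + C d * v)
    (hdeg : ∀ q : ℕ × ℕ, (P q).totalDegree ≤ q.1 + q.2) (N : ℕ) :
    LinearIndependent κ (fun q : glT N => P q) := by
  classical
  set F : ℕ → Submodule κ (MvPolynomial (Fin 2) κ) := fun n =>
    Submodule.span κ (P '' (glT n : Set (ℕ × ℕ))) with hF
  have hmono : Monotone F := by
    intro n m hnm
    apply Submodule.span_mono
    apply Set.image_mono
    intro q hq
    rw [Finset.mem_coe, glT_mem] at *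
    omega
  have hmul : ∀ (z : MvPolynomial (Fin 2) κ),
      (∀ q : ℕ × ℕ, z * P q ∈ Submodule.span κ (P '' (glT (q.1 + q.2 + 1) : Set (ℕ × ℕ)))) →
      ∀ n, ∀ Q ∈ F n, z * Q ∈ F (n + 1) := by
    intro z hz n Q hQ
    induction hQ using Submodule.span_induction with
    | mem x hx =>
      obtain ⟨q, hq, rfl⟩ := hx
      rw [Finset.mem_coe, glT_mem] at hq
      exact hmono (show q.1 + q.2 + 1 ≤ n + 1 by omega) (hz q)
    | zero => rw [mul_zero]; exact Submodule.zero_mem _
    | add x y _ _ hx hy => rw [mul_add]; exact Submodule.add_mem _ hx hy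
    | smul c x _ hx => rw [mul_smul_comm]; exact Submodule.smul_mem _ _ hx
  have hspan := gl_span (F := F) hmono
    (by
      rw [← hP0]
      exact Submodule.subset_span ⟨(0, 0), by rw [Finset.mem_coe, glT_mem]; simp, rfl⟩)
    (by
      intro i n Q hQ
      obtain ⟨a, c, d, h⟩ := hX i
      rw [h]
      have e : (C a + C c * u + C d * v) * Q = a • Q + c • (u * Q) + d • (v * Q) := by
        simp only [smul_eq_C_mul]
        ring
      rw [e]
      exact Submodule.add_mem _ (Submodule.add_mem _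
        (Submodule.smul_mem _ _ (hmono (Nat.le_succ n) hQ))
        (Submodule.smul_mem _ _ (hmul u hu n Q hQ))) (Submodule.smul_mem _ _ (hmul v hv n Q hQ))) N
  have hle : F N ≤ restrictTotalDegree (Fin 2) κ N := by
    rw [hF, Submodule.span_le]
    rintro _ ⟨q, hq, rfl⟩
    rw [Finset.mem_coe, glT_mem] at hq
    rw [SetLike.mem_coe, mem_restrictTotalDegree]
    exact (hdeg q).trans hq
  have heq : Submodule.span κ (Set.range (fun q : glT N => P q)) =
      restrictTotalDegree (Fin 2) κ N := by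
    have e : Set.range (fun q : glT N => P q) = P '' (glT N : Set (ℕ × ℕ)) := by
      ext x
      simp
    rw [e]
    exact le_antisymm hle hspan
  rw [linearIndependent_iff_card_eq_finrank_span, Set.finrank, heq]
  have h1 := finrank_rtd (κ := κ) N
  have h2 := glT_card N
  rw [Fintype.card_coe]
  omega

theorem gl_family {b : Fin 2 → 𝓕} (hb : ∀ P : MvPolynomial (Fin 2) κ, aeval b P = 0 → P = 0)
    (N : ℕ) (P : ℕ × ℕ → MvPolynomial (Fin 2) κ)
    (hdeg : ∀ q : ℕ × ℕ, (P q).totalDegree ≤ q.1 + q.2)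
    (hli : LinearIndependent κ (fun q : glT N => P q)) :
    ∃ A : Fin (finrank κ (Md κ b N)) → MvPolynomial (Fin 2) κ, (∀ i, (A i).totalDegree ≤ N) ∧
      LinearIndependent κ (fun i => aeval b (A i)) ∧
      ∀ f : MvPolynomial (Fin 2) κ → ℝ, ∑ i, f (A i) = ∑ q ∈ glT N, f (P q) := by
  have hinj : Function.Injective (aeval b : MvPolynomial (Fin 2) κ →ₐ[κ] 𝓕) :=
    (injective_iff_map_eq_zero _).2 hb
  have hcard : finrank κ (Md κ b N) = Fintype.card (glT N) := by
    have h0 : finrank κ (restrictTotalDegree (Fin 2) κ N) = finrank κ (Md κ b N) :=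
      LinearEquiv.finrank_eq (Submodule.equivMapOfInjective
        (aeval b : MvPolynomial (Fin 2) κ →ₐ[κ] 𝓕).toLinearMap hinj _)
    have h1 := finrank_rtd (κ := κ) N
    have h2 := glT_card N
    rw [Fintype.card_coe]
    omega
  let E : Fin (finrank κ (Md κ b N)) ≃ glT N := (finCongr hcard).trans (Fintype.equivFin _).symm
  refine ⟨fun i => P (E i), ?_, ?_, ?_⟩
  · intro i
    have h := (E i).2
    rw [glT_mem] at h
    exact (hdeg _).trans h
  · have h1 := hli.map' (aeval b : MvPolynomial (Fin 2) κ →ₐ[κ] 𝓕).toLinearMap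
      (LinearMap.ker_eq_bot.2 hinj)
    exact h1.comp E E.injective
  · intro f
    rw [Equiv.sum_comp E (fun q : glT N => f (P q))]
    exact Finset.sum_coe_sort (glT N) (fun q => f (P q))

/-- the polynomial `α ^ 2 + α X 0 + X 1` -/
noncomputable def glF (α : κ) : MvPolynomial (Fin 2) κ := C (α ^ 2) + C α * X 0 + X 1

/-- the discriminant -/
noncomputable def glD : MvPolynomial (Fin 2) κ := X 0 ^ 2 - C 4 * X 1

/-- the derivative -/
noncomputable def glY (α : κ) : MvPolynomial (Fin 2) κ := X 0 + C (2 * α)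

theorem gl_aevalF (α : κ) (b : Fin 2 → 𝓕) : aeval b (glF α) = fq α b := by
  simp [glF, fq]
  ring

theorem gl_aevalD (b : Fin 2 → 𝓕) : aeval b (glD : MvPolynomial (Fin 2) κ) = dq b := by
  simp only [glD, dq, map_sub, map_mul, map_pow, aeval_X, aeval_C]
  rw [show (algebraMap κ 𝓕) 4 = 4 from map_ofNat _ 4]

theorem gl_aevalY (α : κ) (b : Fin 2 → 𝓕) :
    aeval b (glY α) = b 0 + 2 * algebraMap κ 𝓕 α := by
  simp only [glY, map_add, aeval_X, aeval_C, map_mul]
  rw [show (algebraMap κ 𝓕) 2 = 2 from map_ofNat _ 2]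

theorem gl_degF (α : κ) : (glF α).totalDegree ≤ 1 := by
  rw [glF]
  refine (totalDegree_add _ _).trans (max_le ((totalDegree_add _ _).trans (max_le ?_ ?_)) ?_)
  · rw [totalDegree_C]; exact Nat.zero_le _
  · refine (totalDegree_mul _ _).trans ?_
    rw [totalDegree_C, totalDegree_X]
  · rw [totalDegree_X]

theorem gl_degD : (glD : MvPolynomial (Fin 2) κ).totalDegree ≤ 2 := by
  rw [glD]
  refine (totalDegree_sub _ _).trans (max_le ?_ ?_)
  · refine (totalDegree_pow _ _).trans ?_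
    rw [totalDegree_X]
  · refine (totalDegree_mul _ _).trans ?_
    rw [totalDegree_C, totalDegree_X]
    omega

theorem gl_degY (α : κ) : (glY α).totalDegree ≤ 1 := by
  rw [glY]
  refine (totalDegree_add _ _).trans (max_le ?_ ?_)
  · rw [totalDegree_X]
  · rw [totalDegree_C]; exact Nat.zero_le _

theorem gl_neF (α : κ) : (glF α) ≠ 0 := by
  intro h
  have h1 := congrArg (eval ![0, 1 - α ^ 2]) h
  simp [glF] at h1

theorem gl_neD : (glD : MvPolynomial (Fin 2) κ) ≠ 0 := by
  intro h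
  have h1 := congrArg (eval ![1, 0]) h
  simp [glD] at h1

theorem gl_neY (α : κ) : (glY α) ≠ 0 := by
  intro h
  have h1 := congrArg (eval ![1 - 2 * α, 0]) h
  simp [glY] at h1

/-- first family -/
noncomputable def glP1 (α β : κ) (q : ℕ × ℕ) : MvPolynomial (Fin 2) κ := glF α ^ q.1 * glF β ^ q.2

/-- second family -/
noncomputable def glP2 (α : κ) (q : ℕ × ℕ) : MvPolynomial (Fin 2) κ :=
  glF α ^ q.1 * (glD ^ (q.2 / 2) * glY α ^ (q.2 % 2))

theorem gl_deg1 (α β : κ) (q : ℕ × ℕ) : (glP1 α β q).totalDegree ≤ q.1 + q.2 := by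
  rw [glP1]
  refine (totalDegree_mul _ _).trans (add_le_add ?_ ?_)
  · refine (totalDegree_pow _ _).trans ?_
    calc q.1 * (glF α).totalDegree ≤ q.1 * 1 := Nat.mul_le_mul_left _ (gl_degF α)
      _ = q.1 := mul_one _
  · refine (totalDegree_pow _ _).trans ?_
    calc q.2 * (glF β).totalDegree ≤ q.2 * 1 := Nat.mul_le_mul_left _ (gl_degF β)
      _ = q.2 := mul_one _

theorem gl_deg2 (α : κ) (q : ℕ × ℕ) : (glP2 α q).totalDegree ≤ q.1 + q.2 := by
  rw [glP2]
  refine (totalDegree_mul _ _).trans (add_le_add ?_ ?_)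
  · refine (totalDegree_pow _ _).trans ?_
    calc q.1 * (glF α).totalDegree ≤ q.1 * 1 := Nat.mul_le_mul_left _ (gl_degF α)
      _ = q.1 := mul_one _
  · refine (totalDegree_mul _ _).trans ?_
    have h1 : (glD ^ (q.2 / 2) : MvPolynomial (Fin 2) κ).totalDegree ≤ q.2 / 2 * 2 :=
      (totalDegree_pow _ _).trans (Nat.mul_le_mul_left _ gl_degD)
    have h2 : (glY α ^ (q.2 % 2)).totalDegree ≤ q.2 % 2 * 1 :=
      (totalDegree_pow _ _).trans (Nat.mul_le_mul_left _ (gl_degY α))
    omega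

theorem gl_indep1 {α β : κ} (hαβ : α ≠ β) (N : ℕ) :
    LinearIndependent κ (fun q : glT N => glP1 α β q) := by
  have hne : α - β ≠ 0 := sub_ne_zero.2 hαβ
  have hX0 : (X 0 : MvPolynomial (Fin 2) κ) = C (-(α + β)) + C ((α - β)⁻¹) * glF α +
      C (-(α - β)⁻¹) * glF β := by
    have h1 : glF α - glF β = C (α - β) * (X 0 + C (α + β)) := by
      simp only [glF, map_sub, map_add, map_pow]
      ring
    have h2 : C ((α - β)⁻¹) * (glF α - glF β) = X 0 + C (α + β) := by
      rw [h1, ← mul_assoc, ← C_mul, inv_mul_cancel₀ hne, C_1, one_mul]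
    rw [map_neg, map_neg]
    linear_combination -h2
  refine gl_indep (glP1 α β) (glF α) (glF β) (by simp [glP1]) ?_ ?_ ?_ (gl_deg1 α β) N
  · intro q
    apply Submodule.subset_span
    refine ⟨(q.1 + 1, q.2), ?_, ?_⟩
    · rw [Finset.mem_coe, glT_mem]
      simp only
      omega
    · simp only [glP1]
      ring
  · intro q
    apply Submodule.subset_span
    refine ⟨(q.1, q.2 + 1), ?_, ?_⟩
    · rw [Finset.mem_coe, glT_mem]
      simp only
      omega
    · simp only [glP1]
      ring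
  · intro i
    fin_cases i
    · exact ⟨_, _, _, hX0⟩
    · refine ⟨α * (α + β) - α ^ 2, 1 - α * (α - β)⁻¹, α * (α - β)⁻¹, ?_⟩
      have h3 : (X 1 : MvPolynomial (Fin 2) κ) = glF α - C (α ^ 2) - C α * X 0 := by
        simp only [glF]
        ring
      change (X 1 : MvPolynomial (Fin 2) κ) = _
      rw [h3]
      simp only [map_sub, map_mul, map_add, map_pow, map_one]
      rw [map_neg, map_add, map_neg] at hX0
      linear_combination (-C α) * hX0

theorem gl_indep2 (α : κ) (N : ℕ) :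
    LinearIndependent κ (fun q : glT N => glP2 α q) := by
  have hX0 : (X 0 : MvPolynomial (Fin 2) κ) = C (-(2 * α)) + C 0 * glF α + C 1 * glY α := by
    simp only [glY, map_neg, map_zero, map_one]
    ring
  refine gl_indep (glP2 α) (glF α) (glY α) (by simp [glP2]) ?_ ?_ ?_ (gl_deg2 α) N
  · intro q
    apply Submodule.subset_span
    refine ⟨(q.1 + 1, q.2), ?_, ?_⟩
    · rw [Finset.mem_coe, glT_mem]
      simp only
      omega
    · simp only [glP2]
      ring
  · intro q
    obtain ⟨i, m⟩ := q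
    simp only
    rcases Nat.even_or_odd' m with ⟨j, hj | hj⟩
    · subst hj
      apply Submodule.subset_span
      refine ⟨(i, 2 * j + 1), ?_, ?_⟩
      · rw [Finset.mem_coe, glT_mem]
        simp only
        omega
      · have e1 : (2 * j + 1) / 2 = j := by omega
        have e2 : (2 * j + 1) % 2 = 1 := by omega
        have e3 : (2 * j) / 2 = j := by omega
        have e4 : (2 * j) % 2 = 0 := by omega
        simp only [glP2, e1, e2, e3, e4]
        ring
    · subst hj
      have e1 : (2 * j + 1) / 2 = j := by omega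
      have e2 : (2 * j + 1) % 2 = 1 := by omega
      have e3 : (2 * (j + 1)) / 2 = j + 1 := by omega
      have e4 : (2 * (j + 1)) % 2 = 0 := by omega
      have e5 : (2 * j) / 2 = j := by omega
      have e6 : (2 * j) % 2 = 0 := by omega
      have hY : glY α ^ 2 = glD + C 4 * glF α := by
        simp only [glY, glD, glF, map_mul, map_pow]
        have h2 : (C 2 : MvPolynomial (Fin 2) κ) = 2 := map_ofNat C 2
        have h4 : (C 4 : MvPolynomial (Fin 2) κ) = 4 := map_ofNat C 4
        rw [h2, h4]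
        ring
      have key : glY α * glP2 α (i, 2 * j + 1) =
          glP2 α (i, 2 * (j + 1)) + (4 : κ) • glP2 α (i + 1, 2 * j) := by
        simp only [glP2, e1, e2, e3, e4, e5, e6, smul_eq_C_mul]
        linear_combination (glF α ^ i * glD ^ j) * hY
      rw [key]
      refine Submodule.add_mem _ (Submodule.subset_span ⟨(i, 2 * (j + 1)), ?_, rfl⟩)
        (Submodule.smul_mem _ _ (Submodule.subset_span ⟨(i + 1, 2 * j), ?_, rfl⟩))
      · rw [Finset.mem_coe, glT_mem]
        simp only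
        omega
      · rw [Finset.mem_coe, glT_mem]
        simp only
        omega
  · intro i
    fin_cases i
    · exact ⟨_, _, _, hX0⟩
    · refine ⟨α ^ 2, 1, -α, ?_⟩
      change (X 1 : MvPolynomial (Fin 2) κ) = _
      simp only [glF, glY, map_neg, map_one, map_pow, map_mul]
      have h2 : (C 2 : MvPolynomial (Fin 2) κ) = 2 := map_ofNat C 2
      rw [h2]
      ring

section place

variable {b : Fin 2 → 𝓕} {w : AbsoluteValue 𝓕 ℝ}

theorem gl_le (hw : CPlace κ b w) (P : MvPolynomial (Fin 2) κ) : w (aeval b P) ≤ 1 := by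
  induction P using MvPolynomial.induction_on with
  | C a =>
    rw [aeval_C]
    by_cases ha : a = 0
    · rw [ha, map_zero, map_zero]
      exact zero_le_one
    · exact (hw.triv a ha).le
  | add p q hp hq =>
    rw [map_add]
    exact (hw.nonarch _ _).trans (max_le hp hq)
  | mul_X p i hp =>
    rw [map_mul, map_mul, aeval_X]
    calc w (aeval b p) * w (b i) ≤ 1 * 1 :=
          mul_le_mul hp (hw.le i) (w.nonneg _) zero_le_one
      _ = 1 := one_mul _

theorem gl_pos (hb : ∀ P : MvPolynomial (Fin 2) κ, aeval b P = 0 → P = 0)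
    {P : MvPolynomial (Fin 2) κ} (hP : P ≠ 0) : 0 < w (aeval b P) :=
  w.pos fun h => hP (hb P h)

theorem gl_log_nonneg (hw : CPlace κ b w) (P : MvPolynomial (Fin 2) κ) :
    0 ≤ -Real.log (w (aeval b P)) := by
  have h := Real.log_nonpos (w.nonneg _) (gl_le hw P)
  linarith

/-- two different conjugate factors cannot be close to more than two points -/
theorem gl_third (hw : CPlace κ b w) {α β γ : κ} (hαβ : α ≠ β) (hαγ : α ≠ γ) (hβγ : β ≠ γ)
    (hα : w (fq α b) < 1) (hβ : w (fq β b) < 1) (hγ : w (fq γ b) < 1) : False := by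
  have hdiff : ∀ x y : κ, x ≠ y → w (fq x b) < 1 → w (fq y b) < 1 →
      w (algebraMap κ 𝓕 x + algebraMap κ 𝓕 y + b 0) < 1 := by
    intro x y hxy hx hy
    have h1 : fq x b + -fq y b =
        algebraMap κ 𝓕 (x - y) * (algebraMap κ 𝓕 x + algebraMap κ 𝓕 y + b 0) := by
      simp only [fq, map_sub]
      ring
    have h2 : w (fq x b + -fq y b) < 1 := by
      refine (hw.nonarch _ _).trans_lt (max_lt hx ?_)
      rwa [map_neg_eq_map]
    rw [h1, map_mul, hw.triv _ (sub_ne_zero.2 hxy), one_mul] at h2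
    exact h2
  have h1 := hdiff α β hαβ hα hβ
  have h2 := hdiff α γ hαγ hα hγ
  have h3 : algebraMap κ 𝓕 (β - γ) = (algebraMap κ 𝓕 α + algebraMap κ 𝓕 β + b 0) +
      -(algebraMap κ 𝓕 α + algebraMap κ 𝓕 γ + b 0) := by
    rw [map_sub]
    ring
  have h4 : w (algebraMap κ 𝓕 (β - γ)) < 1 := by
    rw [h3]
    refine (hw.nonarch _ _).trans_lt (max_lt h1 ?_)
    rwa [map_neg_eq_map]
  rw [hw.triv _ (sub_ne_zero.2 hβγ)] at h4
  exact lt_irrefl _ h4

theorem gl_dq_one (hw : CPlace κ b w) {α β : κ} (hαβ : α ≠ β)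
    (hα : w (fq α b) < 1) (hβ : w (fq β b) < 1) : w (dq b) = 1 := by
  have hle : w (dq b) ≤ 1 := by
    have h := gl_le hw (glD : MvPolynomial (Fin 2) κ)
    rwa [gl_aevalD] at h
  refine le_antisymm hle (not_lt.1 fun hlt => ?_)
  set e := algebraMap κ 𝓕 α + algebraMap κ 𝓕 β + b 0 with he
  have h1 : w e < 1 := by
    have h1 : fq α b + -fq β b = algebraMap κ 𝓕 (α - β) * e := by
      simp only [fq, map_sub, he]
      ring
    have h2 : w (fq α b + -fq β b) < 1 := by
      refine (hw.nonarch _ _).trans_lt (max_lt hα ?_)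
      rwa [map_neg_eq_map]
    rw [h1, map_mul, hw.triv _ (sub_ne_zero.2 hαβ), one_mul] at h2
    exact h2
  have hc : ∀ (c : κ) (y : 𝓕), w y < 1 → w (algebraMap κ 𝓕 c * y) < 1 := by
    intro c y hy
    rw [map_mul]
    by_cases hc : c = 0
    · rw [hc, map_zero, map_zero, zero_mul]
      exact zero_lt_one
    · rw [hw.triv c hc, one_mul]
      exact hy
  have h2 : algebraMap κ 𝓕 ((α - β) ^ 2) = dq b + (algebraMap κ 𝓕 4 * fq α b +
      (algebraMap κ 𝓕 (-(2 * (α - β))) * e + -(e * e))) := by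
    simp only [fq, dq, map_sub, map_pow, map_neg, map_mul, he]
    have h2' : (algebraMap κ 𝓕 2) = 2 := map_ofNat _ 2
    have h4 : (algebraMap κ 𝓕 4) = 4 := map_ofNat _ 4
    rw [h2', h4]
    ring
  have h3 : w (algebraMap κ 𝓕 ((α - β) ^ 2)) < 1 := by
    rw [h2]
    refine (hw.nonarch _ _).trans_lt (max_lt hlt ?_)
    refine (hw.nonarch _ _).trans_lt (max_lt (hc _ _ hα) ?_)
    refine (hw.nonarch _ _).trans_lt (max_lt (hc _ _ h1) ?_)
    rw [map_neg_eq_map, map_mul]
    calc w e * w e ≤ 1 * w e := mul_le_mul_of_nonneg_right h1.le (w.nonneg _)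
      _ = w e := one_mul _
      _ < 1 := h1
  rw [hw.triv _ (pow_ne_zero 2 (sub_ne_zero.2 hαβ))] at h3
  exact lt_irrefl _ h3

theorem gl_place (hb : ∀ P : MvPolynomial (Fin 2) κ, aeval b P = 0 → P = 0)
    (hw : CPlace κ b w) (D : Finset κ) (N : ℕ) :
    ∃ A : Fin (finrank κ (Md κ b N)) → MvPolynomial (Fin 2) κ, (∀ i, (A i).totalDegree ≤ N) ∧
      LinearIndependent κ (fun i => aeval b (A i)) ∧
      (N * (glT N).card / 3 : ℝ) * (∑ α ∈ D, -Real.log (w (fq α b)) -
        1 / 2 * Real.log (w (dq b))) - (glT N).card / 2 * (-Real.log (w (dq b))) ≤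
      ∑ i, -Real.log (w (aeval b (A i))) := by
  have hfq1 : ∀ γ : κ, w (fq γ b) ≤ 1 := fun γ => by
    have h := gl_le hw (glF γ)
    rwa [gl_aevalF] at h
  have hfq0 : ∀ γ : κ, 0 < w (fq γ b) := fun γ => by
    have h := gl_pos (w := w) hb (gl_neF γ)
    rwa [gl_aevalF] at h
  have hdq0 : 0 < w (dq b) := by
    have h := gl_pos (w := w) hb (gl_neD (κ := κ))
    rwa [gl_aevalD] at h
  have hdq1 : w (dq b) ≤ 1 := by
    have h := gl_le hw (glD : MvPolynomial (Fin 2) κ)
    rwa [gl_aevalD] at h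
  have hδ : 0 ≤ -Real.log (w (dq b)) := by
    have h := Real.log_nonpos hdq0.le hdq1
    linarith
  have hcard : (0 : ℝ) ≤ (glT N).card := Nat.cast_nonneg _
  by_cases h2 : ∃ α ∈ D, ∃ β ∈ D, α ≠ β ∧ w (fq α b) < 1 ∧ w (fq β b) < 1
  · obtain ⟨α, hαD, β, hβD, hαβ, hα, hβ⟩ := h2
    obtain ⟨A, hA1, hA2, hA3⟩ := gl_family hb N (glP1 α β) (gl_deg1 α β) (gl_indep1 hαβ N)
    refine ⟨A, hA1, hA2, ?_⟩
    rw [hA3 fun P => -Real.log (w (aeval b P))]
    have hd := gl_dq_one hw hαβ hα hβ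
    have hsum : ∑ γ ∈ D, -Real.log (w (fq γ b)) =
        -Real.log (w (fq α b)) + -Real.log (w (fq β b)) := by
      apply Finset.sum_eq_add α β hαβ
      · intro γ _ hγ
        have h1 : w (fq γ b) = 1 := by
          refine le_antisymm (hfq1 γ) (not_lt.1 fun hlt => ?_)
          exact gl_third hw hαβ (Ne.symm hγ.1) (Ne.symm hγ.2) hα hβ hlt
        rw [h1, Real.log_one, neg_zero]
      · intro h; exact absurd hαD h
      · intro h; exact absurd hβD h
    rw [hsum, hd, Real.log_one]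
    have hval : ∀ q : ℕ × ℕ, -Real.log (w (aeval b (glP1 α β q))) =
        q.1 * -Real.log (w (fq α b)) + q.2 * -Real.log (w (fq β b)) := by
      intro q
      rw [glP1, map_mul, map_pow, map_pow, gl_aevalF, gl_aevalF, map_mul, map_pow, map_pow,
        Real.log_mul (pow_ne_zero _ (hfq0 α).ne') (pow_ne_zero _ (hfq0 β).ne'), Real.log_pow,
        Real.log_pow]
      ring
    rw [Finset.sum_congr rfl fun q _ => hval q, Finset.sum_add_distrib, ← Finset.sum_mul,
      ← Finset.sum_mul, glT_fst_real, glT_snd_real]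
    apply le_of_eq
    ring
  · obtain ⟨α, hα⟩ : ∃ α : κ, ∀ γ ∈ D, γ ≠ α → w (fq γ b) = 1 := by
      by_cases h3 : ∃ α ∈ D, w (fq α b) < 1
      · obtain ⟨α, hαD, hα⟩ := h3
        refine ⟨α, fun γ hγ hne => ?_⟩
        refine le_antisymm (hfq1 γ) (not_lt.1 fun hlt => ?_)
        exact h2 ⟨γ, hγ, α, hαD, hne, hlt, hα⟩
      · refine ⟨0, fun γ hγ _ => ?_⟩
        refine le_antisymm (hfq1 γ) (not_lt.1 fun hlt => ?_)
        exact h3 ⟨γ, hγ, hlt⟩
    obtain ⟨A, hA1, hA2, hA3⟩ := gl_family hb N (glP2 α) (gl_deg2 α) (gl_indep2 α N)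
    refine ⟨A, hA1, hA2, ?_⟩
    rw [hA3 fun P => -Real.log (w (aeval b P))]
    have ha0 : 0 ≤ -Real.log (w (fq α b)) := by
      have h := Real.log_nonpos (hfq0 α).le (hfq1 α)
      linarith
    have hsum : ∑ γ ∈ D, -Real.log (w (fq γ b)) ≤ -Real.log (w (fq α b)) := by
      by_cases hαD : α ∈ D
      · rw [Finset.sum_eq_single_of_mem α hαD]
        intro γ hγ hne
        rw [hα γ hγ hne, Real.log_one, neg_zero]
      · rw [Finset.sum_eq_zero]
        · exact ha0
        · intro γ hγ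
          rw [hα γ hγ (fun h => hαD (h ▸ hγ)), Real.log_one, neg_zero]
    have hY0 : 0 < w (b 0 + 2 * algebraMap κ 𝓕 α) := by
      have h := gl_pos (w := w) hb (gl_neY α)
      rwa [gl_aevalY] at h
    have hY1 : 0 ≤ -Real.log (w (b 0 + 2 * algebraMap κ 𝓕 α)) := by
      have h := gl_log_nonneg hw (glY α)
      rwa [gl_aevalY] at h
    have hval : ∀ q : ℕ × ℕ, q.1 * -Real.log (w (fq α b)) +
        (((q.2 : ℝ) - 1) / 2) * -Real.log (w (dq b)) ≤
        -Real.log (w (aeval b (glP2 α q))) := by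
      intro q
      have e : -Real.log (w (aeval b (glP2 α q))) = q.1 * -Real.log (w (fq α b)) +
          ((q.2 / 2 : ℕ) * -Real.log (w (dq b)) +
            (q.2 % 2 : ℕ) * -Real.log (w (b 0 + 2 * algebraMap κ 𝓕 α))) := by
        have e0 : aeval b (glP2 α q) = fq α b ^ q.1 *
            (dq b ^ (q.2 / 2) * (b 0 + 2 * algebraMap κ 𝓕 α) ^ (q.2 % 2)) := by
          rw [glP2, map_mul, map_mul, map_pow, map_pow, map_pow, gl_aevalF, gl_aevalD, gl_aevalY]
        rw [e0, map_mul, map_mul, map_pow, map_pow, map_pow,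
          Real.log_mul (pow_ne_zero _ (hfq0 α).ne')
            (mul_ne_zero (pow_ne_zero _ hdq0.ne') (pow_ne_zero _ hY0.ne')),
          Real.log_mul (pow_ne_zero _ hdq0.ne') (pow_ne_zero _ hY0.ne'), Real.log_pow,
          Real.log_pow, Real.log_pow]
        ring
      rw [e]
      have h1 : ((q.2 : ℝ) - 1) / 2 ≤ ((q.2 / 2 : ℕ) : ℝ) := by
        have h : q.2 ≤ 2 * (q.2 / 2) + 1 := by omega
        have h' : (q.2 : ℝ) ≤ 2 * ((q.2 / 2 : ℕ) : ℝ) + 1 := by exact_mod_cast h
        linarith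
      have h3 := mul_le_mul_of_nonneg_right h1 hδ
      have h4 : 0 ≤ ((q.2 % 2 : ℕ) : ℝ) * -Real.log (w (b 0 + 2 * algebraMap κ 𝓕 α)) :=
        mul_nonneg (Nat.cast_nonneg _) hY1
      linarith
    refine le_trans ?_ (Finset.sum_le_sum fun q _ => hval q)
    rw [Finset.sum_add_distrib, ← Finset.sum_mul, ← Finset.sum_mul, glT_fst_real,
      ← Finset.sum_div, Finset.sum_sub_distrib, glT_snd_real, Finset.sum_const, nsmul_eq_mul,
      mul_one]
    have hc3 : (0 : ℝ) ≤ N * (glT N).card / 3 := by positivity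
    have h5 := mul_le_mul_of_nonneg_left hsum hc3
    nlinarith [h5]

end place

theorem t1_limit [IsAlgClosed κ] [CharZero κ] {b : Fin 2 → 𝓕}
    (hb : ∀ P : MvPolynomial (Fin 2) κ, aeval b P = 0 → P = 0) {Λ : Type} [Fintype Λ]
    (w : Λ → AbsoluteValue 𝓕 ℝ) (hw : ∀ l, CPlace κ b (w l)) (d : ℝ) (hd0 : 0 < d)
    (hsub : ∀ (N : ℕ) (A : Λ → Fin (finrank κ (Md κ b N)) → MvPolynomial (Fin 2) κ),
      (∀ l i, (A l i).totalDegree ≤ N) → (∀ l, LinearIndependent κ (fun i => aeval b (A l i))) →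
      ∑ l, ∑ i, -Real.log (w l (aeval b (A l i))) ≤ d * N * finrank κ (Md κ b N))
    (D : Finset κ) :
    ∑ l, (∑ α ∈ D, -Real.log (w l (fq α b)) - 1 / 2 * Real.log (w l (dq b))) ≤ 3 * d := by
  set S := ∑ l, (∑ α ∈ D, -Real.log (w l (fq α b)) - 1 / 2 * Real.log (w l (dq b))) with hS
  set Δ := ∑ l, -Real.log (w l (dq b)) with hΔ
  have key : ∀ N : ℕ, 0 < N → S ≤ 3 * d + 3 / (2 * N) * Δ := by
    intro N hN
    choose A hA1 hA2 hA3 using fun l => gl_place hb (hw l) D N
    have h1 := hsub N A hA1 hA2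
    have h2 := Finset.sum_le_sum fun l (_ : l ∈ Finset.univ) => hA3 l
    rw [Finset.sum_sub_distrib, ← Finset.mul_sum, ← Finset.mul_sum, ← hS, ← hΔ] at h2
    have hrank : finrank κ (Md κ b N) = (glT N).card := by
      have hinj : Function.Injective (aeval b : MvPolynomial (Fin 2) κ →ₐ[κ] 𝓕) :=
        (injective_iff_map_eq_zero _).2 hb
      have h0 : finrank κ (restrictTotalDegree (Fin 2) κ N) = finrank κ (Md κ b N) :=
        LinearEquiv.finrank_eq (Submodule.equivMapOfInjective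
          (aeval b : MvPolynomial (Fin 2) κ →ₐ[κ] 𝓕).toLinearMap hinj _)
      have h1 := finrank_rtd (κ := κ) N
      have h2 := glT_card N
      omega
    have hrank' : ((finrank κ (Md κ b N) : ℕ) : ℝ) = (glT N).card := by exact_mod_cast hrank
    rw [hrank'] at h1
    have hc : (0 : ℝ) < (glT N).card := by
      have h := glT_card N
      have h' : 0 < (glT N).card := by
        by_contra hneg
        have h0 : (glT N).card = 0 := by omega
        rw [h0] at h
        have : 0 < (N + 1) * (N + 2) := by positivity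
        omega
      exact_mod_cast h'
    have hNR : (0 : ℝ) < N := by exact_mod_cast hN
    have h3 := h2.trans h1
    have h4 : (N * (glT N).card / 3 : ℝ) * S ≤
        (N * (glT N).card / 3 : ℝ) * (3 * d + 3 / (2 * N) * Δ) := by
      have e : (N * (glT N).card / 3 : ℝ) * (3 * d + 3 / (2 * N) * Δ) =
          d * N * (glT N).card + (glT N).card / 2 * Δ := by
        field_simp
      rw [e]
      linarith
    exact le_of_mul_le_mul_left h4 (by positivity)
  by_contra hneg
  have hlt : 3 * d < S := not_le.1 hneg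
  obtain ⟨n, hn⟩ := exists_nat_gt (3 * |Δ| / (S - 3 * d))
  have hpos : 0 < S - 3 * d := by linarith
  have hn0 : 0 < n := by
    have h : (0 : ℝ) < n := lt_of_le_of_lt (by positivity) hn
    exact_mod_cast h
  have h1 := key n hn0
  have hnR : (0 : ℝ) < n := by exact_mod_cast hn0
  rw [div_lt_iff₀ hpos] at hn
  have h2 : 3 / (2 * (n : ℝ)) * Δ ≤ 3 / (2 * n) * |Δ| :=
    mul_le_mul_of_nonneg_left (le_abs_self Δ) (by positivity)
  have h3 : 3 / (2 * (n : ℝ)) * |Δ| < S - 3 * d := by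
    have e : 3 / (2 * (n : ℝ)) * |Δ| = (3 * |Δ|) / (2 * n) := by ring
    rw [e, div_lt_iff₀ (by positivity)]
    have : (n : ℝ) * (S - 3 * d) ≤ (S - 3 * d) * (2 * n) := by nlinarith
    linarith
  linarith

end

end Pool.Agent.SST
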