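import Pool.Agent.SST.SpecDefs
import Mathlib.NumberTheory.Padics.Complex

/-! Definitions for the inequality with several places. -/

open MvPolynomial

namespace Pool.Agent.SST

/-- exponents of the monomials of degree `N` in three variables -/
abbrev Idx (N : ℕ) : Type := {μ : Fin 3 → Fin (N + 1) // ∑ i, (μ i : ℕ) = N}

/-- the monomials of degree `N` of an integer vector -/
def vero (N : ℕ) (f : Fin 3 → ℤ) (μ : Idx N) : ℤ := ∏ i, f i ^ (μ.1 i : ℕ)

section

variable {K : Type} [Field K]

/-- a linear form -/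
noncomputable def linp (X : Fin 3 → K) : MvPolynomial (Fin 3) K := ∑ i, C (X i) * MvPolynomial.X i

/-- value of a linear form -/
def lval (X : Fin 3 → K) (f : Fin 3 → ℤ) : K := ∑ i, X i * (f i : K)

/-- the adapted basis of the forms of degree `N` -/
noncomputable def rowPoly (X Y Z : Fin 3 → K) (c : K) (N : ℕ) (μ : Idx N) :
    MvPolynomial (Fin 3) K :=
  linp X ^ (μ.1 0 : ℕ) * linp Z ^ (μ.1 2 : ℕ) *
    (linp Y ^ 2 - C c * linp X * linp Z) ^ ((μ.1 1 : ℕ) / 2) * linp Y ^ ((μ.1 1 : ℕ) % 2)

/-- its matrix of coefficients -/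
noncomputable def veroMat (X Y Z : Fin 3 → K) (c : K) (N : ℕ) : Matrix (Idx N) (Idx N) K :=
  Matrix.of fun μ ν => (rowPoly X Y Z c N μ).coeff (Finsupp.equivFunOnFinite.symm
    fun i => (ν.1 i : ℕ))

/-- value of a form at a point of the projective line over `K` -/
def evK (f : Fin 3 → ℤ) (α : OnePoint K) : K :=
  match α with
  | OnePoint.infty => (f 0 : K)
  | OnePoint.some z => (f 0 : K) * z ^ 2 + (f 1 : K) * z + (f 2 : K)

/-- coefficients of `f ↦ evK f α` -/
def evR (α : OnePoint K) : Fin 3 → K :=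
  match α with
  | OnePoint.infty => ![1, 0, 0]
  | OnePoint.some z => ![z ^ 2, z, 1]

/-- coefficients of the derivative at `α` -/
def dR (α : OnePoint K) : Fin 3 → K :=
  match α with
  | OnePoint.infty => ![0, 1, 0]
  | OnePoint.some z => ![2 * z, 1, 0]

/-- coefficients of the third form at `α` -/
def wR (α : OnePoint K) : Fin 3 → K :=
  match α with
  | OnePoint.infty => ![0, 0, 1]
  | OnePoint.some _ => ![1, 0, 0]

/-- the three bases -/
noncomputable def vmat (α β : OnePoint K) (N : ℕ) (τ : Fin 3) : Matrix (Idx N) (Idx N) K :=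
  match τ with
  | 0 => veroMat (evR α) (dR α) (evR β) 0 N
  | 1 => veroMat (evR α) (dR α) (wR α) 4 N
  | 2 => veroMat (evR β) (dR β) (wR β) 4 N

/-- algebraic points of the projective line over `K` -/
def AlgPtK [CharZero K] (α : OnePoint K) : Prop := ∀ z : K, α = (z : OnePoint K) → IsAlgebraic ℚ z

end

/-- size of a form in a normed field -/
noncomputable def nf (K : Type) [NormedField K] (f : Fin 3 → ℤ) : ℝ :=
  max ‖(f 0 : K)‖ (max ‖(f 1 : K)‖ ‖(f 2 : K)‖)

end Pool.Agent.SST
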