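import Pool.Agent.SST.CurveDefs
import Pool.Agent.SST.VeroDefs

/-! Limits of absolute values along sequences of points, definitions. -/

open MvPolynomial Filter Module
open scoped Topology

namespace Pool.Agent.SST

section Seq

variable {κ : Type} [Field κ]

/-- `w` is the limit of the absolute value `v` along the sequence of points `bs`. -/
def LimRel {𝓕 : Type} [Field 𝓕] [Algebra κ 𝓕] (U : Ultrafilter ℕ) (h : ℕ → ℝ)
    (bs : ℕ → Fin 2 → κ) (b : Fin 2 → 𝓕) (v : AbsoluteValue κ ℝ) (w : AbsoluteValue 𝓕 ℝ) : Prop :=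
  ∀ P : MvPolynomial (Fin 2) κ, aeval b P ≠ 0 →
    Tendsto (fun n => Real.log (v (aeval (bs n) P)) / h n) U (𝓝 (Real.log (w (aeval b P))))

end Seq

/-- the algebraic numbers -/
abbrev Qb : Type := AlgebraicClosure ℚ

/-- the absolute value of a place -/
noncomputable def placeAbs {A : Type} [NormedField A] (ι : Qb →+* A) : AbsoluteValue Qb ℝ :=
  (NormedField.toAbsoluteValue A).comp ι.injective

/-- the absolute values of the places `∞, p t` of the rational numbers, extended to the algebraic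
numbers -/
noncomputable def placesQ {T : Type} (p : T → ℕ) [∀ t, Fact (p t).Prime] (ι : Qb →+* ℂ)
    (ι' : ∀ t, Qb →+* ℂ_[p t]) : Option T → AbsoluteValue Qb ℝ
  | none => placeAbs ι
  | some t => placeAbs (ι' t)

/-- the coordinates `(f 1 / f 0, f 2 / f 0)` -/
noncomputable def bsq (f : Fin 3 → ℤ) : Fin 2 → Qb :=
  ![(f 1 : Qb) / (f 0 : Qb), (f 2 : Qb) / (f 0 : Qb)]

/-- a sequence of integer vectors of size `exp (h n)`, with leading coefficients of maximal size
up to `exp (o (h n))` at all places -/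
structure SeqData {T : Type} (p : T → ℕ) [∀ t, Fact (p t).Prime] (U : Ultrafilter ℕ) (h : ℕ → ℝ)
    (f : ℕ → Fin 3 → ℤ) : Prop where
  tend : Tendsto h U atTop
  ne : ∀ n, f n 0 ≠ 0
  le : ∀ n i, |((f n i : ℤ) : ℝ)| ≤ Real.exp (h n)
  lim0 : Tendsto (fun n => Real.log |((f n 0 : ℤ) : ℝ)| / h n) U (𝓝 1)
  limt : ∀ t, Tendsto (fun n => Real.log ‖((f n 0 : ℤ) : ℚ_[p t])‖ / h n) U (𝓝 0)

end Pool.Agent.SST
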