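import Pool.Agent.SST.ProxFinalS
import Pool.Agent.SST.SeqDefs

/-! The inequality for forms outside a finite union of curves, for every finite set of places. -/

open MvPolynomial

namespace Pool.Agent.SST

open scoped BigOperators

lemma evK_map {A : Type} [Field A] (ι : Qb →+* A) (f : Fin 3 → ℤ) (γ : OnePoint Qb) :
    evK f (OnePoint.map ι γ) = ι (evK f γ) := by
  rcases γ with _ | z
  · change ((f 0 : ℤ) : A) = ι ((f 0 : ℤ) : Qb)
    rw [map_intCast]
  · change (f 0 : A) * (ι z) ^ 2 + (f 1 : A) * (ι z) + (f 2 : A) =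
      ι ((f 0 : Qb) * z ^ 2 + (f 1 : Qb) * z + (f 2 : Qb))
    simp only [map_add, map_mul, map_pow, map_intCast]

lemma evK_map_ne {A : Type} [Field A] (ι : Qb →+* A) {f : Fin 3 → ℤ} {γ : OnePoint Qb}
    (h : evK f γ ≠ 0) : evK f (OnePoint.map ι γ) ≠ 0 := by
  rw [evK_map]
  exact (map_ne_zero ι).mpr h

section Local

variable {A : Type} [NormedField A] [CharZero A]

/-- local part of the argument, for forms -/
lemma local_form (ι : Qb →+* A) (D D' : Finset (OnePoint Qb)) (hsub : D ⊆ D')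
    (h0D : ((0 : Qb) : OnePoint Qb) ∈ D') (hiD : (OnePoint.infty : OnePoint Qb) ∈ D')
    (hD' : ∀ γ ∈ D', γ = ((0 : Qb) : OnePoint Qb) ∨ γ = OnePoint.infty ∨ γ ∈ D) :
    ∃ C : ℝ, ∀ f : Fin 3 → ℤ, f 0 ≠ 0 → f 2 ≠ 0 → (∀ γ ∈ D, evK f γ ≠ 0) →
      ∃ α ∈ D', ∃ β ∈ D', α ≠ β ∧ evK f (OnePoint.map ι α) ≠ 0 ∧
        evK f (OnePoint.map ι β) ≠ 0 ∧
        ∑ γ ∈ D, (Real.log (nf A f) - Real.log ‖evK f (OnePoint.map ι γ)‖) ≤
          C + (2 * Real.log (nf A f) - Real.log ‖evK f (OnePoint.map ι α)‖ -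
            Real.log ‖evK f (OnePoint.map ι β)‖) := by
  classical
  obtain ⟨C₁, hC₁⟩ := best_twoA (A := A) D' (OnePoint.map ι) (map_injective ι) _ _ h0D hiD
    (OnePoint.coe_ne_infty _)
  refine ⟨C₁, ?_⟩
  intro f h00 hf2 hev
  have h00' : (f 0 : A) ≠ 0 := by exact_mod_cast h00
  have hev0 : evK f ((0 : A) : OnePoint A) = (f 2 : A) := by
    change (f 0 : A) * (0 : A) ^ 2 + (f 1 : A) * (0 : A) + (f 2 : A) = _
    ring
  have hmap0 : OnePoint.map ι ((0 : Qb) : OnePoint Qb) = ((0 : A) : OnePoint A) := by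
    rw [OnePoint.map_some, map_zero]
  have hev' : ∀ γ ∈ D', evK f (OnePoint.map ι γ) ≠ 0 := by
    intro γ hγ
    rcases hD' γ hγ with h1 | h1 | h1
    · rw [h1, hmap0, hev0]
      exact_mod_cast hf2
    · rw [h1]
      exact h00'
    · exact evK_map_ne ι (hev γ h1)
  have hnf : 0 < nf A f := (norm_pos_iff.mpr h00').trans_le (norm_le_nf f 0)
  obtain ⟨α, hα, β, hβ, hαβ, hbest⟩ := hC₁ f hnf hev'
  refine ⟨α, hα, β, hβ, hαβ, hev' α hα, hev' β hβ, ?_⟩
  have hDD' : ∑ γ ∈ D, (Real.log (nf A f) - Real.log ‖evK f (OnePoint.map ι γ)‖) ≤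
      ∑ γ ∈ D', (Real.log (nf A f) - Real.log ‖evK f (OnePoint.map ι γ)‖) := by
    refine Finset.sum_le_sum_of_subset_of_nonneg hsub ?_
    intro γ hγ hγD
    rw [sub_nonneg]
    rcases hD' γ hγ with h1 | h1 | h1
    · refine Real.log_le_log (norm_pos_iff.mpr (hev' _ hγ)) ?_
      rw [h1, hmap0, hev0]
      exact norm_le_nf f 2
    · refine Real.log_le_log (norm_pos_iff.mpr (hev' _ hγ)) ?_
      rw [h1]
      exact norm_le_nf f 0
    · exact absurd h1 hγD
  linarith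

end Local

section Q

variable {T : Type} [Fintype T] [DecidableEq T] (p : T → ℕ) [∀ t, Fact (p t).Prime]

theorem generic_form (hp : Function.Injective p) (ι : Qb →+* ℂ) (ι' : ∀ t, Qb →+* ℂ_[p t])
    (D : Finset (OnePoint Qb)) (ε : ℝ) (hε : 0 < ε) :
    ∃ (C : ℝ) (G : MvPolynomial (Fin 3) ℤ) (n : ℕ), G ≠ 0 ∧ G.IsHomogeneous n ∧
      ∀ f : Fin 3 → ℤ, discq f ≠ 0 → f 0 ≠ 0 → f 2 ≠ 0 → (∀ γ ∈ D, evK f γ ≠ 0) →
      eval f G ≠ 0 →
        ∑ γ ∈ D, (Real.log (maxq f) - Real.log ‖evK f (OnePoint.map ι γ)‖) +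
        ∑ t, ∑ γ ∈ D, (Real.log (nf ℂ_[p t] f) - Real.log ‖evK f (OnePoint.map (ι' t) γ)‖) +
        (2 * Real.log (maxq f) - Real.log |((discq f : ℤ) : ℝ)| -
          ∑ t, Real.log ‖((discq f : ℤ) : ℂ_[p t])‖) / 2 ≤ (3 + ε) * Real.log (maxq f) + C := by
  classical
  set D' : Finset (OnePoint Qb) := insert ((0 : Qb) : OnePoint Qb) (insert OnePoint.infty D)
    with hD'
  have h0D : ((0 : Qb) : OnePoint Qb) ∈ D' := by simp [hD']
  have hiD : (OnePoint.infty : OnePoint Qb) ∈ D' := by simp [hD']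
  have hsub : D ⊆ D' := fun a ha => by simp [hD', ha]
  have hDD : ∀ γ ∈ D', γ = ((0 : Qb) : OnePoint Qb) ∨ γ = OnePoint.infty ∨ γ ∈ D :=
    fun γ hγ => by simpa [hD'] using hγ
  -- the main inequality for all choices of pairs of points
  have hmain : ∀ w : Option T → OnePoint Qb × OnePoint Qb,
      ∃ (N : ℕ) (c : ℝ) (F : Finset (Idx N → ℤ)), 0 < c ∧ 0 ∉ F ∧
      ((∀ v, (w v).1 ≠ (w v).2) → ∀ f : Fin 3 → ℤ, discq f ≠ 0 →
      evK f (OnePoint.map ι (w none).1) ≠ 0 → evK f (OnePoint.map ι (w none).2) ≠ 0 →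
      (∀ t, evK f (OnePoint.map (ι' t) (w (some t)).1) ≠ 0) →
      (∀ t, evK f (OnePoint.map (ι' t) (w (some t)).2) ≠ 0) →
      (∀ b ∈ F, ∑ μ, b μ * vero N f μ ≠ 0) →
      c * maxq f ^ (-ε) ≤
        (‖evK f (OnePoint.map ι (w none).1)‖ * ‖evK f (OnePoint.map ι (w none).2)‖ *
          Real.sqrt ‖((discq f : ℤ) : ℂ)‖) *
        ∏ t, (‖evK f (OnePoint.map (ι' t) (w (some t)).1)‖ *
          ‖evK f (OnePoint.map (ι' t) (w (some t)).2)‖ *
          Real.sqrt ‖((discq f : ℤ) : ℂ_[p t])‖)) := by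
    intro w
    by_cases hw : ∀ v, (w v).1 ≠ (w v).2
    · obtain ⟨N, c, F, hc, hF, h⟩ := two_points_S p hp _ _ (algPtK_map ι (w none).1)
        (algPtK_map ι (w none).2) ((map_injective ι).ne (hw none))
        (fun t => OnePoint.map (ι' t) (w (some t)).1) (fun t => OnePoint.map (ι' t) (w (some t)).2)
        (fun t => algPtK_map _ _) (fun t => algPtK_map _ _)
        (fun t => (map_injective (ι' t)).ne (hw (some t))) ε hε
      exact ⟨N, c, F, hc, hF, fun _ => h⟩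
    · exact ⟨0, 1, ∅, one_pos, by simp, fun h => absurd h hw⟩
  choose Nw cw Fw hcw hFw hw using hmain
  set W : Finset (Option T → OnePoint Qb × OnePoint Qb) :=
    Fintype.piFinset fun _ => D' ×ˢ D' with hWdef
  set G : MvPolynomial (Fin 3) ℤ := ∏ w ∈ W, ∏ b ∈ Fw w, polyOf (Nw w) b with hG
  obtain ⟨C₀, hC₀⟩ := local_form (A := ℂ) ι D D' hsub h0D hiD hDD
  have hloc : ∀ t, _ := fun t => local_form (A := ℂ_[p t]) (ι' t) D D' hsub h0D hiD hDD
  choose Ct hCt using hloc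
  set Cw : ℝ := ∑ w ∈ W, |Real.log (cw w)| with hCw
  refine ⟨C₀ + ∑ t, Ct t + Cw, G, ∑ w ∈ W, ∑ b ∈ Fw w, Nw w, ?_, ?_, ?_⟩
  · rw [hG, Finset.prod_ne_zero_iff]
    intro w _
    rw [Finset.prod_ne_zero_iff]
    intro b hb
    exact polyOf_ne_zero _ _ fun h0 => hFw w (h0 ▸ hb)
  · rw [hG]
    refine MvPolynomial.IsHomogeneous.prod _ _ _ fun w _ => ?_
    exact MvPolynomial.IsHomogeneous.prod _ _ _ fun b _ => polyOf_hom _ _
  · intro f hdisc h00 hf2 hev hGf
    obtain ⟨α, hα, β, hβ, hαβ, hevα, hevβ, hinf⟩ := hC₀ f h00 hf2 hev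
    have hpl := fun t => hCt t f h00 hf2 hev
    choose α' hα' β' hβ' hαβ' hevα' hevβ' hfin using hpl
    set w : Option T → OnePoint Qb × OnePoint Qb :=
      fun v => v.elim (α, β) fun t => (α' t, β' t) with hwdef
    have hwW : w ∈ W := by
      rw [hWdef, Fintype.mem_piFinset]
      intro v
      cases v with
      | none => exact Finset.mk_mem_product hα hβ
      | some t => exact Finset.mk_mem_product (hα' t) (hβ' t)
    have hwne : ∀ v, (w v).1 ≠ (w v).2 := by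
      intro v
      cases v with
      | none => exact hαβ
      | some t => exact hαβ' t
    have hmax1 : 1 ≤ maxq f := one_le_maxq hdisc
    have hmax0 : 0 < maxq f := by linarith
    have hineq := hw w hwne f hdisc hevα hevβ hevα' hevβ' (by
      intro b hb h0
      apply hGf
      rw [hG, map_prod, Finset.prod_eq_zero hwW]
      rw [map_prod, Finset.prod_eq_zero hb]
      rw [polyOf_eval, h0])
    have hdR : (0 : ℝ) < ‖((discq f : ℤ) : ℂ)‖ := norm_pos_iff.mpr (by exact_mod_cast hdisc)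
    have hdp : ∀ t, (0 : ℝ) < ‖((discq f : ℤ) : ℂ_[p t])‖ :=
      fun t => norm_pos_iff.mpr (by exact_mod_cast hdisc)
    have e1 : ‖evK f (OnePoint.map ι (w none).1)‖ ≠ 0 := norm_ne_zero_iff.mpr hevα
    have e2 : ‖evK f (OnePoint.map ι (w none).2)‖ ≠ 0 := norm_ne_zero_iff.mpr hevβ
    have e3 : ∀ t, ‖evK f (OnePoint.map (ι' t) (w (some t)).1)‖ ≠ 0 :=
      fun t => norm_ne_zero_iff.mpr (hevα' t)
    have e4 : ∀ t, ‖evK f (OnePoint.map (ι' t) (w (some t)).2)‖ ≠ 0 :=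
      fun t => norm_ne_zero_iff.mpr (hevβ' t)
    have hlog := Real.log_le_log (mul_pos (hcw w) (Real.rpow_pos_of_pos hmax0 _)) hineq
    rw [Real.log_mul (hcw w).ne' (Real.rpow_pos_of_pos hmax0 _).ne', Real.log_rpow hmax0,
      Real.log_mul (mul_ne_zero (mul_ne_zero e1 e2) (Real.sqrt_pos.mpr hdR).ne')
        (Finset.prod_ne_zero_iff.mpr fun t _ => mul_ne_zero (mul_ne_zero (e3 t) (e4 t))
          (Real.sqrt_pos.mpr (hdp t)).ne'),
      Real.log_mul (mul_ne_zero e1 e2) (Real.sqrt_pos.mpr hdR).ne', Real.log_mul e1 e2,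
      Real.log_sqrt hdR.le, Real.log_prod (fun t _ => mul_ne_zero (mul_ne_zero (e3 t) (e4 t))
          (Real.sqrt_pos.mpr (hdp t)).ne')] at hlog
    have hsum : ∀ t, Real.log (‖evK f (OnePoint.map (ι' t) (w (some t)).1)‖ *
          ‖evK f (OnePoint.map (ι' t) (w (some t)).2)‖ *
          Real.sqrt ‖((discq f : ℤ) : ℂ_[p t])‖) =
        Real.log ‖evK f (OnePoint.map (ι' t) (α' t))‖ +
          Real.log ‖evK f (OnePoint.map (ι' t) (β' t))‖ +
          Real.log ‖((discq f : ℤ) : ℂ_[p t])‖ / 2 := by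
      intro t
      rw [Real.log_mul (mul_ne_zero (e3 t) (e4 t)) (Real.sqrt_pos.mpr (hdp t)).ne',
        Real.log_mul (e3 t) (e4 t), Real.log_sqrt (hdp t).le]
      rfl
    rw [Finset.sum_congr rfl fun t _ => hsum t, Finset.sum_add_distrib, Finset.sum_add_distrib,
      ← Finset.sum_div] at hlog
    have hcle : -Real.log (cw w) ≤ Cw := (neg_le_abs _).trans
      (Finset.single_le_sum (f := fun w => |Real.log (cw w)|) (fun _ _ => abs_nonneg _) hwW)
    have hnf : ∀ t, Real.log (nf ℂ_[p t] f) ≤ 0 := fun t =>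
      Real.log_nonpos (nf_nonneg f) (nf_padic_leQ (p t) f)
    have hfin' : ∑ t, ∑ γ ∈ D, (Real.log (nf ℂ_[p t] f) -
          Real.log ‖evK f (OnePoint.map (ι' t) γ)‖) ≤
        ∑ t, (Ct t - Real.log ‖evK f (OnePoint.map (ι' t) (α' t))‖ -
          Real.log ‖evK f (OnePoint.map (ι' t) (β' t))‖) := by
      refine Finset.sum_le_sum fun t _ => ?_
      have h1 := hfin t
      have h2 := hnf t
      linarith
    rw [Finset.sum_sub_distrib, Finset.sum_sub_distrib] at hfin'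
    rw [nf_complexQ] at hinf
    have hdR' : |((discq f : ℤ) : ℝ)| = ‖((discq f : ℤ) : ℂ)‖ := (Complex.norm_intCast _).symm
    rw [hdR']
    change Real.log (cw w) + -ε * Real.log (maxq f) ≤
      Real.log ‖evK f (OnePoint.map ι α)‖ + Real.log ‖evK f (OnePoint.map ι β)‖ + _ + _ at hlog
    linarith

end Q

end Pool.Agent.SST
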