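import Pool.Agent.SST.ProxMain

/-!
# The height inequality for quadratic points outside finitely many lines

Set of places `{∞}` of the rational numbers; the points `x` of degree two on the projective line
correspond to the points `(a : b : c)` of the plane (coefficients of the minimal polynomial).
-/

open Pool.Agent.SST

namespace Pool.Agent.Results.MP_6f1c57_nt.GenericQuadratic

theorem result (D : Finset (OnePoint ℂ))
    (hD : ∀ α ∈ D, ∀ z : ℂ, α = (z : OnePoint ℂ) → IsAlgebraic ℚ z) (ε : ℝ) (hε : 0 < ε) :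
    ∃ (C : ℝ) (𝓛 : Finset (Fin 3 → ℤ)), 0 ∉ 𝓛 ∧
      ∀ (K : Type) [Field K] [NumberField K], Module.finrank ℚ K = 2 → ∀ x : K,
      x ∉ Set.range (algebraMap ℚ K) → (∀ σ : K →+* ℂ, ((σ x : ℂ) : OnePoint ℂ) ∉ D) →
      ∀ a b c : ℤ, (∀ d : ℤ, d ∣ a → d ∣ b → d ∣ c → IsUnit d) →
        (a : K) * x ^ 2 + (b : K) * x + (c : K) = 0 →
        (∀ l ∈ 𝓛, l 0 * a + l 1 * b + l 2 * c ≠ 0) →
        ∃ F : ℕ, 0 < F ∧ b ^ 2 - 4 * a * c = (F : ℤ) ^ 2 * NumberField.discr K ∧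
          prox D K x - 2 * ht K x ≤ (logDisc K + Real.log F) / 2 + ε * ht K x + C := by
  classical
  have halg0 : AlgPt ((0 : ℂ) : OnePoint ℂ) := by
    intro z hz
    rw [← OnePoint.coe_injective hz]
    exact isAlgebraic_zero
  have halgi : AlgPt (OnePoint.infty : OnePoint ℂ) :=
    fun z hz => absurd hz (OnePoint.infty_ne_coe z)
  set D' := insert ((0 : ℂ) : OnePoint ℂ) (insert OnePoint.infty D) with hD'
  have halg : ∀ α ∈ D', AlgPt α := by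
    intro α hα
    rw [hD', Finset.mem_insert, Finset.mem_insert] at hα
    rcases hα with h | h | h
    · rw [h]; exact halg0
    · rw [h]; exact halgi
    · exact hD α h
  have hpair : ∀ p : OnePoint ℂ × OnePoint ℂ, ∃ (c : ℝ) (F : Finset (Fin 3 → ℤ)), 0 < c ∧ 0 ∉ F ∧
      (p.1 ∈ D' → p.2 ∈ D' → p.1 ≠ p.2 → ∀ f : Fin 3 → ℤ, discq f ≠ 0 →
      evq f p.1 ≠ 0 → evq f p.2 ≠ 0 → (∀ b ∈ F, ∑ i, b i * f i ≠ 0) →
      c * maxq f ^ (-ε) ≤ ‖evq f p.1‖ * ‖evq f p.2‖ * Real.sqrt |(discq f : ℝ)|) := by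
    rintro ⟨α, β⟩
    by_cases h : α ∈ D' ∧ β ∈ D' ∧ α ≠ β
    · obtain ⟨c, F, hc, hF, h1⟩ := two_points_generic α β (halg α h.1) (halg β h.2.1) h.2.2 ε hε
      exact ⟨c, F, hc, hF, fun _ _ _ => h1⟩
    · exact ⟨1, ∅, one_pos, by simp, fun h1 h2 h3 => absurd ⟨h1, h2, h3⟩ h⟩
  choose cp Fp hcp hFp hp using hpair
  set 𝓛 : Finset (Fin 3 → ℤ) := (D' ×ˢ D').biUnion Fp with h𝓛
  obtain ⟨C, hC⟩ := prox_of_pairs D D'
    (fun a ha => by simp [hD', ha]) (by simp [hD']) (by simp [hD'])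
    (fun γ hγ => by simpa [hD'] using hγ) ε hε
    (fun f => ∀ b ∈ 𝓛, ∑ i, b i * f i ≠ 0) (fun f => Real.sqrt |(discq f : ℝ)|)
    (fun f hf => Real.sqrt_pos.mpr (abs_pos.mpr (by exact_mod_cast hf)))
    (fun α hα β hβ hne => ⟨cp (α, β), hcp (α, β), fun f hPr h1 h2 h3 =>
      hp (α, β) hα hβ hne f h1 h2 h3 fun b hb => hPr b (by
        rw [h𝓛, Finset.mem_biUnion]
        exact ⟨(α, β), Finset.mk_mem_product hα hβ, hb⟩)⟩)
  refine ⟨C, 𝓛, ?_, fun K _ _ hK x hx hσ a b c hgcd hf hgen => ?_⟩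
  · rw [h𝓛, Finset.mem_biUnion]
    rintro ⟨p, _, h⟩
    exact hFp p h
  have hf' : ((![a, b, c] : Fin 3 → ℤ) 0 : K) * x ^ 2 + ((![a, b, c] : Fin 3 → ℤ) 1 : K) * x +
      ((![a, b, c] : Fin 3 → ℤ) 2 : K) = 0 := hf
  have hgcd' : ∀ d : ℤ, (∀ i, d ∣ (![a, b, c] : Fin 3 → ℤ) i) → IsUnit d :=
    fun d hd => hgcd d (hd 0) (hd 1) (hd 2)
  obtain ⟨F, hF, hdisc⟩ := exists_cond K hK x hx ![a, b, c] hf' hgcd'
  refine ⟨F, hF, hdisc, ?_⟩
  have h1 := hC K hK x hx hσ ![a, b, c] hf' hgcd' (fun l hl => by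
    have := hgen l hl
    rw [Fin.sum_univ_three]
    exact this)
  have hF' : (F : ℝ) ≠ 0 := by positivity
  have hd : ((NumberField.discr K : ℤ) : ℝ) ≠ 0 := by
    exact_mod_cast NumberField.discr_ne_zero K
  have h2 : Real.log (Real.sqrt |((discq ![a, b, c] : ℤ) : ℝ)|) / 2 =
      (logDisc K + Real.log F) / 2 := by
    rw [Real.log_sqrt (abs_nonneg _), hdisc, logDisc, hK]
    push_cast
    rw [abs_mul, abs_pow, Real.log_mul (pow_ne_zero 2 (abs_ne_zero.mpr hF')) (abs_ne_zero.mpr hd),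
      Real.log_pow, Real.log_abs]
    push_cast
    ring
  rw [h2] at h1
  linarith

end Pool.Agent.Results.MP_6f1c57_nt.GenericQuadratic
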