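import Mathlib

/-!
# The integer inequality behind the geometric inequality
-/

namespace Pool.Agent.SST

theorem geo_num (δ h d e o : ℕ) (hδ : 0 < δ) (hh : 0 < h) (hh2 : 2 * h ≤ δ) (hd : d ≤ 2 * δ)
    (he0 : 0 < e) (he : e ≤ δ) (ho0 : 0 < o) (ho : o ≤ δ)
    (hB : (2 * (h : ℤ) - 1) * d + (2 * e * o - e - o) ≤ (2 * δ - 2) * δ) :
    2 * h + d + e + o ≤ 4 * δ := by
  by_contra hcon
  push Not at hcon
  zify at *
  obtain ⟨s, hs⟩ : ∃ s : ℤ, s = 2 * δ - (e + o) := ⟨_, rfl⟩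
  obtain ⟨y, hy⟩ : ∃ y : ℤ, y = 2 * h - 1 := ⟨_, rfl⟩
  have h1 : 0 ≤ ((δ : ℤ) - e) * (δ - o) := mul_nonneg (by linarith) (by linarith)
  have hy1 : 1 ≤ y := by linarith
  have hs0 : 0 ≤ s := by linarith
  have hDy : 2 * (δ : ℤ) + s - y ≤ d := by linarith
  have hys : s ≤ y := by linarith
  have h2 : 1 ≤ 2 * (δ : ℤ) - y := by linarith
  have h3 : y * (2 * (δ : ℤ) + s - y) ≤ y * d := mul_le_mul_of_nonneg_left hDy (by linarith)
  rw [← hy] at hB
  have h4 : 0 < (y - s) * (2 * (δ : ℤ) - y) + s := by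
    rcases hs0.lt_or_eq with h | h
    · have : 0 ≤ (y - s) * (2 * (δ : ℤ) - y) := mul_nonneg (by linarith) (by linarith)
      linarith
    · rw [← h]
      have : 0 < (y - 0) * (2 * (δ : ℤ) - y) := mul_pos (by linarith) (by linarith)
      linarith
  have h5 : (e : ℤ) + o = 2 * δ - s := by linarith
  have h6 : (δ : ℤ) * (e + o) = δ * (2 * δ - s) := by rw [h5]
  have h7 : y * (2 * (δ : ℤ) + s - y) = (y - s) * (2 * (δ : ℤ) - y) + 2 * δ * s := by ring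
  rw [h7] at h3
  have h8 : ((δ : ℤ) - e) * (δ - o) = δ * δ - δ * (e + o) + e * o := by ring
  rw [h8, h6] at h1
  have h9 : (δ : ℤ) * (2 * δ - s) = 2 * (δ * δ) - δ * s := by ring
  rw [h9] at h1
  have h10 : (2 * (δ : ℤ) - 2) * δ = 2 * (δ * δ) - 2 * δ := by ring
  rw [h10] at hB
  have h11 : 2 * (e : ℤ) * o = 2 * (e * o) := by ring
  have h12 : 2 * (δ : ℤ) * s = 2 * (δ * s) := by ring
  rw [h11] at hB
  rw [h12] at h3
  linarith

end Pool.Agent.SST
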