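import Pool.Agent.SST.CurveBasis
import Mathlib.Analysis.Normed.Unbundled.SpectralNorm
import Mathlib.Analysis.Normed.Field.WithAbs
import Mathlib.Algebra.Polynomial.Splits
import Mathlib.RingTheory.Polynomial.Subring
import Mathlib.Analysis.Normed.Field.Ultra
import Mathlib.Analysis.Normed.Group.Ultra
import Mathlib.Analysis.Normed.Algebra.Ultra
import Mathlib.FieldTheory.IsAlgClosed.AlgebraicClosure

/-! The gradient of the equation of a plane curve at a place. -/

namespace Pool.Agent.SST

namespace LemmaPAux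

open Polynomial

section Core

variable {S : Type} [NontriviallyNormedField S] [CompleteSpace S] [IsUltrametricDist S]
  {E : Type} [NormedField E] [NormedAlgebra S E]

/-- elements of norm at most one -/
def unitBall (S : Type) [NontriviallyNormedField S] [IsUltrametricDist S] : Subring S where
  carrier := {x | ‖x‖ ≤ 1}
  mul_mem' {a b} ha hb := by
    change ‖a * b‖ ≤ 1
    rw [norm_mul]
    exact mul_le_one₀ ha (norm_nonneg _) hb
  one_mem' := by
    change ‖(1 : S)‖ ≤ 1
    simp
  add_mem' {a b} ha hb := (IsUltrametricDist.norm_add_le_max a b).trans (max_le ha hb)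
  zero_mem' := by
    change ‖(0 : S)‖ ≤ 1
    simp
  neg_mem' {a} ha := by
    change ‖-a‖ ≤ 1
    rw [norm_neg]
    exact ha

omit [CompleteSpace S] in
theorem norm_quot_le {m G h : S[X]} (hm : m.Monic) (hmc : ∀ n, ‖m.coeff n‖ ≤ 1)
    (hG : ∀ n, ‖G.coeff n‖ ≤ 1) (hGm : G = m * h) (n : ℕ) : ‖h.coeff n‖ ≤ 1 := by
  classical
  have hm' : (↑m.coeffs : Set S) ⊆ unitBall S := by
    intro x hx
    obtain ⟨n, _, rfl⟩ := Polynomial.mem_coeffs_iff.1 hx
    exact hmc n
  have hG' : (↑G.coeffs : Set S) ⊆ unitBall S := by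
    intro x hx
    obtain ⟨n, _, rfl⟩ := Polynomial.mem_coeffs_iff.1 hx
    exact hG n
  have h1 : (m.toSubring (unitBall S) hm').map (Subring.subtype _) ∣
      (G.toSubring (unitBall S) hG').map (Subring.subtype _) := by
    rw [Polynomial.map_toSubring, Polynomial.map_toSubring]
    exact ⟨h, hGm⟩
  rw [Polynomial.map_dvd_map _ Subtype.coe_injective
    ((Polynomial.monic_toSubring _ _ _).2 hm)] at h1
  obtain ⟨k, hk⟩ := h1
  have h2 := congrArg (Polynomial.map (Subring.subtype (unitBall S))) hk
  rw [Polynomial.map_mul, Polynomial.map_toSubring, Polynomial.map_toSubring, hGm] at h2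
  have h3 := mul_left_cancel₀ hm.ne_zero h2
  rw [h3, Polynomial.coeff_map]
  exact (k.coeff n).2

omit [CompleteSpace S] [IsUltrametricDist S] in
theorem norm_aeval_le [IsUltrametricDist E] {h : S[X]} (hh : ∀ n, ‖h.coeff n‖ ≤ 1) {τ : E}
    (hτ : ‖τ‖ ≤ 1) : ‖aeval τ h‖ ≤ 1 := by
  rw [aeval_eq_sum_range]
  apply IsUltrametricDist.norm_sum_le_of_forall_le_of_nonneg zero_le_one
  intro i _
  rw [norm_smul, norm_pow]
  exact mul_le_one₀ (hh i) (by positivity) (pow_le_one₀ (norm_nonneg _) hτ)

/-- the norm on the field generated by `τ` is the spectral norm -/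
theorem norm_eq_spectral (τ : E) (hτ : IsIntegral S τ) (x : IntermediateField.adjoin S {τ}) :
    ‖(x : E)‖ = spectralNorm S (IntermediateField.adjoin S {τ}) x := by
  have : FiniteDimensional S (IntermediateField.adjoin S {τ}) :=
    IntermediateField.adjoin.finiteDimensional hτ
  have : Algebra.IsAlgebraic S (IntermediateField.adjoin S {τ}) := Algebra.IsAlgebraic.of_finite _ _
  let f : AbsoluteValue (IntermediateField.adjoin S {τ}) ℝ :=
    (NormedField.toAbsoluteValue E).comp (f := algebraMap (IntermediateField.adjoin S {τ}) E)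
      (algebraMap (IntermediateField.adjoin S {τ}) E).injective
  have h := spectralNorm_unique_field_norm_ext (K := S) (f := f) (fun y => by
    change ‖algebraMap (IntermediateField.adjoin S {τ}) E
      (algebraMap S (IntermediateField.adjoin S {τ}) y)‖ = ‖y‖
    rw [← IsScalarTower.algebraMap_apply]
    exact norm_algebraMap' E y) x
  exact h

theorem core (τ : E) (G : S[X]) (hG0 : G ≠ 0) (hG : ∀ n, ‖G.coeff n‖ ≤ 1)
    (hGτ : aeval τ G = 0) {r : ℝ} (hτ : ‖τ‖ ≤ r) (hr1 : r ≤ 1) {p : ℕ}
    (hpm : p ≤ (minpoly S τ).natDegree) :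
    ‖aeval τ (derivative G)‖ ≤ r ^ (p - 1) := by
  classical
  have hr0 : 0 ≤ r := (norm_nonneg _).trans hτ
  have hint : IsIntegral S τ := isAlgebraic_iff_isIntegral.1 ⟨G, hG0, hGτ⟩
  have hfd : FiniteDimensional S (IntermediateField.adjoin S {τ}) :=
    IntermediateField.adjoin.finiteDimensional hint
  have halg : Algebra.IsAlgebraic S (IntermediateField.adjoin S {τ}) :=
    Algebra.IsAlgebraic.of_finite _ _
  set m := minpoly S τ with hm
  have hmm : m.Monic := minpoly.monic hint
  set g := IntermediateField.AdjoinSimple.gen S τ with hg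
  have hgτ : (g : E) = τ := IntermediateField.AdjoinSimple.coe_gen S τ
  have hmg : minpoly S g = m := by
    exact (minpoly.algebraMap_eq (algebraMap (IntermediateField.adjoin S {τ}) E).injective g).symm
  -- spectral value of the minimal polynomial
  have hsv : spectralValue m = ‖τ‖ := by
    have h := norm_eq_spectral τ hint g
    rw [hgτ] at h
    rw [h, spectralNorm, hmg]
  have hmc : ∀ n, ‖m.coeff n‖ ≤ 1 := (spectralValue_le_one_iff hmm).1 (by
    rw [hsv]; exact hτ.trans hr1)
  -- division
  obtain ⟨h, hh⟩ := minpoly.dvd S τ hGτ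
  have hhc := norm_quot_le hmm hmc hG hh
  have hE : IsUltrametricDist E := IsUltrametricDist.of_normedAlgebra S
  have h1 : ‖aeval τ h‖ ≤ 1 := norm_aeval_le hhc (hτ.trans hr1)
  have h2 : aeval τ (derivative G) = aeval τ (derivative m) * aeval τ h := by
    rw [hh, derivative_mul, map_add, map_mul, map_mul, minpoly.aeval, zero_mul, add_zero]
  -- the derivative of the minimal polynomial
  let ψ : IntermediateField.adjoin S {τ} →ₐ[S] AlgebraicClosure S := IsAlgClosed.lift
  have hψ : ∀ x, spectralNorm S (AlgebraicClosure S) (ψ x) = ‖(x : E)‖ := by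
    intro x
    rw [norm_eq_spectral τ hint x, spectralNorm, spectralNorm,
      minpoly.algHom_eq ψ ψ.toRingHom.injective]
  set R := (m.map (algebraMap S (AlgebraicClosure S))).roots with hR
  have hmap : (m.map (algebraMap S (AlgebraicClosure S))).Monic := hmm.map _
  have hspl : (m.map (algebraMap S (AlgebraicClosure S))).Splits := IsAlgClosed.splits _
  have hroot : ψ g ∈ R := by
    rw [hR, mem_roots hmap.ne_zero, IsRoot.def, eval_map_algebraMap, aeval_algHom_apply,
      ← hmg, minpoly.aeval, map_zero]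
  have hval : ∀ a ∈ R, spectralNorm S (AlgebraicClosure S) a ≤ r := by
    intro a ha
    rw [hR, mem_roots hmap.ne_zero, IsRoot.def, eval_map_algebraMap] at ha
    have h3 : m = minpoly S a :=
      minpoly.eq_of_irreducible_of_monic (minpoly.irreducible hint) ha hmm
    rw [spectralNorm, ← h3, hsv]
    exact hτ
  have h3 : ψ (aeval g (derivative m)) = ((R.erase (ψ g)).map (ψ g - ·)).prod := by
    rw [← hspl.eval_root_derivative hmap hroot, derivative_map, eval_map_algebraMap,
      aeval_algHom_apply]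
  have h4 : ∀ T : Multiset (AlgebraicClosure S), (∀ a ∈ T, a ∈ R) →
      spectralNorm S (AlgebraicClosure S) (T.map (ψ g - ·)).prod ≤ r ^ T.card := by
    intro T
    induction T using Multiset.induction_on with
    | empty =>
      intro _
      simp [spectralNorm_one]
    | cons a T ih =>
      intro ha
      rw [Multiset.map_cons, Multiset.prod_cons, Multiset.card_cons, pow_succ, mul_comm (r ^ _)]
      have h5 := spectralAlgNorm_mul (K := S) (L := AlgebraicClosure S) (ψ g - a)
        (T.map (ψ g - ·)).prod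
      rw [spectralAlgNorm_def, spectralAlgNorm_def, spectralAlgNorm_def] at h5
      rw [h5]
      apply mul_le_mul _ (ih fun b hb => ha b (Multiset.mem_cons_of_mem hb))
        (spectralNorm_nonneg _) hr0
      have h6 := isNonarchimedean_spectralNorm (K := S) (L := AlgebraicClosure S) (ψ g) (-a)
      rw [← sub_eq_add_neg, spectralNorm_neg (Algebra.IsAlgebraic.isAlgebraic a)] at h6
      exact h6.trans (max_le (hval _ hroot) (hval _ (ha a (Multiset.mem_cons_self _ _))))
  have h5 : ‖aeval τ (derivative m)‖ ≤ r ^ (p - 1) := by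
    have h6 : aeval τ (derivative m) = ((aeval g (derivative m) :
        IntermediateField.adjoin S {τ}) : E) :=
      Polynomial.aeval_algebraMap_apply E g (derivative m)
    rw [h6, ← hψ, h3]
    refine (h4 _ fun a ha => Multiset.mem_of_mem_erase ha).trans ?_
    apply pow_le_pow_of_le_one hr0 hr1
    rw [Multiset.card_erase_of_mem hroot]
    have h7 : R.card = m.natDegree := by
      rw [hR, ← hspl.natDegree_eq_card_roots, natDegree_map]
    rw [h7]
    exact Nat.pred_le_pred hpm
  rw [h2, norm_mul]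
  calc ‖aeval τ (derivative m)‖ * ‖aeval τ h‖ ≤ r ^ (p - 1) * 1 :=
        mul_le_mul h5 h1 (norm_nonneg _) (pow_nonneg hr0 _)
    _ = r ^ (p - 1) := mul_one _

omit [CompleteSpace S] in
/-- the degree is at least the ramification index -/
theorem le_degree (τ : E) (hint : IsIntegral S τ) {t : ℝ} (ht : 0 < t) {p : ℕ}
    (hval : ∀ s : S, s ≠ 0 → ∃ n : ℤ, Real.log ‖s‖ = n * (p * t)) {z : E}
    (hz : z ∈ IntermediateField.adjoin S {τ}) (hzt : Real.log ‖z‖ = -t) (hz0 : z ≠ 0) :
    p ≤ (minpoly S τ).natDegree := by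
  classical
  have hE : IsUltrametricDist E := IsUltrametricDist.of_normedAlgebra S
  have hfd : FiniteDimensional S (IntermediateField.adjoin S {τ}) :=
    IntermediateField.adjoin.finiteDimensional hint
  -- values of the terms
  have hterm : ∀ (k : ℕ) (c : S), c ≠ 0 → ∃ n : ℤ,
      Real.log ‖c • z ^ k‖ = (n * p - k : ℤ) * t := by
    intro k c hc
    obtain ⟨n, hn⟩ := hval c hc
    refine ⟨n, ?_⟩
    have h1 : ‖c‖ ≠ 0 := norm_ne_zero_iff.2 hc
    have h2 : ‖z‖ ^ k ≠ 0 := pow_ne_zero k (norm_ne_zero_iff.2 hz0)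
    rw [norm_smul, norm_pow, Real.log_mul h1 h2, Real.log_pow, hzt, hn]
    push_cast
    ring
  have hne : ∀ (k l : ℕ) (c d : S), k < p → l < p → k ≠ l → c ≠ 0 → d ≠ 0 →
      ‖c • z ^ k‖ ≠ ‖d • z ^ l‖ := by
    intro k l c d hk hl hkl hc hd h
    obtain ⟨n, hn⟩ := hterm k c hc
    obtain ⟨n', hn'⟩ := hterm l d hd
    rw [h, hn'] at hn
    have h1 := mul_right_cancel₀ ht.ne' hn
    have h2 : n' * p - l = n * p - k := by exact_mod_cast h1
    have h3 : (p : ℤ) ∣ (l : ℤ) - k := ⟨n' - n, by linarith [mul_sub (p : ℤ) n' n, mul_comm (p : ℤ) n', mul_comm (p : ℤ) n]⟩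
    have h4 : (l : ℤ) - k = 0 := by
      apply Int.eq_zero_of_abs_lt_dvd h3
      rw [abs_lt]
      constructor <;> omega
    omega
  have key : ∀ (s : Finset (Fin p)) (c : Fin p → S), s.Nonempty → (∀ i ∈ s, c i ≠ 0) →
      ∃ i ∈ s, ‖∑ i ∈ s, c i • z ^ (i : ℕ)‖ = ‖c i • z ^ (i : ℕ)‖ := by
    intro s c
    induction s using Finset.induction_on with
    | empty => intro h; exact absurd h (by simp)
    | insert a s ha ih =>
      intro _ hc
      rw [Finset.sum_insert ha]
      rcases s.eq_empty_or_nonempty with rfl | hs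
      · exact ⟨a, by simp, by simp⟩
      · obtain ⟨i, hi, hwi⟩ := ih hs (fun i hi => hc i (Finset.mem_insert_of_mem hi))
        have hai : (a : ℕ) ≠ i := by
          intro h
          have := Fin.ext h
          subst this
          exact ha hi
        have h1 : ‖c a • z ^ (a : ℕ)‖ ≠ ‖∑ i ∈ s, c i • z ^ (i : ℕ)‖ := by
          rw [hwi]
          exact hne _ _ _ _ a.2 i.2 hai (hc a (Finset.mem_insert_self _ _))
            (hc i (Finset.mem_insert_of_mem hi))
        rw [IsUltrametricDist.norm_add_eq_max_of_norm_ne_norm h1]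
        rcases max_choice ‖c a • z ^ (a : ℕ)‖ ‖∑ i ∈ s, c i • z ^ (i : ℕ)‖ with h | h
        · exact ⟨a, Finset.mem_insert_self _ _, h⟩
        · exact ⟨i, Finset.mem_insert_of_mem hi, by rw [h, hwi]⟩
  have hli : LinearIndependent S (fun i : Fin p => z ^ (i : ℕ)) := by
    rw [linearIndependent_iff']
    intro s c hs i hi
    by_contra hci
    have hne' : (s.filter fun i => c i ≠ 0).Nonempty := ⟨i, by simp [hi, hci]⟩
    obtain ⟨j, hj, hwj⟩ := key (s.filter fun i => c i ≠ 0) c hne'
      (fun i hi => (Finset.mem_filter.1 hi).2)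
    have h1 : ∑ i ∈ s.filter (fun i => c i ≠ 0), c i • z ^ (i : ℕ) = 0 := by
      rw [← hs]
      apply Finset.sum_subset (Finset.filter_subset _ _)
      intro x hx hx2
      have : c x = 0 := by
        by_contra h
        exact hx2 (Finset.mem_filter.2 ⟨hx, h⟩)
      simp [this]
    rw [h1, norm_zero] at hwj
    have h2 := norm_eq_zero.1 hwj.symm
    rw [smul_eq_zero] at h2
    rcases h2 with h2 | h2
    · exact (Finset.mem_filter.1 hj).2 h2
    · exact pow_ne_zero _ hz0 h2
  have hli' : LinearIndependent S (fun i : Fin p =>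
      (⟨z, hz⟩ : IntermediateField.adjoin S {τ}) ^ (i : ℕ)) := by
    apply LinearIndependent.of_comp (IntermediateField.adjoin S {τ}).val.toLinearMap
    exact hli
  have h := hli'.fintype_card_le_finrank
  rw [Fintype.card_fin, IntermediateField.adjoin.finrank hint] at h
  exact h

end Core

section Apply

variable {κ 𝓕 : Type} [Field κ] [Field 𝓕] [Algebra κ 𝓕]

theorem le_one_sigma {b : Fin 2 → 𝓕} {w : AbsoluteValue 𝓕 ℝ} (hw : CPlace κ b w) (i : Fin 2)
    (q : κ[X]) : w (aeval (b i) q) ≤ 1 := by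
  have h : aeval (b i) q =
      MvPolynomial.aeval b (aeval (MvPolynomial.X i : MvPolynomial (Fin 2) κ) q) := by
    rw [← Polynomial.aeval_algHom_apply, MvPolynomial.aeval_X]
  rw [h]
  exact hw.cb_le_one _

theorem val_poly_sigma {b : Fin 2 → 𝓕} {w : AbsoluteValue 𝓕 ℝ} (hw : CPlace κ b w) (i : Fin 2)
    {T : ℝ} (hT : 0 < T) (hσ : Real.log (w (b i)) = -T) :
    ∀ (n : ℕ) (r : κ[X]), r.natDegree ≤ n → aeval (b i) r ≠ 0 →
      ∃ k : ℕ, Real.log (w (aeval (b i) r)) = -(k * T) := by
  have hσ0 : b i ≠ 0 := by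
    intro h
    rw [h, map_zero, Real.log_zero] at hσ
    linarith
  have hσ1 : w (b i) < 1 := by
    rw [← Real.log_neg_iff (w.pos hσ0), hσ]
    linarith
  intro n
  induction n with
  | zero =>
    intro r hr h0
    obtain ⟨c, rfl⟩ := Polynomial.natDegree_eq_zero.1 (Nat.le_zero.1 hr)
    rw [aeval_C] at h0 ⊢
    refine ⟨0, ?_⟩
    rw [hw.triv c (by rintro rfl; simp at h0)]
    simp
  | succ n ih =>
    intro r hr h0
    have hdiv : aeval (b i) r = aeval (b i) r.divX * b i + algebraMap κ 𝓕 (r.coeff 0) := by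
      conv_lhs => rw [← Polynomial.divX_mul_X_add r]
      simp
    by_cases hc : r.coeff 0 = 0
    · rw [hc, map_zero, add_zero] at hdiv
      have h1 : aeval (b i) r.divX ≠ 0 := by
        intro h
        rw [h, zero_mul] at hdiv
        exact h0 hdiv
      obtain ⟨k, hk⟩ := ih r.divX (by rw [Polynomial.natDegree_divX_eq_natDegree_tsub_one]; omega)
        h1
      refine ⟨k + 1, ?_⟩
      rw [hdiv, map_mul, Real.log_mul (w.pos h1).ne' (w.pos hσ0).ne', hk, hσ]
      push_cast
      ring
    · refine ⟨0, ?_⟩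
      have h1 : w (aeval (b i) r.divX * b i) < w (algebraMap κ 𝓕 (r.coeff 0)) := by
        rw [hw.triv _ hc, map_mul]
        calc w (aeval (b i) r.divX) * w (b i) ≤ 1 * w (b i) :=
              mul_le_mul_of_nonneg_right (le_one_sigma hw i _) (w.nonneg _)
          _ < 1 := by rw [one_mul]; exact hσ1
      rw [hdiv, hw.cb_add_eq h1, hw.triv _ hc]
      simp

theorem val_sigma {b : Fin 2 → 𝓕} {w : AbsoluteValue 𝓕 ℝ} (hw : CPlace κ b w) (i : Fin 2)
    {T : ℝ} (hT : 0 < T) (hσ : Real.log (w (b i)) = -T) (x : 𝓕)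
    (hx : x ∈ IntermediateField.adjoin κ {b i}) (hx0 : x ≠ 0) :
    ∃ n : ℤ, Real.log (w x) = n * T := by
  obtain ⟨r, s, rfl⟩ := (IntermediateField.mem_adjoin_simple_iff κ x).1 hx
  have hr : aeval (b i) r ≠ 0 := by
    intro h
    simp [h] at hx0
  have hs : aeval (b i) s ≠ 0 := by
    intro h
    simp [h] at hx0
  obtain ⟨k, hk⟩ := val_poly_sigma hw i hT hσ _ r le_rfl hr
  obtain ⟨l, hl⟩ := val_poly_sigma hw i hT hσ _ s le_rfl hs
  refine ⟨l - k, ?_⟩
  rw [map_div₀, Real.log_div (w.pos hr).ne' (w.pos hs).ne', hk, hl]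
  push_cast
  ring

end Apply

end LemmaPAux

open LemmaPAux in
theorem lemmaP {κ 𝓕 : Type} [Field κ] [Field 𝓕] [Algebra κ 𝓕] [IsAlgClosed κ] [CharZero κ]
    {b : Fin 2 → 𝓕} {g : MvPolynomial (Fin 2) κ}
    (hC : CurveField b g) {w : AbsoluteValue 𝓕 ℝ} (hw : CPlace κ b w) {t : ℝ} (ht : IsGen w t)
    (i j : Fin 2) (hij : i ≠ j) (p q : ℕ) (hp : 0 < p) (hq : 0 < q)
    (hi : Real.log (w (b i)) = -(p * t)) (hj : Real.log (w (b j)) = -(q * t)) :
    w (MvPolynomial.aeval b (MvPolynomial.pderiv j g)) ≤
      Real.exp (-(((p : ℝ) - 1) * q * t)) := by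
  classical
  have htp := ht.pos
  have hpt : 0 < (p : ℝ) * t := by positivity
  have hqt : 0 < (q : ℝ) * t := by positivity
  have hσ0 : b i ≠ 0 := by
    intro h
    rw [h, map_zero, Real.log_zero] at hi
    linarith
  have hτ0 : b j ≠ 0 := by
    intro h
    rw [h, map_zero, Real.log_zero] at hj
    linarith
  have hσ1 : w (b i) < 1 := by
    rw [← Real.log_neg_iff (w.pos hσ0), hi]
    linarith
  let F0 := IntermediateField.adjoin κ {b i}
  let σ0 : F0 := IntermediateField.AdjoinSimple.gen κ (b i)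
  have hσ0c : (σ0 : 𝓕) = b i := IntermediateField.AdjoinSimple.coe_gen κ (b i)
  let w0 : AbsoluteValue F0 ℝ := w.comp (f := algebraMap F0 𝓕) (algebraMap F0 𝓕).injective
  have hw0 : ∀ x : F0, w0 x = w (x : 𝓕) := fun x => rfl
  let ιS : F0 →+* w0.Completion :=
    (UniformSpace.Completion.coeRingHom).comp (WithAbs.equiv w0).symm.toRingHom
  have hιS : ∀ x, ‖ιS x‖ = w (x : 𝓕) := fun x => UniformSpace.Completion.norm_coe _
  let ιE : 𝓕 →+* w.Completion :=
    (UniformSpace.Completion.coeRingHom).comp (WithAbs.equiv w).symm.toRingHom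
  have hιE : ∀ x, ‖ιE x‖ = w x := fun x => UniformSpace.Completion.norm_coe _
  let iS : NontriviallyNormedField w0.Completion :=
    { (inferInstance : NormedField w0.Completion) with
      non_trivial := ⟨ιS σ0⁻¹, by
        rw [hιS]
        rw [IntermediateField.coe_inv, hσ0c, map_inv₀]
        exact (one_lt_inv₀ (w.pos hσ0)).2 hσ1⟩ }
  have hult : IsUltrametricDist w0.Completion :=
    IsUltrametricDist.isUltrametricDist_of_forall_norm_natCast_le_one (fun n => by
      have h1 : ((n : ℕ) : w0.Completion) = ιS (n : F0) := by simp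
      rw [h1, hιS]
      have h2 : (((n : F0)) : 𝓕) = MvPolynomial.aeval b (n : MvPolynomial (Fin 2) κ) := by
        simp
      rw [h2]
      exact hw.cb_le_one _)
  let f : WithAbs w0 →+* WithAbs w := WithAbs.map w0 w (algebraMap F0 𝓕)
  have hf : Isometry f := AddMonoidHomClass.isometry_of_norm f (fun x => rfl)
  let φ : w0.Completion →+* w.Completion := hf.mapRingHom
  have hφ : Isometry φ := hf.isometry_mapRingHom
  have hφn : ∀ x, ‖φ x‖ = ‖x‖ := fun x => by
    have := hφ.dist_eq x 0
    rwa [map_zero, dist_zero_right, dist_zero_right] at this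
  have hφι : ∀ x : F0, φ (ιS x) = ιE (x : 𝓕) := fun x => hf.mapRingHom_coe _
  let iA : NormedAlgebra w0.Completion w.Completion :=
    { φ.toAlgebra with
      norm_smul_le := fun r x => by
        change ‖φ r * x‖ ≤ ‖r‖ * ‖x‖
        rw [norm_mul, hφn] }
  have hAφ : ∀ x, algebraMap w0.Completion w.Completion x = φ x := fun x => rfl
  let cS : κ →+* w0.Completion := ιS.comp (algebraMap κ F0)
  let Θ : MvPolynomial (Fin 2) κ →+* Polynomial w0.Completion :=
    MvPolynomial.eval₂Hom (Polynomial.C.comp cS)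
      (fun k => if k = j then Polynomial.X else Polynomial.C (ιS σ0))
  have hΘC : ∀ a, Θ (MvPolynomial.C a) = Polynomial.C (cS a) := fun a => by
    simp [Θ]
  have hΘX : ∀ k, Θ (MvPolynomial.X k) =
      if k = j then Polynomial.X else Polynomial.C (ιS σ0) := fun k => by
    simp [Θ]
  have hΘ : ∀ P, Polynomial.aeval (ιE (b j)) (Θ P) = ιE (MvPolynomial.aeval b P) := by
    intro P
    induction P using MvPolynomial.induction_on with
    | C a =>
      rw [hΘC, Polynomial.aeval_C, hAφ, MvPolynomial.aeval_C]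
      exact hφι _
    | add P Q hP hQ => rw [map_add, map_add, map_add, map_add, hP, hQ]
    | mul_X P k hP =>
      rw [map_mul, map_mul, map_mul, map_mul, hP, hΘX, MvPolynomial.aeval_X]
      congr 1
      by_cases hk : k = j
      · rw [if_pos hk, Polynomial.aeval_X, hk]
      · rw [if_neg hk, Polynomial.aeval_C, hAφ, hφι, hσ0c]
        have : k = i := by
          have := i.2
          have := j.2
          have := k.2
          ext
          have h1 : (k : ℕ) ≠ j := fun h => hk (Fin.ext h)
          have h2 : (i : ℕ) ≠ j := fun h => hij (Fin.ext h)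
          omega
        rw [this]
  have hcoef : ∀ P n, ‖(Θ P).coeff n‖ ≤ 1 := by
    intro P
    induction P using MvPolynomial.induction_on with
    | C a =>
      intro n
      rw [hΘC, Polynomial.coeff_C]
      split_ifs
      · change ‖ιS (algebraMap κ F0 a)‖ ≤ 1
        rw [hιS]
        change w (algebraMap κ 𝓕 a) ≤ 1
        rw [← MvPolynomial.aeval_C (σ := Fin 2) b a]
        exact hw.cb_le_one _
      · simp
    | add P Q hP hQ =>
      intro n
      rw [map_add, Polynomial.coeff_add]
      exact (IsUltrametricDist.norm_add_le_max _ _).trans (max_le (hP n) (hQ n))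
    | mul_X P k hP =>
      intro n
      rw [map_mul, hΘX]
      split_ifs
      · rcases n with _ | n
        · simp
        · rw [Polynomial.coeff_mul_X]
          exact hP n
      · rw [Polynomial.coeff_mul_C, norm_mul]
        apply mul_le_one₀ (hP n) (norm_nonneg _)
        rw [hιS, hσ0c]
        exact hσ1.le
  have hder : ∀ P, Polynomial.derivative (Θ P) = Θ (MvPolynomial.pderiv j P) := by
    intro P
    induction P using MvPolynomial.induction_on with
    | C a => rw [hΘC, Polynomial.derivative_C, MvPolynomial.pderiv_C, map_zero]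
    | add P Q hP hQ => rw [map_add, map_add, map_add, map_add, hP, hQ]
    | mul_X P k hP =>
      rw [map_mul, Polynomial.derivative_mul, hP, Derivation.leibniz, map_add, smul_eq_mul,
        smul_eq_mul, map_mul, map_mul, MvPolynomial.pderiv_X, hΘX]
      by_cases hk : k = j
      · subst hk
        simp
        ring
      · rw [if_neg hk, Pi.single_eq_of_ne hk]
        simp
        ring
  rw [← hιE, ← hΘ, ← hder]
  by_cases hG0 : Θ g = 0
  · rw [hG0]
    simp
    positivity
  have hGτ : Polynomial.aeval (ιE (b j)) (Θ g) = 0 := by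
    rw [hΘ, (hC.ker g).2 dvd_rfl, map_zero]
  have hint : IsIntegral w0.Completion (ιE (b j)) :=
    isAlgebraic_iff_isIntegral.1 ⟨Θ g, hG0, hGτ⟩
  -- values on the completion
  have hval : ∀ s : w0.Completion, s ≠ 0 → ∃ n : ℤ, Real.log ‖s‖ = n * (p * t) := by
    intro s hs
    obtain ⟨x, hx⟩ : ∃ x : WithAbs w0, ‖s - (x : w0.Completion)‖ < ‖s‖ := by
      have h := UniformSpace.Completion.denseRange_coe (α := WithAbs w0)
      obtain ⟨x, hx⟩ := Metric.denseRange_iff.1 h s ‖s‖ (norm_pos_iff.2 hs)
      exact ⟨x, by rwa [dist_eq_norm] at hx⟩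
    have h1 : ‖(x : w0.Completion)‖ = ‖s‖ := by
      have h2 : ‖s‖ ≠ ‖(x : w0.Completion) - s‖ := by
        rw [norm_sub_rev]
        exact hx.ne'
      have h3 := IsUltrametricDist.norm_add_eq_max_of_norm_ne_norm h2
      rw [show s + ((x : w0.Completion) - s) = x by ring] at h3
      rw [h3, max_eq_left]
      rw [norm_sub_rev]
      exact hx.le
    have h2 : ‖(x : w0.Completion)‖ = w ((x.ofAbs : F0) : 𝓕) :=
      UniformSpace.Completion.norm_coe _
    have h3 : ((x.ofAbs : F0) : 𝓕) ≠ 0 := by
      intro h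
      rw [h, map_zero, h1] at h2
      exact hs (norm_eq_zero.1 h2)
    rw [← h1, h2]
    exact val_sigma hw i hpt hi _ x.ofAbs.2 h3
  obtain ⟨y, hy0, hy⟩ := ht.unif
  have hmem : ∀ P : MvPolynomial (Fin 2) κ, ιE (MvPolynomial.aeval b P) ∈
      IntermediateField.adjoin w0.Completion {ιE (b j)} := by
    intro P
    rw [← hΘ]
    exact IntermediateField.algebra_adjoin_le_adjoin _ _
      (Polynomial.aeval_mem_adjoin_singleton _ _)
  have hymem : ιE y ∈ IntermediateField.adjoin w0.Completion {ιE (b j)} := by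
    obtain ⟨P, Q, hQ, rfl⟩ := hC.frac y
    rw [map_div₀]
    exact div_mem (hmem P) (hmem Q)
  have hdeg : p ≤ (minpoly w0.Completion (ιE (b j))).natDegree :=
    le_degree (ιE (b j)) hint htp hval hymem (by rw [hιE, hy])
      (by
        intro h
        exact hy0 (ιE.injective (by rw [h, map_zero])))
  have hfin := core (ιE (b j)) (Θ g) hG0 (hcoef g) hGτ (r := Real.exp (-(q * t)))
    (by rw [hιE, ← hj, Real.exp_log (w.pos hτ0)]) (by
      rw [Real.exp_le_one_iff]
      linarith) hdeg
  refine hfin.trans (le_of_eq ?_)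
  rw [← Real.exp_nat_mul]
  congr 1
  rw [Nat.cast_sub (by omega)]
  push_cast
  ring

end Pool.Agent.SST
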