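import Pool.Agent.SST.CurveBezout
import Pool.Agent.SST.LemmaP
import Pool.Agent.SST.CurveB
import Pool.Agent.SST.CurveCoord
import Pool.Agent.SST.GeoNum

/-!
# The main geometric inequality
-/

set_option autoImplicit false

open MvPolynomial Module

namespace Pool.Agent.SST

section Geo

variable {κ 𝓕 : Type} [Field κ] [Field 𝓕] [Algebra κ 𝓕]

/-! ### Places -/

theorem geo_const_le {b : Fin 2 → 𝓕} {w : AbsoluteValue 𝓕 ℝ} (hw : CPlace κ b w) (c : κ) :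
    w (algebraMap κ 𝓕 c) ≤ 1 := by
  by_cases hc : c = 0
  · rw [hc, map_zero, map_zero]
    exact zero_le_one
  · exact (hw.triv c hc).le

theorem geo_aeval_le {b : Fin 2 → 𝓕} {w : AbsoluteValue 𝓕 ℝ} (hw : CPlace κ b w)
    (P : MvPolynomial (Fin 2) κ) : w (aeval b P) ≤ 1 := by
  induction P using MvPolynomial.induction_on with
  | C a =>
    rw [aeval_C]
    exact geo_const_le hw a
  | add p q hp hq =>
    rw [map_add]
    exact (hw.nonarch _ _).trans (max_le hp hq)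
  | mul_X p i hp =>
    rw [map_mul, aeval_X, map_mul]
    exact mul_le_one₀ hp (w.nonneg _) (hw.le i)

theorem geo_nat {w : AbsoluteValue 𝓕 ℝ} {t : ℝ} (ht : IsGen w t) {y : 𝓕} (hy : y ≠ 0)
    (hy1 : w y ≤ 1) : ∃ n : ℕ, Real.log (w y) = -(n * t) := by
  obtain ⟨n, hn⟩ := ht.val y hy
  have h1 : Real.log (w y) ≤ 0 := Real.log_nonpos (w.nonneg y) hy1
  rw [hn] at h1
  have h2 : (n : ℝ) ≤ 0 := by
    by_contra h
    push Not at h
    exact absurd h1 (not_le.2 (mul_pos h ht.pos))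
  have h3 : n ≤ 0 := by exact_mod_cast h2
  refine ⟨n.natAbs, ?_⟩
  rw [hn]
  have h4 : ((n.natAbs : ℕ) : ℝ) = -(n : ℝ) := by
    have h5 : ((n.natAbs : ℕ) : ℤ) = -n := by omega
    have h6 : (((n.natAbs : ℕ) : ℤ) : ℝ) = ((-n : ℤ) : ℝ) := by rw [h5]
    rw [Int.cast_natCast, Int.cast_neg] at h6
    exact h6
  rw [h4]
  ring

theorem geo_exp {w : AbsoluteValue 𝓕 ℝ} {y : 𝓕} (hy : y ≠ 0) {a : ℝ}
    (h : Real.log (w y) = a) : w y = Real.exp a := by
  rw [← h, Real.exp_log (w.pos hy)]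

/-- The larger value wins. -/
theorem geo_isosceles {w : AbsoluteValue 𝓕 ℝ} (hw : ∀ x y : 𝓕, w (x + y) ≤ max (w x) (w y))
    {x y : 𝓕} (h : w y < w x) : w (x + y) = w x := by
  apply le_antisymm
  · exact (hw x y).trans (max_le le_rfl h.le)
  · have h1 : w x ≤ max (w (x + y)) (w (-y)) := by
      have h2 := hw (x + y) (-y)
      rwa [add_neg_cancel_right] at h2
    rw [w.map_neg] at h1
    rcases le_max_iff.1 h1 with h2 | h2
    · exact h2
    · exact absurd h (not_lt.2 h2)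

theorem geo_sub_lt {b : Fin 2 → 𝓕} {w : AbsoluteValue 𝓕 ℝ} (hw : CPlace κ b w) {x y : 𝓕}
    (hx : w x < 1) (hy : w y < 1) : w (x - y) < 1 := by
  rw [sub_eq_add_neg]
  refine (hw.nonarch x (-y)).trans_lt ?_
  rw [w.map_neg]
  exact max_lt hx hy

/-! ### The functions -/

theorem geo_fq_poly (b : Fin 2 → 𝓕) (α : κ) :
    aeval b (C α ^ 2 + X 0 * C α + X 1 : MvPolynomial (Fin 2) κ) = fq α b := by
  simp only [map_add, map_mul, map_pow, aeval_C, aeval_X]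
  rfl

theorem geo_fq_deg (α : κ) :
    (C α ^ 2 + X 0 * C α + X 1 : MvPolynomial (Fin 2) κ).totalDegree ≤ 1 := by
  refine (totalDegree_add _ _).trans (max_le ((totalDegree_add _ _).trans (max_le ?_ ?_)) ?_)
  · refine (totalDegree_pow _ _).trans ?_
    rw [totalDegree_C]
    norm_num
  · refine (totalDegree_mul _ _).trans ?_
    rw [totalDegree_C, totalDegree_X]
  · rw [totalDegree_X]

theorem geo_dq_poly (b : Fin 2 → 𝓕) :
    aeval b (X 0 ^ 2 - C 4 * X 1 : MvPolynomial (Fin 2) κ) = dq b := by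
  simp only [map_sub, map_mul, map_pow, aeval_X, map_ofNat]
  rfl

theorem geo_dq_deg : (X 0 ^ 2 - C 4 * X 1 : MvPolynomial (Fin 2) κ).totalDegree ≤ 2 := by
  refine (totalDegree_sub _ _).trans (max_le ?_ ?_)
  · refine (totalDegree_pow _ _).trans ?_
    rw [totalDegree_X]
  · refine (totalDegree_mul _ _).trans ?_
    rw [totalDegree_C, totalDegree_X]
    norm_num

theorem geo_fq_le {b : Fin 2 → 𝓕} {w : AbsoluteValue 𝓕 ℝ} (hw : CPlace κ b w) (α : κ) :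
    w (fq α b) ≤ 1 := by
  rw [← geo_fq_poly]
  exact geo_aeval_le hw _

theorem geo_dq_le {b : Fin 2 → 𝓕} {w : AbsoluteValue 𝓕 ℝ} (hw : CPlace κ b w) :
    w (dq b) ≤ 1 := by
  rw [← geo_dq_poly (κ := κ)]
  exact geo_aeval_le hw _

theorem geo_fq_sub (b : Fin 2 → 𝓕) (α β : κ) :
    fq α b - fq β b = algebraMap κ 𝓕 (α - β) *
      (b 0 + algebraMap κ 𝓕 α + algebraMap κ 𝓕 β) := by
  unfold fq
  rw [map_sub]
  ring

theorem geo_lt_one {w : AbsoluteValue 𝓕 ℝ} {t : ℝ} (ht : IsGen w t) {y : 𝓕} (hy : y ≠ 0) {n : ℕ}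
    (hn : 0 < n) (h : Real.log (w y) = -(n * t)) : w y < 1 := by
  rw [geo_exp hy h, Real.exp_lt_one_iff]
  have h1 : (0 : ℝ) < n * t := mul_pos (by exact_mod_cast hn) ht.pos
  linarith

/-- Two zeros of the quadratic polynomial. -/
theorem geo_two_pos {b : Fin 2 → 𝓕} {w : AbsoluteValue 𝓕 ℝ} (hw : CPlace κ b w) {α β : κ}
    (hne : α ≠ β) (hα : w (fq α b) < 1) (hβ : w (fq β b) < 1) :
    w (b 0 + algebraMap κ 𝓕 α + algebraMap κ 𝓕 β) < 1 := by
  have h1 := geo_sub_lt hw hα hβ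
  rwa [geo_fq_sub, map_mul, hw.triv _ (sub_ne_zero.2 hne), one_mul] at h1

theorem geo_dq_eq (b : Fin 2 → 𝓕) (α : κ) :
    (b 0 + 2 * algebraMap κ 𝓕 α) ^ 2 = 4 * fq α b + dq b := by
  unfold fq dq
  ring

theorem geo_two_dq [CharZero κ] {b : Fin 2 → 𝓕} {w : AbsoluteValue 𝓕 ℝ} (hw : CPlace κ b w)
    {α β : κ} (hne : α ≠ β) (hα : w (fq α b) < 1) (hβ : w (fq β b) < 1) : w (dq b) = 1 := by
  have h1 := geo_two_pos hw hne hα hβ
  have h2 : w (algebraMap κ 𝓕 (α - β)) = 1 := hw.triv _ (sub_ne_zero.2 hne)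
  have h3 : w (b 0 + 2 * algebraMap κ 𝓕 α) = 1 := by
    have h4 : b 0 + 2 * algebraMap κ 𝓕 α = algebraMap κ 𝓕 (α - β) +
        (b 0 + algebraMap κ 𝓕 α + algebraMap κ 𝓕 β) := by
      rw [map_sub]
      ring
    rw [h4, geo_isosceles hw.nonarch (by rwa [h2]), h2]
  have h5 : dq b = (b 0 + 2 * algebraMap κ 𝓕 α) ^ 2 + -(4 * fq α b) := by
    rw [geo_dq_eq]
    ring
  have h6 : w ((b 0 + 2 * algebraMap κ 𝓕 α) ^ 2) = 1 := by
    rw [map_pow, h3, one_pow]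
  have h7 : w (-(4 * fq α b)) < 1 := by
    rw [w.map_neg, map_mul]
    have h8 : w (4 : 𝓕) ≤ 1 := by
      have h9 := geo_const_le hw (4 : κ)
      rwa [map_ofNat] at h9
    calc w 4 * w (fq α b) ≤ 1 * w (fq α b) := mul_le_mul_of_nonneg_right h8 (w.nonneg _)
      _ < 1 := by rwa [one_mul]
  rw [h5, geo_isosceles hw.nonarch (by rwa [h6]), h6]

theorem geo_three {b : Fin 2 → 𝓕} {w : AbsoluteValue 𝓕 ℝ} (hw : CPlace κ b w) {α β γ : κ}
    (h1 : α ≠ β) (h2 : α ≠ γ) (h3 : β ≠ γ) (hα : w (fq α b) < 1) (hβ : w (fq β b) < 1)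
    (hγ : w (fq γ b) < 1) : False := by
  have h4 := geo_sub_lt hw (geo_two_pos hw h1 hα hβ) (geo_two_pos hw h2 hα hγ)
  have h5 : b 0 + algebraMap κ 𝓕 α + algebraMap κ 𝓕 β - (b 0 + algebraMap κ 𝓕 α +
      algebraMap κ 𝓕 γ) = algebraMap κ 𝓕 (β - γ) := by
    rw [map_sub]
    ring
  rw [h5, hw.triv _ (sub_ne_zero.2 h3)] at h4
  exact lt_irrefl _ h4

/-- The three possibilities at a place. -/
theorem geo_cases [CharZero κ] {b : Fin 2 → 𝓕} (htan : ∀ α : κ, fq α b ≠ 0) (hd : dq b ≠ 0)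
    {w : AbsoluteValue 𝓕 ℝ} (hw : CPlace κ b w) {t : ℝ} (ht : IsGen w t) (D : Finset κ) :
    ∃ (o : κ → ℕ) (d : ℕ), (∀ α, Real.log (w (fq α b)) = -(o α * t)) ∧
      Real.log (w (dq b)) = -(d * t) ∧
      ((∑ x ∈ D, o x = 0) ∨ (∃ α, 0 < o α ∧ ∑ x ∈ D, o x = o α) ∨
        ∃ β γ, β ≠ γ ∧ 0 < o β ∧ 0 < o γ ∧ d = 0 ∧ ∑ x ∈ D, o x = o β + o γ) := by
  classical
  choose o ho using fun α => geo_nat ht (htan α) (geo_fq_le hw α)
  obtain ⟨d, hd'⟩ := geo_nat ht hd (geo_dq_le (κ := κ) hw)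
  refine ⟨o, d, ho, hd', ?_⟩
  have hlt : ∀ α, 0 < o α → w (fq α b) < 1 := fun α hα => geo_lt_one ht (htan α) hα (ho α)
  set S := D.filter fun x => o x ≠ 0 with hS
  have hsum : ∑ x ∈ D, o x = ∑ x ∈ S, o x := by
    rw [hS, Finset.sum_filter_ne_zero]
  have hSo : ∀ x ∈ S, 0 < o x := fun x hx => Nat.pos_of_ne_zero (Finset.mem_filter.1 hx).2
  rw [hsum]
  have hcard : S.card ≤ 2 := by
    by_contra h
    push Not at h
    obtain ⟨x, hx, y, hy, z, hz, hxy, hxz, hyz⟩ := Finset.two_lt_card.1 h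
    exact geo_three hw hxy hxz hyz (hlt x (hSo x hx)) (hlt y (hSo y hy)) (hlt z (hSo z hz))
  have hc : S.card = 0 ∨ S.card = 1 ∨ S.card = 2 := by omega
  rcases hc with h | h | h
  · left
    rw [Finset.card_eq_zero] at h
    rw [h, Finset.sum_empty]
  · right; left
    obtain ⟨x, hx⟩ := Finset.card_eq_one.1 h
    refine ⟨x, hSo x (by rw [hx]; exact Finset.mem_singleton_self x), ?_⟩
    rw [hx, Finset.sum_singleton]
  · right; right
    obtain ⟨x, y, hxy, hS2⟩ := Finset.card_eq_two.1 h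
    have hx := hSo x (by rw [hS2]; exact Finset.mem_insert_self _ _)
    have hy := hSo y (by
      rw [hS2]
      exact Finset.mem_insert_of_mem (Finset.mem_singleton_self y))
    refine ⟨x, y, hxy, hx, hy, ?_, ?_⟩
    · have h1 := geo_two_dq hw hxy (hlt x hx) (hlt y hy)
      rw [h1, Real.log_one] at hd'
      have h2 : (d : ℝ) * t = 0 := by linarith
      rcases mul_eq_zero.1 h2 with h3 | h3
      · exact_mod_cast h3
      · exact absurd h3 ht.pos.ne'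
    · rw [hS2, Finset.sum_pair hxy]

theorem geo_val {b : Fin 2 → 𝓕} {w : AbsoluteValue 𝓕 ℝ} {t : ℝ} (ht : IsGen w t) (D : Finset κ)
    {o : κ → ℕ} {d : ℕ} (ho : ∀ α, Real.log (w (fq α b)) = -(o α * t))
    (hd : Real.log (w (dq b)) = -(d * t)) :
    (∑ α ∈ D, -Real.log (w (fq α b)) - Real.log (w (dq b))) / t =
      ((∑ x ∈ D, o x + d : ℕ) : ℝ) := by
  rw [div_eq_iff ht.pos.ne', hd]
  simp only [ho, neg_neg]
  rw [← Finset.sum_mul]
  push_cast
  ring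

theorem geo_ord {w : AbsoluteValue 𝓕 ℝ} {t : ℝ} (ht : IsGen w t) {y : 𝓕} {n : ℕ}
    (h : Real.log (w y) = -(n * t)) : -Real.log (w y) / t = n := by
  rw [h, neg_neg, mul_div_assoc, div_self ht.pos.ne', mul_one]

theorem geo_fq_one {b : Fin 2 → 𝓕} {g : MvPolynomial (Fin 2) κ} (hC : CurveField b g)
    (htan : ∀ α : κ, fq α b ≠ 0) {w : AbsoluteValue 𝓕 ℝ} (hw : CPlace κ b w) {t : ℝ}
    (ht : IsGen w t) {α : κ} {n : ℕ} (h : Real.log (w (fq α b)) = -(n * t)) :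
    n ≤ g.totalDegree := by
  have h1 := bezout_one hC hw ht _ 1 (geo_fq_deg α) (by rw [geo_fq_poly]; exact htan α)
  rw [geo_fq_poly, geo_ord ht h] at h1
  have h2 : (n : ℝ) ≤ (g.totalDegree : ℝ) := by
    rw [Nat.cast_one, one_mul] at h1
    exact h1
  exact_mod_cast h2

theorem geo_dq_one {b : Fin 2 → 𝓕} {g : MvPolynomial (Fin 2) κ} (hC : CurveField b g)
    (hd : dq b ≠ 0) {w : AbsoluteValue 𝓕 ℝ} (hw : CPlace κ b w) {t : ℝ}
    (ht : IsGen w t) {n : ℕ} (h : Real.log (w (dq b)) = -(n * t)) :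
    n ≤ 2 * g.totalDegree := by
  have h1 := bezout_one hC hw ht _ 2 geo_dq_deg (by rw [geo_dq_poly]; exact hd)
  rw [geo_dq_poly, geo_ord ht h] at h1
  exact_mod_cast h1

/-! ### One place -/

theorem geo_one [IsAlgClosed κ] [CharZero κ] {b : Fin 2 → 𝓕} {g : MvPolynomial (Fin 2) κ}
    (hC : CurveField b g) (htan : ∀ α : κ, fq α b ≠ 0) (hd : dq b ≠ 0)
    {w : AbsoluteValue 𝓕 ℝ} (hw : CPlace κ b w) {t : ℝ} (ht : IsGen w t) (D : Finset κ) :
    (∑ α ∈ D, -Real.log (w (fq α b)) - Real.log (w (dq b))) / t ≤ 3 * g.totalDegree := by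
  obtain ⟨o, d, ho, hd', h⟩ := geo_cases htan hd hw ht D
  rw [geo_val ht D ho hd']
  have h1 : d ≤ 2 * g.totalDegree := geo_dq_one hC hd hw ht hd'
  have h2 : ∀ α, o α ≤ g.totalDegree := fun α => geo_fq_one hC htan hw ht (ho α)
  have h3 : ∑ x ∈ D, o x + d ≤ 3 * g.totalDegree := by
    rcases h with h | ⟨α, -, h⟩ | ⟨β, γ, -, -, -, h4, h⟩
    · omega
    · have := h2 α
      omega
    · have := h2 β
      have := h2 γ
      omega
  exact_mod_cast h3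

/-! ### Two places -/

theorem geo_exp_le {a c t : ℝ} (ht : 0 < t) (h : c ≤ a) : Real.exp (-(a * t)) ≤
    Real.exp (-(c * t)) := by
  rw [Real.exp_le_exp, neg_le_neg_iff]
  exact mul_le_mul_of_nonneg_right h ht.le

/-- The contribution of a place close to a double point of the conic. -/
theorem geo_double [IsAlgClosed κ] [CharZero κ] {b : Fin 2 → 𝓕} {g : MvPolynomial (Fin 2) κ}
    (hC : CurveField b g) (hB : aeval b (Bt g) ≠ 0) (hfα : ∀ α : κ, fq α b ≠ 0)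
    (hd0 : dq b ≠ 0) {w : AbsoluteValue 𝓕 ℝ} (hw : CPlace κ b w) {t : ℝ} (ht : IsGen w t) (α : κ)
    {H d : ℕ} (h1 : Real.log (w (fq α b)) = -(H * t)) (h2 : Real.log (w (dq b)) = -(d * t))
    (hH : 0 < H) (hlt : H < d) :
    ∃ h : ℕ, 2 * h = H ∧ 0 < h ∧
      (2 * (h : ℝ) - 1) * d ≤ -Real.log (w (aeval b (Bt g))) / t := by
  have htp := ht.pos
  have h4 : w (4 : 𝓕) = 1 := by
    have h9 := hw.triv (4 : κ) (by norm_num)
    rwa [map_ofNat] at h9
  have e1 : w (4 * fq α b) = Real.exp (-(H * t)) := by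
    rw [map_mul, h4, one_mul, geo_exp (hfα α) h1]
  have e2 : w (dq b) = Real.exp (-(d * t)) := geo_exp hd0 h2
  have e3 : w (dq b) < w (4 * fq α b) := by
    rw [e1, e2, Real.exp_lt_exp, neg_lt_neg_iff]
    exact mul_lt_mul_of_pos_right (by exact_mod_cast hlt) htp
  have e4 : w ((b 0 + 2 * algebraMap κ 𝓕 α) ^ 2) = Real.exp (-(H * t)) := by
    rw [geo_dq_eq, geo_isosceles hw.nonarch e3, e1]
  have e5 : b 0 + 2 * algebraMap κ 𝓕 α ≠ 0 := by
    intro h0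
    rw [h0] at e4
    have : (0 : ℝ) = Real.exp (-(H * t)) := by
      rw [← e4]
      simp
    exact (Real.exp_pos _).ne this
  have e6 : w (b 0 + 2 * algebraMap κ 𝓕 α) ≤ 1 := by
    have h9 := geo_aeval_le hw (X 0 + C (2 * α))
    simpa only [map_add, aeval_X, aeval_C, map_mul, map_ofNat] using h9
  obtain ⟨h, hh⟩ := geo_nat ht e5 e6
  have e7 : 2 * h = H := by
    have e8 : Real.log (w ((b 0 + 2 * algebraMap κ 𝓕 α) ^ 2)) = -(H * t) := by
      rw [e4, Real.log_exp]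
    rw [map_pow, Real.log_pow, hh] at e8
    have e9 : (2 * (h : ℝ)) * t = H * t := by
      push_cast at e8
      linarith
    have e10 := mul_right_cancel₀ htp.ne' e9
    exact_mod_cast e10
  have hpos : 0 < h := by omega
  refine ⟨h, e7, hpos, ?_⟩
  obtain ⟨g', hC', hBt⟩ := coord_double hC α
  set b' : Fin 2 → 𝓕 := ![b 0 + 2 * algebraMap κ 𝓕 α, dq b] with hb'
  have hw' : CPlace κ b' w := by
    refine ⟨hw.nonarch, hw.triv, fun i => ?_⟩
    fin_cases i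
    · exact e6
    · exact geo_dq_le hw
  have l0 : Real.log (w (b' 0)) = -(h * t) := hh
  have l1 : Real.log (w (b' 1)) = -(d * t) := h2
  have hdpos : 0 < d := lt_trans hH hlt
  have p1 := lemmaP hC' hw' ht 0 1 (by decide) h d hpos hdpos l0 l1
  have p0 := lemmaP hC' hw' ht 1 0 (by decide) d h hdpos hpos l1 l0
  set A0 := aeval b' (pderiv 0 g')
  set A1 := aeval b' (pderiv 1 g')
  have hd2 : (2 * (h : ℝ)) ≤ d := by
    have : 2 * h ≤ d := by omega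
    exact_mod_cast this
  have q0 : w (A0 ^ 2) ≤ Real.exp (-(((2 * (h : ℝ) - 1) * d) * t)) := by
    rw [map_pow]
    calc w A0 ^ 2 ≤ Real.exp (-(((d : ℝ) - 1) * h * t)) ^ 2 :=
          pow_le_pow_left₀ (w.nonneg _) p0 2
      _ = Real.exp (-((2 * (((d : ℝ) - 1) * h)) * t)) := by
          rw [← Real.exp_nat_mul]
          congr 1
          push_cast
          ring
      _ ≤ _ := by
          apply geo_exp_le htp
          nlinarith
  have q1 : w (4 * dq b * A1 ^ 2) ≤ Real.exp (-(((2 * (h : ℝ) - 1) * d) * t)) := by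
    rw [map_mul, map_mul, map_pow, h4, one_mul, e2]
    calc Real.exp (-(d * t)) * w A1 ^ 2 ≤
        Real.exp (-(d * t)) * Real.exp (-(((h : ℝ) - 1) * d * t)) ^ 2 :=
          mul_le_mul_of_nonneg_left (pow_le_pow_left₀ (w.nonneg _) p1 2) (Real.exp_pos _).le
      _ = _ := by
          rw [← Real.exp_nat_mul, ← Real.exp_add]
          congr 1
          push_cast
          ring
  have q2 : w (aeval b (Bt g)) ≤ Real.exp (-(((2 * (h : ℝ) - 1) * d) * t)) := by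
    rw [hBt, sub_eq_add_neg]
    refine (hw.nonarch _ _).trans (max_le q0 ?_)
    rw [w.map_neg]
    exact q1
  have q3 := Real.log_le_log (w.pos hB) q2
  rw [Real.log_exp] at q3
  rw [le_div_iff₀ htp]
  linarith

/-- The contribution of a place close to two points. -/
theorem geo_cross [IsAlgClosed κ] [CharZero κ] {b : Fin 2 → 𝓕} {g : MvPolynomial (Fin 2) κ}
    (hC : CurveField b g) (hB : aeval b (Bt g) ≠ 0) (hfα : ∀ α : κ, fq α b ≠ 0)
    {w : AbsoluteValue 𝓕 ℝ} (hw : CPlace κ b w) {t : ℝ} (ht : IsGen w t) {β γ : κ}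
    (hne : β ≠ γ) {e o : ℕ} (h1 : Real.log (w (fq β b)) = -(e * t))
    (h2 : Real.log (w (fq γ b)) = -(o * t)) (he : 0 < e) (ho : 0 < o) :
    2 * (e : ℝ) * o - e - o ≤ -Real.log (w (aeval b (Bt g))) / t := by
  have htp := ht.pos
  have e1 : w (fq β b) = Real.exp (-(e * t)) := geo_exp (hfα β) h1
  have e2 : w (fq γ b) = Real.exp (-(o * t)) := geo_exp (hfα γ) h2
  obtain ⟨g', hC', hBt⟩ := coord_two hC β γ hne
  set b' : Fin 2 → 𝓕 := ![fq β b, fq γ b] with hb'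
  have hw' : CPlace κ b' w := by
    refine ⟨hw.nonarch, hw.triv, fun i => ?_⟩
    fin_cases i
    · exact geo_fq_le hw β
    · exact geo_fq_le hw γ
  have l0 : Real.log (w (b' 0)) = -(e * t) := h1
  have l1 : Real.log (w (b' 1)) = -(o * t) := h2
  have p1 := lemmaP hC' hw' ht 0 1 (by decide) e o he ho l0 l1
  have p0 := lemmaP hC' hw' ht 1 0 (by decide) o e ho he l1 l0
  have he1 : (1 : ℝ) ≤ e := by exact_mod_cast he
  have ho1 : (1 : ℝ) ≤ o := by exact_mod_cast ho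
  set A0 := aeval b' (pderiv 0 g')
  set A1 := aeval b' (pderiv 1 g')
  have q0 : w (fq β b * A0 ^ 2) ≤ Real.exp (-((2 * (e : ℝ) * o - e - o) * t)) := by
    rw [map_mul, map_pow, e1]
    calc Real.exp (-(e * t)) * w A0 ^ 2 ≤
        Real.exp (-(e * t)) * Real.exp (-(((o : ℝ) - 1) * e * t)) ^ 2 :=
          mul_le_mul_of_nonneg_left (pow_le_pow_left₀ (w.nonneg _) p0 2) (Real.exp_pos _).le
      _ = Real.exp (-((2 * (e : ℝ) * o - e) * t)) := by
          rw [← Real.exp_nat_mul, ← Real.exp_add]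
          congr 1
          push_cast
          ring
      _ ≤ _ := by
          apply geo_exp_le htp
          linarith
  have q1 : w (fq γ b * A1 ^ 2) ≤ Real.exp (-((2 * (e : ℝ) * o - e - o) * t)) := by
    rw [map_mul, map_pow, e2]
    calc Real.exp (-(o * t)) * w A1 ^ 2 ≤
        Real.exp (-(o * t)) * Real.exp (-(((e : ℝ) - 1) * o * t)) ^ 2 :=
          mul_le_mul_of_nonneg_left (pow_le_pow_left₀ (w.nonneg _) p1 2) (Real.exp_pos _).le
      _ = Real.exp (-((2 * (e : ℝ) * o - o) * t)) := by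
          rw [← Real.exp_nat_mul, ← Real.exp_add]
          congr 1
          push_cast
          ring
      _ ≤ _ := by
          apply geo_exp_le htp
          linarith
  have q2 : w ((fq β b + fq γ b - algebraMap κ 𝓕 (β - γ) ^ 2) * A0 * A1) ≤
      Real.exp (-((2 * (e : ℝ) * o - e - o) * t)) := by
    have r1 : w (fq β b + fq γ b - algebraMap κ 𝓕 (β - γ) ^ 2) ≤ 1 := by
      rw [sub_eq_add_neg]
      refine (hw.nonarch _ _).trans (max_le ((hw.nonarch _ _).trans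
        (max_le (geo_fq_le hw β) (geo_fq_le hw γ))) ?_)
      rw [w.map_neg, map_pow]
      exact pow_le_one₀ (w.nonneg _) (geo_const_le hw _)
    rw [map_mul, map_mul]
    calc w (fq β b + fq γ b - algebraMap κ 𝓕 (β - γ) ^ 2) * w A0 * w A1 ≤
        1 * Real.exp (-(((o : ℝ) - 1) * e * t)) * Real.exp (-(((e : ℝ) - 1) * o * t)) := by
          apply mul_le_mul (mul_le_mul r1 p0 (w.nonneg _) zero_le_one) p1 (w.nonneg _)
          positivity
      _ = _ := by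
          rw [one_mul, ← Real.exp_add]
          congr 1
          ring
  have q3 : w (aeval b (Bt g)) ≤ Real.exp (-((2 * (e : ℝ) * o - e - o) * t)) := by
    rw [hBt]
    exact (hw.nonarch _ _).trans (max_le ((hw.nonarch _ _).trans (max_le q0 q1)) q2)
  have q4 := Real.log_le_log (w.pos hB) q3
  rw [Real.log_exp] at q4
  rw [le_div_iff₀ htp]
  linarith

theorem geo_hard [IsAlgClosed κ] [CharZero κ] {b : Fin 2 → 𝓕} {g : MvPolynomial (Fin 2) κ}
    (hC : CurveField b g) (htan : ∀ α : κ, fq α b ≠ 0) (hd0 : dq b ≠ 0)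
    {w₁ w₂ : AbsoluteValue 𝓕 ℝ} (hw₁ : CPlace κ b w₁) (hw₂ : CPlace κ b w₂) {t₁ t₂ : ℝ}
    (ht₁ : IsGen w₁ t₁) (ht₂ : IsGen w₂ t₂) (hne : ¬ w₁.IsEquiv w₂) {α β γ : κ} (hβγ : β ≠ γ)
    {H d e o : ℕ} (h1 : Real.log (w₁ (fq α b)) = -(H * t₁))
    (h2 : Real.log (w₁ (dq b)) = -(d * t₁)) (h3 : Real.log (w₂ (fq β b)) = -(e * t₂))
    (h4 : Real.log (w₂ (fq γ b)) = -(o * t₂)) (hH : 0 < H) (he : 0 < e) (ho : 0 < o) :
    H + d + e + o ≤ 4 * g.totalDegree := by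
  have hHδ := geo_fq_one hC htan hw₁ ht₁ h1
  have hdδ := geo_dq_one hC hd0 hw₁ ht₁ h2
  have heδ := geo_fq_one hC htan hw₂ ht₂ h3
  have hoδ := geo_fq_one hC htan hw₂ ht₂ h4
  by_cases hlt : d ≤ H
  · omega
  push Not at hlt
  have hB : aeval b (Bt g) ≠ 0 := Bt_ne hC htan hd0
  obtain ⟨h, hhH, hh, k1⟩ := geo_double hC hB htan hd0 hw₁ ht₁ α h1 h2 hH hlt
  have k2 := geo_cross hC hB htan hw₂ ht₂ hβγ h3 h4 he ho
  have hδ : 0 < g.totalDegree := by omega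
  have hdeg := Bt_degree g hδ
  have k3 := bezout_two hC hw₁ hw₂ ht₁ ht₂ hne (Bt g) (2 * g.totalDegree - 2) (by omega) hB
  have k4 : (((2 * g.totalDegree - 2 : ℕ)) : ℝ) = 2 * (g.totalDegree : ℝ) - 2 := by
    rw [Nat.cast_sub (by omega)]
    push_cast
    ring
  rw [k4] at k3
  have k5 : (2 * (h : ℝ) - 1) * d + (2 * e * o - e - o) ≤
      (2 * (g.totalDegree : ℝ) - 2) * g.totalDegree := by linarith
  have k6 : (2 * (h : ℤ) - 1) * d + (2 * e * o - e - o) ≤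
      (2 * (g.totalDegree : ℤ) - 2) * g.totalDegree := by exact_mod_cast k5
  have k7 := geo_num g.totalDegree h d e o hδ hh (by omega) hdδ he heδ ho hoδ k6
  omega

theorem geo_two [IsAlgClosed κ] [CharZero κ] {b : Fin 2 → 𝓕} {g : MvPolynomial (Fin 2) κ}
    (hC : CurveField b g) (htan : ∀ α : κ, fq α b ≠ 0) (hd : dq b ≠ 0)
    {w₁ w₂ : AbsoluteValue 𝓕 ℝ} (hw₁ : CPlace κ b w₁) (hw₂ : CPlace κ b w₂) {t₁ t₂ : ℝ}
    (ht₁ : IsGen w₁ t₁) (ht₂ : IsGen w₂ t₂) (hne : ¬ w₁.IsEquiv w₂) (D : Finset κ) :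
    (∑ α ∈ D, -Real.log (w₁ (fq α b)) - Real.log (w₁ (dq b))) / t₁ +
      (∑ α ∈ D, -Real.log (w₂ (fq α b)) - Real.log (w₂ (dq b))) / t₂ ≤ 4 * g.totalDegree := by
  obtain ⟨o₁, d₁, ho₁, hd₁, c₁⟩ := geo_cases htan hd hw₁ ht₁ D
  obtain ⟨o₂, d₂, ho₂, hd₂, c₂⟩ := geo_cases htan hd hw₂ ht₂ D
  rw [geo_val ht₁ D ho₁ hd₁, geo_val ht₂ D ho₂ hd₂]
  have hne' : ¬ w₂.IsEquiv w₁ := fun h => hne h.symm
  have a₁ : ∀ α, o₁ α ≤ g.totalDegree := fun α => geo_fq_one hC htan hw₁ ht₁ (ho₁ α)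
  have a₂ : ∀ α, o₂ α ≤ g.totalDegree := fun α => geo_fq_one hC htan hw₂ ht₂ (ho₂ α)
  have b₁ : d₁ ≤ 2 * g.totalDegree := geo_dq_one hC hd hw₁ ht₁ hd₁
  have b₂ : d₂ ≤ 2 * g.totalDegree := geo_dq_one hC hd hw₂ ht₂ hd₂
  have a₁₂ : ∀ α, o₁ α + o₂ α ≤ g.totalDegree := by
    intro α
    have h1 := bezout_two hC hw₁ hw₂ ht₁ ht₂ hne _ 1 (geo_fq_deg α)
      (by rw [geo_fq_poly]; exact htan α)
    rw [geo_fq_poly, geo_ord ht₁ (ho₁ α), geo_ord ht₂ (ho₂ α), Nat.cast_one, one_mul] at h1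
    exact_mod_cast h1
  have b₁₂ : d₁ + d₂ ≤ 2 * g.totalDegree := by
    have h1 := bezout_two hC hw₁ hw₂ ht₁ ht₂ hne _ 2 geo_dq_deg
      (by rw [geo_dq_poly]; exact hd)
    rw [geo_dq_poly, geo_ord ht₁ hd₁, geo_ord ht₂ hd₂] at h1
    exact_mod_cast h1
  have key : (∑ x ∈ D, o₁ x + d₁) + (∑ x ∈ D, o₂ x + d₂) ≤ 4 * g.totalDegree := by
    rcases c₁ with s₁ | ⟨α, hα, s₁⟩ | ⟨β, γ, hβγ, hβ, hγ, z₁, s₁⟩
    · rcases c₂ with s₂ | ⟨α', hα', s₂⟩ | ⟨β', γ', hβγ', hβ', hγ', z₂, s₂⟩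
      · omega
      · have := a₂ α'
        omega
      · have := a₂ β'
        have := a₂ γ'
        omega
    · rcases c₂ with s₂ | ⟨α', hα', s₂⟩ | ⟨β', γ', hβγ', hβ', hγ', z₂, s₂⟩
      · have := a₁ α
        omega
      · have := a₁ α
        have := a₂ α'
        omega
      · have := geo_hard hC htan hd hw₁ hw₂ ht₁ ht₂ hne hβγ' (ho₁ α) hd₁ (ho₂ β') (ho₂ γ')
          hα hβ' hγ'
        omega
    · rcases c₂ with s₂ | ⟨α', hα', s₂⟩ | ⟨β', γ', hβγ', hβ', hγ', z₂, s₂⟩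
      · have := a₁ β
        have := a₁ γ
        omega
      · have := geo_hard hC htan hd hw₂ hw₁ ht₂ ht₁ hne' hβγ (ho₂ α') hd₂ (ho₁ β) (ho₁ γ)
          hα' hβ hγ
        omega
      · have := a₁ β
        have := a₁ γ
        have := a₂ β'
        have := a₂ γ'
        omega
  have key' : ((∑ x ∈ D, o₁ x + d₁ : ℕ) : ℝ) + ((∑ x ∈ D, o₂ x + d₂ : ℕ) : ℝ) ≤
      4 * (g.totalDegree : ℝ) := by exact_mod_cast key
  exact key'

end Geo

end Pool.Agent.SST
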