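import Pool.Agent.SST.DavZ

/-! Assembly of the geometry of numbers: reduced bases and the Davenport bases of their compounds
(package P8, helper63). -/

open MvPolynomial Filter

namespace Pool.Agent.SST

open Pool.Agent.DD7719.M

lemma cramer_geom {n : ℕ} (M : Matrix (Fin n) (Fin n) ℝ) (c δ R : ℝ) (hc : 1 ≤ c) (hδ : 0 < δ)
    (hM : ∀ i j, |M i j| ≤ c) (hdet : δ ≤ |M.det|) (x : Fin n → ℝ)
    (hx : ∀ j, |M.mulVec x j| ≤ R) (l : Fin n) :
    |x l| ≤ n * (n.factorial * c ^ n) / δ * R := by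
  have h1 : M.adjugate.mulVec (M.mulVec x) = M.det • x := by
    rw [Matrix.mulVec_mulVec, Matrix.adjugate_mul, Matrix.smul_mulVec, Matrix.one_mulVec]
  have h2 := congrFun h1 l
  rw [Pi.smul_apply, smul_eq_mul] at h2
  have h3 : |M.det| * |x l| ≤ n * (n.factorial * c ^ n) * R := by
    rw [← abs_mul, ← h2]
    simp only [Matrix.mulVec, dotProduct]
    refine (Finset.abs_sum_le_sum_abs _ _).trans ?_
    calc ∑ i, |M.adjugate l i * ∑ j, M i j * x j| ≤ ∑ _i : Fin n, (n.factorial * c ^ n) * R := by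
          apply Finset.sum_le_sum
          intro i _
          rw [abs_mul]
          have h4 := hx i
          simp only [Matrix.mulVec, dotProduct] at h4
          exact mul_le_mul (abs_adj_le hc M hM l i) h4 (abs_nonneg _) (by positivity)
      _ = n * (n.factorial * c ^ n) * R := by
          rw [Finset.sum_const, Finset.card_univ, Fintype.card_fin, nsmul_eq_mul]
          ring
  rw [div_mul_eq_mul_div, le_div_iff₀ hδ]
  calc |x l| * δ ≤ |x l| * |M.det| := mul_le_mul_of_nonneg_left hdet (abs_nonneg _)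
    _ = |M.det| * |x l| := mul_comm _ _
    _ ≤ _ := h3

/-- the normalised matrix of a basis -/
noncomputable def geomMat {N : ℕ} (A : Matrix (Fin N) (Fin N) ℝ) (y : Fin N → Fin N → ℤ)
    (lam : Fin N → ℝ) : Matrix (Fin N) (Fin N) ℝ :=
  Matrix.of fun j i => A.mulVec (fun k => (y i k : ℝ)) j / lam i

lemma RedZ.geom_le {N : ℕ} {c : ℝ} {A : Matrix (Fin N) (Fin N) ℝ} {y : Fin N → Fin N → ℤ}
    {lam : Fin N → ℝ} (h : RedZ c A y lam) (i j : Fin N) : |geomMat A y lam i j| ≤ c := by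
  rw [geomMat, Matrix.of_apply, abs_div, abs_of_pos (h.pos j), div_le_iff₀ (h.pos j)]
  exact h.upper i j

lemma geom_det {N : ℕ} (A : Matrix (Fin N) (Fin N) ℝ) (y : Fin N → Fin N → ℤ)
    (lam : Fin N → ℝ) : (geomMat A y lam).det =
      A.det * (((Matrix.of y).det : ℤ) : ℝ) * ∏ i, (lam i)⁻¹ := by
  have h1 : geomMat A y lam = A * ((Matrix.of y).map (Int.castRingHom ℝ)).transpose *
      Matrix.diagonal (fun i => (lam i)⁻¹) := by
    ext j i
    rw [Matrix.mul_diagonal, Matrix.mul_apply]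
    simp only [geomMat, Matrix.of_apply, Matrix.mulVec, dotProduct, Matrix.transpose_apply,
      Matrix.map_apply, Int.coe_castRingHom]
    rw [div_eq_mul_inv]
  rw [h1, Matrix.det_mul, Matrix.det_mul, Matrix.det_transpose, Matrix.det_diagonal]
  congr 2
  exact (RingHom.map_det (Int.castRingHom ℝ) (Matrix.of y)).symm

lemma RedZ.geom_lower {N : ℕ} {c : ℝ} {A : Matrix (Fin N) (Fin N) ℝ}
    {y : Fin N → Fin N → ℤ} {lam : Fin N → ℝ} (h : RedZ c A y lam) :
    |A.det| ≤ (N.factorial * c ^ N) * ∏ i, lam i := by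
  have h1 := abs_det_le (geomMat A y lam) c h.geom_le
  rw [geom_det, abs_mul, abs_mul] at h1
  have h2 : (1 : ℝ) ≤ |(((Matrix.of y).det : ℤ) : ℝ)| := by
    have := Int.one_le_abs h.ne
    exact_mod_cast this
  have hP : 0 < ∏ i, lam i := Finset.prod_pos fun i _ => h.pos i
  have h3 : |∏ i, (lam i)⁻¹| = (∏ i, lam i)⁻¹ := by
    rw [Finset.prod_inv_distrib, abs_of_pos (inv_pos.mpr hP)]
  rw [h3, ← div_eq_mul_inv, div_le_iff₀ hP] at h1
  refine le_trans ?_ h1
  exact le_mul_of_one_le_right (abs_nonneg _) h2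

lemma RedZ.geom_mem {N : ℕ} {c : ℝ} (hc : 1 ≤ c) {A : Matrix (Fin N) (Fin N) ℝ}
    {y : Fin N → Fin N → ℤ} {lam : Fin N → ℝ} (h : RedZ c A y lam) (z : Fin N → ℤ) (R : ℝ)
    (hz : ∀ j, |A.mulVec (fun k => (z k : ℝ)) j| ≤ R) (l : Fin N)
    (hl : Matrix.vecMul z (Matrix.of y).adjugate l ≠ 0) :
    lam l ≤ c * (N * (N.factorial * c ^ N) * c) * R := by
  have hc0 : 0 < c := by linarith
  set D : ℤ := (Matrix.of y).det with hD
  have hD0 : (D : ℝ) ≠ 0 := by exact_mod_cast h.ne
  set u : Fin N → ℤ := Matrix.vecMul z (Matrix.of y).adjugate with hu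
  -- coordinates
  have h1 : Matrix.vecMul u (Matrix.of y) = D • z := by
    rw [hu, Matrix.vecMul_vecMul, Matrix.adjugate_mul, Matrix.vecMul_smul, Matrix.vecMul_one]
  have h2 : (geomMat A y lam).mulVec (fun i => lam i * (u i : ℝ)) =
      (D : ℝ) • A.mulVec (fun k => (z k : ℝ)) := by
    funext j
    rw [Pi.smul_apply, smul_eq_mul]
    have h3 : ∀ k, (D : ℝ) * (z k : ℝ) = ∑ i, (u i : ℝ) * (y i k : ℝ) := by
      intro k
      have h4 := congrFun h1 k
      simp only [Matrix.vecMul, dotProduct, Matrix.of_apply, Pi.smul_apply, smul_eq_mul] at h4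
      have h5 := congrArg (Int.cast : ℤ → ℝ) h4
      push_cast at h5
      exact h5.symm
    simp only [Matrix.mulVec, dotProduct, geomMat, Matrix.of_apply, Finset.mul_sum]
    have h6 : ∀ k, (D : ℝ) * (A j k * (z k : ℝ)) = ∑ i, A j k * ((u i : ℝ) * (y i k : ℝ)) := by
      intro k
      rw [← Finset.mul_sum, ← h3 k]
      ring
    simp only [h6]
    rw [Finset.sum_comm]
    apply Finset.sum_congr rfl
    intro i _
    have hi := (h.pos i).ne'
    rw [Finset.sum_div, Finset.sum_mul]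
    apply Finset.sum_congr rfl
    intro k _
    field_simp
  have h3 := cramer_geom (geomMat A y lam) c (1 / c) (|(D : ℝ)| * R) hc (by positivity) h.geom_le
    h.lower (fun i => lam i * (u i : ℝ)) (by
      intro j
      rw [h2, Pi.smul_apply, smul_eq_mul, abs_mul]
      exact mul_le_mul_of_nonneg_left (hz j) (abs_nonneg _)) l
  have h4 : (1 : ℝ) ≤ |(u l : ℝ)| := by
    have := Int.one_le_abs hl
    exact_mod_cast this
  have hR0 : 0 ≤ R := (abs_nonneg _).trans (hz l)
  have h5 : |(D : ℝ)| ≤ c := h.index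
  calc lam l ≤ lam l * |(u l : ℝ)| := le_mul_of_one_le_right (h.pos l).le h4
    _ = |lam l * (u l : ℝ)| := by rw [abs_mul, abs_of_pos (h.pos l)]
    _ ≤ N * (N.factorial * c ^ N) / (1 / c) * (|(D : ℝ)| * R) := h3
    _ ≤ N * (N.factorial * c ^ N) / (1 / c) * (c * R) := by gcongr
    _ = c * (N * (N.factorial * c ^ N) * c) * R := by
      field_simp

lemma card_emb_geom (m p q : ℕ) (h : p + q = m + 1) (hp : 0 < p) (hq : 0 < q) :
    ∃ n : ℕ, Fintype.card (Fin q ↪o Fin (m + 1)) = n + 1 ∧ 1 ≤ n := by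
  have h1 : 1 < Fintype.card (Fin q ↪o Fin (m + 1)) := by
    rw [Fintype.one_lt_card_iff]
    refine ⟨topEmb h, OrderEmbedding.ofStrictMono (fun i => ⟨i, by have := i.2; omega⟩) ?_, ?_⟩
    · intro i j hij
      exact hij
    · intro heq
      have h2 := congrArg (fun f : Fin q ↪o Fin (m + 1) => ((f ⟨0, hq⟩ : Fin (m + 1)) : ℕ)) heq
      simp only [topEmb_val] at h2
      have h3 : ((OrderEmbedding.ofStrictMono (fun i : Fin q => (⟨i, by have := i.2; omega⟩ :
        Fin (m + 1))) (fun i j hij => hij) : Fin q ↪o Fin (m + 1)) ⟨0, hq⟩ : ℕ) = 0 := rfl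
      have h4 : p + 0 = 0 := h2.trans h3
      omega
  exact ⟨Fintype.card (Fin q ↪o Fin (m + 1)) - 1, by omega, by omega⟩

lemma pluck_orth_geom {m p q : ℕ} (h : p + q = m + 1) (y : Fin (m + 1) → Fin (m + 1) → ℤ)
    (f : Fin q ↪o Fin (m + 1)) (hf : f ≠ topEmb h) :
    ∑ J, compound q (Matrix.of y).adjugate J (topEmb h) * compound q (Matrix.of y) f J = 0 := by
  have h1 : compound q (Matrix.of y) * compound q (Matrix.of y).adjugate =
      (Matrix.of y).det ^ q • (1 : Matrix _ _ ℤ) := by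
    rw [← compound_mul, Matrix.mul_adjugate, compound_smul, compound_one]
  have h2 := congrFun (congrFun h1 f) (topEmb h)
  rw [Matrix.mul_apply, Matrix.smul_apply, Matrix.one_apply_ne hf, smul_zero] at h2
  rw [← h2]
  exact Finset.sum_congr rfl fun J _ => mul_comm _ _

/-- the gap part for one value of `q` -/
lemma gap_geom (m p q : ℕ) (h : p + q = m + 1) (hp : 0 < p) (hq : 0 < q) (c : ℝ) (hc : 1 ≤ c) :
    ∃ C : ℝ, 1 ≤ C ∧ ∀ (A : Matrix (Fin (m + 1)) (Fin (m + 1)) ℝ) (_ : A.det ≠ 0)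
      (y : Fin (m + 1) → Fin (m + 1) → ℤ) (lam : Fin (m + 1) → ℝ) (_ : Monotone lam)
      (_ : RedZ c A y lam) (_ : C * lam ⟨p - 1, by omega⟩ < lam ⟨p, by omega⟩),
      ∃ (π : Equiv.Perm (Fin q ↪o Fin (m + 1)))
        (Z : Fin (Fintype.card (Fin q ↪o Fin (m + 1)) - 1) → (Fin q ↪o Fin (m + 1)) → ℤ),
        LinearIndependent ℚ (fun i J => (Z i J : ℚ)) ∧
        (∀ i, ∑ J, Z i J * compound q (Matrix.of y).adjugate J (topEmb h) = 0) ∧
        ∀ i I, |∑ J, compound q A (π I) J * (Z i J : ℝ)| ≤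
          C * (if I = topEmb h then (∏ a, lam (I a)) * lam ⟨p - 1, by omega⟩ / lam ⟨p, by omega⟩
            else ∏ a, lam (I a)) := by
  obtain ⟨n, hn, hn1⟩ := card_emb_geom m p q h hp hq
  obtain ⟨C1, hC1, hcomp⟩ := compound_redZ (m + 1) q (n + 1) hn c hc
  obtain ⟨C2, hC2, hdav⟩ := davenportZ n ⟨n - 1, by omega⟩ (by simp only; omega) C1 hC1
  refine ⟨C2, hC2, ?_⟩
  intro A hA y lam hmono hred hgap
  set b : Fin (n + 1) := ⟨n - 1, by omega⟩ with hb
  obtain ⟨e, he⟩ := exists_sort (Fintype.equivFinOfCardEq hn)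
    (fun f : Fin q ↪o Fin (m + 1) => ∏ l, lam (f l))
  have hpos := hred.pos
  have hred' := hcomp A y lam hred e e
  have hp1 : 0 < lam ⟨p, by omega⟩ := hpos _
  have hp0 : 0 < lam ⟨p - 1, by omega⟩ := hpos _
  -- comparison with the top one
  have htop : ∀ f : Fin q ↪o Fin (m + 1), f ≠ topEmb h →
      C2 * ∏ l, lam (f l) < ∏ l, lam (topEmb h l) := by
    intro f hf
    have h1 := clam_le h hp hq lam hpos hmono f hf
    have h2 : 0 < ∏ l, lam (topEmb h l) := Finset.prod_pos fun i _ => hpos _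
    have h3 : 0 < ∏ l, lam (f l) := Finset.prod_pos fun i _ => hpos _
    have h4 : C2 * (∏ l, lam (f l)) * lam ⟨p, by omega⟩ <
        (∏ l, lam (topEmb h l)) * lam ⟨p, by omega⟩ := by
      calc C2 * (∏ l, lam (f l)) * lam ⟨p, by omega⟩
          = C2 * ((∏ l, lam (f l)) * lam ⟨p, by omega⟩) := by ring
        _ ≤ C2 * (lam ⟨p - 1, by omega⟩ * ∏ i, lam (topEmb h i)) :=
            mul_le_mul_of_nonneg_left h1 (by linarith)
        _ = (C2 * lam ⟨p - 1, by omega⟩) * ∏ i, lam (topEmb h i) := by ring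
        _ < lam ⟨p, by omega⟩ * ∏ i, lam (topEmb h i) := mul_lt_mul_of_pos_right hgap h2
        _ = _ := by ring
    exact lt_of_mul_lt_mul_right h4 hp1.le
  have htop' : ∀ f : Fin q ↪o Fin (m + 1), f ≠ topEmb h →
      ∏ l, lam (f l) < ∏ l, lam (topEmb h l) := by
    intro f hf
    have h3 : 0 < ∏ l, lam (f l) := Finset.prod_pos fun i _ => hpos _
    have := htop f hf
    nlinarith
  have hlast : e.symm (Fin.last n) = topEmb h := by
    by_contra hne
    have h1 := htop' _ hne
    have h2 := he (Fin.le_last (e (topEmb h)))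
    simp only [Equiv.symm_apply_apply] at h2
    linarith
  have hne : ∀ i : Fin (n + 1), i ≠ Fin.last n → e.symm i ≠ topEmb h := by
    intro i hi heq
    rw [← hlast] at heq
    exact hi (e.symm.injective heq)
  have hbl : b ≠ Fin.last n := by
    intro heq
    have := congrArg Fin.val heq
    simp only [hb, Fin.val_last] at this
    omega
  have hA' : ((compound q A).submatrix e.symm e.symm).det ≠ 0 := by
    rw [Matrix.det_submatrix_equiv_self]
    intro h0
    have h1 : compound q A * compound q A.adjugate = A.det ^ q • (1 : Matrix _ _ ℝ) := by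
      rw [← compound_mul, Matrix.mul_adjugate, compound_smul, compound_one]
    have h2 := congrArg Matrix.det h1
    rw [Matrix.det_mul, h0, zero_mul, Matrix.det_smul, Matrix.det_one, mul_one] at h2
    exact pow_ne_zero _ (pow_ne_zero _ hA) h2.symm
  obtain ⟨π', y', hli, horth, hbd⟩ := hdav _ hA' _ _ he hred' (by
    rw [hlast]
    exact htop _ (hne b hbl))
  have hcard : Fintype.card (Fin q ↪o Fin (m + 1)) - 1 = n := by omega
  let ι : Fin (Fintype.card (Fin q ↪o Fin (m + 1)) - 1) ≃ Fin n := finCongr hcard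
  refine ⟨(e.trans π').trans e.symm, fun i J => y' (ι i) (e J), ?_, ?_, ?_⟩
  · have h1 := hli.comp ι ι.injective
    have h2 : LinearIndependent ℚ (fun i => (LinearEquiv.funCongrLeft ℚ ℚ e).toLinearMap
        (fun k => (y' (ι i) k : ℚ))) :=
      h1.map' (LinearEquiv.funCongrLeft ℚ ℚ e).toLinearMap (LinearEquiv.ker _)
    exact h2
  · intro i
    have h1 := horth (fun k => compound q (Matrix.of y).adjugate (e.symm k) (topEmb h)) (by
      intro l
      have h2 := pluck_orth_geom h y (e.symm l.castSucc) (hne _ (Fin.castSucc_lt_last l).ne)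
      rw [← Equiv.sum_comp e.symm] at h2
      exact h2) (ι i)
    rw [← Equiv.sum_comp e] at h1
    rw [← h1]
    apply Finset.sum_congr rfl
    intro J _
    rw [Equiv.symm_apply_apply, mul_comm]
  · intro i I
    have h1 := hbd (ι i) (e I)
    have h2 : ∑ J, compound q A (((e.trans π').trans e.symm) I) J * ((y' (ι i) (e J) : ℤ) : ℝ) =
        ((compound q A).submatrix e.symm e.symm).mulVec (fun k => (y' (ι i) k : ℝ)) (π' (e I)) := by
      simp only [Matrix.mulVec, dotProduct, Matrix.submatrix_apply, Equiv.trans_apply]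
      rw [← Equiv.sum_comp e]
      simp only [Equiv.symm_apply_apply]
    rw [h2]
    refine h1.trans (mul_le_mul_of_nonneg_left ?_ (by linarith))
    rw [Equiv.symm_apply_apply]
    split_ifs with hI
    · refine (min_le_right _ _).trans ?_
      rw [le_div_iff₀ hp1]
      have h3 := clam_le h hp hq lam hpos hmono (e.symm b) (hne b hbl)
      rw [hI]
      linarith
    · exact min_le_left _ _

theorem exists_minBasis (m : ℕ) : ∃ C : ℝ, 1 ≤ C ∧
    ∀ A : Matrix (Fin (m + 1)) (Fin (m + 1)) ℝ, A.det ≠ 0 →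
      ∃ (y : Fin (m + 1) → Fin (m + 1) → ℤ) (lam : Fin (m + 1) → ℝ), MinBasis C A y lam := by
  obtain ⟨c, hc, hred⟩ := exists_redZ (m + 1)
  have hc0 : 0 < c := by linarith
  -- constants for the gaps
  have hgap : ∀ q : Fin (m + 2), ∃ C : ℝ, 1 ≤ C ∧ ∀ (p : ℕ) (h : p + q = m + 1) (hp : 0 < p)
      (hq : 0 < (q : ℕ)) (A : Matrix (Fin (m + 1)) (Fin (m + 1)) ℝ) (_ : A.det ≠ 0)
      (y : Fin (m + 1) → Fin (m + 1) → ℤ) (lam : Fin (m + 1) → ℝ) (_ : Monotone lam)
      (_ : RedZ c A y lam) (_ : C * lam ⟨p - 1, by omega⟩ < lam ⟨p, by omega⟩),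
      ∃ (π : Equiv.Perm (Fin q ↪o Fin (m + 1)))
        (Z : Fin (Fintype.card (Fin q ↪o Fin (m + 1)) - 1) → (Fin q ↪o Fin (m + 1)) → ℤ),
        LinearIndependent ℚ (fun i J => (Z i J : ℚ)) ∧
        (∀ i, ∑ J, Z i J * compound q (Matrix.of y).adjugate J (topEmb h) = 0) ∧
        ∀ i I, |∑ J, compound q A (π I) J * (Z i J : ℝ)| ≤
          C * (if I = topEmb h then (∏ a, lam (I a)) * lam ⟨p - 1, by omega⟩ / lam ⟨p, by omega⟩
            else ∏ a, lam (I a)) := by
    intro q
    by_cases hq0 : (q : ℕ) = 0 ∨ (q : ℕ) = m + 1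
    · refine ⟨1, le_rfl, ?_⟩
      intro p h hp hq
      omega
    · push Not at hq0
      have hq2 := q.2
      obtain ⟨C, hC, hall⟩ := gap_geom m (m + 1 - q) q (by omega) (by omega) (by omega) c hc
      refine ⟨C, hC, ?_⟩
      intro p h hp hq A hA y lam hmono hr hg
      obtain rfl : p = m + 1 - q := by omega
      exact hall A hA y lam hmono hr hg
  choose Cq hCq1 hCq using hgap
  set C' : ℝ := ∑ q, Cq q with hC'
  have hCqle : ∀ q, Cq q ≤ C' := fun q =>
    Finset.single_le_sum (f := Cq) (fun q _ => (zero_le_one.trans (hCq1 q))) (Finset.mem_univ q)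
  have hC'0 : 0 ≤ C' := Finset.sum_nonneg fun q _ => zero_le_one.trans (hCq1 q)
  set F : ℝ := ((m + 1).factorial : ℝ) * c ^ (m + 1) with hF
  have hF0 : 0 ≤ F := by positivity
  set D : ℝ := c * (((m + 1 : ℕ) : ℝ) * F * c) with hD
  have hD0 : 0 ≤ D := by positivity
  refine ⟨1 + c + F + D + C', by linarith, ?_⟩
  intro A hA
  obtain ⟨y, lam, hmono, hr, hup⟩ := hred A hA
  have hpos := hr.pos
  have hprod : 0 < ∏ i, lam i := Finset.prod_pos fun i _ => hpos i
  refine ⟨y, lam, hmono, hpos, hr.ne, ?_, ?_, ?_, ?_, ?_⟩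
  · intro i j
    refine (hr.upper j i).trans ?_
    apply mul_le_mul_of_nonneg_right _ (hpos i).le
    linarith
  · refine hup.trans ?_
    apply mul_le_mul_of_nonneg_right _ (abs_nonneg _)
    linarith
  · refine hr.geom_lower.trans ?_
    apply mul_le_mul_of_nonneg_right _ hprod.le
    linarith
  · intro z R hz p hpR j hj
    by_contra hne
    have h1 := hr.geom_mem hc z R hz j hne
    have hR0 : 0 ≤ R := (abs_nonneg _).trans (hz j)
    have h2 : D * R ≤ (1 + c + F + D + C') * R := by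
      apply mul_le_mul_of_nonneg_right _ hR0
      linarith
    have h3 := hmono hj
    rw [hD, hF] at h2
    linarith
  · intro p q h hp hq hg
    have hq2 : q < m + 2 := by omega
    have hg' : Cq ⟨q, hq2⟩ * lam ⟨p - 1, by omega⟩ < lam ⟨p, by omega⟩ := by
      refine lt_of_le_of_lt ?_ hg
      apply mul_le_mul_of_nonneg_right _ (hpos _).le
      have := hCqle ⟨q, hq2⟩
      linarith
    obtain ⟨π, Z, h1, h2, h3⟩ := hCq ⟨q, hq2⟩ p h hp hq A hA y lam hmono hr hg'
    refine ⟨π, Z, h1, h2, ?_⟩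
    intro i I
    refine (h3 i I).trans ?_
    apply mul_le_mul_of_nonneg_right
    · have := hCqle ⟨q, hq2⟩
      linarith
    · split_ifs
      · have h4 : 0 < ∏ a, lam (I a) := Finset.prod_pos fun i _ => hpos _
        have h5 := hpos ⟨p - 1, by omega⟩
        have h6 := hpos ⟨p, by omega⟩
        positivity
      · exact (Finset.prod_pos fun i _ => hpos _).le

end Pool.Agent.SST
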