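import Pool.Agent.SST.BestTwo
import Pool.Agent.SST.SeqDefs

/-! A rational point away from the roots of a sequence of forms, at all places. -/

open MvPolynomial Filter Module
open scoped Topology

namespace Pool.Agent.SST

section GoodPointGen

variable {A : Type} [NormedField A]

/-- value at an integer -/
private lemma gp_ev (f : Fin 3 → ℤ) (q : ℤ) :
    ((f 0 * q ^ 2 + f 1 * q + f 2 : ℤ) : A) = evK f (((q : A)) : OnePoint A) := by
  change _ = (f 0 : A) * (q : A) ^ 2 + (f 1 : A) * (q : A) + (f 2 : A)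
  push_cast
  ring

private lemma gp_ne {f : Fin 3 → ℤ} (hirr : ¬ IsSquare (discq f)) (q : ℤ) :
    f 0 * q ^ 2 + f 1 * q + f 2 ≠ 0 := by
  intro h
  apply hirr
  refine ⟨2 * f 0 * q + f 1, ?_⟩
  unfold discq
  linear_combination (-4 * f 0) * h

/-- upper bound of the value -/
private lemma gp_upper (q : ℤ) : ∃ C : ℝ, 0 < C ∧ ∀ f : Fin 3 → ℤ,
    ‖((f 0 * q ^ 2 + f 1 * q + f 2 : ℤ) : A)‖ ≤ C * nf A f := by
  refine ⟨‖(q : A)‖ ^ 2 + ‖(q : A)‖ + 1, by positivity, fun f => ?_⟩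
  have h0 : ‖(f 0 : A)‖ ≤ nf A f := le_max_left _ _
  have h1 : ‖(f 1 : A)‖ ≤ nf A f := (le_max_left _ _).trans (le_max_right _ _)
  have h2 : ‖(f 2 : A)‖ ≤ nf A f := (le_max_right _ _).trans (le_max_right _ _)
  have e : ((f 0 * q ^ 2 + f 1 * q + f 2 : ℤ) : A) =
      (f 0 : A) * (q : A) ^ 2 + (f 1 : A) * (q : A) + (f 2 : A) := by push_cast; ring
  rw [e]
  calc ‖(f 0 : A) * (q : A) ^ 2 + (f 1 : A) * (q : A) + (f 2 : A)‖
      ≤ ‖(f 0 : A) * (q : A) ^ 2‖ + ‖(f 1 : A) * (q : A)‖ + ‖(f 2 : A)‖ := norm_add₃_le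
    _ = ‖(f 0 : A)‖ * ‖(q : A)‖ ^ 2 + ‖(f 1 : A)‖ * ‖(q : A)‖ + ‖(f 2 : A)‖ := by
        rw [norm_mul, norm_mul, norm_pow]
    _ ≤ nf A f * ‖(q : A)‖ ^ 2 + nf A f * ‖(q : A)‖ + nf A f := by
        have := mul_le_mul_of_nonneg_right h0 (pow_nonneg (norm_nonneg (q : A)) 2)
        have := mul_le_mul_of_nonneg_right h1 (norm_nonneg (q : A))
        linarith
    _ = (‖(q : A)‖ ^ 2 + ‖(q : A)‖ + 1) * nf A f := by ring

/-- a sequence bounded below which is not `o(h)` is at least `k h` -/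
private lemma gp_bad {U : Ultrafilter ℕ} {h : ℕ → ℝ} (hh : Tendsto h U atTop) (a : ℕ → ℝ)
    (C : ℝ) (hC : ∀ n, -C ≤ a n) (hbad : ¬ Tendsto (fun n => a n / h n) U (𝓝 0)) :
    ∃ k : ℝ, 0 < k ∧ ∀ᶠ n in (U : Filter ℕ), k * h n ≤ a n := by
  by_contra hcon
  push Not at hcon
  apply hbad
  rw [Metric.tendsto_nhds]
  intro ε hε
  have h1 : ∀ᶠ n in (U : Filter ℕ), a n < ε * h n := hcon ε hε
  filter_upwards [h1, hh.eventually_gt_atTop (|C| / ε), hh.eventually_gt_atTop 0] with n hn hn2 hn3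
  rw [Real.dist_eq, sub_zero, abs_lt]
  constructor
  · rw [lt_div_iff₀ hn3]
    rw [div_lt_iff₀ hε] at hn2
    have := hC n
    have := le_abs_self C
    linarith
  · rw [div_lt_iff₀ hn3]
    exact hn

private lemma gp_finite [CharZero A] {U : Ultrafilter ℕ} {h : ℕ → ℝ} (hh : Tendsto h U atTop)
    (F : ℕ → Fin 3 → ℤ) (hirr : ∀ n, ¬ IsSquare (discq (F n))) :
    {q : ℤ | ¬ Tendsto (fun n => (Real.log (nf A (F n)) -
        Real.log ‖((F n 0 * q ^ 2 + F n 1 * q + F n 2 : ℤ) : A)‖) / h n) U (𝓝 0)}.Finite := by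
  by_contra hinf
  obtain ⟨s, hs, hcard⟩ := (show Set.Infinite _ from hinf).exists_subset_card_eq 3
  obtain ⟨q1, q2, q3, h12, h13, h23, rfl⟩ := Finset.card_eq_three.1 hcard
  have hval : ∀ (n : ℕ) (q : ℤ), 0 < ‖((F n 0 * q ^ 2 + F n 1 * q + F n 2 : ℤ) : A)‖ := by
    intro n q
    rw [norm_pos_iff]
    exact Int.cast_ne_zero.2 (gp_ne (hirr n) q)
  have hnf : ∀ n, 0 < nf A (F n) := by
    intro n
    obtain ⟨C, hC, hCf⟩ := gp_upper (A := A) q1
    have h1 := hCf (F n)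
    have h2 := hval n q1
    by_contra hneg
    push Not at hneg
    have : C * nf A (F n) ≤ 0 := mul_nonpos_of_nonneg_of_nonpos hC.le hneg
    linarith
  have hk : ∀ q : ℤ, ¬ Tendsto (fun n => (Real.log (nf A (F n)) -
        Real.log ‖((F n 0 * q ^ 2 + F n 1 * q + F n 2 : ℤ) : A)‖) / h n) U (𝓝 0) →
      ∃ k : ℝ, 0 < k ∧ ∀ᶠ n in (U : Filter ℕ), k * h n ≤ Real.log (nf A (F n)) -
        Real.log ‖((F n 0 * q ^ 2 + F n 1 * q + F n 2 : ℤ) : A)‖ := by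
    intro q hq
    obtain ⟨C, hC, hCf⟩ := gp_upper (A := A) q
    refine gp_bad hh _ (Real.log C) ?_ hq
    intro n
    have h1 := Real.log_le_log (hval n q) (hCf (F n))
    rw [Real.log_mul hC.ne' (hnf n).ne'] at h1
    linarith
  obtain ⟨k1, hk1, e1⟩ := hk q1 (hs (by simp))
  obtain ⟨k2, hk2, e2⟩ := hk q2 (hs (by simp))
  obtain ⟨k3, hk3, e3⟩ := hk q3 (hs (by simp))
  have hinj : ∀ a b : ℤ, a ≠ b → (((a : A)) : OnePoint A) ≠ ((b : A)) := by
    intro a b hab h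
    exact hab (Int.cast_injective (OnePoint.coe_injective h))
  obtain ⟨C, hC, hCf⟩ := three_pointsA (hinj q1 q2 h12) (hinj q1 q3 h13) (hinj q2 q3 h23)
  obtain ⟨k, hkdef⟩ : ∃ k : ℝ, k = min k1 (min k2 k3) := ⟨_, rfl⟩
  have hkpos : 0 < k := hkdef ▸ lt_min hk1 (lt_min hk2 hk3)
  have hkk1 : k ≤ k1 := hkdef ▸ min_le_left _ _
  have hkk2 : k ≤ k2 := hkdef ▸ (min_le_right _ _).trans (min_le_left _ _)
  have hkk3 : k ≤ k3 := hkdef ▸ (min_le_right _ _).trans (min_le_right _ _)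
  have hev : ∀ᶠ n in (U : Filter ℕ), False := by
    filter_upwards [e1, e2, e3, hh.eventually_gt_atTop (Real.log C / k),
      hh.eventually_gt_atTop 0] with n f1 f2 f3 f4 f5
    have g1 : Real.log ‖((F n 0 * q1 ^ 2 + F n 1 * q1 + F n 2 : ℤ) : A)‖ ≤
        Real.log (nf A (F n)) - k * h n := by
      have := mul_le_mul_of_nonneg_right hkk1 f5.le
      linarith
    have g2 : Real.log ‖((F n 0 * q2 ^ 2 + F n 1 * q2 + F n 2 : ℤ) : A)‖ ≤
        Real.log (nf A (F n)) - k * h n := by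
      have := mul_le_mul_of_nonneg_right hkk2 f5.le
      linarith
    have g3 : Real.log ‖((F n 0 * q3 ^ 2 + F n 1 * q3 + F n 2 : ℤ) : A)‖ ≤
        Real.log (nf A (F n)) - k * h n := by
      have := mul_le_mul_of_nonneg_right hkk3 f5.le
      linarith
    have key := hCf (F n)
    rw [← gp_ev, ← gp_ev, ← gp_ev] at key
    have hexp : ∀ q : ℤ, Real.log ‖((F n 0 * q ^ 2 + F n 1 * q + F n 2 : ℤ) : A)‖ ≤
        Real.log (nf A (F n)) - k * h n →
        ‖((F n 0 * q ^ 2 + F n 1 * q + F n 2 : ℤ) : A)‖ ≤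
          Real.exp (Real.log (nf A (F n)) - k * h n) := by
      intro q hq
      rw [← Real.log_le_iff_le_exp (hval n q)]
      exact hq
    have hmax := max_le (hexp q1 g1) (max_le (hexp q2 g2) (hexp q3 g3))
    have h2 : nf A (F n) ≤ C * Real.exp (Real.log (nf A (F n)) - k * h n) :=
      key.trans (mul_le_mul_of_nonneg_left hmax hC.le)
    have h3 := Real.log_le_log (hnf n) h2
    rw [Real.log_mul hC.ne' (Real.exp_pos _).ne', Real.log_exp] at h3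
    rw [div_lt_iff₀ hkpos] at f4
    linarith
  exact (Filter.eventually_false_iff_eq_bot.1 hev) |> (Ultrafilter.neBot U).ne

end GoodPointGen

section Q

variable {T : Type} [Fintype T] [DecidableEq T] (p : T → ℕ) [∀ t, Fact (p t).Prime]

theorem exists_good_point {U : Ultrafilter ℕ} {h : ℕ → ℝ} (hh : Tendsto h U atTop)
    (F : ℕ → Fin 3 → ℤ) (hirr : ∀ n, ¬ IsSquare (discq (F n))) :
    ∃ q : ℤ, Tendsto (fun n => (Real.log (maxq (F n)) -
        Real.log |((F n 0 * q ^ 2 + F n 1 * q + F n 2 : ℤ) : ℝ)|) / h n) U (𝓝 0) ∧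
      ∀ t, Tendsto (fun n => (Real.log (nf ℂ_[p t] (F n)) -
        Real.log ‖((F n 0 * q ^ 2 + F n 1 * q + F n 2 : ℤ) : ℂ_[p t])‖) / h n) U (𝓝 0) := by
  have hfin : ({q : ℤ | ¬ Tendsto (fun n => (Real.log (nf ℂ (F n)) -
        Real.log ‖((F n 0 * q ^ 2 + F n 1 * q + F n 2 : ℤ) : ℂ)‖) / h n) U (𝓝 0)} ∪
      ⋃ t : T, {q : ℤ | ¬ Tendsto (fun n => (Real.log (nf ℂ_[p t] (F n)) -
        Real.log ‖((F n 0 * q ^ 2 + F n 1 * q + F n 2 : ℤ) : ℂ_[p t])‖) / h n) U (𝓝 0)}).Finite :=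
    (gp_finite hh F hirr).union (Set.finite_iUnion fun t => gp_finite hh F hirr)
  obtain ⟨q, hq⟩ := hfin.exists_notMem
  simp only [Set.mem_union, Set.mem_setOf_eq, Set.mem_iUnion, not_or, not_not, not_exists] at hq
  refine ⟨q, ?_, hq.2⟩
  refine hq.1.congr fun n => ?_
  rw [Complex.norm_intCast]
  congr 3
  have hnc : ∀ z : ℤ, ‖((z : ℤ) : ℂ)‖ = |(z : ℝ)| := fun z => Complex.norm_intCast z
  unfold nf maxq
  rw [hnc, hnc, hnc]

end Q

end Pool.Agent.SST
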