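import Pool.Agent.SST.SpecDefs
import Mathlib.NumberTheory.Height.NumberField

/-!
# The primitive quadratic polynomial and the height
-/

open NumberField

namespace Pool.Agent.SST

section Norm

variable (K : Type) [Field K]

/-- The algebraic integer `f 0 * x`. -/
theorem isIntegral_lead_mul (x : K) (f : Fin 3 → ℤ)
    (hf : (f 0 : K) * x ^ 2 + (f 1 : K) * x + (f 2 : K) = 0) : IsIntegral ℤ ((f 0 : K) * x) := by
  refine ⟨Polynomial.X ^ 2 + Polynomial.C (f 1) * Polynomial.X + Polynomial.C (f 0 * f 2), ?_, ?_⟩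
  · monicity!
  · rw [Polynomial.eval₂_add, Polynomial.eval₂_add, Polynomial.eval₂_mul, Polynomial.eval₂_pow,
      Polynomial.eval₂_X, Polynomial.eval₂_C, Polynomial.eval₂_C, eq_intCast, eq_intCast,
      Int.cast_mul]
    linear_combination (f 0 : K) * hf

variable [NumberField K]

/-- The norm of `x + t` in a quadratic field. -/
theorem norm_quad (hK : Module.finrank ℚ K = 2) (x : K)
    (hx : x ∉ Set.range (algebraMap ℚ K)) (p q t : ℚ)
    (hf : x ^ 2 + (p : K) * x + (q : K) = 0) :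
    Algebra.norm ℚ (x + (t : K)) = t ^ 2 - p * t + q := by
  have hli : LinearIndependent ℚ ![(1 : K), x] := by
    rw [LinearIndependent.pair_iff]
    intro s u hsu
    have hsu' : (s : K) + (u : K) * x = 0 := by
      rw [Algebra.smul_def, Algebra.smul_def, mul_one] at hsu
      simpa using hsu
    by_cases hu : u = 0
    · subst hu
      simp only [Rat.cast_zero, zero_mul, add_zero, Rat.cast_eq_zero] at hsu'
      exact ⟨hsu', rfl⟩
    · exfalso
      apply hx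
      refine ⟨-s / u, ?_⟩
      have hu' : (u : K) ≠ 0 := by exact_mod_cast hu
      have h1 : (algebraMap ℚ K) (-s / u) = -(s : K) / u := by simp
      rw [h1, div_eq_iff hu']
      linear_combination -hsu'
  have hcard : Fintype.card (Fin 2) = Module.finrank ℚ K := by rw [hK]; rfl
  let b := basisOfLinearIndependentOfCardEqFinrank hli hcard
  have hb : ∀ i, b i = ![(1 : K), x] i := fun i => by
    rw [show b = basisOfLinearIndependentOfCardEqFinrank hli hcard from rfl,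
      coe_basisOfLinearIndependentOfCardEqFinrank]
  have hb0 : b 0 = 1 := hb 0
  have hb1 : b 1 = x := hb 1
  have hM : Algebra.leftMulMatrix b (x + (t : K)) = !![t, -q; 1, t - p] := by
    have h0 : (x + (t : K)) * b 0 = t • b 0 + (1 : ℚ) • b 1 := by
      rw [hb0, hb1, Algebra.smul_def, Algebra.smul_def]
      simp only [eq_ratCast, Rat.cast_one]
      ring
    have h1 : (x + (t : K)) * b 1 = (-q) • b 0 + (t - p) • b 1 := by
      rw [hb0, hb1, Algebra.smul_def, Algebra.smul_def]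
      simp only [eq_ratCast, Rat.cast_neg, Rat.cast_sub]
      linear_combination hf
    ext i j
    rw [Algebra.leftMulMatrix_eq_repr_mul]
    fin_cases j
    · change b.repr ((x + (t : K)) * b 0) i = _
      rw [h0, map_add, map_smul, map_smul, b.repr_self, b.repr_self]
      fin_cases i <;> simp
    · change b.repr ((x + (t : K)) * b 1) i = _
      rw [h1, map_add, map_smul, map_smul, b.repr_self, b.repr_self]
      fin_cases i <;> simp
  rw [Algebra.norm_eq_matrix_det b, hM, Matrix.det_fin_two_of]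
  ring

/-- The leading coefficient does not vanish. -/
theorem lead_ne (x : K) (hx : x ∉ Set.range (algebraMap ℚ K)) (f : Fin 3 → ℤ)
    (hf : (f 0 : K) * x ^ 2 + (f 1 : K) * x + (f 2 : K) = 0)
    (hgcd : ∀ d : ℤ, (∀ i, d ∣ f i) → IsUnit d) : f 0 ≠ 0 := by
  intro h0
  rw [h0, Int.cast_zero, zero_mul, zero_add] at hf
  by_cases h1 : f 1 = 0
  · rw [h1, Int.cast_zero, zero_mul, zero_add, Int.cast_eq_zero] at hf
    have h2 := hgcd 2 (by
      intro i
      fin_cases i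
      · exact h0 ▸ dvd_zero _
      · exact h1 ▸ dvd_zero _
      · exact hf ▸ dvd_zero _)
    exact absurd h2 (by decide)
  · apply hx
    have h1' : (f 1 : K) ≠ 0 := by exact_mod_cast h1
    refine ⟨-(f 2 : ℚ) / (f 1 : ℚ), ?_⟩
    have h3 : (algebraMap ℚ K) (-(f 2 : ℚ) / (f 1 : ℚ)) = -(f 2 : K) / f 1 := by simp
    rw [h3, div_eq_iff h1']
    linear_combination -hf

end Norm

theorem maxq_le_height (K : Type) [Field K] [NumberField K] (hK : Module.finrank ℚ K = 2) (x : K)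
    (hx : x ∉ Set.range (algebraMap ℚ K)) (f : Fin 3 → ℤ)
    (hf : (f 0 : K) * x ^ 2 + (f 1 : K) * x + (f 2 : K) = 0)
    (hgcd : ∀ d : ℤ, (∀ i, d ∣ f i) → IsUnit d) :
    maxq f ≤ 4 * Height.mulHeight₁ x := by
  have h0 := lead_ne K x hx f hf hgcd
  have h0K : (f 0 : K) ≠ 0 := by exact_mod_cast h0
  have h0Q : (f 0 : ℚ) ≠ 0 := by exact_mod_cast h0
  set a : 𝓞 K := ⟨(f 0 : K) * x, isIntegral_lead_mul K x f hf⟩ with ha
  have haK : (a : K) = (f 0 : K) * x := rfl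
  -- norms
  have hnorm : ∀ t : ℤ, Algebra.norm ℤ (a + (t : 𝓞 K) * (f 0 : 𝓞 K)) =
      f 0 * (f 0 * t ^ 2 - f 1 * t + f 2) := by
    intro t
    have h1 : ((Algebra.norm ℤ (a + (t : 𝓞 K) * (f 0 : 𝓞 K)) : ℤ) : ℚ) =
        ((f 0 * (f 0 * t ^ 2 - f 1 * t + f 2) : ℤ) : ℚ) := by
      rw [Algebra.coe_norm_int]
      have h2 : ((a + (t : 𝓞 K) * (f 0 : 𝓞 K) : 𝓞 K) : K) =
          algebraMap ℚ K (f 0 : ℚ) * (x + ((t : ℚ) : K)) := by
        have h3 : ((a + (t : 𝓞 K) * (f 0 : 𝓞 K) : 𝓞 K) : K) =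
            (a : K) + ((t : 𝓞 K) : K) * ((f 0 : 𝓞 K) : K) := rfl
        have h4 : ∀ z : ℤ, ((z : 𝓞 K) : K) = (z : K) := fun z => by simp
        rw [h3, haK, h4, h4]
        simp only [eq_ratCast, Rat.cast_intCast]
        ring
      rw [h2, map_mul, Algebra.norm_algebraMap, hK,
        norm_quad K hK x hx ((f 1 : ℚ) / f 0) ((f 2 : ℚ) / f 0) t (by
          push_cast
          field_simp
          linear_combination hf)]
      push_cast
      field_simp
    exact_mod_cast h1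
  have hnorm0 : Algebra.norm ℤ ((f 0 : ℤ) : 𝓞 K) = f 0 ^ 2 := by
    have h1 : ((Algebra.norm ℤ ((f 0 : ℤ) : 𝓞 K) : ℤ) : ℚ) = ((f 0 ^ 2 : ℤ) : ℚ) := by
      rw [Algebra.coe_norm_int]
      have h2 : (((f 0 : ℤ) : 𝓞 K) : K) = algebraMap ℚ K (f 0 : ℚ) := by simp
      rw [h2, Algebra.norm_algebraMap, hK]
      push_cast
      rfl
    exact_mod_cast h1
  -- the norm of the ideal generated by `a` and `f 0` divides `f 0`
  set I : Ideal (𝓞 K) := Ideal.span (Set.range ![a, ((f 0 : ℤ) : 𝓞 K)]) with hI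
  have haI : a ∈ I := Ideal.subset_span ⟨0, rfl⟩
  have hfI : ((f 0 : ℤ) : 𝓞 K) ∈ I := Ideal.subset_span ⟨1, rfl⟩
  have hdvd : ∀ t : ℤ, ((Ideal.absNorm I : ℕ) : ℤ) ∣ f 0 * (f 0 * t ^ 2 - f 1 * t + f 2) := by
    intro t
    rw [← hnorm t]
    exact Ideal.absNorm_dvd_norm_of_mem (I.add_mem haI (I.mul_mem_left _ hfI))
  have hd0 : ((Ideal.absNorm I : ℕ) : ℤ) ∣ f 0 ^ 2 := by
    rw [← hnorm0]
    exact Ideal.absNorm_dvd_norm_of_mem hfI
  have hd2 : ((Ideal.absNorm I : ℕ) : ℤ) ∣ f 0 * f 2 := by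
    have h1 := hdvd 0
    rwa [show f 0 * (f 0 * 0 ^ 2 - f 1 * 0 + f 2) = f 0 * f 2 by ring] at h1
  have hd1 : ((Ideal.absNorm I : ℕ) : ℤ) ∣ f 0 * f 1 := by
    have h1 := dvd_sub (dvd_add hd0 hd2) (hdvd 1)
    rwa [show f 0 ^ 2 + f 0 * f 2 - f 0 * (f 0 * 1 ^ 2 - f 1 * 1 + f 2) = f 0 * f 1 by ring] at h1
  have hN : ((Ideal.absNorm I : ℕ) : ℤ) ∣ f 0 := by
    have hg : ((Int.gcd (f 0) (Int.gcd (f 1) (f 2)) : ℕ) : ℤ) = 1 := by
      have h1 := hgcd (Int.gcd (f 0) (Int.gcd (f 1) (f 2)) : ℕ) (by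
        intro i
        fin_cases i
        · exact Int.gcd_dvd_left _ _
        · exact (Int.gcd_dvd_right _ _).trans (Int.gcd_dvd_left _ _)
        · exact (Int.gcd_dvd_right _ _).trans (Int.gcd_dvd_right _ _))
      rcases Int.isUnit_iff.1 h1 with h | h <;> omega
    have h2 := Int.gcd_eq_gcd_ab (f 0) (Int.gcd (f 1) (f 2) : ℕ)
    have h3 := Int.gcd_eq_gcd_ab (f 1) (f 2)
    rw [hg] at h2
    set A := Int.gcdA (f 0) (Int.gcd (f 1) (f 2) : ℕ)
    set B := Int.gcdB (f 0) (Int.gcd (f 1) (f 2) : ℕ)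
    rw [h3] at h2
    set A' := Int.gcdA (f 1) (f 2)
    set B' := Int.gcdB (f 1) (f 2)
    have h4 : f 0 = f 0 ^ 2 * A + f 0 * f 1 * (A' * B) + f 0 * f 2 * (B' * B) := by
      linear_combination (f 0) * h2
    rw [h4]
    exact dvd_add (dvd_add (hd0.mul_right _) (hd1.mul_right _)) (hd2.mul_right _)
  have hNle : (Ideal.absNorm I : ℝ) ≤ |(f 0 : ℝ)| := by
    have h1 := Int.le_of_dvd (abs_pos.2 h0) ((dvd_abs _ _).2 hN)
    exact_mod_cast h1
  -- the height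
  have hne : (![a, ((f 0 : ℤ) : 𝓞 K)] : Fin 2 → 𝓞 K) ≠ 0 := by
    intro h
    have h1 := congrFun h 1
    have h2 : ((f 0 : ℤ) : 𝓞 K) = 0 := h1
    exact h0 (by exact_mod_cast h2)
  have hfin := absNorm_mul_finprod_finitePlace_eq_one hne
  rw [← hI] at hfin
  have hcoe : (fun i => ((![a, ((f 0 : ℤ) : 𝓞 K)] i : 𝓞 K) : K)) = ![(f 0 : K) * x, (f 0 : K)] := by
    funext i
    fin_cases i
    · rfl
    · change (((f 0 : ℤ) : 𝓞 K) : K) = (f 0 : K)
      simp
  have hne' : (![(f 0 : K) * x, (f 0 : K)] : Fin 2 → K) ≠ 0 := by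
    intro h
    exact h0K (congrFun h 1)
  have hH : Height.mulHeight₁ x = Height.mulHeight ![(f 0 : K) * x, (f 0 : K)] := by
    rw [← Height.mulHeight₁_div_eq_mulHeight, mul_div_cancel_left₀ _ h0K]
  rw [mulHeight_eq hne'] at hH
  have hfin' : (Ideal.absNorm I : ℝ) *
      ∏ᶠ v : FinitePlace K, ⨆ i, v (![(f 0 : K) * x, (f 0 : K)] i) = 1 := by
    rw [← hcoe]
    exact hfin
  set P : ℝ := ∏ v : InfinitePlace K, (⨆ i, v (![(f 0 : K) * x, (f 0 : K)] i)) ^ v.mult with hP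
  set Q : ℝ := ∏ᶠ v : FinitePlace K, ⨆ i, v (![(f 0 : K) * x, (f 0 : K)] i) with hQ
  have hPH : P = Ideal.absNorm I * Height.mulHeight₁ x := by
    rw [hH]
    linear_combination -P * hfin'
  have hHpos : 0 < Height.mulHeight₁ x := Height.mulHeight₁_pos x
  have hPle : P ≤ |(f 0 : ℝ)| * Height.mulHeight₁ x := by
    rw [hPH]
    exact mul_le_mul_of_nonneg_right hNle hHpos.le
  -- the infinite part
  have hsup : ∀ v : InfinitePlace K, v ((f 0 : K) * x) ≤ ⨆ i, v (![(f 0 : K) * x, (f 0 : K)] i) ∧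
      v (f 0 : K) ≤ ⨆ i, v (![(f 0 : K) * x, (f 0 : K)] i) := by
    intro v
    have hb : BddAbove (Set.range fun i => v (![(f 0 : K) * x, (f 0 : K)] i)) :=
      Set.Finite.bddAbove (Set.finite_range _)
    exact ⟨le_ciSup hb 0, le_ciSup hb 1⟩
  have hmul : ∀ (y : K) (c : ℝ), 0 ≤ c →
      (∀ v : InfinitePlace K, v y ≤ c * ⨆ i, v (![(f 0 : K) * x, (f 0 : K)] i)) →
      |((Algebra.norm ℚ y : ℚ) : ℝ)| ≤ c ^ 2 * P := by
    intro y c hc h
    have h1 := InfinitePlace.prod_eq_abs_norm y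
    have h2 : ∏ v : InfinitePlace K, v y ^ v.mult ≤
        ∏ v : InfinitePlace K, (c * ⨆ i, v (![(f 0 : K) * x, (f 0 : K)] i)) ^ v.mult :=
      Finset.prod_le_prod (fun v _ => pow_nonneg (apply_nonneg v y) _)
        (fun v _ => pow_le_pow_left₀ (apply_nonneg v y) (h v) _)
    have h3 : ∏ v : InfinitePlace K, (c * ⨆ i, v (![(f 0 : K) * x, (f 0 : K)] i)) ^ v.mult =
        c ^ 2 * P := by
      simp_rw [mul_pow]
      rw [Finset.prod_mul_distrib, Finset.prod_pow_eq_pow_sum, InfinitePlace.sum_mult_eq, hK]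
    rw [h1, h3] at h2
    exact_mod_cast h2
  have hcast : ∀ z : ℤ, ((z : 𝓞 K) : K) = (z : K) := fun z => by simp
  have hnQ : ∀ t : ℤ, Algebra.norm ℚ ((f 0 : K) * x + (t : K) * (f 0 : K)) =
      ((f 0 * (f 0 * t ^ 2 - f 1 * t + f 2) : ℤ) : ℚ) := by
    intro t
    rw [← hnorm t, Algebra.coe_norm_int]
    have h3 : ((a + (t : 𝓞 K) * (f 0 : 𝓞 K) : 𝓞 K) : K) =
        (a : K) + ((t : 𝓞 K) : K) * ((f 0 : 𝓞 K) : K) := rfl
    rw [h3, haK, hcast, hcast]
  have hnQ0 : Algebra.norm ℚ (f 0 : K) = ((f 0 ^ 2 : ℤ) : ℚ) := by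
    rw [← hnorm0, Algebra.coe_norm_int, hcast]
  have b0 : |(f 0 : ℝ)| * |(f 0 : ℝ)| ≤ P := by
    have h1 := hmul (f 0 : K) 1 zero_le_one (fun v => by
      rw [one_mul]
      exact (hsup v).2)
    rw [hnQ0] at h1
    push_cast at h1
    rw [abs_pow, one_pow, one_mul] at h1
    linarith [sq |(f 0 : ℝ)|]
  have bt : ∀ t : ℤ, |(f 0 : ℝ)| * |(f 0 : ℝ) * t ^ 2 - f 1 * t + f 2| ≤ (1 + |(t : ℝ)|) ^ 2 * P := by
    intro t
    have h1 := hmul ((f 0 : K) * x + (t : K) * (f 0 : K)) (1 + |(t : ℝ)|) (by positivity)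
      (fun v => by
        have h2 : v ((f 0 : K) * x + (t : K) * (f 0 : K)) ≤
            v ((f 0 : K) * x) + v ((t : K) * (f 0 : K)) := v.1.add_le _ _
        have h3 : v ((t : K) * (f 0 : K)) = |(t : ℝ)| * v (f 0 : K) := by
          rw [map_mul]
          congr 1
          have h4 : v (((t : ℚ) : K)) = |((t : ℚ) : ℝ)| := by
            simp [Int.norm_eq_abs]
          simpa using h4
        have h5 := hsup v
        rw [h3] at h2
        nlinarith [abs_nonneg (t : ℝ), h5.1, mul_le_mul_of_nonneg_left h5.2 (abs_nonneg (t : ℝ))])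
    rw [hnQ] at h1
    push_cast at h1
    rwa [abs_mul] at h1
  have h00 : 0 < |(f 0 : ℝ)| := abs_pos.2 (by exact_mod_cast h0)
  have hP0 : 0 ≤ P := le_trans (by positivity) b0
  have b2 : |(f 0 : ℝ)| * |(f 2 : ℝ)| ≤ P := by
    have h1 := bt 0
    simpa using h1
  have b1 : |(f 0 : ℝ)| * |(f 1 : ℝ)| ≤ 4 * P := by
    have h1 := bt 1
    have h2 := bt (-1)
    have h3 : |(2 : ℝ) * f 1| ≤ |(f 0 : ℝ) * ((1 : ℤ) : ℝ) ^ 2 - f 1 * ((1 : ℤ) : ℝ) + f 2| +
        |(f 0 : ℝ) * ((-1 : ℤ) : ℝ) ^ 2 - f 1 * ((-1 : ℤ) : ℝ) + f 2| := by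
      rw [show (2 : ℝ) * f 1 = -((f 0 : ℝ) * ((1 : ℤ) : ℝ) ^ 2 - f 1 * ((1 : ℤ) : ℝ) + f 2) +
        ((f 0 : ℝ) * ((-1 : ℤ) : ℝ) ^ 2 - f 1 * ((-1 : ℤ) : ℝ) + f 2) by push_cast; ring]
      refine (abs_add_le _ _).trans ?_
      rw [abs_neg]
    have h4 : |(2 : ℝ) * f 1| = 2 * |(f 1 : ℝ)| := by
      rw [abs_mul, abs_of_pos (by norm_num : (0 : ℝ) < 2)]
    rw [h4] at h3
    have h5 : (1 + |((1 : ℤ) : ℝ)|) ^ 2 = 4 := by norm_num
    have h6 : (1 + |((-1 : ℤ) : ℝ)|) ^ 2 = 4 := by norm_num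
    rw [h5] at h1
    rw [h6] at h2
    nlinarith [mul_le_mul_of_nonneg_left h3 h00.le]
  have hfinal : |(f 0 : ℝ)| * maxq f ≤ |(f 0 : ℝ)| * (4 * Height.mulHeight₁ x) := by
    have h1 : |(f 0 : ℝ)| * maxq f ≤ 4 * P := by
      unfold maxq
      rw [mul_max_of_nonneg _ _ h00.le, mul_max_of_nonneg _ _ h00.le]
      refine max_le ?_ (max_le b1 ?_)
      · linarith
      · linarith
    nlinarith
  exact le_of_mul_le_mul_left hfinal h00

end Pool.Agent.SST
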