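import Pool.Agent.SST.SmallAux
import Pool.Agent.SST.Liouville

/-! Normal vectors of small height are constant along the ultrafilter (MP_6f1c57_nt). -/

open Filter

namespace Pool.Agent.SST

theorem small_height {S : Type} [Fintype S] (K : S → Type) [∀ s, Field (K s)]
    [∀ s, NumberField (K s)] (v : ∀ s, AbsoluteValue (K s) ℝ) (hv : GoodPlaces K v)
    {ι : Type} [Fintype ι] [DecidableEq ι] (L : ∀ s, Matrix ι ι (K s)) (hL : ∀ s, (L s).det ≠ 0)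
    (e : S → ι → ℝ) (hneg : ∑ s, ∑ J, e s J < 0) {X : Type} (𝒰 : Ultrafilter X) (n : X → ℕ)
    (Z : X → Fin (Fintype.card ι - 1) → ι → ℤ) (b : X → ι → ℤ)
    (hd : HypData K v L e 𝒰 n Z b)
    (hsmall : ∀ ε : ℝ, 0 < ε → ∀ᶠ a in (𝒰 : Filter X), ∀ J, |((b a J : ℤ) : ℝ)| ≤
      Real.exp (n a * ε)) :
    ∃ b₀ : ι → ℤ, b₀ ≠ 0 ∧ ∀ᶠ a in (𝒰 : Filter X), ∃ t : ℚ, ∀ J, (b a J : ℚ) = t * (b₀ J : ℚ) :=
  small_height_aux K v hv L hL (fun s J => liouville_lin K v hv s fun J' => (L s)⁻¹ J' J)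
    e hneg 𝒰 n Z b hd hsmall

end Pool.Agent.SST
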