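import Pool.Agent.SST.SpecDefs
import Pool.Agent.SST.AuxZ
import Pool.Agent.SST.Core
import Pool.Agent.SST.Small

/-! The hyperplane is constant along the ultrafilter. -/

open MvPolynomial Filter

namespace Pool.Agent.SST

namespace Hyper

open Height

variable {ι : Type} [Fintype ι] [DecidableEq ι]

/-- A family of rational numbers multiplied by the product of the denominators. -/
noncomputable def clear (q : ι → ℚ) (J : ι) : ℤ :=
  (q J).num * ∏ J' ∈ Finset.univ.erase J, ((q J').den : ℤ)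

/-- The product of the denominators. -/
noncomputable def dprod (q : ι → ℚ) : ℚ := ∏ J, ((q J).den : ℚ)

omit [DecidableEq ι] in
theorem dprod_ne (q : ι → ℚ) : dprod q ≠ 0 :=
  Finset.prod_ne_zero_iff.2 fun J _ => Nat.cast_ne_zero.2 (q J).den_ne_zero

theorem clear_eq (q : ι → ℚ) (J : ι) : (clear q J : ℚ) = dprod q * q J := by
  unfold clear dprod
  rw [← Finset.mul_prod_erase Finset.univ _ (Finset.mem_univ J)]
  push_cast
  have h : ((q J).num : ℚ) = (q J).den * q J := by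
    rw [mul_comm]
    exact (Rat.mul_den_eq_num (q J)).symm
  rw [h]
  ring

theorem exp_logHeight (x : ℚ) : Real.exp (logHeight₁ x) = max (x.num.natAbs : ℝ) (x.den : ℝ) := by
  rw [Rat.logHeight₁_eq_log_max, Real.exp_log]
  · push_cast
    rfl
  · have : 0 < max x.num.natAbs x.den := lt_max_of_lt_right x.den_pos
    exact_mod_cast this

theorem clear_le (q : ι → ℚ) (J : ι) :
    |((clear q J : ℤ) : ℝ)| ≤ Real.exp (∑ J', logHeight₁ (q J')) := by
  rw [Real.exp_sum, ← Finset.mul_prod_erase Finset.univ _ (Finset.mem_univ J)]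
  unfold clear
  push_cast
  rw [abs_mul, Finset.abs_prod]
  refine mul_le_mul ?_ ?_ (Finset.prod_nonneg fun _ _ => abs_nonneg _) (Real.exp_pos _).le
  · rw [exp_logHeight]
    refine le_trans (le_of_eq ?_) (le_max_left _ _)
    rw [Nat.cast_natAbs, Int.cast_abs]
  · refine Finset.prod_le_prod (fun _ _ => abs_nonneg _) fun J' _ => ?_
    rw [exp_logHeight, abs_of_nonneg (Nat.cast_nonneg _)]
    exact le_max_right _ _

end Hyper

open Hyper Height

theorem hyperplane_const {S : Type} [Fintype S] (K : S → Type) [∀ s, Field (K s)]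
    [∀ s, NumberField (K s)] (v : ∀ s, AbsoluteValue (K s) ℝ) (hv : GoodPlaces K v)
    {ι : Type} [Fintype ι] [DecidableEq ι] (L : ∀ s, Matrix ι ι (K s)) (hL : ∀ s, (L s).det ≠ 0)
    (e : S → ι → ℝ) (hneg : ∑ s, ∑ J, e s J < 0) {X : Type} (𝒰 : Ultrafilter X) (n : X → ℕ)
    (Z : X → Fin (Fintype.card ι - 1) → ι → ℤ) (w : X → ι → ℤ)
    (hd : HypData K v L e 𝒰 n Z w) :
    ∃ b₀ : ι → ℤ, b₀ ≠ 0 ∧ ∀ᶠ a in (𝒰 : Filter X), ∃ t : ℚ, ∀ J, (w a J : ℚ) = t * (b₀ J : ℚ) := by
  -- a coordinate which does not vanish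
  obtain ⟨J₂, hJ₂⟩ : ∃ J₂, ∀ᶠ a in (𝒰 : Filter X), w a J₂ ≠ 0 := by
    by_contra hcon
    push Not at hcon
    have h1 : ∀ᶠ a in (𝒰 : Filter X), ∀ J, w a J = 0 := by
      rw [eventually_all]
      exact hcon
    obtain ⟨a, ha1, ha2⟩ := (h1.and hd.ne).exists
    exact ha2 (funext ha1)
  have : Nonempty ι := ⟨J₂⟩
  -- the heights of the ratios are small
  have hsmall : ∀ J, ∀ ε : ℝ, 0 < ε → ∀ᶠ a in (𝒰 : Filter X),
      logHeight₁ ((w a J : ℚ) / (w a J₂ : ℚ)) ≤ n a * ε := by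
    intro J ε hε
    by_contra hcon
    rw [← Ultrafilter.eventually_not] at hcon
    have hlt : ∀ᶠ a in (𝒰 : Filter X), n a * ε < logHeight₁ ((w a J : ℚ) / (w a J₂ : ℚ)) := by
      filter_upwards [hcon] with a ha
      exact not_le.1 ha
    have hJJ : J ≠ J₂ := by
      rintro rfl
      obtain ⟨a, ha1, ha2⟩ := (hlt.and hJ₂).exists
      rw [div_self (Int.cast_ne_zero.2 ha2), Height.logHeight₁_one] at ha1
      exact absurd ha1 (not_lt.2 (by positivity))
    refine core K v hv (auxZ K ι) L hL e hneg J J₂ hJJ ε hε fun ε' hε' n₀ => ?_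
    obtain ⟨a, ⟨⟨⟨⟨⟨ha1, ha2⟩, ha3⟩, ha4⟩, ha5⟩, ha6⟩⟩ :=
      (((((hlt.and hJ₂).and hd.ind).and (hd.bound ε' hε')).and hd.orth).and
        (hd.tends.eventually_ge_atTop n₀)).exists
    refine ⟨n a, ha6, Z a, ha3, ha4, w a, ha5, ?_, ha2, ha1.le⟩
    intro h0
    rw [h0, Int.cast_zero, zero_div, Height.logHeight₁_zero] at ha1
    exact absurd ha1 (not_lt.2 (by positivity))
  -- the primitive vectors
  let q : X → ι → ℚ := fun a J => (w a J : ℚ) / (w a J₂ : ℚ)
  let b : X → ι → ℤ := fun a => clear (q a)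
  have hb : ∀ a J, (b a J : ℚ) = dprod (q a) * q a J := fun a J => clear_eq _ _
  have hdb : HypData K v L e 𝒰 n Z b := by
    refine ⟨hd.tends, hd.ind, hd.bound, ?_, ?_⟩
    · filter_upwards [hJ₂] with a ha
      intro h0
      have h1 := hb a J₂
      rw [h0] at h1
      have h2 : q a J₂ = 1 := div_self (Int.cast_ne_zero.2 ha)
      rw [h2, mul_one, Pi.zero_apply, Int.cast_zero] at h1
      exact dprod_ne _ h1.symm
    · filter_upwards [hd.orth] with a ha
      intro i
      have h1 : ((∑ J, b a J * Z a i J : ℤ) : ℚ) = dprod (q a) / (w a J₂ : ℚ) *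
          ((∑ J, w a J * Z a i J : ℤ) : ℚ) := by
        push_cast
        rw [Finset.mul_sum]
        refine Finset.sum_congr rfl fun J _ => ?_
        rw [hb]
        simp only [q]
        ring
      rw [ha i, Int.cast_zero, mul_zero] at h1
      exact_mod_cast h1
  have hbs : ∀ ε : ℝ, 0 < ε → ∀ᶠ a in (𝒰 : Filter X), ∀ J, |((b a J : ℤ) : ℝ)| ≤
      Real.exp (n a * ε) := by
    intro ε hε
    have hc : (0 : ℝ) < Fintype.card ι := by exact_mod_cast Fintype.card_pos
    have h1 : ∀ᶠ a in (𝒰 : Filter X), ∀ J, logHeight₁ (q a J) ≤ n a * (ε / Fintype.card ι) := by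
      rw [eventually_all]
      exact fun J => hsmall J _ (div_pos hε hc)
    filter_upwards [h1] with a ha J
    refine (clear_le (q a) J).trans (Real.exp_le_exp.2 ?_)
    calc ∑ J', logHeight₁ (q a J') ≤ ∑ _J' : ι, n a * (ε / Fintype.card ι) :=
          Finset.sum_le_sum fun J' _ => ha J'
      _ = n a * ε := by
        rw [Finset.sum_const, Finset.card_univ, nsmul_eq_mul]
        field_simp
  obtain ⟨b₀, hb₀, hev⟩ := small_height K v hv L hL e hneg 𝒰 n Z b hdb hbs
  refine ⟨b₀, hb₀, ?_⟩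
  filter_upwards [hev, hJ₂] with a ha hwa
  obtain ⟨t, ht⟩ := ha
  refine ⟨(w a J₂ : ℚ) / dprod (q a) * t, fun J => ?_⟩
  have h1 := hb a J
  rw [ht J] at h1
  have h2 : (w a J₂ : ℚ) ≠ 0 := Int.cast_ne_zero.2 hwa
  have h3 : dprod (q a) ≠ 0 := dprod_ne _
  rw [mul_assoc, h1, ← mul_assoc, div_mul_cancel₀ _ h3]
  exact (mul_div_cancel₀ _ h2).symm

end Pool.Agent.SST
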