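import Pool.Agent.SST.NormSys
import Pool.Agent.SST.Schlick

/-! The product formula in the limit. -/

open MvPolynomial Filter Module
open scoped Topology BigOperators

namespace Pool.Agent.SST

section Q

variable {T : Type} [Fintype T] [DecidableEq T] (p : T → ℕ) [∀ t, Fact (p t).Prime]

omit [Fintype T] [DecidableEq T] in
theorem placesQ_none (ι : Qb →+* ℂ) (ι' : ∀ t, Qb →+* ℂ_[p t]) (Z : ℤ) :
    placesQ p ι ι' none (Z : Qb) = |(Z : ℝ)| := by
  show ‖ι (Z : Qb)‖ = |(Z : ℝ)|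
  rw [map_intCast, Complex.norm_intCast]

omit [Fintype T] [DecidableEq T] in
theorem placesQ_some (ι : Qb →+* ℂ) (ι' : ∀ t, Qb →+* ℂ_[p t]) (t : T) (Z : ℤ) :
    placesQ p ι ι' (some t) (Z : Qb) = ‖((Z : ℤ) : ℚ_[p t])‖ := by
  show ‖ι' t (Z : Qb)‖ = _
  rw [map_intCast]
  have h1 : ((Z : ℚ_[p t]) : ℂ_[p t]) = (Z : ℂ_[p t]) := by
    have := map_intCast (algebraMap ℚ_[p t] ℂ_[p t]) Z
    exact this
  rw [← h1, PadicComplex.norm_extends']

theorem sum_log_placesQ_nonneg (hp : Function.Injective p) (ι : Qb →+* ℂ)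
    (ι' : ∀ t, Qb →+* ℂ_[p t]) (Z : ℤ) (hZ : Z ≠ 0) :
    0 ≤ ∑ l, Real.log (placesQ p ι ι' l (Z : Qb)) := by
  rw [Fintype.sum_option, placesQ_none]
  simp only [placesQ_some]
  have h1 := sk_prod_ge p hp Z hZ
  have h2 : ∀ t, ‖((Z : ℤ) : ℚ_[p t])‖ ≠ 0 := fun t => by
    rw [norm_ne_zero_iff]
    exact_mod_cast hZ
  have h3 : |(Z : ℝ)| ≠ 0 := by
    rw [abs_ne_zero]
    exact_mod_cast hZ
  rw [← Real.log_prod (fun t _ => h2 t), ← Real.log_mul h3 (Finset.prod_ne_zero_iff.2 fun t _ => h2 t)]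
  exact Real.log_nonneg h1

theorem liou_lim (hp : Function.Injective p) (ι : Qb →+* ℂ) (ι' : ∀ t, Qb →+* ℂ_[p t])
    {U : Ultrafilter ℕ} {h : ℕ → ℝ} {f : ℕ → Fin 3 → ℤ} (hs : SeqData p U h f)
    {𝓕 : Type} [Field 𝓕] [Algebra Qb 𝓕] {b : Fin 2 → 𝓕} {g : MvPolynomial (Fin 2) Qb}
    (hC : CurveField b g)
    (hker : ∀ P : MvPolynomial (Fin 2) Qb, aeval b P = 0 ↔
      ∀ᶠ n in (U : Filter ℕ), aeval (bsq (f n)) P = 0)
    (w' : Option T → (Qb ≃+* Qb) → AbsoluteValue 𝓕 ℝ)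
    (hlim' : ∀ l (γ : Qb ≃+* Qb), LimRel U h (fun n => bsq (f n)) b
      ((placesQ p ι ι' l).comp (f := (γ : Qb →+* Qb)) γ.injective) (w' l γ)) (N : ℕ)
    (P : MvPolynomial (Fin 2) Qb) (hPN : P.totalDegree ≤ N) (hP : aeval b P ≠ 0) :
    ∃ (e : ℕ) (s : Fin e → (Qb ≃+* Qb)), 0 < e ∧
      ∑ l, ∑ j, -Real.log (w' l (s j) (aeval b P)) ≤ e * (1 * N) := by
  obtain ⟨M, e, s, hM0, he, -, hZ⟩ := norm_system P N hPN
  refine ⟨e, s, he, ?_⟩
  have hne : ∀ᶠ n in (U : Filter ℕ), aeval (bsq (f n)) P ≠ 0 :=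
    Ultrafilter.eventually_not.2 fun h0 => hP ((hker P).2 h0)
  have hpos : ∀ᶠ n in (U : Filter ℕ), 0 < h n := hs.tend.eventually_gt_atTop 0
  -- limits of the local terms
  let lam : Option T → ℝ := fun l => match l with
    | none => 1
    | some _ => 0
  have hlam : ∀ l, Tendsto (fun n => Real.log (placesQ p ι ι' l ((f n 0 : ℤ) : Qb)) / h n) U
      (𝓝 (lam l)) := by
    intro l
    rcases l with _ | t
    · simp only [placesQ_none]
      exact hs.lim0
    · simp only [placesQ_some]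
      exact hs.limt t
  have hMlim : ∀ l, Tendsto (fun n => Real.log (placesQ p ι ι' l ((M : ℤ) : Qb)) / h n) U
      (𝓝 0) := fun l => Tendsto.div_atTop tendsto_const_nhds hs.tend
  have hterm : ∀ l j, Tendsto (fun n => Real.log (placesQ p ι ι' l
      (s j ((M : Qb) * (f n 0 : Qb) ^ N * aeval (bsq (f n)) P))) / h n) U
      (𝓝 (0 + N * lam l + Real.log (w' l (s j) (aeval b P)))) := by
    intro l j
    refine (((hMlim l).add ((hlam l).const_mul (N : ℝ))).add (hlim' l (s j) P hP)).congr' ?_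
    filter_upwards [hne] with n hn
    have h1 : (placesQ p ι ι' l) ((M : ℤ) : Qb) ≠ 0 :=
      (placesQ p ι ι' l).ne_zero (by exact_mod_cast hM0)
    have h2 : (placesQ p ι ι' l) ((f n 0 : ℤ) : Qb) ≠ 0 :=
      (placesQ p ι ι' l).ne_zero (by exact_mod_cast hs.ne n)
    have h3 : (placesQ p ι ι' l) (s j (aeval (bsq (f n)) P)) ≠ 0 :=
      (placesQ p ι ι' l).ne_zero (by rw [Ne, map_eq_zero_iff _ (s j).injective]; exact hn)
    rw [map_mul (s j), map_mul (s j), map_pow (s j), map_intCast (s j), map_intCast (s j), map_mul, map_mul,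
      map_pow, Real.log_mul (mul_ne_zero h1 (pow_ne_zero _ h2)) h3,
      Real.log_mul h1 (pow_ne_zero _ h2), Real.log_pow]
    have h4 : ((placesQ p ι ι' l).comp (f := (s j : Qb →+* Qb)) (s j).injective)
        (aeval (bsq (f n)) P) = placesQ p ι ι' l (s j (aeval (bsq (f n)) P)) := rfl
    rw [h4]
    ring
  have htot := tendsto_finsetSum Finset.univ fun l (_ : l ∈ Finset.univ) =>
    tendsto_finsetSum Finset.univ fun j (_ : j ∈ Finset.univ) => hterm l j
  have hge : 0 ≤ ∑ l, ∑ j, (0 + N * lam l + Real.log (w' l (s j) (aeval b P))) := by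
    refine ge_of_tendsto htot ?_
    filter_upwards [hne, hpos] with n hn hn0
    obtain ⟨Z, hZn⟩ := hZ (f n) (hs.ne n)
    have hz0 : (M : Qb) * (f n 0 : Qb) ^ N * aeval (bsq (f n)) P ≠ 0 := by
      refine mul_ne_zero (mul_ne_zero (by exact_mod_cast hM0)
        (pow_ne_zero _ (by exact_mod_cast hs.ne n))) hn
    have hZ0 : Z ≠ 0 := by
      intro h0
      rw [h0, Int.cast_zero, Finset.prod_eq_zero_iff] at hZn
      obtain ⟨j, -, hj⟩ := hZn
      rw [map_eq_zero_iff _ (s j).injective] at hj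
      exact hz0 hj
    have h5 : ∀ l, ∑ j, Real.log (placesQ p ι ι' l
        (s j ((M : Qb) * (f n 0 : Qb) ^ N * aeval (bsq (f n)) P))) / h n =
        Real.log (placesQ p ι ι' l (Z : Qb)) / h n := by
      intro l
      rw [← Finset.sum_div, ← hZn, map_prod, Real.log_prod]
      intro j _
      exact (placesQ p ι ι' l).ne_zero (by rw [Ne, map_eq_zero_iff _ (s j).injective]; exact hz0)
    rw [Finset.sum_congr rfl fun l _ => h5 l, ← Finset.sum_div]
    exact div_nonneg (sum_log_placesQ_nonneg p hp ι ι' Z hZ0) hn0.le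
  have h6 : ∑ l, ∑ j, (0 + N * lam l + Real.log (w' l (s j) (aeval b P))) =
      (e : ℝ) * N + ∑ l, ∑ j, Real.log (w' l (s j) (aeval b P)) := by
    simp only [zero_add, Finset.sum_add_distrib, Finset.sum_const, Finset.card_univ,
      Fintype.card_fin, nsmul_eq_mul]
    congr 1
    rw [Fintype.sum_option]
    simp [lam]
  rw [h6] at hge
  simp only [Finset.sum_neg_distrib]
  linarith

end Q

end Pool.Agent.SST
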