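import Pool.Agent.SST.SchlickC
import Pool.Agent.SST.TwoSAux
import Pool.Agent.SST.SeqDefs
import Mathlib.RingTheory.Polynomial.Basic
import Mathlib.LinearAlgebra.Matrix.ToLinearEquiv

/-! P43: the limit form of Schlickewei's theorem for the functions of bounded degree on a curve. -/

open MvPolynomial Filter Module
open scoped Topology

namespace Pool.Agent.SST

section Alg

variable {κ 𝓕 : Type} [Field κ] [Field 𝓕] [Algebra κ 𝓕]

theorem sublim_sum_eq (e : Fin 2 →₀ ℕ) : (e.sum fun _ x => x) = e 0 + e 1 := by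
  rw [Finsupp.sum_fintype _ _ (fun _ => rfl), Fin.sum_univ_two]

theorem sublim_aeval_monomial (b : Fin 2 → 𝓕) (e : Fin 2 →₀ ℕ) :
    aeval b (monomial e (1 : κ)) = b 0 ^ e 0 * b 1 ^ e 1 := by
  rw [aeval_monomial, map_one, one_mul, Finsupp.prod_fintype _ _ (fun i => pow_zero _),
    Fin.prod_univ_two]

theorem sublim_mem_span (b : Fin 2 → 𝓕) (N : ℕ) (P : MvPolynomial (Fin 2) κ)
    (hP : P.totalDegree ≤ N) :
    aeval b P ∈ Submodule.span κ
      ((fun e : Fin 2 →₀ ℕ => aeval b (monomial e (1 : κ))) '' {e | e 0 + e 1 ≤ N}) := by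
  have h1 : aeval b P = ∑ d ∈ P.support, coeff d P • aeval b (monomial d (1 : κ)) := by
    conv_lhs => rw [P.as_sum]
    rw [map_sum]
    refine Finset.sum_congr rfl fun d _ => ?_
    rw [← map_smul, smul_monomial, smul_eq_mul, mul_one]
  rw [h1]
  refine Submodule.sum_mem _ fun d hd => Submodule.smul_mem _ _ (Submodule.subset_span ?_)
  refine ⟨d, ?_, rfl⟩
  have h2 := le_totalDegree hd
  rw [sublim_sum_eq] at h2
  exact h2.trans hP

theorem sublim_Md_eq (b : Fin 2 → 𝓕) (N : ℕ) :
    Md κ b N = Submodule.span κ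
      ((fun e : Fin 2 →₀ ℕ => aeval b (monomial e (1 : κ))) '' {e | e 0 + e 1 ≤ N}) := by
  apply le_antisymm
  · intro x hx
    unfold Md at hx
    rw [Submodule.mem_map] at hx
    obtain ⟨P, hP, rfl⟩ := hx
    exact sublim_mem_span b N P ((mem_restrictTotalDegree _ _ _).1 hP)
  · rw [Submodule.span_le]
    rintro x ⟨e, he, rfl⟩
    unfold Md
    refine Submodule.mem_map.2 ⟨monomial e 1, ?_, rfl⟩
    rw [mem_restrictTotalDegree]
    refine (totalDegree_monomial_le _ _).trans ?_
    have h1 := sublim_sum_eq e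
    have h2 : (e.sum fun _ => id) = e 0 + e 1 := h1
    rw [h2]
    exact he

theorem sublim_finite (N : ℕ) : {e : Fin 2 →₀ ℕ | e 0 + e 1 ≤ N}.Finite := by
  have h1 : Set.InjOn (fun e : Fin 2 →₀ ℕ => (e 0, e 1)) {e : Fin 2 →₀ ℕ | e 0 + e 1 ≤ N} := by
    intro e _ e' _ h
    simp only [Prod.mk.injEq] at h
    ext i
    fin_cases i
    · exact h.1
    · exact h.2
  refine Set.Finite.of_finite_image (Set.Finite.subset
    ((Set.finite_Iic N).prod (Set.finite_Iic N)) ?_) h1
  rintro _ ⟨e, he, rfl⟩
  have he' : e 0 + e 1 ≤ N := he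
  exact ⟨Set.mem_Iic.2 (by simp only; omega), Set.mem_Iic.2 (by simp only; omega)⟩

/-- A basis of monomials. -/
theorem sublim_basis (b : Fin 2 → 𝓕) (N : ℕ) :
    ∃ e : Fin (finrank κ (Md κ b N)) → (Fin 2 →₀ ℕ), (∀ j, e j 0 + e j 1 ≤ N) ∧
      LinearIndependent κ (fun j => aeval b (monomial (e j) (1 : κ))) ∧
      ∀ P : MvPolynomial (Fin 2) κ, P.totalDegree ≤ N →
        ∃ c : Fin (finrank κ (Md κ b N)) → κ,
          aeval b P = ∑ j, c j • aeval b (monomial (e j) (1 : κ)) := by
  classical
  set s : Set 𝓕 := (fun e : Fin 2 →₀ ℕ => aeval b (monomial e (1 : κ))) ''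
    {e | e 0 + e 1 ≤ N} with hs
  have hsf : s.Finite := (sublim_finite N).image _
  obtain ⟨t, hts, hspan, hli⟩ := exists_linearIndependent κ s
  have htf : t.Finite := hsf.subset hts
  have : Fintype t := htf.fintype
  have hMd : Md κ b N = Submodule.span κ t := by
    rw [sublim_Md_eq, hspan]
  have hcard : finrank κ (Md κ b N) = Fintype.card t := by
    rw [hMd, finrank_span_set_eq_card hli, Set.toFinset_card]
  let E : Fin (finrank κ (Md κ b N)) ≃ t :=
    (finCongr hcard).trans (Fintype.equivFin t).symm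
  have hch : ∀ j, ∃ e : Fin 2 →₀ ℕ, e 0 + e 1 ≤ N ∧
      aeval b (monomial e (1 : κ)) = ((E j : t) : 𝓕) := by
    intro j
    obtain ⟨e, he, hee⟩ := hts (E j).2
    exact ⟨e, he, hee⟩
  choose e he hee using hch
  refine ⟨e, he, ?_, ?_⟩
  · simp only [hee]
    exact hli.comp E E.injective
  · intro P hP
    have h1 : aeval b P ∈ Submodule.span κ (Set.range fun j => ((E j : t) : 𝓕)) := by
      have h2 : Set.range (fun j => ((E j : t) : 𝓕)) = t := by
        ext x
        constructor
        · rintro ⟨j, rfl⟩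
          exact (E j).2
        · intro hx
          exact ⟨E.symm ⟨x, hx⟩, by simp⟩
      rw [h2, hspan]
      exact sublim_mem_span b N P hP
    rw [Submodule.mem_span_range_iff_exists_fun] at h1
    obtain ⟨c, hc⟩ := h1
    refine ⟨c, ?_⟩
    simp only [hee]
    exact hc.symm

end Alg

/-- the values of the homogenised monomials -/
def sublimZ (N : ℕ) {m : ℕ} (e : Fin m → (Fin 2 →₀ ℕ)) (f : Fin 3 → ℤ) : Fin m → ℤ :=
  fun j => f 0 ^ (N - e j 0 - e j 1) * f 1 ^ e j 0 * f 2 ^ e j 1

theorem sublimZ_cast (N : ℕ) {m : ℕ} (e : Fin m → (Fin 2 →₀ ℕ)) (he : ∀ j, e j 0 + e j 1 ≤ N)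
    (f : Fin 3 → ℤ) (hf : f 0 ≠ 0) (j : Fin m) :
    ((sublimZ N e f j : ℤ) : Qb) =
      (f 0 : Qb) ^ N * aeval (bsq f) (monomial (e j) (1 : Qb)) := by
  have h0 : (f 0 : Qb) ≠ 0 := by exact_mod_cast hf
  rw [sublim_aeval_monomial]
  unfold sublimZ bsq
  push_cast
  have hN : (f 0 : Qb) ^ N = (f 0 : Qb) ^ (N - e j 0 - e j 1) * (f 0 : Qb) ^ e j 0 *
      (f 0 : Qb) ^ e j 1 := by
    rw [← pow_add, ← pow_add]
    congr 1
    have := he j
    omega
  rw [hN]
  rw [div_pow, div_pow]
  have h1 : (f 0 : Qb) ^ e j 0 ≠ 0 := pow_ne_zero _ h0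
  have h2 : (f 0 : Qb) ^ e j 1 ≠ 0 := pow_ne_zero _ h0
  field_simp

theorem sublimZ_le (N : ℕ) {m : ℕ} (e : Fin m → (Fin 2 →₀ ℕ)) (he : ∀ j, e j 0 + e j 1 ≤ N)
    (f : Fin 3 → ℤ) (h : ℝ) (hf : ∀ i, |((f i : ℤ) : ℝ)| ≤ Real.exp h) (j : Fin m) :
    |((sublimZ N e f j : ℤ) : ℝ)| ≤ Real.exp (N * h) := by
  unfold sublimZ
  push_cast
  rw [abs_mul, abs_mul, abs_pow, abs_pow, abs_pow]
  have hN : N = (N - e j 0 - e j 1) + e j 0 + e j 1 := by
    have := he j
    omega
  have h1 : Real.exp (N * h) = Real.exp h ^ (N - e j 0 - e j 1) * Real.exp h ^ e j 0 *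
      Real.exp h ^ e j 1 := by
    rw [← pow_add, ← pow_add, ← hN, ← Real.exp_nat_mul]
  rw [h1]
  gcongr
  · exact hf 0
  · exact hf 1
  · exact hf 2

theorem sublim_key (N : ℕ) {m : ℕ} (e : Fin m → (Fin 2 →₀ ℕ)) (he : ∀ j, e j 0 + e j 1 ≤ N)
    (f : Fin 3 → ℤ) (hf : f 0 ≠ 0) (P : MvPolynomial (Fin 2) Qb) (c : Fin m → Qb)
    (hP : aeval (bsq f) P = ∑ j, c j • aeval (bsq f) (monomial (e j) (1 : Qb))) :
    ∑ j, c j * ((sublimZ N e f j : ℤ) : Qb) = (f 0 : Qb) ^ N * aeval (bsq f) P := by
  rw [hP, Finset.mul_sum]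
  refine Finset.sum_congr rfl fun j _ => ?_
  rw [sublimZ_cast N e he f hf, smul_eq_mul]
  ring

theorem sublim_norm {A : Type} [NormedField A] (ι : Qb →+* A) (N : ℕ) {m : ℕ}
    (e : Fin m → (Fin 2 →₀ ℕ)) (he : ∀ j, e j 0 + e j 1 ≤ N)
    (f : Fin 3 → ℤ) (hf : f 0 ≠ 0) (P : Fin m → MvPolynomial (Fin 2) Qb)
    (c : Matrix (Fin m) (Fin m) Qb) (i : Fin m)
    (hP : aeval (bsq f) (P i) = ∑ j, c i j • aeval (bsq f) (monomial (e j) (1 : Qb))) :
    ‖(c.map ι).mulVec (fun j => ((sublimZ N e f j : ℤ) : A)) i‖ =
      ‖((f 0 : ℤ) : A)‖ ^ N * placeAbs ι (aeval (bsq f) (P i)) := by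
  have h1 : (c.map ι).mulVec (fun j => ((sublimZ N e f j : ℤ) : A)) i =
      ι (∑ j, c i j * ((sublimZ N e f j : ℤ) : Qb)) := by
    rw [map_sum]
    simp only [Matrix.mulVec, dotProduct, Matrix.map_apply, map_mul, map_intCast]
  rw [h1, sublim_key N e he f hf (P i) (c i) hP, map_mul, map_pow, map_intCast, norm_mul, norm_pow]
  rfl

section Q

variable {T : Type} [Fintype T] [DecidableEq T] (p : T → ℕ) [∀ t, Fact (p t).Prime]

theorem sublim_main (hp : Function.Injective p) (ι : Qb →+* ℂ) (ι' : ∀ t, Qb →+* ℂ_[p t])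
    {U : Ultrafilter ℕ} {h : ℕ → ℝ} {f : ℕ → Fin 3 → ℤ} (hs : SeqData p U h f)
    {𝓕 : Type} [Field 𝓕] [Algebra Qb 𝓕] {b : Fin 2 → 𝓕}
    (hker : ∀ P : MvPolynomial (Fin 2) Qb, aeval b P = 0 ↔
      ∀ᶠ n in (U : Filter ℕ), aeval (bsq (f n)) P = 0)
    (w : Option T → AbsoluteValue 𝓕 ℝ)
    (hlim : ∀ l, LimRel U h (fun n => bsq (f n)) b (placesQ p ι ι' l) (w l)) (N m : ℕ)
    (e : Fin m → (Fin 2 →₀ ℕ)) (he : ∀ j, e j 0 + e j 1 ≤ N)
    (hli : LinearIndependent Qb (fun j => aeval b (monomial (e j) (1 : Qb))))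
    (hrep : ∀ P : MvPolynomial (Fin 2) Qb, P.totalDegree ≤ N →
        ∃ c : Fin m → Qb, aeval b P = ∑ j, c j • aeval b (monomial (e j) (1 : Qb)))
    (A : Option T → Fin m → MvPolynomial (Fin 2) Qb)
    (hAN : ∀ l i, (A l i).totalDegree ≤ N)
    (hA : ∀ l, LinearIndependent Qb (fun i => aeval b (A l i))) :
    ∑ l, ∑ i, -Real.log (w l (aeval b (A l i))) ≤ N * m := by
  classical
  have hAne : ∀ l i, aeval b (A l i) ≠ 0 := fun l i => (hA l).ne_zero i
  -- coefficients
  choose c hc using fun l i => hrep (A l i) (hAN l i)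
  have hdet : ∀ l, (Matrix.of (c l)).det ≠ 0 := by
    intro l hdet
    obtain ⟨v, hv, hv0⟩ := Matrix.exists_vecMul_eq_zero_iff.2 hdet
    apply hv
    have h1 : ∑ i, v i • aeval b (A l i) = 0 := by
      calc ∑ i, v i • aeval b (A l i)
          = ∑ i, ∑ j, (v i * c l i j) • aeval b (monomial (e j) (1 : Qb)) := by
            refine Finset.sum_congr rfl fun i _ => ?_
            rw [hc l i, Finset.smul_sum]
            refine Finset.sum_congr rfl fun j _ => ?_
            rw [smul_smul]
        _ = ∑ j, (∑ i, v i * c l i j) • aeval b (monomial (e j) (1 : Qb)) := by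
            rw [Finset.sum_comm]
            refine Finset.sum_congr rfl fun j _ => ?_
            rw [Finset.sum_smul]
        _ = 0 := by
            refine Finset.sum_eq_zero fun j _ => ?_
            have h2 := congrFun hv0 j
            simp only [Matrix.vecMul, dotProduct, Matrix.of_apply, Pi.zero_apply] at h2
            rw [h2, zero_smul]
    funext i
    exact (Fintype.linearIndependent_iff.1 (hA l)) v h1 i
  -- transfer of linear relations
  have hev : ∀ (P : MvPolynomial (Fin 2) Qb) (c' : Fin m → Qb),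
      aeval b P = ∑ j, c' j • aeval b (monomial (e j) (1 : Qb)) →
      ∀ᶠ n in (U : Filter ℕ), aeval (bsq (f n)) P =
        ∑ j, c' j • aeval (bsq (f n)) (monomial (e j) (1 : Qb)) := by
    intro P c' h1
    have h2 : aeval b (P - ∑ j, c' j • monomial (e j) (1 : Qb)) = 0 := by
      rw [map_sub, map_sum, h1, sub_eq_zero]
      refine Finset.sum_congr rfl fun j _ => ?_
      rw [map_smul]
    filter_upwards [(hker _).1 h2] with n hn
    rw [map_sub, map_sum, sub_eq_zero] at hn
    rw [hn]
    refine Finset.sum_congr rfl fun j _ => ?_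
    rw [map_smul]
  have hlog : ∀ l i, Tendsto (fun n => Real.log (placesQ p ι ι' l (aeval (bsq (f n)) (A l i))) / h n)
      U (𝓝 (Real.log (w l (aeval b (A l i))))) := fun l i => hlim l (A l i) (hAne l i)
  by_cases hm2 : 2 ≤ m
  swap
  · -- all functions are constant
    have hconst : ∀ l i, Real.log (w l (aeval b (A l i))) = 0 := by
      intro l i
      have hm1 : m = 1 := by
        have := i.2
        omega
      obtain ⟨c1, hc1⟩ := hrep 1 (by simp)
      have hfin : ∀ (x : Fin m → 𝓕) (j : Fin m), ∑ k, x k = x j := by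
        intro x j
        apply Finset.sum_eq_single j
        · intro k _ hk
          exfalso
          apply hk
          apply Fin.ext
          have := k.2
          have := j.2
          omega
        · intro hj
          exact absurd (Finset.mem_univ j) hj
      rw [hfin _ i] at hc1
      have h2 := hc l i
      rw [hfin _ i] at h2
      have hc10 : c1 i ≠ 0 := by
        intro h0
        rw [h0, zero_smul, map_one] at hc1
        exact one_ne_zero hc1
      have h3 : aeval b (A l i) = aeval b (C (c l i i / c1 i) : MvPolynomial (Fin 2) Qb) := by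
        rw [h2, aeval_C]
        have h4 : aeval b (monomial (e i) (1 : Qb)) = algebraMap Qb 𝓕 (c1 i)⁻¹ := by
          rw [map_one] at hc1
          rw [Algebra.smul_def] at hc1
          rw [map_inv₀]
          exact eq_inv_of_mul_eq_one_right hc1.symm
        rw [h4, Algebra.smul_def, ← map_mul, div_eq_mul_inv]
      have hne : aeval b (C (c l i i / c1 i) : MvPolynomial (Fin 2) Qb) ≠ 0 := by
        rw [← h3]
        exact hAne l i
      have h5 := hlim l _ hne
      have h6 : Tendsto (fun n => Real.log (placesQ p ι ι' l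
          (aeval (bsq (f n)) (C (c l i i / c1 i) : MvPolynomial (Fin 2) Qb))) / h n) U (𝓝 0) := by
        simp only [aeval_C]
        exact Tendsto.const_div_atTop hs.tend _
      rw [h3]
      exact tendsto_nhds_unique h5 h6
    have h1 : ∑ l, ∑ i, -Real.log (w l (aeval b (A l i))) = 0 := by
      refine Finset.sum_eq_zero fun l _ => Finset.sum_eq_zero fun i _ => ?_
      rw [hconst, neg_zero]
    rw [h1]
    positivity
  · -- the main case
    have hcard : 2 ≤ Fintype.card (Fin m) := by simpa using hm2
    have hevA : ∀ l, ∀ᶠ n in (U : Filter ℕ), ∀ i, aeval (bsq (f n)) (A l i) =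
        ∑ j, (Matrix.of (c l)) i j • aeval (bsq (f n)) (monomial (e j) (1 : Qb)) := by
      intro l
      rw [eventually_all]
      intro i
      exact hev (A l i) (c l i) (hc l i)
    -- the limit of the logarithm of the product
    have hkeylim : Tendsto (fun n => ∑ l, ∑ i, (N * (match l with
        | none => Real.log |((f n 0 : ℤ) : ℝ)| / h n
        | some t => Real.log ‖((f n 0 : ℤ) : ℚ_[p t])‖ / h n) +
        Real.log (placesQ p ι ι' l (aeval (bsq (f n)) (A l i))) / h n)) U
        (𝓝 (∑ l : Option T, ∑ i, (N * (match l with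
          | none => (1 : ℝ)
          | some _ => 0) + Real.log (w l (aeval b (A l i)))))) := by
      refine tendsto_finsetSum _ fun l _ => tendsto_finsetSum _ fun i _ => ?_
      refine Tendsto.add (Tendsto.const_mul _ ?_) (hlog l i)
      cases l with
      | none => exact hs.lim0
      | some t => exact hs.limt t
    have hlower : ∀ δ : ℝ, 0 < δ → -(δ * N) ≤ ∑ l : Option T, ∑ i, (N * (match l with
          | none => (1 : ℝ)
          | some _ => 0) + Real.log (w l (aeval b (A l i)))) := by
      intro δ hδ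
      obtain ⟨F, hF0, hF⟩ := schlickeweiC hcard p hp ((Matrix.of (c none)).map ι)
        (fun i j => by
          rw [Matrix.map_apply]
          exact ((AlgebraicClosure.isAlgebraic ℚ).isAlgebraic _).algHom
            (RingHom.toRatAlgHom ι))
        (by
          have := (ι.map_det (Matrix.of (c none)))
          rw [RingHom.mapMatrix_apply] at this
          rw [← this]
          exact (map_ne_zero ι).2 (hdet none))
        (fun t => (Matrix.of (c (some t))).map (ι' t))
        (fun t i j => by
          rw [Matrix.map_apply]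
          exact ((AlgebraicClosure.isAlgebraic ℚ).isAlgebraic _).algHom
            (RingHom.toRatAlgHom (ι' t)))
        (fun t => by
          have := ((ι' t).map_det (Matrix.of (c (some t))))
          rw [RingHom.mapMatrix_apply] at this
          rw [← this]
          exact (map_ne_zero (ι' t)).2 (hdet (some t)))
        δ hδ
      have hnrel : ∀ᶠ n in (U : Filter ℕ), ∀ b' ∈ F, ∑ i, b' i * sublimZ N e (f n) i ≠ 0 := by
        rw [eventually_all_finset]
        intro b' hb'
        rw [Ultrafilter.eventually_not]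
        intro hev0
        apply hF0
        have h1 : aeval b (∑ j, ((b' j : ℤ) : Qb) • monomial (e j) (1 : Qb)) = 0 := by
          rw [hker]
          filter_upwards [hev0] with n hn
          have h2 : (((∑ i, b' i * sublimZ N e (f n) i : ℤ)) : Qb) = 0 := by rw [hn]; simp
          push_cast at h2
          have h3 : (f n 0 : Qb) ^ N *
              aeval (bsq (f n)) (∑ j, ((b' j : ℤ) : Qb) • monomial (e j) (1 : Qb)) = 0 := by
            rw [← h2, map_sum, Finset.mul_sum]
            refine Finset.sum_congr rfl fun j _ => ?_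
            rw [sublimZ_cast N e he (f n) (hs.ne n), map_smul, smul_eq_mul]
            ring
          rcases mul_eq_zero.1 h3 with h4 | h4
          · exfalso
            have h5 : (f n 0 : Qb) = 0 := by
              by_contra h6
              exact pow_ne_zero N h6 h4
            exact hs.ne n (by exact_mod_cast h5)
          · exact h4
        rw [map_sum] at h1
        simp only [map_smul] at h1
        have h2 := (Fintype.linearIndependent_iff.1 hli) _ h1
        have h3 : b' = 0 := by
          funext j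
          have := h2 j
          exact_mod_cast this
        rw [← h3]
        exact hb'
      have hlt : ∀ᶠ n in (U : Filter ℕ), -(δ * N) ≤ ∑ l, ∑ i, (N * (match l with
          | none => Real.log |((f n 0 : ℤ) : ℝ)| / h n
          | some t => Real.log ‖((f n 0 : ℤ) : ℚ_[p t])‖ / h n) +
          Real.log (placesQ p ι ι' l (aeval (bsq (f n)) (A l i))) / h n) := by
        have hall : ∀ᶠ n in (U : Filter ℕ), ∀ l : Option T, ∀ i, aeval (bsq (f n)) (A l i) =
            ∑ j, (Matrix.of (c l)) i j • aeval (bsq (f n)) (monomial (e j) (1 : Qb)) :=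
          eventually_all.2 hevA
        have hne : ∀ᶠ n in (U : Filter ℕ), ∀ l : Option T, ∀ i, aeval (bsq (f n)) (A l i) ≠ 0 := by
          rw [eventually_all]
          intro l
          rw [eventually_all]
          intro i
          rw [Ultrafilter.eventually_not]
          intro h0
          exact hAne l i ((hker _).2 h0)
        filter_upwards [hnrel, hall, hne, hs.tend.eventually_gt_atTop 0] with n hn1 hn2 hn3 hn4
        set H : ℝ := Real.exp (N * h n) with hH
        have hH1 : 1 ≤ H := Real.one_le_exp (by positivity)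
        have hnot : ¬ ((∏ i, ‖((Matrix.of (c none)).map ι).mulVec
            (fun j => ((sublimZ N e (f n) j : ℤ) : ℂ)) i‖) *
            ∏ t, ∏ i, ‖((Matrix.of (c (some t))).map (ι' t)).mulVec
              (fun j => ((sublimZ N e (f n) j : ℤ) : ℂ_[p t])) i‖ ≤ H ^ (-δ)) := by
          intro hle
          obtain ⟨b', hb', hb0⟩ := hF _ H hH1
            (fun i => sublimZ_le N e he (f n) (h n) (hs.le n) i) hle
          exact hn1 b' hb' hb0
        push Not at hnot
        have hf0 : (0 : ℝ) < |((f n 0 : ℤ) : ℝ)| := abs_pos.2 (by exact_mod_cast hs.ne n)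
        have hft : ∀ t, (0 : ℝ) < ‖((f n 0 : ℤ) : ℚ_[p t])‖ := fun t =>
          norm_pos_iff.2 (by exact_mod_cast hs.ne n)
        have hpl : ∀ l i, 0 < placesQ p ι ι' l (aeval (bsq (f n)) (A l i)) := fun l i =>
          AbsoluteValue.pos _ (hn3 l i)
        have e1 : ∀ i, ‖((Matrix.of (c none)).map ι).mulVec
            (fun j => ((sublimZ N e (f n) j : ℤ) : ℂ)) i‖ =
            |((f n 0 : ℤ) : ℝ)| ^ N * placesQ p ι ι' none (aeval (bsq (f n)) (A none i)) := by
          intro i
          rw [sublim_norm ι N e he (f n) (hs.ne n) (A none) _ i (hn2 none i),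
            Complex.norm_intCast]
          rfl
        have e2 : ∀ t i, ‖((Matrix.of (c (some t))).map (ι' t)).mulVec
            (fun j => ((sublimZ N e (f n) j : ℤ) : ℂ_[p t])) i‖ =
            ‖((f n 0 : ℤ) : ℚ_[p t])‖ ^ N *
              placesQ p ι ι' (some t) (aeval (bsq (f n)) (A (some t) i)) := by
          intro t i
          rw [sublim_norm (ι' t) N e he (f n) (hs.ne n) (A (some t)) _ i (hn2 (some t) i),
            norm_intCast_padic]
          rfl
        simp only [e1, e2] at hnot
        have hlogle := Real.log_lt_log (Real.rpow_pos_of_pos (Real.exp_pos _) _) hnot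
        rw [Real.log_rpow (Real.exp_pos _), Real.log_exp] at hlogle
        rw [Real.log_mul (Finset.prod_ne_zero_iff.2 fun i _ => by
            have := hpl none i
            positivity) (Finset.prod_ne_zero_iff.2 fun t _ => Finset.prod_ne_zero_iff.2
              fun i _ => by
              have h1 := hpl (some t) i
              have h2 := hft t
              positivity),
          Real.log_prod (fun i _ => by
            have := hpl none i
            positivity), Real.log_prod (fun t _ => Finset.prod_ne_zero_iff.2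
              fun i _ => by
              have h1 := hpl (some t) i
              have h2 := hft t
              positivity)] at hlogle
        have e3 : ∀ i, Real.log (|((f n 0 : ℤ) : ℝ)| ^ N *
            placesQ p ι ι' none (aeval (bsq (f n)) (A none i))) =
            N * Real.log |((f n 0 : ℤ) : ℝ)| +
              Real.log (placesQ p ι ι' none (aeval (bsq (f n)) (A none i))) := by
          intro i
          rw [Real.log_mul (by positivity) (hpl none i).ne', Real.log_pow]
        have e4 : ∀ t, Real.log (∏ i, ‖((f n 0 : ℤ) : ℚ_[p t])‖ ^ N *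
            placesQ p ι ι' (some t) (aeval (bsq (f n)) (A (some t) i))) =
            ∑ i, (N * Real.log ‖((f n 0 : ℤ) : ℚ_[p t])‖ +
              Real.log (placesQ p ι ι' (some t) (aeval (bsq (f n)) (A (some t) i)))) := by
          intro t
          have h2 := hft t
          rw [Real.log_prod (fun i _ => by
            have h1 := hpl (some t) i
            positivity)]
          refine Finset.sum_congr rfl fun i _ => ?_
          rw [Real.log_mul (by positivity) (hpl (some t) i).ne', Real.log_pow]
        simp only [e3, e4] at hlogle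
        rw [Fintype.sum_option]
        have e5 : (∑ i, (N * (Real.log |((f n 0 : ℤ) : ℝ)| / h n) +
            Real.log (placesQ p ι ι' none (aeval (bsq (f n)) (A none i))) / h n)) +
            ∑ t, ∑ i, (N * (Real.log ‖((f n 0 : ℤ) : ℚ_[p t])‖ / h n) +
              Real.log (placesQ p ι ι' (some t) (aeval (bsq (f n)) (A (some t) i))) / h n) =
            ((∑ i, (N * Real.log |((f n 0 : ℤ) : ℝ)| +
              Real.log (placesQ p ι ι' none (aeval (bsq (f n)) (A none i))))) +
            ∑ t, ∑ i, (N * Real.log ‖((f n 0 : ℤ) : ℚ_[p t])‖ +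
              Real.log (placesQ p ι ι' (some t) (aeval (bsq (f n)) (A (some t) i))))) / h n := by
          rw [add_div, Finset.sum_div, Finset.sum_div]
          congr 1
          · refine Finset.sum_congr rfl fun i _ => ?_
            ring
          · refine Finset.sum_congr rfl fun t _ => ?_
            rw [Finset.sum_div]
            refine Finset.sum_congr rfl fun i _ => ?_
            ring
        simp only
        rw [e5, le_div_iff₀ hn4]
        have : -(δ * N) * h n = -δ * (N * h n) := by ring
        rw [this]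
        exact hlogle.le
      exact ge_of_tendsto hkeylim hlt
    have hzero : 0 ≤ ∑ l : Option T, ∑ i, (N * (match l with
          | none => (1 : ℝ)
          | some _ => 0) + Real.log (w l (aeval b (A l i)))) := by
      refine le_of_forall_pos_le_add fun ε hε => ?_
      have h1 := hlower (ε / (N + 1)) (by positivity)
      have h2 : ε / (N + 1) * N ≤ ε := by
        rw [div_mul_eq_mul_div, div_le_iff₀ (by positivity)]
        nlinarith
      linarith
    have hsum : ∑ l : Option T, ∑ i : Fin m, (N * (match l with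
          | none => (1 : ℝ)
          | some _ => 0) + Real.log (w l (aeval b (A l i)))) =
        N * m - ∑ l, ∑ i, -Real.log (w l (aeval b (A l i))) := by
      rw [Fintype.sum_option, Fintype.sum_option]
      simp only [mul_one, mul_zero, zero_add, Finset.sum_add_distrib, Finset.sum_neg_distrib,
        Finset.sum_const, Finset.card_univ, Fintype.card_fin, nsmul_eq_mul]
      ring
    rw [hsum] at hzero
    linarith

theorem sub_lim (hp : Function.Injective p) (ι : Qb →+* ℂ) (ι' : ∀ t, Qb →+* ℂ_[p t])
    {U : Ultrafilter ℕ} {h : ℕ → ℝ} {f : ℕ → Fin 3 → ℤ} (hs : SeqData p U h f)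
    {𝓕 : Type} [Field 𝓕] [Algebra Qb 𝓕] {b : Fin 2 → 𝓕} {g : MvPolynomial (Fin 2) Qb}
    (hC : CurveField b g)
    (hker : ∀ P : MvPolynomial (Fin 2) Qb, aeval b P = 0 ↔
      ∀ᶠ n in (U : Filter ℕ), aeval (bsq (f n)) P = 0)
    (w : Option T → AbsoluteValue 𝓕 ℝ)
    (hlim : ∀ l, LimRel U h (fun n => bsq (f n)) b (placesQ p ι ι' l) (w l)) (N : ℕ)
    (A : Option T → Fin (finrank Qb (Md Qb b N)) → MvPolynomial (Fin 2) Qb)
    (hAN : ∀ l i, (A l i).totalDegree ≤ N)
    (hA : ∀ l, LinearIndependent Qb (fun i => aeval b (A l i))) :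
    ∑ l, ∑ i, -Real.log (w l (aeval b (A l i))) ≤ 1 * N * finrank Qb (Md Qb b N) := by
  obtain ⟨e, he, hli, hrep⟩ := sublim_basis (κ := Qb) b N
  rw [one_mul]
  exact sublim_main p hp ι ι' hs hker w hlim N _ e he hli hrep A hAN hA

end Q

end Pool.Agent.SST
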