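import Pool.Agent.SST.SeqDefs
import Mathlib.RingTheory.Nullstellensatz
import Mathlib.RingTheory.KrullDimension.Polynomial
import Mathlib.RingTheory.Polynomial.UniqueFactorization
import Mathlib.Order.Filter.FilterProduct
import Mathlib.Order.Filter.Ultrafilter.Basic

/-! The function field of a sequence of points along an ultrafilter, and the limits of absolute
values. -/

open MvPolynomial Filter Module
open scoped Topology

namespace Pool.Agent.SST

section Seq

variable {κ : Type} [Field κ]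

/-- the ideal of the polynomials vanishing at the points of a sequence along an ultrafilter -/
noncomputable def ultraIdeal (U : Ultrafilter ℕ) (bs : ℕ → Fin 2 → κ) :
    Ideal (MvPolynomial (Fin 2) κ) where
  carrier := {P | ∀ᶠ n in (U : Filter ℕ), aeval (bs n) P = 0}
  add_mem' := by
    intro P Q hP hQ
    filter_upwards [hP, hQ] with n h1 h2
    rw [map_add, h1, h2, add_zero]
  zero_mem' := by
    show ∀ᶠ n in (U : Filter ℕ), aeval (bs n) (0 : MvPolynomial (Fin 2) κ) = 0
    simp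
  smul_mem' := by
    intro c P hP
    filter_upwards [hP] with n h1
    rw [smul_eq_mul, map_mul, h1, mul_zero]

theorem mem_ultraIdeal (U : Ultrafilter ℕ) (bs : ℕ → Fin 2 → κ) (P : MvPolynomial (Fin 2) κ) :
    P ∈ ultraIdeal U bs ↔ ∀ᶠ n in (U : Filter ℕ), aeval (bs n) P = 0 := Iff.rfl

theorem ultraIdeal_isPrime (U : Ultrafilter ℕ) (bs : ℕ → Fin 2 → κ) :
    (ultraIdeal U bs).IsPrime := by
  refine ⟨?_, ?_⟩
  · rw [Ideal.ne_top_iff_one, mem_ultraIdeal]
    intro h
    obtain ⟨n, hn⟩ := h.exists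
    simp at hn
  · intro P Q hPQ
    rw [mem_ultraIdeal] at hPQ
    rw [mem_ultraIdeal, mem_ultraIdeal, ← Ultrafilter.eventually_or]
    filter_upwards [hPQ] with n hn
    rw [map_mul] at hn
    exact mul_eq_zero.1 hn

/-- a prime ideal of a polynomial ring in two variables, neither zero nor maximal, is principal -/
theorem principal_of_prime (I : Ideal (MvPolynomial (Fin 2) κ)) (hI : I.IsPrime) (h0 : I ≠ ⊥)
    (hmax : ¬ I.IsMaximal) :
    ∃ g : MvPolynomial (Fin 2) κ, Irreducible g ∧ I = Ideal.span {g} := by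
  obtain ⟨P, hPI, hP0⟩ := Submodule.exists_mem_ne_zero_of_ne_bot h0
  have hIne := hI.ne_top
  obtain ⟨g, hgI, hg⟩ : ∃ g ∈ I, Irreducible g := by
    have hu : ¬ IsUnit P := fun hu => hIne (Ideal.eq_top_of_isUnit_mem _ hPI hu)
    obtain ⟨f, hf, u, hfu⟩ := WfDvdMonoid.exists_factors P hP0
    have hprod : f.prod ∈ I := by
      have : P * ((u⁻¹ : (MvPolynomial (Fin 2) κ)ˣ) : MvPolynomial (Fin 2) κ) ∈ I :=
        Ideal.mul_mem_right _ _ hPI
      rw [← hfu, mul_assoc, Units.mul_inv, mul_one] at this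
      exact this
    rw [hI.multiset_prod_mem_iff_exists_mem] at hprod
    obtain ⟨g, hgf, hgI⟩ := hprod
    exact ⟨g, hgI, hf g hgf⟩
  refine ⟨g, hg, ?_⟩
  by_contra hne
  have hlt : Ideal.span {g} < I := by
    refine lt_of_le_of_ne ?_ (Ne.symm hne)
    rw [Ideal.span_singleton_le_iff_mem]
    exact hgI
  obtain ⟨M, hM, hIM⟩ := Ideal.exists_le_maximal I hIne
  have hltM : I < M := lt_of_le_of_ne hIM (fun h => hmax (h ▸ hM))
  have hgprime : (Ideal.span {g} : Ideal (MvPolynomial (Fin 2) κ)).IsPrime := by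
    rw [Ideal.span_singleton_prime hg.ne_zero]
    exact hg.prime
  have hbot : (⊥ : Ideal (MvPolynomial (Fin 2) κ)) < Ideal.span {g} := by
    rw [bot_lt_iff_ne_bot, Ne, Ideal.span_singleton_eq_bot]
    exact hg.ne_zero
  let p0 : PrimeSpectrum (MvPolynomial (Fin 2) κ) := ⟨⊥, Ideal.isPrime_bot⟩
  let p1 : PrimeSpectrum (MvPolynomial (Fin 2) κ) := ⟨_, hgprime⟩
  let p2 : PrimeSpectrum (MvPolynomial (Fin 2) κ) := ⟨I, hI⟩
  let p3 : PrimeSpectrum (MvPolynomial (Fin 2) κ) := ⟨M, hM.isPrime⟩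
  have h01 : p0 < p1 := hbot
  have h12 : p1 < p2 := hlt
  have h23 : p2 < p3 := hltM
  let s : LTSeries (PrimeSpectrum (MvPolynomial (Fin 2) κ)) :=
    ⟨3, ![p0, p1, p2, p3], by
      intro i
      fin_cases i
      · exact h01
      · exact h12
      · exact h23⟩
  have hlen : ((3 : ℕ) : WithBot ℕ∞) ≤ ringKrullDim (MvPolynomial (Fin 2) κ) := by
    unfold ringKrullDim
    exact Order.LTSeries.length_le_krullDim s
  rw [MvPolynomial.ringKrullDim_of_isNoetherianRing, ringKrullDim_eq_zero_of_field] at hlen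
  simp at hlen
  exact absurd hlen (by decide)

section Rep

variable {𝓕 : Type} [Field 𝓕] [Algebra κ 𝓕] {U : Ultrafilter ℕ} {bs : ℕ → Fin 2 → κ}
  {b : Fin 2 → 𝓕}

/-- representatives of the elements of the function field -/
theorem exists_rep (frac : ∀ y : 𝓕, ∃ P Q : MvPolynomial (Fin 2) κ,
      aeval b Q ≠ 0 ∧ y = aeval b P / aeval b Q)
    (hker : ∀ P : MvPolynomial (Fin 2) κ,
      aeval b P = 0 ↔ ∀ᶠ n in (U : Filter ℕ), aeval (bs n) P = 0) :
    ∃ r : 𝓕 → ℕ → κ,
      (∀ P : MvPolynomial (Fin 2) κ, ∀ᶠ n in (U : Filter ℕ), r (aeval b P) n = aeval (bs n) P) ∧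
      (∀ x y, ∀ᶠ n in (U : Filter ℕ), r (x * y) n = r x n * r y n) ∧
      (∀ x y, ∀ᶠ n in (U : Filter ℕ), r (x + y) n = r x n + r y n) ∧
      (∀ x, x ≠ 0 → ∀ᶠ n in (U : Filter ℕ), r x n ≠ 0) := by
  choose num den hden hfrac using frac
  have hne : ∀ Q : MvPolynomial (Fin 2) κ, aeval b Q ≠ 0 →
      ∀ᶠ n in (U : Filter ℕ), aeval (bs n) Q ≠ 0 := by
    intro Q hQ
    have : ¬ ∀ᶠ n in (U : Filter ℕ), aeval (bs n) Q = 0 := fun h => hQ ((hker Q).2 h)
    exact Ultrafilter.eventually_not.2 this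
  have key : ∀ (x : 𝓕) (P Q : MvPolynomial (Fin 2) κ), aeval b Q ≠ 0 →
      x = aeval b P / aeval b Q → ∀ᶠ n in (U : Filter ℕ),
        aeval (bs n) (num x) / aeval (bs n) (den x) = aeval (bs n) P / aeval (bs n) Q := by
    intro x P Q hQ hx
    have h1 : aeval b (num x * Q - P * den x) = 0 := by
      have h2 := hfrac x
      rw [hx] at h2
      have h3 : aeval b (den (aeval b P / aeval b Q)) ≠ 0 := hden _
      rw [div_eq_div_iff hQ h3] at h2
      rw [map_sub, map_mul, map_mul, hx, ← h2, sub_self]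
    filter_upwards [(hker _).1 h1, hne Q hQ, hne _ (hden x)] with n hn hnQ hnd
    rw [map_sub, map_mul, map_mul, sub_eq_zero] at hn
    rw [div_eq_div_iff hnd hnQ, hn]
  have hpol : ∀ P : MvPolynomial (Fin 2) κ, ∀ᶠ n in (U : Filter ℕ),
      aeval (bs n) (num (aeval b P)) / aeval (bs n) (den (aeval b P)) = aeval (bs n) P := by
    intro P
    have := key (aeval b P) P 1 (by rw [map_one]; exact one_ne_zero) (by rw [map_one, div_one])
    filter_upwards [this] with n hn
    rw [hn, map_one, div_one]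
  have hmul : ∀ x y : 𝓕, ∀ᶠ n in (U : Filter ℕ),
      aeval (bs n) (num (x * y)) / aeval (bs n) (den (x * y)) =
        (aeval (bs n) (num x) / aeval (bs n) (den x)) *
          (aeval (bs n) (num y) / aeval (bs n) (den y)) := by
    intro x y
    have := key (x * y) (num x * num y) (den x * den y)
      (by rw [map_mul]; exact mul_ne_zero (hden x) (hden y))
      (by rw [map_mul, map_mul, ← div_mul_div_comm, ← hfrac, ← hfrac])
    filter_upwards [this] with n hn
    rw [hn, map_mul, map_mul, div_mul_div_comm]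
  refine ⟨fun x n => aeval (bs n) (num x) / aeval (bs n) (den x), hpol, hmul, ?_, ?_⟩
  · intro x y
    have := key (x + y) (num x * den y + den x * num y) (den x * den y)
      (by rw [map_mul]; exact mul_ne_zero (hden x) (hden y))
      (by
        rw [map_add, map_mul, map_mul, map_mul, ← div_add_div _ _ (hden x) (hden y), ← hfrac,
          ← hfrac])
    filter_upwards [this, hne _ (hden x), hne _ (hden y)] with n hn h1 h2
    rw [hn, map_add, map_mul, map_mul, map_mul, div_add_div _ _ h1 h2]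
  · intro x hx
    have h1 := hmul x x⁻¹
    rw [mul_inv_cancel₀ hx] at h1
    have h2 := hpol 1
    rw [map_one] at h2
    filter_upwards [h1, h2] with n hn1 hn2
    intro h3
    rw [hn2, map_one] at hn1
    rw [h3, zero_mul] at hn1
    exact one_ne_zero hn1

/-- the limit of an absolute value along an ultrafilter -/
theorem exists_limit_abs {h : ℕ → ℝ} (hh : Tendsto h U atTop)
    (frac : ∀ y : 𝓕, ∃ P Q : MvPolynomial (Fin 2) κ,
      aeval b Q ≠ 0 ∧ y = aeval b P / aeval b Q)
    (hker : ∀ P : MvPolynomial (Fin 2) κ,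
      aeval b P = 0 ↔ ∀ᶠ n in (U : Filter ℕ), aeval (bs n) P = 0)
    (v : AbsoluteValue κ ℝ)
    (hv : ∀ P : MvPolynomial (Fin 2) κ, (∀ᶠ n in (U : Filter ℕ), aeval (bs n) P ≠ 0) →
      ∃ C : ℝ, ∀ᶠ n in (U : Filter ℕ), |Real.log (v (aeval (bs n) P))| ≤ C * h n) :
    ∃ w : AbsoluteValue 𝓕 ℝ, (∀ x y : 𝓕, w (x + y) ≤ max (w x) (w y)) ∧
      (∀ c : κ, c ≠ 0 → w (algebraMap κ 𝓕 c) = 1) ∧ LimRel U h bs b v w := by
  obtain ⟨r, rpol, rmul, radd, rne⟩ := exists_rep frac hker
  have hpos : ∀ᶠ n in (U : Filter ℕ), 0 < h n := hh.eventually_gt_atTop 0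
  have hne : ∀ Q : MvPolynomial (Fin 2) κ, aeval b Q ≠ 0 →
      ∀ᶠ n in (U : Filter ℕ), aeval (bs n) Q ≠ 0 := by
    intro Q hQ
    have : ¬ ∀ᶠ n in (U : Filter ℕ), aeval (bs n) Q = 0 := fun h => hQ ((hker Q).2 h)
    exact Ultrafilter.eventually_not.2 this
  have hbd : ∀ x : 𝓕, x ≠ 0 → ∃ l : ℝ,
      Tendsto (fun n => Real.log (v (r x n)) / h n) U (𝓝 l) := by
    intro x hx
    obtain ⟨P, Q, hQ, hxPQ⟩ := frac x
    have hP : aeval b P ≠ 0 := by
      intro h0
      rw [h0, zero_div] at hxPQ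
      exact hx hxPQ
    have hxQ : x * aeval b Q = aeval b P := by
      rw [hxPQ, div_mul_cancel₀ _ hQ]
    obtain ⟨C1, hC1⟩ := hv P (hne P hP)
    obtain ⟨C2, hC2⟩ := hv Q (hne Q hQ)
    have h1 := rmul x (aeval b Q)
    rw [hxQ] at h1
    have hmem : ∀ᶠ n in (U : Filter ℕ),
        Real.log (v (r x n)) / h n ∈ Set.Icc (-(C1 + C2)) (C1 + C2) := by
      filter_upwards [h1, rpol P, rpol Q, rne x hx, hne Q hQ, hpos, hC1, hC2] with
        n e1 e2 e3 e4 e5 e6 e7 e8
      rw [e2, e3] at e1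
      have e9 : Real.log (v (r x n)) = Real.log (v (aeval (bs n) P)) -
          Real.log (v (aeval (bs n) Q)) := by
        rw [e1, map_mul, Real.log_mul (v.ne_zero e4) (v.ne_zero e5)]
        ring
      rw [Set.mem_Icc, div_le_iff₀ e6, le_div_iff₀ e6, e9]
      have a1 := abs_le.1 e7
      have a2 := abs_le.1 e8
      constructor
      · nlinarith [a1.1, a2.2]
      · nlinarith [a1.2, a2.1]
    obtain ⟨l, -, hl⟩ := isCompact_Icc.ultrafilter_le_nhds
      (U.map fun n => Real.log (v (r x n)) / h n) (by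
        rw [Ultrafilter.coe_map, Filter.le_principal_iff, Filter.mem_map]
        exact hmem)
    exact ⟨l, by rw [Ultrafilter.coe_map] at hl; exact hl⟩
  choose! l hl using hbd
  have hlmul : ∀ x y : 𝓕, x ≠ 0 → y ≠ 0 → l (x * y) = l x + l y := by
    intro x y hx hy
    have h1 := (hl x hx).add (hl y hy)
    refine tendsto_nhds_unique (hl (x * y) (mul_ne_zero hx hy)) (h1.congr' ?_)
    filter_upwards [rmul x y, rne x hx, rne y hy] with n e1 e2 e3
    rw [e1, map_mul, Real.log_mul (v.ne_zero e2) (v.ne_zero e3), add_div]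
  have hladd : ∀ x y : 𝓕, x ≠ 0 → y ≠ 0 → x + y ≠ 0 → l (x + y) ≤ max (l x) (l y) := by
    intro x y hx hy hxy
    have h1 := (hl x hx).max (hl y hy)
    have h2 : Tendsto (fun n => Real.log 2 / h n) U (𝓝 0) :=
      Tendsto.div_atTop tendsto_const_nhds hh
    have h3 := h1.add h2
    rw [add_zero] at h3
    refine le_of_tendsto_of_tendsto (hl (x + y) hxy) h3 ?_
    filter_upwards [radd x y, rne x hx, rne y hy, rne (x + y) hxy, hpos] with n e1 e2 e3 e4 e5
    have p1 : 0 < v (r x n) := v.pos e2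
    have p2 : 0 < v (r y n) := v.pos e3
    have p3 : 0 < v (r (x + y) n) := v.pos e4
    have p4 : v (r (x + y) n) ≤ max (v (r x n)) (v (r y n)) * 2 := by
      rw [e1]
      refine (v.add_le _ _).trans ?_
      have := le_max_left (v (r x n)) (v (r y n))
      have := le_max_right (v (r x n)) (v (r y n))
      linarith
    have p5 : Real.log (v (r (x + y) n)) ≤
        Real.log (max (v (r x n)) (v (r y n))) + Real.log 2 := by
      rw [← Real.log_mul (lt_of_lt_of_le p1 (le_max_left _ _)).ne' two_ne_zero]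
      exact Real.log_le_log p3 p4
    have p6 : Real.log (max (v (r x n)) (v (r y n))) =
        max (Real.log (v (r x n))) (Real.log (v (r y n))) := by
      rcases le_total (v (r x n)) (v (r y n)) with hle | hle
      · rw [max_eq_right hle, max_eq_right (Real.log_le_log p1 hle)]
      · rw [max_eq_left hle, max_eq_left (Real.log_le_log p2 hle)]
    rw [p6] at p5
    rw [max_div_div_right e5.le, ← add_div]
    exact div_le_div_of_nonneg_right p5 e5.le
  have hlconst : ∀ c : κ, c ≠ 0 → l (algebraMap κ 𝓕 c) = 0 := by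
    intro c hc
    have hc' : algebraMap κ 𝓕 c ≠ 0 := by
      rw [Ne, map_eq_zero]
      exact hc
    have h2 : Tendsto (fun n => Real.log (v c) / h n) U (𝓝 0) :=
      Tendsto.div_atTop tendsto_const_nhds hh
    refine tendsto_nhds_unique (hl _ hc') (h2.congr' ?_)
    have := rpol (C c)
    rw [aeval_C] at this
    filter_upwards [this] with n hn
    rw [hn, aeval_C]
    rfl
  classical
  have hw0 : ∀ x : 𝓕, x ≠ 0 → (if x = 0 then (0 : ℝ) else Real.exp (l x)) = Real.exp (l x) :=
    fun x hx => if_neg hx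
  have hnonarch : ∀ x y : 𝓕, (if x + y = 0 then (0 : ℝ) else Real.exp (l (x + y))) ≤
      max (if x = 0 then (0 : ℝ) else Real.exp (l x))
        (if y = 0 then (0 : ℝ) else Real.exp (l y)) := by
    intro x y
    by_cases hx : x = 0
    · subst hx
      rw [zero_add]
      exact le_max_right _ _
    by_cases hy : y = 0
    · subst hy
      rw [add_zero]
      exact le_max_left _ _
    rw [if_neg hx, if_neg hy]
    by_cases hxy : x + y = 0
    · rw [if_pos hxy]
      exact (Real.exp_pos _).le.trans (le_max_left _ _)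
    · rw [if_neg hxy]
      rcases le_max_iff.1 (hladd x y hx hy hxy) with h1 | h1
      · exact (Real.exp_le_exp.2 h1).trans (le_max_left _ _)
      · exact (Real.exp_le_exp.2 h1).trans (le_max_right _ _)
  let w : AbsoluteValue 𝓕 ℝ :=
    { toFun := fun x => if x = 0 then 0 else Real.exp (l x)
      map_mul' := by
        intro x y
        by_cases hx : x = 0
        · simp [hx]
        by_cases hy : y = 0
        · simp [hy]
        rw [if_neg hx, if_neg hy, if_neg (mul_ne_zero hx hy), hlmul x y hx hy, Real.exp_add]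
      nonneg' := by
        intro x
        by_cases hx : x = 0
        · simp [hx]
        · rw [if_neg hx]
          exact (Real.exp_pos _).le
      eq_zero' := by
        intro x
        by_cases hx : x = 0
        · simp [hx]
        · simp [hx, (Real.exp_pos _).ne']
      add_le' := by
        intro x y
        refine (hnonarch x y).trans (max_le ?_ ?_)
        · refine le_add_of_nonneg_right ?_
          by_cases hy : y = 0
          · simp [hy]
          · rw [if_neg hy]
            exact (Real.exp_pos _).le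
        · refine le_add_of_nonneg_left ?_
          by_cases hx : x = 0
          · simp [hx]
          · rw [if_neg hx]
            exact (Real.exp_pos _).le }
  have hw : ∀ x : 𝓕, x ≠ 0 → w x = Real.exp (l x) := fun x hx => if_neg hx
  refine ⟨w, hnonarch, ?_, ?_⟩
  · intro c hc
    have hc' : algebraMap κ 𝓕 c ≠ 0 := by
      rw [Ne, map_eq_zero]
      exact hc
    rw [hw _ hc', hlconst c hc, Real.exp_zero]
  · intro P hP
    rw [hw _ hP, Real.log_exp]
    refine (hl _ hP).congr' ?_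
    filter_upwards [rpol P] with n hn
    rw [hn]

end Rep

theorem exists_system [IsAlgClosed κ] [CharZero κ] (U : Ultrafilter ℕ) (h : ℕ → ℝ)
    (hh : Tendsto h U atTop) (bs : ℕ → Fin 2 → κ)
    (hrel : ∃ P : MvPolynomial (Fin 2) κ, P ≠ 0 ∧ ∀ᶠ n in (U : Filter ℕ), aeval (bs n) P = 0)
    (hnc : ¬ ∀ i, ∃ c : κ, ∀ᶠ n in (U : Filter ℕ), bs n i = c) :
    ∃ (𝓕 : Type) (_ : Field 𝓕) (_ : Algebra κ 𝓕) (b : Fin 2 → 𝓕) (g : MvPolynomial (Fin 2) κ),
      CurveField b g ∧
      (∀ P : MvPolynomial (Fin 2) κ, aeval b P = 0 ↔ ∀ᶠ n in (U : Filter ℕ), aeval (bs n) P = 0) ∧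
      ∀ v : AbsoluteValue κ ℝ,
        (∀ P : MvPolynomial (Fin 2) κ, (∀ᶠ n in (U : Filter ℕ), aeval (bs n) P ≠ 0) →
          ∃ C : ℝ, ∀ᶠ n in (U : Filter ℕ), |Real.log (v (aeval (bs n) P))| ≤ C * h n) →
        ∃ w : AbsoluteValue 𝓕 ℝ, (∀ x y : 𝓕, w (x + y) ≤ max (w x) (w y)) ∧
          (∀ c : κ, c ≠ 0 → w (algebraMap κ 𝓕 c) = 1) ∧ LimRel U h bs b v w := by
  have hprime := ultraIdeal_isPrime U bs
  have hmax : ¬ (ultraIdeal U bs).IsMaximal := by
    intro hM
    obtain ⟨c, hc⟩ := (isMaximal_iff_eq_vanishingIdeal_singleton (K := κ)).1 hM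
    refine hnc fun i => ⟨c i, ?_⟩
    have h1 : (X i - C (c i) : MvPolynomial (Fin 2) κ) ∈ ultraIdeal U bs := by
      rw [hc, mem_vanishingIdeal_singleton_iff]
      simp
    rw [mem_ultraIdeal] at h1
    filter_upwards [h1] with n hn
    rw [map_sub, aeval_X, aeval_C, sub_eq_zero] at hn
    exact hn
  have h0 : ultraIdeal U bs ≠ ⊥ := by
    obtain ⟨P, hP0, hP⟩ := hrel
    intro hbot
    have h1 : P ∈ ultraIdeal U bs := hP
    rw [hbot] at h1
    exact hP0 (by simpa using h1)
  obtain ⟨g, hg, hIg⟩ := principal_of_prime _ hprime h0 hmax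
  have := hprime
  let A := MvPolynomial (Fin 2) κ ⧸ ultraIdeal U bs
  let 𝓕 := FractionRing A
  let b : Fin 2 → 𝓕 := fun i => algebraMap A 𝓕 (Ideal.Quotient.mk _ (X i))
  have hb : ∀ P : MvPolynomial (Fin 2) κ, aeval b P = algebraMap A 𝓕 (Ideal.Quotient.mk _ P) := by
    intro P
    have h1 : (aeval b : MvPolynomial (Fin 2) κ →ₐ[κ] 𝓕) =
        (IsScalarTower.toAlgHom κ A 𝓕).comp (Ideal.Quotient.mkₐ κ (ultraIdeal U bs)) := by
      ext i
      simp [b]
      rfl
    rw [h1]
    rfl
  have hinj : Function.Injective (algebraMap A 𝓕) := IsFractionRing.injective A 𝓕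
  have hker : ∀ P : MvPolynomial (Fin 2) κ,
      aeval b P = 0 ↔ ∀ᶠ n in (U : Filter ℕ), aeval (bs n) P = 0 := by
    intro P
    rw [hb, map_eq_zero_iff _ hinj, Ideal.Quotient.eq_zero_iff_mem, mem_ultraIdeal]
  have hfrac : ∀ y : 𝓕, ∃ P Q : MvPolynomial (Fin 2) κ,
      aeval b Q ≠ 0 ∧ y = aeval b P / aeval b Q := by
    intro y
    obtain ⟨p, q, hq, hy⟩ := IsFractionRing.div_surjective (A := A) y
    obtain ⟨P, rfl⟩ := Ideal.Quotient.mk_surjective p
    obtain ⟨Q, rfl⟩ := Ideal.Quotient.mk_surjective q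
    refine ⟨P, Q, ?_, ?_⟩
    · rw [hb, Ne, map_eq_zero_iff _ hinj]
      exact nonZeroDivisors.ne_zero hq
    · rw [hb, hb, hy]
  refine ⟨𝓕, inferInstance, inferInstance, b, g, ⟨hg, ?_, hfrac⟩, hker, ?_⟩
  · intro P
    rw [hker, ← mem_ultraIdeal, hIg, Ideal.mem_span_singleton]
  · intro v hv
    exact exists_limit_abs hh hfrac hker v hv

end Seq

end Pool.Agent.SST
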