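import Pool.Agent.SST.T2Limit
import Pool.Agent.SST.System
import Pool.Agent.SST.Tame
import Pool.Agent.SST.SubLim
import Pool.Agent.SST.LiouLim
import Pool.Agent.SST.GenericForm
import Pool.Agent.SST.GoodPoint

/-! The limit of the height inequality along a sequence of forms. -/

open MvPolynomial Filter Module
open scoped Topology

namespace Pool.Agent.SST

/-- the polynomial whose value is `fq α` -/
noncomputable def fqP {κ : Type} [Field κ] (α : κ) : MvPolynomial (Fin 2) κ :=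
  C α ^ 2 + X 0 * C α + X 1

/-- the polynomial whose value is `dq` -/
noncomputable def dqP (κ : Type) [Field κ] : MvPolynomial (Fin 2) κ := X 0 ^ 2 - 4 * X 1

lemma aeval_fqP {κ 𝓕 : Type} [Field κ] [Field 𝓕] [Algebra κ 𝓕] (α : κ) (b : Fin 2 → 𝓕) :
    aeval b (fqP α) = fq α b := by
  rw [fqP, fq]
  simp

lemma aeval_dqP {κ 𝓕 : Type} [Field κ] [Field 𝓕] [Algebra κ 𝓕] (b : Fin 2 → 𝓕) :
    aeval b (dqP κ) = dq b := by
  rw [dqP, dq]
  simp

lemma map_bsq (γ : Qb ≃+* Qb) (f : Fin 3 → ℤ) (i : Fin 2) : γ (bsq f i) = bsq f i := by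
  fin_cases i <;> simp [bsq]

lemma map_aeval_bsq (γ : Qb ≃+* Qb) (f : Fin 3 → ℤ) (P : MvPolynomial (Fin 2) Qb) :
    γ (aeval (bsq f) P) = aeval (bsq f) (map (γ : Qb →+* Qb) P) := by
  have h1 := MvPolynomial.eval₂_comp_left (γ : Qb →+* Qb) (algebraMap Qb Qb) (bsq f) P
  have h2 : (γ : Qb →+* Qb) ∘ bsq f = bsq f := funext fun i => map_bsq γ f i
  rw [h2] at h1
  change (γ : Qb →+* Qb) (aeval (bsq f) P) = _
  rw [MvPolynomial.aeval_def, h1, MvPolynomial.aeval_def, MvPolynomial.eval₂_map]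
  rfl

lemma hom_scale {K : Type} [Field K] (G : MvPolynomial (Fin 3) ℤ) (n : ℕ) (hG : G.IsHomogeneous n)
    (x : Fin 3 → K) (c : K) :
    eval₂ (Int.castRingHom K) (fun i => c * x i) G = c ^ n * eval₂ (Int.castRingHom K) x G := by
  rw [eval₂_eq', eval₂_eq', Finset.mul_sum]
  refine Finset.sum_congr rfl fun d hd => ?_
  have h1 : ∑ i, d i = n := by
    rw [hG.degree_eq_sum_deg_support hd]
    refine (Finset.sum_subset (Finset.subset_univ _) fun i _ hi => ?_).symm
    exact Finsupp.notMem_support_iff.mp hi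
  rw [← h1, ← Finset.prod_pow_eq_pow_sum, mul_left_comm, ← Finset.prod_mul_distrib]
  congr 1
  exact Finset.prod_congr rfl fun i _ => mul_pow _ _ _

/-- a form vanishing along the sequence gives a relation between the coordinates -/
lemma rel_of_form {U : Ultrafilter ℕ} {f : ℕ → Fin 3 → ℤ} (h0 : ∀ n, f n 0 ≠ 0)
    (G : MvPolynomial (Fin 3) ℤ) (k : ℕ) (hG0 : G ≠ 0) (hG : G.IsHomogeneous k)
    (hz : ∀ᶠ n in (U : Filter ℕ), eval (f n) G = 0) :
    ∃ P : MvPolynomial (Fin 2) Qb, P ≠ 0 ∧ ∀ᶠ n in (U : Filter ℕ), aeval (bsq (f n)) P = 0 := by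
  set P : MvPolynomial (Fin 2) Qb := eval₂ (Int.castRingHom _)
    (![1, X 0, X 1] : Fin 3 → MvPolynomial (Fin 2) Qb) G with hP
  have hPe : ∀ y : Fin 2 → Qb, eval y P = eval₂ (Int.castRingHom Qb) ![1, y 0, y 1] G := by
    intro y
    rw [hP]
    have h1 := MvPolynomial.eval₂_comp_left (eval y) (Int.castRingHom (MvPolynomial (Fin 2) Qb))
      (![1, X 0, X 1] : Fin 3 → MvPolynomial (Fin 2) Qb) G
    rw [h1]
    congr 1
    · exact Subsingleton.elim _ _
    · funext i
      fin_cases i <;> simp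
  refine ⟨P, ?_, ?_⟩
  · intro hP0
    have h1 : ∀ x : Fin 3 → Qb, x 0 ≠ 0 → eval₂ (Int.castRingHom Qb) x G = 0 := by
      intro x hx
      have h2 := hPe ![x 1 / x 0, x 2 / x 0]
      rw [hP0, map_zero] at h2
      have h3 : x = fun i => x 0 * (![1, x 1 / x 0, x 2 / x 0] : Fin 3 → Qb) i := by
        funext i
        fin_cases i
        · simp
        · simp [mul_div_cancel₀ _ hx]
        · simp [mul_div_cancel₀ _ hx]
      rw [h3, hom_scale G k hG]
      have h4 : eval₂ (Int.castRingHom Qb) (![1, x 1 / x 0, x 2 / x 0] : Fin 3 → Qb) G = 0 :=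
        h2.symm
      rw [h4, mul_zero]
    have h5 : (X 0 * map (Int.castRingHom Qb) G : MvPolynomial (Fin 3) Qb) = 0 := by
      apply MvPolynomial.funext
      intro x
      rw [map_mul, eval_X, map_zero, eval_map]
      by_cases hx : x 0 = 0
      · rw [hx, zero_mul]
      · rw [h1 x hx, mul_zero]
    rcases mul_eq_zero.mp h5 with h6 | h6
    · exact absurd h6 (X_ne_zero 0)
    · exact hG0 (MvPolynomial.map_injective _ Int.cast_injective (by rw [h6, map_zero]))
  · filter_upwards [hz] with n hn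
    have hn0 : (f n 0 : Qb) ≠ 0 := by exact_mod_cast h0 n
    have h1 : aeval (bsq (f n)) P = eval₂ (Int.castRingHom Qb) ![1, bsq (f n) 0, bsq (f n) 1] G := by
      rw [← hPe]
      rfl
    have h2 : (![1, bsq (f n) 0, bsq (f n) 1] : Fin 3 → Qb) =
        fun i => (f n 0 : Qb)⁻¹ * (f n i : Qb) := by
      funext i
      fin_cases i
      · simp [inv_mul_cancel₀ hn0]
      · simp [bsq, div_eq_inv_mul]
      · simp [bsq, div_eq_inv_mul]
    rw [h1, h2, hom_scale G k hG]
    have h3 : eval₂ (Int.castRingHom Qb) (fun i => (f n i : Qb)) G = 0 := by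
      have h4 := MvPolynomial.eval₂_comp_left (Int.castRingHom Qb) (RingHom.id ℤ) (f n) G
      have h5 : eval₂ (RingHom.id ℤ) (f n) G = 0 := hn
      rw [h5, map_zero] at h4
      exact h4.symm
    rw [h3, mul_zero]


lemma fqP_ne (α : Qb) : fqP α ≠ 0 := by
  intro h0
  have h1 := congrArg (eval (![0, 1 - α ^ 2] : Fin 2 → Qb)) h0
  rw [fqP] at h1
  simp at h1

section Q

variable {T : Type} [Fintype T] [DecidableEq T] (p : T → ℕ) [∀ t, Fact (p t).Prime]

lemma placesQ_int_none (ι : Qb →+* ℂ) (ι' : ∀ t, Qb →+* ℂ_[p t]) (n : ℤ) :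
    placesQ p ι ι' none (n : Qb) = |(n : ℝ)| := by
  change ‖ι (n : Qb)‖ = _
  rw [map_intCast, Complex.norm_intCast]

lemma placesQ_int_some (ι : Qb →+* ℂ) (ι' : ∀ t, Qb →+* ℂ_[p t]) (t : T) (n : ℤ) :
    placesQ p ι ι' (some t) (n : Qb) = ‖(n : ℚ_[p t])‖ := by
  change ‖ι' t (n : Qb)‖ = _
  rw [map_intCast, norm_intCast_padic]

lemma bsq_val (f : Fin 3 → ℤ) (h0 : f 0 ≠ 0) (α : Qb) :
    fq α (bsq f) = evK f (α : OnePoint Qb) / (f 0 : Qb) := by
  have h0' : (f 0 : Qb) ≠ 0 := by exact_mod_cast h0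
  change (algebraMap Qb Qb α) ^ 2 + (f 1 : Qb) / (f 0 : Qb) * (algebraMap Qb Qb α) +
    (f 2 : Qb) / (f 0 : Qb) = ((f 0 : Qb) * α ^ 2 + (f 1 : Qb) * α + (f 2 : Qb)) / (f 0 : Qb)
  rw [Algebra.algebraMap_self, RingHom.id_apply]
  field_simp

lemma bsq_disc (f : Fin 3 → ℤ) (h0 : f 0 ≠ 0) :
    dq (bsq f) = ((discq f : ℤ) : Qb) / (f 0 : Qb) ^ 2 := by
  have h0' : (f 0 : Qb) ≠ 0 := by exact_mod_cast h0
  change ((f 1 : Qb) / (f 0 : Qb)) ^ 2 - 4 * ((f 2 : Qb) / (f 0 : Qb)) = _
  rw [discq]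
  push_cast
  field_simp

lemma map_evK {A : Type} [Field A] (ι : Qb →+* A) (f : Fin 3 → ℤ) (α : Qb) :
    ι (evK f (α : OnePoint Qb)) = evK f (OnePoint.map ι (α : OnePoint Qb)) := by
  change ι ((f 0 : Qb) * α ^ 2 + (f 1 : Qb) * α + (f 2 : Qb)) =
    (f 0 : A) * (ι α) ^ 2 + (f 1 : A) * (ι α) + (f 2 : A)
  simp

lemma discq_ne_of_not_sq {f : Fin 3 → ℤ} (h : ¬ IsSquare (discq f)) : discq f ≠ 0 :=
  fun h0 => h (h0 ▸ ⟨0, by simp⟩)

lemma f2_ne_of_not_sq {f : Fin 3 → ℤ} (h : ¬ IsSquare (discq f)) : f 2 ≠ 0 := by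
  intro h0
  apply h
  refine ⟨f 1, ?_⟩
  rw [discq, h0]
  ring

/-- an irreducible form has no rational root -/
lemma no_rat_root {f : Fin 3 → ℤ} (h : ¬ IsSquare (discq f)) (h0 : f 0 ≠ 0) (r : ℚ)
    (hr : (f 0 : ℚ) * r ^ 2 + (f 1 : ℚ) * r + (f 2 : ℚ) = 0) : False := by
  apply h
  have h1 : ((discq f : ℤ) : ℚ) = (2 * (f 0 : ℚ) * r + (f 1 : ℚ)) ^ 2 := by
    rw [discq]
    push_cast
    linear_combination (-4 * (f 0 : ℚ)) * hr
  have h2 : IsSquare ((discq f : ℤ) : ℚ) := ⟨_, by rw [h1, sq]⟩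
  exact Rat.isSquare_intCast_iff.mp h2


lemma padic_inv_le (p : ℕ) [Fact p.Prime] (n : ℤ) (hn : n ≠ 0) : |(n : ℝ)|⁻¹ ≤ ‖(n : ℂ_[p])‖ := by
  have h1 := sk_prod_ge (T := Unit) (fun _ => p) (fun a b _ => Subsingleton.elim a b) n hn
  rw [Fintype.prod_unique] at h1
  rw [norm_intCast_padic]
  have h0 : 0 < |(n : ℝ)| := abs_pos.mpr (by exact_mod_cast hn)
  rw [inv_le_iff_one_le_mul₀' h0]
  exact h1

lemma log_bsq_le (ι : Qb →+* ℂ) (ι' : ∀ t, Qb →+* ℂ_[p t]) {U : Ultrafilter ℕ} {h : ℕ → ℝ}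
    {f : ℕ → Fin 3 → ℤ} (hs : SeqData p U h f) (l : Option T) :
    ∃ u : ℕ → ℝ, Tendsto (fun n => u n / h n) U (𝓝 0) ∧
      ∀ n i, Real.log (placesQ p ι ι' l (bsq (f n) i)) ≤ u n := by
  have hf : ∀ n (i : Fin 2), ∃ j : Fin 3, bsq (f n) i = ((f n j : ℤ) : Qb) / ((f n 0 : ℤ) : Qb) := by
    intro n i
    fin_cases i
    · exact ⟨1, rfl⟩
    · exact ⟨2, rfl⟩
  have hpos : ∀ᶠ n in (U : Filter ℕ), h n ≠ 0 :=
    (hs.tend.eventually_gt_atTop 0).mono fun n hn => hn.ne'
  cases l with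
  | none =>
    refine ⟨fun n => h n - Real.log |((f n 0 : ℤ) : ℝ)|, ?_, ?_⟩
    · have h1 : Tendsto (fun n => 1 - Real.log |((f n 0 : ℤ) : ℝ)| / h n) U (𝓝 (1 - 1)) :=
        tendsto_const_nhds.sub hs.lim0
      rw [sub_self] at h1
      refine h1.congr' ?_
      filter_upwards [hpos] with n hn
      rw [sub_div, div_self hn]
    · intro n i
      obtain ⟨j, hj⟩ := hf n i
      have h0 : 0 < |((f n 0 : ℤ) : ℝ)| := abs_pos.mpr (by exact_mod_cast hs.ne n)
      have h1 : Real.log |((f n 0 : ℤ) : ℝ)| ≤ h n := by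
        rw [← Real.log_exp (h n)]
        exact Real.log_le_log h0 (hs.le n 0)
      rw [hj, map_div₀, placesQ_int_none, placesQ_int_none]
      rcases eq_or_ne (f n j) 0 with hz | hz
      · rw [hz, Int.cast_zero, abs_zero, zero_div, Real.log_zero]
        linarith
      · have h2 : 0 < |((f n j : ℤ) : ℝ)| := abs_pos.mpr (by exact_mod_cast hz)
        have h3 : Real.log |((f n j : ℤ) : ℝ)| ≤ h n := by
          rw [← Real.log_exp (h n)]
          exact Real.log_le_log h2 (hs.le n j)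
        rw [Real.log_div h2.ne' h0.ne']
        linarith
  | some t =>
    refine ⟨fun n => -Real.log ‖((f n 0 : ℤ) : ℚ_[p t])‖, ?_, ?_⟩
    · have h1 := (hs.limt t).neg
      rw [neg_zero] at h1
      refine h1.congr fun n => ?_
      rw [neg_div]
    · intro n i
      obtain ⟨j, hj⟩ := hf n i
      have h0 : 0 < ‖((f n 0 : ℤ) : ℚ_[p t])‖ := norm_pos_iff.mpr (by exact_mod_cast hs.ne n)
      have h1 : Real.log ‖((f n 0 : ℤ) : ℚ_[p t])‖ ≤ 0 :=
        Real.log_nonpos h0.le (Padic.norm_int_le_one _)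
      rw [hj, map_div₀, placesQ_int_some, placesQ_int_some]
      rcases eq_or_ne (f n j) 0 with hz | hz
      · rw [hz, Int.cast_zero, norm_zero, zero_div, Real.log_zero]
        linarith
      · have h2 : 0 < ‖((f n j : ℤ) : ℚ_[p t])‖ := norm_pos_iff.mpr (by exact_mod_cast hz)
        rw [Real.log_div h2.ne' h0.ne']
        have h3 : Real.log ‖((f n j : ℤ) : ℚ_[p t])‖ ≤ 0 :=
          Real.log_nonpos h2.le (Padic.norm_int_le_one _)
        linarith

/-- the forms of a non-constant sequence have no common root -/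
lemma no_common_root {U : Ultrafilter ℕ} {f : ℕ → Fin 3 → ℤ} (h0 : ∀ n, f n 0 ≠ 0)
    (hirr : ∀ n, ¬ IsSquare (discq (f n)))
    (hconst : ¬ ∀ i, ∃ c : Qb, ∀ᶠ n in (U : Filter ℕ), bsq (f n) i = c) (α : Qb) :
    ¬ ∀ᶠ n in (U : Filter ℕ), fq α (bsq (f n)) = 0 := by
  intro hz
  apply hconst
  have hval : ∀ n, fq α (bsq (f n)) = α ^ 2 + bsq (f n) 0 * α + bsq (f n) 1 := fun n => rfl
  have hrat : ∀ n (i : Fin 2), ∃ r : ℚ, bsq (f n) i = algebraMap ℚ Qb r := by
    intro n i
    fin_cases i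
    · exact ⟨(f n 1 : ℚ) / (f n 0 : ℚ), by simp [bsq]⟩
    · exact ⟨(f n 2 : ℚ) / (f n 0 : ℚ), by simp [bsq]⟩
  by_cases hα : ∃ r : ℚ, algebraMap ℚ Qb r = α
  · exfalso
    obtain ⟨r, hr⟩ := hα
    obtain ⟨n, hn⟩ := hz.exists
    refine no_rat_root (hirr n) (h0 n) r ?_
    have h1 : (f n 0 : Qb) ≠ 0 := by exact_mod_cast h0 n
    rw [bsq_val (f n) (h0 n), div_eq_zero_iff, or_iff_left h1] at hn
    have h2 : algebraMap ℚ Qb ((f n 0 : ℚ) * r ^ 2 + (f n 1 : ℚ) * r + (f n 2 : ℚ)) = 0 := by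
      rw [← hn]
      change _ = (f n 0 : Qb) * α ^ 2 + (f n 1 : Qb) * α + (f n 2 : Qb)
      rw [← hr]
      simp
    exact (map_eq_zero (algebraMap ℚ Qb)).mp h2
  · obtain ⟨m, hm⟩ := hz.exists
    have hkey : ∀ᶠ n in (U : Filter ℕ), bsq (f n) 0 = bsq (f m) 0 ∧ bsq (f n) 1 = bsq (f m) 1 := by
      filter_upwards [hz] with n hn
      rw [hval] at hn hm
      obtain ⟨r₀, hr₀⟩ := hrat n 0
      obtain ⟨r₁, hr₁⟩ := hrat n 1
      obtain ⟨s₀, hs₀⟩ := hrat m 0
      obtain ⟨s₁, hs₁⟩ := hrat m 1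
      rw [hr₀, hr₁] at hn ⊢
      rw [hs₀, hs₁] at hm ⊢
      have h1 : r₀ = s₀ := by
        by_contra hne
        apply hα
        refine ⟨(s₁ - r₁) / (r₀ - s₀), ?_⟩
        have h2 : (algebraMap ℚ Qb (r₀ - s₀)) ≠ 0 := by
          rw [Ne, map_eq_zero]
          exact sub_ne_zero.mpr hne
        rw [map_div₀, div_eq_iff h2, map_sub, map_sub]
        linear_combination hm - hn
      subst h1
      exact ⟨rfl, by linear_combination hn - hm⟩
    intro i
    fin_cases i
    · exact ⟨bsq (f m) 0, hkey.mono fun n hn => hn.1⟩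
    · exact ⟨bsq (f m) 1, hkey.mono fun n hn => hn.2⟩

theorem lim_all (hp : Function.Injective p) (ι : Qb →+* ℂ) (ι' : ∀ t, Qb →+* ℂ_[p t])
    {U : Ultrafilter ℕ} {h : ℕ → ℝ} {f : ℕ → Fin 3 → ℤ} (hs : SeqData p U h f)
    (hirr : ∀ n, ¬ IsSquare (discq (f n)))
    (hmax : ∀ n, h n = Real.log (maxq (f n))) (D : Finset Qb)
    (hD : ∀ σ : Qb ≃+* Qb, ∀ α ∈ D, σ α ∈ D) (ε : ℝ) (hε : 0 < ε) :
    ∀ᶠ n in (U : Filter ℕ),
      ∑ l, (∑ α ∈ D, -Real.log (placesQ p ι ι' l (fq α (bsq (f n)))) -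
        Real.log (placesQ p ι ι' l (dq (bsq (f n))))) ≤ (4 + ε) * h n := by
  classical
  set V := placesQ p ι ι' with hV
  have hpos : ∀ᶠ n in (U : Filter ℕ), 0 < h n := hs.tend.eventually_gt_atTop 0
  by_cases hrel : ∃ P : MvPolynomial (Fin 2) Qb, P ≠ 0 ∧
      ∀ᶠ n in (U : Filter ℕ), aeval (bsq (f n)) P = 0
  · -- the points lie on a curve
    by_cases hconst : ∀ i, ∃ c : Qb, ∀ᶠ n in (U : Filter ℕ), bsq (f n) i = c
    · choose c hc using hconst
      have h1 : ∀ᶠ n in (U : Filter ℕ), bsq (f n) = c := by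
        filter_upwards [hc 0, hc 1] with n h0 h1
        funext i
        fin_cases i
        · exact h0
        · exact h1
      have h2 := hs.tend.eventually_ge_atTop ((∑ l, (∑ α ∈ D, -Real.log (V l (fq α c)) -
        Real.log (V l (dq c)))) / (4 + ε))
      filter_upwards [h1, h2] with n hn1 hn2
      rw [div_le_iff₀ (by linarith)] at hn2
      rw [hn1]
      linarith
    obtain ⟨𝓕, _, _, b, g, hC, hker, hv⟩ := exists_system U h hs.tend (fun n => bsq (f n))
      hrel hconst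
    have htw : ∀ l (γ : Qb ≃+* Qb), ∃ w : AbsoluteValue 𝓕 ℝ,
        (∀ x y : 𝓕, w (x + y) ≤ max (w x) (w y)) ∧
        (∀ c : Qb, c ≠ 0 → w (algebraMap Qb 𝓕 c) = 1) ∧
        LimRel U h (fun n => bsq (f n)) b ((V l).comp (f := (γ : Qb →+* Qb)) γ.injective) w := by
      intro l γ
      apply hv
      intro P hP
      cases l with
      | none =>
        exact tame p hs (A := ℂ) (fun n => by rw [Complex.norm_intCast])
          (fun n hn => by
            rw [Complex.norm_intCast]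
            have h1 : (1 : ℝ) ≤ |(n : ℝ)| := by exact_mod_cast Int.one_le_abs hn
            exact (inv_le_one_of_one_le₀ h1).trans h1) (ι.comp (γ : Qb →+* Qb)) P hP
      | some t =>
        exact tame p hs (A := ℂ_[p t]) (fun n => norm_intCast_padic_le (p t) n)
          (fun n hn => padic_inv_le (p t) n hn) ((ι' t).comp (γ : Qb →+* Qb)) P hP
    choose w' hna htr hlim' using htw
    set w : Option T → AbsoluteValue 𝓕 ℝ := fun l => w' l (RingEquiv.refl Qb) with hw
    have hlim : ∀ l, LimRel U h (fun n => bsq (f n)) b (V l) (w l) := fun l P hP =>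
      hlim' l (RingEquiv.refl Qb) P hP
    have hev : ∀ P : MvPolynomial (Fin 2) Qb, aeval b P ≠ 0 →
        ∀ᶠ n in (U : Filter ℕ), aeval (bsq (f n)) P ≠ 0 := by
      intro P hP
      have h1 : ¬ ∀ᶠ n in (U : Filter ℕ), aeval (bsq (f n)) P = 0 := fun h => hP ((hker P).mpr h)
      exact Ultrafilter.eventually_not.mpr h1
    have hle : ∀ l γ i, w' l γ (b i) ≤ 1 := by
      intro l γ i
      by_cases hbi : b i = 0
      · rw [hbi, map_zero]
        exact zero_le_one
      obtain ⟨u, hu0, hu⟩ := log_bsq_le p ι ι' hs l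
      have h1 := hlim' l γ (X i) (by rw [aeval_X]; exact hbi)
      rw [aeval_X] at h1
      have h2 : Real.log (w' l γ (b i)) ≤ 0 := by
        refine le_of_tendsto_of_tendsto h1 hu0 ?_
        filter_upwards [hpos] with n hn
        refine div_le_div_of_nonneg_right ?_ hn.le
        change Real.log (V l (γ (aeval (bsq (f n)) (X i)))) ≤ u n
        rw [aeval_X, map_bsq]
        exact hu n i
      by_contra hcon
      push Not at hcon
      exact absurd (Real.log_pos hcon) (not_lt.mpr h2)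
    have hww : ∀ l γ P, w' l γ (aeval b P) = w l (aeval b (map (γ : Qb →+* Qb) P)) := by
      intro l γ P
      by_cases hP : aeval b P = 0
      · have h1 : aeval b (map (γ : Qb →+* Qb) P) = 0 := by
          rw [hker] at hP ⊢
          filter_upwards [hP] with n hn
          rw [← map_aeval_bsq, hn, map_zero]
        rw [hP, h1, map_zero, map_zero]
      · have h1 : aeval b (map (γ : Qb →+* Qb) P) ≠ 0 := by
          intro h1
          apply hP
          rw [hker] at h1 ⊢
          filter_upwards [h1] with n hn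
          rw [← map_aeval_bsq] at hn
          exact (map_eq_zero γ).mp hn
        have h2 := hlim' l γ P hP
        have h3 := hlim l _ h1
        have h4 : Real.log (w' l γ (aeval b P)) =
            Real.log (w l (aeval b (map (γ : Qb →+* Qb) P))) := by
          refine tendsto_nhds_unique h2 (h3.congr fun n => ?_)
          rw [← map_aeval_bsq]
          rfl
        exact Real.log_injOn_pos ((w' l γ).pos hP) ((w l).pos h1) h4
    have htan : ∀ α : Qb, fq α b ≠ 0 := by
      intro α h0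
      rw [← aeval_fqP, hker] at h0
      refine no_common_root hs.ne hirr hconst α ?_
      filter_upwards [h0] with n hn
      rw [← hn, aeval_fqP]
    have hdq : dq b ≠ 0 := by
      intro h0
      rw [← aeval_dqP (κ := Qb), hker] at h0
      obtain ⟨n, hn⟩ := h0.exists
      rw [aeval_dqP, bsq_disc (f n) (hs.ne n), div_eq_zero_iff] at hn
      rcases hn with hn | hn
      · exact discq_ne_of_not_sq (hirr n) (by exact_mod_cast hn)
      · have := pow_eq_zero_iff (two_ne_zero) |>.mp hn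
        exact hs.ne n (by exact_mod_cast this)
    have hmain := t2_limit hC htan hdq (σ := fun γ : Qb ≃+* Qb => γ) w w'
      (fun l => ⟨hna l _, htr l _, hle l _⟩) (fun l γ => ⟨hna l γ, htr l γ, hle l γ⟩) hww 1
      one_pos (fun N A hAN hA => sub_lim p hp ι ι' hs hC hker w hlim N A hAN hA)
      (fun N P hPN hP => liou_lim p hp ι ι' hs hC hker w' hlim' N P hPN hP) D hD
    have ht : Tendsto (fun n => (∑ l, (∑ α ∈ D, -Real.log (V l (fq α (bsq (f n)))) -
        Real.log (V l (dq (bsq (f n)))))) / h n) U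
        (𝓝 (∑ l, (∑ α ∈ D, -Real.log (w l (fq α b)) - Real.log (w l (dq b))))) := by
      have h1 : ∀ l (α : Qb), Tendsto (fun n => Real.log (V l (fq α (bsq (f n)))) / h n) U
          (𝓝 (Real.log (w l (fq α b)))) := by
        intro l α
        have := hlim l (fqP α) (by rw [aeval_fqP]; exact htan α)
        simpa only [aeval_fqP] using this
      have h2 : ∀ l, Tendsto (fun n => Real.log (V l (dq (bsq (f n)))) / h n) U
          (𝓝 (Real.log (w l (dq b)))) := by
        intro l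
        have := hlim l (dqP Qb) (by rw [aeval_dqP]; exact hdq)
        simpa only [aeval_dqP] using this
      have h3 : Tendsto (fun n => ∑ l, (∑ α ∈ D, -(Real.log (V l (fq α (bsq (f n)))) / h n) -
          Real.log (V l (dq (bsq (f n)))) / h n)) U
          (𝓝 (∑ l, (∑ α ∈ D, -Real.log (w l (fq α b)) - Real.log (w l (dq b))))) :=
        tendsto_finset_sum _ fun l _ => (tendsto_finset_sum _ fun α _ => (h1 l α).neg).sub (h2 l)
      refine h3.congr fun n => ?_
      rw [Finset.sum_div]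
      refine Finset.sum_congr rfl fun l _ => ?_
      rw [sub_div, Finset.sum_div]
      congr 1
      exact Finset.sum_congr rfl fun α _ => by rw [neg_div]
    have h1 := ht.eventually_lt_const (lt_of_le_of_lt hmain (by linarith : 4 * 1 < 4 + ε))
    filter_upwards [h1, hpos] with n hn hn0
    rw [div_lt_iff₀ hn0] at hn
    exact hn.le
  · -- no curve contains infinitely many of the points
    set Dp : Finset (OnePoint Qb) :=
      D.map ⟨OnePoint.some, OnePoint.coe_injective⟩ with hDp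
    obtain ⟨C, G, k, hG0, hGh, hgen⟩ := generic_form p hp ι ι' Dp (ε / 2) (by linarith)
    have hG1 : ∀ᶠ n in (U : Filter ℕ), eval (f n) G ≠ 0 :=
      Ultrafilter.eventually_not.mpr fun hz => hrel (rel_of_form hs.ne G k hG0 hGh hz)
    have hD1 : ∀ᶠ n in (U : Filter ℕ), ∀ α ∈ D, fq α (bsq (f n)) ≠ 0 := by
      rw [Filter.eventually_all_finset]
      intro α _
      refine Ultrafilter.eventually_not.mpr fun hz => hrel ⟨fqP α, fqP_ne α, ?_⟩
      simpa only [aeval_fqP] using hz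
    have hC : ∀ᶠ n in (U : Filter ℕ), C ≤ ε / 2 * h n := by
      filter_upwards [hs.tend.eventually_ge_atTop (C / (ε / 2))] with n hn
      rw [div_le_iff₀ (by linarith)] at hn
      linarith
    filter_upwards [hG1, hD1, hC] with n hn1 hn2 hn3
    have hdisc := discq_ne_of_not_sq (hirr n)
    have h0 := hs.ne n
    have h0' : (f n 0 : Qb) ≠ 0 := by exact_mod_cast h0
    have hevQ : ∀ α ∈ D, evK (f n) (α : OnePoint Qb) ≠ 0 := by
      intro α hα hz
      apply hn2 α hα
      rw [bsq_val _ h0, hz, zero_div]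
    have hev : ∀ γ ∈ Dp, evK (f n) γ ≠ 0 := by
      intro γ hγ
      rw [hDp, Finset.mem_map] at hγ
      obtain ⟨α, hα, rfl⟩ := hγ
      exact hevQ α hα
    have h1 := hgen (f n) hdisc h0 (f2_ne_of_not_sq (hirr n)) hev hn1
    simp only [hDp, Finset.sum_map, Function.Embedding.coeFn_mk] at h1
    rw [← hmax n] at h1
    have hprod := sk_prod_ge p hp (discq (f n)) hdisc
    have hlp : 0 ≤ Real.log |((discq (f n) : ℤ) : ℝ)| +
        ∑ t, Real.log ‖((discq (f n) : ℤ) : ℂ_[p t])‖ := by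
      have h2 := Real.log_nonneg hprod
      rw [Real.log_mul (abs_ne_zero.mpr (by exact_mod_cast hdisc))
        (Finset.prod_ne_zero_iff.mpr fun t _ => norm_ne_zero_iff.mpr (by exact_mod_cast hdisc)),
        Real.log_prod (fun t _ => norm_ne_zero_iff.mpr (by exact_mod_cast hdisc))] at h2
      simpa only [norm_intCast_padic] using h2
    rw [Fintype.sum_option]
    have hnone : ∑ α ∈ D, -Real.log (V none (fq α (bsq (f n)))) -
        Real.log (V none (dq (bsq (f n)))) ≤
        ∑ α ∈ D, (h n - Real.log ‖evK (f n) (OnePoint.map ι (α : OnePoint Qb))‖) +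
        (2 * h n - Real.log |((discq (f n) : ℤ) : ℝ)|) := by
      have e0 : 0 < |((f n 0 : ℤ) : ℝ)| := abs_pos.mpr (by exact_mod_cast h0)
      have e1 : Real.log |((f n 0 : ℤ) : ℝ)| ≤ h n := by
        rw [← Real.log_exp (h n)]
        exact Real.log_le_log e0 (hs.le n 0)
      have e2 : ∀ α ∈ D, -Real.log (V none (fq α (bsq (f n)))) ≤
          h n - Real.log ‖evK (f n) (OnePoint.map ι (α : OnePoint Qb))‖ := by
        intro α hα
        have e3 : V none (fq α (bsq (f n))) =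
            ‖evK (f n) (OnePoint.map ι (α : OnePoint Qb))‖ / |((f n 0 : ℤ) : ℝ)| := by
          rw [bsq_val _ h0, map_div₀, hV, placesQ_int_none]
          congr 1
          exact congrArg norm (map_evK ι (f n) α)
        rw [e3, Real.log_div (by
          rw [← map_evK]
          exact norm_ne_zero_iff.mpr ((map_ne_zero ι).mpr (hevQ α hα))) e0.ne']
        linarith
      have e4 : V none (dq (bsq (f n))) =
          |((discq (f n) : ℤ) : ℝ)| / |((f n 0 : ℤ) : ℝ)| ^ 2 := by
        rw [bsq_disc _ h0, map_div₀, map_pow, hV, placesQ_int_none, placesQ_int_none]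
      rw [e4, Real.log_div (abs_ne_zero.mpr (by exact_mod_cast hdisc)) (pow_ne_zero 2 e0.ne'),
        Real.log_pow]
      have e5 := Finset.sum_le_sum e2
      push_cast
      linarith
    have hsome : ∀ t, ∑ α ∈ D, -Real.log (V (some t) (fq α (bsq (f n)))) -
        Real.log (V (some t) (dq (bsq (f n)))) ≤
        ∑ α ∈ D, (Real.log (nf ℂ_[p t] (f n)) -
          Real.log ‖evK (f n) (OnePoint.map (ι' t) (α : OnePoint Qb))‖) -
        Real.log ‖((discq (f n) : ℤ) : ℂ_[p t])‖ := by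
      intro t
      have e0 : 0 < ‖((f n 0 : ℤ) : ℚ_[p t])‖ := norm_pos_iff.mpr (by exact_mod_cast h0)
      have e1 : Real.log ‖((f n 0 : ℤ) : ℚ_[p t])‖ ≤ 0 :=
        Real.log_nonpos e0.le (Padic.norm_int_le_one _)
      have e1' : Real.log ‖((f n 0 : ℤ) : ℚ_[p t])‖ ≤ Real.log (nf ℂ_[p t] (f n)) := by
        refine Real.log_le_log e0 ?_
        rw [← norm_intCast_padic]
        exact le_max_left _ _
      have e2 : ∀ α ∈ D, -Real.log (V (some t) (fq α (bsq (f n)))) ≤
          Real.log (nf ℂ_[p t] (f n)) -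
            Real.log ‖evK (f n) (OnePoint.map (ι' t) (α : OnePoint Qb))‖ := by
        intro α hα
        have e3 : V (some t) (fq α (bsq (f n))) =
            ‖evK (f n) (OnePoint.map (ι' t) (α : OnePoint Qb))‖ / ‖((f n 0 : ℤ) : ℚ_[p t])‖ := by
          rw [bsq_val _ h0, map_div₀, hV, placesQ_int_some]
          congr 1
          exact congrArg norm (map_evK (ι' t) (f n) α)
        rw [e3, Real.log_div (by
          rw [← map_evK]
          exact norm_ne_zero_iff.mpr ((map_ne_zero (ι' t)).mpr (hevQ α hα))) e0.ne']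
        linarith
      have e4 : V (some t) (dq (bsq (f n))) =
          ‖((discq (f n) : ℤ) : ℚ_[p t])‖ / ‖((f n 0 : ℤ) : ℚ_[p t])‖ ^ 2 := by
        rw [bsq_disc _ h0, map_div₀, map_pow, hV, placesQ_int_some, placesQ_int_some]
      rw [e4, Real.log_div (norm_ne_zero_iff.mpr (by exact_mod_cast hdisc))
        (pow_ne_zero 2 e0.ne'), Real.log_pow, norm_intCast_padic]
      have e5 := Finset.sum_le_sum e2
      push_cast
      linarith
    have h2 := Finset.sum_le_sum fun t (_ : t ∈ Finset.univ) => hsome t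
    rw [Finset.sum_sub_distrib (f := fun t => ∑ α ∈ D, (Real.log (nf ℂ_[p t] (f n)) -
          Real.log ‖evK (f n) (OnePoint.map (ι' t) (α : OnePoint Qb))‖))] at h2
    linarith

end Q

end Pool.Agent.SST
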