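import Pool.Agent.SST.NormSys
import Pool.Agent.SST.ProdK

/-! Number field case: the product formula in the limit. -/

set_option autoImplicit false

open MvPolynomial Filter Module NumberField
open scoped Topology BigOperators

namespace Pool.Agent.SST

section A

variable {k : Type} [Field k] [NumberField k]

/-- values of a polynomial at a point, with bounded denominator -/
theorem liouLimK_isIntegral_value (P : MvPolynomial (Fin 2) (AlgebraicClosure k)) (N : ℕ)
    (hPN : P.totalDegree ≤ N) (M : ℤ)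
    (hM : ∀ μ, IsIntegral ℤ ((M : AlgebraicClosure k) * coeff μ P)) (f : Fin 3 → 𝓞 k)
    (hf : f 0 ≠ 0) :
    IsIntegral ℤ ((M : AlgebraicClosure k) * (algebraMap k (AlgebraicClosure k) (f 0 : k)) ^ N *
      aeval (bsqK f) P) := by
  have hf1 : (f 0 : k) ≠ 0 := fun h => hf (by exact_mod_cast h)
  have hf' : algebraMap k (AlgebraicClosure k) (f 0 : k) ≠ 0 := by
    rw [Ne, map_eq_zero]
    exact hf1
  rw [aeval_def, eval₂_eq', Finset.mul_sum]
  refine IsIntegral.sum _ fun μ hμ => ?_
  have hμN : μ 0 + μ 1 ≤ N := by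
    have h1 := le_totalDegree hμ
    have h2 : (μ.sum fun _ e => e) = μ 0 + μ 1 := by
      rw [Finsupp.sum_fintype _ _ (fun i => rfl), Fin.sum_univ_two]
    omega
  have h1 : (M : AlgebraicClosure k) * algebraMap k (AlgebraicClosure k) (f 0 : k) ^ N *
      ((algebraMap (AlgebraicClosure k) (AlgebraicClosure k)) (coeff μ P) *
        ∏ i, bsqK f i ^ μ i) =
      ((M : AlgebraicClosure k) * coeff μ P) *
        (algebraMap k (AlgebraicClosure k)
          (((f 0) ^ (N - (μ 0 + μ 1)) * (f 1) ^ (μ 0) * (f 2) ^ (μ 1) : 𝓞 k) : k)) := by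
    have h2 : algebraMap k (AlgebraicClosure k) (f 0 : k) ^ N =
        algebraMap k (AlgebraicClosure k) (f 0 : k) ^ (N - (μ 0 + μ 1)) *
        algebraMap k (AlgebraicClosure k) (f 0 : k) ^ (μ 0) *
        algebraMap k (AlgebraicClosure k) (f 0 : k) ^ (μ 1) := by
      rw [← pow_add, ← pow_add]
      congr 1
      omega
    rw [Fin.prod_univ_two, h2]
    simp only [bsqK, Matrix.cons_val_zero, Matrix.cons_val_one, Algebra.algebraMap_self,
      RingHom.id_apply, map_mul, map_pow, map_div₀]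
    rw [div_pow, div_pow]
    field_simp
  rw [h1]
  refine (hM μ).mul ?_
  exact (((f 0) ^ (N - (μ 0 + μ 1)) * (f 1) ^ (μ 0) * (f 2) ^ (μ 1) : 𝓞 k).2).algebraMap

/-- the product of the conjugates of a value of a polynomial is an algebraic integer of `k` -/
theorem liouLimK_norm_system (P : MvPolynomial (Fin 2) (AlgebraicClosure k)) (N : ℕ)
    (hPN : P.totalDegree ≤ N) :
    ∃ (M : ℤ) (m : ℕ) (s : Fin m → (AlgebraicClosure k ≃ₐ[k] AlgebraicClosure k)), M ≠ 0 ∧ 0 < m ∧
      ∀ f : Fin 3 → 𝓞 k, f 0 ≠ 0 → ∃ Z : 𝓞 k,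
        ∏ j, s j ((M : AlgebraicClosure k) * (algebraMap k (AlgebraicClosure k) (f 0 : k)) ^ N *
          aeval (bsqK f) P) = algebraMap k (AlgebraicClosure k) (Z : k) := by
  classical
  have i2 : IsAlgClosure k (AlgebraicClosure k) := inferInstance
  have i3 : IsGalois k (AlgebraicClosure k) := IsAlgClosure.isGalois k (AlgebraicClosure k)
  have i4 : Algebra.IsAlgebraic ℤ ℚ := IsLocalization.isAlgebraic ℚ (nonZeroDivisors ℤ)
  have i5 : Algebra.IsAlgebraic ℤ k := Algebra.IsAlgebraic.trans ℤ ℚ k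
  have i6 : Algebra.IsAlgebraic ℤ (AlgebraicClosure k) :=
    Algebra.IsAlgebraic.trans ℤ k (AlgebraicClosure k)
  obtain ⟨M, hM0, hM⟩ := Algebra.IsAlgebraic.exists_integral_multiples (R := ℤ)
    (A := AlgebraicClosure k) (P.support.image fun μ => coeff μ P)
  have hM' : ∀ μ, IsIntegral ℤ ((M : AlgebraicClosure k) * coeff μ P) := by
    intro μ
    by_cases hμ : μ ∈ P.support
    · have := hM (coeff μ P) (Finset.mem_image_of_mem _ hμ)
      rwa [zsmul_eq_mul] at this
    · rw [notMem_support_iff.1 hμ, mul_zero]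
      exact isIntegral_zero
  obtain ⟨E, e, s, he, hSE, hprod⟩ := conj_prod_gen (k := k)
    (P.support.image fun μ => coeff μ P)
  have hval : ∀ f : Fin 3 → 𝓞 k, (M : AlgebraicClosure k) *
      (algebraMap k (AlgebraicClosure k) (f 0 : k)) ^ N * aeval (bsqK f) P ∈ E := by
    intro f
    refine mul_mem (mul_mem (intCast_mem _ _) (pow_mem (E.algebraMap_mem _) _)) ?_
    rw [aeval_def, eval₂_eq']
    refine sum_mem fun μ hμ => mul_mem (hSE _ (Finset.mem_image_of_mem _ hμ)) ?_
    refine prod_mem fun i _ => pow_mem ?_ _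
    fin_cases i
    · exact E.algebraMap_mem _
    · exact E.algebraMap_mem _
  refine ⟨M, e, s, hM0, he, ?_⟩
  intro f hf
  have hint := liouLimK_isIntegral_value P N hPN M hM' f hf
  obtain ⟨y, hy⟩ := hprod _ (hval f)
  set z := (M : AlgebraicClosure k) * (algebraMap k (AlgebraicClosure k) (f 0 : k)) ^ N *
    aeval (bsqK f) P with hz
  have h1 : IsIntegral ℤ (∏ j, s j z) := by
    refine IsIntegral.prod _ fun j _ => ?_
    exact hint.map ((s j).toRingEquiv.toRingHom.toIntAlgHom)
  rw [hy] at h1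
  have h2 : IsIntegral ℤ y :=
    (isIntegral_algebraMap_iff (algebraMap k (AlgebraicClosure k)).injective).1 h1
  exact ⟨⟨y, h2⟩, hy⟩

end A

section K

variable {k : Type} [Field k] [NumberField k] {T : Type} [Fintype T] [DecidableEq T] {p : T → ℕ}
  [∀ t, Fact (p t).Prime]

omit [NumberField k] [Fintype T] [DecidableEq T] in
theorem liouLimK_VK (e : ExtK k p) (l : PlK k p) (x : k) :
    VK e l (algebraMap k (AlgebraicClosure k) x) = vk l x := by
  rcases l with ρ | ⟨t, ρ⟩
  · show ‖e.E ρ (algebraMap k (AlgebraicClosure k) x)‖ = ‖ρ x‖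
    rw [e.hE]
  · show ‖e.E' t ρ (algebraMap k (AlgebraicClosure k) x)‖ = ‖ρ x‖
    rw [e.hE']

theorem liou_limK (e : ExtK k p) (hp : Function.Injective p)
    {U : Ultrafilter ℕ} {h : ℕ → ℝ} {f : ℕ → Fin 3 → 𝓞 k} (hs : SeqK p U h f)
    {𝓕 : Type} [Field 𝓕] [Algebra (AlgebraicClosure k) 𝓕] {b : Fin 2 → 𝓕}
    (hker : ∀ P : MvPolynomial (Fin 2) (AlgebraicClosure k), aeval b P = 0 ↔
      ∀ᶠ n in (U : Filter ℕ), aeval (bsqK (f n)) P = 0)
    (w' : PlK k p → (AlgebraicClosure k ≃ₐ[k] AlgebraicClosure k) → AbsoluteValue 𝓕 ℝ)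
    (hlim' : ∀ l (γ : AlgebraicClosure k ≃ₐ[k] AlgebraicClosure k),
      LimRel U h (fun n => bsqK (f n)) b
        ((VK e l).comp (f := (γ : AlgebraicClosure k →+* AlgebraicClosure k)) γ.injective)
        (w' l γ)) (N : ℕ)
    (P : MvPolynomial (Fin 2) (AlgebraicClosure k)) (hPN : P.totalDegree ≤ N)
    (hP : aeval b P ≠ 0) :
    ∃ (m : ℕ) (s : Fin m → (AlgebraicClosure k ≃ₐ[k] AlgebraicClosure k)), 0 < m ∧
      ∑ l, ∑ j, -Real.log (w' l (s j) (aeval b P)) ≤ m * ((finrank ℚ k : ℝ) * N) := by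
  obtain ⟨M, m, s, hM0, hm, hZ⟩ := liouLimK_norm_system P N hPN
  refine ⟨m, s, hm, ?_⟩
  have hne : ∀ᶠ n in (U : Filter ℕ), aeval (bsqK (f n)) P ≠ 0 :=
    Ultrafilter.eventually_not.2 fun h0 => hP ((hker P).2 h0)
  have hpos : ∀ᶠ n in (U : Filter ℕ), 0 < h n := hs.tend.eventually_gt_atTop 0
  have hfk : ∀ n, algebraMap k (AlgebraicClosure k) (f n 0 : k) ≠ 0 := by
    intro n
    rw [Ne, map_eq_zero]
    exact fun h0 => hs.ne n (by exact_mod_cast h0)
  have hMk : (M : AlgebraicClosure k) ≠ 0 := by exact_mod_cast hM0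
  -- limits of the local terms
  let lam : PlK k p → ℝ := Sum.elim (fun _ => 1) (fun _ => 0)
  have hlam : ∀ l, Tendsto (fun n => Real.log (VK e l
      (algebraMap k (AlgebraicClosure k) (f n 0 : k))) / h n) U (𝓝 (lam l)) := by
    intro l
    simp only [liouLimK_VK]
    rcases l with ρ | ⟨t, ρ⟩
    · exact hs.lim0 ρ
    · exact hs.limt t ρ
  have hMlim : ∀ l, Tendsto (fun n => Real.log (VK e l (M : AlgebraicClosure k)) / h n) U
      (𝓝 0) := fun l => Tendsto.div_atTop tendsto_const_nhds hs.tend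
  have hterm : ∀ l j, Tendsto (fun n => Real.log (VK e l
      (s j ((M : AlgebraicClosure k) * (algebraMap k (AlgebraicClosure k) (f n 0 : k)) ^ N *
        aeval (bsqK (f n)) P))) / h n) U
      (𝓝 (0 + N * lam l + Real.log (w' l (s j) (aeval b P)))) := by
    intro l j
    refine (((hMlim l).add ((hlam l).const_mul (N : ℝ))).add (hlim' l (s j) P hP)).congr' ?_
    filter_upwards [hne] with n hn
    have h1 : (VK e l) (M : AlgebraicClosure k) ≠ 0 := (VK e l).ne_zero hMk
    have h2 : (VK e l) (algebraMap k (AlgebraicClosure k) (f n 0 : k)) ≠ 0 :=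
      (VK e l).ne_zero (hfk n)
    have h3 : (VK e l) (s j (aeval (bsqK (f n)) P)) ≠ 0 :=
      (VK e l).ne_zero (by rw [Ne, map_eq_zero_iff _ (s j).injective]; exact hn)
    rw [map_mul (s j), map_mul (s j), map_pow (s j), map_intCast (s j), (s j).commutes, map_mul,
      map_mul, map_pow, Real.log_mul (mul_ne_zero h1 (pow_ne_zero _ h2)) h3,
      Real.log_mul h1 (pow_ne_zero _ h2), Real.log_pow]
    have h4 : ((VK e l).comp (f := (s j : AlgebraicClosure k →+* AlgebraicClosure k))
        (s j).injective) (aeval (bsqK (f n)) P) = VK e l (s j (aeval (bsqK (f n)) P)) := rfl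
    rw [h4]
    ring
  have htot := tendsto_finsetSum Finset.univ fun l (_ : l ∈ Finset.univ) =>
    tendsto_finsetSum Finset.univ fun j (_ : j ∈ Finset.univ) => hterm l j
  have hge : 0 ≤ ∑ l, ∑ j, (0 + N * lam l + Real.log (w' l (s j) (aeval b P))) := by
    refine ge_of_tendsto htot ?_
    filter_upwards [hne, hpos] with n hn hn0
    obtain ⟨Z, hZn⟩ := hZ (f n) (hs.ne n)
    have hz0 : (M : AlgebraicClosure k) * (algebraMap k (AlgebraicClosure k) (f n 0 : k)) ^ N *
        aeval (bsqK (f n)) P ≠ 0 :=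
      mul_ne_zero (mul_ne_zero hMk (pow_ne_zero _ (hfk n))) hn
    have hZ0 : Z ≠ 0 := by
      intro h0
      have h00 : algebraMap k (AlgebraicClosure k) (Z : k) = 0 := by
        rw [h0]
        simp
      rw [h00, Finset.prod_eq_zero_iff] at hZn
      obtain ⟨j, -, hj⟩ := hZn
      rw [map_eq_zero_iff _ (s j).injective] at hj
      exact hz0 hj
    have h5 : ∀ l, ∑ j, Real.log (VK e l
        (s j ((M : AlgebraicClosure k) * (algebraMap k (AlgebraicClosure k) (f n 0 : k)) ^ N *
          aeval (bsqK (f n)) P))) / h n =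
        Real.log (vk l (Z : k)) / h n := by
      intro l
      rw [← Finset.sum_div, ← liouLimK_VK e l (Z : k), ← hZn, map_prod, Real.log_prod]
      intro j _
      exact (VK e l).ne_zero (by rw [Ne, map_eq_zero_iff _ (s j).injective]; exact hz0)
    rw [Finset.sum_congr rfl fun l _ => h5 l, ← Finset.sum_div]
    exact div_nonneg (sum_log_vk_nonneg hp Z hZ0) hn0.le
  have h6 : ∑ l, ∑ j, (0 + N * lam l + Real.log (w' l (s j) (aeval b P))) =
      (m : ℝ) * ((finrank ℚ k : ℝ) * N) + ∑ l, ∑ j, Real.log (w' l (s j) (aeval b P)) := by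
    simp only [zero_add, Finset.sum_add_distrib, Finset.sum_const, Finset.card_univ,
      Fintype.card_fin, nsmul_eq_mul]
    congr 1
    rw [Fintype.sum_sum_type]
    simp only [lam, Sum.elim_inl, Sum.elim_inr, Finset.sum_const, Finset.card_univ,
      NumberField.Embeddings.card, nsmul_eq_mul]
    ring
  rw [h6] at hge
  simp only [Finset.sum_neg_distrib]
  linarith

end K

end Pool.Agent.SST
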