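import Pool.Agent.SST.KDefs
import Pool.Agent.SST.CurveDefs
import Pool.Agent.SST.SubLim
import Pool.Agent.SST.SchlickK

/-! K4: the limit form of Schlickewei's theorem over a number field. -/

open MvPolynomial Filter Module NumberField
open scoped Topology

namespace Pool.Agent.SST

section Alg

variable {k : Type} [Field k]

/-- the values of the homogenised monomials -/
def subLimKZ (N : ℕ) {m : ℕ} (e : Fin m → (Fin 2 →₀ ℕ)) (f : Fin 3 → 𝓞 k) : Fin m → 𝓞 k :=
  fun j => f 0 ^ (N - e j 0 - e j 1) * f 1 ^ e j 0 * f 2 ^ e j 1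

theorem subLimKZ_cast (N : ℕ) {m : ℕ} (e : Fin m → (Fin 2 →₀ ℕ)) (he : ∀ j, e j 0 + e j 1 ≤ N)
    (f : Fin 3 → 𝓞 k) (hf : f 0 ≠ 0) (j : Fin m) :
    algebraMap k (AlgebraicClosure k) ((subLimKZ N e f j : 𝓞 k) : k) =
      (algebraMap k (AlgebraicClosure k) (f 0 : k)) ^ N *
        aeval (bsqK f) (monomial (e j) (1 : AlgebraicClosure k)) := by
  have h0' : (f 0 : k) ≠ 0 := fun h => hf (by exact_mod_cast h)
  have h0 : algebraMap k (AlgebraicClosure k) (f 0 : k) ≠ 0 := by
    rw [map_ne_zero]
    exact h0'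
  rw [sublim_aeval_monomial]
  unfold subLimKZ bsqK
  simp only [Matrix.cons_val_zero, Matrix.cons_val_one, map_div₀, map_mul, map_pow]
  have hN : (algebraMap k (AlgebraicClosure k) (f 0 : k)) ^ N =
      (algebraMap k (AlgebraicClosure k) (f 0 : k)) ^ (N - e j 0 - e j 1) *
      (algebraMap k (AlgebraicClosure k) (f 0 : k)) ^ e j 0 *
      (algebraMap k (AlgebraicClosure k) (f 0 : k)) ^ e j 1 := by
    rw [← pow_add, ← pow_add]
    congr 1
    have := he j
    omega
  rw [hN]
  rw [div_pow, div_pow]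
  have h1 : (algebraMap k (AlgebraicClosure k) (f 0 : k)) ^ e j 0 ≠ 0 := pow_ne_zero _ h0
  have h2 : (algebraMap k (AlgebraicClosure k) (f 0 : k)) ^ e j 1 ≠ 0 := pow_ne_zero _ h0
  field_simp

theorem subLimKZ_le (N : ℕ) {m : ℕ} (e : Fin m → (Fin 2 →₀ ℕ)) (he : ∀ j, e j 0 + e j 1 ≤ N)
    (f : Fin 3 → 𝓞 k) (h : ℝ) (ρ : k →+* ℂ) (hf : ∀ i, ‖ρ (f i)‖ ≤ Real.exp h) (j : Fin m) :
    ‖ρ (subLimKZ N e f j : 𝓞 k)‖ ≤ Real.exp (N * h) := by
  unfold subLimKZ
  simp only [map_mul, map_pow]
  rw [norm_mul, norm_mul, norm_pow, norm_pow, norm_pow]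
  have hN : N = (N - e j 0 - e j 1) + e j 0 + e j 1 := by
    have := he j
    omega
  have h1 : Real.exp (N * h) = Real.exp h ^ (N - e j 0 - e j 1) * Real.exp h ^ e j 0 *
      Real.exp h ^ e j 1 := by
    rw [← pow_add, ← pow_add, ← hN, ← Real.exp_nat_mul]
  rw [h1]
  gcongr
  · exact hf 0
  · exact hf 1
  · exact hf 2

theorem subLimK_key (N : ℕ) {m : ℕ} (e : Fin m → (Fin 2 →₀ ℕ)) (he : ∀ j, e j 0 + e j 1 ≤ N)
    (f : Fin 3 → 𝓞 k) (hf : f 0 ≠ 0) (P : MvPolynomial (Fin 2) (AlgebraicClosure k))
    (c : Fin m → AlgebraicClosure k)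
    (hP : aeval (bsqK f) P = ∑ j, c j • aeval (bsqK f) (monomial (e j) (1 : AlgebraicClosure k))) :
    ∑ j, c j * algebraMap k (AlgebraicClosure k) ((subLimKZ N e f j : 𝓞 k) : k) =
      (algebraMap k (AlgebraicClosure k) (f 0 : k)) ^ N * aeval (bsqK f) P := by
  rw [hP, Finset.mul_sum]
  refine Finset.sum_congr rfl fun j _ => ?_
  rw [subLimKZ_cast N e he f hf, smul_eq_mul]
  ring

variable {T : Type} {p : T → ℕ} [∀ t, Fact (p t).Prime]

theorem subLimK_VK (e : ExtK k p) (l : PlK k p) (y : k) :
    VK e l (algebraMap k _ y) = vk l y := by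
  rcases l with ρ | ρ
  · change ‖e.E ρ (algebraMap k _ y)‖ = ‖ρ y‖
    rw [e.hE]
  · change ‖e.E' ρ.1 ρ.2 (algebraMap k _ y)‖ = ‖ρ.2 y‖
    rw [e.hE']

theorem subLimK_abs (ε : ExtK k p) (l : PlK k p) (N : ℕ) {m : ℕ}
    (e : Fin m → (Fin 2 →₀ ℕ)) (he : ∀ j, e j 0 + e j 1 ≤ N)
    (f : Fin 3 → 𝓞 k) (hf : f 0 ≠ 0) (P : Fin m → MvPolynomial (Fin 2) (AlgebraicClosure k))
    (c : Matrix (Fin m) (Fin m) (AlgebraicClosure k)) (i : Fin m)
    (hP : aeval (bsqK f) (P i) =
      ∑ j, c i j • aeval (bsqK f) (monomial (e j) (1 : AlgebraicClosure k))) :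
    VK ε l (c.mulVec (fun j => algebraMap k _ ((subLimKZ N e f j : 𝓞 k) : k)) i) =
      vk l (f 0 : k) ^ N * VK ε l (aeval (bsqK f) (P i)) := by
  have h1 : c.mulVec (fun j => algebraMap k _ ((subLimKZ N e f j : 𝓞 k) : k)) i =
      ∑ j, c i j * algebraMap k (AlgebraicClosure k) ((subLimKZ N e f j : 𝓞 k) : k) := rfl
  rw [h1, subLimK_key N e he f hf (P i) (c i) hP, map_mul, map_pow, subLimK_VK]

end Alg

section K

variable {k : Type} [Field k] [NumberField k] {T : Type} [Fintype T] [DecidableEq T] {p : T → ℕ}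
  [∀ t, Fact (p t).Prime]

theorem subLimK_main (ε : ExtK k p)
    (hSch : ∀ m : ℕ, 2 ≤ m → ∀ (L : PlK k p → Matrix (Fin m) (Fin m) (AlgebraicClosure k)),
      (∀ l, (L l).det ≠ 0) → ∀ δ : ℝ, 0 < δ →
      ∃ F : Finset (Fin m → k), 0 ∉ F ∧ ∀ (x : Fin m → 𝓞 k) (H : ℝ), 1 ≤ H →
      (∀ (ρ : k →+* ℂ) i, ‖ρ (x i)‖ ≤ H) →
      ∏ l, ∏ i, VK ε l ((L l).mulVec (fun j => algebraMap k _ (x j : k)) i) ≤ H ^ (-δ) →
      ∃ β ∈ F, ∑ i, β i * (x i : k) = 0)
    {U : Ultrafilter ℕ} {h : ℕ → ℝ} {f : ℕ → Fin 3 → 𝓞 k} (hs : SeqK p U h f)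
    {𝓕 : Type} [Field 𝓕] [Algebra (AlgebraicClosure k) 𝓕] {b : Fin 2 → 𝓕}
    (hker : ∀ P : MvPolynomial (Fin 2) (AlgebraicClosure k), aeval b P = 0 ↔
      ∀ᶠ n in (U : Filter ℕ), aeval (bsqK (f n)) P = 0)
    (w : PlK k p → AbsoluteValue 𝓕 ℝ)
    (hlim : ∀ l, LimRel U h (fun n => bsqK (f n)) b (VK ε l) (w l)) (N m : ℕ)
    (e : Fin m → (Fin 2 →₀ ℕ)) (he : ∀ j, e j 0 + e j 1 ≤ N)
    (hli : LinearIndependent (AlgebraicClosure k)
      (fun j => aeval b (monomial (e j) (1 : AlgebraicClosure k))))
    (hrep : ∀ P : MvPolynomial (Fin 2) (AlgebraicClosure k), P.totalDegree ≤ N →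
        ∃ c : Fin m → AlgebraicClosure k,
          aeval b P = ∑ j, c j • aeval b (monomial (e j) (1 : AlgebraicClosure k)))
    (A : PlK k p → Fin m → MvPolynomial (Fin 2) (AlgebraicClosure k))
    (hAN : ∀ l i, (A l i).totalDegree ≤ N)
    (hA : ∀ l, LinearIndependent (AlgebraicClosure k) (fun i => aeval b (A l i))) :
    ∑ l, ∑ i, -Real.log (w l (aeval b (A l i))) ≤ (finrank ℚ k : ℝ) * N * m := by
  classical
  have hAne : ∀ l i, aeval b (A l i) ≠ 0 := fun l i => (hA l).ne_zero i
  -- coefficients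
  choose c hc using fun l i => hrep (A l i) (hAN l i)
  have hdet : ∀ l, (Matrix.of (c l)).det ≠ 0 := by
    intro l hdet
    obtain ⟨v, hv, hv0⟩ := Matrix.exists_vecMul_eq_zero_iff.2 hdet
    apply hv
    have h1 : ∑ i, v i • aeval b (A l i) = 0 := by
      calc ∑ i, v i • aeval b (A l i)
          = ∑ i, ∑ j, (v i * c l i j) • aeval b (monomial (e j) (1 : AlgebraicClosure k)) := by
            refine Finset.sum_congr rfl fun i _ => ?_
            rw [hc l i, Finset.smul_sum]
            refine Finset.sum_congr rfl fun j _ => ?_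
            rw [smul_smul]
        _ = ∑ j, (∑ i, v i * c l i j) • aeval b (monomial (e j) (1 : AlgebraicClosure k)) := by
            rw [Finset.sum_comm]
            refine Finset.sum_congr rfl fun j _ => ?_
            rw [Finset.sum_smul]
        _ = 0 := by
            refine Finset.sum_eq_zero fun j _ => ?_
            have h2 := congrFun hv0 j
            simp only [Matrix.vecMul, dotProduct, Matrix.of_apply, Pi.zero_apply] at h2
            rw [h2, zero_smul]
    funext i
    exact (Fintype.linearIndependent_iff.1 (hA l)) v h1 i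
  -- transfer of linear relations
  have hev : ∀ (P : MvPolynomial (Fin 2) (AlgebraicClosure k)) (c' : Fin m → AlgebraicClosure k),
      aeval b P = ∑ j, c' j • aeval b (monomial (e j) (1 : AlgebraicClosure k)) →
      ∀ᶠ n in (U : Filter ℕ), aeval (bsqK (f n)) P =
        ∑ j, c' j • aeval (bsqK (f n)) (monomial (e j) (1 : AlgebraicClosure k)) := by
    intro P c' h1
    have h2 : aeval b (P - ∑ j, c' j • monomial (e j) (1 : AlgebraicClosure k)) = 0 := by
      rw [map_sub, map_sum, h1, sub_eq_zero]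
      refine Finset.sum_congr rfl fun j _ => ?_
      rw [map_smul]
    filter_upwards [(hker _).1 h2] with n hn
    rw [map_sub, map_sum, sub_eq_zero] at hn
    rw [hn]
    refine Finset.sum_congr rfl fun j _ => ?_
    rw [map_smul]
  have hlog : ∀ l i, Tendsto (fun n => Real.log (VK ε l (aeval (bsqK (f n)) (A l i))) / h n)
      U (𝓝 (Real.log (w l (aeval b (A l i))))) := fun l i => hlim l (A l i) (hAne l i)
  by_cases hm2 : 2 ≤ m
  swap
  · -- all functions are constant
    have hconst : ∀ l i, Real.log (w l (aeval b (A l i))) = 0 := by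
      intro l i
      have hm1 : m = 1 := by
        have := i.2
        omega
      obtain ⟨c1, hc1⟩ := hrep 1 (by simp)
      have hfin : ∀ (x : Fin m → 𝓕) (j : Fin m), ∑ k, x k = x j := by
        intro x j
        apply Finset.sum_eq_single j
        · intro k _ hk
          exfalso
          apply hk
          apply Fin.ext
          have := k.2
          have := j.2
          omega
        · intro hj
          exact absurd (Finset.mem_univ j) hj
      rw [hfin _ i] at hc1
      have h2 := hc l i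
      rw [hfin _ i] at h2
      have hc10 : c1 i ≠ 0 := by
        intro h0
        rw [h0, zero_smul, map_one] at hc1
        exact one_ne_zero hc1
      have h3 : aeval b (A l i) =
          aeval b (C (c l i i / c1 i) : MvPolynomial (Fin 2) (AlgebraicClosure k)) := by
        rw [h2, aeval_C]
        have h4 : aeval b (monomial (e i) (1 : AlgebraicClosure k)) =
            algebraMap (AlgebraicClosure k) 𝓕 (c1 i)⁻¹ := by
          rw [map_one] at hc1
          rw [Algebra.smul_def] at hc1
          rw [map_inv₀]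
          exact eq_inv_of_mul_eq_one_right hc1.symm
        rw [h4, Algebra.smul_def, ← map_mul, div_eq_mul_inv]
      have hne : aeval b (C (c l i i / c1 i) : MvPolynomial (Fin 2) (AlgebraicClosure k)) ≠ 0 := by
        rw [← h3]
        exact hAne l i
      have h5 := hlim l _ hne
      have h6 : Tendsto (fun n => Real.log (VK ε l
          (aeval (bsqK (f n)) (C (c l i i / c1 i) : MvPolynomial (Fin 2) (AlgebraicClosure k)))) /
            h n) U (𝓝 0) := by
        simp only [aeval_C]
        exact Tendsto.const_div_atTop hs.tend _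
      rw [h3]
      exact tendsto_nhds_unique h5 h6
    have h1 : ∑ l, ∑ i, -Real.log (w l (aeval b (A l i))) = 0 := by
      refine Finset.sum_eq_zero fun l _ => Finset.sum_eq_zero fun i _ => ?_
      rw [hconst, neg_zero]
    rw [h1]
    positivity
  · -- the main case
    set lc : PlK k p → ℝ := fun l => Sum.elim (fun _ => (1 : ℝ)) (fun _ => 0) l with hlc
    have hevA : ∀ l, ∀ᶠ n in (U : Filter ℕ), ∀ i, aeval (bsqK (f n)) (A l i) =
        ∑ j, (Matrix.of (c l)) i j •
          aeval (bsqK (f n)) (monomial (e j) (1 : AlgebraicClosure k)) := by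
      intro l
      rw [eventually_all]
      intro i
      exact hev (A l i) (c l i) (hc l i)
    have hlc' : ∀ l : PlK k p, Tendsto (fun n => Real.log (vk l (f n 0 : k)) / h n) U
        (𝓝 (lc l)) := by
      intro l
      rcases l with ρ | ⟨t, ρ⟩
      · exact hs.lim0 ρ
      · exact hs.limt t ρ
    -- the limit of the logarithm of the product
    have hkeylim : Tendsto (fun n => ∑ l : PlK k p, ∑ i : Fin m,
        (N * (Real.log (vk l (f n 0 : k)) / h n) +
        Real.log (VK ε l (aeval (bsqK (f n)) (A l i))) / h n)) U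
        (𝓝 (∑ l : PlK k p, ∑ i, (N * lc l + Real.log (w l (aeval b (A l i)))))) := by
      refine tendsto_finsetSum _ fun l _ => tendsto_finsetSum _ fun i _ => ?_
      exact Tendsto.add (Tendsto.const_mul _ (hlc' l)) (hlog l i)
    have hlower : ∀ δ : ℝ, 0 < δ → -(δ * N) ≤ ∑ l : PlK k p, ∑ i,
        (N * lc l + Real.log (w l (aeval b (A l i)))) := by
      intro δ hδ
      obtain ⟨F, hF0, hF⟩ := hSch m hm2 (fun l => Matrix.of (c l)) hdet δ hδ
      have hnrel : ∀ᶠ n in (U : Filter ℕ), ∀ b' ∈ F,
          ∑ i, b' i * ((subLimKZ N e (f n) i : 𝓞 k) : k) ≠ 0 := by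
        rw [eventually_all_finset]
        intro b' hb'
        rw [Ultrafilter.eventually_not]
        intro hev0
        apply hF0
        have h1 : aeval b (∑ j, (algebraMap k (AlgebraicClosure k) (b' j)) •
            monomial (e j) (1 : AlgebraicClosure k)) = 0 := by
          rw [hker]
          filter_upwards [hev0] with n hn
          have h2 : algebraMap k (AlgebraicClosure k)
              (∑ i, b' i * ((subLimKZ N e (f n) i : 𝓞 k) : k)) = 0 := by rw [hn]; simp
          rw [map_sum] at h2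
          simp only [map_mul (algebraMap k (AlgebraicClosure k))] at h2
          have h3 : (algebraMap k (AlgebraicClosure k) (f n 0 : k)) ^ N *
              aeval (bsqK (f n)) (∑ j, (algebraMap k (AlgebraicClosure k) (b' j)) •
                monomial (e j) (1 : AlgebraicClosure k)) = 0 := by
            rw [← h2, map_sum, Finset.mul_sum]
            refine Finset.sum_congr rfl fun j _ => ?_
            rw [subLimKZ_cast N e he (f n) (hs.ne n), map_smul, smul_eq_mul]
            ring
          rcases mul_eq_zero.1 h3 with h4 | h4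
          · exfalso
            have h5 : algebraMap k (AlgebraicClosure k) (f n 0 : k) = 0 := by
              by_contra h6
              exact pow_ne_zero N h6 h4
            rw [map_eq_zero] at h5
            exact hs.ne n (by exact_mod_cast h5)
          · exact h4
        rw [map_sum] at h1
        simp only [map_smul] at h1
        have h2 := (Fintype.linearIndependent_iff.1 hli) _ h1
        have h3 : b' = 0 := by
          funext j
          have := h2 j
          rw [map_eq_zero] at this
          exact this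
        rw [← h3]
        exact hb'
      have hlt : ∀ᶠ n in (U : Filter ℕ), -(δ * N) ≤ ∑ l : PlK k p, ∑ i : Fin m,
          (N * (Real.log (vk l (f n 0 : k)) / h n) +
          Real.log (VK ε l (aeval (bsqK (f n)) (A l i))) / h n) := by
        have hall : ∀ᶠ n in (U : Filter ℕ), ∀ l : PlK k p, ∀ i, aeval (bsqK (f n)) (A l i) =
            ∑ j, (Matrix.of (c l)) i j •
              aeval (bsqK (f n)) (monomial (e j) (1 : AlgebraicClosure k)) :=
          eventually_all.2 hevA
        have hne : ∀ᶠ n in (U : Filter ℕ), ∀ l : PlK k p, ∀ i,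
            aeval (bsqK (f n)) (A l i) ≠ 0 := by
          rw [eventually_all]
          intro l
          rw [eventually_all]
          intro i
          rw [Ultrafilter.eventually_not]
          intro h0
          exact hAne l i ((hker _).2 h0)
        filter_upwards [hnrel, hall, hne, hs.tend.eventually_gt_atTop 0] with n hn1 hn2 hn3 hn4
        set H : ℝ := Real.exp (N * h n) with hH
        have hH1 : 1 ≤ H := Real.one_le_exp (by positivity)
        have hnot : ¬ (∏ l, ∏ i, VK ε l ((Matrix.of (c l)).mulVec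
            (fun j => algebraMap k _ ((subLimKZ N e (f n) j : 𝓞 k) : k)) i) ≤ H ^ (-δ)) := by
          intro hle
          obtain ⟨b', hb', hb0⟩ := hF _ H hH1
            (fun ρ i => subLimKZ_le N e he (f n) (h n) ρ (fun j => hs.le n j ρ) i) hle
          exact hn1 b' hb' hb0
        push Not at hnot
        have hf0 : ∀ l : PlK k p, (0 : ℝ) < vk l (f n 0 : k) := fun l =>
          AbsoluteValue.pos _ (fun h0 => hs.ne n (by exact_mod_cast h0))
        have hpl : ∀ l i, 0 < VK ε l (aeval (bsqK (f n)) (A l i)) := fun l i =>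
          AbsoluteValue.pos _ (hn3 l i)
        have e1 : ∀ l i, VK ε l ((Matrix.of (c l)).mulVec
            (fun j => algebraMap k _ ((subLimKZ N e (f n) j : 𝓞 k) : k)) i) =
            vk l (f n 0 : k) ^ N * VK ε l (aeval (bsqK (f n)) (A l i)) := fun l i =>
          subLimK_abs ε l N e he (f n) (hs.ne n) (A l) _ i (hn2 l i)
        simp only [e1] at hnot
        have hlogle := Real.log_lt_log (Real.rpow_pos_of_pos (Real.exp_pos _) _) hnot
        rw [Real.log_rpow (Real.exp_pos _), Real.log_exp] at hlogle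
        rw [Real.log_prod (fun l _ => Finset.prod_ne_zero_iff.2
              fun i _ => by
              have h1 := hpl l i
              have h2 := hf0 l
              positivity)] at hlogle
        have e4 : ∀ l, Real.log (∏ i, vk l (f n 0 : k) ^ N *
            VK ε l (aeval (bsqK (f n)) (A l i))) =
            ∑ i, (N * Real.log (vk l (f n 0 : k)) +
              Real.log (VK ε l (aeval (bsqK (f n)) (A l i)))) := by
          intro l
          have h2 := hf0 l
          rw [Real.log_prod (fun i _ => by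
            have h1 := hpl l i
            positivity)]
          refine Finset.sum_congr rfl fun i _ => ?_
          rw [Real.log_mul (by positivity) (hpl l i).ne', Real.log_pow]
        simp only [e4] at hlogle
        have e5 : ∑ l : PlK k p, ∑ i : Fin m, (N * (Real.log (vk l (f n 0 : k)) / h n) +
            Real.log (VK ε l (aeval (bsqK (f n)) (A l i))) / h n) =
            (∑ l : PlK k p, ∑ i : Fin m, (N * Real.log (vk l (f n 0 : k)) +
              Real.log (VK ε l (aeval (bsqK (f n)) (A l i))))) / h n := by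
          rw [Finset.sum_div]
          refine Finset.sum_congr rfl fun l _ => ?_
          rw [Finset.sum_div]
          refine Finset.sum_congr rfl fun i _ => ?_
          ring
        rw [e5, le_div_iff₀ hn4]
        have : -(δ * N) * h n = -δ * (N * h n) := by ring
        rw [this]
        exact hlogle.le
      exact ge_of_tendsto hkeylim hlt
    have hzero : 0 ≤ ∑ l : PlK k p, ∑ i, (N * lc l + Real.log (w l (aeval b (A l i)))) := by
      refine le_of_forall_pos_le_add fun ε' hε => ?_
      have h1 := hlower (ε' / (N + 1)) (by positivity)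
      have h2 : ε' / (N + 1) * N ≤ ε' := by
        rw [div_mul_eq_mul_div, div_le_iff₀ (by positivity)]
        nlinarith
      linarith
    have hsum : ∑ l : PlK k p, ∑ i : Fin m, (N * lc l + Real.log (w l (aeval b (A l i)))) =
        (finrank ℚ k : ℝ) * N * m - ∑ l, ∑ i, -Real.log (w l (aeval b (A l i))) := by
      have h1 : ∑ l : PlK k p, lc l = (finrank ℚ k : ℝ) := by
        rw [Fintype.sum_sum_type]
        simp only [hlc, Sum.elim_inl, Sum.elim_inr, Finset.sum_const_zero, add_zero,
          Finset.sum_const, nsmul_eq_mul, mul_one, Finset.card_univ]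
        rw [NumberField.Embeddings.card k ℂ]
      simp only [Finset.sum_add_distrib, Finset.sum_neg_distrib,
        Finset.sum_const, Finset.card_univ, Fintype.card_fin, nsmul_eq_mul]
      rw [← h1, sub_neg_eq_add, Finset.sum_mul, Finset.sum_mul]
      congr 1
      refine Finset.sum_congr rfl fun l _ => ?_
      ring
    rw [hsum] at hzero
    linarith

theorem subLimK_of (ε : ExtK k p)
    (hSch : ∀ m : ℕ, 2 ≤ m → ∀ (L : PlK k p → Matrix (Fin m) (Fin m) (AlgebraicClosure k)),
      (∀ l, (L l).det ≠ 0) → ∀ δ : ℝ, 0 < δ →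
      ∃ F : Finset (Fin m → k), 0 ∉ F ∧ ∀ (x : Fin m → 𝓞 k) (H : ℝ), 1 ≤ H →
      (∀ (ρ : k →+* ℂ) i, ‖ρ (x i)‖ ≤ H) →
      ∏ l, ∏ i, VK ε l ((L l).mulVec (fun j => algebraMap k _ (x j : k)) i) ≤ H ^ (-δ) →
      ∃ β ∈ F, ∑ i, β i * (x i : k) = 0)
    {U : Ultrafilter ℕ} {h : ℕ → ℝ} {f : ℕ → Fin 3 → 𝓞 k} (hs : SeqK p U h f)
    {𝓕 : Type} [Field 𝓕] [Algebra (AlgebraicClosure k) 𝓕] {b : Fin 2 → 𝓕}
    (hker : ∀ P : MvPolynomial (Fin 2) (AlgebraicClosure k), aeval b P = 0 ↔
      ∀ᶠ n in (U : Filter ℕ), aeval (bsqK (f n)) P = 0)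
    (w : PlK k p → AbsoluteValue 𝓕 ℝ)
    (hlim : ∀ l, LimRel U h (fun n => bsqK (f n)) b (VK ε l) (w l)) (N : ℕ)
    (A : PlK k p → Fin (finrank (AlgebraicClosure k) (Md (AlgebraicClosure k) b N)) →
      MvPolynomial (Fin 2) (AlgebraicClosure k))
    (hAN : ∀ l i, (A l i).totalDegree ≤ N)
    (hA : ∀ l, LinearIndependent (AlgebraicClosure k) (fun i => aeval b (A l i))) :
    ∑ l, ∑ i, -Real.log (w l (aeval b (A l i))) ≤
      (finrank ℚ k : ℝ) * N * finrank (AlgebraicClosure k) (Md (AlgebraicClosure k) b N) := by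
  obtain ⟨e, he, hli, hrep⟩ := sublim_basis (κ := AlgebraicClosure k) b N
  exact subLimK_main ε hSch hs hker w hlim N _ e he hli hrep A hAN hA

/-- the limit form of Schlickewei's theorem over a number field -/
theorem sub_limK (e : ExtK k p) (hp : Function.Injective p)
    {U : Ultrafilter ℕ} {h : ℕ → ℝ} {f : ℕ → Fin 3 → 𝓞 k} (hs : SeqK p U h f)
    {𝓕 : Type} [Field 𝓕] [Algebra (AlgebraicClosure k) 𝓕] {b : Fin 2 → 𝓕}
    (hker : ∀ P : MvPolynomial (Fin 2) (AlgebraicClosure k), aeval b P = 0 ↔
      ∀ᶠ n in (U : Filter ℕ), aeval (bsqK (f n)) P = 0)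
    (w : PlK k p → AbsoluteValue 𝓕 ℝ)
    (hlim : ∀ l, LimRel U h (fun n => bsqK (f n)) b (VK e l) (w l)) (N : ℕ)
    (A : PlK k p → Fin (finrank (AlgebraicClosure k) (Md (AlgebraicClosure k) b N)) →
      MvPolynomial (Fin 2) (AlgebraicClosure k))
    (hAN : ∀ l i, (A l i).totalDegree ≤ N)
    (hA : ∀ l, LinearIndependent (AlgebraicClosure k) (fun i => aeval b (A l i))) :
    ∑ l, ∑ i, -Real.log (w l (aeval b (A l i))) ≤
      (finrank ℚ k : ℝ) * N * finrank (AlgebraicClosure k) (Md (AlgebraicClosure k) b N) :=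
  subLimK_of e (fun m hm L hL d hd => schlickeweiK e hp (by simpa using hm) L hL d hd)
    hs hker w hlim N A hAN hA

end K

end Pool.Agent.SST
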