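import Pool.Agent.SST.CurveHilb
import Pool.Agent.SST.CurveGen
import Pool.Agent.SST.CurveBasis
import Pool.Agent.SST.Geo

/-! The abstract main theorem for the inequality with the discriminant. -/

open MvPolynomial Module

namespace Pool.Agent.SST

section Pre

variable {κ 𝓕 : Type} [Field κ] [Field 𝓕] [Algebra κ 𝓕]

theorem CPlace.t2_le_one {b : Fin 2 → 𝓕} {w : AbsoluteValue 𝓕 ℝ} (hw : CPlace κ b w)
    (P : MvPolynomial (Fin 2) κ) : w (aeval b P) ≤ 1 := by
  induction P using MvPolynomial.induction_on with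
  | C a =>
    rw [aeval_C]
    by_cases ha : a = 0
    · rw [ha, map_zero, map_zero]; exact zero_le_one
    · rw [hw.triv a ha]
  | add p q hp hq =>
    rw [map_add]
    exact (hw.nonarch _ _).trans (max_le hp hq)
  | mul_X p i hp =>
    rw [map_mul, map_mul, aeval_X]
    exact mul_le_one₀ hp (w.nonneg _) (hw.le i)

theorem t2_fq_eq_aeval (α : κ) (b : Fin 2 → 𝓕) :
    fq α b = aeval b (C α ^ 2 + X 0 * C α + X 1 : MvPolynomial (Fin 2) κ) := by
  simp [fq]

theorem t2_dq_eq_aeval (b : Fin 2 → 𝓕) :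
    dq b = aeval b (X 0 ^ 2 - 4 * X 1 : MvPolynomial (Fin 2) κ) := by
  simp [dq]

/-- the sum of the local contributions at one place -/
noncomputable def t2_wsum (b : Fin 2 → 𝓕) (w : AbsoluteValue 𝓕 ℝ) (D : Finset κ) : ℝ :=
  ∑ α ∈ D, -Real.log (w (fq α b)) - Real.log (w (dq b))

theorem CPlace.t2_neg_log_nonneg {b : Fin 2 → 𝓕} {w : AbsoluteValue 𝓕 ℝ} (hw : CPlace κ b w)
    (P : MvPolynomial (Fin 2) κ) : 0 ≤ -Real.log (w (aeval b P)) := by
  rw [neg_nonneg]
  exact Real.log_nonpos (w.nonneg _) (hw.t2_le_one P)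

theorem t2_wsum_of_trivial {b : Fin 2 → 𝓕} {w : AbsoluteValue 𝓕 ℝ} (h : ¬ w.IsNontrivial)
    (htan : ∀ α : κ, fq α b ≠ 0) (hd : dq b ≠ 0) (D : Finset κ) : t2_wsum b w D = 0 := by
  have h1 : ∀ y : 𝓕, y ≠ 0 → w y = 1 := by
    intro y hy
    by_contra h2
    exact h ⟨y, hy, h2⟩
  unfold t2_wsum
  rw [h1 _ hd, Real.log_one, sub_zero]
  apply Finset.sum_eq_zero
  intro α _
  rw [h1 _ (htan α), Real.log_one, neg_zero]

theorem IsGen.t2_isNontrivial {w : AbsoluteValue 𝓕 ℝ} {t : ℝ} (ht : IsGen w t) : w.IsNontrivial := by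
  obtain ⟨y, hy, h⟩ := ht.unif
  refine ⟨y, hy, fun h1 => ?_⟩
  rw [h1, Real.log_one] at h
  have := ht.pos
  linarith

/-- equivalent absolute values are proportional to their generators -/
theorem IsGen.t2_log_div_eq {w₁ w₂ : AbsoluteValue 𝓕 ℝ} {t₁ t₂ : ℝ} (ht₁ : IsGen w₁ t₁)
    (ht₂ : IsGen w₂ t₂) (h : w₁.IsEquiv w₂) (y : 𝓕) :
    Real.log (w₁ y) / t₁ = Real.log (w₂ y) / t₂ := by
  obtain ⟨c, hc, hcw⟩ := AbsoluteValue.isEquiv_iff_exists_rpow_eq.1 h
  have hlog : ∀ x : 𝓕, x ≠ 0 → Real.log (w₂ x) = c * Real.log (w₁ x) := by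
    intro x hx
    rw [← congrFun hcw x]
    exact Real.log_rpow (w₁.pos hx) c
  have hp1 := ht₁.pos
  have hp2 := ht₂.pos
  have hle1 : t₂ ≤ c * t₁ := by
    obtain ⟨x, hx, hx1⟩ := ht₁.unif
    obtain ⟨n, hn⟩ := ht₂.val x hx
    rw [hlog x hx, hx1] at hn
    have hn0 : n < 0 := by
      by_contra hcon
      push Not at hcon
      have : (0 : ℝ) ≤ n * t₂ := mul_nonneg (by exact_mod_cast hcon) hp2.le
      nlinarith [mul_pos hc hp1]
    have hn1 : (n : ℝ) ≤ -1 := by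
      have : n ≤ -1 := by omega
      exact_mod_cast this
    nlinarith
  have hle2 : c * t₁ ≤ t₂ := by
    obtain ⟨x, hx, hx1⟩ := ht₂.unif
    obtain ⟨n, hn⟩ := ht₁.val x hx
    rw [hlog x hx, hn] at hx1
    have hct := mul_pos hc hp1
    have hn0 : n < 0 := by
      by_contra hcon
      push Not at hcon
      have : (0 : ℝ) ≤ n * (c * t₁) := mul_nonneg (by exact_mod_cast hcon) hct.le
      nlinarith
    have hn1 : (n : ℝ) ≤ -1 := by
      have : n ≤ -1 := by omega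
      exact_mod_cast this
    nlinarith
  have hct : c * t₁ = t₂ := le_antisymm hle2 hle1
  by_cases hy : y = 0
  · rw [hy]; simp
  · rw [hlog y hy, ← hct, mul_div_mul_left _ _ hc.ne']

theorem t2_wsum_div_eq {b : Fin 2 → 𝓕} {w₁ w₂ : AbsoluteValue 𝓕 ℝ} {t₁ t₂ : ℝ} (ht₁ : IsGen w₁ t₁)
    (ht₂ : IsGen w₂ t₂) (h : w₁.IsEquiv w₂) (D : Finset κ) :
    t2_wsum b w₁ D / t₁ = t2_wsum b w₂ D / t₂ := by
  unfold t2_wsum
  rw [sub_div, sub_div, Finset.sum_div, Finset.sum_div, ht₁.t2_log_div_eq ht₂ h]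
  congr 1
  apply Finset.sum_congr rfl
  intro α _
  rw [neg_div, neg_div, ht₁.t2_log_div_eq ht₂ h]

section Conj

variable {b : Fin 2 → 𝓕} {g : MvPolynomial (Fin 2) κ} {w w' : AbsoluteValue 𝓕 ℝ} {τ : κ ≃+* κ}

theorem t2_conj_wsum (hww : ∀ P, w' (aeval b P) = w (aeval b (map (τ : κ →+* κ) P)))
    (D : Finset κ) (hD : ∀ α ∈ D, τ α ∈ D) : t2_wsum b w' D = t2_wsum b w D := by
  have h1 : ∀ α : κ, w' (fq α b) = w (fq (τ α) b) := by
    intro α
    rw [t2_fq_eq_aeval, t2_fq_eq_aeval, hww]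
    congr 2
    simp
  have h2 : w' (dq b) = w (dq b) := by
    rw [t2_dq_eq_aeval (κ := κ), hww]
    congr 2
    simp
  unfold t2_wsum
  rw [h2]
  congr 1
  classical
  have himg : D.image τ = D := by
    apply Finset.eq_of_subset_of_card_le
    · intro x hx
      obtain ⟨a, ha, rfl⟩ := Finset.mem_image.1 hx
      exact hD a ha
    · rw [Finset.card_image_of_injective _ τ.injective]
  calc ∑ α ∈ D, -Real.log (w' (fq α b)) = ∑ α ∈ D, -Real.log (w (fq (τ α) b)) :=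
        Finset.sum_congr rfl fun α _ => by rw [h1]
    _ = ∑ α ∈ D.image τ, -Real.log (w (fq α b)) :=
        (Finset.sum_image (f := fun α => -Real.log (w (fq α b)))
          fun x _ y _ hxy => τ.injective hxy).symm
    _ = ∑ α ∈ D, -Real.log (w (fq α b)) := by rw [himg]

theorem t2_conj_gen (hC : CurveField b g)
    (hww : ∀ P, w' (aeval b P) = w (aeval b (map (τ : κ →+* κ) P))) {t : ℝ} (ht : IsGen w t) :
    IsGen w' t := by
  have hne : ∀ P : MvPolynomial (Fin 2) κ, aeval b P ≠ 0 →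
      aeval b (map (τ : κ →+* κ) P) ≠ 0 := by
    intro P hP h0
    have h1 := hww P
    rw [h0, map_zero] at h1
    exact hP (w'.eq_zero.1 h1)
  have hne' : ∀ P : MvPolynomial (Fin 2) κ, aeval b P ≠ 0 →
      aeval b (map (τ.symm : κ →+* κ) P) ≠ 0 := by
    intro P hP h0
    have h1 := hww (map (τ.symm : κ →+* κ) P)
    rw [h0, map_zero, map_map] at h1
    have h2 : ((τ : κ →+* κ).comp (τ.symm : κ →+* κ)) = RingHom.id κ := by
      ext x; simp
    rw [h2, map_id] at h1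
    exact hP (w.eq_zero.1 h1.symm)
  refine ⟨ht.pos, ?_, ?_⟩
  · intro y hy
    obtain ⟨P, Q, hQ, hyPQ⟩ := hC.frac y
    have hP : aeval b P ≠ 0 := by
      intro h0; rw [h0, zero_div] at hyPQ; exact hy hyPQ
    obtain ⟨n, hn⟩ := ht.val (aeval b (map (τ : κ →+* κ) P) / aeval b (map (τ : κ →+* κ) Q))
      (div_ne_zero (hne P hP) (hne Q hQ))
    refine ⟨n, ?_⟩
    rw [← hn, hyPQ, map_div₀, map_div₀, hww, hww]
  · obtain ⟨y, hy, h⟩ := ht.unif
    obtain ⟨P, Q, hQ, hyPQ⟩ := hC.frac y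
    have hP : aeval b P ≠ 0 := by
      intro h0; rw [h0, zero_div] at hyPQ; exact hy hyPQ
    have h2 : ((τ : κ →+* κ).comp (τ.symm : κ →+* κ)) = RingHom.id κ := by
      ext x; simp
    refine ⟨aeval b (map (τ.symm : κ →+* κ) P) / aeval b (map (τ.symm : κ →+* κ) Q),
      div_ne_zero (hne' P hP) (hne' Q hQ), ?_⟩
    rw [← h, hyPQ, map_div₀, map_div₀, hww, hww, map_map, map_map, h2, map_id, map_id]

end Conj

theorem t2_sum_inj_ge {n : ℕ} (e : Fin n → ℕ) (he : Function.Injective e) :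
    (n : ℝ) * (n - 1) / 2 ≤ ∑ i, (e i : ℝ) := by
  have h1 := Finset.sum_range_le_sum (s := Finset.univ.image fun i => (e i : ℤ)) (c := 0) (by
    intro x hx
    obtain ⟨i, _, rfl⟩ := Finset.mem_image.1 hx
    exact Int.natCast_nonneg _)
  have hinj : Function.Injective fun i => (e i : ℤ) := fun x y hxy => he (Nat.cast_injective hxy)
  rw [Finset.card_image_of_injective _ hinj, Finset.sum_image (fun x _ y _ hxy => hinj hxy),
    Finset.card_univ, Fintype.card_fin] at h1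
  have h2 : ∀ m : ℕ, (∑ i ∈ Finset.range m, ((0 : ℤ) + i) : ℤ) * 2 = m * (m - 1) := by
    intro m
    induction m with
    | zero => simp
    | succ k ih =>
      rw [Finset.sum_range_succ, add_mul, ih]
      push_cast
      ring
  have h3 : ((n : ℝ) * (n - 1)) ≤ (∑ i, (e i : ℝ)) * 2 := by
    have h4 : ((n : ℤ) * (n - 1)) ≤ (∑ i, (e i : ℤ)) * 2 := by
      rw [← h2 n]
      linarith
    exact_mod_cast h4
  linarith

theorem t2_exists_ge_of_inj {n : ℕ} (hn : 0 < n) (e : Fin n → ℕ) (he : Function.Injective e) :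
    ∃ i, n ≤ e i + 1 := by
  by_contra h
  push Not at h
  have h1 : Finset.univ.image e ⊆ Finset.range (n - 1) := by
    intro x hx
    obtain ⟨i, _, rfl⟩ := Finset.mem_image.1 hx
    rw [Finset.mem_range]
    have := h i
    omega
  have h2 := Finset.card_le_card h1
  rw [Finset.card_image_of_injective _ he, Finset.card_univ, Fintype.card_fin,
    Finset.card_range] at h2
  omega

/-- the limit argument -/
theorem t2_limit_arith {T δ d c : ℝ} (h : ∀ N : ℕ, T * (δ * N - c) ≤ d * N) : T * δ ≤ d := by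
  by_contra hcon
  push Not at hcon
  obtain ⟨N, hN⟩ := exists_nat_gt (T * c / (T * δ - d))
  have h1 := h N
  have h2 : 0 < T * δ - d := by linarith
  rw [div_lt_iff₀ h2] at hN
  nlinarith

end Pre

section Main

variable {κ 𝓕 : Type} [Field κ] [Field 𝓕] [Algebra κ 𝓕]

theorem t2_limit [IsAlgClosed κ] [CharZero κ] {b : Fin 2 → 𝓕} {g : MvPolynomial (Fin 2) κ}
    (hC : CurveField b g) (htan : ∀ α : κ, fq α b ≠ 0) (hd : dq b ≠ 0) {Λ : Type} [Fintype Λ]
    {Γ : Type} (σ : Γ → κ ≃+* κ) (w : Λ → AbsoluteValue 𝓕 ℝ)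
    (w' : Λ → Γ → AbsoluteValue 𝓕 ℝ) (hw : ∀ l, CPlace κ b (w l))
    (hw' : ∀ l γ, CPlace κ b (w' l γ))
    (hww : ∀ l γ P, w' l γ (aeval b P) = w l (aeval b (map (σ γ : κ →+* κ) P))) (d : ℝ)
    (hd0 : 0 < d)
    (hsub : ∀ (N : ℕ) (A : Λ → Fin (finrank κ (Md κ b N)) → MvPolynomial (Fin 2) κ),
      (∀ l i, (A l i).totalDegree ≤ N) → (∀ l, LinearIndependent κ (fun i => aeval b (A l i))) →
      ∑ l, ∑ i, -Real.log (w l (aeval b (A l i))) ≤ d * N * finrank κ (Md κ b N))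
    (hliou : ∀ (N : ℕ) (P : MvPolynomial (Fin 2) κ), P.totalDegree ≤ N → aeval b P ≠ 0 →
      ∃ (e : ℕ) (s : Fin e → Γ), 0 < e ∧
        ∑ l, ∑ j, -Real.log (w' l (s j) (aeval b P)) ≤ e * (d * N))
    (D : Finset κ) (hD : ∀ γ, ∀ α ∈ D, σ γ α ∈ D) :
    ∑ l, (∑ α ∈ D, -Real.log (w l (fq α b)) - Real.log (w l (dq b))) ≤ 4 * d := by
  classical
  change ∑ l, t2_wsum b (w l) D ≤ 4 * d
  obtain ⟨c, hc⟩ := hilb hC
  have hδ0 : (0 : ℝ) < g.totalDegree := by exact_mod_cast hC.totalDegree_pos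
  set δ : ℝ := (g.totalDegree : ℝ) with hδ
  have hcR : ∀ N : ℕ, δ * N ≤ finrank κ (Md κ b N) + c := fun N => by
    rw [hδ]
    exact_mod_cast (hc N).1
  -- generators
  have hgen : ∀ l, ∃ t : ℝ, (w l).IsNontrivial → IsGen (w l) t := by
    intro l
    by_cases h : (w l).IsNontrivial
    · obtain ⟨t, ht⟩ := exists_gen hC (hw l) h
      exact ⟨t, fun _ => ht⟩
    · exact ⟨0, fun h' => absurd h' h⟩
  choose t ht using hgen
  set Λ' : Finset Λ := Finset.univ.filter fun l => (w l).IsNontrivial with hΛ'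
  have hmem : ∀ l, l ∈ Λ' ↔ (w l).IsNontrivial := by simp [hΛ']
  have hsumW : ∑ l, t2_wsum b (w l) D = ∑ l ∈ Λ', t2_wsum b (w l) D := by
    symm
    apply Finset.sum_subset (Finset.subset_univ _)
    intro l _ hl
    rw [hmem] at hl
    exact t2_wsum_of_trivial hl htan hd D
  rw [hsumW]
  by_cases hemp : Λ' = ∅
  · rw [hemp, Finset.sum_empty]; linarith
  obtain ⟨l₁, hl₁⟩ := Finset.nonempty_iff_ne_empty.2 hemp
  rw [hmem] at hl₁
  -- Roth
  have hRoth : (∑ l ∈ Λ', t l) * δ ≤ 2 * d := by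
    have hT : 0 ≤ ∑ l ∈ Λ', t l :=
      Finset.sum_nonneg fun l hl => (ht l ((hmem l).1 hl)).pos.le
    apply t2_limit_arith (c := c + 1)
    intro N
    set n := finrank κ (Md κ b N) with hn
    have hcN := hcR N
    rw [← hn] at hcN
    by_cases hn0 : n = 0
    · rw [hn0] at hcN
      push_cast at hcN
      have h1 : δ * N - (c + 1) ≤ 0 := by linarith
      have h2 : (∑ l ∈ Λ', t l) * (δ * N - (c + 1)) ≤ 0 := mul_nonpos_of_nonneg_of_nonpos hT h1
      have h3 : (0 : ℝ) ≤ 2 * d * N := by positivity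
      linarith
    have hn0' : (0 : ℝ) < n := by exact_mod_cast Nat.pos_of_ne_zero hn0
    obtain ⟨A₁, e₁, hA₁, hA₁i, he₁, hA₁v⟩ := exists_adapted hC (hw l₁) (ht l₁ hl₁) N
    have hex : ∀ l, ∃ A : Fin (finrank κ (Md κ b N)) → MvPolynomial (Fin 2) κ,
        (∀ i, (A i).totalDegree ≤ N) ∧ LinearIndependent κ (fun i => aeval b (A i)) ∧
        ((w l).IsNontrivial → ∃ e : Fin (finrank κ (Md κ b N)) → ℕ, Function.Injective e ∧
          ∀ i, Real.log (w l (aeval b (A i))) = -(e i * t l)) := by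
      intro l
      by_cases h : (w l).IsNontrivial
      · obtain ⟨A, e, h1, h2, h3, h4⟩ := exists_adapted hC (hw l) (ht l h) N
        exact ⟨A, h1, h2, fun _ => ⟨e, h3, h4⟩⟩
      · exact ⟨A₁, hA₁, hA₁i, fun h' => absurd h' h⟩
    choose A hA1 hA2 hA3 using hex
    have h1 := hsub N A hA1 hA2
    have h2 : (∑ l ∈ Λ', t l) * ((n : ℝ) * (n - 1) / 2) ≤
        ∑ l, ∑ i, -Real.log (w l (aeval b (A l i))) := by
      have h3 : ∑ l ∈ Λ', ∑ i, -Real.log (w l (aeval b (A l i))) ≤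
          ∑ l, ∑ i, -Real.log (w l (aeval b (A l i))) := by
        apply Finset.sum_le_sum_of_subset_of_nonneg (Finset.subset_univ _)
        intro l _ _
        exact Finset.sum_nonneg fun i _ => (hw l).t2_neg_log_nonneg _
      refine le_trans ?_ h3
      rw [Finset.sum_mul]
      apply Finset.sum_le_sum
      intro l hl
      rw [hmem] at hl
      obtain ⟨e, he, hev⟩ := hA3 l hl
      have h4 : ∑ i, -Real.log (w l (aeval b (A l i))) = t l * ∑ i, (e i : ℝ) := by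
        rw [Finset.mul_sum]
        apply Finset.sum_congr rfl
        intro i _
        rw [hev i]
        ring
      rw [h4]
      exact mul_le_mul_of_nonneg_left (t2_sum_inj_ge e he) (ht l hl).pos.le
    have h5 : (∑ l ∈ Λ', t l) * ((n : ℝ) - 1) ≤ 2 * d * N := by
      have h6 := h2.trans h1
      have h7 : ((∑ l ∈ Λ', t l) * ((n : ℝ) - 1)) * n ≤ (2 * d * N) * n := by linarith
      exact le_of_mul_le_mul_right h7 hn0'
    have h8 : (∑ l ∈ Λ', t l) * (δ * N - (c + 1)) ≤ (∑ l ∈ Λ', t l) * ((n : ℝ) - 1) :=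
      mul_le_mul_of_nonneg_left (by linarith) hT
    linarith
  have hWt : ∀ l ∈ Λ', t2_wsum b (w l) D = (t2_wsum b (w l) D / t l) * t l := by
    intro l hl
    rw [div_mul_cancel₀ _ (ht l ((hmem l).1 hl)).pos.ne']
  by_cases hall : ∀ l ∈ Λ', t2_wsum b (w l) D / t l ≤ 2 * δ
  · calc ∑ l ∈ Λ', t2_wsum b (w l) D ≤ ∑ l ∈ Λ', (2 * δ) * t l := by
          apply Finset.sum_le_sum
          intro l hl
          rw [hWt l hl]
          exact mul_le_mul_of_nonneg_right (hall l hl) (ht l ((hmem l).1 hl)).pos.le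
      _ = 2 * ((∑ l ∈ Λ', t l) * δ) := by rw [← Finset.mul_sum]; ring
      _ ≤ 4 * d := by linarith
  push Not at hall
  obtain ⟨l₀, hl₀, hW0⟩ := hall
  have hg0 := ht l₀ ((hmem l₀).1 hl₀)
  set r₀ := t2_wsum b (w l₀) D / t l₀ with hr₀
  set E : Finset Λ := Λ'.filter fun l => (w l₀).IsEquiv (w l) with hE
  have hEmem : ∀ l, l ∈ E ↔ (w l).IsNontrivial ∧ (w l₀).IsEquiv (w l) := by
    intro l
    rw [hE, Finset.mem_filter, hmem]
  have hEr : ∀ l ∈ E, t2_wsum b (w l) D / t l = r₀ := by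
    intro l hl
    obtain ⟨h1, h2⟩ := (hEmem l).1 hl
    exact (t2_wsum_div_eq hg0 (ht l h1) h2 D).symm
  have hEconj : ∀ l ∈ E, ∀ γ, ∀ y, Real.log (w l₀ y) / t l₀ = Real.log (w' l γ y) / t l := by
    intro l hl γ y
    obtain ⟨h1, h2⟩ := (hEmem l).1 hl
    have hg' : IsGen (w' l γ) (t l) := t2_conj_gen hC (hww l γ) (ht l h1)
    have hW' : t2_wsum b (w' l γ) D = t2_wsum b (w l) D := t2_conj_wsum (hww l γ) D (hD γ)
    by_cases heq : (w l₀).IsEquiv (w' l γ)
    · exact hg0.t2_log_div_eq hg' heq y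
    · exfalso
      have h3 := geo_two hC htan hd (hw l₀) (hw' l γ) hg0 hg' heq D
      change t2_wsum b (w l₀) D / t l₀ + t2_wsum b (w' l γ) D / t l ≤ 4 * δ at h3
      rw [hW', hEr l hl] at h3
      linarith
  -- Liouville
  have hLiou : (∑ l ∈ E, t l) * δ ≤ d := by
    have hT : 0 ≤ ∑ l ∈ E, t l :=
      Finset.sum_nonneg fun l hl => (ht l ((hEmem l).1 hl).1).pos.le
    apply t2_limit_arith (c := c + 1)
    intro N
    set n := finrank κ (Md κ b N) with hn
    have hcN := hcR N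
    rw [← hn] at hcN
    by_cases hn0 : n = 0
    · rw [hn0] at hcN
      push_cast at hcN
      have h1 : δ * N - (c + 1) ≤ 0 := by linarith
      have h2 : (∑ l ∈ E, t l) * (δ * N - (c + 1)) ≤ 0 := mul_nonpos_of_nonneg_of_nonpos hT h1
      have h3 : (0 : ℝ) ≤ d * N := by positivity
      linarith
    obtain ⟨A, e, hA1, hA2, he, hAv⟩ := exists_adapted hC (hw l₀) hg0 N
    obtain ⟨i, hi⟩ := t2_exists_ge_of_inj (Nat.pos_of_ne_zero hn0) e he
    have hne : aeval b (A i) ≠ 0 := hA2.ne_zero i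
    obtain ⟨m, s, hm, hle⟩ := hliou N (A i) (hA1 i) hne
    have hmR : (0 : ℝ) < m := by exact_mod_cast hm
    have h2 : (∑ l ∈ E, t l) * ((n : ℝ) - 1) * m ≤
        ∑ l, ∑ j, -Real.log (w' l (s j) (aeval b (A i))) := by
      have h3 : ∑ l ∈ E, ∑ j, -Real.log (w' l (s j) (aeval b (A i))) ≤
          ∑ l, ∑ j, -Real.log (w' l (s j) (aeval b (A i))) := by
        apply Finset.sum_le_sum_of_subset_of_nonneg (Finset.subset_univ _)
        intro l _ _
        exact Finset.sum_nonneg fun j _ => (hw' l (s j)).t2_neg_log_nonneg _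
      refine le_trans ?_ h3
      rw [mul_assoc, Finset.sum_mul]
      apply Finset.sum_le_sum
      intro l hl
      have htl := (ht l ((hEmem l).1 hl).1).pos
      have h4 : ∀ j, t l * ((n : ℝ) - 1) ≤ -Real.log (w' l (s j) (aeval b (A i))) := by
        intro j
        have h5 := hEconj l hl (s j) (aeval b (A i))
        rw [hAv i, neg_div, mul_div_assoc, div_self hg0.pos.ne', mul_one] at h5
        have h6 : Real.log (w' l (s j) (aeval b (A i))) = -(e i : ℝ) * t l := by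
          rw [h5, div_mul_cancel₀ _ htl.ne']
        rw [h6]
        have h7 : (n : ℝ) ≤ e i + 1 := by exact_mod_cast hi
        nlinarith
      calc t l * (((n : ℝ) - 1) * m) = ∑ _j : Fin m, t l * ((n : ℝ) - 1) := by
            rw [Finset.sum_const, Finset.card_univ, Fintype.card_fin, nsmul_eq_mul]; ring
        _ ≤ _ := Finset.sum_le_sum fun j _ => h4 j
    have h5 : (∑ l ∈ E, t l) * ((n : ℝ) - 1) ≤ d * N := by
      have h6 := h2.trans hle
      have h7 : (∑ l ∈ E, t l) * ((n : ℝ) - 1) * m ≤ (d * N) * m := by linarith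
      exact le_of_mul_le_mul_right h7 hmR
    have h8 : (∑ l ∈ E, t l) * (δ * N - (c + 1)) ≤ (∑ l ∈ E, t l) * ((n : ℝ) - 1) :=
      mul_le_mul_of_nonneg_left (by linarith) hT
    linarith
  have hr3 : r₀ ≤ 3 * δ := geo_one hC htan hd (hw l₀) hg0 D
  have hEsub : E ⊆ Λ' := Finset.filter_subset _ _
  have hsplit : ∑ l ∈ Λ', t2_wsum b (w l) D =
      ∑ l ∈ E, t2_wsum b (w l) D + ∑ l ∈ Λ' \ E, t2_wsum b (w l) D := by
    rw [add_comm]
    exact (Finset.sum_sdiff hEsub).symm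
  have htsplit : ∑ l ∈ Λ', t l = ∑ l ∈ E, t l + ∑ l ∈ Λ' \ E, t l := by
    rw [add_comm]
    exact (Finset.sum_sdiff hEsub).symm
  have hb1 : ∑ l ∈ E, t2_wsum b (w l) D = r₀ * ∑ l ∈ E, t l := by
    rw [Finset.mul_sum]
    apply Finset.sum_congr rfl
    intro l hl
    rw [hWt l (hEsub hl), hEr l hl]
  have hb2 : ∑ l ∈ Λ' \ E, t2_wsum b (w l) D ≤ (4 * δ - r₀) * ∑ l ∈ Λ' \ E, t l := by
    rw [Finset.mul_sum]
    apply Finset.sum_le_sum
    intro l hl
    rw [Finset.mem_sdiff] at hl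
    have hnt := (hmem l).1 hl.1
    have hne : ¬ (w l₀).IsEquiv (w l) := fun h => hl.2 ((hEmem l).2 ⟨hnt, h⟩)
    have h3 := geo_two hC htan hd (hw l₀) (hw l) hg0 (ht l hnt) hne D
    change r₀ + t2_wsum b (w l) D / t l ≤ 4 * δ at h3
    rw [hWt l hl.1]
    exact mul_le_mul_of_nonneg_right (by linarith) (ht l hnt).pos.le
  rw [hsplit, hb1]
  refine (add_le_add_right hb2 _).trans ?_
  have hy : ∑ l ∈ Λ' \ E, t l = ∑ l ∈ Λ', t l - ∑ l ∈ E, t l := by linarith
  rw [hy]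
  clear hb1 hb2 hsplit htsplit hy
  generalize ∑ l ∈ Λ', t l = T at *
  generalize ∑ l ∈ E, t l = Y at *
  have h1 : (4 * δ - r₀) * (T * δ) ≤ (4 * δ - r₀) * (2 * d) :=
    mul_le_mul_of_nonneg_left hRoth (by linarith)
  have h2 : (2 * r₀ - 4 * δ) * (Y * δ) ≤ (2 * r₀ - 4 * δ) * d :=
    mul_le_mul_of_nonneg_left hLiou (by linarith)
  have h3 : (r₀ * Y + (4 * δ - r₀) * (T - Y)) * δ ≤ (4 * d) * δ := by
    nlinarith
  exact le_of_mul_le_mul_right h3 hδ0

end Main

end Pool.Agent.SST
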