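import Pool.Agent.SST.KAux
import Pool.Agent.SST.TameK
import Pool.Agent.SST.SubLimK
import Pool.Agent.SST.LiouLimK
import Pool.Agent.SST.GenLimit
import Pool.Agent.SST.T2Limit
import Pool.Agent.SST.System
import Pool.Agent.SST.Schlick
import Pool.Agent.SST.TwoSAux

/-! The limit of the height inequality along a sequence of forms over a number field. -/

open MvPolynomial Filter Module NumberField
open scoped Topology

namespace Pool.Agent.SST

section Gen

variable {κ : Type} [Field κ]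

/-- the rational function field of a generic sequence -/
theorem exists_system_gen (U : Ultrafilter ℕ) (h : ℕ → ℝ) (hh : Tendsto h U atTop)
    (bs : ℕ → Fin 2 → κ)
    (hgen : ∀ P : MvPolynomial (Fin 2) κ, P ≠ 0 → ∀ᶠ n in (U : Filter ℕ), aeval (bs n) P ≠ 0) :
    ∃ (𝓕 : Type) (_ : Field 𝓕) (_ : Algebra κ 𝓕) (b : Fin 2 → 𝓕),
      (∀ P : MvPolynomial (Fin 2) κ, aeval b P = 0 → P = 0) ∧
      (∀ P : MvPolynomial (Fin 2) κ, aeval b P = 0 ↔ ∀ᶠ n in (U : Filter ℕ), aeval (bs n) P = 0) ∧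
      ∀ v : AbsoluteValue κ ℝ,
        (∀ P : MvPolynomial (Fin 2) κ, (∀ᶠ n in (U : Filter ℕ), aeval (bs n) P ≠ 0) →
          ∃ C : ℝ, ∀ᶠ n in (U : Filter ℕ), |Real.log (v (aeval (bs n) P))| ≤ C * h n) →
        ∃ w : AbsoluteValue 𝓕 ℝ, (∀ x y : 𝓕, w (x + y) ≤ max (w x) (w y)) ∧
          (∀ c : κ, c ≠ 0 → w (algebraMap κ 𝓕 c) = 1) ∧ LimRel U h bs b v w := by
  let A := MvPolynomial (Fin 2) κ
  let 𝓕 := FractionRing A
  let b : Fin 2 → 𝓕 := fun i => algebraMap A 𝓕 (X i)
  have hb : ∀ P : MvPolynomial (Fin 2) κ, aeval b P = algebraMap A 𝓕 P := by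
    intro P
    have h1 : (aeval b : MvPolynomial (Fin 2) κ →ₐ[κ] 𝓕) = IsScalarTower.toAlgHom κ A 𝓕 := by
      ext i
      simp [b]
      rfl
    rw [h1]
    rfl
  have hinj : Function.Injective (algebraMap A 𝓕) := IsFractionRing.injective A 𝓕
  have h0 : ∀ P : MvPolynomial (Fin 2) κ, aeval b P = 0 → P = 0 := by
    intro P hP
    rw [hb, map_eq_zero_iff _ hinj] at hP
    exact hP
  have hker : ∀ P : MvPolynomial (Fin 2) κ,
      aeval b P = 0 ↔ ∀ᶠ n in (U : Filter ℕ), aeval (bs n) P = 0 := by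
    intro P
    constructor
    · intro h1
      rw [h0 P h1]
      simp
    · intro h1
      by_contra h2
      have h3 : P ≠ 0 := by
        rintro rfl
        exact h2 (map_zero _)
      obtain ⟨n, hn1, hn2⟩ := (h1.and (hgen P h3)).exists
      exact hn2 hn1
  have hfrac : ∀ y : 𝓕, ∃ P Q : MvPolynomial (Fin 2) κ,
      aeval b Q ≠ 0 ∧ y = aeval b P / aeval b Q := by
    intro y
    obtain ⟨p, q, hq, hy⟩ := IsFractionRing.div_surjective (A := A) y
    refine ⟨p, q, ?_, ?_⟩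
    · rw [hb, Ne, map_eq_zero_iff _ hinj]
      exact nonZeroDivisors.ne_zero hq
    · rw [hb, hb, hy]
  refine ⟨𝓕, inferInstance, inferInstance, b, h0, hker, ?_⟩
  intro v hv
  exact exists_limit_abs hh hfrac hker v hv

end Gen

/-- the polynomial whose value is `fq α` -/
noncomputable def fqPK {κ : Type} [Field κ] (α : κ) : MvPolynomial (Fin 2) κ :=
  C α ^ 2 + X 0 * C α + X 1

/-- the polynomial whose value is `dq` -/
noncomputable def dqPK (κ : Type) [Field κ] : MvPolynomial (Fin 2) κ := X 0 ^ 2 - 4 * X 1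

lemma aeval_fqPK {κ 𝓕 : Type} [Field κ] [Field 𝓕] [Algebra κ 𝓕] (α : κ) (b : Fin 2 → 𝓕) :
    aeval b (fqPK α) = fq α b := by
  rw [fqPK, fq]
  simp

lemma aeval_dqPK {κ 𝓕 : Type} [Field κ] [Field 𝓕] [Algebra κ 𝓕] (b : Fin 2 → 𝓕) :
    aeval b (dqPK κ) = dq b := by
  rw [dqPK, dq]
  simp

lemma dqPK_degree (κ : Type) [Field κ] : (dqPK κ).totalDegree ≤ 2 := by
  rw [dqPK]
  refine (totalDegree_sub _ _).trans (max_le ?_ ?_)
  · refine (totalDegree_pow _ _).trans ?_
    rw [totalDegree_X]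
  · have h4 : (4 : MvPolynomial (Fin 2) κ) = C 4 := (map_ofNat C 4).symm
    rw [h4]
    refine (totalDegree_mul _ _).trans ?_
    rw [totalDegree_C, totalDegree_X]
    norm_num

lemma dqPK_map {κ : Type} [Field κ] (γ : κ →+* κ) : map γ (dqPK κ) = dqPK κ := by
  rw [dqPK]
  simp

section K

variable {k : Type} [Field k] [NumberField k] {T : Type} [Fintype T] [DecidableEq T] {p : T → ℕ}
  [∀ t, Fact (p t).Prime]

lemma log_bsqK_le (e : ExtK k p) {U : Ultrafilter ℕ} {h : ℕ → ℝ}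
    {f : ℕ → Fin 3 → 𝓞 k} (hs : SeqK p U h f) (l : PlK k p) :
    ∃ u : ℕ → ℝ, Tendsto (fun n => u n / h n) U (𝓝 0) ∧
      ∀ n i, Real.log (VK e l (bsqK (f n) i)) ≤ u n := by
  have hf : ∀ n (i : Fin 2), ∃ j : Fin 3, bsqK (f n) i =
      algebraMap k (AlgebraicClosure k) ((f n j : k) / (f n 0 : k)) := by
    intro n i
    fin_cases i
    · exact ⟨1, rfl⟩
    · exact ⟨2, rfl⟩
  have hpos : ∀ᶠ n in (U : Filter ℕ), h n ≠ 0 :=
    (hs.tend.eventually_gt_atTop 0).mono fun n hn => hn.ne'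
  rcases l with ρ | ⟨t, ρ⟩
  · refine ⟨fun n => h n - Real.log ‖ρ (f n 0)‖, ?_, ?_⟩
    · have h1 : Tendsto (fun n => 1 - Real.log ‖ρ (f n 0)‖ / h n) U (𝓝 (1 - 1)) :=
        tendsto_const_nhds.sub (hs.lim0 ρ)
      rw [sub_self] at h1
      refine h1.congr' ?_
      filter_upwards [hpos] with n hn
      rw [sub_div, div_self hn]
    · intro n i
      obtain ⟨j, hj⟩ := hf n i
      have h0 : 0 < ‖ρ (f n 0)‖ := norm_pos_iff.mpr ((map_ne_zero ρ).mpr (kaux_coe_ne (hs.ne n)))
      have h1 : Real.log ‖ρ (f n 0)‖ ≤ h n := by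
        rw [← Real.log_exp (h n)]
        exact Real.log_le_log h0 (hs.le n 0 ρ)
      rw [hj, VK_algebraMap]
      change Real.log ‖ρ _‖ ≤ _
      rw [map_div₀, norm_div]
      rcases eq_or_ne (f n j) 0 with hz | hz
      · rw [hz]
        simp only [map_zero, norm_zero, zero_div, Real.log_zero]
        linarith
      · have h2 : 0 < ‖ρ (f n j)‖ := norm_pos_iff.mpr ((map_ne_zero ρ).mpr (kaux_coe_ne hz))
        have h3 : Real.log ‖ρ (f n j)‖ ≤ h n := by
          rw [← Real.log_exp (h n)]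
          exact Real.log_le_log h2 (hs.le n j ρ)
        rw [Real.log_div h2.ne' h0.ne']
        linarith
  · refine ⟨fun n => -Real.log ‖ρ (f n 0)‖, ?_, ?_⟩
    · have h1 := (hs.limt t ρ).neg
      rw [neg_zero] at h1
      refine h1.congr fun n => ?_
      rw [neg_div]
    · intro n i
      obtain ⟨j, hj⟩ := hf n i
      have h0 : 0 < ‖ρ (f n 0)‖ := norm_pos_iff.mpr ((map_ne_zero ρ).mpr (kaux_coe_ne (hs.ne n)))
      have h1 : Real.log ‖ρ (f n 0)‖ ≤ 0 :=
        Real.log_nonpos h0.le (kaux_integer_le_one (p t) ρ _)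
      rw [hj, VK_algebraMap]
      change Real.log ‖ρ _‖ ≤ _
      rw [map_div₀, norm_div]
      rcases eq_or_ne (f n j) 0 with hz | hz
      · rw [hz]
        simp only [map_zero, norm_zero, zero_div, Real.log_zero]
        linarith
      · have h2 : 0 < ‖ρ (f n j)‖ := norm_pos_iff.mpr ((map_ne_zero ρ).mpr (kaux_coe_ne hz))
        rw [Real.log_div h2.ne' h0.ne']
        have h3 : Real.log ‖ρ (f n j)‖ ≤ 0 :=
          Real.log_nonpos h2.le (kaux_integer_le_one (p t) ρ _)
        linarith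

/-- the forms of a non-constant sequence have no common root -/
lemma no_common_rootK {U : Ultrafilter ℕ} {f : ℕ → Fin 3 → 𝓞 k} (h0 : ∀ n, f n 0 ≠ 0)
    (hirr : ∀ n, ¬ IsSquare ((discK (f n) : 𝓞 k) : k))
    (hconst : ¬ ∀ i, ∃ c : AlgebraicClosure k, ∀ᶠ n in (U : Filter ℕ), bsqK (f n) i = c)
    (α : AlgebraicClosure k) :
    ¬ ∀ᶠ n in (U : Filter ℕ), fq α (bsqK (f n)) = 0 := by
  intro hz
  apply hconst
  have hval : ∀ n, fq α (bsqK (f n)) = α ^ 2 + bsqK (f n) 0 * α + bsqK (f n) 1 := fun n => rfl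
  have hrat : ∀ n (i : Fin 2), ∃ r : k, bsqK (f n) i = algebraMap k (AlgebraicClosure k) r := by
    intro n i
    fin_cases i
    · exact ⟨_, rfl⟩
    · exact ⟨_, rfl⟩
  by_cases hα : ∃ r : k, algebraMap k (AlgebraicClosure k) r = α
  · exfalso
    obtain ⟨r, hr⟩ := hα
    obtain ⟨n, hn⟩ := hz.exists
    refine kaux_no_root (hirr n) r ?_
    have h1 := kaux_alg_ne (h0 n)
    rw [kaux_bsq_val (f n) (h0 n), div_eq_zero_iff, or_iff_left h1] at hn
    have h2 : algebraMap k (AlgebraicClosure k)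
        ((f n 0 : k) * r ^ 2 + (f n 1 : k) * r + (f n 2 : k)) = 0 := by
      rw [← hn]
      change _ = algebraMap k (AlgebraicClosure k) (f n 0 : k) * α ^ 2 +
        algebraMap k (AlgebraicClosure k) (f n 1 : k) * α +
        algebraMap k (AlgebraicClosure k) (f n 2 : k)
      rw [← hr]
      simp
    exact (map_eq_zero (algebraMap k (AlgebraicClosure k))).mp h2
  · obtain ⟨m, hm⟩ := hz.exists
    have hkey : ∀ᶠ n in (U : Filter ℕ), bsqK (f n) 0 = bsqK (f m) 0 ∧
        bsqK (f n) 1 = bsqK (f m) 1 := by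
      filter_upwards [hz] with n hn
      rw [hval] at hn hm
      obtain ⟨r₀, hr₀⟩ := hrat n 0
      obtain ⟨r₁, hr₁⟩ := hrat n 1
      obtain ⟨s₀, hs₀⟩ := hrat m 0
      obtain ⟨s₁, hs₁⟩ := hrat m 1
      rw [hr₀, hr₁] at hn ⊢
      rw [hs₀, hs₁] at hm ⊢
      have h1 : r₀ = s₀ := by
        by_contra hne
        apply hα
        refine ⟨(s₁ - r₁) / (r₀ - s₀), ?_⟩
        have h2 : (algebraMap k (AlgebraicClosure k) (r₀ - s₀)) ≠ 0 := by
          rw [Ne, map_eq_zero]
          exact sub_ne_zero.mpr hne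
        rw [map_div₀, div_eq_iff h2, map_sub, map_sub]
        linear_combination hm - hn
      subst h1
      exact ⟨rfl, by linear_combination hn - hm⟩
    intro i
    fin_cases i
    · exact ⟨bsqK (f m) 0, hkey.mono fun n hn => hn.1⟩
    · exact ⟨bsqK (f m) 1, hkey.mono fun n hn => hn.2⟩

lemma kaux_padic_inv_le (p : ℕ) [Fact p.Prime] (n : ℤ) (hn : n ≠ 0) :
    |(n : ℝ)|⁻¹ ≤ ‖(n : ℂ_[p])‖ := by
  have h1 := sk_prod_ge (T := Unit) (fun _ => p) (fun a b _ => Subsingleton.elim a b) n hn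
  rw [Fintype.prod_unique] at h1
  rw [norm_intCast_padic]
  have h0 : 0 < |(n : ℝ)| := abs_pos.mpr (by exact_mod_cast hn)
  rw [inv_le_iff_one_le_mul₀' h0]
  exact h1

/-- the limits of the absolute values and of their conjugates -/
theorem exists_limitsK (e : ExtK k p) {U : Ultrafilter ℕ} {h : ℕ → ℝ} {f : ℕ → Fin 3 → 𝓞 k}
    (hs : SeqK p U h f) {𝓕 : Type} [Field 𝓕] [Algebra (AlgebraicClosure k) 𝓕] {b : Fin 2 → 𝓕}
    (hker : ∀ P : MvPolynomial (Fin 2) (AlgebraicClosure k), aeval b P = 0 ↔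
      ∀ᶠ n in (U : Filter ℕ), aeval (bsqK (f n)) P = 0)
    (hv : ∀ v : AbsoluteValue (AlgebraicClosure k) ℝ,
        (∀ P : MvPolynomial (Fin 2) (AlgebraicClosure k),
          (∀ᶠ n in (U : Filter ℕ), aeval (bsqK (f n)) P ≠ 0) →
          ∃ C : ℝ, ∀ᶠ n in (U : Filter ℕ), |Real.log (v (aeval (bsqK (f n)) P))| ≤ C * h n) →
        ∃ w : AbsoluteValue 𝓕 ℝ, (∀ x y : 𝓕, w (x + y) ≤ max (w x) (w y)) ∧
          (∀ c : AlgebraicClosure k, c ≠ 0 → w (algebraMap _ 𝓕 c) = 1) ∧
          LimRel U h (fun n => bsqK (f n)) b v w) :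
    ∃ w' : PlK k p → (AlgebraicClosure k ≃ₐ[k] AlgebraicClosure k) → AbsoluteValue 𝓕 ℝ,
      (∀ l γ, CPlace (AlgebraicClosure k) b (w' l γ)) ∧
      (∀ l (γ : AlgebraicClosure k ≃ₐ[k] AlgebraicClosure k),
        LimRel U h (fun n => bsqK (f n)) b
          ((VK e l).comp (f := (γ : AlgebraicClosure k →+* AlgebraicClosure k)) γ.injective)
          (w' l γ)) ∧
      (∀ l, LimRel U h (fun n => bsqK (f n)) b (VK e l) (w' l AlgEquiv.refl)) ∧
      ∀ l (γ : AlgebraicClosure k ≃ₐ[k] AlgebraicClosure k) P, w' l γ (aeval b P) =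
        w' l AlgEquiv.refl (aeval b (map (γ : AlgebraicClosure k →+* AlgebraicClosure k) P)) := by
  have hpos : ∀ᶠ n in (U : Filter ℕ), 0 < h n := hs.tend.eventually_gt_atTop 0
  have htw : ∀ l (γ : AlgebraicClosure k ≃ₐ[k] AlgebraicClosure k), ∃ w : AbsoluteValue 𝓕 ℝ,
      (∀ x y : 𝓕, w (x + y) ≤ max (w x) (w y)) ∧
      (∀ c : AlgebraicClosure k, c ≠ 0 → w (algebraMap _ 𝓕 c) = 1) ∧
      LimRel U h (fun n => bsqK (f n)) b
        ((VK e l).comp (f := (γ : AlgebraicClosure k →+* AlgebraicClosure k)) γ.injective) w := by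
    intro l γ
    apply hv
    intro P hP
    rcases l with ρ | ⟨t, ρ⟩
    · exact tameK hs (A := ℂ) (fun n => by rw [Complex.norm_intCast])
        (fun n hn => by
          rw [Complex.norm_intCast]
          have h1 : (1 : ℝ) ≤ |(n : ℝ)| := by exact_mod_cast Int.one_le_abs hn
          exact (inv_le_one_of_one_le₀ h1).trans h1)
        ((e.E ρ).comp (γ : AlgebraicClosure k →+* AlgebraicClosure k)) P hP
    · exact tameK hs (A := ℂ_[p t]) (fun n => norm_intCast_padic_le (p t) n)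
        (fun n hn => kaux_padic_inv_le (p t) n hn)
        ((e.E' t ρ).comp (γ : AlgebraicClosure k →+* AlgebraicClosure k)) P hP
  choose w' hna htr hlim' using htw
  have hlim : ∀ l, LimRel U h (fun n => bsqK (f n)) b (VK e l) (w' l AlgEquiv.refl) :=
    fun l P hP => hlim' l AlgEquiv.refl P hP
  have hle : ∀ l γ i, w' l γ (b i) ≤ 1 := by
    intro l γ i
    by_cases hbi : b i = 0
    · rw [hbi, map_zero]
      exact zero_le_one
    obtain ⟨u, hu0, hu⟩ := log_bsqK_le e hs l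
    have h1 := hlim' l γ (X i) (by rw [aeval_X]; exact hbi)
    rw [aeval_X] at h1
    have h2 : Real.log (w' l γ (b i)) ≤ 0 := by
      refine le_of_tendsto_of_tendsto h1 hu0 ?_
      filter_upwards [hpos] with n hn
      refine div_le_div_of_nonneg_right ?_ hn.le
      change Real.log (VK e l (γ (aeval (bsqK (f n)) (X i)))) ≤ u n
      rw [aeval_X, kaux_map_bsqK]
      exact hu n i
    by_contra hcon
    push Not at hcon
    exact absurd (Real.log_pos hcon) (not_lt.mpr h2)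
  refine ⟨w', fun l γ => ⟨hna l γ, htr l γ, hle l γ⟩, hlim', hlim, ?_⟩
  intro l γ P
  by_cases hP : aeval b P = 0
  · have h1 : aeval b (map (γ : AlgebraicClosure k →+* AlgebraicClosure k) P) = 0 := by
      rw [hker] at hP ⊢
      filter_upwards [hP] with n hn
      rw [← kaux_map_aeval, hn, map_zero]
    rw [hP, h1, map_zero, map_zero]
  · have h1 : aeval b (map (γ : AlgebraicClosure k →+* AlgebraicClosure k) P) ≠ 0 := by
      intro h1
      apply hP
      rw [hker] at h1 ⊢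
      filter_upwards [h1] with n hn
      rw [← kaux_map_aeval] at hn
      exact (map_eq_zero γ).mp hn
    have h2 := hlim' l γ P hP
    have h3 := hlim l _ h1
    have h4 : Real.log (w' l γ (aeval b P)) =
        Real.log (w' l AlgEquiv.refl
          (aeval b (map (γ : AlgebraicClosure k →+* AlgebraicClosure k) P))) := by
      refine tendsto_nhds_unique h2 (h3.congr fun n => ?_)
      rw [← kaux_map_aeval]
      rfl
    exact Real.log_injOn_pos ((w' l γ).pos hP) ((w' l AlgEquiv.refl).pos h1) h4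

/-- the limit of the left hand side -/
lemma tendsto_sumK (e : ExtK k p) {U : Ultrafilter ℕ} {h : ℕ → ℝ} {f : ℕ → Fin 3 → 𝓞 k}
    {𝓕 : Type} [Field 𝓕] [Algebra (AlgebraicClosure k) 𝓕] {b : Fin 2 → 𝓕}
    (w : PlK k p → AbsoluteValue 𝓕 ℝ)
    (hlim : ∀ l, LimRel U h (fun n => bsqK (f n)) b (VK e l) (w l))
    (D : Finset (AlgebraicClosure k)) (htan : ∀ α ∈ D, fq α b ≠ 0) (hdq : dq b ≠ 0) (c : ℝ) :
    Tendsto (fun n => (∑ l, (∑ α ∈ D, -Real.log (VK e l (fq α (bsqK (f n)))) -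
        c * Real.log (VK e l (dq (bsqK (f n)))))) / h n) U
        (𝓝 (∑ l, (∑ α ∈ D, -Real.log (w l (fq α b)) - c * Real.log (w l (dq b))))) := by
  have h1 : ∀ l, ∀ α ∈ D, Tendsto (fun n => Real.log (VK e l (fq α (bsqK (f n)))) / h n) U
      (𝓝 (Real.log (w l (fq α b)))) := by
    intro l α hα
    have := hlim l (fqPK α) (by rw [aeval_fqPK]; exact htan α hα)
    simpa only [aeval_fqPK] using this
  have h2 : ∀ l, Tendsto (fun n => Real.log (VK e l (dq (bsqK (f n)))) / h n) U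
      (𝓝 (Real.log (w l (dq b)))) := by
    intro l
    have := hlim l (dqPK _) (by rw [aeval_dqPK]; exact hdq)
    simpa only [aeval_dqPK] using this
  have h3 : Tendsto (fun n => ∑ l, (∑ α ∈ D, -(Real.log (VK e l (fq α (bsqK (f n)))) / h n) -
      c * (Real.log (VK e l (dq (bsqK (f n)))) / h n))) U
      (𝓝 (∑ l, (∑ α ∈ D, -Real.log (w l (fq α b)) - c * Real.log (w l (dq b))))) :=
    tendsto_finsetSum _ fun l _ => (tendsto_finsetSum _ fun α hα => (h1 l α hα).neg).sub
      ((h2 l).const_mul c)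
  refine h3.congr fun n => ?_
  rw [Finset.sum_div]
  refine Finset.sum_congr rfl fun l _ => ?_
  rw [sub_div, Finset.sum_div]
  congr 1
  · exact Finset.sum_congr rfl fun α _ => by rw [neg_div]
  · ring

lemma finrank_posK : (0 : ℝ) < (finrank ℚ k : ℝ) := by
  exact_mod_cast Module.finrank_pos

/-- generic sequences: half of the discriminant -/
theorem lim_genK (e : ExtK k p) (hp : Function.Injective p) {U : Ultrafilter ℕ} {h : ℕ → ℝ}
    {f : ℕ → Fin 3 → 𝓞 k} (hs : SeqK p U h f)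
    (hgen : ∀ P : MvPolynomial (Fin 2) (AlgebraicClosure k), P ≠ 0 →
      ∀ᶠ n in (U : Filter ℕ), aeval (bsqK (f n)) P ≠ 0)
    (D : Finset (AlgebraicClosure k)) (ε : ℝ) (hε : 0 < ε) :
    (∀ᶠ n in (U : Filter ℕ),
      ∑ l, (∑ α ∈ D, -Real.log (VK e l (fq α (bsqK (f n)))) -
        1 / 2 * Real.log (VK e l (dq (bsqK (f n))))) ≤ (3 * finrank ℚ k + ε) * h n) ∧
    ∀ᶠ n in (U : Filter ℕ),
      ∑ l, (∑ α ∈ D, -Real.log (VK e l (fq α (bsqK (f n)))) -
        1 * Real.log (VK e l (dq (bsqK (f n))))) ≤ (4 * finrank ℚ k + ε) * h n := by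
  have hpos : ∀ᶠ n in (U : Filter ℕ), 0 < h n := hs.tend.eventually_gt_atTop 0
  obtain ⟨𝓕, _, _, b, hb, hker, hv⟩ := exists_system_gen U h hs.tend (fun n => bsqK (f n)) hgen
  obtain ⟨w', hCP, hlim', hlim, hww⟩ := exists_limitsK e hs hker hv
  have htan : ∀ α : AlgebraicClosure k, fq α b ≠ 0 := by
    intro α h0
    rw [← aeval_fqPK] at h0
    have h1 := congrArg (eval (![0, 1 - α ^ 2] : Fin 2 → AlgebraicClosure k)) (hb _ h0)
    rw [fqPK] at h1
    simp at h1
  have hdq : dq b ≠ 0 := by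
    intro h0
    rw [← aeval_dqPK (κ := AlgebraicClosure k)] at h0
    have h1 := congrArg (eval (![1, 0] : Fin 2 → AlgebraicClosure k)) (hb _ h0)
    rw [dqPK] at h1
    simp at h1
  have hmain := t1_limit hb (fun l => w' l AlgEquiv.refl) (fun l => hCP l _) (finrank ℚ k)
    finrank_posK (fun N A hAN hA => sub_limK e hp hs hker _ hlim N A hAN hA) D
  have hconj : ∀ l (γ : AlgebraicClosure k ≃ₐ[k] AlgebraicClosure k),
      w' l γ (dq b) = w' l AlgEquiv.refl (dq b) := by
    intro l γ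
    rw [← aeval_dqPK (κ := AlgebraicClosure k), hww, dqPK_map]
  obtain ⟨m, s, hm, hliou⟩ := liou_limK e hp hs hker w' hlim' 2 (dqPK _) (dqPK_degree _)
    (by rw [aeval_dqPK]; exact hdq)
  have hdisc : ∑ l, -Real.log (w' l AlgEquiv.refl (dq b)) ≤ 2 * finrank ℚ k := by
    simp only [aeval_dqPK, hconj, Finset.sum_const, Finset.card_univ, Fintype.card_fin,
      nsmul_eq_mul] at hliou
    rw [← Finset.mul_sum] at hliou
    have hm' : (0 : ℝ) < m := by exact_mod_cast hm
    have := le_of_mul_le_mul_left hliou hm'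
    push_cast at this
    linarith
  constructor
  · have ht := tendsto_sumK e (fun l => w' l AlgEquiv.refl) hlim D (fun α _ => htan α) hdq (1 / 2)
    have h1 := ht.eventually_lt_const (lt_of_le_of_lt hmain
      (by linarith : (3 * finrank ℚ k : ℝ) < 3 * finrank ℚ k + ε))
    filter_upwards [h1, hpos] with n hn hn0
    rw [div_lt_iff₀ hn0] at hn
    exact hn.le
  · have ht := tendsto_sumK e (fun l => w' l AlgEquiv.refl) hlim D (fun α _ => htan α) hdq 1
    have hmain2 : ∑ l, (∑ α ∈ D, -Real.log (w' l AlgEquiv.refl (fq α b)) -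
        1 * Real.log (w' l AlgEquiv.refl (dq b))) ≤ 4 * finrank ℚ k := by
      rw [Finset.sum_sub_distrib] at hmain ⊢
      rw [← Finset.mul_sum] at hmain ⊢
      rw [Finset.sum_neg_distrib] at hdisc
      linarith
    have h1 := ht.eventually_lt_const (lt_of_le_of_lt hmain2
      (by linarith : (4 * finrank ℚ k : ℝ) < 4 * finrank ℚ k + ε))
    filter_upwards [h1, hpos] with n hn hn0
    rw [div_lt_iff₀ hn0] at hn
    exact hn.le

theorem lim_allK (e : ExtK k p) (hp : Function.Injective p) {U : Ultrafilter ℕ} {h : ℕ → ℝ}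
    {f : ℕ → Fin 3 → 𝓞 k} (hs : SeqK p U h f)
    (hirr : ∀ n, ¬ IsSquare ((discK (f n) : 𝓞 k) : k))
    (D : Finset (AlgebraicClosure k))
    (hD : ∀ γ : AlgebraicClosure k ≃ₐ[k] AlgebraicClosure k, ∀ α ∈ D, γ α ∈ D)
    (ε : ℝ) (hε : 0 < ε) :
    ∀ᶠ n in (U : Filter ℕ),
      ∑ l, (∑ α ∈ D, -Real.log (VK e l (fq α (bsqK (f n)))) -
        1 * Real.log (VK e l (dq (bsqK (f n))))) ≤ (4 * finrank ℚ k + ε) * h n := by
  classical
  have hd := finrank_posK (k := k)
  have hpos : ∀ᶠ n in (U : Filter ℕ), 0 < h n := hs.tend.eventually_gt_atTop 0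
  by_cases hrel : ∃ P : MvPolynomial (Fin 2) (AlgebraicClosure k), P ≠ 0 ∧
      ∀ᶠ n in (U : Filter ℕ), aeval (bsqK (f n)) P = 0
  · -- the points lie on a curve
    by_cases hconst : ∀ i, ∃ c : AlgebraicClosure k, ∀ᶠ n in (U : Filter ℕ), bsqK (f n) i = c
    · choose c hc using hconst
      have h1 : ∀ᶠ n in (U : Filter ℕ), bsqK (f n) = c := by
        filter_upwards [hc 0, hc 1] with n h0 h1
        funext i
        fin_cases i
        · exact h0
        · exact h1
      have h2 := hs.tend.eventually_ge_atTop ((∑ l, (∑ α ∈ D, -Real.log (VK e l (fq α c)) -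
        1 * Real.log (VK e l (dq c)))) / (4 * finrank ℚ k + ε))
      filter_upwards [h1, h2] with n hn1 hn2
      rw [div_le_iff₀ (by linarith)] at hn2
      rw [hn1]
      linarith
    obtain ⟨𝓕, _, _, b, g, hC, hker, hv⟩ := exists_system U h hs.tend (fun n => bsqK (f n))
      hrel hconst
    obtain ⟨w', hCP, hlim', hlim, hww⟩ := exists_limitsK e hs hker hv
    have htan : ∀ α : AlgebraicClosure k, fq α b ≠ 0 := by
      intro α h0
      rw [← aeval_fqPK, hker] at h0
      refine no_common_rootK hs.ne hirr hconst α ?_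
      filter_upwards [h0] with n hn
      rw [← hn, aeval_fqPK]
    have hdq : dq b ≠ 0 := by
      intro h0
      rw [← aeval_dqPK (κ := AlgebraicClosure k), hker] at h0
      obtain ⟨n, hn⟩ := h0.exists
      rw [aeval_dqPK, kaux_bsq_disc (f n) (hs.ne n), div_eq_zero_iff] at hn
      rcases hn with hn | hn
      · exact kaux_alg_ne (kaux_disc_ne (hirr n)) hn
      · exact kaux_alg_ne (hs.ne n) (pow_eq_zero_iff (two_ne_zero) |>.mp hn)
    have hmain := t2_limit hC htan hdq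
      (σ := fun γ : AlgebraicClosure k ≃ₐ[k] AlgebraicClosure k => γ.toRingEquiv)
      (fun l => w' l AlgEquiv.refl) w' (fun l => hCP l _) hCP hww (finrank ℚ k)
      hd (fun N A hAN hA => sub_limK e hp hs hker _ hlim N A hAN hA)
      (fun N P hPN hP => liou_limK e hp hs hker w' hlim' N P hPN hP) D hD
    have ht := tendsto_sumK e (fun l => w' l AlgEquiv.refl) hlim D (fun α _ => htan α) hdq 1
    have hmain2 : ∑ l, (∑ α ∈ D, -Real.log (w' l AlgEquiv.refl (fq α b)) -
        1 * Real.log (w' l AlgEquiv.refl (dq b))) ≤ 4 * finrank ℚ k := by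
      simpa only [one_mul] using hmain
    have h1 := ht.eventually_lt_const (lt_of_le_of_lt hmain2
      (by linarith : (4 * finrank ℚ k : ℝ) < 4 * finrank ℚ k + ε))
    filter_upwards [h1, hpos] with n hn hn0
    rw [div_lt_iff₀ hn0] at hn
    exact hn.le
  · -- generic sequence
    push Not at hrel
    exact (lim_genK e hp hs (fun P hP => hrel P hP) D ε hε).2

end K

end Pool.Agent.SST
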