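import Pool.Agent.SST.RootsK
import Pool.Agent.SST.KAux
import Mathlib.FieldTheory.Separable
import Mathlib.FieldTheory.IsAlgClosed.AlgebraicClosure

/-! Local sums over the embeddings of a quadratic extension. -/

open Filter Module NumberField

namespace Pool.Agent.SST

variable {k : Type} [Field k] [NumberField k]

/-- the zeros of `g` and possibly the point at infinity -/
noncomputable def zeroSet (g : Polynomial k) (n : ℕ) : Finset (OnePoint (AlgebraicClosure k)) := by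
  classical
  exact ((g.aroots (AlgebraicClosure k)).toFinset.image OnePoint.some) ∪
    (if n = g.natDegree then ∅ else {OnePoint.infty})

section

variable {A : Type} [NormedField A]

lemma localK_root_bound (M : ℝ) (a b c ξ : A) (ha : ‖a‖ ≤ M) (hb : ‖b‖ ≤ M) (hc : ‖c‖ ≤ M)
    (h : a * ξ ^ 2 + b * ξ + c = 0) : ‖a‖ * ‖ξ‖ ≤ 2 * M := by
  have h0 : 0 ≤ M := (norm_nonneg a).trans ha
  rcases le_or_gt ‖ξ‖ 1 with h1 | h1
  · nlinarith [norm_nonneg a, norm_nonneg ξ]
  · have h2 : a * ξ ^ 2 = -(b * ξ + c) := by linear_combination h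
    have h3 := congrArg norm h2
    rw [norm_neg, norm_mul, norm_pow] at h3
    have h4 := norm_add_le (b * ξ) c
    rw [norm_mul] at h4
    have h5 : ‖a‖ * ‖ξ‖ ^ 2 ≤ M * ‖ξ‖ + M := by
      rw [h3]
      refine h4.trans ?_
      gcongr
    have h7 : (‖a‖ * ‖ξ‖) * ‖ξ‖ ≤ (2 * M) * ‖ξ‖ := by nlinarith
    exact le_of_mul_le_mul_right h7 (by linarith)

lemma localK_mahler (M : ℝ) (a b c ξ₁ ξ₂ : A) (ha : ‖a‖ ≤ M) (hb : ‖b‖ ≤ M) (hc : ‖c‖ ≤ M)
    (h : ∀ z : A, a * z ^ 2 + b * z + c = a * (z - ξ₁) * (z - ξ₂)) :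
    ‖a‖ * max 1 ‖ξ₁‖ * max 1 ‖ξ₂‖ ≤ 6 * M := by
  have h0 : 0 ≤ M := (norm_nonneg a).trans ha
  have h1 := localK_root_bound M a b c ξ₁ ha hb hc (by rw [h]; ring)
  have h2 := localK_root_bound M a b c ξ₂ ha hb hc (by rw [h]; ring)
  have h3 : ‖a‖ * (‖ξ₁‖ * ‖ξ₂‖) = ‖c‖ := by
    have h4 := congrArg norm (h 0)
    simp only [ne_eq, OfNat.ofNat_ne_zero, not_false_eq_true, zero_pow, mul_zero, zero_add,
      zero_sub, norm_mul, norm_neg] at h4
    rw [h4]
    ring
  have h5 : max 1 ‖ξ₁‖ ≤ 1 + ‖ξ₁‖ := max_le (by linarith [norm_nonneg ξ₁]) (by linarith)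
  have h6 : max 1 ‖ξ₂‖ ≤ 1 + ‖ξ₂‖ := max_le (by linarith [norm_nonneg ξ₂]) (by linarith)
  calc ‖a‖ * max 1 ‖ξ₁‖ * max 1 ‖ξ₂‖ ≤ ‖a‖ * (1 + ‖ξ₁‖) * (1 + ‖ξ₂‖) := by
        gcongr
    _ = ‖a‖ + ‖a‖ * ‖ξ₁‖ + ‖a‖ * ‖ξ₂‖ + ‖a‖ * (‖ξ₁‖ * ‖ξ₂‖) := by ring
    _ ≤ 6 * M := by rw [h3]; linarith

end

/-- a common root of the equation of `x` and of `g` would give a zero of `g` at `x` -/
lemma localK_no_common (g : Polynomial k) (K : Type) [Field K] [NumberField K] [Algebra k K]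
    (hK : finrank k K = 2) (x : K) (hx : x ∉ Set.range (algebraMap k K))
    (hgx : Polynomial.aeval x g ≠ 0) (f : Fin 3 → 𝓞 k) (h00 : f 0 ≠ 0)
    (hf : algebraMap k K (f 0) * x ^ 2 + algebraMap k K (f 1) * x + algebraMap k K (f 2) = 0)
    (γ : AlgebraicClosure k) (hγ : Polynomial.aeval γ g = 0)
    (hev : evk f (γ : OnePoint (AlgebraicClosure k)) = 0) : False := by
  have h00' : (f 0 : k) ≠ 0 := kaux_coe_ne h00
  have : FiniteDimensional k K := Module.finite_of_finrank_pos (by rw [hK]; norm_num)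
  have hint : IsIntegral k x := Algebra.IsIntegral.isIntegral x
  set P : Polynomial k := Polynomial.C (f 0 : k) * Polynomial.X ^ 2 +
    Polynomial.C (f 1 : k) * Polynomial.X + Polynomial.C (f 2 : k) with hP
  have hPx : Polynomial.aeval x P = 0 := by
    rw [hP]
    simpa using hf
  have hPγ : Polynomial.aeval γ P = 0 := by
    rw [hP]
    have hev' : algebraMap k (AlgebraicClosure k) (f 0 : k) * γ ^ 2 +
        algebraMap k (AlgebraicClosure k) (f 1 : k) * γ +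
        algebraMap k (AlgebraicClosure k) (f 2 : k) = 0 := hev
    rw [map_add, map_add, map_mul, map_mul, map_pow, Polynomial.aeval_C, Polynomial.aeval_C,
      Polynomial.aeval_C, Polynomial.aeval_X]
    exact hev'
  have hPdeg : P.natDegree = 2 := Polynomial.natDegree_quadratic h00'
  have hP0 : P ≠ 0 := by
    intro h0
    rw [h0] at hPdeg
    simp at hPdeg
  have hdvd : minpoly k x ∣ P := minpoly.dvd k x hPx
  have hmdeg : 2 ≤ (minpoly k x).natDegree := by
    by_contra hlt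
    push Not at hlt
    have h1 : (minpoly k x).natDegree = 1 := by
      have := minpoly.natDegree_pos hint
      omega
    apply hx
    have h2 := (minpoly.natDegree_eq_one_iff (A := k) (x := x)).mp h1
    exact h2
  obtain ⟨Q, hQ⟩ := hdvd
  have hm0 : minpoly k x ≠ 0 := minpoly.ne_zero hint
  have hQ0 : Q ≠ 0 := by
    rintro rfl
    exact hP0 (by rw [hQ, mul_zero])
  have hQdeg : Q.natDegree = 0 := by
    have h1 := Polynomial.natDegree_mul hm0 hQ0
    rw [← hQ, hPdeg] at h1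
    omega
  obtain ⟨c, hc⟩ := Polynomial.natDegree_eq_zero.mp hQdeg
  have hc0 : c ≠ 0 := by
    rintro rfl
    apply hQ0
    rw [← hc, Polynomial.C_0]
  have hmγ : Polynomial.aeval γ (minpoly k x) = 0 := by
    rw [hQ, ← hc, map_mul, Polynomial.aeval_C] at hPγ
    rcases mul_eq_zero.mp hPγ with h1 | h1
    · exact h1
    · exact absurd ((map_eq_zero _).mp h1) hc0
  have hirr : Irreducible (minpoly k x) := minpoly.irreducible hint
  have heq : minpoly k x = minpoly k γ :=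
    minpoly.eq_of_irreducible_of_monic hirr hmγ (minpoly.monic hint)
  have h1 : minpoly k x ∣ g := by
    rw [heq]
    exact minpoly.dvd k γ hγ
  obtain ⟨R, hR⟩ := h1
  apply hgx
  rw [hR, map_mul, minpoly.aeval, zero_mul]

theorem local_sumK {A : Type} [NormedField A] [CharZero A] [IsAlgClosed A]
    (E : (k →+* A) → (AlgebraicClosure k →+* A)) (hE : ∀ ρ x, E ρ (algebraMap k _ x) = ρ x)
    (g : Polynomial k) (hg : Squarefree g) (n : ℕ) (hn : n = g.natDegree ∨ n = g.natDegree + 1) :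
    ∃ C : ℝ, ∀ (K : Type) [Field K] [NumberField K] [Algebra k K], finrank k K = 2 → ∀ x : K,
      x ∉ Set.range (algebraMap k K) → Polynomial.aeval x g ≠ 0 → ∀ f : Fin 3 → 𝓞 k, f ≠ 0 →
      algebraMap k K (f 0) * x ^ 2 + algebraMap k K (f 1) * x + algebraMap k K (f 2) = 0 →
      f 0 ≠ 0 ∧ ¬ IsSquare ((discK f : 𝓞 k) : k) ∧ (∀ γ ∈ zeroSet g n, evk f γ ≠ 0) ∧
      ∑ σ : K →+* A, (n * Real.log (max 1 ‖σ x‖) - Real.log ‖σ (Polynomial.aeval x g)‖) ≤
        C + ∑ ρ : k →+* A, ∑ γ ∈ zeroSet g n,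
          (Real.log (nfA ρ f) - Real.log ‖E ρ (evk f γ)‖) := by
  classical
  have hg0 : g ≠ 0 := hg.ne_zero
  have hsep : g.Separable := (PerfectField.separable_iff_squarefree).mpr hg
  set R : Finset (AlgebraicClosure k) := (g.aroots (AlgebraicClosure k)).toFinset with hR
  have hnodup : (g.aroots (AlgebraicClosure k)).Nodup := Polynomial.nodup_aroots_iff_of_splits
    hg0 (IsAlgClosed.splits _) |>.mpr hsep
  have hsplit : (g.map (algebraMap k (AlgebraicClosure k))).Splits := IsAlgClosed.splits _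
  have hprodR : g.map (algebraMap k (AlgebraicClosure k)) =
      Polynomial.C (algebraMap k (AlgebraicClosure k) g.leadingCoeff) *
        ∏ γ ∈ R, (Polynomial.X - Polynomial.C γ) := by
    have h1 := hsplit.eq_prod_roots
    rw [Polynomial.leadingCoeff_map] at h1
    rw [h1]
    congr 1
    have h2 : R.val = g.aroots (AlgebraicClosure k) := by
      rw [hR, Multiset.toFinset_val]
      exact Multiset.dedup_eq_self.mpr hnodup
    rw [Finset.prod_eq_multiset_prod, h2]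
  have hcardR : R.card = g.natDegree := by
    have h1 := congrArg Polynomial.natDegree hprodR
    rw [Polynomial.natDegree_map, Polynomial.natDegree_C_mul (by
      rw [Ne, map_eq_zero]
      exact Polynomial.leadingCoeff_ne_zero.mpr hg0),
      Polynomial.natDegree_prod _ _ (fun γ _ => Polynomial.X_sub_C_ne_zero γ)] at h1
    simp only [Polynomial.natDegree_X_sub_C, Finset.sum_const, smul_eq_mul, mul_one] at h1
    exact h1.symm
  have hval : ∀ (ρ : k →+* A) (z : A), Polynomial.eval₂ ρ z g =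
      ρ g.leadingCoeff * ∏ γ ∈ R, (z - E ρ γ) := by
    intro ρ z
    have h1 : Polynomial.eval₂ ρ z g =
        Polynomial.eval₂ (E ρ) z (g.map (algebraMap k (AlgebraicClosure k))) := by
      rw [Polynomial.eval₂_map]
      congr 1
      ext y
      exact (hE ρ y).symm
    rw [h1, hprodR, Polynomial.eval₂_mul, Polynomial.eval₂_C, hE, Polynomial.eval₂_finsetProd]
    congr 1
    refine Finset.prod_congr rfl fun γ _ => ?_
    rw [Polynomial.eval₂_sub, Polynomial.eval₂_X, Polynomial.eval₂_C]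
  have hlead : ∀ ρ : k →+* A, ρ g.leadingCoeff ≠ 0 := fun ρ =>
    (map_ne_zero ρ).mpr (Polynomial.leadingCoeff_ne_zero.mpr hg0)
  refine ⟨∑ ρ : k →+* A, (n * Real.log 6 - 2 * Real.log ‖ρ g.leadingCoeff‖), ?_⟩
  intro K _ _ _ hK x hx hgx f hf0 hf
  obtain ⟨h00, hnsq, ξ₁, ξ₂, hroots, hsum⟩ := exists_rootsK A K hK x hx f hf0 hf
  have hmemR : ∀ γ ∈ R, Polynomial.aeval γ g = 0 := by
    intro γ hγ
    rw [hR, Multiset.mem_toFinset, Polynomial.mem_aroots] at hγ
    exact hγ.2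
  have hevR : ∀ γ ∈ R, evk f (γ : OnePoint (AlgebraicClosure k)) ≠ 0 := fun γ hγ h0 =>
    localK_no_common g K hK x hx hgx f h00 hf γ (hmemR γ hγ) h0
  have hev : ∀ γ ∈ zeroSet g n, evk f γ ≠ 0 := by
    intro γ hγ
    rw [zeroSet, Finset.mem_union, Finset.mem_image] at hγ
    rcases hγ with ⟨δ, hδ, rfl⟩ | hγ
    · exact hevR δ hδ
    · split_ifs at hγ with h1
      · simp at hγ
      · rw [Finset.mem_singleton] at hγ
        rw [hγ]
        exact kaux_alg_ne h00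
  refine ⟨h00, hnsq, hev, ?_⟩
  have h1 : ∀ σ : K →+* A, σ (Polynomial.aeval x g) =
      Polynomial.eval₂ (σ.comp (algebraMap k K)) (σ x) g := by
    intro σ
    rw [Polynomial.aeval_def, Polynomial.hom_eval₂]
  simp only [h1]
  rw [hsum (fun ρ z => n * Real.log (max 1 ‖z‖) - Real.log ‖Polynomial.eval₂ ρ z g‖),
    ← Finset.sum_add_distrib]
  refine Finset.sum_le_sum fun ρ _ => ?_
  have hρ0 : ρ (f 0) ≠ 0 := (map_ne_zero ρ).mpr (kaux_coe_ne h00)
  have hEev : ∀ γ : AlgebraicClosure k, E ρ (evk f (γ : OnePoint (AlgebraicClosure k))) =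
      ρ (f 0) * (E ρ γ - ξ₁ ρ) * (E ρ γ - ξ₂ ρ) := by
    intro γ
    rw [← hroots ρ]
    change E ρ (algebraMap k _ (f 0 : k) * γ ^ 2 + algebraMap k _ (f 1 : k) * γ +
      algebraMap k _ (f 2 : k)) = _
    simp only [map_add, map_mul, map_pow, hE]
  have hEinf : E ρ (evk f OnePoint.infty) = ρ (f 0) := hE ρ _
  have hne : ∀ γ ∈ R, E ρ γ - ξ₁ ρ ≠ 0 ∧ E ρ γ - ξ₂ ρ ≠ 0 := by
    intro γ hγ
    have h2 : E ρ (evk f (γ : OnePoint (AlgebraicClosure k))) ≠ 0 :=
      (map_ne_zero (E ρ)).mpr (hevR γ hγ)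
    rw [hEev] at h2
    exact ⟨right_ne_zero_of_mul (left_ne_zero_of_mul h2), right_ne_zero_of_mul h2⟩
  have hlog : ∀ (ξ : A), (∀ γ ∈ R, E ρ γ - ξ ≠ 0) →
      Real.log ‖Polynomial.eval₂ ρ ξ g‖ = Real.log ‖ρ g.leadingCoeff‖ +
        ∑ γ ∈ R, Real.log ‖E ρ γ - ξ‖ := by
    intro ξ hξ
    have hξ' : ∀ γ ∈ R, ‖ξ - E ρ γ‖ ≠ 0 := by
      intro γ hγ
      rw [norm_sub_rev]
      exact norm_ne_zero_iff.mpr (hξ γ hγ)
    rw [hval, norm_mul, norm_prod, Real.log_mul (norm_ne_zero_iff.mpr (hlead ρ))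
      (Finset.prod_ne_zero_iff.mpr hξ'), Real.log_prod hξ']
    congr 1
    exact Finset.sum_congr rfl fun γ _ => by rw [norm_sub_rev]
  have hl1 := hlog (ξ₁ ρ) fun γ hγ => (hne γ hγ).1
  have hl2 := hlog (ξ₂ ρ) fun γ hγ => (hne γ hγ).2
  have hm : ∀ ξ : A, 0 < max 1 ‖ξ‖ := fun ξ => lt_of_lt_of_le one_pos (le_max_left _ _)
  have hM := localK_mahler (nfA ρ f) (ρ (f 0)) (ρ (f 1)) (ρ (f 2)) (ξ₁ ρ) (ξ₂ ρ)
    (le_max_left _ _) ((le_max_left _ _).trans (le_max_right _ _))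
    ((le_max_right _ _).trans (le_max_right _ _)) (hroots ρ)
  have hnf : 0 < nfA ρ f := (norm_pos_iff.mpr hρ0).trans_le (le_max_left _ _)
  have hMl : Real.log (max 1 ‖ξ₁ ρ‖) + Real.log (max 1 ‖ξ₂ ρ‖) ≤
      Real.log 6 + Real.log (nfA ρ f) - Real.log ‖ρ (f 0)‖ := by
    have h3 : 0 < ‖ρ (f 0)‖ := norm_pos_iff.mpr hρ0
    have h4 := hm (ξ₁ ρ)
    have h5 := hm (ξ₂ ρ)
    have h6 := Real.log_le_log (by positivity) hM
    rw [Real.log_mul (by positivity) h5.ne', Real.log_mul h3.ne' h4.ne',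
      Real.log_mul (by norm_num) hnf.ne'] at h6
    linarith
  have hsumR : ∑ γ ∈ R, (Real.log (nfA ρ f) -
      Real.log ‖E ρ (evk f (γ : OnePoint (AlgebraicClosure k)))‖) =
      g.natDegree * (Real.log (nfA ρ f) - Real.log ‖ρ (f 0)‖) -
      ∑ γ ∈ R, Real.log ‖E ρ γ - ξ₁ ρ‖ - ∑ γ ∈ R, Real.log ‖E ρ γ - ξ₂ ρ‖ := by
    have h2 : ∀ γ ∈ R, Real.log (nfA ρ f) -
        Real.log ‖E ρ (evk f (γ : OnePoint (AlgebraicClosure k)))‖ =
        (Real.log (nfA ρ f) - Real.log ‖ρ (f 0)‖) - Real.log ‖E ρ γ - ξ₁ ρ‖ -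
          Real.log ‖E ρ γ - ξ₂ ρ‖ := by
      intro γ hγ
      rw [hEev, norm_mul, norm_mul, Real.log_mul (mul_ne_zero (norm_ne_zero_iff.mpr hρ0)
        (norm_ne_zero_iff.mpr (hne γ hγ).1)) (norm_ne_zero_iff.mpr (hne γ hγ).2),
        Real.log_mul (norm_ne_zero_iff.mpr hρ0) (norm_ne_zero_iff.mpr (hne γ hγ).1)]
      ring
    rw [Finset.sum_congr rfl h2, Finset.sum_sub_distrib, Finset.sum_sub_distrib,
      Finset.sum_const, hcardR, nsmul_eq_mul]
  have hsumZ : ∑ γ ∈ zeroSet g n, (Real.log (nfA ρ f) - Real.log ‖E ρ (evk f γ)‖) =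
      ∑ γ ∈ R, (Real.log (nfA ρ f) -
        Real.log ‖E ρ (evk f (γ : OnePoint (AlgebraicClosure k)))‖) +
      (n - g.natDegree : ℝ) * (Real.log (nfA ρ f) - Real.log ‖ρ (f 0)‖) := by
    have hdisj : Disjoint (R.image (OnePoint.some : AlgebraicClosure k → _))
        (if n = g.natDegree then (∅ : Finset (OnePoint (AlgebraicClosure k)))
          else {OnePoint.infty}) := by
      split_ifs with h2
      · exact Finset.disjoint_empty_right _
      · rw [Finset.disjoint_singleton_right, Finset.mem_image]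
        rintro ⟨δ, -, hδ⟩
        exact OnePoint.coe_ne_infty δ hδ
    rw [zeroSet]
    rw [Finset.sum_union hdisj, Finset.sum_image (fun a _ b _ h => OnePoint.coe_injective h)]
    congr 1
    split_ifs with h2
    · rw [h2, Finset.sum_empty, sub_self, zero_mul]
    · rw [Finset.sum_singleton, hEinf]
      rcases hn with h3 | h3
      · exact absurd h3 h2
      · rw [h3]
        push_cast
        ring
  rw [hsumZ, hsumR, hl1, hl2]
  have hn0 : (0 : ℝ) ≤ n := Nat.cast_nonneg n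
  have h3 := mul_le_mul_of_nonneg_left hMl hn0
  linarith

end Pool.Agent.SST
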