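import Pool.Agent.SST.SpecDefs

/-! A linear form vanishing on the span of the first vectors, from the Pluecker vector. -/

namespace Pool.Agent.SST

open Pool.Agent.DD7719.M

lemma exists_sign_emb {N q : ℕ} (f₀ : Fin q ↪o Fin N) (i₀ : Fin q) (k : Fin N) :
    ∃ (J : Fin q ↪o Fin N) (ε : ℤ), (∀ U : Matrix (Fin N) (Fin q) ℤ,
      (U.submatrix (Function.update (fun i => f₀ i) i₀ k) id).det =
        ε * (U.submatrix J id).det) ∧ (k = f₀ i₀ → J = f₀ ∧ ε = 1) := by
  by_cases hk : k = f₀ i₀
  · refine ⟨f₀, 1, ?_, fun _ => ⟨rfl, rfl⟩⟩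
    intro U
    have h1 : Function.update (fun i => f₀ i) i₀ k = fun i => f₀ i := by
      rw [hk]
      exact Function.update_eq_self i₀ (fun i => f₀ i)
    rw [h1, one_mul]
  · by_cases hinj : Function.Injective (Function.update (fun i => f₀ i) i₀ k)
    · obtain ⟨J, τ, hJ⟩ := exists_orderEmb_perm _ hinj
      refine ⟨J, (Equiv.Perm.sign τ : ℤ), ?_, fun h => absurd h hk⟩
      intro U
      have h1 : U.submatrix (Function.update (fun i => f₀ i) i₀ k) id =
          (U.submatrix J id).submatrix τ id := by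
        ext i j
        rw [Matrix.submatrix_apply, Matrix.submatrix_apply, Matrix.submatrix_apply, hJ i]
        rfl
      rw [h1, Matrix.det_permute]
      simp
    · refine ⟨f₀, 0, ?_, fun h => absurd h hk⟩
      intro U
      rw [Function.Injective] at hinj
      push Not at hinj
      obtain ⟨i, j, hij, hne⟩ := hinj
      rw [zero_mul]
      apply Matrix.det_zero_of_row_eq hne
      ext a
      rw [Matrix.submatrix_apply, Matrix.submatrix_apply, hij]

theorem plucker_form {N p q : ℕ} (h : p + q = N) (hq : 0 < q) (b₀ : (Fin q ↪o Fin N) → ℤ)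
    (hb₀ : b₀ ≠ 0) :
    ∃ ℓ : Fin N → ℤ, ℓ ≠ 0 ∧ ∀ Y : Matrix (Fin N) (Fin N) ℤ,
      Y.det ≠ 0 →
      (∃ t : ℚ, ∀ J, ((compound q Y.adjugate J (topEmb h) : ℤ) : ℚ) = t * (b₀ J : ℚ)) →
      ∀ x : Fin N → ℤ, (∀ j : Fin N, p ≤ (j : ℕ) → Matrix.vecMul x Y.adjugate j = 0) →
        ∑ i, ℓ i * x i = 0 := by
  obtain ⟨f₀, hf₀⟩ : ∃ f₀, b₀ f₀ ≠ 0 := by
    by_contra hcon
    push Not at hcon
    exact hb₀ (funext hcon)
  set i₀ : Fin q := ⟨0, hq⟩ with hi₀
  choose J ε hJ hJ0 using exists_sign_emb f₀ i₀
  refine ⟨fun k => ε k * b₀ (J k), ?_, ?_⟩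
  · intro h0
    have h1 := congrFun h0 (f₀ i₀)
    obtain ⟨h2, h3⟩ := hJ0 (f₀ i₀) rfl
    simp only [h2, h3, one_mul, Pi.zero_apply] at h1
    exact hf₀ h1
  · rintro Y hY ⟨t, ht⟩ x hx
    set U : Matrix (Fin N) (Fin q) ℤ := Y.adjugate.submatrix id (topEmb h) with hU
    have hcomp : ∀ K, compound q Y.adjugate K (topEmb h) = (U.submatrix K id).det := by
      intro K
      rfl
    have hxU : ∑ k, x k • U k = 0 := by
      ext j
      rw [Finset.sum_apply]
      have h1 := hx (topEmb h j) (by rw [topEmb_val]; omega)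
      rw [Matrix.vecMul, dotProduct] at h1
      rw [Pi.zero_apply, ← h1]
      apply Finset.sum_congr rfl
      intro k _
      rfl
    set M : Matrix (Fin q) (Fin q) ℤ := U.submatrix (fun i => f₀ i) id with hM
    have hrow : ∀ k, (U.submatrix (Function.update (fun i => f₀ i) i₀ k) id).det =
        Matrix.cramer M.transpose (U k) i₀ := by
      intro k
      rw [Matrix.cramer_transpose_apply]
      congr 1
      ext i j
      rw [Matrix.submatrix_apply, Matrix.updateRow_apply]
      by_cases hi : i = i₀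
      · rw [if_pos hi, hi, Function.update_self]
        rfl
      · rw [if_neg hi, Function.update_of_ne hi]
        rfl
    have hsum : ∑ k, x k * (ε k * compound q Y.adjugate (J k) (topEmb h)) = 0 := by
      have h1 : ∀ k, ε k * compound q Y.adjugate (J k) (topEmb h) =
          Matrix.cramer M.transpose (U k) i₀ := by
        intro k
        rw [hcomp, ← hJ k U, hrow]
      have h2 : Matrix.cramer M.transpose (∑ k, x k • U k) i₀ = 0 := by
        rw [hxU, map_zero]
        rfl
      rw [map_sum, Finset.sum_apply] at h2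
      rw [← h2]
      apply Finset.sum_congr rfl
      intro k _
      rw [h1, map_smul, Pi.smul_apply, smul_eq_mul]
    have ht0 : t ≠ 0 := by
      intro ht0
      have hz : ∀ K, compound q Y.adjugate K (topEmb h) = 0 := by
        intro K
        have := ht K
        rw [ht0, zero_mul] at this
        exact_mod_cast this
      have h1 : compound q (Y * Y.adjugate) (topEmb h) (topEmb h) = 0 := by
        rw [compound_mul, Matrix.mul_apply]
        apply Finset.sum_eq_zero
        intro K _
        rw [hz, mul_zero]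
      rw [Matrix.mul_adjugate] at h1
      simp only [compound, Matrix.of_apply] at h1
      have h2 : (Y.det • (1 : Matrix (Fin N) (Fin N) ℤ)).submatrix (topEmb h) (topEmb h) =
          Y.det • (1 : Matrix (Fin q) (Fin q) ℤ) := by
        rw [Matrix.submatrix_smul, Pi.smul_apply, Pi.smul_apply,
          Matrix.submatrix_one _ (topEmb h).injective]
      rw [h2, Matrix.det_smul, Matrix.det_one, mul_one] at h1
      exact hY (pow_eq_zero_iff (by rw [Fintype.card_fin]; omega) |>.mp h1)
    have hfin : t * ((∑ i, ε i * b₀ (J i) * x i : ℤ) : ℚ) = 0 := by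
      have h3 : ((∑ k, x k * (ε k * compound q Y.adjugate (J k) (topEmb h)) : ℤ) : ℚ) = 0 := by
        rw [hsum]
        simp
      rw [← h3]
      push_cast
      rw [Finset.mul_sum]
      apply Finset.sum_congr rfl
      intro k _
      rw [ht (J k)]
      ring
    rcases mul_eq_zero.mp hfin with h4 | h4
    · exact absurd h4 ht0
    · exact_mod_cast h4

end Pool.Agent.SST
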