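import Pool.Agent.SST.MainHyp
import Pool.Agent.SST.Hyper
import Pool.Agent.SST.Plucker

/-! The subspace theorem along an ultrafilter. -/

open Filter Topology Matrix

namespace Pool.Agent.SST

open Pool.Agent.DD7719.M (compound compound_mul compound_map compound_one compound_smul
  compound_transpose compound_diagonal topEmb topEmb_val)

/-- the product of basis matrices -/
lemma compound_adj_mul {N q : ℕ} (Y B : Matrix (Fin N) (Fin N) ℤ) :
    compound q (Y * Bᵀ).adjugate = compound q (B.adjugateᵀ) * compound q Y.adjugate := by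
  rw [Matrix.adjugate_mul_distrib, compound_mul, Matrix.adjugate_transpose]

lemma vecMul_adj_mul {N : ℕ} (Y B : Matrix (Fin N) (Fin N) ℤ) (y : Fin N → ℤ) :
    Matrix.vecMul (B.mulVec y) (Y * Bᵀ).adjugate = B.det • Matrix.vecMul y Y.adjugate := by
  rw [Matrix.adjugate_mul_distrib, ← Matrix.vecMul_vecMul, ← Matrix.adjugate_transpose,
    Matrix.vecMul_transpose, Matrix.mulVec_mulVec, Matrix.adjugate_mul, Matrix.smul_mulVec,
    Matrix.one_mulVec, Matrix.smul_vecMul]

lemma orth_main {N p q : ℕ} (h : p + q = N) (Y B : Matrix (Fin N) (Fin N) ℤ)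
    (Z : (Fin q ↪o Fin N) → ℤ)
    (hZ : ∑ J, Z J * compound q Y.adjugate J (topEmb h) = 0) :
    ∑ J, compound q (Y * Bᵀ).adjugate J (topEmb h) * (compound q B).mulVec Z J = 0 := by
  have h1 : ∀ J, compound q (Y * Bᵀ).adjugate J (topEmb h) =
      (compound q (B.adjugateᵀ)).mulVec (fun J' => compound q Y.adjugate J' (topEmb h)) J := by
    intro J
    rw [compound_adj_mul, Matrix.mul_apply]
    rfl
  have h2 : ∑ J, compound q (Y * Bᵀ).adjugate J (topEmb h) * (compound q B).mulVec Z J =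
      (compound q (B.adjugateᵀ)).mulVec (fun J' => compound q Y.adjugate J' (topEmb h)) ⬝ᵥ
        (compound q B).mulVec Z := by
    rw [dotProduct]
    exact Finset.sum_congr rfl fun J _ => by rw [h1]
  rw [h2, Matrix.dotProduct_mulVec, ← Matrix.vecMul_transpose, Matrix.vecMul_vecMul,
    ← compound_transpose, Matrix.transpose_transpose, ← compound_mul, Matrix.adjugate_mul,
    compound_smul, compound_one, Matrix.vecMul_smul, Matrix.vecMul_one, smul_dotProduct,
    dotProduct]
  rw [show ∑ i, compound q Y.adjugate i (topEmb h) * Z i = 0 from by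
    rw [← hZ]; exact Finset.sum_congr rfl fun J _ => mul_comm _ _]
  simp

theorem subspace_ultra {S : Type} [Fintype S] [DecidableEq S] (K : S → Type) [∀ s, Field (K s)]
    [∀ s, NumberField (K s)] (v : ∀ s, AbsoluteValue (K s) ℝ) (hv : GoodPlaces K v) (s₀ : S)
    (φ : K s₀ →+* ℝ) (hφ : ∀ x, v s₀ x = |φ x|) (hfin : ∀ s, s ≠ s₀ → ∀ z : ℤ, v s (z : K s) ≤ 1)
    {m : ℕ} (L : ∀ s, Matrix (Fin (m + 1)) (Fin (m + 1)) (K s)) (hL : ∀ s, (L s).det ≠ 0)
    (e : S → Fin (m + 1) → ℝ) (hneg : ∑ s, ∑ i, e s i < 0) {X : Type} (𝒰 : Ultrafilter X)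
    (n : X → ℕ) (hn : Tendsto n 𝒰 atTop)
    (B : X → Matrix (Fin (m + 1)) (Fin (m + 1)) ℤ) (hB0 : ∀ᶠ a in (𝒰 : Filter X), (B a).det ≠ 0)
    (Cb : ℝ)
    (hB1 : ∀ᶠ a in (𝒰 : Filter X), ∀ s, s ≠ s₀ → ∀ i j,
      v s ((L s * (B a).map (Int.castRingHom (K s))) i j) ≤ Real.exp (n a * e s i + Cb))
    (hB2 : ∀ᶠ a in (𝒰 : Filter X), |(((B a).det : ℤ) : ℝ)| ≤
      Real.exp (-(n a * ∑ s ∈ Finset.univ.erase s₀, ∑ i, e s i) + Cb))
    (y : X → Fin (m + 1) → ℤ)
    (hx : ∀ ε : ℝ, 0 < ε → ∀ᶠ a in (𝒰 : Filter X), ∀ i,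
      |φ ((L s₀).mulVec (fun j => (((B a).mulVec (y a) j : ℤ) : K s₀)) i)| ≤
        Real.exp (n a * (e s₀ i + ε))) :
    ∃ ℓ : Fin (m + 1) → ℤ, ℓ ≠ 0 ∧
      ∀ᶠ a in (𝒰 : Filter X), ∑ i, ℓ i * (B a).mulVec (y a) i = 0 := by
  classical
  set Lr : Matrix (Fin (m + 1)) (Fin (m + 1)) ℝ := (L s₀).map φ with hLrdef
  have hLr : Lr.det ≠ 0 := by
    have := RingHom.map_det φ (L s₀)
    rw [RingHom.mapMatrix_apply] at this
    rw [hLrdef, ← this]
    exact (map_ne_zero φ).mpr (hL s₀)
  have hLrmul : ∀ (z : Fin (m + 1) → ℤ) (i : Fin (m + 1)),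
      φ ((L s₀).mulVec (fun j => ((z j : ℤ) : K s₀)) i) = Lr.mulVec (fun j => ((z j : ℤ) : ℝ)) i := by
    intro z i
    simp [hLrdef, Matrix.mulVec, dotProduct]
  obtain ⟨C₁, hC₁⟩ := log_det_ge K v hv s₀ φ hφ L hL e Cb
  set D : ℝ := -∑ s ∈ Finset.univ.erase s₀, ∑ i, e s i with hD
  obtain ⟨C, Yb, lam, μ, hC, hM, hmono, hμ, hsum⟩ := exists_mu Lr hLr (e s₀) 𝒰 n hn B hB0 D C₁ Cb
    (by
      filter_upwards [hB0, hB1, hB2] with a h0 h1 h2
      have h3 := hC₁ (n a) (B a) h0 h1
      have hpos : (0 : ℝ) < |(((B a).det : ℤ) : ℝ)| := by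
        rw [abs_pos]
        exact_mod_cast h0
      have h4 := (Real.log_le_iff_le_exp hpos).mpr h2
      rw [hD]
      constructor <;> nlinarith)
  have hsum' : ∑ k, μ k = -∑ s, ∑ i, e s i := by
    rw [hsum, hD, ← Finset.add_sum_erase _ _ (Finset.mem_univ s₀)]
    ring
  -- the least index with positive exponent
  have hex : ∃ k : Fin (m + 1), 0 < μ k := by
    by_contra hcon
    push Not at hcon
    have : ∑ k, μ k ≤ 0 := Finset.sum_nonpos fun k _ => hcon k
    linarith
  obtain ⟨p₀, hp₀, hp₀min⟩ : ∃ p₀ : Fin (m + 1), 0 < μ p₀ ∧ ∀ k, k < p₀ → μ k ≤ 0 := by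
    have hne : (Finset.univ.filter fun k : Fin (m + 1) => 0 < μ k).Nonempty := by
      obtain ⟨k, hk⟩ := hex
      exact ⟨k, by simpa using hk⟩
    refine ⟨(Finset.univ.filter fun k : Fin (m + 1) => 0 < μ k).min' hne, ?_, ?_⟩
    · have := Finset.min'_mem _ hne
      rw [Finset.mem_filter] at this
      exact this.2
    · intro k hk
      by_contra hcon
      push Not at hcon
      exact absurd (Finset.min'_le _ k (by simpa using hcon)) (not_le.mpr hk)
  have hproj := main_proj Lr (e s₀) 𝒰 n hn B C hC Yb lam μ hM hμ y (by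
    intro ε hε
    filter_upwards [hx ε hε] with a ha i
    rw [← hLrmul]
    exact ha i) p₀ hp₀
  rcases Nat.eq_zero_or_pos (p₀ : ℕ) with hp0 | hp0
  · -- the points vanish
    refine ⟨fun _ => 1, fun h => by simpa using congrFun h 0, ?_⟩
    filter_upwards [hproj, hM] with a ha hMa
    have h1 : Matrix.vecMul (y a) (Matrix.of (Yb a)).adjugate = 0 := by
      funext j
      exact ha j (by rw [Fin.le_def, hp0]; exact Nat.zero_le _)
    have h2 : y a = 0 := by
      have h3 : Matrix.vecMul (Matrix.vecMul (y a) (Matrix.of (Yb a)).adjugate)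
          (Matrix.of (Yb a)) = 0 := by rw [h1, Matrix.zero_vecMul]
      rw [Matrix.vecMul_vecMul, Matrix.adjugate_mul, Matrix.vecMul_smul, Matrix.vecMul_one] at h3
      exact (smul_eq_zero.mp h3).resolve_left hMa.det_ne
    rw [h2, Matrix.mulVec_zero]
    simp
  · -- the main case
    set p : ℕ := (p₀ : ℕ) with hpdef
    have hpm : p < m + 1 := p₀.isLt
    set q : ℕ := m + 1 - p with hqdef
    have hpq : p + q = m + 1 := by omega
    have hq : 0 < q := by omega
    have hp₀eq : (⟨p, by omega⟩ : Fin (m + 1)) = p₀ := Fin.ext rfl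
    set k₀ : Fin (m + 1) := ⟨p - 1, by omega⟩ with hk₀
    have hk₀μ : μ k₀ ≤ 0 := hp₀min k₀ (by rw [Fin.lt_def]; simp only [hk₀]; omega)
    have hgap := main_gap Lr (e s₀) 𝒰 n hn B C hC Yb lam μ hM hμ k₀ p₀ hk₀μ hp₀
    -- choose the data
    have hex2 : ∀ a, ∃ (π : Equiv.Perm (Fin q ↪o Fin (m + 1)))
        (Z : Fin (Fintype.card (Fin q ↪o Fin (m + 1)) - 1) → (Fin q ↪o Fin (m + 1)) → ℤ),
        MinBasis C (Amat Lr (e s₀) (n a) (B a)) (Yb a) (lam a) → C * lam a k₀ < lam a p₀ →
        LinearIndependent ℚ (fun i J => (Z i J : ℚ)) ∧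
        (∀ i, ∑ J, Z i J * compound q (Matrix.of (Yb a)).adjugate J (topEmb hpq) = 0) ∧
        ∀ i I, |∑ J, compound q (Amat Lr (e s₀) (n a) (B a)) (π I) J * (Z i J : ℝ)| ≤
          C * (if I = topEmb hpq then (∏ t, lam a (I t)) * lam a k₀ / lam a p₀
            else ∏ t, lam a (I t)) := by
      intro a
      by_cases hcon : MinBasis C (Amat Lr (e s₀) (n a) (B a)) (Yb a) (lam a) ∧
          C * lam a k₀ < lam a p₀
      · obtain ⟨π, Z, h1, h2, h3⟩ := hcon.1.gap p q hpq hp0 hq (by
          rw [hp₀eq]; exact hcon.2)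
        refine ⟨π, Z, fun _ _ => ⟨h1, h2, fun i I => ?_⟩⟩
        have := h3 i I
        rw [hp₀eq] at this
        exact this
      · exact ⟨1, 0, fun h1 h2 => absurd ⟨h1, h2⟩ hcon⟩
    choose π Z hπZ using hex2
    obtain ⟨π₀, hπ₀⟩ := ultra_const' 𝒰 π
    have hdata : ∀ᶠ a in (𝒰 : Filter X), LinearIndependent ℚ (fun i J => (Z a i J : ℚ)) ∧
        (∀ i, ∑ J, Z a i J * compound q (Matrix.of (Yb a)).adjugate J (topEmb hpq) = 0) ∧
        ∀ i I, |∑ J, compound q (Amat Lr (e s₀) (n a) (B a)) (π₀ I) J * (Z a i J : ℝ)| ≤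
          C * (if I = topEmb hpq then (∏ t, lam a (I t)) * lam a k₀ / lam a p₀
            else ∏ t, lam a (I t)) := by
      filter_upwards [hM, hgap, hπ₀] with a h1 h2 h3
      have := hπZ a h1 h2
      rw [h3] at this
      exact this
    -- exponents
    let e' : S → (Fin q ↪o Fin (m + 1)) → ℝ := fun s J =>
      if s = s₀ then (∑ t, e s₀ (J t) + ∑ t, μ ((π₀.symm J) t) -
          if π₀.symm J = topEmb hpq then μ p₀ - μ k₀ else 0)
      else ∑ t, e s (J t)
    obtain ⟨κ, hκ⟩ := sum_emb (m + 1) q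
    have hneg' : ∑ s, ∑ J, e' s J < 0 := by
      have h1 : ∑ J, e' s₀ J = κ * ∑ i, e s₀ i + κ * ∑ i, μ i - (μ p₀ - μ k₀) := by
        simp only [e', if_true]
        rw [Finset.sum_sub_distrib, Finset.sum_add_distrib, hκ]
        congr 1
        · congr 1
          rw [← hκ]
          exact Equiv.sum_comp π₀.symm (fun J => ∑ t, μ (J t))
        · rw [Equiv.sum_comp π₀.symm (fun J => if J = topEmb hpq then μ p₀ - μ k₀ else 0)]
          simp
      have h2 : ∀ s ∈ Finset.univ.erase s₀, ∑ J, e' s J = κ * ∑ i, e s i := by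
        intro s hs
        have : s ≠ s₀ := Finset.ne_of_mem_erase hs
        simp only [e', if_neg this]
        exact hκ _
      rw [← Finset.add_sum_erase _ _ (Finset.mem_univ s₀), Finset.sum_congr rfl h2, h1,
        ← Finset.mul_sum, hsum', ← Finset.add_sum_erase (a := s₀) _ (fun s => ∑ i, e s i)
          (Finset.mem_univ s₀)]
      ring_nf
      linarith
    -- the hyperplane data
    have hdet' : ∀ s, (compound q (L s)).det ≠ 0 := fun s => compound_det_ne_zero _ (hL s)
    have hH : HypData K v (fun s => compound q (L s)) e' 𝒰 n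
        (fun a i => (compound q (B a)).mulVec (Z a i))
        (fun a J => compound q (Matrix.of (Yb a) * (B a)ᵀ).adjugate J (topEmb hpq)) := by
      refine ⟨hn, ?_, ?_, ?_, ?_⟩
      · filter_upwards [hdata, hB0] with a h1 h2
        refine linInd_mulVec (compound q (B a)) ?_ (Z a) h1.1
        have h3 := compound_det_ne_zero (q := q) ((B a).map (Int.castRingHom ℚ)) (by
          rw [det_map_cast]
          exact_mod_cast h2)
        intro h4
        apply h3
        rw [compound_map]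
        have := RingHom.map_det (Int.castRingHom ℚ) (compound q (B a))
        rw [RingHom.mapMatrix_apply] at this
        rw [← this, h4, map_zero]
      · intro ε hε
        rw [eventually_all]
        intro s
        by_cases hs : s = s₀
        · subst hs
          have h1 := main_arch Lr (e s) 𝒰 n hn B C hC Yb lam μ hM hμ (topEmb hpq) k₀ p₀ π₀ Z
            (hdata.mono fun a ha => ha.2.2) ε hε
          filter_upwards [h1] with a ha i J
          rw [hφ]
          have h2 : φ (∑ J', compound q (L s) J J' *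
              (((compound q (B a)).mulVec (Z a i) J' : ℤ) : K s)) =
              ∑ J', compound q Lr J J' *
                (((compound q (B a)).mulVec (Z a i) J' : ℤ) : ℝ) := by
            rw [map_sum]
            refine Finset.sum_congr rfl fun J' _ => ?_
            rw [map_mul, map_intCast, hLrdef, compound_map, Matrix.map_apply]
          rw [h2]
          simp only [e', if_true]
          exact ha i J
        · have h1 := main_fin (q := q) (v s) (hfin s hs) (L s) (e s) 𝒰 n hn B Cb (by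
            filter_upwards [hB1] with a ha
            exact ha s hs) Z ε hε
          filter_upwards [h1] with a ha i J
          simp only [e', if_neg hs]
          exact ha i J
      · filter_upwards [hM, hB0] with a h1 h2
        refine plucker_ne_zero hpq _ ?_
        rw [Matrix.det_mul, Matrix.det_transpose]
        exact mul_ne_zero h1.det_ne h2
      · filter_upwards [hdata] with a ha i
        exact orth_main hpq _ _ _ (ha.2.1 i)
    obtain ⟨b₀, hb₀, hconst⟩ := hyperplane_const K v hv (fun s => compound q (L s)) hdet' e' hneg'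
      𝒰 n _ _ hH
    obtain ⟨ℓ, hℓ, hℓ'⟩ := plucker_form hpq hq b₀ hb₀
    refine ⟨ℓ, hℓ, ?_⟩
    filter_upwards [hconst, hproj, hM, hB0] with a h1 h2 h3 h4
    refine hℓ' (Matrix.of (Yb a) * (B a)ᵀ) ?_ h1 _ ?_
    · rw [Matrix.det_mul, Matrix.det_transpose]
      exact mul_ne_zero h3.det_ne h4
    · intro j hj
      rw [vecMul_adj_mul, Pi.smul_apply, h2 j (by rw [Fin.le_def]; exact hj), smul_zero]

end Pool.Agent.SST
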