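import Pool.Agent.SST.SpecDefs

/-! Auxiliary lemmas for the assembly. -/

open Filter Topology Matrix

namespace Pool.Agent.SST

open Pool.Agent.DD7719.M (compound compound_mul compound_map compound_one compound_smul
  compound_transpose compound_diagonal topEmb topEmb_val)

section Ultra

variable {X : Type} (𝒰 : Ultrafilter X)

lemma ultra_const' {α : Type*} [Finite α] (g : X → α) :
    ∃ a, ∀ᶠ x in (𝒰 : Filter X), g x = a := by
  by_contra hcon
  push Not at hcon
  have h1 : ∀ a, ∀ᶠ x in (𝒰 : Filter X), g x ≠ a := fun a => by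
    have := hcon a
    rw [← Ultrafilter.frequently_iff_eventually] at this ⊢
    simpa using this
  have h2 := Filter.eventually_all.mpr h1
  obtain ⟨n, hn⟩ := h2.exists
  exact hn (g n) rfl

lemma ultra_lim' (g : X → ℝ) (a b : ℝ)
    (h : ∀ᶠ x in (𝒰 : Filter X), a ≤ g x ∧ g x ≤ b) :
    ∃ y, Tendsto g (𝒰 : Filter X) (𝓝 y) := by
  obtain ⟨x, _, hx⟩ := (isCompact_Icc (a := a) (b := b)).ultrafilter_le_nhds (𝒰.map g) (by
    rw [Filter.le_principal_iff]
    exact h)
  exact ⟨x, hx⟩

end Ultra

section Comp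

variable {d q : ℕ}

lemma compound_det_ne_zero {F : Type*} [Field F] (M : Matrix (Fin d) (Fin d) F)
    (h : M.det ≠ 0) : (compound q M).det ≠ 0 := by
  have h1 : compound q M * compound q M.adjugate = M.det ^ q • (1 : Matrix _ _ F) := by
    rw [← compound_mul, Matrix.mul_adjugate, compound_smul, compound_one]
  have h2 := congrArg Matrix.det h1
  rw [Matrix.det_mul, Matrix.det_smul, Matrix.det_one, mul_one] at h2
  intro h0
  rw [h0, zero_mul] at h2
  exact pow_ne_zero _ (pow_ne_zero _ h) h2.symm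

lemma plucker_ne_zero {p : ℕ} (h : p + q = d) (Y : Matrix (Fin d) (Fin d) ℤ) (hY : Y.det ≠ 0) :
    (fun J => compound q Y.adjugate J (topEmb h)) ≠ 0 := by
  intro h0
  have h1 : compound q Y * compound q Y.adjugate = Y.det ^ q • (1 : Matrix _ _ ℤ) := by
    rw [← compound_mul, Matrix.mul_adjugate, compound_smul, compound_one]
  have h2 := congrFun (congrFun h1 (topEmb h)) (topEmb h)
  rw [Matrix.mul_apply, Matrix.smul_apply, Matrix.one_apply_eq, smul_eq_mul, mul_one] at h2
  rw [Finset.sum_eq_zero (fun J _ => by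
    have := congrFun h0 J
    simp only [Pi.zero_apply] at this
    rw [this, mul_zero])] at h2
  exact pow_ne_zero q hY h2.symm

/-- the number of `q`-element sets containing a given element does not depend on it -/
lemma sum_emb (d q : ℕ) : ∃ κ : ℝ, ∀ f : Fin d → ℝ,
    ∑ J : Fin q ↪o Fin d, ∑ i, f (J i) = κ * ∑ k, f k := by
  classical
  let cnt : Fin d → ℕ := fun k =>
    (Finset.univ.filter fun J : Fin q ↪o Fin d => ∃ i, J i = k).card
  have h1 : ∀ f : Fin d → ℝ, ∑ J : Fin q ↪o Fin d, ∑ i, f (J i) = ∑ k, (cnt k : ℝ) * f k := by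
    intro f
    have h2 : ∀ J : Fin q ↪o Fin d, ∑ i, f (J i) = ∑ k, if ∃ i, J i = k then f k else 0 := by
      intro J
      rw [← Finset.sum_filter]
      have h3 : (Finset.univ.filter fun k => ∃ i, J i = k) = Finset.univ.image J := by
        ext k
        simp
      rw [h3, Finset.sum_image (fun a _ b _ hab => J.injective hab)]
    simp only [h2]
    rw [Finset.sum_comm]
    refine Finset.sum_congr rfl fun k _ => ?_
    rw [← Finset.sum_filter, Finset.sum_const, nsmul_eq_mul]
  have h4 : ∀ k k' : Fin d, cnt k ≤ cnt k' := by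
    intro k k'
    have hcard : ∀ J : Fin q ↪o Fin d,
        ((Finset.univ.image J).map (Equiv.swap k k').toEmbedding).card = q := by
      intro J
      rw [Finset.card_map, Finset.card_image_of_injective _ J.injective]
      simp
    let F : (Fin q ↪o Fin d) → (Fin q ↪o Fin d) := fun J =>
      ((Finset.univ.image J).map (Equiv.swap k k').toEmbedding).orderEmbOfFin (hcard J)
    have hF : ∀ J, Set.range (F J) = (Equiv.swap k k') '' Set.range J := by
      intro J
      rw [Finset.range_orderEmbOfFin]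
      simp
    refine Finset.card_le_card_of_injOn F ?_ ?_
    · intro J hJ
      rw [Finset.mem_coe, Finset.mem_filter] at hJ ⊢
      obtain ⟨i, hi⟩ := hJ.2
      refine ⟨Finset.mem_univ _, ?_⟩
      have : k' ∈ Set.range (F J) := by
        rw [hF]
        exact ⟨k, ⟨i, hi⟩, Equiv.swap_apply_left _ _⟩
      exact this
    · intro J _ J' _ hJJ
      have h5 : Set.range (F J) = Set.range (F J') := by rw [hJJ]
      rw [hF, hF] at h5
      exact OrderEmbedding.range_inj.mp ((Equiv.injective _).image_injective h5)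
  rcases Nat.eq_zero_or_pos d with hd | hd
  · subst hd
    refine ⟨0, fun f => ?_⟩
    rw [h1]
    simp
  · refine ⟨cnt ⟨0, hd⟩, fun f => ?_⟩
    rw [h1, Finset.mul_sum]
    refine Finset.sum_congr rfl fun k _ => ?_
    rw [le_antisymm (h4 k ⟨0, hd⟩) (h4 ⟨0, hd⟩ k)]

/-- Leibniz bound -/
lemma abv_det_le {K : Type*} [Field K] (v : AbsoluteValue K ℝ) {n : ℕ}
    (M : Matrix (Fin n) (Fin n) K) (r : Fin n → ℝ) (h : ∀ i j, v (M i j) ≤ r i) :
    v M.det ≤ n.factorial * ∏ i, r i := by
  rw [← Matrix.det_transpose, Matrix.det_apply]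
  refine (v.sum_le _ _).trans ?_
  have : ∀ τ ∈ (Finset.univ : Finset (Equiv.Perm (Fin n))),
      v (Equiv.Perm.sign τ • ∏ i, Mᵀ (τ i) i) ≤ ∏ i, r i := by
    intro τ _
    rw [Units.smul_def, zsmul_eq_mul, map_mul]
    have h1 : v ((Equiv.Perm.sign τ : ℤ) : K) = 1 := by
      rcases Int.units_eq_one_or (Equiv.Perm.sign τ) with h | h <;> simp [h]
    rw [h1, one_mul, map_prod]
    exact Finset.prod_le_prod (fun i _ => v.nonneg _) (fun i _ => h _ _)
  refine (Finset.sum_le_card_nsmul _ _ _ this).trans ?_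
  simp [Fintype.card_perm]

lemma abv_compound_le {K : Type*} [Field K] (v : AbsoluteValue K ℝ)
    (M : Matrix (Fin d) (Fin d) K) (r : Fin d → ℝ) (h : ∀ i j, v (M i j) ≤ r i)
    (I J : Fin q ↪o Fin d) : v (compound q M I J) ≤ q.factorial * ∏ i, r (I i) := by
  rw [compound, Matrix.of_apply]
  exact abv_det_le v _ (fun i => r (I i)) fun i j => h _ _

/-- an invertible integer matrix preserves linear independence -/
lemma linInd_mulVec {ι : Type} [Fintype ι] [DecidableEq ι] {k : Type*} (M : Matrix ι ι ℤ)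
    (hM : M.det ≠ 0) (z : k → ι → ℤ) (hz : LinearIndependent ℚ (fun i J => (z i J : ℚ))) :
    LinearIndependent ℚ (fun i J => ((M.mulVec (z i) J : ℤ) : ℚ)) := by
  have h1 : (fun i J => ((M.mulVec (z i) J : ℤ) : ℚ)) =
      (Matrix.mulVecLin (M.map (Int.castRingHom ℚ))) ∘ (fun i J => (z i J : ℚ)) := by
    funext i J
    simp [Matrix.mulVec, dotProduct]
  rw [h1]
  refine hz.map' _ ?_
  rw [LinearMap.ker_eq_bot]
  have h2 : (M.map (Int.castRingHom ℚ)).det ≠ 0 := by
    have := RingHom.map_det (Int.castRingHom ℚ) M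
    rw [RingHom.mapMatrix_apply] at this
    rw [← this]
    simpa using hM
  intro x y hxy
  have := Matrix.mulVec_injective_of_isUnit (A := M.map (Int.castRingHom ℚ))
    ((Matrix.isUnit_iff_isUnit_det _).mpr (isUnit_iff_ne_zero.mpr h2))
  exact this hxy

end Comp

end Pool.Agent.SST
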