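import Pool.Agent.SST.MainMu

/-! The steps of the assembly. -/

open Filter Topology Matrix

namespace Pool.Agent.SST

open Pool.Agent.DD7719.M (compound compound_mul compound_map compound_one compound_smul
  compound_transpose compound_diagonal topEmb topEmb_val)

section Steps

variable {m : ℕ} (Lr : Matrix (Fin (m + 1)) (Fin (m + 1)) ℝ)
    (e : Fin (m + 1) → ℝ) {X : Type} (𝒰 : Ultrafilter X) (n : X → ℕ)
    (hn : Tendsto n (𝒰 : Filter X) atTop) (B : X → Matrix (Fin (m + 1)) (Fin (m + 1)) ℤ)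
    (C : ℝ) (hC : 1 ≤ C) (Yb : X → Fin (m + 1) → Fin (m + 1) → ℤ) (lam : X → Fin (m + 1) → ℝ)
    (μ : Fin (m + 1) → ℝ)
    (hM : ∀ᶠ a in (𝒰 : Filter X), MinBasis C (Amat Lr e (n a) (B a)) (Yb a) (lam a))
    (hμ : ∀ ε : ℝ, 0 < ε → ∀ᶠ a in (𝒰 : Filter X), ∀ k,
      |Real.log (lam a k) - n a * μ k| ≤ n a * ε)

include hn hC hM hμ

lemma main_proj (y : X → Fin (m + 1) → ℤ)
    (hx : ∀ ε : ℝ, 0 < ε → ∀ᶠ a in (𝒰 : Filter X), ∀ i,
      |Lr.mulVec (fun j => (((B a).mulVec (y a) j : ℤ) : ℝ)) i| ≤ Real.exp (n a * (e i + ε)))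
    (p : Fin (m + 1)) (hp : 0 < μ p) :
    ∀ᶠ a in (𝒰 : Filter X), ∀ j, p ≤ j →
      Matrix.vecMul (y a) (Matrix.of (Yb a)).adjugate j = 0 := by
  filter_upwards [hM, hμ (μ p / 4) (by linarith), hx (μ p / 4) (by linarith),
    const_le_eps 𝒰 n hn (Real.log C) (μ p / 4) (by linarith), hn.eventually_ge_atTop 1]
    with a hMa hμa hxa hca hna
  have hna' : (0 : ℝ) < n a := by exact_mod_cast hna
  refine hMa.mem (y a) (Real.exp (n a * (μ p / 4))) ?_ p ?_
  · intro j
    rw [Amat_mulVec, abs_mul, abs_of_pos (Real.exp_pos _)]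
    have h1 := mul_le_mul_of_nonneg_left (hxa j) (Real.exp_pos (-(n a * e j))).le
    refine h1.trans (le_of_eq ?_)
    rw [← Real.exp_add]
    congr 1
    ring
  · have hC0 : 0 < C := by linarith
    rw [← Real.log_lt_log_iff (by positivity) (hMa.pos p), Real.log_mul hC0.ne'
      (Real.exp_pos _).ne', Real.log_exp]
    have h1 := (abs_le.mp (hμa p)).1
    nlinarith

lemma main_gap (k l : Fin (m + 1)) (hk : μ k ≤ 0) (hl : 0 < μ l) :
    ∀ᶠ a in (𝒰 : Filter X), C * lam a k < lam a l := by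
  filter_upwards [hM, hμ (μ l / 4) (by linarith),
    const_le_eps 𝒰 n hn (Real.log C) (μ l / 4) (by linarith), hn.eventually_ge_atTop 1]
    with a hMa hμa hca hna
  have hna' : (0 : ℝ) < n a := by exact_mod_cast hna
  have hC0 : 0 < C := by linarith
  have hlk := hMa.pos k
  rw [← Real.log_lt_log_iff (by positivity) (hMa.pos l), Real.log_mul hC0.ne' hlk.ne']
  have h1 := (abs_le.mp (hμa l)).1
  have h2 := (abs_le.mp (hμa k)).2
  have h3 : (n a : ℝ) * μ k ≤ 0 := mul_nonpos_of_nonneg_of_nonpos hna'.le hk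
  nlinarith

/-- the archimedean bound for the compound forms -/
lemma main_arch {q : ℕ} (top : Fin q ↪o Fin (m + 1)) (k l : Fin (m + 1))
    (π : Equiv.Perm (Fin q ↪o Fin (m + 1))) {κ : Type}
    (Z : X → κ → (Fin q ↪o Fin (m + 1)) → ℤ)
    (hZ : ∀ᶠ a in (𝒰 : Filter X), ∀ i I,
      |∑ J, compound q (Amat Lr e (n a) (B a)) (π I) J * (Z a i J : ℝ)| ≤
        C * (if I = top then (∏ t, lam a (I t)) * lam a k / lam a l
          else ∏ t, lam a (I t)))
    (ε : ℝ) (hε : 0 < ε) :
    ∀ᶠ a in (𝒰 : Filter X), ∀ i J,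
      |∑ J', compound q Lr J J' * (((compound q (B a)).mulVec (Z a i) J' : ℤ) : ℝ)| ≤
        Real.exp (n a * ((∑ t, e (J t) + ∑ t, μ ((π.symm J) t) -
          if π.symm J = top then μ l - μ k else 0) + ε)) := by
  have hq : (0 : ℝ) < q + 3 := by positivity
  filter_upwards [hM, hμ (ε / (q + 3)) (by positivity), hZ,
    const_le_eps 𝒰 n hn (Real.log C) (ε / (q + 3)) (by positivity),
    hn.eventually_ge_atTop 1] with a hMa hμa hZa hca hna
  intro i J
  have hna' : (0 : ℝ) < n a := by exact_mod_cast hna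
  have hC0 : 0 < C := by linarith
  have h1 := hZa i (π.symm J)
  rw [Equiv.apply_symm_apply, compound_Amat, abs_mul, abs_of_pos (Real.exp_pos _)] at h1
  set I := π.symm J with hI
  set u := |∑ J', compound q Lr J J' * (((compound q (B a)).mulVec (Z a i) J' : ℤ) : ℝ)|
  have hlam : ∀ j, lam a j ≤ Real.exp (n a * (μ j + ε / (q + 3))) := by
    intro j
    rw [← Real.log_le_iff_le_exp (hMa.pos j)]
    have := (abs_le.mp (hμa j)).2
    nlinarith
  have hlam' : (lam a l)⁻¹ ≤ Real.exp (n a * (-μ l + ε / (q + 3))) := by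
    rw [← Real.log_le_iff_le_exp (inv_pos.mpr (hMa.pos l)), Real.log_inv]
    have := (abs_le.mp (hμa l)).1
    nlinarith
  have hCe : C ≤ Real.exp (n a * (ε / (q + 3))) := by
    rw [← Real.log_le_iff_le_exp hC0]
    exact hca
  have hprod : ∏ t, lam a (I t) ≤ Real.exp (n a * (∑ t, μ (I t) + q * (ε / (q + 3)))) := by
    calc ∏ t, lam a (I t) ≤ ∏ t, Real.exp (n a * (μ (I t) + ε / (q + 3))) :=
          Finset.prod_le_prod (fun t _ => (hMa.pos _).le) fun t _ => hlam _
      _ = _ := by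
          rw [← Real.exp_sum, ← Finset.mul_sum, Finset.sum_add_distrib, Finset.sum_const,
            Finset.card_univ, Fintype.card_fin, nsmul_eq_mul]
  have hprod0 : 0 ≤ ∏ t, lam a (I t) := Finset.prod_nonneg fun t _ => (hMa.pos _).le
  have h2 : (if I = top then (∏ t, lam a (I t)) * lam a k / lam a l else ∏ t, lam a (I t)) ≤
      Real.exp (n a * (∑ t, μ (I t) - (if I = top then μ l - μ k else 0) +
        (q + 2) * (ε / (q + 3)))) := by
    split_ifs with hif
    · rw [div_eq_mul_inv]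
      calc (∏ t, lam a (I t)) * lam a k * (lam a l)⁻¹ ≤
          Real.exp (n a * (∑ t, μ (I t) + q * (ε / (q + 3)))) *
            Real.exp (n a * (μ k + ε / (q + 3))) * Real.exp (n a * (-μ l + ε / (q + 3))) := by
            refine mul_le_mul (mul_le_mul hprod (hlam k) (hMa.pos k).le (Real.exp_pos _).le)
              hlam' (inv_pos.mpr (hMa.pos l)).le (by positivity)
        _ = _ := by
            rw [← Real.exp_add, ← Real.exp_add]
            congr 1
            ring
    · refine hprod.trans (Real.exp_le_exp.mpr (mul_le_mul_of_nonneg_left ?_ hna'.le))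
      have : 0 ≤ ε / (q + 3) := by positivity
      linarith
  have h3 : u ≤ Real.exp (n a * ∑ t, e (J t)) * (C * Real.exp (n a * (∑ t, μ (I t) -
      (if I = top then μ l - μ k else 0) + (q + 2) * (ε / (q + 3))))) := by
    have h4 := h1.trans (mul_le_mul_of_nonneg_left h2 hC0.le)
    have h5 := mul_le_mul_of_nonneg_left h4 (Real.exp_pos (n a * ∑ t, e (J t))).le
    rw [← mul_assoc, ← Real.exp_add] at h5
    simpa using h5
  refine h3.trans ?_
  calc Real.exp (n a * ∑ t, e (J t)) * (C * Real.exp (n a * (∑ t, μ (I t) -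
      (if I = top then μ l - μ k else 0) + (q + 2) * (ε / (q + 3))))) ≤
      Real.exp (n a * ∑ t, e (J t)) * (Real.exp (n a * (ε / (q + 3))) *
        Real.exp (n a * (∑ t, μ (I t) -
      (if I = top then μ l - μ k else 0) + (q + 2) * (ε / (q + 3))))) := by gcongr
    _ = _ := by
        rw [← Real.exp_add, ← Real.exp_add]
        congr 1
        have : (q + 3) * (ε / (q + 3)) = ε := by field_simp
        linear_combination (n a : ℝ) * this

end Steps

section NonArch

/-- the non-archimedean bound for the compound forms -/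
lemma main_fin {m q : ℕ} {K : Type} [Field K] (v : AbsoluteValue K ℝ)
    (hfin : ∀ z : ℤ, v (z : K) ≤ 1) (L : Matrix (Fin (m + 1)) (Fin (m + 1)) K)
    (e : Fin (m + 1) → ℝ) {X : Type} (𝒰 : Ultrafilter X) (n : X → ℕ)
    (hn : Tendsto n (𝒰 : Filter X) atTop) (B : X → Matrix (Fin (m + 1)) (Fin (m + 1)) ℤ)
    (Cb : ℝ) (hB1 : ∀ᶠ a in (𝒰 : Filter X), ∀ i j,
      v ((L * (B a).map (Int.castRingHom K)) i j) ≤ Real.exp (n a * e i + Cb))
    {κ : Type} (Z : X → κ → (Fin q ↪o Fin (m + 1)) → ℤ)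
    (ε : ℝ) (hε : 0 < ε) :
    ∀ᶠ a in (𝒰 : Filter X), ∀ i J,
      v (∑ J', compound q L J J' * (((compound q (B a)).mulVec (Z a i) J' : ℤ) : K)) ≤
        Real.exp (n a * (∑ t, e (J t) + ε)) := by
  filter_upwards [hB1, const_le_eps 𝒰 n hn
    (Real.log (Fintype.card (Fin q ↪o Fin (m + 1)) * q.factorial) + q * Cb) ε hε]
    with a hBa hca
  intro i J
  have h1 : ∑ J', compound q L J J' * (((compound q (B a)).mulVec (Z a i) J' : ℤ) : K) =
      ∑ J', compound q (L * (B a).map (Int.castRingHom K)) J J' * ((Z a i J' : ℤ) : K) := by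
    have h2 : ∑ J', compound q (L * (B a).map (Int.castRingHom K)) J J' * ((Z a i J' : ℤ) : K) =
        (compound q (L * (B a).map (Int.castRingHom K))).mulVec
          (fun J' => ((Z a i J' : ℤ) : K)) J := rfl
    have h3 : ((compound q (B a)).map (Int.castRingHom K)).mulVec
        (fun J' => ((Z a i J' : ℤ) : K)) =
        fun J' => ((((compound q (B a)).mulVec (Z a i) J' : ℤ)) : K) := by
      funext j
      simp [Matrix.mulVec, dotProduct]
    rw [h2, compound_mul, compound_map, ← Matrix.mulVec_mulVec, h3]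
    rfl
  rw [h1]
  have h4 : ∀ J' : Fin q ↪o Fin (m + 1),
      v (compound q (L * (B a).map (Int.castRingHom K)) J J' * ((Z a i J' : ℤ) : K)) ≤
        q.factorial * ∏ t, Real.exp (n a * e (J t) + Cb) := by
    intro J'
    rw [map_mul]
    calc _ ≤ (q.factorial * ∏ t, Real.exp (n a * e (J t) + Cb)) * 1 :=
          mul_le_mul (abv_compound_le v _ (fun i => Real.exp (n a * e i + Cb)) hBa J J')
            (hfin _) (v.nonneg _) (by positivity)
      _ = _ := mul_one _
  refine (v.sum_le _ _).trans ((Finset.sum_le_card_nsmul _ _ _ fun J' _ => h4 J').trans ?_)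
  rw [nsmul_eq_mul, Finset.card_univ, ← mul_assoc, ← Real.exp_sum, Finset.sum_add_distrib,
    Finset.sum_const, Finset.card_univ, Fintype.card_fin, nsmul_eq_mul, ← Finset.mul_sum]
  have hcard : 0 < Fintype.card (Fin q ↪o Fin (m + 1)) := Fintype.card_pos_iff.mpr ⟨J⟩
  have hpos : (0 : ℝ) < Fintype.card (Fin q ↪o Fin (m + 1)) * q.factorial := by
    have : (0 : ℝ) < q.factorial := by exact_mod_cast q.factorial_pos
    have h6 : (0 : ℝ) < Fintype.card (Fin q ↪o Fin (m + 1)) := by exact_mod_cast hcard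
    positivity
  calc _ = Real.exp (Real.log (Fintype.card (Fin q ↪o Fin (m + 1)) * q.factorial)) *
        Real.exp (n a * ∑ t, e (J t) + q * Cb) := by rw [Real.exp_log hpos]
    _ ≤ _ := by
        rw [← Real.exp_add]
        refine Real.exp_le_exp.mpr ?_
        nlinarith

end NonArch

end Pool.Agent.SST
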