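import Pool.Agent.SST.MainPrep
import Pool.Agent.SST.Geom

/-! The exponents of the successive minima. -/

open Filter Topology Matrix

namespace Pool.Agent.SST

open Pool.Agent.DD7719.M (compound compound_mul compound_map compound_one compound_smul
  compound_transpose compound_diagonal topEmb topEmb_val)

/-- from convergence of `g / n` to approximate formulas -/
lemma approx_of_tendsto {X : Type} (𝒰 : Ultrafilter X) (n : X → ℕ)
    (hn : Tendsto n (𝒰 : Filter X) atTop) (g : X → ℝ) (μ : ℝ)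
    (h : Tendsto (fun a => g a / n a) (𝒰 : Filter X) (𝓝 μ)) (ε : ℝ) (hε : 0 < ε) :
    ∀ᶠ a in (𝒰 : Filter X), |g a - n a * μ| ≤ n a * ε := by
  have h1 := (Metric.tendsto_nhds.mp h) ε hε
  filter_upwards [h1, hn.eventually_ge_atTop 1] with a ha hna
  have hna' : (0 : ℝ) < n a := by exact_mod_cast hna
  rw [Real.dist_eq] at ha
  have h2 : g a - n a * μ = n a * (g a / n a - μ) := by
    field_simp
  rw [h2, abs_mul, abs_of_pos hna']
  exact mul_le_mul_of_nonneg_left ha.le hna'.le

/-- a constant is at most `n ε` eventually -/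
lemma const_le_eps {X : Type} (𝒰 : Ultrafilter X) (n : X → ℕ)
    (hn : Tendsto n (𝒰 : Filter X) atTop) (c ε : ℝ) (hε : 0 < ε) :
    ∀ᶠ a in (𝒰 : Filter X), c ≤ n a * ε := by
  have h1 : Tendsto (fun a => (n a : ℝ) * ε) (𝒰 : Filter X) atTop :=
    (tendsto_natCast_atTop_atTop.comp hn).atTop_mul_const hε
  exact h1.eventually_ge_atTop c

theorem exists_mu {m : ℕ} (Lr : Matrix (Fin (m + 1)) (Fin (m + 1)) ℝ) (hLr : Lr.det ≠ 0)
    (e : Fin (m + 1) → ℝ) {X : Type} (𝒰 : Ultrafilter X) (n : X → ℕ)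
    (hn : Tendsto n (𝒰 : Filter X) atTop) (B : X → Matrix (Fin (m + 1)) (Fin (m + 1)) ℤ)
    (hB0 : ∀ᶠ a in (𝒰 : Filter X), (B a).det ≠ 0) (D C₁ Cb : ℝ)
    (hD : ∀ᶠ a in (𝒰 : Filter X), n a * D - C₁ ≤ Real.log |(((B a).det : ℤ) : ℝ)| ∧
      Real.log |(((B a).det : ℤ) : ℝ)| ≤ n a * D + Cb) :
    ∃ (C : ℝ) (Yb : X → Fin (m + 1) → Fin (m + 1) → ℤ) (lam : X → Fin (m + 1) → ℝ)
      (μ : Fin (m + 1) → ℝ), 1 ≤ C ∧
      (∀ᶠ a in (𝒰 : Filter X), MinBasis C (Amat Lr e (n a) (B a)) (Yb a) (lam a)) ∧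
      Monotone μ ∧
      (∀ ε : ℝ, 0 < ε → ∀ᶠ a in (𝒰 : Filter X), ∀ k, |Real.log (lam a k) - n a * μ k| ≤ n a * ε) ∧
      ∑ k, μ k = D - ∑ i, e i := by
  classical
  obtain ⟨C, hC1, hC⟩ := exists_minBasis m
  have hC0 : 0 < C := by linarith
  have hdet : ∀ a, (B a).det ≠ 0 → (Amat Lr e (n a) (B a)).det ≠ 0 := by
    intro a ha
    rw [Amat_det]
    refine mul_ne_zero (Real.exp_pos _).ne' (mul_ne_zero hLr ?_)
    exact_mod_cast ha
  have hex : ∀ a, ∃ (Yb : Fin (m + 1) → Fin (m + 1) → ℤ) (lam : Fin (m + 1) → ℝ),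
      (B a).det ≠ 0 → MinBasis C (Amat Lr e (n a) (B a)) Yb lam := by
    intro a
    by_cases ha : (B a).det = 0
    · exact ⟨0, 0, fun h => absurd ha h⟩
    · obtain ⟨Yb, lam, h⟩ := hC _ (hdet a ha)
      exact ⟨Yb, lam, fun _ => h⟩
  choose Yb lam hmb using hex
  obtain ⟨K₀, hK₀, hK⟩ := exists_lower Lr hLr
  set E : ℝ := ∑ i, |e i| with hE
  have hE' : ∀ i, |e i| ≤ E := fun i =>
    Finset.single_le_sum (f := fun i => |e i|) (fun i _ => abs_nonneg _) (Finset.mem_univ i)
  have hE0 : 0 ≤ E := Finset.sum_nonneg fun i _ => abs_nonneg _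
  have hlogKC : 0 ≤ Real.log (K₀ * C) := Real.log_nonneg (by nlinarith)
  set E' : ℝ := E + Real.log (K₀ * C) with hE'def
  have hE'0 : 0 ≤ E' := by positivity
  -- lower bound
  have hlow : ∀ᶠ a in (𝒰 : Filter X), ∀ k, -(n a * E') ≤ Real.log (lam a k) := by
    filter_upwards [hB0, hn.eventually_ge_atTop 1] with a ha hna k
    have hna' : (1 : ℝ) ≤ n a := by exact_mod_cast hna
    have hM := hmb a ha
    have hy0 : Yb a 0 ≠ 0 := by
      intro h0
      apply hM.det_ne
      rw [Matrix.det_eq_zero_of_row_eq_zero 0]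
      intro j
      rw [Matrix.of_apply, h0]
      rfl
    have hx0 : (B a).mulVec (Yb a 0) ≠ 0 := by
      intro h0
      apply hy0
      have h1 : (B a).adjugate.mulVec ((B a).mulVec (Yb a 0)) = 0 := by
        rw [h0, Matrix.mulVec_zero]
      rw [Matrix.mulVec_mulVec, Matrix.adjugate_mul, Matrix.smul_mulVec, Matrix.one_mulVec] at h1
      exact (smul_eq_zero.mp h1).resolve_left ha
    obtain ⟨j, hj⟩ := hK _ hx0
    have h2 := hM.vec 0 j
    rw [Amat_mulVec, abs_mul, abs_of_pos (Real.exp_pos _)] at h2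
    set u := |Lr.mulVec (fun j => (((B a).mulVec (Yb a 0) j : ℤ) : ℝ)) j| with hu
    have h3 : u ≤ Real.exp (n a * e j) * (C * lam a 0) := by
      have h4 := mul_le_mul_of_nonneg_left h2 (Real.exp_pos (n a * e j)).le
      rw [← mul_assoc, ← Real.exp_add] at h4
      simpa using h4
    have h5 : 1 ≤ (K₀ * C) * Real.exp (n a * e j) * lam a 0 := by
      calc (1 : ℝ) ≤ K₀ * u := hj
        _ ≤ K₀ * (Real.exp (n a * e j) * (C * lam a 0)) :=
          mul_le_mul_of_nonneg_left h3 (by linarith)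
        _ = _ := by ring
    have hl0 := hM.pos 0
    have h6 := Real.log_le_log one_pos h5
    rw [Real.log_one, Real.log_mul (by positivity) hl0.ne', Real.log_mul (by positivity)
      (Real.exp_pos _).ne', Real.log_exp] at h6
    have h7 : Real.log (lam a 0) ≤ Real.log (lam a k) :=
      Real.log_le_log hl0 (hM.mono (Fin.zero_le k))
    have h8 : e j ≤ E := (le_abs_self _).trans (hE' j)
    have h9 : (n a : ℝ) * e j ≤ n a * E := mul_le_mul_of_nonneg_left h8 (by linarith)
    have h10 : Real.log (K₀ * C) ≤ n a * Real.log (K₀ * C) := by nlinarith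
    rw [hE'def]
    nlinarith
  -- the sum
  have hlogA : ∀ᶠ a in (𝒰 : Filter X), |∑ k, Real.log (lam a k) - n a * (D - ∑ i, e i)| ≤
      Real.log C + |Real.log (|Lr.det|)| + |C₁| + |Cb| := by
    filter_upwards [hB0, hD] with a ha hDa
    have hM := hmb a ha
    have h1 : Real.log |(Amat Lr e (n a) (B a)).det| =
        -(n a * ∑ i, e i) + Real.log |Lr.det| + Real.log |(((B a).det : ℤ) : ℝ)| := by
      have h2 : |(((B a).det : ℤ) : ℝ)| ≠ 0 := by
        rw [abs_ne_zero]
        exact_mod_cast ha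
      rw [Amat_det, abs_mul, abs_of_pos (Real.exp_pos _), abs_mul,
        Real.log_mul (Real.exp_pos _).ne' (mul_ne_zero (abs_ne_zero.mpr hLr) h2),
        Real.log_exp, Real.log_mul (abs_ne_zero.mpr hLr) h2]
      ring
    have hAdet : 0 < |(Amat Lr e (n a) (B a)).det| := abs_pos.mpr (hdet a ha)
    have hprod : 0 < ∏ i, lam a i := Finset.prod_pos fun i _ => hM.pos i
    have h3 := Real.log_le_log hprod hM.upper
    have h4 := Real.log_le_log hAdet hM.lower
    rw [Real.log_mul hC0.ne' hAdet.ne', Real.log_prod (fun i _ => (hM.pos i).ne')] at h3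
    rw [Real.log_mul hC0.ne' hprod.ne', Real.log_prod (fun i _ => (hM.pos i).ne')] at h4
    have h5 := abs_le.mp (le_refl |Real.log (|Lr.det|)|)
    have h6 := le_abs_self C₁
    have h7 := le_abs_self Cb
    have h8 := abs_nonneg C₁
    have h9 := abs_nonneg Cb
    rw [abs_le]
    constructor <;> nlinarith
  -- upper bound
  have hup : ∀ᶠ a in (𝒰 : Filter X), ∀ k, Real.log (lam a k) ≤
      n a * (|D - ∑ i, e i| + (Real.log C + |Real.log (|Lr.det|)| + |C₁| + |Cb|) + m * E') := by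
    filter_upwards [hlow, hlogA, hn.eventually_ge_atTop 1] with a ha hs hna k
    have hna' : (1 : ℝ) ≤ n a := by exact_mod_cast hna
    have h1 := (abs_le.mp hs).2
    rw [← Finset.add_sum_erase _ _ (Finset.mem_univ k)] at h1
    have h2 : ∑ i ∈ Finset.univ.erase k, -(n a * E') ≤
        ∑ i ∈ Finset.univ.erase k, Real.log (lam a i) :=
      Finset.sum_le_sum fun i _ => ha i
    rw [Finset.sum_const, Finset.card_erase_of_mem (Finset.mem_univ k), Finset.card_univ,
      Fintype.card_fin, Nat.add_sub_cancel, nsmul_eq_mul] at h2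
    have h3 := le_abs_self (D - ∑ i, e i)
    have h4 : (n a : ℝ) * (D - ∑ i, e i) ≤ n a * |D - ∑ i, e i| :=
      mul_le_mul_of_nonneg_left h3 (by linarith)
    have h5 : 0 ≤ Real.log C + |Real.log (|Lr.det|)| + |C₁| + |Cb| := by
      have := Real.log_nonneg hC1
      positivity
    nlinarith
  -- the limits
  have hlim : ∀ k, ∃ μ, Tendsto (fun a => Real.log (lam a k) / n a) (𝒰 : Filter X) (𝓝 μ) := by
    intro k
    refine ultra_lim' 𝒰 _ (-E')
      (|D - ∑ i, e i| + (Real.log C + |Real.log (|Lr.det|)| + |C₁| + |Cb|) + m * E') ?_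
    filter_upwards [hlow, hup, hn.eventually_ge_atTop 1] with a h1 h2 hna
    have hna' : (0 : ℝ) < n a := by exact_mod_cast hna
    constructor
    · rw [le_div_iff₀ hna']
      have := h1 k
      linarith
    · rw [div_le_iff₀ hna']
      have := h2 k
      linarith
  choose μ hμ using hlim
  refine ⟨C, Yb, lam, μ, hC1, ?_, ?_, ?_, ?_⟩
  · filter_upwards [hB0] with a ha
    exact hmb a ha
  · intro k l hkl
    refine le_of_tendsto_of_tendsto (hμ k) (hμ l) ?_
    filter_upwards [hB0, hn.eventually_ge_atTop 1] with a ha hna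
    have hna' : (0 : ℝ) < n a := by exact_mod_cast hna
    exact div_le_div_of_nonneg_right
      (Real.log_le_log ((hmb a ha).pos k) ((hmb a ha).mono hkl)) hna'.le
  · intro ε hε
    rw [eventually_all]
    intro k
    exact approx_of_tendsto 𝒰 n hn _ _ (hμ k) ε hε
  · have h1 : Tendsto (fun a => ∑ k, Real.log (lam a k) / n a) (𝒰 : Filter X) (𝓝 (∑ k, μ k)) :=
      tendsto_finsetSum _ fun k _ => hμ k
    have h2 : Tendsto (fun a => ∑ k, Real.log (lam a k) / n a) (𝒰 : Filter X)
        (𝓝 (D - ∑ i, e i)) := by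
      rw [Metric.tendsto_nhds]
      intro ε hε
      filter_upwards [hlogA, hn.eventually_ge_atTop 1, const_le_eps 𝒰 n hn
        (Real.log C + |Real.log (|Lr.det|)| + |C₁| + |Cb|) (ε / 2) (by linarith)] with a ha hna hc
      have hna' : (0 : ℝ) < n a := by exact_mod_cast hna
      rw [Real.dist_eq]
      have h3 : ∑ k, Real.log (lam a k) / n a - (D - ∑ i, e i) =
          (∑ k, Real.log (lam a k) - n a * (D - ∑ i, e i)) / n a := by
        rw [← Finset.sum_div]
        field_simp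
      rw [h3, abs_div, abs_of_pos hna', div_lt_iff₀ hna']
      nlinarith
    exact tendsto_nhds_unique h1 h2

end Pool.Agent.SST
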