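import Pool.Agent.SST.MainAux

/-! The matrices `A` and preliminary estimates for the assembly. -/

open Filter Topology Matrix

namespace Pool.Agent.SST

open Pool.Agent.DD7719.M (compound compound_mul compound_map compound_one compound_smul
  compound_transpose compound_diagonal topEmb topEmb_val)

section Amat

variable {N : ℕ}

/-- the weighted forms in the coordinates of the lattice `B` -/
noncomputable def Amat (Lr : Matrix (Fin N) (Fin N) ℝ) (e : Fin N → ℝ) (n : ℕ)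
    (B : Matrix (Fin N) (Fin N) ℤ) : Matrix (Fin N) (Fin N) ℝ :=
  Matrix.diagonal (fun i => Real.exp (-(n * e i))) * (Lr * B.map (Int.castRingHom ℝ))

lemma det_map_cast (B : Matrix (Fin N) (Fin N) ℤ) {R : Type*} [CommRing R] :
    (B.map (Int.castRingHom R)).det = ((B.det : ℤ) : R) := by
  have := RingHom.map_det (Int.castRingHom R) B
  rw [RingHom.mapMatrix_apply] at this
  rw [← this]
  simp

lemma Amat_det (Lr : Matrix (Fin N) (Fin N) ℝ) (e : Fin N → ℝ) (n : ℕ)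
    (B : Matrix (Fin N) (Fin N) ℤ) :
    (Amat Lr e n B).det = Real.exp (-(n * ∑ i, e i)) * (Lr.det * ((B.det : ℤ) : ℝ)) := by
  rw [Amat, Matrix.det_mul, Matrix.det_mul, Matrix.det_diagonal, det_map_cast, ← Real.exp_sum,
    Finset.sum_neg_distrib, ← Finset.mul_sum]

lemma Amat_mulVec (Lr : Matrix (Fin N) (Fin N) ℝ) (e : Fin N → ℝ) (n : ℕ)
    (B : Matrix (Fin N) (Fin N) ℤ) (z : Fin N → ℤ) (i : Fin N) :
    (Amat Lr e n B).mulVec (fun k => (z k : ℝ)) i =
      Real.exp (-(n * e i)) * Lr.mulVec (fun j => ((B.mulVec z j : ℤ) : ℝ)) i := by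
  have h1 : (B.map (Int.castRingHom ℝ)).mulVec (fun k => (z k : ℝ)) =
      fun j => ((B.mulVec z j : ℤ) : ℝ) := by
    funext j
    simp [Matrix.mulVec, dotProduct]
  rw [Amat, ← Matrix.mulVec_mulVec, ← Matrix.mulVec_mulVec, h1, Matrix.mulVec_diagonal]

lemma compound_Amat (q : ℕ) (Lr : Matrix (Fin N) (Fin N) ℝ) (e : Fin N → ℝ) (n : ℕ)
    (B : Matrix (Fin N) (Fin N) ℤ) (z : (Fin q ↪o Fin N) → ℤ) (J : Fin q ↪o Fin N) :
    ∑ J', compound q (Amat Lr e n B) J J' * (z J' : ℝ) =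
      Real.exp (-(n * ∑ i, e (J i))) *
        ∑ J', compound q Lr J J' * ((((compound q B).mulVec z J' : ℤ)) : ℝ) := by
  have h1 : compound q (Amat Lr e n B) =
      Matrix.diagonal (fun J : Fin q ↪o Fin N => Real.exp (-(n * ∑ i, e (J i)))) *
        (compound q Lr * (compound q B).map (Int.castRingHom ℝ)) := by
    rw [Amat, compound_mul, compound_mul, compound_diagonal, compound_map]
    congr 2
    funext J
    rw [← Real.exp_sum, Finset.sum_neg_distrib, ← Finset.mul_sum]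
  have h2 : ∑ J', compound q (Amat Lr e n B) J J' * (z J' : ℝ) =
      (compound q (Amat Lr e n B)).mulVec (fun J' => (z J' : ℝ)) J := rfl
  have h3 : ((compound q B).map (Int.castRingHom ℝ)).mulVec (fun J' => (z J' : ℝ)) =
      fun J' => ((((compound q B).mulVec z J' : ℤ)) : ℝ) := by
    funext j
    simp [Matrix.mulVec, dotProduct]
  rw [h2, h1, ← Matrix.mulVec_mulVec, ← Matrix.mulVec_mulVec, h3, Matrix.mulVec_diagonal]
  rfl

/-- an invertible real matrix is bounded below on nonzero integer vectors -/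
lemma exists_lower (Lr : Matrix (Fin N) (Fin N) ℝ) (hLr : Lr.det ≠ 0) :
    ∃ K₀ : ℝ, 1 ≤ K₀ ∧ ∀ x : Fin N → ℤ, x ≠ 0 → ∃ j, 1 ≤ K₀ *
      |Lr.mulVec (fun k => (x k : ℝ)) j| := by
  classical
  refine ⟨1 + ∑ i, ∑ j, |Lr⁻¹ i j|, ?_, fun x hx => ?_⟩
  · have : 0 ≤ ∑ i, ∑ j, |Lr⁻¹ i j| :=
      Finset.sum_nonneg fun i _ => Finset.sum_nonneg fun j _ => abs_nonneg _
    linarith
  obtain ⟨k, hk⟩ : ∃ k, x k ≠ 0 := by
    by_contra hcon
    push Not at hcon
    exact hx (funext hcon)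
  by_contra hcon
  push Not at hcon
  set u := Lr.mulVec (fun k => (x k : ℝ)) with hu
  have h1 : Lr⁻¹.mulVec u = fun k => (x k : ℝ) := by
    rw [hu, Matrix.mulVec_mulVec, Matrix.nonsing_inv_mul Lr (isUnit_iff_ne_zero.mpr hLr),
      Matrix.one_mulVec]
  have h2 : (x k : ℝ) = ∑ j, Lr⁻¹ k j * u j := by
    rw [← congrFun h1 k]
    rfl
  have h3 : (1 : ℝ) ≤ |(x k : ℝ)| := by exact_mod_cast Int.one_le_abs hk
  have hK : 0 < 1 + ∑ i, ∑ j, |Lr⁻¹ i j| := by
    have : 0 ≤ ∑ i, ∑ j, |Lr⁻¹ i j| :=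
      Finset.sum_nonneg fun i _ => Finset.sum_nonneg fun j _ => abs_nonneg _
    linarith
  have h4 : |(x k : ℝ)| ≤ ∑ j, |Lr⁻¹ k j| * (1 / (1 + ∑ i, ∑ j, |Lr⁻¹ i j|)) := by
    rw [h2]
    refine (Finset.abs_sum_le_sum_abs _ _).trans (Finset.sum_le_sum fun j _ => ?_)
    rw [abs_mul]
    refine mul_le_mul_of_nonneg_left ?_ (abs_nonneg _)
    rw [le_div_iff₀ hK, mul_comm]
    exact (hcon j).le
  rw [← Finset.sum_mul, mul_one_div] at h4
  have h5 : ∑ j, |Lr⁻¹ k j| ≤ ∑ i, ∑ j, |Lr⁻¹ i j| :=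
    Finset.single_le_sum (f := fun i => ∑ j, |Lr⁻¹ i j|)
      (fun i _ => Finset.sum_nonneg fun j _ => abs_nonneg _) (Finset.mem_univ k)
  have h6 : (∑ j, |Lr⁻¹ k j|) / (1 + ∑ i, ∑ j, |Lr⁻¹ i j|) < 1 := by
    rw [div_lt_one hK]
    linarith
  linarith

end Amat

section Det

variable {S : Type} [Fintype S] [DecidableEq S] (K : S → Type) [∀ s, Field (K s)]
    (v : ∀ s, AbsoluteValue (K s) ℝ)

/-- lower bound for the determinant of the lattice, from the product formula -/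
lemma log_det_ge (hv : GoodPlaces K v) (s₀ : S) (φ : K s₀ →+* ℝ)
    (hφ : ∀ x, v s₀ x = |φ x|) {N : ℕ} (L : ∀ s, Matrix (Fin N) (Fin N) (K s))
    (hL : ∀ s, (L s).det ≠ 0) (e : S → Fin N → ℝ) (Cb : ℝ) :
    ∃ C₁ : ℝ, ∀ (n : ℕ) (B : Matrix (Fin N) (Fin N) ℤ), B.det ≠ 0 →
      (∀ s, s ≠ s₀ → ∀ i j,
        v s ((L s * B.map (Int.castRingHom (K s))) i j) ≤ Real.exp (n * e s i + Cb)) →
      -(n * ∑ s ∈ Finset.univ.erase s₀, ∑ i, e s i) - C₁ ≤ Real.log |((B.det : ℤ) : ℝ)| := by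
  let c : S → ℝ := fun s => Real.log N.factorial + N * Cb - Real.log (v s (L s).det)
  refine ⟨∑ s ∈ Finset.univ.erase s₀, c s, fun n B hB hB1 => ?_⟩
  have hpos : ∀ s, 0 < v s ((B.det : ℤ) : K s) := by
    intro s
    have h1 := hv.prod B.det hB
    refine lt_of_le_of_ne ((v s).nonneg _) fun h0 => ?_
    have h2 : ∏ s, v s ((B.det : ℤ) : K s) = 0 :=
      Finset.prod_eq_zero (Finset.mem_univ s) h0.symm
    linarith
  have hfac : (0 : ℝ) < N.factorial := by exact_mod_cast N.factorial_pos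
  have h1 : ∀ s ∈ Finset.univ.erase s₀, Real.log (v s ((B.det : ℤ) : K s)) ≤
      n * ∑ i, e s i + c s := by
    intro s hs
    have h2 := abv_det_le (v s) (L s * B.map (Int.castRingHom (K s)))
      (fun i => Real.exp (n * e s i + Cb)) (hB1 s (Finset.ne_of_mem_erase hs))
    rw [Matrix.det_mul, map_mul, det_map_cast] at h2
    have hLs : 0 < v s (L s).det := (v s).pos (hL s)
    have h3 := Real.log_le_log (mul_pos hLs (hpos s)) h2
    rw [Real.log_mul hLs.ne' (hpos s).ne', ← Real.exp_sum, Real.log_mul hfac.ne'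
      (Real.exp_pos _).ne', Real.log_exp, Finset.sum_add_distrib, Finset.sum_const,
      Finset.card_univ, Fintype.card_fin, nsmul_eq_mul, ← Finset.mul_sum] at h3
    simp only [c]
    linarith
  have h2 : 0 ≤ ∑ s, Real.log (v s ((B.det : ℤ) : K s)) := by
    rw [← Real.log_prod (fun s _ => (hpos s).ne')]
    exact Real.log_nonneg (hv.prod B.det hB)
  rw [← Finset.add_sum_erase _ _ (Finset.mem_univ s₀)] at h2
  have h3 := Finset.sum_le_sum h1
  rw [Finset.sum_add_distrib, ← Finset.mul_sum] at h3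
  have h4 : v s₀ ((B.det : ℤ) : K s₀) = |((B.det : ℤ) : ℝ)| := by
    rw [hφ, map_intCast]
  rw [h4] at h2
  linarith

end Det

end Pool.Agent.SST
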