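import Pool.Agent.SST.SeqDefs
import Mathlib.FieldTheory.Galois.GaloisClosure
import Mathlib.RingTheory.Norm.Transitivity
import Mathlib.RingTheory.Algebraic.Integral
import Mathlib.FieldTheory.IsSepClosed
import Mathlib.FieldTheory.PerfectClosure
import Mathlib.FieldTheory.Galois.Infinite

/-! The product of the conjugates of a value of a polynomial at a rational point. -/

open MvPolynomial
open scoped BigOperators

namespace Pool.Agent.SST

/-- values of a polynomial at a rational point, with bounded denominator -/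
theorem isIntegral_value (P : MvPolynomial (Fin 2) Qb) (N : ℕ) (hPN : P.totalDegree ≤ N) (M : ℤ)
    (hM : ∀ μ, IsIntegral ℤ ((M : Qb) * coeff μ P)) (f : Fin 3 → ℤ) (hf : f 0 ≠ 0) :
    IsIntegral ℤ ((M : Qb) * (f 0 : Qb) ^ N * aeval (bsq f) P) := by
  have hf' : (f 0 : Qb) ≠ 0 := by exact_mod_cast hf
  rw [aeval_def, eval₂_eq', Finset.mul_sum]
  refine IsIntegral.sum _ fun μ hμ => ?_
  have hμN : μ 0 + μ 1 ≤ N := by
    have h1 := le_totalDegree hμ
    have h2 : (μ.sum fun _ e => e) = μ 0 + μ 1 := by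
      rw [Finsupp.sum_fintype _ _ (fun i => rfl), Fin.sum_univ_two]
    omega
  have h1 : (M : Qb) * (f 0 : Qb) ^ N *
      ((algebraMap Qb Qb) (coeff μ P) * ∏ i, bsq f i ^ μ i) =
      ((M : Qb) * coeff μ P) *
        (((f 0) ^ (N - (μ 0 + μ 1)) * (f 1) ^ (μ 0) * (f 2) ^ (μ 1) : ℤ) : Qb) := by
    have h2 : (f 0 : Qb) ^ N = (f 0 : Qb) ^ (N - (μ 0 + μ 1)) * (f 0 : Qb) ^ (μ 0) *
        (f 0 : Qb) ^ (μ 1) := by
      rw [← pow_add, ← pow_add]
      congr 1
      omega
    rw [Fin.prod_univ_two, h2]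
    simp only [bsq, Matrix.cons_val_zero, Matrix.cons_val_one, Algebra.algebraMap_self,
      RingHom.id_apply]
    push_cast
    rw [div_pow, div_pow]
    field_simp
  rw [h1]
  exact (hM μ).mul isIntegral_algebraMap

/-- products of conjugates are in the base field -/
theorem conj_prod_gen {k K : Type} [Field k] [Field K] [Algebra k K] [IsGalois k K]
    (S : Finset K) :
    ∃ (E : IntermediateField k K) (e : ℕ) (s : Fin e → (K ≃ₐ[k] K)), 0 < e ∧ (∀ x ∈ S, x ∈ E) ∧
      ∀ z ∈ E, ∃ y : k, ∏ j, s j z = algebraMap k K y := by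
  classical
  let E : FiniteGaloisIntermediateField k K := FiniteGaloisIntermediateField.adjoin k (S : Set K)
  have hSE : ∀ x ∈ S, x ∈ E.toIntermediateField := fun x hx =>
    FiniteGaloisIntermediateField.subset_adjoin k (S : Set K) hx
  have hsurj := AlgEquiv.restrictNormalHom_surjective (F := k) (K₁ := E.toIntermediateField) K
  choose lift hlift using hsurj
  let eq := (Fintype.equivFin (E.toIntermediateField ≃ₐ[k] E.toIntermediateField)).symm
  refine ⟨E.toIntermediateField, Fintype.card (E.toIntermediateField ≃ₐ[k] E.toIntermediateField),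
    fun j => lift (eq j), Fintype.card_pos, hSE, ?_⟩
  intro z hE
  have h1 : ∀ j, lift (eq j) z = ((eq j ⟨z, hE⟩ : E.toIntermediateField) : K) := by
    intro j
    have h2 := AlgEquiv.restrictNormalHom_apply E.toIntermediateField (lift (eq j)) ⟨z, hE⟩
    rw [hlift (eq j)] at h2
    exact h2.symm
  refine ⟨Algebra.norm k (⟨z, hE⟩ : E.toIntermediateField), ?_⟩
  rw [Finset.prod_congr rfl fun j _ => h1 j]
  rw [IsScalarTower.algebraMap_apply k E.toIntermediateField K,
    Algebra.norm_eq_prod_automorphisms, map_prod]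
  exact Fintype.prod_equiv eq _ _ fun j => rfl

/-- the product of the conjugates of a value of a polynomial is an integer -/
theorem norm_system (P : MvPolynomial (Fin 2) Qb) (N : ℕ) (hPN : P.totalDegree ≤ N) :
    ∃ (M : ℤ) (e : ℕ) (s : Fin e → (Qb ≃+* Qb)), M ≠ 0 ∧ 0 < e ∧
      (∀ f : Fin 3 → ℤ, f 0 ≠ 0 →
        IsIntegral ℤ ((M : Qb) * (f 0 : Qb) ^ N * aeval (bsq f) P)) ∧
      ∀ f : Fin 3 → ℤ, f 0 ≠ 0 → ∃ Z : ℤ,
        ∏ j, s j ((M : Qb) * (f 0 : Qb) ^ N * aeval (bsq f) P) = (Z : Qb) := by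
  classical
  let i1 : Algebra ℚ Qb := AlgebraicClosure.instAlgebra ℚ
  have i2 : IsAlgClosure ℚ Qb := inferInstance
  have i3 : IsGalois ℚ Qb := IsAlgClosure.isGalois ℚ Qb
  have i4 : Algebra.IsAlgebraic ℤ ℚ := IsLocalization.isAlgebraic ℚ (nonZeroDivisors ℤ)
  have i5 : Algebra.IsAlgebraic ℤ Qb := Algebra.IsAlgebraic.trans ℤ ℚ Qb
  obtain ⟨M, hM0, hM⟩ := Algebra.IsAlgebraic.exists_integral_multiples (R := ℤ) (A := Qb)
    (P.support.image fun μ => coeff μ P)
  have hM' : ∀ μ, IsIntegral ℤ ((M : Qb) * coeff μ P) := by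
    intro μ
    by_cases hμ : μ ∈ P.support
    · have := hM (coeff μ P) (Finset.mem_image_of_mem _ hμ)
      rwa [zsmul_eq_mul] at this
    · rw [notMem_support_iff.1 hμ, mul_zero]
      exact isIntegral_zero
  obtain ⟨E, e, s, he, hSE, hprod⟩ := conj_prod_gen (k := ℚ) (P.support.image fun μ => coeff μ P)
  have hval : ∀ f : Fin 3 → ℤ, (M : Qb) * (f 0 : Qb) ^ N * aeval (bsq f) P ∈ E := by
    intro f
    refine mul_mem (mul_mem (intCast_mem _ _) (pow_mem (intCast_mem _ _) _)) ?_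
    rw [aeval_def, eval₂_eq']
    refine sum_mem fun μ hμ => mul_mem (hSE _ (Finset.mem_image_of_mem _ hμ)) ?_
    refine prod_mem fun i _ => pow_mem ?_ _
    fin_cases i
    · exact div_mem (intCast_mem _ _) (intCast_mem _ _)
    · exact div_mem (intCast_mem _ _) (intCast_mem _ _)
  refine ⟨M, e, fun j => (s j).toRingEquiv, hM0, he,
    fun f hf => isIntegral_value P N hPN M hM' f hf, ?_⟩
  intro f hf
  have hint := isIntegral_value P N hPN M hM' f hf
  obtain ⟨y, hy⟩ := hprod _ (hval f)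
  set z := (M : Qb) * (f 0 : Qb) ^ N * aeval (bsq f) P with hz
  have h1 : IsIntegral ℤ (∏ j, s j z) := by
    refine IsIntegral.prod _ fun j _ => ?_
    exact hint.map ((s j).toRingEquiv.toRingHom.toIntAlgHom)
  rw [hy] at h1
  have h2 : IsIntegral ℤ y := (isIntegral_algebraMap_iff (algebraMap ℚ Qb).injective).1 h1
  obtain ⟨Z, hZ⟩ := IsIntegrallyClosed.isIntegral_iff.1 h2
  refine ⟨Z, ?_⟩
  have h3 : ∏ j, (s j).toRingEquiv z = ∏ j, s j z := rfl
  rw [h3, hy, ← hZ]
  simp

end Pool.Agent.SST
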