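import Pool.Agent.SST.Vero

/-! One place: the product over the adapted bases. -/

open MvPolynomial

namespace Pool.Agent.SST

section Place

variable {K : Type} [NormedField K]

theorem nf_nonneg (f : Fin 3 → ℤ) : 0 ≤ nf K f := le_max_of_le_left (norm_nonneg _)

theorem norm_le_nf (f : Fin 3 → ℤ) (i : Fin 3) : ‖(f i : K)‖ ≤ nf K f := by
  unfold nf
  fin_cases i
  · exact le_max_left _ _
  · exact le_trans (le_max_left _ _) (le_max_right _ _)
  · exact le_trans (le_max_right _ _) (le_max_right _ _)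

theorem lval_evR (α : OnePoint K) (f : Fin 3 → ℤ) : lval (evR α) f = evK f α := by
  match α with
  | OnePoint.infty => simp [lval, evR, evK, Fin.sum_univ_three]
  | OnePoint.some z => simp [lval, evR, evK, Fin.sum_univ_three]; ring

/-- the discriminant in the adapted basis -/
theorem disc_id (α : OnePoint K) (f : Fin 3 → ℤ) :
    lval (dR α) f ^ 2 - 4 * lval (evR α) f * lval (wR α) f = ((discq f : ℤ) : K) := by
  match α with
  | OnePoint.infty => simp [lval, evR, dR, wR, discq, Fin.sum_univ_three]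
  | OnePoint.some z => simp [lval, evR, dR, wR, discq, Fin.sum_univ_three]; ring

theorem lval_norm_le (A : Fin 3 → K) (f : Fin 3 → ℤ) :
    ‖lval A f‖ ≤ (∑ i, ‖A i‖) * nf K f := by
  unfold lval
  refine le_trans (norm_sum_le _ _) ?_
  rw [Finset.sum_mul]
  refine Finset.sum_le_sum fun i _ => ?_
  rw [norm_mul]
  exact mul_le_mul_of_nonneg_left (norm_le_nf f i) (norm_nonneg _)

theorem wR_le (α : OnePoint K) (f : Fin 3 → ℤ) : ‖lval (wR α) f‖ ≤ nf K f := by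
  match α with
  | OnePoint.infty =>
    have : lval (wR (OnePoint.infty : OnePoint K)) f = (f 2 : K) := by
      simp [lval, wR, Fin.sum_univ_three]
    rw [this]; exact norm_le_nf f 2
  | OnePoint.some z =>
    have : lval (wR (OnePoint.some z : OnePoint K)) f = (f 0 : K) := by
      simp [lval, wR, Fin.sum_univ_three]
    rw [this]; exact norm_le_nf f 0

theorem nf_le_of_lin (X Y Z : Fin 3 → K) (a b c : Fin 3 → K)
    (h : ∀ (f : Fin 3 → ℤ) (i : Fin 3), (f i : K) = a i * lval X f + b i * lval Y f + c i * lval Z f) :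
    ∃ C : ℝ, 1 ≤ C ∧ ∀ f : Fin 3 → ℤ,
      nf K f ≤ C * max ‖lval X f‖ (max ‖lval Y f‖ ‖lval Z f‖) := by
  refine ⟨1 + ∑ i, (‖a i‖ + ‖b i‖ + ‖c i‖), ?_, ?_⟩
  · have : 0 ≤ ∑ i, (‖a i‖ + ‖b i‖ + ‖c i‖) := Finset.sum_nonneg fun i _ => by positivity
    linarith
  · intro f
    set m := max ‖lval X f‖ (max ‖lval Y f‖ ‖lval Z f‖) with hm
    have hm0 : 0 ≤ m := le_max_of_le_left (norm_nonneg _)
    have hX : ‖lval X f‖ ≤ m := le_max_left _ _
    have hY : ‖lval Y f‖ ≤ m := le_trans (le_max_left _ _) (le_max_right _ _)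
    have hZ : ‖lval Z f‖ ≤ m := le_trans (le_max_right _ _) (le_max_right _ _)
    have key : ∀ i, ‖(f i : K)‖ ≤ (1 + ∑ i, (‖a i‖ + ‖b i‖ + ‖c i‖)) * m := by
      intro i
      have h1 : ‖(f i : K)‖ ≤ (‖a i‖ + ‖b i‖ + ‖c i‖) * m := by
        rw [h f i]
        calc ‖a i * lval X f + b i * lval Y f + c i * lval Z f‖
            ≤ ‖a i * lval X f‖ + ‖b i * lval Y f‖ + ‖c i * lval Z f‖ := norm_add₃_le
          _ = ‖a i‖ * ‖lval X f‖ + ‖b i‖ * ‖lval Y f‖ + ‖c i‖ * ‖lval Z f‖ := by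
              rw [norm_mul, norm_mul, norm_mul]
          _ ≤ ‖a i‖ * m + ‖b i‖ * m + ‖c i‖ * m := by gcongr
          _ = (‖a i‖ + ‖b i‖ + ‖c i‖) * m := by ring
      have h2 : (‖a i‖ + ‖b i‖ + ‖c i‖) ≤ ∑ i, (‖a i‖ + ‖b i‖ + ‖c i‖) :=
        Finset.single_le_sum (f := fun i => ‖a i‖ + ‖b i‖ + ‖c i‖)
          (fun i _ => by positivity) (Finset.mem_univ i)
      calc ‖(f i : K)‖ ≤ (‖a i‖ + ‖b i‖ + ‖c i‖) * m := h1
        _ ≤ (1 + ∑ i, (‖a i‖ + ‖b i‖ + ‖c i‖)) * m := by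
            apply mul_le_mul_of_nonneg_right _ hm0
            linarith
    unfold nf
    exact max_le (key 0) (max_le (key 1) (key 2))

theorem nf_le_max (α β : OnePoint K) (hne : α ≠ β) :
    ∃ C : ℝ, 1 ≤ C ∧ ∀ f : Fin 3 → ℤ,
      nf K f ≤ C * max ‖lval (evR α) f‖ (max ‖lval (dR α) f‖ ‖lval (evR β) f‖) := by
  match α, β with
  | OnePoint.infty, OnePoint.infty => exact absurd rfl hne
  | OnePoint.infty, OnePoint.some z =>
    refine nf_le_of_lin _ _ _ ![1, 0, -z ^ 2] ![0, 1, -z] ![0, 0, 1] fun f i => ?_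
    fin_cases i
    · simp [lval, evR, dR, Fin.sum_univ_three]
    · simp [lval, evR, dR, Fin.sum_univ_three]
    · simp [lval, evR, dR, Fin.sum_univ_three]; ring
  | OnePoint.some z, OnePoint.infty =>
    refine nf_le_of_lin _ _ _ ![0, 0, 1] ![0, 1, -z] ![1, -2 * z, z ^ 2] fun f i => ?_
    fin_cases i
    · simp [lval, evR, dR, Fin.sum_univ_three]
    · simp [lval, evR, dR, Fin.sum_univ_three]
    · simp [lval, evR, dR, Fin.sum_univ_three]; ring
  | OnePoint.some z, OnePoint.some w =>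
    have hzw : w - z ≠ 0 := by
      intro h
      apply hne
      rw [sub_eq_zero.mp h]
    set t := w - z with ht
    have hw : w = z + t := by rw [ht]; ring
    -- f0 = (X' - X - Y t) / t^2
    refine nf_le_of_lin _ _ _ ![-(t ^ 2)⁻¹, 2 * z * (t ^ 2)⁻¹, 1 - z ^ 2 * (t ^ 2)⁻¹]
      ![-t⁻¹, 1 + 2 * z * t⁻¹, -z - z ^ 2 * t⁻¹] ![(t ^ 2)⁻¹, -2 * z * (t ^ 2)⁻¹, z ^ 2 * (t ^ 2)⁻¹]
      fun f i => ?_
    rw [hw]
    fin_cases i
    · simp [lval, evR, dR, Fin.sum_univ_three]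
      field_simp
      ring
    · simp [lval, evR, dR, Fin.sum_univ_three]
      field_simp
      ring
    · simp [lval, evR, dR, Fin.sum_univ_three]
      field_simp
      ring

theorem prod_norm_vero (X Y Z : Fin 3 → K) (c : K) {N R Q P : ℕ}
    (hprod : ∀ x z d y : ℝ, ∏ μ : Idx N, (x ^ (μ.1 0 : ℕ) * z ^ (μ.1 2 : ℕ) *
      d ^ ((μ.1 1 : ℕ) / 2) * y ^ ((μ.1 1 : ℕ) % 2)) = x ^ R * z ^ R * d ^ Q * y ^ P)
    (f : Fin 3 → ℤ) :
    ∏ μ : Idx N, ‖(veroMat X Y Z c N).mulVec (fun ν => ((vero N f ν : ℤ) : K)) μ‖ =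
      ‖lval X f‖ ^ R * ‖lval Z f‖ ^ R * ‖lval Y f ^ 2 - c * lval X f * lval Z f‖ ^ Q *
        ‖lval Y f‖ ^ P := by
  rw [← hprod]
  refine Finset.prod_congr rfl fun μ _ => ?_
  rw [veroMat_mulVec, norm_mul, norm_mul, norm_mul, norm_pow, norm_pow, norm_pow, norm_pow]

/-- the case of a base with third form bounded by the second evaluation -/
theorem case_B {x w x' D y n C : ℝ} {R Q P : ℕ} (hR : 2 * Q + P = R) (hx : 0 ≤ x) (hw : 0 ≤ w)
    (hx' : 0 ≤ x') (hD : 0 < D) (hy : 0 ≤ y) (hC : 1 ≤ C) (hw' : w ≤ C * x') (hyn : y ≤ C * n) :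
    x ^ R * w ^ R * D ^ Q * y ^ P ≤ (C * (x * x' * Real.sqrt D)) ^ R *
      (C * n / Real.sqrt D) ^ P := by
  have hs : 0 < Real.sqrt D := Real.sqrt_pos.mpr hD
  have hD2 : D = Real.sqrt D ^ 2 := (Real.sq_sqrt hD.le).symm
  have h1 : D ^ Q * y ^ P = Real.sqrt D ^ R * (y / Real.sqrt D) ^ P := by
    conv_lhs => rw [hD2]
    rw [← pow_mul, ← hR, pow_add, div_pow]
    field_simp
  have h2 : (y / Real.sqrt D) ^ P ≤ (C * n / Real.sqrt D) ^ P := by gcongr
  have h3 : w ^ R ≤ (C * x') ^ R := by gcongr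
  calc x ^ R * w ^ R * D ^ Q * y ^ P = x ^ R * w ^ R * (D ^ Q * y ^ P) := by ring
    _ = x ^ R * w ^ R * (Real.sqrt D ^ R * (y / Real.sqrt D) ^ P) := by rw [h1]
    _ ≤ x ^ R * (C * x') ^ R * (Real.sqrt D ^ R * (C * n / Real.sqrt D) ^ P) := by
        gcongr
    _ = (C * (x * x' * Real.sqrt D)) ^ R * (C * n / Real.sqrt D) ^ P := by
        simp only [mul_pow]; ring

/-- the case of a large derivative -/
theorem case_A {x x' D y n C : ℝ} {R Q P : ℕ} (hR : 2 * Q + P = R) (hx : 0 ≤ x)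
    (hx' : 0 ≤ x') (hD : 0 < D) (hy : 0 ≤ y) (hC : 3 ≤ C) (hyD : y ^ 2 ≤ 2 * D)
    (hDn : D ≤ 5 * n ^ 2) (hn : 0 ≤ n) :
    x ^ R * x' ^ R * (y ^ 2) ^ Q * y ^ P ≤ (C * (x * x' * Real.sqrt D)) ^ R *
      (C * n / Real.sqrt D) ^ P := by
  have hs : 0 < Real.sqrt D := Real.sqrt_pos.mpr hD
  have hC9 : (9 : ℝ) ≤ C ^ 2 := by nlinarith
  have hy2 : y ≤ C * Real.sqrt D := by
    apply le_of_sq_le_sq _ (by positivity) |>.trans le_rfl
    rw [mul_pow, Real.sq_sqrt hD.le]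
    nlinarith [mul_le_mul_of_nonneg_right hC9 hD.le]
  have h1 : (y ^ 2) ^ Q * y ^ P = y ^ R := by
    rw [← pow_mul, ← pow_add, hR]
  have h2 : 1 ≤ C * n / Real.sqrt D := by
    rw [le_div_iff₀ hs, one_mul]
    apply le_of_sq_le_sq _ (by positivity) |>.trans le_rfl
    rw [mul_pow, Real.sq_sqrt hD.le]
    nlinarith [mul_le_mul_of_nonneg_right hC9 (sq_nonneg n), sq_nonneg n]
  calc x ^ R * x' ^ R * (y ^ 2) ^ Q * y ^ P = x ^ R * x' ^ R * ((y ^ 2) ^ Q * y ^ P) := by ring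
    _ = x ^ R * x' ^ R * y ^ R := by rw [h1]
    _ ≤ x ^ R * x' ^ R * (C * Real.sqrt D) ^ R := by gcongr
    _ = (C * (x * x' * Real.sqrt D)) ^ R * 1 := by simp only [mul_pow]; ring
    _ ≤ (C * (x * x' * Real.sqrt D)) ^ R * (C * n / Real.sqrt D) ^ P := by
        have : 1 ≤ (C * n / Real.sqrt D) ^ P := one_le_pow₀ h2
        gcongr

end Place

theorem place_bound {K : Type} [NormedField K] [CharZero K] (hK : ∀ n : ℤ, ‖(n : K)‖ ≤ |(n : ℝ)|)
    (α β : OnePoint K) (hne : α ≠ β) :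
    ∃ C : ℝ, 1 ≤ C ∧ ∀ (N R Q P : ℕ), 2 * Q + P = R →
      (∀ x z d y : ℝ, ∏ μ : Idx N, (x ^ (μ.1 0 : ℕ) * z ^ (μ.1 2 : ℕ) * d ^ ((μ.1 1 : ℕ) / 2) *
        y ^ ((μ.1 1 : ℕ) % 2)) = x ^ R * z ^ R * d ^ Q * y ^ P) →
      ∀ f : Fin 3 → ℤ, discq f ≠ 0 → ∃ τ : Fin 3,
        ∏ μ : Idx N, ‖(vmat α β N τ).mulVec (fun ν => ((vero N f ν : ℤ) : K)) μ‖ ≤
          (C * (‖evK f α‖ * ‖evK f β‖ * Real.sqrt ‖((discq f : ℤ) : K)‖)) ^ R *
            (C * nf K f / Real.sqrt ‖((discq f : ℤ) : K)‖) ^ P := by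
  obtain ⟨C₁, hC₁, hmax⟩ := nf_le_max α β hne
  set A := ∑ i, ‖dR α i‖ with hA
  set B := ∑ i, ‖dR β i‖ with hB
  have hA0 : 0 ≤ A := Finset.sum_nonneg fun i _ => norm_nonneg _
  have hB0 : 0 ≤ B := Finset.sum_nonneg fun i _ => norm_nonneg _
  refine ⟨8 * C₁ ^ 2 + A + B + 3, by nlinarith, ?_⟩
  set C := 8 * C₁ ^ 2 + A + B + 3 with hC
  intro N R Q P hR hprod f hf
  set n := nf K f with hn
  have hn0 : 0 ≤ n := nf_nonneg f
  have hD : 0 < ‖((discq f : ℤ) : K)‖ := by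
    rw [norm_pos_iff]
    exact_mod_cast hf
  have h4 : ‖(4 : K)‖ ≤ 4 := by
    have := hK 4
    norm_num at this
    exact this
  have hDn : ‖((discq f : ℤ) : K)‖ ≤ 5 * n ^ 2 := by
    have e : ((discq f : ℤ) : K) = (f 1 : K) ^ 2 - 4 * (f 0 : K) * (f 2 : K) := by
      unfold discq; push_cast; ring
    rw [e]
    have h0 := norm_le_nf (K := K) f 0
    have h1 := norm_le_nf (K := K) f 1
    have h2 := norm_le_nf (K := K) f 2
    calc ‖(f 1 : K) ^ 2 - 4 * (f 0 : K) * (f 2 : K)‖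
        ≤ ‖(f 1 : K) ^ 2‖ + ‖4 * (f 0 : K) * (f 2 : K)‖ := norm_sub_le _ _
      _ = ‖(f 1 : K)‖ ^ 2 + ‖(4 : K)‖ * ‖(f 0 : K)‖ * ‖(f 2 : K)‖ := by
          rw [norm_pow, norm_mul, norm_mul]
      _ ≤ n ^ 2 + 4 * n * n := by gcongr
      _ = 5 * n ^ 2 := by ring
  have hY : ‖lval (dR α) f‖ ≤ C * n := by
    refine le_trans (lval_norm_le _ f) ?_
    apply mul_le_mul_of_nonneg_right _ hn0
    nlinarith
  have hY' : ‖lval (dR β) f‖ ≤ C * n := by
    refine le_trans (lval_norm_le _ f) ?_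
    apply mul_le_mul_of_nonneg_right _ hn0
    nlinarith
  have hC3 : 3 ≤ C := by nlinarith
  have hCC : C₁ ≤ C := by nlinarith
  have hC8 : 8 * C₁ ^ 2 ≤ C := by nlinarith
  rw [← lval_evR α f, ← lval_evR β f]
  set x := ‖lval (evR α) f‖ with hx
  set x' := ‖lval (evR β) f‖ with hx'
  set y := ‖lval (dR α) f‖ with hy
  have hx0 : 0 ≤ x := norm_nonneg _
  have hx'0 : 0 ≤ x' := norm_nonneg _
  have hy0 : 0 ≤ y := norm_nonneg _
  by_cases hcase : 8 * n * x ≤ y ^ 2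
  · -- case A
    refine ⟨0, ?_⟩
    change ∏ μ : Idx N, ‖(veroMat (evR α) (dR α) (evR β) 0 N).mulVec
      (fun ν => ((vero N f ν : ℤ) : K)) μ‖ ≤ _
    rw [prod_norm_vero _ _ _ _ hprod]
    simp only [zero_mul, sub_zero, norm_pow]
    refine case_A hR hx0 hx'0 hD hy0 hC3 ?_ hDn hn0
    have e := disc_id α f
    have e2 : lval (dR α) f ^ 2 = ((discq f : ℤ) : K) + 4 * lval (evR α) f * lval (wR α) f := by
      rw [← e]; ring
    have e3 : y ^ 2 ≤ ‖((discq f : ℤ) : K)‖ + 4 * x * n := by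
      rw [hy, ← norm_pow, e2]
      refine le_trans (norm_add_le _ _) ?_
      rw [norm_mul, norm_mul]
      have := wR_le α f
      gcongr
    nlinarith
  · push Not at hcase
    by_cases hB' : n ≤ C₁ * x'
    · refine ⟨1, ?_⟩
      change ∏ μ : Idx N, ‖(veroMat (evR α) (dR α) (wR α) 4 N).mulVec
        (fun ν => ((vero N f ν : ℤ) : K)) μ‖ ≤ _
      rw [prod_norm_vero _ _ _ _ hprod, disc_id]
      refine case_B hR hx0 (norm_nonneg _) hx'0 hD hy0 (by linarith) ?_ hY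
      calc ‖lval (wR α) f‖ ≤ n := wR_le α f
        _ ≤ C₁ * x' := hB'
        _ ≤ C * x' := by gcongr
    · push Not at hB'
      refine ⟨2, ?_⟩
      change ∏ μ : Idx N, ‖(veroMat (evR β) (dR β) (wR β) 4 N).mulVec
        (fun ν => ((vero N f ν : ℤ) : K)) μ‖ ≤ _
      rw [prod_norm_vero _ _ _ _ hprod, disc_id, mul_comm x x']
      refine case_B hR hx'0 (norm_nonneg _) hx0 hD (norm_nonneg _) (by linarith) ?_ hY'
      refine le_trans (wR_le β f) ?_
      change n ≤ C * x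
      have h1 := hmax f
      rw [← hn] at h1
      have h2 : n ≤ C₁ * x ∨ n ≤ C₁ * y := by
        rcases le_total x (max y x') with h | h
        · rw [max_eq_right h] at h1
          rcases le_total y x' with h' | h'
          · rw [max_eq_right h'] at h1
            exact absurd h1 (not_le.mpr hB')
          · rw [max_eq_left h'] at h1
            exact Or.inr h1
        · rw [max_eq_left h] at h1
          exact Or.inl h1
      rcases h2 with h2 | h2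
      · calc n ≤ C₁ * x := h2
          _ ≤ C * x := by gcongr
      · have hnpos : 0 < n := by
          rcases hn0.lt_or_eq with h | h
          · exact h
          · exfalso
            rw [← h] at hDn
            norm_num at hDn
            exact hf hDn
        have h3 : n * n ≤ 8 * C₁ ^ 2 * x * n := by
          calc n * n ≤ (C₁ * y) * (C₁ * y) := by gcongr
            _ = C₁ ^ 2 * y ^ 2 := by ring
            _ ≤ C₁ ^ 2 * (8 * n * x) := by gcongr
            _ = 8 * C₁ ^ 2 * x * n := by ring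
        have h4 : n ≤ 8 * C₁ ^ 2 * x := le_of_mul_le_mul_right h3 hnpos
        calc n ≤ 8 * C₁ ^ 2 * x := h4
          _ ≤ C * x := by gcongr

end Pool.Agent.SST
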