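import Pool.Agent.SST.ProxDefs
import Pool.Agent.SST.TwoGeneric

/-! From values of the form to proximity functions. -/

namespace Pool.Agent.SST

open scoped BigOperators

/-- the two conjugates -/
theorem exists_roots (K : Type) [Field K] [NumberField K] (hK : Module.finrank ℚ K = 2) (x : K)
    (hx : x ∉ Set.range (algebraMap ℚ K)) (f : Fin 3 → ℤ)
    (hf : (f 0 : K) * x ^ 2 + (f 1 : K) * x + (f 2 : K) = 0) (hf0 : f ≠ 0) :
    ∃ ξ₁ ξ₂ : ℂ, (∀ g : ℂ → ℝ, ∑ σ : K →+* ℂ, g (σ x) = g ξ₁ + g ξ₂) ∧ f 0 ≠ 0 ∧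
      (∀ z : ℂ, (f 0 : ℂ) * z ^ 2 + (f 1 : ℂ) * z + (f 2 : ℂ) = f 0 * (z - ξ₁) * (z - ξ₂)) ∧
      ξ₁ ≠ ξ₂ ∧ (∃ σ : K →+* ℂ, σ x = ξ₁) ∧ (∃ σ : K →+* ℂ, σ x = ξ₂) := by
  classical
  have h00 : f 0 ≠ 0 := by
    intro h0
    rw [h0] at hf
    simp only [Int.cast_zero, zero_mul, zero_add] at hf
    by_cases h1 : f 1 = 0
    · rw [h1] at hf
      simp only [Int.cast_zero, zero_mul, zero_add, Int.cast_eq_zero] at hf
      apply hf0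
      funext i
      fin_cases i
      · exact h0
      · exact h1
      · exact hf
    · apply hx
      have h1' : (f 1 : K) ≠ 0 := by exact_mod_cast h1
      refine ⟨-(f 2 : ℚ) / (f 1 : ℚ), ?_⟩
      rw [map_div₀, map_neg, map_intCast, map_intCast, div_eq_iff h1']
      linear_combination -hf
  have hcard : Fintype.card (K →+* ℂ) = 2 := by
    rw [NumberField.Embeddings.card, hK]
  obtain ⟨σ₁, σ₂, hne, hu⟩ : ∃ σ₁ σ₂ : K →+* ℂ, σ₁ ≠ σ₂ ∧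
      (Finset.univ : Finset (K →+* ℂ)) = {σ₁, σ₂} := by
    rw [← Finset.card_univ] at hcard
    exact Finset.card_eq_two.mp hcard
  have hgen : IntermediateField.adjoin ℚ {x} = (⊤ : IntermediateField ℚ K) := by
    have hdvd : Module.finrank ℚ (IntermediateField.adjoin ℚ {x}) ∣ 2 := by
      rw [← hK]
      exact ⟨_, (Module.finrank_mul_finrank ℚ (IntermediateField.adjoin ℚ {x}) K).symm⟩
    rcases (Nat.dvd_prime Nat.prime_two).mp hdvd with h | h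
    · exfalso
      apply hx
      have h2 := IntermediateField.finrank_eq_one_iff.mp h
      have h3 : x ∈ (⊥ : IntermediateField ℚ K) := by
        rw [← h2]
        exact IntermediateField.mem_adjoin_simple_self ℚ x
      exact IntermediateField.mem_bot.mp h3
    · exact IntermediateField.eq_of_le_of_finrank_eq le_top (by rw [h, IntermediateField.finrank_top', hK])
  have hinj : σ₁ x ≠ σ₂ x := by
    intro h
    apply hne
    have h1 : ∀ y ∈ IntermediateField.adjoin ℚ {x}, σ₁ y = σ₂ y := by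
      intro y hy
      induction hy using IntermediateField.adjoin_induction with
      | mem z hz =>
        rw [Set.mem_singleton_iff] at hz
        rw [hz, h]
      | algebraMap q => simp
      | add a b _ _ ha hb => rw [map_add, map_add, ha, hb]
      | inv a _ ha => rw [map_inv₀, map_inv₀, ha]
      | mul a b _ _ ha hb => rw [map_mul, map_mul, ha, hb]
    ext y
    exact h1 y (by rw [hgen]; trivial)
  have hroot : ∀ σ : K →+* ℂ, (f 0 : ℂ) * (σ x) ^ 2 + (f 1 : ℂ) * σ x + (f 2 : ℂ) = 0 := by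
    intro σ
    have := congrArg σ hf
    simpa using this
  have h1 := hroot σ₁
  have h2 := hroot σ₂
  have hsub : σ₁ x - σ₂ x ≠ 0 := sub_ne_zero.mpr hinj
  have hs : (f 0 : ℂ) * (σ₁ x + σ₂ x) + f 1 = 0 := by
    have h3 : (σ₁ x - σ₂ x) * ((f 0 : ℂ) * (σ₁ x + σ₂ x) + f 1) = 0 := by
      linear_combination h1 - h2
    exact (mul_eq_zero.mp h3).resolve_left hsub
  refine ⟨σ₁ x, σ₂ x, ?_, h00, ?_, hinj, ⟨σ₁, rfl⟩, ⟨σ₂, rfl⟩⟩
  · intro g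
    rw [hu, Finset.sum_pair hne]
  · intro z
    linear_combination (z - σ₁ x) * hs + h1

lemma root_bound (f : Fin 3 → ℤ) (ξ : ℂ) (h : (f 0 : ℂ) * ξ ^ 2 + (f 1 : ℂ) * ξ + (f 2 : ℂ) = 0) :
    |(f 0 : ℝ)| * ‖ξ‖ ≤ 2 * maxq f := by
  have hH0 := abs_le_maxq f 0
  have hH1 := abs_le_maxq f 1
  have hH2 := abs_le_maxq f 2
  have h0 : 0 ≤ maxq f := (abs_nonneg _).trans hH0
  rcases le_or_gt ‖ξ‖ 1 with h1 | h1
  · nlinarith [abs_nonneg (f 0 : ℝ), norm_nonneg ξ]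
  · have h2 : (f 0 : ℂ) * ξ ^ 2 = -((f 1 : ℂ) * ξ + (f 2 : ℂ)) := by linear_combination h
    have h3 := congrArg norm h2
    rw [norm_neg, norm_mul, norm_pow, Complex.norm_intCast] at h3
    have h4 := norm_add_le ((f 1 : ℂ) * ξ) (f 2 : ℂ)
    rw [norm_mul, Complex.norm_intCast, Complex.norm_intCast] at h4
    have h5 : |(f 0 : ℝ)| * ‖ξ‖ ^ 2 ≤ maxq f * ‖ξ‖ + maxq f := by
      rw [h3]
      refine h4.trans ?_
      gcongr
    have h6 : |(f 0 : ℝ)| * ‖ξ‖ ^ 2 ≤ (2 * maxq f) * ‖ξ‖ := by nlinarith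
    have h7 : (|(f 0 : ℝ)| * ‖ξ‖) * ‖ξ‖ ≤ (2 * maxq f) * ‖ξ‖ := by nlinarith
    exact le_of_mul_le_mul_right h7 (by linarith)

lemma mahler_bound (f : Fin 3 → ℤ) (ξ₁ ξ₂ : ℂ)
    (h : ∀ z : ℂ, (f 0 : ℂ) * z ^ 2 + (f 1 : ℂ) * z + (f 2 : ℂ) = f 0 * (z - ξ₁) * (z - ξ₂)) :
    |(f 0 : ℝ)| * Real.sqrt (1 + ‖ξ₁‖ ^ 2) * Real.sqrt (1 + ‖ξ₂‖ ^ 2) ≤ 4 * maxq f := by
  have hH0 := abs_le_maxq f 0
  have hH2 := abs_le_maxq f 2
  have h0 : 0 ≤ maxq f := (abs_nonneg _).trans hH0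
  have h1 := root_bound f ξ₁ (by rw [h]; ring)
  have h2 := root_bound f ξ₂ (by rw [h]; ring)
  have h3 : |(f 0 : ℝ)| * (‖ξ₁‖ * ‖ξ₂‖) = |(f 2 : ℝ)| := by
    have h4 := congrArg norm (h 0)
    simp only [ne_eq, OfNat.ofNat_ne_zero, not_false_eq_true, zero_pow, mul_zero, zero_add,
      zero_sub, norm_mul, norm_neg, Complex.norm_intCast] at h4
    rw [h4]
    ring
  refine abs_le_of_sq_le_sq' ?_ (by positivity) |>.2
  rw [mul_pow, mul_pow, Real.sq_sqrt (by positivity), Real.sq_sqrt (by positivity)]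
  have e1 : |(f 0 : ℝ)| ^ 2 * (1 + ‖ξ₁‖ ^ 2) * (1 + ‖ξ₂‖ ^ 2) =
      |(f 0 : ℝ)| ^ 2 + (|(f 0 : ℝ)| * ‖ξ₁‖) ^ 2 + (|(f 0 : ℝ)| * ‖ξ₂‖) ^ 2 +
        (|(f 0 : ℝ)| * (‖ξ₁‖ * ‖ξ₂‖)) ^ 2 := by ring
  rw [e1, h3]
  have e2 : |(f 0 : ℝ)| ^ 2 ≤ maxq f ^ 2 := by gcongr
  have e3 : |(f 2 : ℝ)| ^ 2 ≤ maxq f ^ 2 := by gcongr
  have e4 : (|(f 0 : ℝ)| * ‖ξ₁‖) ^ 2 ≤ (2 * maxq f) ^ 2 := by gcongr
  have e5 : (|(f 0 : ℝ)| * ‖ξ₂‖) ^ 2 ≤ (2 * maxq f) ^ 2 := by gcongr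
  nlinarith [sq_nonneg (maxq f)]

/-- the values of the form and the chordal distances of its roots -/
lemma chord_sum (α : OnePoint ℂ) : ∃ Cα : ℝ, ∀ (f : Fin 3 → ℤ) (ξ₁ ξ₂ : ℂ), f 0 ≠ 0 →
    (∀ z : ℂ, (f 0 : ℂ) * z ^ 2 + (f 1 : ℂ) * z + (f 2 : ℂ) = f 0 * (z - ξ₁) * (z - ξ₂)) →
    evq f α ≠ 0 → -Real.log (chord ξ₁ α) + -Real.log (chord ξ₂ α) ≤
      Cα + (Real.log (maxq f) - Real.log ‖evq f α‖) := by
  have key : ∃ c : ℝ, 0 < c ∧ ∀ (f : Fin 3 → ℤ) (ξ₁ ξ₂ : ℂ), f 0 ≠ 0 →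
    (∀ z : ℂ, (f 0 : ℂ) * z ^ 2 + (f 1 : ℂ) * z + (f 2 : ℂ) = f 0 * (z - ξ₁) * (z - ξ₂)) →
      chord ξ₁ α * chord ξ₂ α * (|(f 0 : ℝ)| * Real.sqrt (1 + ‖ξ₁‖ ^ 2) *
        Real.sqrt (1 + ‖ξ₂‖ ^ 2)) * c = ‖evq f α‖ := by
    rcases α with _ | w
    · refine ⟨1, one_pos, fun f ξ₁ ξ₂ h0 h => ?_⟩
      have h1 : 0 < Real.sqrt (1 + ‖ξ₁‖ ^ 2) := Real.sqrt_pos.mpr (by positivity)
      have h2 : 0 < Real.sqrt (1 + ‖ξ₂‖ ^ 2) := Real.sqrt_pos.mpr (by positivity)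
      change 1 / Real.sqrt (1 + ‖ξ₁‖ ^ 2) * (1 / Real.sqrt (1 + ‖ξ₂‖ ^ 2)) *
        (|(f 0 : ℝ)| * Real.sqrt (1 + ‖ξ₁‖ ^ 2) * Real.sqrt (1 + ‖ξ₂‖ ^ 2)) * 1 = ‖(f 0 : ℂ)‖
      rw [Complex.norm_intCast]
      field_simp
    · refine ⟨1 + ‖w‖ ^ 2, by positivity, fun f ξ₁ ξ₂ h0 h => ?_⟩
      have h1 : 0 < Real.sqrt (1 + ‖ξ₁‖ ^ 2) := Real.sqrt_pos.mpr (by positivity)
      have h2 : 0 < Real.sqrt (1 + ‖ξ₂‖ ^ 2) := Real.sqrt_pos.mpr (by positivity)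
      have h3 : 0 < Real.sqrt (1 + ‖w‖ ^ 2) := Real.sqrt_pos.mpr (by positivity)
      have h4 : Real.sqrt (1 + ‖w‖ ^ 2) ^ 2 = 1 + ‖w‖ ^ 2 := Real.sq_sqrt (by positivity)
      change ‖ξ₁ - w‖ / (Real.sqrt (1 + ‖ξ₁‖ ^ 2) * Real.sqrt (1 + ‖w‖ ^ 2)) *
        (‖ξ₂ - w‖ / (Real.sqrt (1 + ‖ξ₂‖ ^ 2) * Real.sqrt (1 + ‖w‖ ^ 2))) *
        (|(f 0 : ℝ)| * Real.sqrt (1 + ‖ξ₁‖ ^ 2) * Real.sqrt (1 + ‖ξ₂‖ ^ 2)) * (1 + ‖w‖ ^ 2) =
        ‖(f 0 : ℂ) * w ^ 2 + (f 1 : ℂ) * w + (f 2 : ℂ)‖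
      rw [h w, norm_mul, norm_mul, Complex.norm_intCast, norm_sub_rev w ξ₁, norm_sub_rev w ξ₂]
      field_simp
      rw [h4]
      try ring
  obtain ⟨c, hc, hkey⟩ := key
  refine ⟨Real.log 4 + Real.log c, fun f ξ₁ ξ₂ h0 h hev => ?_⟩
  have h1 := hkey f ξ₁ ξ₂ h0 h
  have hM := mahler_bound f ξ₁ ξ₂ h
  set M := |(f 0 : ℝ)| * Real.sqrt (1 + ‖ξ₁‖ ^ 2) * Real.sqrt (1 + ‖ξ₂‖ ^ 2) with hMdef
  have hM0 : 0 < M := by
    have h1 : 0 < Real.sqrt (1 + ‖ξ₁‖ ^ 2) := Real.sqrt_pos.mpr (by positivity)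
    have h2 : 0 < Real.sqrt (1 + ‖ξ₂‖ ^ 2) := Real.sqrt_pos.mpr (by positivity)
    have h3 : 0 < |(f 0 : ℝ)| := abs_pos.mpr (by exact_mod_cast h0)
    positivity
  have hev0 : ‖evq f α‖ ≠ 0 := norm_ne_zero_iff.mpr hev
  have hc1 : chord ξ₁ α ≠ 0 := by
    intro hz
    rw [hz, zero_mul, zero_mul, zero_mul] at h1
    exact hev0 h1.symm
  have hc2 : chord ξ₂ α ≠ 0 := by
    intro hz
    rw [hz, mul_zero, zero_mul, zero_mul] at h1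
    exact hev0 h1.symm
  have h2 := congrArg Real.log h1
  rw [Real.log_mul (mul_ne_zero (mul_ne_zero hc1 hc2) hM0.ne') hc.ne',
    Real.log_mul (mul_ne_zero hc1 hc2) hM0.ne', Real.log_mul hc1 hc2] at h2
  have h3 := Real.log_le_log hM0 hM
  have hmax : 0 < maxq f := by
    have := abs_le_maxq f 0
    have h3 : 0 < |(f 0 : ℝ)| := abs_pos.mpr (by exact_mod_cast h0)
    linarith
  rw [Real.log_mul (by norm_num) hmax.ne'] at h3
  linarith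

/-- three values determine the form -/
lemma three_points {α β γ : OnePoint ℂ} (h1 : α ≠ β) (h2 : α ≠ γ) (h3 : β ≠ γ) :
    ∃ C : ℝ, 0 < C ∧ ∀ f : Fin 3 → ℤ, maxq f ≤
      C * max ‖evq f α‖ (max ‖evq f β‖ ‖evq f γ‖) := by
  classical
  let V : Matrix (Fin 3) (Fin 3) ℂ := Matrix.of ![evRow α, evRow β, evRow γ]
  have hdet : V.det ≠ 0 := by
    rw [Matrix.det_fin_three]
    rcases α with _ | a <;> rcases β with _ | b <;> rcases γ with _ | c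
    · exact absurd rfl h1
    · exact absurd rfl h1
    · exact absurd rfl h2
    · have hbc : b ≠ c := fun h => h3 (by rw [h])
      change ((1 : ℂ) * b * 1 - 1 * 1 * c - 0 * b ^ 2 * 1 + 0 * 1 * c ^ 2 + 0 * b ^ 2 * c -
        0 * b * c ^ 2) ≠ 0
      intro h
      apply hbc
      linear_combination h
    · exact absurd rfl h3
    · have hac : a ≠ c := fun h => h2 (by rw [h])
      change (a ^ 2 * 0 * 1 - a ^ 2 * 0 * c - a * 1 * 1 + a * 0 * c ^ 2 + 1 * 1 * c -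
        1 * 0 * c ^ 2) ≠ 0
      intro h
      apply hac
      linear_combination -h
    · have hab : a ≠ b := fun h => h1 (by rw [h])
      change (a ^ 2 * b * 0 - a ^ 2 * 1 * 0 - a * b ^ 2 * 0 + a * 1 * 1 + 1 * b ^ 2 * 0 -
        1 * b * 1) ≠ 0
      intro h
      apply hab
      linear_combination h
    · have hab : a ≠ b := fun h => h1 (by rw [h])
      have hac : a ≠ c := fun h => h2 (by rw [h])
      have hbc : b ≠ c := fun h => h3 (by rw [h])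
      change (a ^ 2 * b * 1 - a ^ 2 * 1 * c - a * b ^ 2 * 1 + a * 1 * c ^ 2 + 1 * b ^ 2 * c -
        1 * b * c ^ 2) ≠ 0
      have : (a ^ 2 * b * 1 - a ^ 2 * 1 * c - a * b ^ 2 * 1 + a * 1 * c ^ 2 + 1 * b ^ 2 * c -
        1 * b * c ^ 2) = (a - b) * (a - c) * (b - c) := by ring
      rw [this]
      exact mul_ne_zero (mul_ne_zero (sub_ne_zero.mpr hab) (sub_ne_zero.mpr hac))
        (sub_ne_zero.mpr hbc)
  refine ⟨1 + ∑ i, ∑ j, ‖V⁻¹ i j‖, by positivity, fun f => ?_⟩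
  set m := max ‖evq f α‖ (max ‖evq f β‖ ‖evq f γ‖) with hm
  have hm0 : 0 ≤ m := (norm_nonneg _).trans (le_max_left _ _)
  have hV : ∀ i, ‖V.mulVec (fun j => (f j : ℂ)) i‖ ≤ m := by
    intro i
    fin_cases i
    · have : V.mulVec (fun j => (f j : ℂ)) 0 = evq f α := evRow_sum f α
      change ‖V.mulVec (fun j => (f j : ℂ)) 0‖ ≤ m
      rw [this]
      exact le_max_left _ _
    · have : V.mulVec (fun j => (f j : ℂ)) 1 = evq f β := evRow_sum f β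
      change ‖V.mulVec (fun j => (f j : ℂ)) 1‖ ≤ m
      rw [this]
      exact (le_max_left _ _).trans (le_max_right _ _)
    · have : V.mulVec (fun j => (f j : ℂ)) 2 = evq f γ := evRow_sum f γ
      change ‖V.mulVec (fun j => (f j : ℂ)) 2‖ ≤ m
      rw [this]
      exact (le_max_right _ _).trans (le_max_right _ _)
  have hf : ∀ i, |(f i : ℝ)| ≤ (1 + ∑ i, ∑ j, ‖V⁻¹ i j‖) * m := by
    intro i
    have h1 : V⁻¹.mulVec (V.mulVec (fun j => (f j : ℂ))) = fun j => (f j : ℂ) := by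
      rw [Matrix.mulVec_mulVec, Matrix.nonsing_inv_mul V (isUnit_iff_ne_zero.mpr hdet),
        Matrix.one_mulVec]
    have h2 : (f i : ℂ) = ∑ j, V⁻¹ i j * V.mulVec (fun j => (f j : ℂ)) j := by
      have := congrFun h1 i
      exact this.symm
    have h3 : |(f i : ℝ)| = ‖(f i : ℂ)‖ := (Complex.norm_intCast _).symm
    rw [h3, h2]
    calc ‖∑ j, V⁻¹ i j * V.mulVec (fun j => (f j : ℂ)) j‖ ≤ ∑ j, ‖V⁻¹ i j‖ * m := by
          refine (norm_sum_le _ _).trans (Finset.sum_le_sum fun j _ => ?_)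
          rw [norm_mul]
          exact mul_le_mul_of_nonneg_left (hV j) (norm_nonneg _)
      _ = (∑ j, ‖V⁻¹ i j‖) * m := by rw [Finset.sum_mul]
      _ ≤ (1 + ∑ i, ∑ j, ‖V⁻¹ i j‖) * m := by
          refine mul_le_mul_of_nonneg_right ?_ hm0
          have : ∑ j, ‖V⁻¹ i j‖ ≤ ∑ i, ∑ j, ‖V⁻¹ i j‖ :=
            Finset.single_le_sum (f := fun i => ∑ j, ‖V⁻¹ i j‖)
              (fun i _ => Finset.sum_nonneg fun j _ => norm_nonneg _) (Finset.mem_univ i)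
          linarith
  rw [maxq]
  exact max_le (hf 0) (max_le (hf 1) (hf 2))

end Pool.Agent.SST
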