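import Pool.Agent.SST.VeroDefs

/-! The p-adic subspace theorem for forms over `ℂ` and `ℂ_p` follows from the real and `ℚ_p`
case together with the decomposition of algebraic numbers of `ℂ_p` over `ℚ_p`. -/

open MvPolynomial

namespace Pool.Agent.SST

/-- statement of `schlickewei` -/
def SchlickStatement : Prop :=
  ∀ {T : Type} [Fintype T] [DecidableEq T] (p : T → ℕ) [∀ t, Fact (p t).Prime]
    (_ : Function.Injective p) {m : ℕ} (_ : 1 ≤ m)
    (L : Matrix (Fin (m + 1)) (Fin (m + 1)) ℝ) (_ : ∀ i j, IsAlgebraic ℚ (L i j))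
    (_ : L.det ≠ 0) (M : ∀ t, Matrix (Fin (m + 1)) (Fin (m + 1)) ℚ_[p t])
    (_ : ∀ t i j, IsAlgebraic ℚ (M t i j)) (_ : ∀ t, (M t).det ≠ 0) (δ : ℝ) (_ : 0 < δ),
    ∃ F : Finset (Fin (m + 1) → ℤ), 0 ∉ F ∧ ∀ (x : Fin (m + 1) → ℤ) (H : ℝ), 1 ≤ H →
      (∀ i, |((x i : ℤ) : ℝ)| ≤ H) →
      (∏ i, |L.mulVec (fun j => (x j : ℝ)) i|) *
        ∏ t, ∏ i, ‖(M t).mulVec (fun j => ((x j : ℤ) : ℚ_[p t])) i‖ ≤ H ^ (-δ) →
      ∃ b ∈ F, ∑ i, b i * x i = 0

/-- statement of `padic_decomp` -/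
def PadicDecompStatement : Prop :=
  ∀ (p : ℕ) [Fact p.Prime] {k : ℕ} (c : Fin k → ℂ_[p])
    (_ : ∀ i, IsAlgebraic ℚ (c i)),
    ∃ (g : ℕ) (ω : Fin g → ℂ_[p]) (m : Fin k → Fin g → ℚ_[p]) (C : ℝ), 0 < C ∧
      (∀ i, c i = ∑ t, algebraMap ℚ_[p] ℂ_[p] (m i t) * ω t) ∧
      (∀ i t, IsAlgebraic ℚ (m i t)) ∧
      ∀ (y : Fin g → ℚ_[p]) (t : Fin g), ‖y t‖ ≤ C * ‖∑ t, algebraMap ℚ_[p] ℂ_[p] (y t) * ω t‖

private lemma sx_alg_conj {z : ℂ} (h : IsAlgebraic ℚ z) :
    IsAlgebraic ℚ ((starRingEnd ℂ) z) := by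
  have h2 : IsAlgebraic ℚ (((Complex.conjAe : ℂ →ₐ[ℝ] ℂ).restrictScalars ℚ) z) :=
    h.algHom _
  exact h2

private lemma sx_alg_re {z : ℂ} (h : IsAlgebraic ℚ z) : IsAlgebraic ℚ z.re := by
  have h1 : IsAlgebraic ℚ (z + (starRingEnd ℂ) z) := h.add (sx_alg_conj h)
  rw [Complex.add_conj] at h1
  have h2 : IsAlgebraic ℚ ((2 * z.re : ℝ)) := by
    have : IsAlgebraic ℚ (algebraMap ℝ ℂ (2 * z.re)) := by simpa using h1
    exact (isAlgebraic_algebraMap_iff (algebraMap ℝ ℂ).injective).1 this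
  have h3 : IsAlgebraic ℚ ((1 / 2 : ℚ) • (2 * z.re : ℝ)) := h2.smul _
  have h4 : ((1 / 2 : ℚ) • (2 * z.re : ℝ)) = z.re := by
    rw [Rat.smul_def]
    push_cast
    ring
  rwa [h4] at h3

private lemma sx_alg_im {z : ℂ} (h : IsAlgebraic ℚ z) : IsAlgebraic ℚ z.im := by
  have hI : IsAlgebraic ℚ Complex.I := by
    refine ⟨Polynomial.X ^ 2 + 1, ?_, ?_⟩
    · intro h0
      have := congrArg (Polynomial.eval 0) h0
      simp at this
    · simp
  have h1 : IsAlgebraic ℚ (z * (-Complex.I)) := h.mul hI.neg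
  have h2 := sx_alg_re h1
  simpa using h2

/-- real rows for a complex matrix -/
theorem real_rows {n : ℕ} (L : Matrix (Fin n) (Fin n) ℂ)
    (hLalg : ∀ i j, IsAlgebraic ℚ (L i j)) (hL : L.det ≠ 0) :
    ∃ D : Matrix (Fin n) (Fin n) ℝ, D.det ≠ 0 ∧ (∀ i j, IsAlgebraic ℚ (D i j)) ∧
      ∀ (x : Fin n → ℤ) (i : Fin n), |D.mulVec (fun j => (x j : ℝ)) i| ≤
        ‖L.mulVec (fun j => ((x j : ℤ) : ℂ)) i‖ := by
  classical
  let D : Finset (Fin n) → Matrix (Fin n) (Fin n) ℝ := fun s i j =>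
    if i ∈ s then (L i j).re else (L i j).im
  have hex : ∃ s, (D s).det ≠ 0 := by
    by_contra hcon
    push Not at hcon
    apply hL
    have h1 := (Matrix.detRowAlternating (R := ℂ) (n := Fin n)).toMultilinearMap.map_add_univ
      (fun i j => ((L i j).re : ℂ)) (fun i j => Complex.I * ((L i j).im : ℂ))
    have h2 : (fun i j => ((L i j).re : ℂ)) + (fun i j => Complex.I * ((L i j).im : ℂ)) = L := by
      funext i j
      simp only [Pi.add_apply]
      rw [mul_comm]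
      exact Complex.re_add_im (L i j)
    have h3 : L.det = ∑ s : Finset (Fin n), Matrix.det
        (s.piecewise (fun i j => ((L i j).re : ℂ)) (fun i j => Complex.I * ((L i j).im : ℂ)) :
          Matrix (Fin n) (Fin n) ℂ) := by
      rw [h2] at h1
      exact h1
    rw [h3]
    refine Finset.sum_eq_zero fun s _ => ?_
    have h4 : (s.piecewise (fun i j => ((L i j).re : ℂ))
        (fun i j => Complex.I * ((L i j).im : ℂ)) : Matrix (Fin n) (Fin n) ℂ) =
        Matrix.of fun i j => (if i ∈ s then (1 : ℂ) else Complex.I) *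
          ((D s).map (algebraMap ℝ ℂ)) i j := by
      funext i j
      rw [Matrix.of_apply, Matrix.map_apply]
      by_cases hi : i ∈ s
      · simp [Finset.piecewise, hi, D]
      · simp [Finset.piecewise, hi, D]
    rw [h4]
    refine (Matrix.det_mul_column (fun i => if i ∈ s then (1 : ℂ) else Complex.I)
      ((D s).map (algebraMap ℝ ℂ))).trans ?_
    rw [← RingHom.mapMatrix_apply, ← RingHom.map_det, hcon s, map_zero, mul_zero]
  obtain ⟨s, hs⟩ := hex
  refine ⟨D s, hs, ?_, ?_⟩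
  · intro i j
    simp only [D]
    split_ifs
    · exact sx_alg_re (hLalg i j)
    · exact sx_alg_im (hLalg i j)
  intro x i
  by_cases hi : i ∈ s
  · have : (D s).mulVec (fun j => (x j : ℝ)) i = (L.mulVec (fun j => ((x j : ℤ) : ℂ)) i).re := by
      simp only [Matrix.mulVec, dotProduct, D, hi, if_true, Complex.re_sum]
      refine Finset.sum_congr rfl fun j _ => ?_
      simp [Complex.mul_re]
    rw [this]
    exact Complex.abs_re_le_norm _
  · have : (D s).mulVec (fun j => (x j : ℝ)) i = (L.mulVec (fun j => ((x j : ℤ) : ℂ)) i).im := by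
      simp only [Matrix.mulVec, dotProduct, D, hi, if_false, Complex.im_sum]
      refine Finset.sum_congr rfl fun j _ => ?_
      simp [Complex.mul_im]
    rw [this]
    exact Complex.abs_im_le_norm _

/-- `p`-adic rows for a matrix over `ℂ_p` -/
theorem padic_rows (PD : PadicDecompStatement) (p : ℕ) [Fact p.Prime] {n : ℕ}
    (M : Matrix (Fin n) (Fin n) ℂ_[p]) (hMalg : ∀ i j, IsAlgebraic ℚ (M i j))
    (hM : M.det ≠ 0) :
    ∃ (N : Matrix (Fin n) (Fin n) ℚ_[p]) (C : ℝ), 0 < C ∧ N.det ≠ 0 ∧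
      (∀ i j, IsAlgebraic ℚ (N i j)) ∧
      ∀ (x : Fin n → ℤ) (i : Fin n), ‖N.mulVec (fun j => ((x j : ℤ) : ℚ_[p])) i‖ ≤
        C * ‖M.mulVec (fun j => ((x j : ℤ) : ℂ_[p])) i‖ := by
  classical
  obtain ⟨g, ω, m, C, hC, hc, halg, hbd⟩ := PD p (k := n * n)
    (fun a => M (finProdFinEquiv.symm a).1 (finProdFinEquiv.symm a).2)
    (fun a => hMalg _ _)
  let q : Fin n → Fin n → Fin g → ℚ_[p] := fun i j u => m (finProdFinEquiv (i, j)) u
  have hq : ∀ i j, M i j = ∑ u, algebraMap ℚ_[p] ℂ_[p] (q i j u) * ω u := by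
    intro i j
    have := hc (finProdFinEquiv (i, j))
    simpa [q] using this
  have hex : ∃ u : Fin n → Fin g, (Matrix.of fun i j => q i j (u i)).det ≠ 0 := by
    by_contra hcon
    push Not at hcon
    apply hM
    have h1 := (Matrix.detRowAlternating (R := ℂ_[p]) (n := Fin n)).toMultilinearMap.map_sum
      (fun (i : Fin n) (u : Fin g) => (fun j => algebraMap ℚ_[p] ℂ_[p] (q i j u) * ω u))
    have h2 : (fun i => ∑ u : Fin g, (fun j => algebraMap ℚ_[p] ℂ_[p] (q i j u) * ω u)) = M := by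
      funext i j
      rw [Finset.sum_apply]
      exact (hq i j).symm
    have h3 : M.det = ∑ r : Fin n → Fin g, Matrix.det
        (Matrix.of fun i j => algebraMap ℚ_[p] ℂ_[p] (q i j (r i)) * ω (r i)) := by
      rw [h2] at h1
      exact h1
    rw [h3]
    refine Finset.sum_eq_zero fun r _ => ?_
    have h4 : (Matrix.of fun i j => algebraMap ℚ_[p] ℂ_[p] (q i j (r i)) * ω (r i)) =
        Matrix.of fun i j => ω (r i) *
          ((Matrix.of fun i j => q i j (r i)).map (algebraMap ℚ_[p] ℂ_[p])) i j := by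
      funext i j
      simp [mul_comm]
    rw [h4]
    refine (Matrix.det_mul_column (fun i => ω (r i))
      ((Matrix.of fun i j => q i j (r i)).map (algebraMap ℚ_[p] ℂ_[p]))).trans ?_
    rw [← RingHom.mapMatrix_apply, ← RingHom.map_det, hcon r, map_zero, mul_zero]
  obtain ⟨u, hu⟩ := hex
  refine ⟨Matrix.of fun i j => q i j (u i), C, hC, hu, fun i j => halg _ _, ?_⟩
  intro x i
  have h5 := hbd (fun v => ∑ j, q i j v * ((x j : ℤ) : ℚ_[p])) (u i)
  have h6 : M.mulVec (fun j => ((x j : ℤ) : ℂ_[p])) i =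
      ∑ v, algebraMap ℚ_[p] ℂ_[p] (∑ j, q i j v * ((x j : ℤ) : ℚ_[p])) * ω v := by
    simp only [Matrix.mulVec, dotProduct, hq, map_sum, map_mul, map_intCast, Finset.sum_mul]
    rw [Finset.sum_comm]
    refine Finset.sum_congr rfl fun v _ => Finset.sum_congr rfl fun j _ => ?_
    ring
  rw [h6]
  exact h5

/-- a nonzero integer relation of one vector -/
theorem exists_rel {ι : Type} [Fintype ι] [DecidableEq ι] (hι : 2 ≤ Fintype.card ι)
    (x : ι → ℤ) : ∃ b : ι → ℤ, b ≠ 0 ∧ ∑ i, b i * x i = 0 := by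
  obtain ⟨i, j, hij⟩ := Fintype.exists_pair_of_one_lt_card (show 1 < Fintype.card ι by omega)
  by_cases hx : x i = 0
  · refine ⟨Pi.single i 1, ?_, ?_⟩
    · intro h
      have := congrFun h i
      simp at this
    · rw [Finset.sum_eq_single i]
      · simp [hx]
      · intro k _ hk
        simp [Pi.single_eq_of_ne hk]
      · simp
  · refine ⟨Pi.single i (x j) - Pi.single j (x i), ?_, ?_⟩
    · intro h
      have := congrFun h j
      simp [Pi.single_eq_of_ne hij.symm] at this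
      exact hx this
    · simp only [Pi.sub_apply, sub_mul, Finset.sum_sub_distrib]
      rw [Finset.sum_eq_single i, Finset.sum_eq_single j]
      · simp [mul_comm]
      · intro k _ hk
        simp [Pi.single_eq_of_ne hk]
      · simp
      · intro k _ hk
        simp [Pi.single_eq_of_ne hk]
      · simp

/-- the case of index type `Fin (m+1)` -/
theorem schlickeweiC_fin (SCH : SchlickStatement) (PD : PadicDecompStatement)
    {T : Type} [Fintype T] [DecidableEq T] (p : T → ℕ) [∀ t, Fact (p t).Prime]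
    (hp : Function.Injective p) {m : ℕ} (hm : 1 ≤ m)
    (L : Matrix (Fin (m + 1)) (Fin (m + 1)) ℂ) (hLalg : ∀ i j, IsAlgebraic ℚ (L i j))
    (hL : L.det ≠ 0) (M : ∀ t, Matrix (Fin (m + 1)) (Fin (m + 1)) ℂ_[p t])
    (hMalg : ∀ t i j, IsAlgebraic ℚ (M t i j)) (hM : ∀ t, (M t).det ≠ 0) (δ : ℝ) (hδ : 0 < δ) :
    ∃ F : Finset (Fin (m + 1) → ℤ), 0 ∉ F ∧ ∀ (x : Fin (m + 1) → ℤ) (H : ℝ), 1 ≤ H →
      (∀ i, |((x i : ℤ) : ℝ)| ≤ H) →
      (∏ i, ‖L.mulVec (fun j => ((x j : ℤ) : ℂ)) i‖) *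
        ∏ t, ∏ i, ‖(M t).mulVec (fun j => ((x j : ℤ) : ℂ_[p t])) i‖ ≤ H ^ (-δ) →
      ∃ b ∈ F, ∑ i, b i * x i = 0 := by
  classical
  obtain ⟨D, hD, hDalg, hDle⟩ := real_rows L hLalg hL
  choose N C hC hN hNalg hNle using fun t => padic_rows PD (p t) (M t) (hMalg t) (hM t)
  obtain ⟨F, hF0, hF⟩ := SCH p hp hm D hDalg hD N hNalg hN (δ / 2) (by positivity)
  set K : ℝ := ∏ t, C t ^ (m + 1) with hK
  have hK0 : 0 < K := Finset.prod_pos fun t _ => pow_pos (hC t) _
  set H0 : ℝ := (max 1 K) ^ (2 / δ) with hH0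
  have h1K : (1 : ℝ) ≤ max 1 K := le_max_left _ _
  choose b hb0 hb using fun x : Fin (m + 1) → ℤ => exists_rel
    (show 2 ≤ Fintype.card (Fin (m + 1)) by simp; omega) x
  set n : ℕ := ⌈H0⌉₊ with hn
  set S : Finset (Fin (m + 1) → ℤ) := Fintype.piFinset fun _ => Finset.Icc (-(n : ℤ)) n with hS
  refine ⟨F ∪ S.image b, ?_, ?_⟩
  · rw [Finset.mem_union, not_or]
    refine ⟨hF0, ?_⟩
    rw [Finset.mem_image]
    rintro ⟨x, -, hx⟩
    exact hb0 x hx
  intro x H hH hx hprod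
  by_cases hH1 : H0 ≤ H
  · suffices h10 : (∏ i, |D.mulVec (fun j => (x j : ℝ)) i|) *
        ∏ t, ∏ i, ‖(N t).mulVec (fun j => ((x j : ℤ) : ℚ_[p t])) i‖ ≤ H ^ (-(δ / 2)) by
      obtain ⟨c, hc, hc0⟩ := hF x H hH hx h10
      exact ⟨c, Finset.mem_union_left _ hc, hc0⟩
    have hHpos : 0 < H := by linarith
    have hKH : K ≤ H ^ (δ / 2) := by
      calc K ≤ max 1 K := le_max_right _ _
        _ = H0 ^ (δ / 2) := by
            rw [hH0, ← Real.rpow_mul (by linarith)]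
            have : 2 / δ * (δ / 2) = 1 := by field_simp
            rw [this, Real.rpow_one]
        _ ≤ H ^ (δ / 2) := Real.rpow_le_rpow (by positivity) hH1 (by positivity)
    have h7 : (∏ i, |D.mulVec (fun j => (x j : ℝ)) i|) ≤
        ∏ i, ‖L.mulVec (fun j => ((x j : ℤ) : ℂ)) i‖ :=
      Finset.prod_le_prod (fun i _ => abs_nonneg _) fun i _ => hDle x i
    have h8 : (∏ t, ∏ i, ‖(N t).mulVec (fun j => ((x j : ℤ) : ℚ_[p t])) i‖) ≤
        K * ∏ t, ∏ i, ‖(M t).mulVec (fun j => ((x j : ℤ) : ℂ_[p t])) i‖ := by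
      rw [hK, ← Finset.prod_mul_distrib]
      refine Finset.prod_le_prod (fun t _ => Finset.prod_nonneg fun i _ => norm_nonneg _)
        fun t _ => ?_
      calc (∏ i, ‖(N t).mulVec (fun j => ((x j : ℤ) : ℚ_[p t])) i‖)
          ≤ ∏ i, (C t * ‖(M t).mulVec (fun j => ((x j : ℤ) : ℂ_[p t])) i‖) :=
            Finset.prod_le_prod (fun i _ => norm_nonneg _) fun i _ => hNle t x i
        _ = _ := by
            rw [Finset.prod_mul_distrib]
            simp
    calc (∏ i, |D.mulVec (fun j => (x j : ℝ)) i|) *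
          ∏ t, ∏ i, ‖(N t).mulVec (fun j => ((x j : ℤ) : ℚ_[p t])) i‖
        ≤ (∏ i, ‖L.mulVec (fun j => ((x j : ℤ) : ℂ)) i‖) *
          (K * ∏ t, ∏ i, ‖(M t).mulVec (fun j => ((x j : ℤ) : ℂ_[p t])) i‖) :=
          mul_le_mul h7 h8 (Finset.prod_nonneg fun t _ => Finset.prod_nonneg fun i _ =>
            norm_nonneg _) (Finset.prod_nonneg fun i _ => norm_nonneg _)
      _ = K * ((∏ i, ‖L.mulVec (fun j => ((x j : ℤ) : ℂ)) i‖) *
          ∏ t, ∏ i, ‖(M t).mulVec (fun j => ((x j : ℤ) : ℂ_[p t])) i‖) := by ring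
      _ ≤ H ^ (δ / 2) * H ^ (-δ) := by
          refine mul_le_mul hKH hprod ?_ (by positivity)
          exact mul_nonneg (Finset.prod_nonneg fun i _ => norm_nonneg _)
            (Finset.prod_nonneg fun t _ => Finset.prod_nonneg fun i _ => norm_nonneg _)
      _ = H ^ (-(δ / 2)) := by
          rw [← Real.rpow_add hHpos]
          congr 1
          ring
  · refine ⟨b x, Finset.mem_union_right _ (Finset.mem_image_of_mem _ ?_), hb x⟩
    rw [hS, Fintype.mem_piFinset]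
    intro i
    rw [Finset.mem_Icc, ← abs_le]
    have h9 : |((x i : ℤ) : ℝ)| ≤ n := by
      calc |((x i : ℤ) : ℝ)| ≤ H := hx i
        _ ≤ H0 := by linarith
        _ ≤ n := Nat.le_ceil _
    exact_mod_cast h9

theorem schlickeweiC_of (SCH : SchlickStatement) (PD : PadicDecompStatement)
    {ι : Type} [Fintype ι] [DecidableEq ι] (hι : 2 ≤ Fintype.card ι)
    {T : Type} [Fintype T] [DecidableEq T] (p : T → ℕ) [∀ t, Fact (p t).Prime]
    (hp : Function.Injective p)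
    (L : Matrix ι ι ℂ) (hLalg : ∀ i j, IsAlgebraic ℚ (L i j))
    (hL : L.det ≠ 0) (M : ∀ t, Matrix ι ι ℂ_[p t])
    (hMalg : ∀ t i j, IsAlgebraic ℚ (M t i j)) (hM : ∀ t, (M t).det ≠ 0) (δ : ℝ) (hδ : 0 < δ) :
    ∃ F : Finset (ι → ℤ), 0 ∉ F ∧ ∀ (x : ι → ℤ) (H : ℝ), 1 ≤ H →
      (∀ i, |((x i : ℤ) : ℝ)| ≤ H) →
      (∏ i, ‖L.mulVec (fun j => ((x j : ℤ) : ℂ)) i‖) *
        ∏ t, ∏ i, ‖(M t).mulVec (fun j => ((x j : ℤ) : ℂ_[p t])) i‖ ≤ H ^ (-δ) →
      ∃ b ∈ F, ∑ i, b i * x i = 0 := by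
  classical
  obtain ⟨m, hm⟩ : ∃ m, Fintype.card ι = m + 1 := ⟨Fintype.card ι - 1, by omega⟩
  have e : ι ≃ Fin (m + 1) := Fintype.equivFinOfCardEq hm
  obtain ⟨F, hF0, hF⟩ := schlickeweiC_fin SCH PD p hp (m := m) (by omega)
    (Matrix.reindex e e L) (fun i j => hLalg _ _) (by rwa [Matrix.det_reindex_self])
    (fun t => Matrix.reindex e e (M t)) (fun t i j => hMalg t _ _)
    (fun t => by rw [Matrix.det_reindex_self]; exact hM t) δ hδ
  refine ⟨F.image fun b i => b (e i), ?_, ?_⟩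
  · rw [Finset.mem_image]
    rintro ⟨b, hb, hb0⟩
    apply hF0
    have : b = 0 := by
      funext i
      have := congrFun hb0 (e.symm i)
      simpa using this
    rwa [← this]
  intro x H hH hx hprod
  have key : ∀ {R : Type} [Field R] (A : Matrix ι ι R) (i : Fin (m + 1)),
      (Matrix.reindex e e A).mulVec (fun j => ((x (e.symm j) : ℤ) : R)) i =
        A.mulVec (fun j => ((x j : ℤ) : R)) (e.symm i) := by
    intro R _ A i
    simp only [Matrix.mulVec, dotProduct, Matrix.reindex_apply, Matrix.submatrix_apply]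
    exact Equiv.sum_comp e.symm fun j => A (e.symm i) j * ((x j : ℤ) : R)
  obtain ⟨b, hb, hb0⟩ := hF (fun j => x (e.symm j)) H hH (fun i => hx _) (by
    refine le_trans (le_of_eq ?_) hprod
    congr 1
    · refine (Finset.prod_congr rfl fun i _ => by rw [key L i]).trans ?_
      exact Equiv.prod_comp e.symm fun i => ‖L.mulVec (fun j => ((x j : ℤ) : ℂ)) i‖
    · refine Finset.prod_congr rfl fun t _ => ?_
      refine (Finset.prod_congr rfl fun i _ => by rw [key (M t) i]).trans ?_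
      exact Equiv.prod_comp e.symm fun i => ‖(M t).mulVec (fun j => ((x j : ℤ) : ℂ_[p t])) i‖)
  refine ⟨fun i => b (e i), Finset.mem_image_of_mem _ hb, ?_⟩
  rw [← hb0]
  exact (Equiv.sum_comp e fun j => b j * x (e.symm j)).symm.trans
    (Finset.sum_congr rfl fun i _ => by simp) |>.symm

end Pool.Agent.SST
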