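import Pool.Agent.SST.Schlick
import Pool.Agent.SST.PadicDecomp
import Pool.Agent.SST.SchlickCAux

/-! The p-adic subspace theorem for forms over `ℂ` and `ℂ_p`. -/

open MvPolynomial

namespace Pool.Agent.SST

theorem schlickeweiC {ι : Type} [Fintype ι] [DecidableEq ι] (hι : 2 ≤ Fintype.card ι)
    {T : Type} [Fintype T] [DecidableEq T] (p : T → ℕ) [∀ t, Fact (p t).Prime]
    (hp : Function.Injective p)
    (L : Matrix ι ι ℂ) (hLalg : ∀ i j, IsAlgebraic ℚ (L i j))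
    (hL : L.det ≠ 0) (M : ∀ t, Matrix ι ι ℂ_[p t])
    (hMalg : ∀ t i j, IsAlgebraic ℚ (M t i j)) (hM : ∀ t, (M t).det ≠ 0) (δ : ℝ) (hδ : 0 < δ) :
    ∃ F : Finset (ι → ℤ), 0 ∉ F ∧ ∀ (x : ι → ℤ) (H : ℝ), 1 ≤ H →
      (∀ i, |((x i : ℤ) : ℝ)| ≤ H) →
      (∏ i, ‖L.mulVec (fun j => ((x j : ℤ) : ℂ)) i‖) *
        ∏ t, ∏ i, ‖(M t).mulVec (fun j => ((x j : ℤ) : ℂ_[p t])) i‖ ≤ H ^ (-δ) →
      ∃ b ∈ F, ∑ i, b i * x i = 0 :=
  schlickeweiC_of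
    (fun p _ hp _ hm L hLalg hL M hMalg hM δ hδ =>
      schlickewei p hp hm L hLalg hL M hMalg hM δ hδ)
    (fun p _ _ c hc => padic_decomp p c hc)
    hι p hp L hLalg hL M hMalg hM δ hδ

end Pool.Agent.SST
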