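import Pool.Agent.SST.VeroDefs

/-! The matrix of coefficients of the adapted basis of the forms of degree `N`. -/

open MvPolynomial

namespace Pool.Agent.SST

/-- the exponent of an index -/
noncomputable def idxExp {N : ℕ} (ν : Idx N) : Fin 3 →₀ ℕ :=
  Finsupp.equivFunOnFinite.symm fun i => (ν.1 i : ℕ)

theorem idxExp_apply {N : ℕ} (ν : Idx N) (i : Fin 3) : idxExp ν i = (ν.1 i : ℕ) := rfl

theorem idxExp_injective {N : ℕ} : Function.Injective (idxExp (N := N)) := by
  intro μ ν h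
  apply Subtype.ext
  funext i
  apply Fin.ext
  have := DFunLike.congr_fun h i
  simpa [idxExp_apply] using this

theorem idxExp_degree {N : ℕ} (ν : Idx N) : (idxExp ν).degree = N := by
  rw [Finsupp.degree_eq_sum]
  exact ν.2

theorem exists_idx {N : ℕ} (d : Fin 3 →₀ ℕ) (hd : d.degree = N) : ∃ ν : Idx N, idxExp ν = d := by
  rw [Finsupp.degree_eq_sum] at hd
  refine ⟨⟨fun i => ⟨d i, ?_⟩, ?_⟩, ?_⟩
  · have : d i ≤ ∑ j, d j := Finset.single_le_sum (fun j _ => Nat.zero_le _) (Finset.mem_univ i)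
    omega
  · simpa using hd
  · ext i
    rw [idxExp_apply]

section

variable {K : Type} [Field K]

theorem homog_eq_sum {N : ℕ} {p : MvPolynomial (Fin 3) K} (hp : p.IsHomogeneous N) :
    p = ∑ ν : Idx N, monomial (idxExp ν) (p.coeff (idxExp ν)) := by
  classical
  ext d
  rw [coeff_sum]
  by_cases hd : d.degree = N
  · obtain ⟨ν, rfl⟩ := exists_idx d hd
    rw [Finset.sum_eq_single ν]
    · rw [coeff_monomial, if_pos rfl]
    · intro μ _ hμ
      rw [coeff_monomial, if_neg]
      intro h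
      exact hμ (idxExp_injective h)
    · intro h
      exact absurd (Finset.mem_univ ν) h
  · rw [hp.coeff_eq_zero hd, Finset.sum_eq_zero]
    intro μ _
    rw [coeff_monomial, if_neg]
    rintro rfl
    exact hd (idxExp_degree μ)

theorem linp_homog (X : Fin 3 → K) : (linp X).IsHomogeneous 1 := by
  unfold linp
  exact IsHomogeneous.sum _ _ _ fun i _ => isHomogeneous_C_mul_X _ _

theorem rowPoly_homog (X Y Z : Fin 3 → K) (c : K) (N : ℕ) (μ : Idx N) :
    (rowPoly X Y Z c N μ).IsHomogeneous N := by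
  unfold rowPoly
  have h1 := (linp_homog X).pow (μ.1 0 : ℕ)
  have h2 := (linp_homog Z).pow (μ.1 2 : ℕ)
  have h3 : (linp Y ^ 2 - C c * linp X * linp Z).IsHomogeneous 2 := by
    refine IsHomogeneous.sub ((linp_homog Y).pow 2) ?_
    have := ((linp_homog X).C_mul c).mul (linp_homog Z)
    exact this
  have h4 := h3.pow ((μ.1 1 : ℕ) / 2)
  have h5 := (linp_homog Y).pow ((μ.1 1 : ℕ) % 2)
  have h := ((h1.mul h2).mul h4).mul h5
  have hN := μ.2
  rw [Fin.sum_univ_three] at hN
  convert h using 1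
  omega

theorem veroMat_apply (X Y Z : Fin 3 → K) (c : K) (N : ℕ) (μ ν : Idx N) :
    veroMat X Y Z c N μ ν = (rowPoly X Y Z c N μ).coeff (idxExp ν) := rfl

theorem eval_linp (X : Fin 3 → K) (f : Fin 3 → ℤ) :
    MvPolynomial.eval (fun i => (f i : K)) (linp X) = lval X f := by
  simp [linp, lval]

theorem veroMat_mulVec (X Y Z : Fin 3 → K) (c : K) (N : ℕ)
    (f : Fin 3 → ℤ) (μ : Idx N) :
    (veroMat X Y Z c N).mulVec (fun ν => ((vero N f ν : ℤ) : K)) μ =
      lval X f ^ (μ.1 0 : ℕ) * lval Z f ^ (μ.1 2 : ℕ) *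
        (lval Y f ^ 2 - c * lval X f * lval Z f) ^ ((μ.1 1 : ℕ) / 2) *
        lval Y f ^ ((μ.1 1 : ℕ) % 2) := by
  have h1 : MvPolynomial.eval (fun i => (f i : K)) (rowPoly X Y Z c N μ) =
      lval X f ^ (μ.1 0 : ℕ) * lval Z f ^ (μ.1 2 : ℕ) *
        (lval Y f ^ 2 - c * lval X f * lval Z f) ^ ((μ.1 1 : ℕ) / 2) *
        lval Y f ^ ((μ.1 1 : ℕ) % 2) := by
    simp only [rowPoly, map_mul, map_pow, map_sub, eval_linp, eval_C]
  rw [← h1]
  conv_rhs => rw [homog_eq_sum (rowPoly_homog X Y Z c N μ)]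
  rw [map_sum, Matrix.mulVec, dotProduct]
  refine Finset.sum_congr rfl fun ν _ => ?_
  rw [veroMat_apply, eval_monomial]
  congr 1
  rw [Finsupp.prod_fintype _ _ (fun i => pow_zero _)]
  simp [vero, idxExp_apply]

theorem veroMat_alg [CharZero K] (X Y Z : Fin 3 → K)
    (hX : ∀ i, IsAlgebraic ℚ (X i)) (hY : ∀ i, IsAlgebraic ℚ (Y i))
    (hZ : ∀ i, IsAlgebraic ℚ (Z i)) (c : K) (hc : IsAlgebraic ℚ c) (N : ℕ) (μ ν : Idx N) :
    IsAlgebraic ℚ (veroMat X Y Z c N μ ν) := by
  have key : ∀ x : K, IsAlgebraic ℚ x ↔ x ∈ algebraicClosure ℚ K := fun x =>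
    mem_algebraicClosure_iff.symm
  obtain ⟨c', hc'⟩ : ∃ c' : algebraicClosure ℚ K, algebraMap _ K c' = c := ⟨⟨c, (key _).1 hc⟩, rfl⟩
  have lift : ∀ V : Fin 3 → K, (∀ i, IsAlgebraic ℚ (V i)) → ∃ V' : Fin 3 → algebraicClosure ℚ K,
      ∀ i, algebraMap _ K (V' i) = V i := fun V hV => ⟨fun i => ⟨V i, (key _).1 (hV i)⟩, fun i => rfl⟩
  obtain ⟨X', hX'⟩ := lift X hX
  obtain ⟨Y', hY'⟩ := lift Y hY
  obtain ⟨Z', hZ'⟩ := lift Z hZ
  have hlin : ∀ (V : Fin 3 → K) (V' : Fin 3 → algebraicClosure ℚ K),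
      (∀ i, algebraMap _ K (V' i) = V i) →
      MvPolynomial.map (algebraMap (algebraicClosure ℚ K) K) (linp V') = linp V := by
    intro V V' h
    simp only [linp, map_sum, map_mul, map_C, map_X, h]
  have hrow : MvPolynomial.map (algebraMap (algebraicClosure ℚ K) K) (rowPoly X' Y' Z' c' N μ) =
      rowPoly X Y Z c N μ := by
    simp only [rowPoly, map_mul, map_pow, map_sub, hlin X X' hX', hlin Y Y' hY', hlin Z Z' hZ',
      map_C, hc']
  rw [veroMat_apply, ← hrow, coeff_map, key]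
  exact SetLike.coe_mem _

/-- the inductive step for the span -/
theorem mem_span_rows (X Y Z : Fin 3 → K) (c : K) (N : ℕ) (b : ℕ) :
    ∀ a e j : ℕ, a + b + e + 2 * j = N →
      linp X ^ a * linp Z ^ e * (linp Y ^ 2 - C c * linp X * linp Z) ^ j * linp Y ^ b ∈
        Submodule.span K (Set.range (rowPoly X Y Z c N)) := by
  induction b using Nat.strong_induction_on with
  | _ b ih =>
    intro a e j hN
    by_cases hb : b < 2
    · refine Submodule.subset_span ⟨⟨![⟨a, by omega⟩, ⟨2 * j + b, by omega⟩, ⟨e, by omega⟩], ?_⟩, ?_⟩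
      · rw [Fin.sum_univ_three]
        simp
        omega
      · simp only [rowPoly]
        have h1 : (2 * j + b) / 2 = j := by omega
        have h2 : (2 * j + b) % 2 = b := by omega
        simp [h1, h2]
    · obtain ⟨b', rfl⟩ : ∃ b', b = b' + 2 := ⟨b - 2, by omega⟩
      have h1 := ih b' (by omega) a e (j + 1) (by omega)
      have h2 := ih b' (by omega) (a + 1) (e + 1) j (by omega)
      have h3 := Submodule.add_mem _ h1 (Submodule.smul_mem _ c h2)
      convert h3 using 1
      rw [MvPolynomial.smul_eq_C_mul]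
      ring

theorem span_rows (X Y Z : Fin 3 → K)
    (h : (Matrix.of ![X, Y, Z]).det ≠ 0) (c : K) (N : ℕ) (p : MvPolynomial (Fin 3) K)
    (hp : p.IsHomogeneous N) : p ∈ Submodule.span K (Set.range (rowPoly X Y Z c N)) := by
  set M : Matrix (Fin 3) (Fin 3) K := Matrix.of ![X, Y, Z] with hM
  have hunit : IsUnit M.det := isUnit_iff_ne_zero.2 h
  -- the substitution
  set q : MvPolynomial (Fin 3) K := MvPolynomial.aeval (fun i => linp (M⁻¹ i)) p with hq
  have hqh : q.IsHomogeneous N := by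
    have := hp.aeval (fun i => linp (M⁻¹ i)) (m := N) (n := 1) (fun i => linp_homog _)
    rw [one_mul] at this
    exact this
  have hback : MvPolynomial.aeval (fun k => linp (M k)) q = p := by
    rw [hq, ← AlgHom.comp_apply]
    have : (MvPolynomial.aeval (fun k => linp (M k))).comp
        (MvPolynomial.aeval (fun i => linp (M⁻¹ i))) =
        AlgHom.id K (MvPolynomial (Fin 3) K) := by
      apply MvPolynomial.algHom_ext
      intro i
      rw [AlgHom.comp_apply, MvPolynomial.aeval_X, AlgHom.id_apply]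
      have h1 : M⁻¹ * M = 1 := Matrix.nonsing_inv_mul M hunit
      simp only [linp, map_sum, map_mul, MvPolynomial.aeval_X, MvPolynomial.aeval_C,
        MvPolynomial.algebraMap_eq, Finset.mul_sum]
      rw [Finset.sum_comm]
      have h2 : ∀ j, ∑ k, C (M⁻¹ i k) * (C (M k j) * MvPolynomial.X j) =
          C ((M⁻¹ * M) i j) * (MvPolynomial.X j : MvPolynomial (Fin 3) K) := by
        intro j
        rw [Matrix.mul_apply, map_sum, Finset.sum_mul]
        refine Finset.sum_congr rfl fun k _ => ?_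
        rw [map_mul, mul_assoc]
      rw [Finset.sum_congr rfl fun j _ => h2 j, h1]
      rw [Finset.sum_eq_single i]
      · simp
      · intro j _ hj
        rw [Matrix.one_apply_ne hj.symm]
        simp
      · intro hi
        exact absurd (Finset.mem_univ i) hi
    rw [this, AlgHom.id_apply]
  rw [← hback, homog_eq_sum hqh, map_sum]
  refine Submodule.sum_mem _ fun ν _ => ?_
  rw [MvPolynomial.aeval_monomial, MvPolynomial.algebraMap_eq, ← MvPolynomial.smul_eq_C_mul]
  refine Submodule.smul_mem _ _ ?_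
  rw [Finsupp.prod_fintype _ _ (fun i => pow_zero _), Fin.prod_univ_three]
  have h3 := mem_span_rows X Y Z c N (ν.1 1 : ℕ) (ν.1 0 : ℕ) (ν.1 2 : ℕ) 0 (by
    have := ν.2
    rw [Fin.sum_univ_three] at this
    omega)
  convert h3 using 1
  simp only [idxExp_apply, hM]
  have e0 : (Matrix.of ![X, Y, Z]) 0 = X := rfl
  have e1 : (Matrix.of ![X, Y, Z]) 1 = Y := rfl
  have e2 : (Matrix.of ![X, Y, Z]) 2 = Z := rfl
  rw [e0, e1, e2]
  ring

theorem veroMat_det (X Y Z : Fin 3 → K)
    (h : (Matrix.of ![X, Y, Z]).det ≠ 0) (c : K) (N : ℕ) : (veroMat X Y Z c N).det ≠ 0 := by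
  classical
  rw [← isUnit_iff_ne_zero, ← Matrix.isUnit_iff_isUnit_det, ← Matrix.vecMul_surjective_iff_isUnit]
  -- the coefficients
  intro w
  set p : MvPolynomial (Fin 3) K := ∑ ν : Idx N, monomial (idxExp ν) (w ν) with hp
  have hph : p.IsHomogeneous N := by
    rw [hp]
    exact IsHomogeneous.sum _ _ _ fun ν _ => isHomogeneous_monomial _ (idxExp_degree ν)
  have hmem := span_rows X Y Z h c N p hph
  rw [Submodule.mem_span_range_iff_exists_fun] at hmem
  obtain ⟨v, hv⟩ := hmem
  refine ⟨v, ?_⟩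
  funext ν
  have h1 : p.coeff (idxExp ν) = w ν := by
    rw [hp, coeff_sum, Finset.sum_eq_single ν]
    · rw [coeff_monomial, if_pos rfl]
    · intro μ _ hμ
      rw [coeff_monomial, if_neg]
      intro h
      exact hμ (idxExp_injective h)
    · intro h
      exact absurd (Finset.mem_univ ν) h
  rw [← h1, ← hv, coeff_sum]
  simp only [Matrix.vecMul, dotProduct, veroMat_apply, coeff_smul, smul_eq_mul]

end

end Pool.Agent.SST
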