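import Pool.Agent.SST.VeroDefs
import Mathlib

/-! Exponent sums over the monomials of degree `N` in three variables. -/

namespace Pool.Agent.SST

/-- `Idx N` and the triples of natural numbers with sum `N` -/
def idxEquivNat (N : ℕ) : Idx N ≃ {P : Fin 3 → ℕ // ∑ i, P i = N} where
  toFun μ := ⟨fun i => (μ.1 i : ℕ), μ.2⟩
  invFun P := ⟨fun i => ⟨P.1 i, by
    have h := Finset.single_le_sum (f := P.1) (fun j _ => Nat.zero_le _) (Finset.mem_univ i)
    have h2 := P.2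
    omega⟩, P.2⟩
  left_inv μ := by
    apply Subtype.ext
    funext i
    rfl
  right_inv P := by
    apply Subtype.ext
    funext i
    rfl

theorem card_idx (N : ℕ) : 2 * Fintype.card (Idx N) = (N + 1) * (N + 2) := by
  have h1 : Fintype.card (Idx N) = (N + 2).choose N := by
    rw [Fintype.card_congr ((idxEquivNat N).trans (Sym.equivNatSumOfFintype (Fin 3) N).symm),
      Sym.card_sym_eq_choose]
    simp only [Fintype.card_fin]
    congr 1
    omega
  have h2 : (N + 2).choose N = (N + 2).choose 2 := by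
    rw [← Nat.choose_symm_add]
  rw [h1, h2, Nat.choose_two_right]
  have h3 : 2 ∣ (N + 2) * (N + 2 - 1) := by
    have h4 : N + 2 - 1 = N + 1 := by omega
    rw [h4, mul_comm]
    exact even_iff_two_dvd.mp (Nat.even_mul_succ_self (N + 1))
  rw [Nat.mul_div_cancel' h3]
  have h4 : N + 2 - 1 = N + 1 := by omega
  rw [h4, mul_comm]

/-- permuting the exponents -/
def idxPerm (N : ℕ) (σ : Equiv.Perm (Fin 3)) : Idx N ≃ Idx N where
  toFun μ := ⟨fun i => μ.1 (σ i), by
    have h := Equiv.sum_comp σ (fun i => (μ.1 i : ℕ))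
    rw [h]
    exact μ.2⟩
  invFun μ := ⟨fun i => μ.1 (σ.symm i), by
    have h := Equiv.sum_comp σ.symm (fun i => (μ.1 i : ℕ))
    rw [h]
    exact μ.2⟩
  left_inv μ := by
    apply Subtype.ext
    funext i
    simp
  right_inv μ := by
    apply Subtype.ext
    funext i
    simp

theorem sum_idx_eq (N : ℕ) (i j : Fin 3) :
    ∑ μ : Idx N, (μ.1 i : ℕ) = ∑ μ : Idx N, (μ.1 j : ℕ) := by
  apply Fintype.sum_equiv (idxPerm N (Equiv.swap i j))
  intro μ
  simp [idxPerm]

theorem prod_vero (N : ℕ) : ∃ R Q P : ℕ, 2 * Q + P = R ∧ P ≤ Fintype.card (Idx N) ∧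
    3 * R = N * Fintype.card (Idx N) ∧ 2 * Fintype.card (Idx N) = (N + 1) * (N + 2) ∧
    ∀ x z d y : ℝ, ∏ μ : Idx N, (x ^ (μ.1 0 : ℕ) * z ^ (μ.1 2 : ℕ) * d ^ ((μ.1 1 : ℕ) / 2) *
      y ^ ((μ.1 1 : ℕ) % 2)) = x ^ R * z ^ R * d ^ Q * y ^ P := by
  refine ⟨∑ μ : Idx N, (μ.1 1 : ℕ), ∑ μ : Idx N, (μ.1 1 : ℕ) / 2, ∑ μ : Idx N, (μ.1 1 : ℕ) % 2,
    ?_, ?_, ?_, card_idx N, ?_⟩
  · rw [Finset.mul_sum, ← Finset.sum_add_distrib]
    apply Finset.sum_congr rfl
    intro μ _
    omega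
  · calc ∑ μ : Idx N, (μ.1 1 : ℕ) % 2 ≤ ∑ _μ : Idx N, 1 := by
          apply Finset.sum_le_sum
          intro μ _
          omega
      _ = Fintype.card (Idx N) := by simp
  · have h : ∑ μ : Idx N, (∑ i, (μ.1 i : ℕ)) = N * Fintype.card (Idx N) := by
      rw [Finset.sum_congr rfl (fun μ _ => μ.2)]
      simp [mul_comm]
    rw [← h]
    simp only [Fin.sum_univ_three]
    rw [Finset.sum_add_distrib, Finset.sum_add_distrib, sum_idx_eq N 0 1, sum_idx_eq N 2 1]
    ring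
  · intro x z d y
    rw [Finset.prod_mul_distrib, Finset.prod_mul_distrib, Finset.prod_mul_distrib,
      Finset.prod_pow_eq_pow_sum, Finset.prod_pow_eq_pow_sum, Finset.prod_pow_eq_pow_sum,
      Finset.prod_pow_eq_pow_sum, sum_idx_eq N 0 1, sum_idx_eq N 2 1]

end Pool.Agent.SST
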