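import Pool.Agent.SST.TwoSCore
import Pool.Agent.SST.SchlickC
import Pool.Agent.SST.Vero
import Pool.Agent.SST.VeroSum
import Pool.Agent.SST.PlaceCases

/-! The main inequality at several places (package P26). -/

namespace Pool.Agent.SST

theorem two_points_S {T : Type} [Fintype T] [DecidableEq T] (p : T → ℕ) [∀ t, Fact (p t).Prime]
    (hp : Function.Injective p) (α β : OnePoint ℂ) (hα : AlgPtK α) (hβ : AlgPtK β) (hne : α ≠ β)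
    (α' β' : ∀ t, OnePoint ℂ_[p t]) (hα' : ∀ t, AlgPtK (α' t)) (hβ' : ∀ t, AlgPtK (β' t))
    (hne' : ∀ t, α' t ≠ β' t) (ε : ℝ) (hε : 0 < ε) :
    ∃ (N : ℕ) (c : ℝ) (F : Finset (Idx N → ℤ)), 0 < c ∧ 0 ∉ F ∧ ∀ f : Fin 3 → ℤ, discq f ≠ 0 →
      evK f α ≠ 0 → evK f β ≠ 0 → (∀ t, evK f (α' t) ≠ 0) → (∀ t, evK f (β' t) ≠ 0) →
      (∀ b ∈ F, ∑ μ, b μ * vero N f μ ≠ 0) →
      c * maxq f ^ (-ε) ≤
        (‖evK f α‖ * ‖evK f β‖ * Real.sqrt ‖((discq f : ℤ) : ℂ)‖) *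
        ∏ t, (‖evK f (α' t)‖ * ‖evK f (β' t)‖ * Real.sqrt ‖((discq f : ℤ) : ℂ_[p t])‖) :=
  two_points_S_of p hp (fun _ hN L h1 h2 M h3 h4 δ hδ => schlickeweiC hN p hp L h1 h2 M h3 h4 δ hδ)
    veroMat_det veroMat_alg prod_vero place_bound α β hα hβ hne α' β' hα' hβ' hne' ε hε

end Pool.Agent.SST
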