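import Pool.Agent.SST.BestTwo
import Pool.Agent.SST.Prox
import Pool.Agent.SST.HeightQ
import Pool.Agent.SST.DiscQ
import Pool.Agent.SST.TwoS

/-! The height inequality outside finitely many curves, for every finite set of places. -/

open MvPolynomial

namespace Pool.Agent.SST

open scoped BigOperators

lemma evK_complex (f : Fin 3 → ℤ) (α : OnePoint ℂ) : evK f α = evq f α := by
  rcases α with _ | z <;> rfl

lemma nf_complexQ (f : Fin 3 → ℤ) : nf ℂ f = maxq f := by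
  rw [nf, maxq, Complex.norm_intCast, Complex.norm_intCast, Complex.norm_intCast]

lemma norm_int_le_one (p : ℕ) [Fact p.Prime] (n : ℤ) : ‖(n : ℂ_[p])‖ ≤ 1 := by
  have h1 : ((n : ℚ_[p]) : ℂ_[p]) = (n : ℂ_[p]) := by
    have := map_intCast (algebraMap ℚ_[p] ℂ_[p]) n
    exact this
  rw [← h1, PadicComplex.norm_extends']
  exact Padic.norm_int_le_one n

lemma nf_padic_leQ (p : ℕ) [Fact p.Prime] (f : Fin 3 → ℤ) : nf ℂ_[p] f ≤ 1 :=
  max_le (norm_int_le_one p _) (max_le (norm_int_le_one p _) (norm_int_le_one p _))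

/-- the form attached to a vector of coefficients -/
noncomputable def polyOf (N : ℕ) (b : Idx N → ℤ) : MvPolynomial (Fin 3) ℤ :=
  ∑ μ, monomial (Finsupp.equivFunOnFinite.symm fun i => (μ.1 i : ℕ)) (b μ)

lemma polyOf_hom (N : ℕ) (b : Idx N → ℤ) : (polyOf N b).IsHomogeneous N := by
  refine MvPolynomial.IsHomogeneous.sum _ _ _ fun μ _ => ?_
  refine isHomogeneous_monomial _ ?_
  rw [Finsupp.degree_eq_sum]
  exact μ.2

lemma polyOf_eval (N : ℕ) (b : Idx N → ℤ) (f : Fin 3 → ℤ) :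
    eval f (polyOf N b) = ∑ μ, b μ * vero N f μ := by
  rw [polyOf, map_sum]
  refine Finset.sum_congr rfl fun μ _ => ?_
  rw [eval_monomial, vero, Finsupp.prod_fintype _ _ (fun i => by simp)]
  rfl

lemma polyOf_ne_zero (N : ℕ) (b : Idx N → ℤ) (hb : b ≠ 0) : polyOf N b ≠ 0 := by
  classical
  obtain ⟨μ, hμ⟩ : ∃ μ, b μ ≠ 0 := by
    by_contra hcon
    push Not at hcon
    exact hb (funext hcon)
  intro h0
  apply hμ
  have h1 := congrArg (coeff (Finsupp.equivFunOnFinite.symm fun i => (μ.1 i : ℕ))) h0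
  rw [polyOf, coeff_sum, coeff_zero] at h1
  rw [Finset.sum_eq_single μ] at h1
  · rw [coeff_monomial, if_pos rfl] at h1
    exact h1
  · intro ν _ hν
    rw [coeff_monomial, if_neg]
    intro h2
    apply hν
    have h3 := Finsupp.equivFunOnFinite.symm.injective h2
    apply Subtype.ext
    funext i
    apply Fin.ext
    exact congrFun h3 i
  · intro h
    exact absurd (Finset.mem_univ _) h

lemma algPtK_map {A : Type} [Field A] [CharZero A] (ι : AlgebraicClosure ℚ →+* A)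
    (α : OnePoint (AlgebraicClosure ℚ)) : AlgPtK (OnePoint.map ι α) := by
  intro z hz
  rcases α with _ | a
  · exact absurd hz (OnePoint.infty_ne_coe z)
  · have h1 : ι a = z := OnePoint.coe_injective hz
    rw [← h1]
    obtain ⟨P, hP, hPa⟩ := (AlgebraicClosure.isAlgebraic ℚ).isAlgebraic a
    refine ⟨P, hP, ?_⟩
    rw [Polynomial.aeval_def] at hPa ⊢
    have h3 := congrArg ι hPa
    rw [Polynomial.hom_eval₂, map_zero] at h3
    rw [← h3]
    congr 1
    exact Subsingleton.elim _ _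

lemma map_injective {A : Type} [Field A] (ι : AlgebraicClosure ℚ →+* A) :
    Function.Injective (OnePoint.map ι) := by
  intro α β h
  rcases α with _ | a <;> rcases β with _ | b
  · rfl
  · exact absurd h (OnePoint.infty_ne_coe _)
  · exact absurd h (OnePoint.coe_ne_infty _)
  · have h1 : ι a = ι b := OnePoint.coe_injective h
    exact congrArg _ (ι.injective h1)

section Local

variable {A : Type} [NormedField A] [CharZero A]

/-- local part of the argument: all points, in terms of the best two -/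
lemma local_part [IsAlgClosed A] (ι : AlgebraicClosure ℚ →+* A)
    (D D' : Finset (OnePoint (AlgebraicClosure ℚ))) (hsub : D ⊆ D')
    (h0D : ((0 : AlgebraicClosure ℚ) : OnePoint (AlgebraicClosure ℚ)) ∈ D')
    (hiD : (OnePoint.infty : OnePoint (AlgebraicClosure ℚ)) ∈ D')
    (hD' : ∀ γ ∈ D', γ = ((0 : AlgebraicClosure ℚ) : OnePoint (AlgebraicClosure ℚ)) ∨
      γ = OnePoint.infty ∨ γ ∈ D) (dist : A → OnePoint A → ℝ)
    (hdist : ∀ α : OnePoint A, ∃ Cα : ℝ, ∀ (f : Fin 3 → ℤ) (ξ₁ ξ₂ : A), f 0 ≠ 0 →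
      (∀ z : A, (f 0 : A) * z ^ 2 + (f 1 : A) * z + (f 2 : A) = f 0 * (z - ξ₁) * (z - ξ₂)) →
      evK f α ≠ 0 → -Real.log (dist ξ₁ α) + -Real.log (dist ξ₂ α) ≤
        Cα + (Real.log (nf A f) - Real.log ‖evK f α‖)) :
    ∃ C : ℝ, ∀ (K : Type) [Field K] [NumberField K], Module.finrank ℚ K = 2 → ∀ x : K,
      x ∉ Set.range (algebraMap ℚ K) →
      (∀ σ : K →+* A, ∀ γ ∈ D, OnePoint.map ι γ ≠ ((σ x : A) : OnePoint A)) →
      ∀ f : Fin 3 → ℤ, (f 0 : K) * x ^ 2 + (f 1 : K) * x + (f 2 : K) = 0 → f ≠ 0 →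
        discq f ≠ 0 ∧ f 0 ≠ 0 ∧ ∃ α ∈ D', ∃ β ∈ D', α ≠ β ∧ evK f (OnePoint.map ι α) ≠ 0 ∧
          evK f (OnePoint.map ι β) ≠ 0 ∧
          ∑ σ : K →+* A, ∑ γ ∈ D, -Real.log (dist (σ x) (OnePoint.map ι γ)) ≤
            C + (2 * Real.log (nf A f) - Real.log ‖evK f (OnePoint.map ι α)‖ -
              Real.log ‖evK f (OnePoint.map ι β)‖) := by
  classical
  obtain ⟨C₁, hC₁⟩ := best_twoA (A := A) D' (OnePoint.map ι) (map_injective ι) _ _ h0D hiD
    (OnePoint.coe_ne_infty _)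
  choose Cα hCα using hdist
  refine ⟨∑ γ ∈ D, Cα (OnePoint.map ι γ) + C₁, ?_⟩
  intro K _ _ hK x hx hσ f hf hf0
  obtain ⟨ξ₁, ξ₂, hsum, h00, hroots, hξne, ⟨σ₁, hσ₁⟩, ⟨σ₂, hσ₂⟩⟩ :=
    exists_rootsA A K hK x hx f hf hf0
  have h00' : (f 0 : A) ≠ 0 := by exact_mod_cast h00
  have hevinf : evK f (OnePoint.infty : OnePoint A) = (f 0 : A) := rfl
  have hev0 : evK f ((0 : A) : OnePoint A) = (f 2 : A) := by
    change (f 0 : A) * (0 : A) ^ 2 + (f 1 : A) * (0 : A) + (f 2 : A) = _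
    ring
  have hev : ∀ γ ∈ D, evK f (OnePoint.map ι γ) ≠ 0 := by
    intro γ hγ
    have h1 := hσ σ₁ γ hγ
    have h2 := hσ σ₂ γ hγ
    rw [hσ₁] at h1
    rw [hσ₂] at h2
    generalize OnePoint.map ι γ = δ at h1 h2
    rcases δ with _ | z
    · exact h00'
    · change (f 0 : A) * z ^ 2 + (f 1 : A) * z + (f 2 : A) ≠ 0
      rw [hroots z]
      refine mul_ne_zero (mul_ne_zero h00' (sub_ne_zero.mpr ?_)) (sub_ne_zero.mpr ?_)
      · intro hz
        exact h1 (by rw [hz]; rfl)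
      · intro hz
        exact h2 (by rw [hz]; rfl)
  have hf2 : f 2 ≠ 0 := by
    intro h2
    have h3 := hroots 0
    rw [h2] at h3
    simp only [Int.cast_zero] at h3
    have h4 : (f 0 : A) * (0 - ξ₁) * (0 - ξ₂) = 0 := by rw [← h3]; ring
    have hx0 : x = 0 := by
      rcases mul_eq_zero.mp h4 with h5 | h5
      · have h6 := (mul_eq_zero.mp h5).resolve_left h00'
        have h7 : σ₁ x = 0 := by rw [hσ₁]; linear_combination -h6
        exact (map_eq_zero σ₁).mp h7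
      · have h7 : σ₂ x = 0 := by rw [hσ₂]; linear_combination -h5
        exact (map_eq_zero σ₂).mp h7
    exact hx ⟨0, by rw [hx0, map_zero]⟩
  have hmap0 : OnePoint.map ι ((0 : AlgebraicClosure ℚ) : OnePoint (AlgebraicClosure ℚ)) =
      ((0 : A) : OnePoint A) := by
    rw [OnePoint.map_some, map_zero]
  have hev' : ∀ γ ∈ D', evK f (OnePoint.map ι γ) ≠ 0 := by
    intro γ hγ
    rcases hD' γ hγ with h1 | h1 | h1
    · rw [h1, hmap0, hev0]
      exact_mod_cast hf2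
    · rw [h1]
      exact h00'
    · exact hev γ h1
  have hdisc : discq f ≠ 0 := by
    intro h0
    apply hξne
    have h1 := hroots 0
    have h2 := hroots 1
    have hb : (f 1 : A) = -(f 0 : A) * (ξ₁ + ξ₂) := by linear_combination h2 - h1
    have hc : (f 2 : A) = (f 0 : A) * (ξ₁ * ξ₂) := by linear_combination h1
    have h3 : ((discq f : ℤ) : A) = (f 0 : A) ^ 2 * (ξ₁ - ξ₂) ^ 2 := by
      rw [discq]
      push_cast
      rw [hb, hc]
      ring
    rw [h0, Int.cast_zero] at h3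
    have h4 := (mul_eq_zero.mp h3.symm).resolve_left (pow_ne_zero 2 h00')
    exact sub_eq_zero.mp (pow_eq_zero_iff (two_ne_zero) |>.mp h4)
  have hnf : 0 < nf A f := (norm_pos_iff.mpr h00').trans_le (norm_le_nf f 0)
  refine ⟨hdisc, h00, ?_⟩
  obtain ⟨α, hα, β, hβ, hαβ, hbest⟩ := hC₁ f hnf hev'
  refine ⟨α, hα, β, hβ, hαβ, hev' α hα, hev' β hβ, ?_⟩
  have hDD' : ∑ γ ∈ D, (Real.log (nf A f) - Real.log ‖evK f (OnePoint.map ι γ)‖) ≤
      ∑ γ ∈ D', (Real.log (nf A f) - Real.log ‖evK f (OnePoint.map ι γ)‖) := by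
    refine Finset.sum_le_sum_of_subset_of_nonneg hsub ?_
    intro γ hγ hγD
    rw [sub_nonneg]
    rcases hD' γ hγ with h1 | h1 | h1
    · refine Real.log_le_log (norm_pos_iff.mpr (hev' _ hγ)) ?_
      rw [h1, hmap0, hev0]
      exact norm_le_nf f 2
    · refine Real.log_le_log (norm_pos_iff.mpr (hev' _ hγ)) ?_
      rw [h1]
      exact norm_le_nf f 0
    · exact absurd h1 hγD
  have hprox : ∑ σ : K →+* A, ∑ γ ∈ D, -Real.log (dist (σ x) (OnePoint.map ι γ)) ≤
      ∑ γ ∈ D, Cα (OnePoint.map ι γ) +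
      ∑ γ ∈ D, (Real.log (nf A f) - Real.log ‖evK f (OnePoint.map ι γ)‖) := by
    rw [Finset.sum_comm, ← Finset.sum_add_distrib]
    refine Finset.sum_le_sum fun γ hγ => ?_
    rw [hsum (fun z => -Real.log (dist z (OnePoint.map ι γ)))]
    exact hCα (OnePoint.map ι γ) f ξ₁ ξ₂ h00 hroots (hev γ hγ)
  linarith

end Local

theorem generic_S {r : ℕ} (p : Fin r → ℕ) [∀ t, Fact (p t).Prime] (hp : Function.Injective p)
    (ι : AlgebraicClosure ℚ →+* ℂ) (ι' : ∀ t, AlgebraicClosure ℚ →+* ℂ_[p t])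
    (D : Finset (OnePoint (AlgebraicClosure ℚ))) (ε : ℝ) (hε : 0 < ε) :
    ∃ (C : ℝ) (G : MvPolynomial (Fin 3) ℤ) (n : ℕ), G ≠ 0 ∧ G.IsHomogeneous n ∧
      ∀ (K : Type) [Field K] [NumberField K], Module.finrank ℚ K = 2 → ∀ x : K,
      x ∉ Set.range (algebraMap ℚ K) →
      (∀ σ : K →+* ℂ, ∀ γ ∈ D, OnePoint.map ι γ ≠ ((σ x : ℂ) : OnePoint ℂ)) →
      (∀ t, ∀ σ : K →+* ℂ_[p t], ∀ γ ∈ D,
        OnePoint.map (ι' t) γ ≠ ((σ x : ℂ_[p t]) : OnePoint ℂ_[p t])) →
      ∀ f : Fin 3 → ℤ, (f 0 : K) * x ^ 2 + (f 1 : K) * x + (f 2 : K) = 0 →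
      (∀ d : ℤ, (∀ i, d ∣ f i) → IsUnit d) → eval f G ≠ 0 →
        proxS p ι ι' D K x ≤ (2 + ε) * ht K x + Real.log (|((discq f : ℤ) : ℝ)| *
          ∏ t, ‖((discq f : ℤ) : ℂ_[p t])‖) / 4 + C := by
  classical
  set D' : Finset (OnePoint (AlgebraicClosure ℚ)) :=
    insert ((0 : AlgebraicClosure ℚ) : OnePoint (AlgebraicClosure ℚ))
      (insert OnePoint.infty D) with hD'
  have h0D : ((0 : AlgebraicClosure ℚ) : OnePoint (AlgebraicClosure ℚ)) ∈ D' := by simp [hD']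
  have hiD : (OnePoint.infty : OnePoint (AlgebraicClosure ℚ)) ∈ D' := by simp [hD']
  have hsub : D ⊆ D' := fun a ha => by simp [hD', ha]
  have hDD : ∀ γ ∈ D', γ = ((0 : AlgebraicClosure ℚ) : OnePoint (AlgebraicClosure ℚ)) ∨
      γ = OnePoint.infty ∨ γ ∈ D := fun γ hγ => by simpa [hD'] using hγ
  -- the main inequality for all choices of pairs of points
  have hmain : ∀ w : Option (Fin r) → OnePoint (AlgebraicClosure ℚ) × OnePoint (AlgebraicClosure ℚ),
      ∃ (N : ℕ) (c : ℝ) (F : Finset (Idx N → ℤ)), 0 < c ∧ 0 ∉ F ∧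
      ((∀ v, (w v).1 ≠ (w v).2) → ∀ f : Fin 3 → ℤ, discq f ≠ 0 →
      evK f (OnePoint.map ι (w none).1) ≠ 0 → evK f (OnePoint.map ι (w none).2) ≠ 0 →
      (∀ t, evK f (OnePoint.map (ι' t) (w (some t)).1) ≠ 0) →
      (∀ t, evK f (OnePoint.map (ι' t) (w (some t)).2) ≠ 0) →
      (∀ b ∈ F, ∑ μ, b μ * vero N f μ ≠ 0) →
      c * maxq f ^ (-ε) ≤
        (‖evK f (OnePoint.map ι (w none).1)‖ * ‖evK f (OnePoint.map ι (w none).2)‖ *
          Real.sqrt ‖((discq f : ℤ) : ℂ)‖) *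
        ∏ t, (‖evK f (OnePoint.map (ι' t) (w (some t)).1)‖ *
          ‖evK f (OnePoint.map (ι' t) (w (some t)).2)‖ *
          Real.sqrt ‖((discq f : ℤ) : ℂ_[p t])‖)) := by
    intro w
    by_cases hw : ∀ v, (w v).1 ≠ (w v).2
    · obtain ⟨N, c, F, hc, hF, h⟩ := two_points_S p hp _ _ (algPtK_map ι (w none).1)
        (algPtK_map ι (w none).2) ((map_injective ι).ne (hw none))
        (fun t => OnePoint.map (ι' t) (w (some t)).1) (fun t => OnePoint.map (ι' t) (w (some t)).2)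
        (fun t => algPtK_map _ _) (fun t => algPtK_map _ _)
        (fun t => (map_injective (ι' t)).ne (hw (some t))) ε hε
      exact ⟨N, c, F, hc, hF, fun _ => h⟩
    · exact ⟨0, 1, ∅, one_pos, by simp, fun h => absurd h hw⟩
  choose Nw cw Fw hcw hFw hw using hmain
  set W : Finset (Option (Fin r) → OnePoint (AlgebraicClosure ℚ) × OnePoint (AlgebraicClosure ℚ)) :=
    Fintype.piFinset fun _ => D' ×ˢ D' with hWdef
  set G : MvPolynomial (Fin 3) ℤ := ∏ w ∈ W, ∏ b ∈ Fw w, polyOf (Nw w) b with hG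
  obtain ⟨C₀, hC₀⟩ := local_part (A := ℂ) ι D D' hsub h0D hiD hDD chord (fun α => by
    obtain ⟨Cα, hCα⟩ := chord_sum α
    refine ⟨Cα, fun f ξ₁ ξ₂ h0 h hev => ?_⟩
    rw [evK_complex] at hev ⊢
    rw [nf_complexQ]
    exact hCα f ξ₁ ξ₂ h0 h hev)
  have hloc : ∀ t, _ := fun t => local_part (A := ℂ_[p t]) (ι' t) D D' hsub h0D hiD hDD chordM
    (fun α => chord_sumA α)
  choose Ct hCt using hloc
  set Cw : ℝ := ∑ w ∈ W, |Real.log (cw w)| with hCw
  refine ⟨(C₀ + ∑ t, Ct t + Cw + (2 + ε) * Real.log 4) / 2, G, ∑ w ∈ W, ∑ b ∈ Fw w, Nw w,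
    ?_, ?_, ?_⟩
  · rw [hG, Finset.prod_ne_zero_iff]
    intro w _
    rw [Finset.prod_ne_zero_iff]
    intro b hb
    exact polyOf_ne_zero _ _ fun h0 => hFw w (h0 ▸ hb)
  · rw [hG]
    refine MvPolynomial.IsHomogeneous.prod _ _ _ fun w _ => ?_
    exact MvPolynomial.IsHomogeneous.prod _ _ _ fun b _ => polyOf_hom _ _
  · intro K _ _ hK x hx hσ hσ' f hf hgcd hGf
    have hf0 : f ≠ 0 := by
      intro h0
      have := hgcd 2 (fun i => by rw [h0]; exact dvd_zero _)
      rw [Int.isUnit_iff] at this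
      omega
    obtain ⟨hdisc, h00, α, hα, β, hβ, hαβ, hevα, hevβ, hinf⟩ := hC₀ K hK x hx hσ f hf hf0
    have hpl := fun t => hCt t K hK x hx (hσ' t) f hf hf0
    choose hd' h00' α' hα' β' hβ' hαβ' hevα' hevβ' hfin using hpl
    set w : Option (Fin r) → OnePoint (AlgebraicClosure ℚ) × OnePoint (AlgebraicClosure ℚ) :=
      fun v => v.elim (α, β) fun t => (α' t, β' t) with hwdef
    have hwW : w ∈ W := by
      rw [hWdef, Fintype.mem_piFinset]
      intro v
      cases v with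
      | none => exact Finset.mk_mem_product hα hβ
      | some t => exact Finset.mk_mem_product (hα' t) (hβ' t)
    have hwne : ∀ v, (w v).1 ≠ (w v).2 := by
      intro v
      cases v with
      | none => exact hαβ
      | some t => exact hαβ' t
    have hmax1 : 1 ≤ maxq f := one_le_maxq hdisc
    have hmax0 : 0 < maxq f := by linarith
    have hineq := hw w hwne f hdisc hevα hevβ hevα' hevβ' (by
      intro b hb h0
      apply hGf
      rw [hG, map_prod, Finset.prod_eq_zero hwW]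
      rw [map_prod, Finset.prod_eq_zero hb]
      rw [polyOf_eval, h0])
    have hdR : (0 : ℝ) < ‖((discq f : ℤ) : ℂ)‖ := norm_pos_iff.mpr (by exact_mod_cast hdisc)
    have hdp : ∀ t, (0 : ℝ) < ‖((discq f : ℤ) : ℂ_[p t])‖ :=
      fun t => norm_pos_iff.mpr (by exact_mod_cast hdisc)
    have e1 : ‖evK f (OnePoint.map ι (w none).1)‖ ≠ 0 := norm_ne_zero_iff.mpr hevα
    have e2 : ‖evK f (OnePoint.map ι (w none).2)‖ ≠ 0 := norm_ne_zero_iff.mpr hevβ
    have e3 : ∀ t, ‖evK f (OnePoint.map (ι' t) (w (some t)).1)‖ ≠ 0 :=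
      fun t => norm_ne_zero_iff.mpr (hevα' t)
    have e4 : ∀ t, ‖evK f (OnePoint.map (ι' t) (w (some t)).2)‖ ≠ 0 :=
      fun t => norm_ne_zero_iff.mpr (hevβ' t)
    have hlog := Real.log_le_log (mul_pos (hcw w) (Real.rpow_pos_of_pos hmax0 _)) hineq
    rw [Real.log_mul (hcw w).ne' (Real.rpow_pos_of_pos hmax0 _).ne', Real.log_rpow hmax0,
      Real.log_mul (mul_ne_zero (mul_ne_zero e1 e2) (Real.sqrt_pos.mpr hdR).ne')
        (Finset.prod_ne_zero_iff.mpr fun t _ => mul_ne_zero (mul_ne_zero (e3 t) (e4 t))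
          (Real.sqrt_pos.mpr (hdp t)).ne'),
      Real.log_mul (mul_ne_zero e1 e2) (Real.sqrt_pos.mpr hdR).ne', Real.log_mul e1 e2,
      Real.log_sqrt hdR.le, Real.log_prod (fun t _ => mul_ne_zero (mul_ne_zero (e3 t) (e4 t))
          (Real.sqrt_pos.mpr (hdp t)).ne')] at hlog
    have hsum : ∀ t, Real.log (‖evK f (OnePoint.map (ι' t) (w (some t)).1)‖ *
          ‖evK f (OnePoint.map (ι' t) (w (some t)).2)‖ *
          Real.sqrt ‖((discq f : ℤ) : ℂ_[p t])‖) =
        Real.log ‖evK f (OnePoint.map (ι' t) (α' t))‖ +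
          Real.log ‖evK f (OnePoint.map (ι' t) (β' t))‖ +
          Real.log ‖((discq f : ℤ) : ℂ_[p t])‖ / 2 := by
      intro t
      rw [Real.log_mul (mul_ne_zero (e3 t) (e4 t)) (Real.sqrt_pos.mpr (hdp t)).ne',
        Real.log_mul (e3 t) (e4 t), Real.log_sqrt (hdp t).le]
      rfl
    rw [Finset.sum_congr rfl fun t _ => hsum t, Finset.sum_add_distrib, Finset.sum_add_distrib,
      ← Finset.sum_div] at hlog
    have hcle : -Real.log (cw w) ≤ Cw := (neg_le_abs _).trans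
      (Finset.single_le_sum (f := fun w => |Real.log (cw w)|) (fun _ _ => abs_nonneg _) hwW)
    have hnf : ∀ t, Real.log (nf ℂ_[p t] f) ≤ 0 := fun t =>
      Real.log_nonpos (nf_nonneg f) (nf_padic_leQ (p t) f)
    have hfin' : ∑ t, ∑ σ : K →+* ℂ_[p t], ∑ γ ∈ D,
        -Real.log (chordM (σ x) (OnePoint.map (ι' t) γ)) ≤
        ∑ t, (Ct t - Real.log ‖evK f (OnePoint.map (ι' t) (α' t))‖ -
          Real.log ‖evK f (OnePoint.map (ι' t) (β' t))‖) := by
      refine Finset.sum_le_sum fun t _ => ?_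
      have h1 := hfin t
      have h2 := hnf t
      linarith
    rw [Finset.sum_sub_distrib, Finset.sum_sub_distrib] at hfin'
    rw [nf_complexQ] at hinf
    have hht : Real.log (maxq f) ≤ Real.log 4 + 2 * ht K x := by
      have h1 := maxq_le_height K hK x hx f hf hgcd
      have h2 := Real.log_le_log hmax0 h1
      rw [Real.log_mul (by norm_num) (Height.mulHeight₁_ne_zero x)] at h2
      rw [ht, hK, Height.logHeight₁_eq_log_mulHeight₁]
      push_cast
      linarith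
    have h2ε : (2 + ε) * Real.log (maxq f) ≤ (2 + ε) * (Real.log 4 + 2 * ht K x) :=
      mul_le_mul_of_nonneg_left hht (by linarith)
    have hdR' : |((discq f : ℤ) : ℝ)| = ‖((discq f : ℤ) : ℂ)‖ := (Complex.norm_intCast _).symm
    rw [hdR', Real.log_mul hdR.ne' (Finset.prod_ne_zero_iff.mpr fun t _ => (hdp t).ne'),
      Real.log_prod (fun t _ => (hdp t).ne')]
    have hprox : proxS p ι ι' D K x * 2 ≤
        (C₀ + (2 * Real.log (maxq f) - Real.log ‖evK f (OnePoint.map ι α)‖ -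
          Real.log ‖evK f (OnePoint.map ι β)‖)) +
        (∑ t, Ct t - ∑ t, Real.log ‖evK f (OnePoint.map (ι' t) (α' t))‖ -
          ∑ t, Real.log ‖evK f (OnePoint.map (ι' t) (β' t))‖) := by
      rw [proxS, hK]
      push_cast
      rw [div_mul_cancel₀ _ (two_ne_zero)]
      exact add_le_add hinf hfin'
    change Real.log (cw w) + -ε * Real.log (maxq f) ≤
      Real.log ‖evK f (OnePoint.map ι α)‖ + Real.log ‖evK f (OnePoint.map ι β)‖ + _ + _ at hlog
    linarith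

end Pool.Agent.SST
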