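import Pool.Agent.SST.AllForm
import Pool.Agent.SST.ProxFinalS

/-! The height inequality for all quadratic points and every finite set of places. -/

open MvPolynomial

namespace Pool.Agent.SST

open scoped BigOperators

section Local

variable {A : Type} [NormedField A] [CharZero A]

/-- the proximity at one place in terms of the values of the form -/
lemma local_sum [IsAlgClosed A] (ι : AlgebraicClosure ℚ →+* A)
    (D : Finset (OnePoint (AlgebraicClosure ℚ))) (dist : A → OnePoint A → ℝ)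
    (hdist : ∀ α : OnePoint A, ∃ Cα : ℝ, ∀ (f : Fin 3 → ℤ) (ξ₁ ξ₂ : A), f 0 ≠ 0 →
      (∀ z : A, (f 0 : A) * z ^ 2 + (f 1 : A) * z + (f 2 : A) = f 0 * (z - ξ₁) * (z - ξ₂)) →
      evK f α ≠ 0 → -Real.log (dist ξ₁ α) + -Real.log (dist ξ₂ α) ≤
        Cα + (Real.log (nf A f) - Real.log ‖evK f α‖)) :
    ∃ C : ℝ, ∀ (K : Type) [Field K] [NumberField K], Module.finrank ℚ K = 2 → ∀ x : K,
      x ∉ Set.range (algebraMap ℚ K) →
      (∀ σ : K →+* A, ∀ γ ∈ D, OnePoint.map ι γ ≠ ((σ x : A) : OnePoint A)) →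
      ∀ f : Fin 3 → ℤ, (f 0 : K) * x ^ 2 + (f 1 : K) * x + (f 2 : K) = 0 → f ≠ 0 →
        f 0 ≠ 0 ∧ (∀ γ ∈ D, evK f (OnePoint.map ι γ) ≠ 0) ∧
          ∑ σ : K →+* A, ∑ γ ∈ D, -Real.log (dist (σ x) (OnePoint.map ι γ)) ≤
            C + ∑ γ ∈ D, (Real.log (nf A f) - Real.log ‖evK f (OnePoint.map ι γ)‖) := by
  classical
  choose Cα hCα using hdist
  refine ⟨∑ γ ∈ D, Cα (OnePoint.map ι γ), ?_⟩
  intro K _ _ hK x hx hσ f hf hf0
  obtain ⟨ξ₁, ξ₂, hsum, h00, hroots, hξne, ⟨σ₁, hσ₁⟩, ⟨σ₂, hσ₂⟩⟩ :=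
    exists_rootsA A K hK x hx f hf hf0
  have h00' : (f 0 : A) ≠ 0 := by exact_mod_cast h00
  have hev : ∀ γ ∈ D, evK f (OnePoint.map ι γ) ≠ 0 := by
    intro γ hγ
    have h1 := hσ σ₁ γ hγ
    have h2 := hσ σ₂ γ hγ
    rw [hσ₁] at h1
    rw [hσ₂] at h2
    generalize OnePoint.map ι γ = δ at h1 h2
    rcases δ with _ | z
    · exact h00'
    · change (f 0 : A) * z ^ 2 + (f 1 : A) * z + (f 2 : A) ≠ 0
      rw [hroots z]
      refine mul_ne_zero (mul_ne_zero h00' (sub_ne_zero.mpr ?_)) (sub_ne_zero.mpr ?_)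
      · intro hz
        exact h1 (by rw [hz]; rfl)
      · intro hz
        exact h2 (by rw [hz]; rfl)
  refine ⟨h00, hev, ?_⟩
  rw [Finset.sum_comm, ← Finset.sum_add_distrib]
  refine Finset.sum_le_sum fun γ hγ => ?_
  rw [hsum (fun z => -Real.log (dist z (OnePoint.map ι γ)))]
  exact hCα (OnePoint.map ι γ) f ξ₁ ξ₂ h00 hroots (hev γ hγ)

end Local

/-- the discriminant of an irrational quadratic number is not a square -/
lemma not_isSquare_disc (K : Type) [Field K] [NumberField K] (x : K)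
    (hx : x ∉ Set.range (algebraMap ℚ K)) (f : Fin 3 → ℤ) (h0 : f 0 ≠ 0)
    (hf : (f 0 : K) * x ^ 2 + (f 1 : K) * x + (f 2 : K) = 0) : ¬ IsSquare (discq f) := by
  rintro ⟨s, hs⟩
  have h0' : (f 0 : K) ≠ 0 := by exact_mod_cast h0
  have h1 : (2 * (f 0 : K) * x + (f 1 : K)) ^ 2 = (s : K) ^ 2 := by
    have h2 : ((discq f : ℤ) : K) = (s : K) * (s : K) := by rw [hs]; push_cast; ring
    rw [discq] at h2
    push_cast at h2
    linear_combination (4 * (f 0 : K)) * hf + h2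
  rcases sq_eq_sq_iff_eq_or_eq_neg.mp h1 with h2 | h2
  · apply hx
    refine ⟨((s : ℚ) - f 1) / (2 * f 0), ?_⟩
    rw [map_div₀]
    simp only [map_sub, map_mul, map_intCast, map_ofNat]
    rw [div_eq_iff (by simpa using h0')]
    linear_combination -h2
  · apply hx
    refine ⟨(-(s : ℚ) - f 1) / (2 * f 0), ?_⟩
    rw [map_div₀]
    simp only [map_sub, map_mul, map_intCast, map_ofNat, map_neg]
    rw [div_eq_iff (by simpa using h0')]
    linear_combination -h2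

theorem all_S {r : ℕ} (p : Fin r → ℕ) [∀ t, Fact (p t).Prime] (hp : Function.Injective p)
    (ι : AlgebraicClosure ℚ →+* ℂ) (ι' : ∀ t, AlgebraicClosure ℚ →+* ℂ_[p t])
    (D : Finset (OnePoint (AlgebraicClosure ℚ))) (ε : ℝ) (hε : 0 < ε) :
    ∃ C : ℝ, ∀ (K : Type) [Field K] [NumberField K], Module.finrank ℚ K = 2 → ∀ x : K,
      x ∉ Set.range (algebraMap ℚ K) →
      (∀ σ : K →+* ℂ, ∀ γ ∈ D, OnePoint.map ι γ ≠ ((σ x : ℂ) : OnePoint ℂ)) →
      (∀ t, ∀ σ : K →+* ℂ_[p t], ∀ γ ∈ D,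
        OnePoint.map (ι' t) γ ≠ ((σ x : ℂ_[p t]) : OnePoint ℂ_[p t])) →
      ∀ f : Fin 3 → ℤ, (f 0 : K) * x ^ 2 + (f 1 : K) * x + (f 2 : K) = 0 →
      (∀ d : ℤ, (∀ i, d ∣ f i) → IsUnit d) →
        proxS p ι ι' D K x ≤ (2 + ε) * ht K x + Real.log (|((discq f : ℤ) : ℝ)| *
          ∏ t, ‖((discq f : ℤ) : ℂ_[p t])‖) / 2 + C := by
  classical
  obtain ⟨C₁, hC₁⟩ := all_form p hp ι ι' D ε hε
  obtain ⟨C₀, hC₀⟩ := local_sum (A := ℂ) ι D chord (fun α => by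
    obtain ⟨Cα, hCα⟩ := chord_sum α
    refine ⟨Cα, fun f ξ₁ ξ₂ h0 h hev => ?_⟩
    rw [evK_complex] at hev ⊢
    rw [nf_complexQ]
    exact hCα f ξ₁ ξ₂ h0 h hev)
  have hloc : ∀ t, _ := fun t => local_sum (A := ℂ_[p t]) (ι' t) D chordM
    (fun α => chord_sumA α)
  choose Ct hCt using hloc
  refine ⟨(C₁ + C₀ + ∑ t, Ct t + (2 + ε) * Real.log 4) / 2, ?_⟩
  intro K _ _ hK x hx hσ hσ' f hf hgcd
  have hf0 : f ≠ 0 := by
    intro h0
    have := hgcd 2 (fun i => by rw [h0]; exact dvd_zero _)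
    rw [Int.isUnit_iff] at this
    omega
  obtain ⟨h00, hev, hinf⟩ := hC₀ K hK x hx hσ f hf hf0
  have hpl := fun t => hCt t K hK x hx (hσ' t) f hf hf0
  have hnsq := not_isSquare_disc K x hx f h00 hf
  have hdisc : discq f ≠ 0 := fun h0 => hnsq (h0 ▸ ⟨0, by simp⟩)
  have hevQ : ∀ γ ∈ D, evK f γ ≠ 0 := by
    intro γ hγ h0
    have h1 := (placesQ_evK p ι ι' f γ).1
    rw [h0, map_zero] at h1
    exact hev γ hγ (norm_eq_zero.mp h1.symm)
  have h1 := hC₁ f hgcd hnsq hevQ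
  have hmax1 : 1 ≤ maxq f := one_le_maxq hdisc
  have hmax0 : 0 < maxq f := by linarith
  rw [nf_complexQ] at hinf
  have hfin : ∑ t, ∑ σ : K →+* ℂ_[p t], ∑ γ ∈ D,
      -Real.log (chordM (σ x) (OnePoint.map (ι' t) γ)) ≤
      ∑ t, Ct t + ∑ t, ∑ γ ∈ D, (-Real.log ‖evK f (OnePoint.map (ι' t) γ)‖) := by
    rw [← Finset.sum_add_distrib]
    refine Finset.sum_le_sum fun t _ => (hpl t).2.2.trans ?_
    have h2 : Real.log (nf ℂ_[p t] f) ≤ 0 := Real.log_nonpos (nf_nonneg f) (nf_padic_le (p t) f)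
    have h3 : ∑ γ ∈ D, (Real.log (nf ℂ_[p t] f) - Real.log ‖evK f (OnePoint.map (ι' t) γ)‖) ≤
        ∑ γ ∈ D, (-Real.log ‖evK f (OnePoint.map (ι' t) γ)‖) :=
      Finset.sum_le_sum fun γ _ => by linarith
    linarith
  have hht : Real.log (maxq f) ≤ Real.log 4 + 2 * ht K x := by
    have h1 := maxq_le_height K hK x hx f hf hgcd
    have h2 := Real.log_le_log hmax0 h1
    rw [Real.log_mul (by norm_num) (Height.mulHeight₁_ne_zero x)] at h2
    rw [ht, hK, Height.logHeight₁_eq_log_mulHeight₁]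
    push_cast
    linarith
  have h2ε : (2 + ε) * Real.log (maxq f) ≤ (2 + ε) * (Real.log 4 + 2 * ht K x) :=
    mul_le_mul_of_nonneg_left hht (by linarith)
  have hdp : ∀ t, ‖((discq f : ℤ) : ℂ_[p t])‖ ≠ 0 :=
    fun t => norm_ne_zero_iff.mpr (by exact_mod_cast hdisc)
  rw [Real.log_mul (abs_ne_zero.mpr (by exact_mod_cast hdisc))
    (Finset.prod_ne_zero_iff.mpr fun t _ => hdp t), Real.log_prod (fun t _ => hdp t)]
  have hprox : proxS p ι ι' D K x * 2 ≤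
      (C₀ + ∑ γ ∈ D, (Real.log (maxq f) - Real.log ‖evK f (OnePoint.map ι γ)‖)) +
      (∑ t, Ct t + ∑ t, ∑ γ ∈ D, (-Real.log ‖evK f (OnePoint.map (ι' t) γ)‖)) := by
    rw [proxS, hK]
    push_cast
    rw [div_mul_cancel₀ _ (two_ne_zero)]
    exact add_le_add hinf hfin
  linarith

end Pool.Agent.SST
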