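import Pool.Agent.SST.GenFormK
import Pool.Agent.SST.ProxDefsK
import Pool.Agent.SST.ProdK
import Pool.Agent.SST.BalancedK
import Pool.Agent.SST.LocalK
import Pool.Agent.SST.HeightK
import Pool.Agent.SST.DiscK

/-! The height inequality for all quadratic points over a number field. -/

open MvPolynomial Filter Module NumberField
open scoped Topology

namespace Pool.Agent.SST

lemma neg_log_distK {A : Type} [NormedField A] (y z : A) (hy : y ≠ 0) (n : ℕ) :
    -Real.log (‖y‖ / max 1 ‖z‖ ^ n) = n * Real.log (max 1 ‖z‖) - Real.log ‖y‖ := by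
  have h1 : (0 : ℝ) < max 1 ‖z‖ := lt_of_lt_of_le one_pos (le_max_left _ _)
  rw [Real.log_div (norm_ne_zero_iff.mpr hy) (pow_ne_zero _ h1.ne'), Real.log_pow]
  ring

section K

variable {k : Type} [Field k] [NumberField k]

lemma sum_PlK {T : Type} [Fintype T] {p : T → ℕ} [∀ t, Fact (p t).Prime] (G : PlK k p → ℝ) :
    ∑ l : PlK k p, G l = ∑ ρ : k →+* ℂ, G (Sum.inl ρ) +
      ∑ t, ∑ ρ : k →+* ℂ_[p t], G (Sum.inr ⟨t, ρ⟩) := by
  rw [Fintype.sum_sum_type, Fintype.sum_sigma]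

lemma VK_inl {r : ℕ} {p : Fin r → ℕ} [∀ t, Fact (p t).Prime] (e : ExtK k p) (ρ : k →+* ℂ)
    (z : AlgebraicClosure k) : VK e (Sum.inl ρ) z = ‖e.E ρ z‖ := rfl

lemma VK_inr {r : ℕ} {p : Fin r → ℕ} [∀ t, Fact (p t).Prime] (e : ExtK k p) (t : Fin r)
    (ρ : k →+* ℂ_[p t]) (z : AlgebraicClosure k) :
    VK e (Sum.inr ⟨t, ρ⟩) z = ‖e.E' t ρ z‖ := rfl

lemma nfk_inl {r : ℕ} {p : Fin r → ℕ} [∀ t, Fact (p t).Prime] (ρ : k →+* ℂ) (f : Fin 3 → 𝓞 k) :
    nfk (Sum.inl ρ : PlK k p) f = nfA ρ f := rfl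

lemma nfk_inr {r : ℕ} {p : Fin r → ℕ} [∀ t, Fact (p t).Prime] (t : Fin r) (ρ : k →+* ℂ_[p t])
    (f : Fin 3 → 𝓞 k) : nfk (Sum.inr ⟨t, ρ⟩ : PlK k p) f = nfA ρ f := rfl

/-- from the forms to the points -/
theorem finishK {r : ℕ} {p : Fin r → ℕ} [∀ t, Fact (p t).Prime] (hp : Function.Injective p)
    (e : ExtK k p) (g : Polynomial k) (hg : Squarefree g) (n : ℕ)
    (hn : n = g.natDegree ∨ n = g.natDegree + 1) (B : ℝ) (hB : 1 ≤ B) (c : ℝ) (hc0 : 0 ≤ c)
    (ε : ℝ) (hε : 0 < ε) (C₁ : ℝ) :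
    ∃ C : ℝ, ∀ (K : Type) [Field K] [NumberField K] [Algebra k K], finrank k K = 2 → ∀ x : K,
      x ∉ Set.range (algebraMap k K) → Polynomial.aeval x g ≠ 0 → ∀ f : Fin 3 → 𝓞 k, f ≠ 0 →
      algebraMap k K (f 0) * x ^ 2 + algebraMap k K (f 1) * x + algebraMap k K (f 2) = 0 →
      (Ideal.absNorm (contentK f) : ℝ) ≤ B → 
      lhsK e (zeroSet g n) c f ≤ (2 + 2 * c + ε) * sizeK f + C₁ →
      ∀ F : ℕ, 0 < F → NumberField.discr k ^ 2 * |Algebra.norm ℤ (discK f)| =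
        (F : ℤ) ^ 2 * (Ideal.absNorm (contentK f) : ℤ) ^ 2 * |NumberField.discr K| →
      proxK p g n K x - 2 * ht K x ≤ c * (logDisc K +
        Real.log (F * ∏ t, ‖((F : ℕ) : ℚ_[p t])‖) / finrank ℚ k) + ε * ht K x + C := by
  classical
  have hd := finrank_posK (k := k)
  set d : ℝ := (finrank ℚ k : ℝ) with hdd
  obtain ⟨C₀, hC₀⟩ := local_sumK (A := ℂ) e.E e.hE g hg n hn
  have hloc : ∀ t, _ := fun t => local_sumK (A := ℂ_[p t]) (e.E' t) (e.hE' t) g hg n hn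
  choose Ct hCt using hloc
  have hlogB : 0 ≤ Real.log B := Real.log_nonneg hB
  set dk : ℝ := |(NumberField.discr k : ℝ)| with hdk
  have hdk1 : 1 ≤ dk := by
    rw [hdk]
    exact_mod_cast Int.one_le_abs (NumberField.discr_ne_zero k)
  refine ⟨(C₀ + ∑ t, Ct t + C₁ + 2 * c * (r * (d * Real.log B)) +
    c * (2 * Real.log B + 2 * (r * Real.log dk)) +
    (2 + ε) * (d * Real.log 4 + Real.log B)) / (2 * d), ?_⟩
  intro K _ _ _ hK x hx hgx f hf0 hf hcont hlhs F hF hFd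
  have hdK : (finrank ℚ K : ℝ) = 2 * d := by
    have h1 := Module.finrank_mul_finrank ℚ k K
    rw [hK] at h1
    rw [← h1, hdd]
    push_cast
    ring
  obtain ⟨h00, hnsq, hev, hinf⟩ := hC₀ K hK x hx hgx f hf0 hf
  have hpl := fun t => (hCt t K hK x hx hgx f hf0 hf).2.2.2
  have hdisc := kaux_disc_ne hnsq
  -- content
  have hI0 : Ideal.absNorm (contentK f) ≠ 0 := by
    intro h0
    rw [Ideal.absNorm_eq_zero_iff] at h0
    have h3 : f 0 ∈ contentK f := Ideal.subset_span ⟨0, rfl⟩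
    rw [h0] at h3
    exact h00 (by simpa using h3)
  have hI1 : (1 : ℝ) ≤ Ideal.absNorm (contentK f) := by
    exact_mod_cast Nat.one_le_iff_ne_zero.mpr hI0
  -- proximity
  have hprox : 2 * d * proxK p g n K x ≤ C₀ + ∑ t, Ct t +
      ∑ l : PlK k p, ∑ γ ∈ zeroSet g n, (Real.log (nfk l f) - Real.log (VK e l (evk f γ))) := by
    have h1 : 2 * d * proxK p g n K x =
        (∑ σ : K →+* ℂ, (n * Real.log (max 1 ‖σ x‖) - Real.log ‖σ (Polynomial.aeval x g)‖)) +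
        ∑ t, ∑ σ : K →+* ℂ_[p t],
          (n * Real.log (max 1 ‖σ x‖) - Real.log ‖σ (Polynomial.aeval x g)‖) := by
      rw [proxK, hdK, mul_div_cancel₀ _ (by positivity)]
      congr 1
      · exact Finset.sum_congr rfl fun σ _ => neg_log_distK _ _ ((map_ne_zero σ).mpr hgx) n
      · exact Finset.sum_congr rfl fun t _ => Finset.sum_congr rfl fun σ _ =>
          neg_log_distK _ _ ((map_ne_zero σ).mpr hgx) n
    rw [h1, sum_PlK]
    have h2 := Finset.sum_le_sum fun t (_ : t ∈ Finset.univ) => hpl t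
    rw [Finset.sum_add_distrib] at h2
    have h3 := add_le_add hinf h2
    refine h3.trans (le_of_eq ?_)
    have h4 : ∀ (A B C D : ℝ), A + C + (B + D) = A + B + (C + D) := fun A B C D => by ring
    rw [h4]
    simp only [nfk_inl, nfk_inr, VK_inl, VK_inr]
  -- sizes at all places
  have hsizes : sizeK f - r * (d * Real.log B) ≤ ∑ l : PlK k p, Real.log (nfk l f) := by
    rw [sum_PlK]
    have h1 : ∀ t (ρ : k →+* ℂ_[p t]), -Real.log B ≤ Real.log (nfA ρ f) := by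
      intro t ρ
      have e2 := nfA_padic_ge (p t) ρ f hf0
      have e4 : B⁻¹ ≤ nfA ρ f := le_trans (inv_anti₀ (by linarith) hcont) e2
      have e5 := Real.log_le_log (by positivity) e4
      rwa [Real.log_inv] at e5
    have h2 : -(r * (d * Real.log B)) ≤ ∑ t, ∑ ρ : k →+* ℂ_[p t], Real.log (nfA ρ f) := by
      have h3 : ∀ t, -(d * Real.log B) ≤ ∑ ρ : k →+* ℂ_[p t], Real.log (nfA ρ f) := by
        intro t
        have h4 := Finset.sum_le_sum fun (ρ : k →+* ℂ_[p t]) (_ : ρ ∈ Finset.univ) => h1 t ρ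
        rw [Finset.sum_const, Finset.card_univ, NumberField.Embeddings.card, nsmul_eq_mul] at h4
        linarith
      have h4 := Finset.sum_le_sum fun t (_ : t ∈ Finset.univ) => h3 t
      rw [Finset.sum_const, Finset.card_univ, Fintype.card_fin, nsmul_eq_mul] at h4
      linarith
    have h5 : ∑ ρ : k →+* ℂ, Real.log (nfk (Sum.inl ρ : PlK k p) f) = sizeK f := rfl
    have h6 : ∑ t, ∑ ρ : k →+* ℂ_[p t], Real.log (nfk (Sum.inr ⟨t, ρ⟩ : PlK k p) f) =
      ∑ t, ∑ ρ : k →+* ℂ_[p t], Real.log (nfA ρ f) := rfl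
    rw [h5, h6]
    linarith
  -- the discriminant
  have hN : Algebra.norm ℤ (discK f) ≠ 0 := by
    rw [Ne, Algebra.norm_eq_zero_iff]
    exact hdisc
  have hdK0 : NumberField.discr K ≠ 0 := NumberField.discr_ne_zero K
  have hF' : (0 : ℝ) < F := by exact_mod_cast hF
  have hnF : ∀ t, (0 : ℝ) < ‖((F : ℕ) : ℚ_[p t])‖ :=
    fun t => norm_pos_iff.mpr (by exact_mod_cast hF.ne')
  have hFdR : (NumberField.discr k : ℝ) ^ 2 * |((Algebra.norm ℤ (discK f) : ℤ) : ℝ)| =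
      (F : ℝ) ^ 2 * (Ideal.absNorm (contentK f) : ℝ) ^ 2 * |(NumberField.discr K : ℝ)| := by
    exact_mod_cast hFd
  have hdiscle : ∑ l : PlK k p, Real.log (vk l ((discK f : 𝓞 k) : k)) ≤
      2 * Real.log (F * ∏ t, ‖((F : ℕ) : ℚ_[p t])‖) + Real.log |(NumberField.discr K : ℝ)| +
        (2 * Real.log B + 2 * (r * Real.log dk)) := by
    rw [sum_log_vk hp _ hdisc]
    have h1 : |((Algebra.norm ℤ (discK f) : ℤ) : ℝ)| ≤
        (F : ℝ) ^ 2 * B ^ 2 * |(NumberField.discr K : ℝ)| := by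
      have e1 : (1 : ℝ) ≤ (NumberField.discr k : ℝ) ^ 2 := by
        rw [← sq_abs]
        exact one_le_pow₀ hdk1
      calc |((Algebra.norm ℤ (discK f) : ℤ) : ℝ)|
          ≤ (NumberField.discr k : ℝ) ^ 2 * |((Algebra.norm ℤ (discK f) : ℤ) : ℝ)| :=
            le_mul_of_one_le_left (abs_nonneg _) e1
        _ = (F : ℝ) ^ 2 * (Ideal.absNorm (contentK f) : ℝ) ^ 2 *
            |(NumberField.discr K : ℝ)| := hFdR
        _ ≤ (F : ℝ) ^ 2 * B ^ 2 * |(NumberField.discr K : ℝ)| := by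
            gcongr
    have h2 : ∀ t, ‖((Algebra.norm ℤ (discK f) : ℤ) : ℚ_[p t])‖ ≤
        ‖((F : ℕ) : ℚ_[p t])‖ ^ 2 * dk ^ 2 := by
      intro t
      have e1 : ‖((NumberField.discr k : ℤ) : ℚ_[p t])‖ ^ 2 *
          ‖((Algebra.norm ℤ (discK f) : ℤ) : ℚ_[p t])‖ ≤ ‖((F : ℕ) : ℚ_[p t])‖ ^ 2 := by
        have e2 : ∀ z : ℤ, ‖((|z| : ℤ) : ℚ_[p t])‖ = ‖((z : ℤ) : ℚ_[p t])‖ := by
          intro z
          rcases abs_choice z with hz | hz
          · rw [hz]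
          · rw [hz, Int.cast_neg, norm_neg]
        have e3 : ‖((NumberField.discr k ^ 2 * |Algebra.norm ℤ (discK f)| : ℤ) : ℚ_[p t])‖ =
            ‖(((F : ℤ) ^ 2 * (Ideal.absNorm (contentK f) : ℤ) ^ 2 * |NumberField.discr K| : ℤ) :
              ℚ_[p t])‖ := by rw [hFd]
        rw [Int.cast_mul, Int.cast_mul, Int.cast_mul, norm_mul, norm_mul, norm_mul, e2, e2,
          Int.cast_pow, Int.cast_pow, Int.cast_pow, norm_pow, norm_pow, norm_pow] at e3
        rw [e3]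
        have e4 : ‖(((Ideal.absNorm (contentK f) : ℕ) : ℤ) : ℚ_[p t])‖ ^ 2 ≤ 1 :=
          pow_le_one₀ (norm_nonneg _) (Padic.norm_int_le_one _)
        have e5 : ‖((NumberField.discr K : ℤ) : ℚ_[p t])‖ ≤ 1 := Padic.norm_int_le_one _
        have e6 : (0 : ℝ) ≤ ‖((F : ℕ) : ℚ_[p t])‖ ^ 2 := by positivity
        rw [Int.cast_natCast]
        calc ‖((F : ℕ) : ℚ_[p t])‖ ^ 2 *
              ‖(((Ideal.absNorm (contentK f) : ℕ) : ℤ) : ℚ_[p t])‖ ^ 2 *
              ‖((NumberField.discr K : ℤ) : ℚ_[p t])‖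
            ≤ ‖((F : ℕ) : ℚ_[p t])‖ ^ 2 * 1 * 1 := by
              gcongr
          _ = ‖((F : ℕ) : ℚ_[p t])‖ ^ 2 := by ring
      have e7 : dk⁻¹ ≤ ‖((NumberField.discr k : ℤ) : ℚ_[p t])‖ := by
        have := kaux_padic_inv_le (p t) (NumberField.discr k) (NumberField.discr_ne_zero k)
        rwa [norm_intCast_padic] at this
      have e8 : (dk⁻¹) ^ 2 * ‖((Algebra.norm ℤ (discK f) : ℤ) : ℚ_[p t])‖ ≤
          ‖((F : ℕ) : ℚ_[p t])‖ ^ 2 := by
        refine le_trans ?_ e1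
        gcongr
      have e9 : (0 : ℝ) < dk ^ 2 := by positivity
      calc ‖((Algebra.norm ℤ (discK f) : ℤ) : ℚ_[p t])‖
          = (dk⁻¹) ^ 2 * ‖((Algebra.norm ℤ (discK f) : ℤ) : ℚ_[p t])‖ * dk ^ 2 := by
            field_simp
        _ ≤ ‖((F : ℕ) : ℚ_[p t])‖ ^ 2 * dk ^ 2 := mul_le_mul_of_nonneg_right e8 e9.le
    have h3 : ∏ t, ‖((Algebra.norm ℤ (discK f) : ℤ) : ℚ_[p t])‖ ≤
        (∏ t, ‖((F : ℕ) : ℚ_[p t])‖) ^ 2 * dk ^ (2 * r) := by
      calc ∏ t, ‖((Algebra.norm ℤ (discK f) : ℤ) : ℚ_[p t])‖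
          ≤ ∏ t, (‖((F : ℕ) : ℚ_[p t])‖ ^ 2 * dk ^ 2) :=
            Finset.prod_le_prod (fun t _ => norm_nonneg _) fun t _ => h2 t
        _ = (∏ t, ‖((F : ℕ) : ℚ_[p t])‖) ^ 2 * dk ^ (2 * r) := by
            rw [Finset.prod_mul_distrib, Finset.prod_pow, Finset.prod_const, Finset.card_univ,
              Fintype.card_fin, ← pow_mul]
    have hprod : 0 < ∏ t, ‖((F : ℕ) : ℚ_[p t])‖ := Finset.prod_pos fun t _ => hnF t
    have hdKR : (0 : ℝ) < |(NumberField.discr K : ℝ)| := abs_pos.mpr (by exact_mod_cast hdK0)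
    have h4 : |((Algebra.norm ℤ (discK f) : ℤ) : ℝ)| *
        ∏ t, ‖((Algebra.norm ℤ (discK f) : ℤ) : ℚ_[p t])‖ ≤
        ((F * ∏ t, ‖((F : ℕ) : ℚ_[p t])‖) ^ 2 * |(NumberField.discr K : ℝ)|) *
          (B ^ 2 * dk ^ (2 * r)) := by
      calc |((Algebra.norm ℤ (discK f) : ℤ) : ℝ)| *
          ∏ t, ‖((Algebra.norm ℤ (discK f) : ℤ) : ℚ_[p t])‖
          ≤ ((F : ℝ) ^ 2 * B ^ 2 * |(NumberField.discr K : ℝ)|) *
            ((∏ t, ‖((F : ℕ) : ℚ_[p t])‖) ^ 2 * dk ^ (2 * r)) :=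
            mul_le_mul h1 h3 (Finset.prod_nonneg fun t _ => norm_nonneg _) (by positivity)
        _ = _ := by ring
    have h5 : 0 < |((Algebra.norm ℤ (discK f) : ℤ) : ℝ)| *
        ∏ t, ‖((Algebra.norm ℤ (discK f) : ℤ) : ℚ_[p t])‖ :=
      mul_pos (abs_pos.mpr (by exact_mod_cast hN))
        (Finset.prod_pos fun t _ => norm_pos_iff.mpr (by exact_mod_cast hN))
    have h6 := Real.log_le_log h5 h4
    have h7 : Real.log (((F * ∏ t, ‖((F : ℕ) : ℚ_[p t])‖) ^ 2 * |(NumberField.discr K : ℝ)|) *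
          (B ^ 2 * dk ^ (2 * r))) = 2 * Real.log (F * ∏ t, ‖((F : ℕ) : ℚ_[p t])‖) +
          Real.log |(NumberField.discr K : ℝ)| + (2 * Real.log B + 2 * (r * Real.log dk)) := by
      have a1 : (0 : ℝ) < (F * ∏ t, ‖((F : ℕ) : ℚ_[p t])‖) ^ 2 := by positivity
      have a2 : (0 : ℝ) < B ^ 2 := by positivity
      have a3 : (0 : ℝ) < dk ^ (2 * r) := by positivity
      rw [Real.log_mul (mul_pos a1 hdKR).ne' (mul_pos a2 a3).ne', Real.log_mul a1.ne' hdKR.ne',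
        Real.log_mul a2.ne' a3.ne', Real.log_pow, Real.log_pow, Real.log_pow]
      push_cast
      ring
    rw [h7] at h6
    exact h6
  -- the height
  have hsizeht : sizeK f ≤ d * Real.log 4 + Real.log B + 2 * d * ht K x := by
    have h1 := heightK K hK x hx f hf0 hf
    have h2 : sizeK f = Real.log (∏ ρ : k →+* ℂ, nfA ρ f) := by
      rw [Real.log_prod (fun ρ _ => (nfA_pos ρ f hf0).ne')]
      rfl
    have h3 := Real.log_le_log (Finset.prod_pos fun ρ _ => nfA_pos ρ f hf0) h1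
    have hI : (0 : ℝ) < Ideal.absNorm (contentK f) := by linarith
    rw [Real.log_mul (by positivity) (Height.mulHeight₁_ne_zero x),
      Real.log_mul (by positivity) hI.ne', Real.log_pow] at h3
    have h4 := Real.log_le_log hI hcont
    have h5 : 2 * d * ht K x = Real.log (Height.mulHeight₁ x) := by
      rw [ht, hdK, Height.logHeight₁_eq_log_mulHeight₁, mul_div_cancel₀ _ (by positivity)]
    rw [h2, h5]
    linarith
  -- conclusion
  have hlhs2 : lhsK e (zeroSet g n) c f =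
      ∑ l : PlK k p, ∑ γ ∈ zeroSet g n, (Real.log (nfk l f) - Real.log (VK e l (evk f γ))) +
      2 * c * ∑ l : PlK k p, Real.log (nfk l f) -
      c * ∑ l : PlK k p, Real.log (vk l ((discK f : 𝓞 k) : k)) := by
    rw [lhsK, Finset.sum_add_distrib, ← Finset.mul_sum, Finset.sum_sub_distrib, ← Finset.mul_sum]
    ring
  rw [hlhs2] at hlhs
  have k1 : 2 * c * (sizeK f - r * (d * Real.log B)) ≤
      2 * c * ∑ l : PlK k p, Real.log (nfk l f) :=
    mul_le_mul_of_nonneg_left hsizes (by linarith)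
  have k2 := mul_le_mul_of_nonneg_left hdiscle hc0
  have k3 : (2 + ε) * sizeK f ≤ (2 + ε) * (d * Real.log 4 + Real.log B + 2 * d * ht K x) :=
    mul_le_mul_of_nonneg_left hsizeht (by linarith)
  have k4 : 2 * d * proxK p g n K x ≤ 2 * d * (2 * ht K x + c * (logDisc K +
        Real.log (F * ∏ t, ‖((F : ℕ) : ℚ_[p t])‖) / d) + ε * ht K x +
      (C₀ + ∑ t, Ct t + C₁ + 2 * c * (r * (d * Real.log B)) +
      c * (2 * Real.log B + 2 * (r * Real.log dk)) +
      (2 + ε) * (d * Real.log 4 + Real.log B)) / (2 * d)) := by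
    have m1 : 2 * d * (2 * ht K x + c * (logDisc K +
        Real.log (F * ∏ t, ‖((F : ℕ) : ℚ_[p t])‖) / d) + ε * ht K x +
      (C₀ + ∑ t, Ct t + C₁ + 2 * c * (r * (d * Real.log B)) +
      c * (2 * Real.log B + 2 * (r * Real.log dk)) +
      (2 + ε) * (d * Real.log 4 + Real.log B)) / (2 * d)) =
      (2 + ε) * (2 * d * ht K x) + c * (Real.log |(NumberField.discr K : ℝ)| +
        2 * Real.log (F * ∏ t, ‖((F : ℕ) : ℚ_[p t])‖)) +
      (C₀ + ∑ t, Ct t + C₁ + 2 * c * (r * (d * Real.log B)) +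
      c * (2 * Real.log B + 2 * (r * Real.log dk)) +
      (2 + ε) * (d * Real.log 4 + Real.log B)) := by
      rw [logDisc, hdK]
      field_simp
      ring
    rw [m1]
    linarith
  have k5 := le_of_mul_le_mul_left k4 (by positivity)
  linarith

end K

/-- facts on a balanced representative -/
lemma balanced_facts {k : Type} [Field k] [NumberField k] {B : ℝ}
    (hbal : ∀ f : Fin 3 → 𝓞 k, f ≠ 0 →
    ∃ (c : k) (g : Fin 3 → 𝓞 k), c ≠ 0 ∧ (∀ i, (g i : k) = c * f i) ∧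
      (Ideal.absNorm (contentK g) : ℝ) ≤ B ∧
      ∀ ρ ρ' : k →+* ℂ, nfA ρ g ≤ B * nfA ρ' g)
    (K : Type) [Field K] [NumberField K] [Algebra k K] (x : K)
    (f : Fin 3 → 𝓞 k) (hf0 : f ≠ 0)
    (hf : algebraMap k K (f 0) * x ^ 2 + algebraMap k K (f 1) * x + algebraMap k K (f 2) = 0)
    (F : ℕ) (hFd : NumberField.discr k ^ 2 * |Algebra.norm ℤ (discK f)| =
        (F : ℤ) ^ 2 * (Ideal.absNorm (contentK f) : ℤ) ^ 2 * |NumberField.discr K|) :
    ∃ (c : k) (f' : Fin 3 → 𝓞 k), c ≠ 0 ∧ (∀ i, (f' i : k) = c * f i) ∧ f' ≠ 0 ∧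
      (Ideal.absNorm (contentK f') : ℝ) ≤ B ∧ (∀ ρ ρ' : k →+* ℂ, nfA ρ f' ≤ B * nfA ρ' f') ∧
      algebraMap k K (f' 0) * x ^ 2 + algebraMap k K (f' 1) * x + algebraMap k K (f' 2) = 0 ∧
      NumberField.discr k ^ 2 * |Algebra.norm ℤ (discK f')| =
        (F : ℤ) ^ 2 * (Ideal.absNorm (contentK f') : ℤ) ^ 2 * |NumberField.discr K| := by
  obtain ⟨c, f', hc, hfc, hcont, hbalf⟩ := hbal f hf0
  refine ⟨c, f', hc, hfc, ?_, hcont, hbalf, ?_, ?_⟩
  · intro h0
    apply hf0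
    funext i
    have h1 := hfc i
    rw [h0] at h1
    have h2 : (f i : k) = 0 := by
      rcases mul_eq_zero.mp h1.symm with h3 | h3
      · exact absurd h3 hc
      · exact h3
    exact RingOfIntegers.coe_eq_zero_iff.mp h2
  · rw [hfc, hfc, hfc, map_mul, map_mul, map_mul]
    linear_combination (algebraMap k K c) * hf
  · have hsc := absNorm_scale c hc f f' hfc
    have hI0 : (Ideal.absNorm (contentK f) : ℤ) ≠ 0 := by
      intro h0
      have h0' : Ideal.absNorm (contentK f) = 0 := by exact_mod_cast h0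
      rw [Ideal.absNorm_eq_zero_iff] at h0'
      apply hf0
      funext i
      have h3 : f i ∈ contentK f := Ideal.subset_span ⟨i, rfl⟩
      rw [h0'] at h3
      simpa using h3
    apply mul_right_cancel₀ (pow_ne_zero 2 hI0)
    linear_combination (NumberField.discr k ^ 2) * hsc +
      (Ideal.absNorm (contentK f') : ℤ) ^ 2 * hFd

/-- the inequality for all quadratic points -/
theorem all_SK (k : Type) [Field k] [NumberField k] {r : ℕ} (p : Fin r → ℕ)
    [∀ t, Fact (p t).Prime] (hp : Function.Injective p) (g : Polynomial k) (hg : Squarefree g)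
    (n : ℕ) (hn : n = g.natDegree ∨ n = g.natDegree + 1) (ε : ℝ) (hε : 0 < ε) :
    ∃ C : ℝ, ∀ (K : Type) [Field K] [NumberField K] [Algebra k K], finrank k K = 2 → ∀ x : K,
      x ∉ Set.range (algebraMap k K) → Polynomial.aeval x g ≠ 0 → ∀ f : Fin 3 → 𝓞 k, f ≠ 0 →
      algebraMap k K (f 0) * x ^ 2 + algebraMap k K (f 1) * x + algebraMap k K (f 2) = 0 →
      ∃ F : ℕ, 0 < F ∧ NumberField.discr k ^ 2 * |Algebra.norm ℤ (discK f)| =
        (F : ℤ) ^ 2 * (Ideal.absNorm (contentK f) : ℤ) ^ 2 * |NumberField.discr K| ∧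
      proxK p g n K x - 2 * ht K x ≤ logDisc K +
        Real.log (F * ∏ t, ‖((F : ℕ) : ℚ_[p t])‖) / finrank ℚ k + ε * ht K x + C := by
  obtain ⟨e⟩ := exists_extK (k := k) (p := p)
  obtain ⟨B, hB, hbal⟩ := exists_balanced k
  obtain ⟨C₁, hC₁⟩ := all_formK e hp B hB (zeroSet g n) ε hε
  obtain ⟨C, hC⟩ := finishK hp e g hg n hn B hB 1 zero_le_one ε hε C₁
  refine ⟨C, ?_⟩
  intro K _ _ _ hK x hx hgx f hf0 hf
  obtain ⟨F, hF, hFd⟩ := exists_condK K hK x hx f hf0 hf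
  refine ⟨F, hF, hFd, ?_⟩
  obtain ⟨c, f', hc, hfc, hf0', hcont, hbalf, hf', hFd'⟩ := balanced_facts hbal K x f hf0 hf F hFd
  obtain ⟨C₀, hC₀⟩ := local_sumK (A := ℂ) e.E e.hE g hg n hn
  obtain ⟨h00, hnsq, hev, -⟩ := hC₀ K hK x hx hgx f' hf0' hf'
  have h1 := hC₁ f' hcont hbalf hnsq hev
  have h2 := hC K hK x hx hgx f' hf0' hf' hcont (by linarith) F hF hFd'
  rw [one_mul] at h2
  linarith

/-- the inequality with half of the discriminant outside finitely many curves -/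
theorem gen_SK (k : Type) [Field k] [NumberField k] {r : ℕ} (p : Fin r → ℕ)
    [∀ t, Fact (p t).Prime] (hp : Function.Injective p) (g : Polynomial k) (hg : Squarefree g)
    (n : ℕ) (hn : n = g.natDegree ∨ n = g.natDegree + 1) (ε : ℝ) (hε : 0 < ε) :
    ∃ (C : ℝ) (G : MvPolynomial (Fin 3) (𝓞 k)) (m : ℕ), G ≠ 0 ∧ G.IsHomogeneous m ∧
      ∀ (K : Type) [Field K] [NumberField K] [Algebra k K], finrank k K = 2 → ∀ x : K,
      x ∉ Set.range (algebraMap k K) → Polynomial.aeval x g ≠ 0 → ∀ f : Fin 3 → 𝓞 k, f ≠ 0 →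
      algebraMap k K (f 0) * x ^ 2 + algebraMap k K (f 1) * x + algebraMap k K (f 2) = 0 →
      MvPolynomial.eval f G ≠ 0 →
      ∃ F : ℕ, 0 < F ∧ NumberField.discr k ^ 2 * |Algebra.norm ℤ (discK f)| =
        (F : ℤ) ^ 2 * (Ideal.absNorm (contentK f) : ℤ) ^ 2 * |NumberField.discr K| ∧
      proxK p g n K x - 2 * ht K x ≤ (logDisc K +
        Real.log (F * ∏ t, ‖((F : ℕ) : ℚ_[p t])‖) / finrank ℚ k) / 2 + ε * ht K x + C := by
  obtain ⟨e⟩ := exists_extK (k := k) (p := p)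
  obtain ⟨B, hB, hbal⟩ := exists_balanced k
  obtain ⟨C₁, G, m, hG0, hGh, hC₁⟩ := gen_formK e hp B hB (zeroSet g n) ε hε
  obtain ⟨C, hC⟩ := finishK hp e g hg n hn B hB (1 / 2) (by norm_num) ε hε C₁
  refine ⟨C, G, m, hG0, hGh, ?_⟩
  intro K _ _ _ hK x hx hgx f hf0 hf hGf
  obtain ⟨F, hF, hFd⟩ := exists_condK K hK x hx f hf0 hf
  refine ⟨F, hF, hFd, ?_⟩
  obtain ⟨c, f', hc, hfc, hf0', hcont, hbalf, hf', hFd'⟩ := balanced_facts hbal K x f hf0 hf F hFd
  obtain ⟨C₀, hC₀⟩ := local_sumK (A := ℂ) e.E e.hE g hg n hn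
  obtain ⟨h00, hnsq, hev, -⟩ := hC₀ K hK x hx hgx f' hf0' hf'
  have hGf' : MvPolynomial.eval f' G ≠ 0 := by
    intro h0
    apply hGf
    have e1 : ∀ y : Fin 3 → 𝓞 k, algebraMap (𝓞 k) k (MvPolynomial.eval y G) =
        MvPolynomial.eval₂ (algebraMap (𝓞 k) k) (fun i => (y i : k)) G := by
      intro y
      have h1 := MvPolynomial.eval₂_comp_left (algebraMap (𝓞 k) k) (RingHom.id (𝓞 k)) y G
      have h2 : MvPolynomial.eval₂ (RingHom.id (𝓞 k)) y G = MvPolynomial.eval y G := rfl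
      rw [h2] at h1
      rw [h1]
      rfl
    have e2 : MvPolynomial.eval₂ (algebraMap (𝓞 k) k) (fun i => (f' i : k)) G =
        c ^ m * MvPolynomial.eval₂ (algebraMap (𝓞 k) k) (fun i => (f i : k)) G := by
      have h3 : (fun i => (f' i : k)) = fun i => c * (f i : k) := funext hfc
      rw [h3, MvPolynomial.eval₂_eq', MvPolynomial.eval₂_eq', Finset.mul_sum]
      refine Finset.sum_congr rfl fun d hd => ?_
      have h1 : ∑ i, d i = m := by
        rw [hGh.degree_eq_sum_deg_support hd]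
        refine (Finset.sum_subset (Finset.subset_univ _) fun i _ hi => ?_).symm
        exact Finsupp.notMem_support_iff.mp hi
      rw [← h1, ← Finset.prod_pow_eq_pow_sum, mul_left_comm, ← Finset.prod_mul_distrib]
      congr 1
      exact Finset.prod_congr rfl fun i _ => mul_pow _ _ _
    have e3 := e1 f'
    rw [h0, map_zero, e2, ← e1] at e3
    rcases mul_eq_zero.mp e3.symm with h4 | h4
    · exact absurd h4 (pow_ne_zero m hc)
    · exact RingOfIntegers.coe_eq_zero_iff.mp h4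
  have h1 := hC₁ f' hcont hbalf hnsq hev hGf'
  have h2 := hC K hK x hx hgx f' hf0' hf' hcont (by linarith) F hF hFd'
  linarith

end Pool.Agent.SST
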