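import Pool.Agent.SST.ProxDefs
import Mathlib.NumberTheory.Padics.Complex

/-! Proximity functions for a finite set of places of the rational numbers. -/

namespace Pool.Agent.SST

/-- The chordal distance of the points `(z : 1)` and `α` of the projective line over a
nonarchimedean normed field `A`, where `OnePoint A` is the projective line, `∞` being the point
`(1 : 0)`. -/
noncomputable def chordM {A : Type} [NormedField A] (z : A) (α : OnePoint A) : ℝ :=
  match α with
  | OnePoint.infty => 1 / max 1 ‖z‖
  | OnePoint.some w => ‖z - w‖ / (max 1 ‖z‖ * max 1 ‖w‖)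

/-- The proximity function `m(D, P)` for the divisor `∑ α ∈ D, (α)` of the projective line over
the algebraic closure of `ℚ`, the point `P = (x : 1)` with residue field `K = ℚ(x)` and the places
`∞, p 0, ..., p (r - 1)` of `ℚ`; `ι` and `ι' t` are the chosen embeddings of the algebraic closure
of `ℚ` into `ℂ` and into `ℂ_[p t]`. -/
noncomputable def proxS {r : ℕ} (p : Fin r → ℕ) [∀ t, Fact (p t).Prime]
    (ι : AlgebraicClosure ℚ →+* ℂ) (ι' : ∀ t, AlgebraicClosure ℚ →+* ℂ_[p t])
    (D : Finset (OnePoint (AlgebraicClosure ℚ))) (K : Type) [Field K] [NumberField K] (x : K) : ℝ :=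
  ((∑ σ : K →+* ℂ, ∑ α ∈ D, -Real.log (chord (σ x) (OnePoint.map ι α))) +
    ∑ t, ∑ σ : K →+* ℂ_[p t], ∑ α ∈ D, -Real.log (chordM (σ x) (OnePoint.map (ι' t) α))) /
    Module.finrank ℚ K

end Pool.Agent.SST
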