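import Pool.Agent.SST.SpecDefs

/-! Two points on the projective line: the planes (MP_6f1c57_nt). -/

namespace Pool.Agent.SST

/-- The coordinates of a point of the projective line in the space dual to quadratic forms. -/
private noncomputable def vq (α : OnePoint ℂ) : Fin 3 → ℂ :=
  match α with
  | OnePoint.infty => ![1, 0, 0]
  | OnePoint.some z => ![z ^ 2, z, 1]

private lemma evq_eq (f : Fin 3 → ℤ) (α : OnePoint ℂ) :
    evq f α = ∑ l, (f l : ℂ) * vq α l := by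
  rw [Fin.sum_univ_three]
  rcases α with _ | z
  · change ((f 0 : ℤ) : ℂ) = _ * 1 + _ * 0 + _ * 0
    ring
  · change (f 0 : ℂ) * z ^ 2 + (f 1 : ℂ) * z + (f 2 : ℂ) = _ * z ^ 2 + _ * z + _ * 1
    ring

private lemma vq_alg {α : OnePoint ℂ} (hα : AlgPt α) (l : Fin 3) : IsAlgebraic ℚ (vq α l) := by
  rcases α with _ | z
  · change IsAlgebraic ℚ ((![1, 0, 0] : Fin 3 → ℂ) l)
    fin_cases l
    · exact isAlgebraic_one
    · exact isAlgebraic_zero
    · exact isAlgebraic_zero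
  · change IsAlgebraic ℚ ((![z ^ 2, z, 1] : Fin 3 → ℂ) l)
    have hz : IsAlgebraic ℚ z := hα z rfl
    fin_cases l
    · exact hz.pow 2
    · exact hz
    · exact isAlgebraic_one

private lemma abs_le_maxq (f : Fin 3 → ℤ) (l : Fin 3) : |(f l : ℝ)| ≤ maxq f := by
  fin_cases l
  · exact le_max_left _ _
  · exact (le_max_left _ _).trans (le_max_right _ _)
  · exact (le_max_right _ _).trans (le_max_right _ _)

private lemma maxq_le {f : Fin 3 → ℤ} {R : ℝ} (h : ∀ l, |(f l : ℝ)| ≤ R) : maxq f ≤ R :=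
  max_le (h 0) (max_le (h 1) (h 2))

private lemma one_le_maxq {f : Fin 3 → ℤ} (h : discq f ≠ 0) : 1 ≤ maxq f := by
  by_contra hlt
  push Not at hlt
  have h0 : ∀ l, f l = 0 := by
    intro l
    have h1 := (abs_le_maxq f l).trans_lt hlt
    have h2 : |f l| < 1 := by exact_mod_cast h1
    exact Int.abs_lt_one_iff.1 h2
  apply h
  rw [discq, h0 0, h0 1]
  ring

/-- The polar form. -/
private lemma geom_aux {A B C D : ℂ} {f : Fin 3 → ℤ} (M : Fin 3 → Fin 3 → ℂ) (hD : D ≠ 0)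
    (h : ∀ l, D * (f l : ℂ) = M l 0 * A + M l 1 * B + M l 2 * C) :
    maxq f * ‖D‖ ≤ (∑ l, ∑ t, ‖M l t‖) * max ‖A‖ (max ‖B‖ ‖C‖) := by
  have hDp : 0 < ‖D‖ := norm_pos_iff.2 hD
  have hm0 : 0 ≤ max ‖A‖ (max ‖B‖ ‖C‖) := (norm_nonneg A).trans (le_max_left _ _)
  rw [← le_div_iff₀ hDp]
  refine maxq_le fun l => ?_
  rw [le_div_iff₀ hDp]
  have h1 : |(f l : ℝ)| * ‖D‖ = ‖D * (f l : ℂ)‖ := by
    rw [norm_mul, mul_comm, Complex.norm_intCast]
  rw [h1, h l]
  have hA : ‖A‖ ≤ max ‖A‖ (max ‖B‖ ‖C‖) := le_max_left _ _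
  have hB : ‖B‖ ≤ max ‖A‖ (max ‖B‖ ‖C‖) := (le_max_left _ _).trans (le_max_right _ _)
  have hC : ‖C‖ ≤ max ‖A‖ (max ‖B‖ ‖C‖) := (le_max_right _ _).trans (le_max_right _ _)
  calc ‖M l 0 * A + M l 1 * B + M l 2 * C‖
      ≤ ‖M l 0 * A‖ + ‖M l 1 * B‖ + ‖M l 2 * C‖ := norm_add₃_le
    _ = ‖M l 0‖ * ‖A‖ + ‖M l 1‖ * ‖B‖ + ‖M l 2‖ * ‖C‖ := by rw [norm_mul, norm_mul, norm_mul]
    _ ≤ ‖M l 0‖ * max ‖A‖ (max ‖B‖ ‖C‖) + ‖M l 1‖ * max ‖A‖ (max ‖B‖ ‖C‖) +
        ‖M l 2‖ * max ‖A‖ (max ‖B‖ ‖C‖) := by gcongr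
    _ = (∑ t, ‖M l t‖) * max ‖A‖ (max ‖B‖ ‖C‖) := by rw [Fin.sum_univ_three]; ring
    _ ≤ (∑ l, ∑ t, ‖M l t‖) * max ‖A‖ (max ‖B‖ ‖C‖) := by
        refine mul_le_mul_of_nonneg_right ?_ hm0
        exact Finset.single_le_sum (f := fun l => ∑ t, ‖M l t‖)
          (fun i _ => Finset.sum_nonneg fun t _ => norm_nonneg _) (Finset.mem_univ l)

private lemma geom (α β : OnePoint ℂ) (hne : α ≠ β) :
    ∃ (K : ℝ) (D : ℂ), 0 < K ∧ D ≠ 0 ∧ ∀ f : Fin 3 → ℤ, ∃ B : ℂ,
      B ^ 2 - 4 * evq f α * evq f β = D * ((discq f : ℤ) : ℂ) ∧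
      maxq f ≤ K * max ‖evq f α‖ (max ‖B‖ ‖evq f β‖) := by
  have key : ∀ (D : ℂ) (M : Fin 3 → Fin 3 → ℂ) (E : ℂ) (B : (Fin 3 → ℤ) → ℂ), D ≠ 0 → E ≠ 0 →
      (∀ f : Fin 3 → ℤ, (B f) ^ 2 - 4 * evq f α * evq f β = E * ((discq f : ℤ) : ℂ)) →
      (∀ (f : Fin 3 → ℤ) l, D * (f l : ℂ) =
        M l 0 * evq f α + M l 1 * B f + M l 2 * evq f β) →
      ∃ (K : ℝ) (D : ℂ), 0 < K ∧ D ≠ 0 ∧ ∀ f : Fin 3 → ℤ, ∃ B : ℂ,
      B ^ 2 - 4 * evq f α * evq f β = D * ((discq f : ℤ) : ℂ) ∧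
      maxq f ≤ K * max ‖evq f α‖ (max ‖B‖ ‖evq f β‖) := by
    intro D M E B hD hE h1 h2
    have hDp : 0 < ‖D‖ := norm_pos_iff.2 hD
    have hs : 0 ≤ ∑ l, ∑ t, ‖M l t‖ :=
      Finset.sum_nonneg fun l _ => Finset.sum_nonneg fun t _ => norm_nonneg _
    refine ⟨(∑ l, ∑ t, ‖M l t‖ + 1) / ‖D‖, E, by positivity, hE, fun f => ⟨B f, h1 f, ?_⟩⟩
    have h3 := geom_aux M hD (h2 f)
    rw [div_mul_eq_mul_div, le_div_iff₀ hDp]
    refine h3.trans (mul_le_mul_of_nonneg_right ?_ ((norm_nonneg _).trans (le_max_left _ _)))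
    simp
  rcases α with _ | z
  · rcases β with _ | w
    · exact absurd rfl hne
    · refine key 1 ![![1, 0, 0], ![-2 * w, 1, 0], ![w ^ 2, -w, 1]] 1
        (fun f => 2 * (f 0 : ℂ) * w + (f 1 : ℂ)) one_ne_zero one_ne_zero ?_ ?_
      · intro f
        change _ - 4 * ((f 0 : ℤ) : ℂ) * ((f 0 : ℂ) * w ^ 2 + (f 1 : ℂ) * w + (f 2 : ℂ)) = _
        rw [discq]
        push_cast
        ring
      · intro f l
        change _ = _ * ((f 0 : ℤ) : ℂ) + _ + _ * ((f 0 : ℂ) * w ^ 2 + (f 1 : ℂ) * w + (f 2 : ℂ))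
        fin_cases l <;> simp <;> ring
  · rcases β with _ | w
    · refine key 1 ![![0, 0, 1], ![0, 1, -2 * z], ![1, -z, z ^ 2]] 1
        (fun f => 2 * (f 0 : ℂ) * z + (f 1 : ℂ)) one_ne_zero one_ne_zero ?_ ?_
      · intro f
        change _ - 4 * ((f 0 : ℂ) * z ^ 2 + (f 1 : ℂ) * z + (f 2 : ℂ)) * ((f 0 : ℤ) : ℂ) = _
        rw [discq]
        push_cast
        ring
      · intro f l
        change _ = _ * ((f 0 : ℂ) * z ^ 2 + (f 1 : ℂ) * z + (f 2 : ℂ)) + _ + _ * ((f 0 : ℤ) : ℂ)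
        fin_cases l <;> simp <;> ring
    · have hzw : z - w ≠ 0 := by
        rw [sub_ne_zero]
        rintro rfl
        exact hne rfl
      refine key ((z - w) ^ 2) ![![1, -1, 1], ![-2 * w, z + w, -2 * z], ![w ^ 2, -(z * w), z ^ 2]]
        ((z - w) ^ 2) (fun f => 2 * (f 0 : ℂ) * z * w + (f 1 : ℂ) * (z + w) + 2 * (f 2 : ℂ))
        (pow_ne_zero 2 hzw) (pow_ne_zero 2 hzw) ?_ ?_
      · intro f
        change _ - 4 * ((f 0 : ℂ) * z ^ 2 + (f 1 : ℂ) * z + (f 2 : ℂ)) *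
          ((f 0 : ℂ) * w ^ 2 + (f 1 : ℂ) * w + (f 2 : ℂ)) = _
        rw [discq]
        push_cast
        ring
      · intro f l
        change _ = _ * ((f 0 : ℂ) * z ^ 2 + (f 1 : ℂ) * z + (f 2 : ℂ)) + _ + _ *
          ((f 0 : ℂ) * w ^ 2 + (f 1 : ℂ) * w + (f 2 : ℂ))
        fin_cases l <;> simp <;> ring

/-- If both values are small then the discriminant is large. -/
private lemma disc_large (α β : OnePoint ℂ) (hne : α ≠ β) :
    ∃ c₁ c₃ : ℝ, 0 < c₁ ∧ 0 < c₃ ∧ ∀ f : Fin 3 → ℤ, discq f ≠ 0 →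
      ‖evq f α‖ ≤ c₁ * maxq f → ‖evq f β‖ ≤ c₁ * maxq f → c₃ * maxq f ^ 2 ≤ |(discq f : ℝ)| := by
  obtain ⟨K, D, hK, hD, h⟩ := geom α β hne
  have hDp : 0 < ‖D‖ := norm_pos_iff.2 hD
  refine ⟨1 / (4 * K), 3 / (4 * K ^ 2 * ‖D‖), by positivity, by positivity, fun f hf h1 h2 => ?_⟩
  obtain ⟨B, hB1, hB2⟩ := h f
  have hH := one_le_maxq hf
  have hHp : 0 < maxq f := by linarith
  have hKm : K * (1 / (4 * K) * maxq f) = maxq f / 4 := by field_simp
  have hB : maxq f ≤ K * ‖B‖ := by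
    by_contra hcon
    push Not at hcon
    have h3 : K * max ‖evq f α‖ (max ‖B‖ ‖evq f β‖) < maxq f := by
      rw [mul_max_of_nonneg _ _ hK.le, mul_max_of_nonneg _ _ hK.le]
      refine max_lt ?_ (max_lt hcon ?_)
      · calc K * ‖evq f α‖ ≤ K * (1 / (4 * K) * maxq f) := by gcongr
          _ = maxq f / 4 := hKm
          _ < maxq f := by linarith
      · calc K * ‖evq f β‖ ≤ K * (1 / (4 * K) * maxq f) := by gcongr
          _ = maxq f / 4 := hKm
          _ < maxq f := by linarith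
    linarith
  have h4 : ‖B‖ ^ 2 ≤ ‖D‖ * |(discq f : ℝ)| + 4 * (‖evq f α‖ * ‖evq f β‖) := by
    have h5 : B ^ 2 = D * ((discq f : ℤ) : ℂ) + 4 * (evq f α * evq f β) := by
      linear_combination hB1
    rw [← norm_pow, h5]
    refine (norm_add_le _ _).trans (le_of_eq ?_)
    rw [norm_mul, norm_mul, norm_mul, Complex.norm_intCast]
    norm_num
  have h6 : ‖evq f α‖ * ‖evq f β‖ ≤ (1 / (4 * K) * maxq f) * (1 / (4 * K) * maxq f) := by
    gcongr
  have h7 : (maxq f) ^ 2 ≤ K ^ 2 * ‖B‖ ^ 2 := by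
    rw [← mul_pow]
    gcongr
  have h8 : K ^ 2 * ((1 / (4 * K) * maxq f) * (1 / (4 * K) * maxq f)) = maxq f ^ 2 / 16 := by
    field_simp
    norm_num
  have h9 : K ^ 2 * ‖B‖ ^ 2 ≤ K ^ 2 * ‖D‖ * |(discq f : ℝ)| + maxq f ^ 2 / 4 := by
    have h10 := mul_le_mul_of_nonneg_left h4 (sq_nonneg K)
    have h11 := mul_le_mul_of_nonneg_left h6 (sq_nonneg K)
    rw [h8] at h11
    nlinarith
  have h12 : 3 / 4 * maxq f ^ 2 ≤ K ^ 2 * ‖D‖ * |(discq f : ℝ)| := by linarith
  rw [div_mul_eq_mul_div, div_le_iff₀ (by positivity)]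
  nlinarith

/-- The lower bound holds on the set `S`. -/
private def QQ (α β : OnePoint ℂ) (ε : ℝ) (S : Set (Fin 3 → ℤ)) : Prop :=
  ∃ c : ℝ, 0 < c ∧ ∀ f ∈ S, discq f ≠ 0 → evq f α ≠ 0 → evq f β ≠ 0 →
      c * maxq f ^ (-ε) ≤ ‖evq f α‖ * ‖evq f β‖ * |(discq f : ℝ)|

private lemma QQ.mono {α β : OnePoint ℂ} {ε : ℝ} {S T : Set (Fin 3 → ℤ)} (h : QQ α β ε T)
    (hST : S ⊆ T) : QQ α β ε S := by
  obtain ⟨c, hc, h⟩ := h
  exact ⟨c, hc, fun f hf => h f (hST hf)⟩

private lemma QQ.union {α β : OnePoint ℂ} {ε : ℝ} {S T : Set (Fin 3 → ℤ)} (hS : QQ α β ε S)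
    (hT : QQ α β ε T) : QQ α β ε (S ∪ T) := by
  obtain ⟨c, hc, hS⟩ := hS
  obtain ⟨d, hd, hT⟩ := hT
  refine ⟨min c d, lt_min hc hd, ?_⟩
  rintro f (hf | hf) h0 h1 h2
  · have hH : 0 ≤ maxq f ^ (-ε) := Real.rpow_nonneg (by linarith [one_le_maxq h0]) _
    exact (mul_le_mul_of_nonneg_right (min_le_left c d) hH).trans (hS f hf h0 h1 h2)
  · have hH : 0 ≤ maxq f ^ (-ε) := Real.rpow_nonneg (by linarith [one_le_maxq h0]) _
    exact (mul_le_mul_of_nonneg_right (min_le_right c d) hH).trans (hT f hf h0 h1 h2)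

private lemma QQ.biUnion {α β : OnePoint ℂ} {ε : ℝ} {ι : Type*} (F : Finset ι)
    (S : ι → Set (Fin 3 → ℤ)) (h : ∀ a ∈ F, QQ α β ε (S a)) : QQ α β ε (⋃ a ∈ F, S a) := by
  classical
  induction F using Finset.induction with
  | empty => exact ⟨1, one_pos, fun f hf => by simp at hf⟩
  | insert a F ha ih =>
    rw [Finset.set_biUnion_insert]
    exact (h a (Finset.mem_insert_self _ _)).union
      (ih fun b hb => h b (Finset.mem_insert_of_mem hb))

private lemma prod_nonneg' (α β : OnePoint ℂ) (f : Fin 3 → ℤ) :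
    0 ≤ ‖evq f α‖ * ‖evq f β‖ * |(discq f : ℝ)| := by positivity

/-- Pairwise proportional vectors. -/
private lemma QQ.line {α β : OnePoint ℂ} {ε : ℝ} (hε : 0 < ε) {S : Set (Fin 3 → ℤ)}
    (hS : ∀ f ∈ S, ∀ g ∈ S, ∀ i j, f i * g j = f j * g i) : QQ α β ε S := by
  by_cases hex : ∃ g ∈ S, discq g ≠ 0 ∧ evq g α ≠ 0 ∧ evq g β ≠ 0
  · obtain ⟨g, hg, hg0, hg1, hg2⟩ := hex
    have hgi : ∃ i, g i ≠ 0 := by
      by_contra hcon
      push Not at hcon
      apply hg0
      rw [discq, hcon 0, hcon 1]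
      ring
    obtain ⟨i, hi⟩ := hgi
    have hiR : (g i : ℝ) ≠ 0 := by exact_mod_cast hi
    have hiC : (g i : ℂ) ≠ 0 := by exact_mod_cast hi
    have hgp : 0 < |(g i : ℝ)| := abs_pos.2 hiR
    have hp : 0 < ‖evq g α‖ * ‖evq g β‖ * |(discq g : ℝ)| := by
      have h3 : (discq g : ℝ) ≠ 0 := by exact_mod_cast hg0
      have := norm_pos_iff.2 hg1
      have := norm_pos_iff.2 hg2
      have := abs_pos.2 h3
      positivity
    refine ⟨‖evq g α‖ * ‖evq g β‖ * |(discq g : ℝ)| / |(g i : ℝ)| ^ 4, by positivity,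
      fun f hf hf0 hf1 hf2 => ?_⟩
    have hH := one_le_maxq hf0
    have hHe : maxq f ^ (-ε) ≤ 1 :=
      Real.rpow_le_one_of_one_le_of_nonpos hH (by linarith)
    have hprop := hS f hf g hg
    have hev : ∀ γ : OnePoint ℂ, (g i : ℂ) * evq f γ = (f i : ℂ) * evq g γ := by
      intro γ
      rw [evq_eq, evq_eq, Finset.mul_sum, Finset.mul_sum]
      refine Finset.sum_congr rfl fun l _ => ?_
      have h3 : ((f i : ℤ) : ℂ) * (g l : ℂ) = (f l : ℂ) * (g i : ℂ) := by
        exact_mod_cast hprop i l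
      linear_combination -(vq γ l) * h3
    have hdi : (g i : ℝ) ^ 2 * (discq f : ℝ) = (f i : ℝ) ^ 2 * (discq g : ℝ) := by
      have h0 := hprop i 0
      have h1 := hprop i 1
      have h2 := hprop i 2
      have h3 : (g i) ^ 2 * discq f = (f i) ^ 2 * discq g := by
        have e0 : f 0 * g i = f i * g 0 := h0.symm
        have e1 : f 1 * g i = f i * g 1 := h1.symm
        have e2 : f 2 * g i = f i * g 2 := h2.symm
        have : (g i) ^ 2 * discq f = (f 1 * g i) ^ 2 - 4 * (f 0 * g i) * (f 2 * g i) := by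
          rw [discq]; ring
        rw [this, e0, e1, e2, discq]
        ring
      exact_mod_cast h3
    have hfi : f i ≠ 0 := by
      intro h3
      apply hf1
      have h4 := hev α
      rw [h3, Int.cast_zero, zero_mul] at h4
      exact (mul_eq_zero.1 h4).resolve_left hiC
    have hfi1 : 1 ≤ |(f i : ℝ)| := by
      have : 1 ≤ |f i| := Int.one_le_abs hfi
      exact_mod_cast this
    have n1 : |(g i : ℝ)| * ‖evq f α‖ = |(f i : ℝ)| * ‖evq g α‖ := by
      rw [← Complex.norm_intCast, ← Complex.norm_intCast, ← norm_mul, ← norm_mul, hev]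
    have n2 : |(g i : ℝ)| * ‖evq f β‖ = |(f i : ℝ)| * ‖evq g β‖ := by
      rw [← Complex.norm_intCast, ← Complex.norm_intCast, ← norm_mul, ← norm_mul, hev]
    have n3 : |(g i : ℝ)| ^ 2 * |(discq f : ℝ)| = |(f i : ℝ)| ^ 2 * |(discq g : ℝ)| := by
      rw [← abs_pow, ← abs_pow, ← abs_mul, ← abs_mul, hdi]
    have n4 : |(g i : ℝ)| ^ 4 * (‖evq f α‖ * ‖evq f β‖ * |(discq f : ℝ)|) =
        |(f i : ℝ)| ^ 4 * (‖evq g α‖ * ‖evq g β‖ * |(discq g : ℝ)|) := by
      calc _ = (|(g i : ℝ)| * ‖evq f α‖) * (|(g i : ℝ)| * ‖evq f β‖) *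
            (|(g i : ℝ)| ^ 2 * |(discq f : ℝ)|) := by ring
        _ = _ := by rw [n1, n2, n3]; ring
    have n5 : ‖evq g α‖ * ‖evq g β‖ * |(discq g : ℝ)| ≤
        |(g i : ℝ)| ^ 4 * (‖evq f α‖ * ‖evq f β‖ * |(discq f : ℝ)|) := by
      rw [n4]
      exact le_mul_of_one_le_left hp.le (one_le_pow₀ hfi1)
    calc _ ≤ ‖evq g α‖ * ‖evq g β‖ * |(discq g : ℝ)| / |(g i : ℝ)| ^ 4 * 1 := by gcongr
      _ ≤ _ := by
        rw [mul_one, div_le_iff₀ (by positivity)]
        linarith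
  · exact ⟨1, one_pos, fun f hf h0 h1 h2 => absurd ⟨f, hf, h0, h1, h2⟩ hex⟩

/-- Integral solutions of two independent equations are proportional. -/
private lemma prop_aux {i : Fin 3} {b : Fin 3 → ℤ} (hi : b i ≠ 0) {a : Fin 2 → ℤ} (ha : a ≠ 0)
    {f g : Fin 3 → ℤ} (hf : ∑ l, b l * f l = 0) (hg : ∑ l, b l * g l = 0)
    (hf' : ∑ t, a t * f (i.succAbove t) = 0) (hg' : ∑ t, a t * g (i.succAbove t) = 0) :
    ∀ l l', f l * g l' = f l' * g l := by
  rw [Fin.sum_univ_succAbove _ i, Fin.sum_univ_two] at hf hg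
  rw [Fin.sum_univ_two] at hf' hg'
  have h01 : f (i.succAbove 0) * g (i.succAbove 1) = f (i.succAbove 1) * g (i.succAbove 0) := by
    have h0 : a 0 * (f (i.succAbove 0) * g (i.succAbove 1) -
        f (i.succAbove 1) * g (i.succAbove 0)) = 0 := by
      linear_combination g (i.succAbove 1) * hf' - f (i.succAbove 1) * hg'
    have h1 : a 1 * (f (i.succAbove 0) * g (i.succAbove 1) -
        f (i.succAbove 1) * g (i.succAbove 0)) = 0 := by
      linear_combination f (i.succAbove 0) * hg' - g (i.succAbove 0) * hf'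
    rcases mul_eq_zero.1 h0 with h2 | h2
    · rcases mul_eq_zero.1 h1 with h3 | h3
      · exfalso
        apply ha
        funext t
        fin_cases t
        · exact h2
        · exact h3
      · exact sub_eq_zero.1 h3
    · exact sub_eq_zero.1 h2
  have hii : ∀ t : Fin 2, f i * g (i.succAbove t) = f (i.succAbove t) * g i := by
    intro t
    have h2 : b i * (f i * g (i.succAbove t) - f (i.succAbove t) * g i) = 0 := by
      fin_cases t
      · change b i * (f i * g (i.succAbove 0) - f (i.succAbove 0) * g i) = 0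
        linear_combination g (i.succAbove 0) * hf - f (i.succAbove 0) * hg +
          b (i.succAbove 1) * h01
      · change b i * (f i * g (i.succAbove 1) - f (i.succAbove 1) * g i) = 0
        linear_combination g (i.succAbove 1) * hf - f (i.succAbove 1) * hg -
          b (i.succAbove 0) * h01
    exact sub_eq_zero.1 ((mul_eq_zero.1 h2).resolve_left hi)
  have htt : ∀ s t : Fin 2, f (i.succAbove s) * g (i.succAbove t) =
      f (i.succAbove t) * g (i.succAbove s) := by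
    intro s t
    fin_cases s <;> fin_cases t
    · rfl
    · exact h01
    · exact h01.symm
    · rfl
  intro l l'
  rcases Fin.eq_self_or_eq_succAbove i l with rfl | ⟨s, rfl⟩
  · rcases Fin.eq_self_or_eq_succAbove l l' with rfl | ⟨t, rfl⟩
    · rfl
    · exact hii t
  · rcases Fin.eq_self_or_eq_succAbove i l' with rfl | ⟨t, rfl⟩
    · exact (hii s).symm
    · exact htt s t

/-- The case `m = 1` of Schmidt's theorem. -/
def Schmidt1 : Prop := ∀ L : Matrix (Fin (1 + 1)) (Fin (1 + 1)) ℂ,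
  (∀ i j, IsAlgebraic ℚ (L i j)) → L.det ≠ 0 → ∀ δ : ℝ, 0 < δ →
    ∃ F : Finset (Fin (1 + 1) → ℤ), 0 ∉ F ∧ ∀ (x : Fin (1 + 1) → ℤ) (H : ℝ), 1 ≤ H →
      (∀ i, |((x i : ℤ) : ℝ)| ≤ H) →
      ∏ i, ‖L.mulVec (fun j => (x j : ℂ)) i‖ ≤ H ^ (-δ) → (∃ b ∈ F, ∑ i, b i * x i = 0)

/-- It suffices to deal with the points of a plane outside finitely many lines. -/
private lemma QQ.plane_of {α β : OnePoint ℂ} {ε : ℝ} (hε : 0 < ε) {i : Fin 3} {b : Fin 3 → ℤ}
    (hi : b i ≠ 0) {F : Finset (Fin 2 → ℤ)} (hF : 0 ∉ F)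
    (h : QQ α β ε {f | ∑ l, b l * f l = 0 ∧ ∀ a ∈ F, ∑ t, a t * f (i.succAbove t) ≠ 0}) :
    QQ α β ε {f | ∑ l, b l * f l = 0} := by
  refine (h.union (QQ.biUnion F (fun a => {f | ∑ l, b l * f l = 0 ∧
    ∑ t, a t * f (i.succAbove t) = 0}) ?_)).mono ?_
  · intro a ha
    refine QQ.line hε ?_
    rintro f ⟨hf, hf'⟩ g ⟨hg, hg'⟩
    exact prop_aux hi (fun h0 => hF (h0 ▸ ha)) hf hg hf' hg'
  · intro f hf
    by_cases hex : ∃ a ∈ F, ∑ t, a t * f (i.succAbove t) = 0
    · right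
      obtain ⟨a, ha, h2⟩ := hex
      simp only [Set.mem_iUnion]
      exact ⟨a, ha, hf, h2⟩
    · left
      push Not at hex
      exact ⟨hf, hex⟩

private lemma plane (hsch : Schmidt1) (α β : OnePoint ℂ) (hα : AlgPt α) (hβ : AlgPt β)
    (hne : α ≠ β) (ε : ℝ) (hε : 0 < ε) (b : Fin 3 → ℤ) (hb : b ≠ 0) :
    QQ α β ε {f | ∑ l, b l * f l = 0} := by
  have hex : ∃ i, b i ≠ 0 := by
    by_contra hcon
    push Not at hcon
    exact hb (funext hcon)
  obtain ⟨i, hi⟩ := hex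
  have hiC : ((b i : ℤ) : ℂ) ≠ 0 := by exact_mod_cast hi
  let lf : OnePoint ℂ → Fin 2 → ℂ := fun γ t =>
    vq γ (i.succAbove t) - vq γ i * (b (i.succAbove t) : ℂ) / (b i : ℂ)
  have hlf : ∀ γ (f : Fin 3 → ℤ), ∑ l, b l * f l = 0 →
      evq f γ = lf γ 0 * (f (i.succAbove 0) : ℂ) + lf γ 1 * (f (i.succAbove 1) : ℂ) := by
    intro γ f hf
    rw [evq_eq, Fin.sum_univ_succAbove _ i, Fin.sum_univ_two]
    rw [Fin.sum_univ_succAbove _ i, Fin.sum_univ_two] at hf
    have hfC : ((b i : ℤ) : ℂ) * (f i : ℂ) + ((b (i.succAbove 0) : ℤ) * (f (i.succAbove 0) : ℂ) +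
        (b (i.succAbove 1) : ℂ) * (f (i.succAbove 1) : ℂ)) = 0 := by exact_mod_cast hf
    simp only [lf]
    field_simp
    linear_combination (vq γ i) * hfC
  have halg : ∀ γ, AlgPt γ → ∀ t, IsAlgebraic ℚ (lf γ t) := by
    intro γ hγ t
    have hint : ∀ z : ℤ, IsAlgebraic ℚ ((z : ℤ) : ℂ) := fun z => isAlgebraic_intCast z
    simp only [lf, div_eq_mul_inv]
    exact (vq_alg hγ _).sub (((vq_alg hγ _).mul (hint _)).mul (hint _).inv)
  have hdisc1 : ∀ f : Fin 3 → ℤ, discq f ≠ 0 → 1 ≤ |(discq f : ℝ)| := by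
    intro f hf
    have : 1 ≤ |discq f| := Int.one_le_abs hf
    exact_mod_cast this
  by_cases hdet : lf α 0 * lf β 1 - lf α 1 * lf β 0 = 0
  · by_cases hα0 : lf α = 0
    · refine ⟨1, one_pos, fun f hf h0 h1 h2 => ?_⟩
      exfalso
      apply h1
      rw [hlf α f hf, hα0]
      simp
    by_cases hβ0 : lf β = 0
    · refine ⟨1, one_pos, fun f hf h0 h1 h2 => ?_⟩
      exfalso
      apply h2
      rw [hlf β f hf, hβ0]
      simp
    -- proportional forms
    obtain ⟨κ, hκ, hκe⟩ : ∃ κ : ℂ, κ ≠ 0 ∧ ∀ t, lf β t = κ * lf α t := by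
      by_cases h0 : lf α 0 = 0
      · have h1 : lf α 1 ≠ 0 := by
          intro h1
          apply hα0
          funext t
          fin_cases t
          · exact h0
          · exact h1
        have h2 : lf β 0 = 0 := by
          rw [h0] at hdet
          have : lf α 1 * lf β 0 = 0 := by linear_combination -hdet
          exact (mul_eq_zero.1 this).resolve_left h1
        have h3 : lf β 1 ≠ 0 := by
          intro h3
          apply hβ0
          funext t
          fin_cases t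
          · exact h2
          · exact h3
        refine ⟨lf β 1 / lf α 1, div_ne_zero h3 h1, fun t => ?_⟩
        fin_cases t
        · change lf β 0 = lf β 1 / lf α 1 * lf α 0
          rw [h2, h0, mul_zero]
        · change lf β 1 = lf β 1 / lf α 1 * lf α 1
          field_simp
      · have h2 : lf β 0 ≠ 0 := by
          intro h2
          rw [h2] at hdet
          have : lf α 0 * lf β 1 = 0 := by linear_combination hdet
          have h3 := (mul_eq_zero.1 this).resolve_left h0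
          apply hβ0
          funext t
          fin_cases t
          · exact h2
          · exact h3
        refine ⟨lf β 0 / lf α 0, div_ne_zero h2 h0, fun t => ?_⟩
        fin_cases t
        · change lf β 0 = lf β 0 / lf α 0 * lf α 0
          field_simp
        · change lf β 1 = lf β 0 / lf α 0 * lf α 1
          field_simp
          linear_combination hdet
    have hκp : 0 < ‖κ‖ := norm_pos_iff.2 hκ
    have hnorm : ∀ f : Fin 3 → ℤ, ∑ l, b l * f l = 0 → ‖evq f β‖ = ‖κ‖ * ‖evq f α‖ := by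
      intro f hf
      rw [← norm_mul, hlf α f hf, hlf β f hf, hκe, hκe]
      congr 1
      ring
    -- a lower bound for one of the forms
    obtain ⟨F, hF, hbound⟩ : ∃ F : Finset (Fin 2 → ℤ), 0 ∉ F ∧ ∀ f : Fin 3 → ℤ,
        ∑ l, b l * f l = 0 → discq f ≠ 0 → (∀ a ∈ F, ∑ t, a t * f (i.succAbove t) ≠ 0) →
        maxq f ^ (-(ε / 2)) < ‖evq f α‖ * maxq f := by
      by_cases h0 : lf α 0 = 0
      · have h1 : lf α 1 ≠ 0 := by
          intro h1
          apply hα0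
          funext t
          fin_cases t
          · exact h0
          · exact h1
        obtain ⟨F, hF, h⟩ := hsch (Matrix.of ![![lf α 0, lf α 1], ![1, 0]]) (by
          intro s t
          fin_cases s <;> fin_cases t
          · exact halg α hα 0
          · exact halg α hα 1
          · exact isAlgebraic_one
          · exact isAlgebraic_zero) (by
          rw [Matrix.det_fin_two]
          simpa using h1) (ε / 2) (by positivity)
        refine ⟨F, hF, fun f hf hf0 hf1 => ?_⟩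
        have hH := one_le_maxq hf0
        by_contra hcon
        push Not at hcon
        obtain ⟨a, ha, h2⟩ := h (fun t => f (i.succAbove t)) (maxq f) hH
          (fun t => abs_le_maxq f _) (by
          refine le_trans ?_ hcon
          rw [Fin.prod_univ_two]
          refine mul_le_mul (le_of_eq ?_) ?_ (norm_nonneg _) (norm_nonneg _)
          · rw [hlf α f hf]
            congr 1
            simp [Matrix.mulVec, dotProduct, Fin.sum_univ_two]
          · refine le_trans (le_of_eq ?_) (abs_le_maxq f (i.succAbove 0))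
            rw [← Complex.norm_intCast]
            congr 1
            simp [Matrix.mulVec, dotProduct, Fin.sum_univ_two])
        exact hf1 a ha h2
      · obtain ⟨F, hF, h⟩ := hsch (Matrix.of ![![lf α 0, lf α 1], ![0, 1]]) (by
          intro s t
          fin_cases s <;> fin_cases t
          · exact halg α hα 0
          · exact halg α hα 1
          · exact isAlgebraic_zero
          · exact isAlgebraic_one) (by
          rw [Matrix.det_fin_two]
          simpa using h0) (ε / 2) (by positivity)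
        refine ⟨F, hF, fun f hf hf0 hf1 => ?_⟩
        have hH := one_le_maxq hf0
        by_contra hcon
        push Not at hcon
        obtain ⟨a, ha, h2⟩ := h (fun t => f (i.succAbove t)) (maxq f) hH
          (fun t => abs_le_maxq f _) (by
          refine le_trans ?_ hcon
          rw [Fin.prod_univ_two]
          refine mul_le_mul (le_of_eq ?_) ?_ (norm_nonneg _) (norm_nonneg _)
          · rw [hlf α f hf]
            congr 1
            simp [Matrix.mulVec, dotProduct, Fin.sum_univ_two]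
          · refine le_trans (le_of_eq ?_) (abs_le_maxq f (i.succAbove 1))
            rw [← Complex.norm_intCast]
            congr 1
            simp [Matrix.mulVec, dotProduct, Fin.sum_univ_two])
        exact hf1 a ha h2
    obtain ⟨c₁, c₃, hc₁, hc₃, hlarge⟩ := disc_large α β hne
    refine QQ.plane_of hε hi hF ⟨min (‖κ‖ * c₃) (min (‖κ‖ * c₁ ^ 2) (c₁ ^ 2 / ‖κ‖)), by positivity,
      ?_⟩
    rintro f ⟨hf, hf1⟩ hf0 - -
    have hH := one_le_maxq hf0
    have hHp : 0 < maxq f := by linarith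
    have hb1 := hbound f hf hf0 hf1
    have hd1 := hdisc1 f hf0
    have hHe : maxq f ^ (-ε) ≤ 1 :=
      Real.rpow_le_one_of_one_le_of_nonpos hH (by linarith)
    have hHe0 : 0 < maxq f ^ (-ε) := Real.rpow_pos_of_pos hHp _
    have hprod : ‖evq f α‖ * ‖evq f β‖ * |(discq f : ℝ)| =
        ‖κ‖ * ‖evq f α‖ ^ 2 * |(discq f : ℝ)| := by
      rw [hnorm f hf]; ring
    by_cases hA : ‖evq f α‖ ≤ c₁ * maxq f
    · by_cases hB : ‖evq f β‖ ≤ c₁ * maxq f
      · have h3 := hlarge f hf0 hA hB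
        have h4 : maxq f ^ (-ε) < ‖evq f α‖ ^ 2 * maxq f ^ 2 := by
          have h5 : maxq f ^ (-ε) = (maxq f ^ (-(ε / 2))) ^ 2 := by
            rw [← Real.rpow_natCast, ← Real.rpow_mul hHp.le]
            congr 1
            push_cast
            ring
          rw [h5, ← mul_pow]
          exact pow_lt_pow_left₀ hb1 (Real.rpow_nonneg hHp.le _) two_ne_zero
        calc _ ≤ ‖κ‖ * c₃ * maxq f ^ (-ε) := by
              gcongr
              exact min_le_left _ _
          _ ≤ ‖κ‖ * c₃ * (‖evq f α‖ ^ 2 * maxq f ^ 2) := by gcongr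
          _ = ‖κ‖ * ‖evq f α‖ ^ 2 * (c₃ * maxq f ^ 2) := by ring
          _ ≤ ‖κ‖ * ‖evq f α‖ ^ 2 * |(discq f : ℝ)| := by gcongr
          _ = _ := hprod.symm
      · push Not at hB
        have h3 : c₁ ≤ ‖evq f β‖ := by
          have : c₁ * 1 ≤ c₁ * maxq f := by gcongr
          linarith
        have h4 : ‖evq f α‖ = ‖evq f β‖ / ‖κ‖ := by
          rw [hnorm f hf]; field_simp
        calc _ ≤ c₁ ^ 2 / ‖κ‖ * 1 := by
              gcongr
              exact (min_le_right _ _).trans (min_le_right _ _)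
          _ ≤ ‖evq f β‖ ^ 2 / ‖κ‖ * |(discq f : ℝ)| := by gcongr
          _ = _ := by rw [h4]; ring
    · push Not at hA
      have h3 : c₁ ≤ ‖evq f α‖ := by
        have : c₁ * 1 ≤ c₁ * maxq f := by gcongr
        linarith
      calc _ ≤ ‖κ‖ * c₁ ^ 2 * 1 := by
            gcongr
            exact (min_le_right _ _).trans (min_le_left _ _)
        _ ≤ ‖κ‖ * ‖evq f α‖ ^ 2 * |(discq f : ℝ)| := by gcongr
        _ = _ := hprod.symm
  · -- independent forms
    obtain ⟨F, hF, h⟩ := hsch (Matrix.of ![![lf α 0, lf α 1], ![lf β 0, lf β 1]]) (by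
      intro s t
      fin_cases s <;> fin_cases t
      · exact halg α hα 0
      · exact halg α hα 1
      · exact halg β hβ 0
      · exact halg β hβ 1) (by
      rw [Matrix.det_fin_two]
      simpa using hdet) ε hε
    refine QQ.plane_of hε hi hF ⟨1, one_pos, ?_⟩
    rintro f ⟨hf, hf1⟩ hf0 - -
    have hH := one_le_maxq hf0
    have hd1 := hdisc1 f hf0
    have h3 : maxq f ^ (-ε) < ‖evq f α‖ * ‖evq f β‖ := by
      by_contra hcon
      push Not at hcon
      obtain ⟨a, ha, h2⟩ := h (fun t => f (i.succAbove t)) (maxq f) hH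
        (fun t => abs_le_maxq f _) (by
        refine le_trans (le_of_eq ?_) hcon
        rw [Fin.prod_univ_two, hlf α f hf, hlf β f hf]
        simp [Matrix.mulVec, dotProduct, Fin.sum_univ_two])
      exact hf1 a ha h2
    calc _ ≤ ‖evq f α‖ * ‖evq f β‖ * 1 := by
          rw [one_mul, mul_one]
          exact h3.le
      _ ≤ _ := by gcongr

/-- The result, from Schmidt's theorem and the generic case. -/
theorem two_points_of (hsch : Schmidt1) (α β : OnePoint ℂ) (hα : AlgPt α) (hβ : AlgPt β)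
    (hne : α ≠ β) (ε : ℝ) (hε : 0 < ε)
    (hgen : ∃ (c : ℝ) (F : Finset (Fin 3 → ℤ)), 0 < c ∧ 0 ∉ F ∧ ∀ f : Fin 3 → ℤ, discq f ≠ 0 →
      evq f α ≠ 0 → evq f β ≠ 0 → (∀ b ∈ F, ∑ i, b i * f i ≠ 0) →
      c * maxq f ^ (-ε) ≤ ‖evq f α‖ * ‖evq f β‖ * Real.sqrt |(discq f : ℝ)|) :
    ∃ c : ℝ, 0 < c ∧ ∀ f : Fin 3 → ℤ, discq f ≠ 0 → evq f α ≠ 0 → evq f β ≠ 0 →
      c * maxq f ^ (-ε) ≤ ‖evq f α‖ * ‖evq f β‖ * |(discq f : ℝ)| := by
  obtain ⟨c, F, hc, hF, h⟩ := hgen
  have h1 : QQ α β ε {f | ∀ b ∈ F, ∑ i, b i * f i ≠ 0} := by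
    refine ⟨c, hc, fun f hf h0 h1 h2 => (h f h0 h1 h2 hf).trans ?_⟩
    have hd : 1 ≤ |(discq f : ℝ)| := by
      have : 1 ≤ |discq f| := Int.one_le_abs h0
      exact_mod_cast this
    gcongr
    rw [Real.sqrt_le_left (by positivity)]
    nlinarith
  have h2 : QQ α β ε (⋃ b ∈ F, {f | ∑ i, b i * f i = 0}) :=
    QQ.biUnion F _ fun b hb => plane hsch α β hα hβ hne ε hε b fun h0 => hF (h0 ▸ hb)
  obtain ⟨c', hc', h3⟩ := h1.union h2
  refine ⟨c', hc', fun f => h3 f ?_⟩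
  by_cases hex : ∃ b ∈ F, ∑ i, b i * f i = 0
  · right
    obtain ⟨b, hb, h4⟩ := hex
    simp only [Set.mem_iUnion]
    exact ⟨b, hb, h4⟩
  · left
    push Not at hex
    exact hex

end Pool.Agent.SST
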