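import Pool.Agent.SST.TwoGeneric
import Pool.Agent.SST.TwoPlanes

/-! The two-point inequality. -/

namespace Pool.Agent.SST

theorem two_points (α β : OnePoint ℂ) (hα : AlgPt α) (hβ : AlgPt β) (hne : α ≠ β)
    (ε : ℝ) (hε : 0 < ε) :
    ∃ c : ℝ, 0 < c ∧ ∀ f : Fin 3 → ℤ, discq f ≠ 0 → evq f α ≠ 0 → evq f β ≠ 0 →
      c * maxq f ^ (-ε) ≤ ‖evq f α‖ * ‖evq f β‖ * |(discq f : ℝ)| :=
  two_points_of (fun L hLalg hL δ hδ => schmidt_complex le_rfl L hLalg hL δ hδ) α β hα hβ hne ε hε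
    (two_points_generic α β hα hβ hne ε hε)

end Pool.Agent.SST
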