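import Pool.Agent.SST.Prox
import Pool.Agent.SST.Two
import Pool.Agent.SST.HeightQ
import Pool.Agent.SST.DiscQ

/-! The height inequality for quadratic points of the projective line. -/

namespace Pool.Agent.SST

open scoped BigOperators

lemma best_two (D : Finset (OnePoint ℂ)) (α₀ β₀ : OnePoint ℂ) (hα₀ : α₀ ∈ D) (hβ₀ : β₀ ∈ D)
    (hne : α₀ ≠ β₀) : ∃ C : ℝ, ∀ f : Fin 3 → ℤ, 1 ≤ maxq f → (∀ γ ∈ D, evq f γ ≠ 0) →
      ∃ α ∈ D, ∃ β ∈ D, α ≠ β ∧ ∑ γ ∈ D, (Real.log (maxq f) - Real.log ‖evq f γ‖) ≤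
        C + (2 * Real.log (maxq f) - Real.log ‖evq f α‖ - Real.log ‖evq f β‖) := by
  classical
  have htri : ∀ t : OnePoint ℂ × OnePoint ℂ × OnePoint ℂ, ∃ C : ℝ, 1 ≤ C ∧
      (t.1 ≠ t.2.1 → t.1 ≠ t.2.2 → t.2.1 ≠ t.2.2 → ∀ f : Fin 3 → ℤ, maxq f ≤
      C * max ‖evq f t.1‖ (max ‖evq f t.2.1‖ ‖evq f t.2.2‖)) := by
    rintro ⟨a, b, c⟩
    by_cases h : a ≠ b ∧ a ≠ c ∧ b ≠ c
    · obtain ⟨C, hC, hC'⟩ := three_points h.1 h.2.1 h.2.2
      refine ⟨max 1 C, le_max_left _ _, fun _ _ _ f => (hC' f).trans ?_⟩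
      refine mul_le_mul_of_nonneg_right (le_max_right _ _) ?_
      exact (norm_nonneg _).trans (le_max_left _ _)
    · refine ⟨1, le_rfl, fun h1 h2 h3 => absurd ⟨h1, h2, h3⟩ h⟩
  choose Ct hCt1 hCt using htri
  set Cm : ℝ := ∑ t ∈ D ×ˢ D ×ˢ D, Ct t with hCm
  have hCle : ∀ t ∈ D ×ˢ D ×ˢ D, Ct t ≤ Cm := fun t ht =>
    Finset.single_le_sum (f := Ct) (fun t _ => by linarith [hCt1 t]) ht
  have hCm1 : 1 ≤ Cm := (hCt1 (α₀, α₀, α₀)).trans (hCle _ (by simp [hα₀]))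
  refine ⟨D.card * Real.log Cm, fun f hf1 hf => ?_⟩
  obtain ⟨α, hα, hαmin⟩ := D.exists_min_image (fun γ => ‖evq f γ‖) ⟨α₀, hα₀⟩
  have hDe : (D.erase α).Nonempty := by
    by_cases h : α₀ = α
    · exact ⟨β₀, Finset.mem_erase.mpr ⟨fun h2 => hne (h.trans h2.symm), hβ₀⟩⟩
    · exact ⟨α₀, Finset.mem_erase.mpr ⟨h, hα₀⟩⟩
  obtain ⟨β, hβ, hβmin⟩ := (D.erase α).exists_min_image (fun γ => ‖evq f γ‖) hDe
  have hβD := Finset.mem_of_mem_erase hβ
  have hβα := Finset.ne_of_mem_erase hβ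
  refine ⟨α, hα, β, hβD, hβα.symm, ?_⟩
  rw [← Finset.add_sum_erase D _ hα, ← Finset.add_sum_erase (D.erase α) _ hβ]
  have hrest : ∑ γ ∈ (D.erase α).erase β, (Real.log (maxq f) - Real.log ‖evq f γ‖) ≤
      D.card * Real.log Cm := by
    have h1 : ∀ γ ∈ (D.erase α).erase β, Real.log (maxq f) - Real.log ‖evq f γ‖ ≤
        Real.log Cm := by
      intro γ hγ
      have hγβ := Finset.ne_of_mem_erase hγ
      have hγe := Finset.mem_of_mem_erase hγ
      have hγα := Finset.ne_of_mem_erase hγe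
      have hγD := Finset.mem_of_mem_erase hγe
      have h2 := hCt (α, β, γ) hβα.symm hγα.symm hγβ.symm f
      have h3 : max ‖evq f α‖ (max ‖evq f β‖ ‖evq f γ‖) = ‖evq f γ‖ := by
        rw [max_eq_right (hβmin γ hγe)]
        exact max_eq_right (hαmin γ hγD)
      simp only at h2
      rw [h3] at h2
      have h4 : maxq f ≤ Cm * ‖evq f γ‖ := h2.trans
        (mul_le_mul_of_nonneg_right (hCle _ (by simp [hα, hβD, hγD])) (norm_nonneg _))
      have h5 : 0 < ‖evq f γ‖ := norm_pos_iff.mpr (hf γ hγD)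
      have h6 := Real.log_le_log (by linarith) h4
      rw [Real.log_mul (by linarith) h5.ne'] at h6
      linarith
    refine (Finset.sum_le_card_nsmul _ _ _ h1).trans ?_
    rw [nsmul_eq_mul]
    refine mul_le_mul_of_nonneg_right ?_ (Real.log_nonneg hCm1)
    exact_mod_cast (Finset.card_erase_le.trans Finset.card_erase_le)
  linarith

/-- the abstract form of the conclusion -/
theorem prox_of_pairs (D D' : Finset (OnePoint ℂ)) (hsub : D ⊆ D')
    (h0D : ((0 : ℂ) : OnePoint ℂ) ∈ D') (hiD : (OnePoint.infty : OnePoint ℂ) ∈ D')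
    (hD' : ∀ γ ∈ D', γ = ((0 : ℂ) : OnePoint ℂ) ∨ γ = OnePoint.infty ∨ γ ∈ D)
    (ε : ℝ) (hε : 0 < ε)
    (Pr : (Fin 3 → ℤ) → Prop) (W : (Fin 3 → ℤ) → ℝ) (hW : ∀ f, discq f ≠ 0 → 0 < W f)
    (h : ∀ α ∈ D', ∀ β ∈ D', α ≠ β →
      ∃ c : ℝ, 0 < c ∧ ∀ f : Fin 3 → ℤ, Pr f → discq f ≠ 0 → evq f α ≠ 0 → evq f β ≠ 0 →
        c * maxq f ^ (-ε) ≤ ‖evq f α‖ * ‖evq f β‖ * W f) :
    ∃ c : ℝ, ∀ (K : Type) [Field K] [NumberField K], Module.finrank ℚ K = 2 → ∀ x : K,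
      x ∉ Set.range (algebraMap ℚ K) → (∀ σ : K →+* ℂ, ((σ x : ℂ) : OnePoint ℂ) ∉ D) →
      ∀ f : Fin 3 → ℤ, (f 0 : K) * x ^ 2 + (f 1 : K) * x + (f 2 : K) = 0 →
      (∀ d : ℤ, (∀ i, d ∣ f i) → IsUnit d) → Pr f →
        prox D K x ≤ (2 + ε) * ht K x + Real.log (W f) / 2 + c := by
  classical
  obtain ⟨C₁, hC₁⟩ := best_two D' _ _ h0D hiD (OnePoint.coe_ne_infty _)
  choose! cc hcc hccf using h
  choose Cα hCα using chord_sum
  -- uniform constant for the pairs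
  set C₂ : ℝ := ∑ p ∈ D' ×ˢ D', |Real.log (cc p.1 p.2)| with hC₂
  have hC₂le : ∀ α ∈ D', ∀ β ∈ D', -Real.log (cc α β) ≤ C₂ := by
    intro α hα β hβ
    refine (neg_le_abs _).trans ?_
    exact Finset.single_le_sum (f := fun p : OnePoint ℂ × OnePoint ℂ => |Real.log (cc p.1 p.2)|)
      (fun _ _ => abs_nonneg _) (Finset.mk_mem_product hα hβ)
  refine ⟨(∑ γ ∈ D, Cα γ + C₁ + C₂ + (2 + ε) * Real.log 4) / 2, ?_⟩
  intro K _ _ hK x hx hσ f hf hgcd hPr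
  have hf0 : f ≠ 0 := by
    intro h0
    have := hgcd 2 (fun i => by rw [h0]; exact dvd_zero _)
    rw [Int.isUnit_iff] at this
    omega
  obtain ⟨ξ₁, ξ₂, hsum, h00, hroots, hξne, ⟨σ₁, hσ₁⟩, ⟨σ₂, hσ₂⟩⟩ := exists_roots K hK x hx f hf hf0
  -- the values are not zero
  have hev : ∀ γ ∈ D, evq f γ ≠ 0 := by
    intro γ hγ
    rcases γ with _ | z
    · change ((f 0 : ℤ) : ℂ) ≠ 0
      exact_mod_cast h00
    · change (f 0 : ℂ) * z ^ 2 + (f 1 : ℂ) * z + (f 2 : ℂ) ≠ 0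
      rw [hroots z]
      have h00' : (f 0 : ℂ) ≠ 0 := by exact_mod_cast h00
      refine mul_ne_zero (mul_ne_zero h00' (sub_ne_zero.mpr ?_)) (sub_ne_zero.mpr ?_)
      · intro hz
        apply hσ σ₁
        rw [hσ₁, ← hz]
        exact hγ
      · intro hz
        apply hσ σ₂
        rw [hσ₂, ← hz]
        exact hγ
  have hf2 : f 2 ≠ 0 := by
    intro h2
    have h3 := hroots 0
    rw [h2] at h3
    simp only [Int.cast_zero] at h3
    have h00' : (f 0 : ℂ) ≠ 0 := by exact_mod_cast h00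
    have h4 : (f 0 : ℂ) * (0 - ξ₁) * (0 - ξ₂) = 0 := by rw [← h3]; ring
    have hx0 : x = 0 := by
      rcases mul_eq_zero.mp h4 with h5 | h5
      · have h6 := (mul_eq_zero.mp h5).resolve_left h00'
        have h7 : σ₁ x = 0 := by rw [hσ₁]; linear_combination -h6
        exact (map_eq_zero σ₁).mp h7
      · have h7 : σ₂ x = 0 := by rw [hσ₂]; linear_combination -h5
        exact (map_eq_zero σ₂).mp h7
    exact hx ⟨0, by rw [hx0, map_zero]⟩
  have hev' : ∀ γ ∈ D', evq f γ ≠ 0 := by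
    intro γ hγ
    rcases hD' γ hγ with h1 | h1 | h1
    · rw [h1]
      change (f 0 : ℂ) * (0 : ℂ) ^ 2 + (f 1 : ℂ) * (0 : ℂ) + (f 2 : ℂ) ≠ 0
      simpa using hf2
    · rw [h1]
      change ((f 0 : ℤ) : ℂ) ≠ 0
      exact_mod_cast h00
    · exact hev γ h1
  have hdisc : discq f ≠ 0 := by
    intro h0
    apply hξne
    have h1 := hroots 0
    have h2 := hroots 1
    have h00' : (f 0 : ℂ) ≠ 0 := by exact_mod_cast h00
    have hb : (f 1 : ℂ) = -(f 0 : ℂ) * (ξ₁ + ξ₂) := by linear_combination h2 - h1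
    have hc : (f 2 : ℂ) = (f 0 : ℂ) * (ξ₁ * ξ₂) := by linear_combination h1
    have h3 : ((discq f : ℤ) : ℂ) = (f 0 : ℂ) ^ 2 * (ξ₁ - ξ₂) ^ 2 := by
      rw [discq]
      push_cast
      rw [hb, hc]
      ring
    rw [h0, Int.cast_zero] at h3
    have h4 := (mul_eq_zero.mp h3.symm).resolve_left (pow_ne_zero 2 h00')
    exact sub_eq_zero.mp (pow_eq_zero_iff (two_ne_zero) |>.mp h4)
  have hmax1 : 1 ≤ maxq f := one_le_maxq hdisc
  have hmax0 : 0 < maxq f := by linarith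
  -- the sum over `D'`
  obtain ⟨α, hα, β, hβ, hαβ, hbest⟩ := hC₁ f hmax1 hev'
  have hpair := hccf α hα β hβ hαβ f hPr hdisc (hev' α hα) (hev' β hβ)
  have hcpos := hcc α hα β hβ hαβ
  have hα0 : ‖evq f α‖ ≠ 0 := norm_ne_zero_iff.mpr (hev' α hα)
  have hβ0 : ‖evq f β‖ ≠ 0 := norm_ne_zero_iff.mpr (hev' β hβ)
  have hWf := hW f hdisc
  have hlog := Real.log_le_log (mul_pos hcpos (Real.rpow_pos_of_pos hmax0 _)) hpair
  rw [Real.log_mul hcpos.ne' (Real.rpow_pos_of_pos hmax0 _).ne', Real.log_rpow hmax0,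
    Real.log_mul (mul_ne_zero hα0 hβ0) hWf.ne', Real.log_mul hα0 hβ0] at hlog
  have hC2 := hC₂le α hα β hβ
  have hDD' : ∑ γ ∈ D, (Real.log (maxq f) - Real.log ‖evq f γ‖) ≤
      ∑ γ ∈ D', (Real.log (maxq f) - Real.log ‖evq f γ‖) := by
    refine Finset.sum_le_sum_of_subset_of_nonneg hsub ?_
    intro γ hγ hγD
    rw [sub_nonneg]
    rcases hD' γ hγ with h1 | h1 | h1
    · rw [h1]
      refine Real.log_le_log (norm_pos_iff.mpr (hev' _ h0D)) ?_
      have : evq f ((0 : ℂ) : OnePoint ℂ) = (f 2 : ℂ) := by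
        change (f 0 : ℂ) * (0 : ℂ) ^ 2 + (f 1 : ℂ) * (0 : ℂ) + (f 2 : ℂ) = _
        ring
      rw [this, Complex.norm_intCast]
      exact abs_le_maxq f 2
    · rw [h1]
      refine Real.log_le_log (norm_pos_iff.mpr (hev' _ hiD)) ?_
      have : evq f (OnePoint.infty : OnePoint ℂ) = (f 0 : ℂ) := rfl
      rw [this, Complex.norm_intCast]
      exact abs_le_maxq f 0
    · exact absurd h1 hγD
  -- the proximity function
  have hprox : prox D K x ≤ (∑ γ ∈ D, Cα γ +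
      ∑ γ ∈ D, (Real.log (maxq f) - Real.log ‖evq f γ‖)) / 2 := by
    rw [prox, hK]
    push_cast
    refine div_le_div_of_nonneg_right ?_ (by norm_num)
    rw [Finset.sum_comm, ← Finset.sum_add_distrib]
    refine Finset.sum_le_sum fun γ hγ => ?_
    rw [hsum (fun z => -Real.log (chord z γ))]
    exact hCα γ f ξ₁ ξ₂ h00 hroots (hev γ hγ)
  have hht : Real.log (maxq f) ≤ Real.log 4 + 2 * ht K x := by
    have h1 := maxq_le_height K hK x hx f hf hgcd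
    have h2 := Real.log_le_log hmax0 h1
    rw [Real.log_mul (by norm_num) (Height.mulHeight₁_ne_zero x)] at h2
    rw [ht, hK, Height.logHeight₁_eq_log_mulHeight₁]
    push_cast
    linarith
  have h2ε : (2 + ε) * Real.log (maxq f) ≤ (2 + ε) * (Real.log 4 + 2 * ht K x) :=
    mul_le_mul_of_nonneg_left hht (by linarith)
  linarith

end Pool.Agent.SST
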