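import Pool.Agent.SST.ProxDefsS
import Pool.Agent.SST.VeroDefs

/-! From values of the form to proximity functions, in an algebraically closed normed field. -/

namespace Pool.Agent.SST

open scoped BigOperators

/-- the two conjugates -/
theorem exists_rootsA (A : Type) [Field A] [CharZero A] [IsAlgClosed A]
    (K : Type) [Field K] [NumberField K] (hK : Module.finrank ℚ K = 2) (x : K)
    (hx : x ∉ Set.range (algebraMap ℚ K)) (f : Fin 3 → ℤ)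
    (hf : (f 0 : K) * x ^ 2 + (f 1 : K) * x + (f 2 : K) = 0) (hf0 : f ≠ 0) :
    ∃ ξ₁ ξ₂ : A, (∀ g : A → ℝ, ∑ σ : K →+* A, g (σ x) = g ξ₁ + g ξ₂) ∧ f 0 ≠ 0 ∧
      (∀ z : A, (f 0 : A) * z ^ 2 + (f 1 : A) * z + (f 2 : A) = f 0 * (z - ξ₁) * (z - ξ₂)) ∧
      ξ₁ ≠ ξ₂ ∧ (∃ σ : K →+* A, σ x = ξ₁) ∧ (∃ σ : K →+* A, σ x = ξ₂) := by
  classical
  have h00 : f 0 ≠ 0 := by
    intro h0
    rw [h0] at hf
    simp only [Int.cast_zero, zero_mul, zero_add] at hf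
    by_cases h1 : f 1 = 0
    · rw [h1] at hf
      simp only [Int.cast_zero, zero_mul, zero_add, Int.cast_eq_zero] at hf
      apply hf0
      funext i
      fin_cases i
      · exact h0
      · exact h1
      · exact hf
    · apply hx
      have h1' : (f 1 : K) ≠ 0 := by exact_mod_cast h1
      refine ⟨-(f 2 : ℚ) / (f 1 : ℚ), ?_⟩
      rw [map_div₀, map_neg, map_intCast, map_intCast, div_eq_iff h1']
      linear_combination -hf
  have hcard : Fintype.card (K →+* A) = 2 := by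
    rw [NumberField.Embeddings.card, hK]
  obtain ⟨σ₁, σ₂, hne, hu⟩ : ∃ σ₁ σ₂ : K →+* A, σ₁ ≠ σ₂ ∧
      (Finset.univ : Finset (K →+* A)) = {σ₁, σ₂} := by
    rw [← Finset.card_univ] at hcard
    exact Finset.card_eq_two.mp hcard
  have hgen : IntermediateField.adjoin ℚ {x} = (⊤ : IntermediateField ℚ K) := by
    have hdvd : Module.finrank ℚ (IntermediateField.adjoin ℚ {x}) ∣ 2 := by
      rw [← hK]
      exact ⟨_, (Module.finrank_mul_finrank ℚ (IntermediateField.adjoin ℚ {x}) K).symm⟩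
    rcases (Nat.dvd_prime Nat.prime_two).mp hdvd with h | h
    · exfalso
      apply hx
      have h2 := IntermediateField.finrank_eq_one_iff.mp h
      have h3 : x ∈ (⊥ : IntermediateField ℚ K) := by
        rw [← h2]
        exact IntermediateField.mem_adjoin_simple_self ℚ x
      exact IntermediateField.mem_bot.mp h3
    · exact IntermediateField.eq_of_le_of_finrank_eq le_top
        (by rw [h, IntermediateField.finrank_top', hK])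
  have hinj : σ₁ x ≠ σ₂ x := by
    intro h
    apply hne
    have h1 : ∀ y ∈ IntermediateField.adjoin ℚ {x}, σ₁ y = σ₂ y := by
      intro y hy
      induction hy using IntermediateField.adjoin_induction with
      | mem z hz =>
        rw [Set.mem_singleton_iff] at hz
        rw [hz, h]
      | algebraMap q => simp
      | add a b _ _ ha hb => rw [map_add, map_add, ha, hb]
      | inv a _ ha => rw [map_inv₀, map_inv₀, ha]
      | mul a b _ _ ha hb => rw [map_mul, map_mul, ha, hb]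
    ext y
    exact h1 y (by rw [hgen]; trivial)
  have hroot : ∀ σ : K →+* A, (f 0 : A) * (σ x) ^ 2 + (f 1 : A) * σ x + (f 2 : A) = 0 := by
    intro σ
    have := congrArg σ hf
    simpa using this
  have h1 := hroot σ₁
  have h2 := hroot σ₂
  have hsub : σ₁ x - σ₂ x ≠ 0 := sub_ne_zero.mpr hinj
  have hs : (f 0 : A) * (σ₁ x + σ₂ x) + f 1 = 0 := by
    have h3 : (σ₁ x - σ₂ x) * ((f 0 : A) * (σ₁ x + σ₂ x) + f 1) = 0 := by
      linear_combination h1 - h2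
    exact (mul_eq_zero.mp h3).resolve_left hsub
  refine ⟨σ₁ x, σ₂ x, ?_, h00, ?_, hinj, ⟨σ₁, rfl⟩, ⟨σ₂, rfl⟩⟩
  · intro g
    rw [hu, Finset.sum_pair hne]
  · intro z
    linear_combination (z - σ₁ x) * hs + h1

section

variable {A : Type} [NormedField A]

lemma norm_le_nf (f : Fin 3 → ℤ) (i : Fin 3) : ‖(f i : A)‖ ≤ nf A f := by
  fin_cases i
  · exact le_max_left _ _
  · exact (le_max_left _ _).trans (le_max_right _ _)
  · exact (le_max_right _ _).trans (le_max_right _ _)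

lemma nf_nonneg (f : Fin 3 → ℤ) : 0 ≤ nf A f :=
  (norm_nonneg (f 0 : A)).trans (norm_le_nf f 0)

lemma root_boundA (f : Fin 3 → ℤ) (ξ : A)
    (h : (f 0 : A) * ξ ^ 2 + (f 1 : A) * ξ + (f 2 : A) = 0) :
    ‖(f 0 : A)‖ * ‖ξ‖ ≤ 2 * nf A f := by
  have hH0 := norm_le_nf (A := A) f 0
  have hH1 := norm_le_nf (A := A) f 1
  have hH2 := norm_le_nf (A := A) f 2
  have h0 : 0 ≤ nf A f := nf_nonneg f
  rcases le_or_gt ‖ξ‖ 1 with h1 | h1
  · nlinarith [norm_nonneg (f 0 : A), norm_nonneg ξ]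
  · have h2 : (f 0 : A) * ξ ^ 2 = -((f 1 : A) * ξ + (f 2 : A)) := by linear_combination h
    have h3 := congrArg norm h2
    rw [norm_neg, norm_mul, norm_pow] at h3
    have h4 := norm_add_le ((f 1 : A) * ξ) (f 2 : A)
    rw [norm_mul] at h4
    have h5 : ‖(f 0 : A)‖ * ‖ξ‖ ^ 2 ≤ nf A f * ‖ξ‖ + nf A f := by
      rw [h3]
      refine h4.trans ?_
      gcongr
    have h7 : (‖(f 0 : A)‖ * ‖ξ‖) * ‖ξ‖ ≤ (2 * nf A f) * ‖ξ‖ := by nlinarith
    exact le_of_mul_le_mul_right h7 (by linarith)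

lemma mahler_boundA (f : Fin 3 → ℤ) (ξ₁ ξ₂ : A)
    (h : ∀ z : A, (f 0 : A) * z ^ 2 + (f 1 : A) * z + (f 2 : A) = f 0 * (z - ξ₁) * (z - ξ₂)) :
    ‖(f 0 : A)‖ * max 1 ‖ξ₁‖ * max 1 ‖ξ₂‖ ≤ 6 * nf A f := by
  have hH0 := norm_le_nf (A := A) f 0
  have hH2 := norm_le_nf (A := A) f 2
  have h0 : 0 ≤ nf A f := nf_nonneg f
  have h1 := root_boundA f ξ₁ (by rw [h]; ring)
  have h2 := root_boundA f ξ₂ (by rw [h]; ring)
  have h3 : ‖(f 0 : A)‖ * (‖ξ₁‖ * ‖ξ₂‖) = ‖(f 2 : A)‖ := by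
    have h4 := congrArg norm (h 0)
    simp only [ne_eq, OfNat.ofNat_ne_zero, not_false_eq_true, zero_pow, mul_zero, zero_add,
      zero_sub, norm_mul, norm_neg] at h4
    rw [h4]
    ring
  have h5 : max 1 ‖ξ₁‖ ≤ 1 + ‖ξ₁‖ := max_le (by linarith [norm_nonneg ξ₁]) (by linarith)
  have h6 : max 1 ‖ξ₂‖ ≤ 1 + ‖ξ₂‖ := max_le (by linarith [norm_nonneg ξ₂]) (by linarith)
  calc ‖(f 0 : A)‖ * max 1 ‖ξ₁‖ * max 1 ‖ξ₂‖ ≤ ‖(f 0 : A)‖ * (1 + ‖ξ₁‖) * (1 + ‖ξ₂‖) := by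
        gcongr
    _ = ‖(f 0 : A)‖ + ‖(f 0 : A)‖ * ‖ξ₁‖ + ‖(f 0 : A)‖ * ‖ξ₂‖ +
        ‖(f 0 : A)‖ * (‖ξ₁‖ * ‖ξ₂‖) := by ring
    _ ≤ 6 * nf A f := by rw [h3]; linarith

/-- the values of the form and the distances of its roots -/
lemma chord_sumA [CharZero A] (α : OnePoint A) : ∃ Cα : ℝ, ∀ (f : Fin 3 → ℤ) (ξ₁ ξ₂ : A),
    f 0 ≠ 0 →
    (∀ z : A, (f 0 : A) * z ^ 2 + (f 1 : A) * z + (f 2 : A) = f 0 * (z - ξ₁) * (z - ξ₂)) →
    evK f α ≠ 0 → -Real.log (chordM ξ₁ α) + -Real.log (chordM ξ₂ α) ≤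
      Cα + (Real.log (nf A f) - Real.log ‖evK f α‖) := by
  have hm : ∀ ξ : A, 0 < max 1 ‖ξ‖ := fun ξ => lt_of_lt_of_le one_pos (le_max_left _ _)
  have key : ∃ c : ℝ, 0 < c ∧ ∀ (f : Fin 3 → ℤ) (ξ₁ ξ₂ : A), f 0 ≠ 0 →
    (∀ z : A, (f 0 : A) * z ^ 2 + (f 1 : A) * z + (f 2 : A) = f 0 * (z - ξ₁) * (z - ξ₂)) →
      chordM ξ₁ α * chordM ξ₂ α * (‖(f 0 : A)‖ * max 1 ‖ξ₁‖ * max 1 ‖ξ₂‖) * c = ‖evK f α‖ := by
    rcases α with _ | w
    · refine ⟨1, one_pos, fun f ξ₁ ξ₂ h0 h => ?_⟩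
      have h1 := hm ξ₁
      have h2 := hm ξ₂
      change 1 / max 1 ‖ξ₁‖ * (1 / max 1 ‖ξ₂‖) *
        (‖(f 0 : A)‖ * max 1 ‖ξ₁‖ * max 1 ‖ξ₂‖) * 1 = ‖(f 0 : A)‖
      field_simp
    · refine ⟨max 1 ‖w‖ ^ 2, by have := hm w; positivity, fun f ξ₁ ξ₂ h0 h => ?_⟩
      have h1 := hm ξ₁
      have h2 := hm ξ₂
      have h3 := hm w
      change ‖ξ₁ - w‖ / (max 1 ‖ξ₁‖ * max 1 ‖w‖) *
        (‖ξ₂ - w‖ / (max 1 ‖ξ₂‖ * max 1 ‖w‖)) *
        (‖(f 0 : A)‖ * max 1 ‖ξ₁‖ * max 1 ‖ξ₂‖) * max 1 ‖w‖ ^ 2 =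
        ‖(f 0 : A) * w ^ 2 + (f 1 : A) * w + (f 2 : A)‖
      rw [h w, norm_mul, norm_mul, norm_sub_rev w ξ₁, norm_sub_rev w ξ₂]
      field_simp
  obtain ⟨c, hc, hkey⟩ := key
  refine ⟨Real.log 6 + Real.log c, fun f ξ₁ ξ₂ h0 h hev => ?_⟩
  have h1 := hkey f ξ₁ ξ₂ h0 h
  have hM := mahler_boundA f ξ₁ ξ₂ h
  have h0' : (f 0 : A) ≠ 0 := by exact_mod_cast h0
  have h3 : 0 < ‖(f 0 : A)‖ := norm_pos_iff.mpr h0'
  set M := ‖(f 0 : A)‖ * max 1 ‖ξ₁‖ * max 1 ‖ξ₂‖ with hMdef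
  have hM0 : 0 < M := by
    have h1 := hm ξ₁
    have h2 := hm ξ₂
    positivity
  have hev0 : ‖evK f α‖ ≠ 0 := norm_ne_zero_iff.mpr hev
  have hc1 : chordM ξ₁ α ≠ 0 := by
    intro hz
    rw [hz, zero_mul, zero_mul, zero_mul] at h1
    exact hev0 h1.symm
  have hc2 : chordM ξ₂ α ≠ 0 := by
    intro hz
    rw [hz, mul_zero, zero_mul, zero_mul] at h1
    exact hev0 h1.symm
  have h2 := congrArg Real.log h1
  rw [Real.log_mul (mul_ne_zero (mul_ne_zero hc1 hc2) hM0.ne') hc.ne',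
    Real.log_mul (mul_ne_zero hc1 hc2) hM0.ne', Real.log_mul hc1 hc2] at h2
  have h3' := Real.log_le_log hM0 hM
  have hmax : 0 < nf A f := h3.trans_le (norm_le_nf f 0)
  rw [Real.log_mul (by norm_num) hmax.ne'] at h3'
  linarith

end

end Pool.Agent.SST
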