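import Pool.Agent.SST.SchmidtReal

/-! Schmidt's subspace theorem: complex forms with algebraic coefficients, from the real case. -/

open MvPolynomial Filter

namespace Pool.Agent.SST

private lemma sc_alg_conj {z : ℂ} (h : IsAlgebraic ℚ z) :
    IsAlgebraic ℚ ((starRingEnd ℂ) z) := by
  have h2 : IsAlgebraic ℚ (((Complex.conjAe : ℂ →ₐ[ℝ] ℂ).restrictScalars ℚ) z) :=
    h.algHom _
  exact h2

private lemma sc_alg_re {z : ℂ} (h : IsAlgebraic ℚ z) : IsAlgebraic ℚ z.re := by
  have h1 : IsAlgebraic ℚ (z + (starRingEnd ℂ) z) := h.add (sc_alg_conj h)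
  rw [Complex.add_conj] at h1
  have h2 : IsAlgebraic ℚ ((2 * z.re : ℝ)) := by
    have : IsAlgebraic ℚ (algebraMap ℝ ℂ (2 * z.re)) := by simpa using h1
    exact (isAlgebraic_algebraMap_iff (algebraMap ℝ ℂ).injective).1 this
  have h3 : IsAlgebraic ℚ ((1 / 2 : ℚ) • (2 * z.re : ℝ)) := h2.smul _
  have h4 : ((1 / 2 : ℚ) • (2 * z.re : ℝ)) = z.re := by
    rw [Rat.smul_def]
    push_cast
    ring
  rwa [h4] at h3

private lemma sc_alg_im {z : ℂ} (h : IsAlgebraic ℚ z) : IsAlgebraic ℚ z.im := by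
  have hI : IsAlgebraic ℚ Complex.I := by
    refine ⟨Polynomial.X ^ 2 + 1, ?_, ?_⟩
    · intro h0
      have := congrArg (Polynomial.eval 0) h0
      simp at this
    · simp
  have h1 : IsAlgebraic ℚ (z * (-Complex.I)) := h.mul hI.neg
  have h2 := sc_alg_re h1
  simpa using h2

theorem schmidt_complex {m : ℕ} (hm : 1 ≤ m) (L : Matrix (Fin (m + 1)) (Fin (m + 1)) ℂ)
    (hLalg : ∀ i j, IsAlgebraic ℚ (L i j)) (hL : L.det ≠ 0) (δ : ℝ) (hδ : 0 < δ) :
    ∃ F : Finset (Fin (m + 1) → ℤ), 0 ∉ F ∧ ∀ (x : Fin (m + 1) → ℤ) (H : ℝ), 1 ≤ H →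
      (∀ i, |((x i : ℤ) : ℝ)| ≤ H) →
      ∏ i, ‖L.mulVec (fun j => (x j : ℂ)) i‖ ≤ H ^ (-δ) → (∃ b ∈ F, ∑ i, b i * x i = 0) := by
  classical
  let D : Finset (Fin (m + 1)) → Matrix (Fin (m + 1)) (Fin (m + 1)) ℝ := fun s i j =>
    if i ∈ s then (L i j).re else (L i j).im
  have hex : ∃ s, (D s).det ≠ 0 := by
    by_contra hcon
    push Not at hcon
    apply hL
    have h1 := (Matrix.detRowAlternating (R := ℂ) (n := Fin (m + 1))).toMultilinearMap.map_add_univ
      (fun i j => ((L i j).re : ℂ)) (fun i j => Complex.I * ((L i j).im : ℂ))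
    have h2 : (fun i j => ((L i j).re : ℂ)) + (fun i j => Complex.I * ((L i j).im : ℂ)) = L := by
      funext i j
      simp only [Pi.add_apply]
      rw [mul_comm]
      exact Complex.re_add_im (L i j)
    have h3 : L.det = ∑ s : Finset (Fin (m + 1)), Matrix.det
        (s.piecewise (fun i j => ((L i j).re : ℂ)) (fun i j => Complex.I * ((L i j).im : ℂ)) :
          Matrix (Fin (m + 1)) (Fin (m + 1)) ℂ) := by
      rw [h2] at h1
      exact h1
    rw [h3]
    refine Finset.sum_eq_zero fun s _ => ?_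
    have h4 : (s.piecewise (fun i j => ((L i j).re : ℂ))
        (fun i j => Complex.I * ((L i j).im : ℂ)) : Matrix (Fin (m + 1)) (Fin (m + 1)) ℂ) =
        Matrix.of fun i j => (if i ∈ s then (1 : ℂ) else Complex.I) *
          ((D s).map (algebraMap ℝ ℂ)) i j := by
      funext i j
      by_cases hi : i ∈ s
      · simp [Finset.piecewise, hi, D]
      · simp [Finset.piecewise, hi, D]
    rw [h4]
    refine (Matrix.det_mul_column (fun i => if i ∈ s then (1 : ℂ) else Complex.I)
      ((D s).map (algebraMap ℝ ℂ))).trans ?_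
    rw [← RingHom.mapMatrix_apply, ← RingHom.map_det, hcon s, map_zero, mul_zero]
  obtain ⟨s, hs⟩ := hex
  have hDalg : ∀ i j, IsAlgebraic ℚ (D s i j) := by
    intro i j
    simp only [D]
    split_ifs
    · exact sc_alg_re (hLalg i j)
    · exact sc_alg_im (hLalg i j)
  obtain ⟨F, hF0, hF⟩ := schmidt_real hm (D s) hDalg hs δ hδ
  refine ⟨F, hF0, fun x H hH hx hprod => hF x H hH hx (le_trans ?_ hprod)⟩
  refine Finset.prod_le_prod (fun i _ => abs_nonneg _) fun i _ => ?_
  by_cases hi : i ∈ s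
  · have : (D s).mulVec (fun j => (x j : ℝ)) i = (L.mulVec (fun j => (x j : ℂ)) i).re := by
      simp only [Matrix.mulVec, dotProduct, D, hi, if_true, Complex.re_sum]
      refine Finset.sum_congr rfl fun j _ => ?_
      simp [Complex.mul_re]
    rw [this]
    exact Complex.abs_re_le_norm _
  · have : (D s).mulVec (fun j => (x j : ℝ)) i = (L.mulVec (fun j => (x j : ℂ)) i).im := by
      simp only [Matrix.mulVec, dotProduct, D, hi, if_false, Complex.im_sum]
      refine Finset.sum_congr rfl fun j _ => ?_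
      simp [Complex.mul_im]
    rw [this]
    exact Complex.abs_im_le_norm _

end Pool.Agent.SST
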