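import Pool.Agent.SST.Main

/-! Schmidt's subspace theorem for real linear forms with algebraic coefficients (MP_6f1c57_nt). -/

set_option autoImplicit false

open MvPolynomial Filter Topology

namespace Pool.Agent.SST

section SR

variable {m : ℕ}

/-- the exponents along the family of bad vectors -/
lemma sr_exists_orth (hm : 1 ≤ m) (x : Fin (m + 1) → ℤ) :
    ∃ b : Fin (m + 1) → ℤ, b ≠ 0 ∧ ∑ i, b i * x i = 0 := by
  have h01 : (0 : Fin (m + 1)) ≠ Fin.last m := by
    intro h
    have := congrArg Fin.val h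
    simp at this
    omega
  by_cases hx : x (Fin.last m) = 0
  · refine ⟨Pi.single (Fin.last m) 1, ?_, ?_⟩
    · intro h
      have := congrFun h (Fin.last m)
      simp at this
    · rw [Finset.sum_eq_single (Fin.last m)]
      · simp [hx]
      · intro j _ hj
        simp [hj]
      · simp
  · refine ⟨Pi.single 0 (x (Fin.last m)) - Pi.single (Fin.last m) (x 0), ?_, ?_⟩
    · intro h
      have := congrFun h 0
      simp [h01] at this
      exact hx this
    · simp only [Pi.sub_apply, sub_mul, Finset.sum_sub_distrib]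
      rw [Finset.sum_eq_single 0, Finset.sum_eq_single (Fin.last m)]
      · simp
        ring
      · intro j _ hj
        simp [hj]
      · simp
      · intro j _ hj
        simp [hj]
      · simp

lemma sr_finite_box (R : ℝ) : {x : Fin (m + 1) → ℤ | ∀ i, |((x i : ℤ) : ℝ)| ≤ R}.Finite := by
  have h1 : {x : Fin (m + 1) → ℤ | ∀ i, |((x i : ℤ) : ℝ)| ≤ R} ⊆
      Set.Icc (fun _ => -⌊R⌋) (fun _ => ⌊R⌋) := by
    intro x hx
    simp only [Set.mem_ofPred_eq] at hx
    refine ⟨fun i => ?_, fun i => ?_⟩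
    · have := (abs_le.mp (hx i)).1
      have h2 : ((-x i : ℤ) : ℝ) ≤ R := by push_cast; linarith
      have := Int.le_floor.mpr h2
      show -⌊R⌋ ≤ x i
      linarith
    · exact Int.le_floor.mpr (abs_le.mp (hx i)).2
  exact (Set.finite_Icc _ _).subset h1

theorem schmidt_real {m : ℕ} (hm : 1 ≤ m) (L : Matrix (Fin (m + 1)) (Fin (m + 1)) ℝ)
    (hLalg : ∀ i j, IsAlgebraic ℚ (L i j)) (hL : L.det ≠ 0) (δ : ℝ) (hδ : 0 < δ) :
    ∃ F : Finset (Fin (m + 1) → ℤ), 0 ∉ F ∧ ∀ (x : Fin (m + 1) → ℤ) (H : ℝ), 1 ≤ H →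
      (∀ i, |((x i : ℤ) : ℝ)| ≤ H) →
      ∏ i, |L.mulVec (fun j => (x j : ℝ)) i| ≤ H ^ (-δ) → (∃ b ∈ F, ∑ i, b i * x i = 0) := by
  classical
  by_contra hcon
  push Not at hcon
  -- the family of bad vectors
  let X := Finset {b : Fin (m + 1) → ℤ // b ≠ 0}
  have hbad : ∀ F : X, ∃ p : (Fin (m + 1) → ℤ) × ℝ, 1 ≤ p.2 ∧ (∀ i, |((p.1 i : ℤ) : ℝ)| ≤ p.2) ∧
      ∏ i, |L.mulVec (fun j => (p.1 j : ℝ)) i| ≤ p.2 ^ (-δ) ∧
      ∀ b ∈ F, ∑ i, b.1 i * p.1 i ≠ 0 := by
    intro F
    obtain ⟨x, H, h1, h2, h3, h4⟩ := hcon (F.image Subtype.val) (by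
      intro h0
      rw [Finset.mem_image] at h0
      obtain ⟨b, _, hb⟩ := h0
      exact b.2 hb)
    refine ⟨(x, H), h1, h2, h3, fun b hb => h4 b.1 (Finset.mem_image_of_mem _ hb)⟩
  choose p hp1 hp2 hp3 hp4 using hbad
  let n : X → ℕ := fun F => ⌈Real.log (p F).2⌉₊
  have hntop : Tendsto n atTop atTop := by
    rw [tendsto_atTop]
    intro N
    -- the finite box
    let s := (sr_finite_box (m := m) (Real.exp N)).toFinset
    choose bb hbb using fun x : Fin (m + 1) → ℤ => sr_exists_orth hm x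
    let F₀ : X := s.image (fun x => (⟨bb x, (hbb x).1⟩ : {b : Fin (m + 1) → ℤ // b ≠ 0}))
    filter_upwards [eventually_ge_atTop F₀] with F hF
    by_contra hlt
    push Not at hlt
    have h1 : Real.log (p F).2 < N :=
      (Nat.le_ceil (Real.log (p F).2)).trans_lt (by exact_mod_cast hlt)
    have h2 : (p F).2 ≤ Real.exp N := by
      have h3 : 0 < (p F).2 := by linarith [hp1 F]
      calc (p F).2 = Real.exp (Real.log (p F).2) := (Real.exp_log h3).symm
        _ ≤ Real.exp N := Real.exp_le_exp.mpr h1.le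
    have h3 : (p F).1 ∈ s := by
      simp only [s, Set.Finite.mem_toFinset, Set.mem_ofPred_eq]
      exact fun i => (hp2 F i).trans h2
    have h4 := hp4 F ⟨bb (p F).1, (hbb (p F).1).1⟩ (hF (Finset.mem_image.mpr ⟨_, h3, rfl⟩))
    exact h4 (hbb (p F).1).2
  let 𝒰 : Ultrafilter X := Ultrafilter.of atTop
  have h𝒰 : (𝒰 : Filter X) ≤ atTop := Ultrafilter.of_le _
  have hn : Tendsto n 𝒰 atTop := hntop.mono_left h𝒰
  have hHn : ∀ F, (p F).2 ≤ Real.exp (n F) := by
    intro F
    have h3 : 0 < (p F).2 := by linarith [hp1 F]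
    calc (p F).2 = Real.exp (Real.log (p F).2) := (Real.exp_log h3).symm
      _ ≤ Real.exp (n F) := Real.exp_le_exp.mpr (Nat.le_ceil _)
  have hlogn : ∀ F, (n F : ℝ) - 1 ≤ Real.log (p F).2 := by
    intro F
    have := Nat.ceil_lt_add_one (Real.log_nonneg (hp1 F))
    have h5 : (n F : ℝ) < Real.log (p F).2 + 1 := this
    linarith
  -- upper bound for the forms
  obtain ⟨c, hc1, hc⟩ : ∃ c : ℝ, 0 ≤ c ∧ ∀ F i, |L.mulVec (fun j => ((p F).1 j : ℝ)) i| ≤
      Real.exp (c + n F) := by
    let c' := 1 + ∑ i, ∑ j, |L i j|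
    have hc'0 : 1 ≤ c' := by
      have : 0 ≤ ∑ i, ∑ j, |L i j| :=
        Finset.sum_nonneg fun i _ => Finset.sum_nonneg fun j _ => abs_nonneg _
      linarith
    refine ⟨Real.log c', Real.log_nonneg hc'0, fun F i => ?_⟩
    rw [Real.exp_add, Real.exp_log (by linarith)]
    have h1 : |L.mulVec (fun j => ((p F).1 j : ℝ)) i| ≤ ∑ j, |L i j| * (p F).2 := by
      rw [Matrix.mulVec, dotProduct]
      refine (Finset.abs_sum_le_sum_abs _ _).trans (Finset.sum_le_sum fun j _ => ?_)
      rw [abs_mul]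
      exact mul_le_mul_of_nonneg_left (hp2 F j) (abs_nonneg _)
    have h2 : ∑ j, |L i j| ≤ c' := by
      have := Finset.single_le_sum (f := fun i => ∑ j, |L i j|)
        (fun i _ => Finset.sum_nonneg fun j _ => abs_nonneg _) (Finset.mem_univ i)
      linarith
    rw [← Finset.sum_mul] at h1
    refine h1.trans (mul_le_mul h2 (hHn F) (by linarith [hp1 F]) (by linarith))
  -- exponents
  let M : ℝ := m + 2
  let g : Fin (m + 1) → X → ℝ := fun i F =>
    if L.mulVec (fun j => ((p F).1 j : ℝ)) i = 0 then -M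
    else max (Real.log |L.mulVec (fun j => ((p F).1 j : ℝ)) i| / n F) (-M)
  have hg1 : ∀ i F, 0 < n F → |L.mulVec (fun j => ((p F).1 j : ℝ)) i| ≤ Real.exp (n F * g i F) := by
    intro i F hnF
    simp only [g]
    split_ifs with h0
    · rw [h0, abs_zero]
      exact (Real.exp_pos _).le
    · have h1 : 0 < |L.mulVec (fun j => ((p F).1 j : ℝ)) i| := abs_pos.mpr h0
      have hnR : (0 : ℝ) < n F := Nat.cast_pos.mpr hnF
      calc |L.mulVec (fun j => ((p F).1 j : ℝ)) i|
          = Real.exp (Real.log |L.mulVec (fun j => ((p F).1 j : ℝ)) i|) := (Real.exp_log h1).symm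
        _ = Real.exp (n F * (Real.log |L.mulVec (fun j => ((p F).1 j : ℝ)) i| / n F)) := by
            rw [mul_div_cancel₀ _ hnR.ne']
        _ ≤ _ := Real.exp_le_exp.mpr (mul_le_mul_of_nonneg_left (le_max_left _ _) hnR.le)
  have hg2 : ∀ i F, -M ≤ g i F := by
    intro i F
    simp only [g]
    split_ifs
    · exact le_rfl
    · exact le_max_right _ _
  have hM0 : 0 ≤ M := by positivity
  have hg3 : ∀ i F, 0 < n F → g i F ≤ c / n F + 1 := by
    intro i F hnF
    have hnR : (0 : ℝ) < n F := Nat.cast_pos.mpr hnF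
    have h00 : 0 ≤ c / n F := div_nonneg hc1 hnR.le
    simp only [g]
    split_ifs with h0
    · linarith
    · refine max_le ?_ (by linarith)
      have h1 : 0 < |L.mulVec (fun j => ((p F).1 j : ℝ)) i| := abs_pos.mpr h0
      have h2 : Real.log |L.mulVec (fun j => ((p F).1 j : ℝ)) i| ≤ c + n F := by
        rw [Real.log_le_iff_le_exp h1]
        exact hc F i
      calc _ ≤ (c + n F) / n F := div_le_div_of_nonneg_right h2 hnR.le
        _ = c / n F + 1 := by rw [add_div, div_self hnR.ne']
  have hlim : ∀ i, ∃ e : ℝ, Tendsto (g i) 𝒰 (𝓝 e) := by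
    intro i
    have hev : ∀ᶠ F in (𝒰 : Filter X), g i F ∈ Set.Icc (-M) (c + 1) := by
      filter_upwards [hn.eventually_gt_atTop 0] with F hF
      refine ⟨hg2 i F, (hg3 i F hF).trans ?_⟩
      have : c / n F ≤ c := div_le_self hc1 (by exact_mod_cast hF)
      linarith
    obtain ⟨x, _, hx⟩ := (isCompact_Icc (a := -M) (b := c + 1)).ultrafilter_le_nhds
      (𝒰.map (g i)) (by
        rw [Filter.le_principal_iff]
        exact hev)
    exact ⟨x, hx⟩
  choose e he using hlim
  have hninv : Tendsto (fun F => (1 : ℝ) / n F) 𝒰 (𝓝 0) := by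
    have h1 : Tendsto (fun F => ((n F : ℕ) : ℝ)) 𝒰 atTop := tendsto_natCast_atTop_atTop.comp hn
    exact h1.const_div_atTop 1
  have he1 : ∀ i, e i ≤ 1 := by
    intro i
    have h1 : Tendsto (fun F => c * ((1 : ℝ) / n F) + 1) 𝒰 (𝓝 (c * 0 + 1)) :=
      (hninv.const_mul c).add_const 1
    rw [mul_zero, zero_add] at h1
    refine le_of_tendsto_of_tendsto (he i) h1 ?_
    filter_upwards [hn.eventually_gt_atTop 0] with F hF
    refine (hg3 i F hF).trans (le_of_eq ?_)
    ring
  have hneg' : ∑ i, e i < 0 := by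
    by_cases hex : ∃ i, e i ≤ -M
    · obtain ⟨i₀, hi₀⟩ := hex
      have h1 : ∑ i, e i = e i₀ + ∑ i ∈ Finset.univ.erase i₀, e i :=
        (Finset.add_sum_erase _ _ (Finset.mem_univ i₀)).symm
      have h2 : ∑ i ∈ Finset.univ.erase i₀, e i ≤ m := by
        calc ∑ i ∈ Finset.univ.erase i₀, e i ≤ ∑ i ∈ Finset.univ.erase i₀, (1 : ℝ) :=
              Finset.sum_le_sum fun i _ => he1 i
          _ = m := by simp
      rw [h1]
      simp only [M] at hi₀
      linarith
    · push Not at hex
      have hev : ∀ᶠ F in (𝒰 : Filter X), ∀ i, -M < g i F :=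
        Filter.eventually_all.mpr fun i => (he i).eventually_const_lt (hex i)
      have h1 : Tendsto (fun F => ∑ i, g i F) 𝒰 (𝓝 (∑ i, e i)) :=
        tendsto_finsetSum _ fun i _ => he i
      have h2 : Tendsto (fun F => -δ + δ * ((1 : ℝ) / n F)) 𝒰 (𝓝 (-δ + δ * 0)) :=
        (hninv.const_mul δ).const_add _
      rw [mul_zero, add_zero] at h2
      have h3 : ∑ i, e i ≤ -δ := by
        refine le_of_tendsto_of_tendsto h1 h2 ?_
        filter_upwards [hev, hn.eventually_gt_atTop 0] with F hF hF0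
        have hnR : (0 : ℝ) < n F := Nat.cast_pos.mpr hF0
        have hne : ∀ i, L.mulVec (fun j => ((p F).1 j : ℝ)) i ≠ 0 := by
          intro i h0
          have := hF i
          simp only [g, h0, if_true] at this
          exact lt_irrefl _ this
        have hval : ∀ i, g i F = Real.log |L.mulVec (fun j => ((p F).1 j : ℝ)) i| / n F := by
          intro i
          have h5 := hF i
          simp only [g, hne i, if_false] at h5 ⊢
          rcases le_total (Real.log |L.mulVec (fun j => ((p F).1 j : ℝ)) i| / n F) (-M) with h6 | h6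
          · rw [max_eq_right h6] at h5
            exact absurd h5 (lt_irrefl _)
          · exact max_eq_left h6
        have h7 : ∑ i, Real.log |L.mulVec (fun j => ((p F).1 j : ℝ)) i| ≤
            -δ * Real.log (p F).2 := by
          rw [← Real.log_prod (fun i _ => (abs_pos.mpr (hne i)).ne'),
            ← Real.log_rpow (by linarith [hp1 F])]
          exact Real.log_le_log (Finset.prod_pos fun i _ => abs_pos.mpr (hne i)) (hp3 F)
        show ∑ i, g i F ≤ -δ + δ * (1 / n F)
        calc ∑ i, g i F = (∑ i, Real.log |L.mulVec (fun j => ((p F).1 j : ℝ)) i|) / n F := by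
              rw [Finset.sum_div]
              exact Finset.sum_congr rfl fun i _ => hval i
          _ ≤ (-δ * Real.log (p F).2) / n F := div_le_div_of_nonneg_right h7 hnR.le
          _ ≤ (-δ * (n F - 1)) / n F := by
              apply div_le_div_of_nonneg_right _ hnR.le
              nlinarith [hlogn F]
          _ = -δ + δ * (1 / n F) := by field_simp; ring
      linarith
  -- the number field
  let S₀ : Set ℝ := Set.range fun ij : Fin (m + 1) × Fin (m + 1) => L ij.1 ij.2
  let E : IntermediateField ℚ ℝ := IntermediateField.adjoin ℚ S₀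
  have : Finite S₀ := Set.finite_range _
  have hfd : FiniteDimensional ℚ E := IntermediateField.finiteDimensional_adjoin (by
    rintro _ ⟨ij, rfl⟩
    exact (hLalg ij.1 ij.2).isIntegral)
  have hnf : NumberField E := { to_finiteDimensional := hfd }
  let φ : E →+* ℝ := algebraMap E ℝ
  have hφinj : Function.Injective φ := φ.injective
  let v : AbsoluteValue E ℝ := AbsoluteValue.comp AbsoluteValue.abs hφinj
  have hv : ∀ x, v x = |φ x| := fun x => rfl
  have hmem : ∀ i j, L i j ∈ E := fun i j => IntermediateField.subset_adjoin ℚ S₀ ⟨(i, j), rfl⟩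
  let L' : Matrix (Fin (m + 1)) (Fin (m + 1)) E := fun i j => ⟨L i j, hmem i j⟩
  have hL'map : L'.map φ = L := by
    ext i j
    rfl
  have hL' : L'.det ≠ 0 := by
    intro h
    apply hL
    rw [← hL'map]
    have h1 := RingHom.map_det φ L'
    rw [h, map_zero] at h1
    exact h1.symm
  have hgood : GoodPlaces (S := Unit) (fun _ => E) (fun _ => v) := by
    constructor
    · intro _ k
      rw [hv, map_intCast]
    · intro k hk
      simp only [Finset.univ_unique, Finset.prod_const, Finset.card_singleton, pow_one]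
      rw [hv, map_intCast]
      exact_mod_cast Int.one_le_abs hk
  obtain ⟨ℓ, hℓ, hℓe⟩ := subspace_ultra (S := Unit) (fun _ => E) (fun _ => v) hgood () φ hv
    (fun s hs => absurd rfl hs) (fun _ => L') (fun _ => hL') (fun _ => e)
    (by simpa using hneg') 𝒰 n hn (fun _ => 1) (by simp) 0
    (by
      filter_upwards with F s hs
      exact absurd rfl hs)
    (by
      filter_upwards with F
      simp)
    (fun F => (p F).1)
    (by
      intro ε hε
      have h1 : ∀ᶠ F in (𝒰 : Filter X), ∀ i, g i F < e i + ε :=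
        Filter.eventually_all.mpr fun i => (he i).eventually_lt_const (by linarith)
      filter_upwards [h1, hn.eventually_gt_atTop 0] with F hF hF0 i
      have h2 : φ (L'.mulVec (fun j => (((1 : Matrix (Fin (m + 1)) (Fin (m + 1)) ℤ).mulVec
          ((p F).1) j : ℤ) : E)) i) = L.mulVec (fun j => ((p F).1 j : ℝ)) i := by
        rw [Matrix.one_mulVec]
        simp only [Matrix.mulVec, dotProduct, map_sum, map_mul, map_intCast]
        rfl
      rw [h2]
      refine (hg1 i F hF0).trans (Real.exp_le_exp.mpr ?_)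
      exact mul_le_mul_of_nonneg_left (hF i).le (Nat.cast_nonneg _))
  -- contradiction
  have h1 : ∀ᶠ F in (𝒰 : Filter X), ∑ i, ℓ i * (p F).1 i ≠ 0 := by
    refine h𝒰 ?_
    filter_upwards [eventually_ge_atTop ({⟨ℓ, hℓ⟩} : X)] with F hF
    exact hp4 F ⟨ℓ, hℓ⟩ (hF (Finset.mem_singleton_self _))
  obtain ⟨F, hF1, hF2⟩ := (h1.and hℓe).exists
  rw [Matrix.one_mulVec] at hF2
  exact hF1 hF2

end SR

end Pool.Agent.SST
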