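import Pool.Agent.SST.SpecDefs

/-! Normal vectors of small height are constant along the ultrafilter (MP_6f1c57_nt). -/

open Filter

namespace Pool.Agent.SST

section Rows

variable {ι : Type} [Fintype ι] [DecidableEq ι]

/-- the square matrix with the row `u` followed by the rows `Z k`. -/
def rowsM {R : Type} (f : Option (Fin (Fintype.card ι - 1)) ≃ ι)
    (Z : Fin (Fintype.card ι - 1) → ι → R) (u : ι → R) : Matrix ι ι R :=
  Matrix.of fun i J => (f.symm i).elim (u J) (fun k => Z k J)

omit [DecidableEq ι] in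
lemma rowsM_none {R : Type} (f : Option (Fin (Fintype.card ι - 1)) ≃ ι)
    (Z : Fin (Fintype.card ι - 1) → ι → R) (u : ι → R) (J : ι) :
    rowsM f Z u (f none) J = u J := by
  simp [rowsM]

omit [DecidableEq ι] in
lemma rowsM_some {R : Type} (f : Option (Fin (Fintype.card ι - 1)) ≃ ι)
    (Z : Fin (Fintype.card ι - 1) → ι → R) (u : ι → R) (k : Fin (Fintype.card ι - 1)) (J : ι) :
    rowsM f Z u (f (some k)) J = Z k J := by
  simp [rowsM]

omit [DecidableEq ι] in
lemma rowsM_map {R R' : Type} (g : R → R') (f : Option (Fin (Fintype.card ι - 1)) ≃ ι)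
    (Z : Fin (Fintype.card ι - 1) → ι → R) (u : ι → R) :
    (rowsM f Z u).map g = rowsM f (fun k J => g (Z k J)) (fun J => g (u J)) := by
  ext i J
  obtain ⟨o, rfl⟩ := f.surjective i
  rw [Matrix.map_apply]
  cases o with
  | none => rw [rowsM_none, rowsM_none]
  | some k => rw [rowsM_some, rowsM_some]

lemma det_rowsM {R : Type} [CommRing R] (f : Option (Fin (Fintype.card ι - 1)) ≃ ι)
    (Z : Fin (Fintype.card ι - 1) → ι → R) (u : ι → R) :
    (rowsM f Z u).det = ∑ J, u J * (rowsM f Z (Pi.single J 1)).det := by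
  rw [Matrix.det_eq_sum_mul_adjugate_row _ (f none)]
  refine Finset.sum_congr rfl fun J _ => ?_
  rw [rowsM_none, Matrix.adjugate_apply]
  congr 2
  ext i J'
  rw [Matrix.updateRow_apply]
  split_ifs with h
  · rw [h, rowsM_none]
  · obtain ⟨o, rfl⟩ := f.surjective i
    cases o with
    | none => exact absurd rfl h
    | some k => rw [rowsM_some, rowsM_some]

lemma det_rowsM_self {R : Type} [CommRing R] (f : Option (Fin (Fintype.card ι - 1)) ≃ ι)
    (Z : Fin (Fintype.card ι - 1) → ι → R) (k : Fin (Fintype.card ι - 1)) :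
    (rowsM f Z (Z k)).det = 0 := by
  have hne : f none ≠ f (some k) := by
    intro h
    exact absurd (f.injective h) (by simp)
  refine Matrix.det_zero_of_row_eq hne ?_
  funext J
  rw [rowsM_none, rowsM_some]

/-- nonvanishing -/
lemma det_rowsM_ne (f : Option (Fin (Fintype.card ι - 1)) ≃ ι)
    (Z : Fin (Fintype.card ι - 1) → ι → ℤ) (hZ : LinearIndependent ℚ (fun i J => (Z i J : ℚ)))
    (b : ι → ℤ) (hb : b ≠ 0) (horth : ∀ i, ∑ J, b J * Z i J = 0) :
    (rowsM f Z b).det ≠ 0 := by
  intro h0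
  have h1 : (rowsM f (fun k J => ((Z k J : ℤ) : ℚ)) (fun J => ((b J : ℤ) : ℚ))).det = 0 := by
    rw [← rowsM_map (fun z : ℤ => (z : ℚ)) f Z b]
    have := congrArg (fun z : ℤ => (z : ℚ)) h0
    simp only [Int.cast_zero] at this
    rw [← this]
    exact ((Int.castRingHom ℚ).map_det (rowsM f Z b)).symm
  obtain ⟨w, hw0, hw⟩ := Matrix.exists_vecMul_eq_zero_iff.2 h1
  have hsum : ∀ J, w (f none) * (b J : ℚ) + ∑ k, w (f (some k)) * (Z k J : ℚ) = 0 := by
    intro J
    have h2 := congrFun hw J
    rw [Matrix.vecMul, dotProduct] at h2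
    rw [← Equiv.sum_comp f, Fintype.sum_option] at h2
    simpa only [rowsM_none, rowsM_some, Pi.zero_apply] using h2
  have hbb : (∑ J, (b J : ℚ) * b J) ≠ 0 := by
    obtain ⟨J, hJ⟩ := Function.ne_iff.1 hb
    have hJ' : ((b J : ℤ) : ℚ) ≠ 0 := by exact_mod_cast hJ
    have : 0 < ∑ J, (b J : ℚ) * b J :=
      Finset.sum_pos' (fun i _ => mul_self_nonneg _) ⟨J, Finset.mem_univ _, mul_self_pos.2 hJ'⟩
    exact this.ne'
  have h3 : w (f none) * ∑ J, (b J : ℚ) * b J = 0 := by
    have h4 : ∑ J, (b J : ℚ) * (w (f none) * (b J : ℚ) + ∑ k, w (f (some k)) * (Z k J : ℚ)) = 0 :=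
      Finset.sum_eq_zero fun J _ => by rw [hsum J, mul_zero]
    have h5 : ∑ J, (b J : ℚ) * ∑ k, w (f (some k)) * (Z k J : ℚ) = 0 := by
      simp only [Finset.mul_sum]
      rw [Finset.sum_comm]
      refine Finset.sum_eq_zero fun k _ => ?_
      have h6 : ((∑ J, b J * Z k J : ℤ) : ℚ) = 0 := by rw [horth k]; simp
      push_cast at h6
      calc ∑ J, (b J : ℚ) * (w (f (some k)) * (Z k J : ℚ))
          = w (f (some k)) * ∑ J, (b J : ℚ) * (Z k J : ℚ) := by
            rw [Finset.mul_sum]
            exact Finset.sum_congr rfl fun J _ => by ring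
        _ = 0 := by rw [h6, mul_zero]
    rw [← h4]
    simp only [mul_add, Finset.sum_add_distrib]
    rw [h5, add_zero, Finset.mul_sum]
    exact Finset.sum_congr rfl fun J _ => by ring
  have hn : w (f none) = 0 := by
    rcases mul_eq_zero.1 h3 with h | h
    · exact h
    · exact absurd h hbb
  have hk : ∀ k, w (f (some k)) = 0 := by
    rw [Fintype.linearIndependent_iff] at hZ
    refine hZ (fun k => w (f (some k))) ?_
    funext J
    have := hsum J
    rw [hn, zero_mul, zero_add] at this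
    rw [Finset.sum_apply]
    simpa [smul_eq_mul] using this
  apply hw0
  funext i
  obtain ⟨o, rfl⟩ := f.surjective i
  cases o with
  | none => exact hn
  | some k => exact hk k

/-- vectors orthogonal to a hyperplane basis are proportional. -/
lemma orth_prop (f : Option (Fin (Fintype.card ι - 1)) ≃ ι)
    (Z : Fin (Fintype.card ι - 1) → ι → ℤ) (hZ : LinearIndependent ℚ (fun i J => (Z i J : ℚ)))
    (b : ι → ℤ) (hb : b ≠ 0) (horth : ∀ i, ∑ J, b J * Z i J = 0) (c : ι → ℤ)
    (hc : ∀ i, ∑ J, c J * Z i J = 0) (J : ι) :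
    (∑ J, b J * b J) * c J = (∑ J, b J * c J) * b J := by
  have hdet := det_rowsM_ne f Z hZ b hb horth
  set x : ι → ℤ := fun J => (∑ J, b J * b J) * c J - (∑ J, b J * c J) * b J with hx
  have hx0 : (rowsM f Z b).mulVec x = 0 := by
    funext i
    obtain ⟨o, rfl⟩ := f.surjective i
    rw [Matrix.mulVec, dotProduct, Pi.zero_apply]
    cases o with
    | none =>
      simp only [rowsM_none, hx]
      simp only [mul_sub, Finset.sum_sub_distrib]
      have e1 : ∑ x, b x * ((∑ J, b J * b J) * c x) = (∑ J, b J * b J) * ∑ x, b x * c x := by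
        rw [Finset.mul_sum]
        exact Finset.sum_congr rfl fun J _ => by ring
      have e2 : ∑ x, b x * ((∑ J, b J * c J) * b x) = (∑ J, b J * c J) * ∑ x, b x * b x := by
        rw [Finset.mul_sum]
        exact Finset.sum_congr rfl fun J _ => by ring
      rw [e1, e2]
      ring
    | some k =>
      simp only [rowsM_some, hx]
      simp only [mul_sub, Finset.sum_sub_distrib]
      have e1 : ∑ x, Z k x * ((∑ J, b J * b J) * c x) = (∑ J, b J * b J) * ∑ x, c x * Z k x := by
        rw [Finset.mul_sum]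
        exact Finset.sum_congr rfl fun J _ => by ring
      have e2 : ∑ x, Z k x * ((∑ J, b J * c J) * b x) = (∑ J, b J * c J) * ∑ x, b x * Z k x := by
        rw [Finset.mul_sum]
        exact Finset.sum_congr rfl fun J _ => by ring
      rw [e1, e2, hc k, horth k]
      ring
  have h := congrFun (Matrix.eq_zero_of_mulVec_eq_zero hdet hx0) J
  simp only [hx, Pi.zero_apply] at h
  linarith

/-- the bound of the determinant -/
lemma det_bound {K : Type} [Field K] (v : AbsoluteValue K ℝ)
    (f : Option (Fin (Fintype.card ι - 1)) ≃ ι) (Y : Fin (Fintype.card ι - 1) → ι → K)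
    (B : ι → ℝ) (hB : ∀ k J, v (Y k J) ≤ B J) (J₀ : ι) :
    v (rowsM f Y (Pi.single J₀ 1)).det ≤
      Fintype.card (Equiv.Perm ι) * ∏ J ∈ Finset.univ.erase J₀, max (B J) 0 := by
  rw [Matrix.det_apply]
  refine (v.sum_le _ _).trans ?_
  rw [← nsmul_eq_mul, ← Finset.card_univ]
  refine Finset.sum_le_card_nsmul _ _ _ fun σ _ => ?_
  have hprod0 : 0 ≤ ∏ J ∈ Finset.univ.erase J₀, max (B J) 0 :=
    Finset.prod_nonneg fun J _ => le_max_right _ _
  have hs : v (Equiv.Perm.sign σ • ∏ i, rowsM f Y (Pi.single J₀ 1) (σ i) i) =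
      ∏ i, v (rowsM f Y (Pi.single J₀ 1) (σ i) i) := by
    rw [← map_prod]
    rcases Int.units_eq_one_or (Equiv.Perm.sign σ) with h | h
    · rw [h, one_smul]
    · rw [h, Units.neg_smul, one_smul, map_neg_eq_map]
  rw [hs]
  by_cases hJ : σ J₀ = f none
  · rw [← Finset.mul_prod_erase Finset.univ _ (Finset.mem_univ J₀), hJ, rowsM_none]
    simp only [Pi.single_eq_same, map_one, one_mul]
    refine Finset.prod_le_prod (fun i _ => v.nonneg _) fun i hi => ?_
    have hi' : i ≠ J₀ := Finset.ne_of_mem_erase hi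
    obtain ⟨o, ho⟩ := f.surjective (σ i)
    cases o with
    | none =>
      exfalso
      apply hi'
      apply σ.injective
      rw [← ho, hJ]
    | some k =>
      rw [← ho, rowsM_some]
      exact (hB k i).trans (le_max_left _ _)
  · have h1 : ∏ i, v (rowsM f Y (Pi.single J₀ 1) (σ i) i) = 0 := by
      refine Finset.prod_eq_zero (Finset.mem_univ (σ.symm (f none))) ?_
      rw [Equiv.apply_symm_apply, rowsM_none, Pi.single_eq_of_ne, map_zero]
      intro h
      apply hJ
      rw [← h, Equiv.apply_symm_apply]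
    rw [h1]
    exact hprod0

/-- the fundamental identity -/
lemma det_identity {K : Type} [Field K] (L : Matrix ι ι K) (hL : L.det ≠ 0)
    (f : Option (Fin (Fintype.card ι - 1)) ≃ ι)
    (Z : Fin (Fintype.card ι - 1) → ι → ℤ) (hZ : LinearIndependent ℚ (fun i J => (Z i J : ℚ)))
    (b : ι → ℤ) (hb : b ≠ 0) (horth : ∀ i, ∑ J, b J * Z i J = 0) (J₀ : ι) :
    ((rowsM f Z b).det : K) * (∑ J, L⁻¹ J J₀ * (b J : K)) * L.det =
      ((∑ J, b J * b J : ℤ) : K) *
        (rowsM f (fun k J => ∑ J', L J J' * (Z k J' : K)) (Pi.single J₀ 1)).det := by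
  set u : ι → K := fun J => L⁻¹ J J₀ with hu
  have h1 : rowsM f (fun k J => (Z k J : K)) u * L.transpose =
      rowsM f (fun k J => ∑ J', L J J' * (Z k J' : K)) (Pi.single J₀ 1) := by
    ext i J
    obtain ⟨o, rfl⟩ := f.surjective i
    rw [Matrix.mul_apply]
    cases o with
    | none =>
      simp only [rowsM_none, Matrix.transpose_apply]
      have h2 : (L * L⁻¹) J J₀ = (1 : Matrix ι ι K) J J₀ := by
        rw [Matrix.mul_nonsing_inv L (isUnit_iff_ne_zero.2 hL)]
      rw [Matrix.mul_apply, Matrix.one_apply] at h2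
      rw [Pi.single_apply, ← h2]
      exact Finset.sum_congr rfl fun J' _ => by rw [hu]; ring
    | some k =>
      simp only [rowsM_some, Matrix.transpose_apply]
      exact Finset.sum_congr rfl fun J' _ => by ring
  rw [← h1, Matrix.det_mul, Matrix.det_transpose, det_rowsM f _ u]
  -- the cross product
  have h3 : ∀ J, (rowsM f (fun k J => (Z k J : K)) (Pi.single J 1)).det =
      (((rowsM f Z (Pi.single J 1)).det : ℤ) : K) := by
    intro J
    have h4 := rowsM_map (fun z : ℤ => (z : K)) f Z (Pi.single J 1)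
    have h5 : (fun J' : ι => (((Pi.single J 1 : ι → ℤ) J' : ℤ) : K)) = Pi.single J 1 := by
      funext J'
      rw [Pi.single_apply, Pi.single_apply]
      split_ifs <;> simp
    rw [h5] at h4
    rw [← h4]
    exact ((Int.castRingHom K).map_det _).symm
  have h6 : ∀ J, (∑ J, b J * b J) * (rowsM f Z (Pi.single J 1)).det =
      (rowsM f Z b).det * b J := by
    intro J
    have h7 := orth_prop f Z hZ b hb horth (fun J => (rowsM f Z (Pi.single J 1)).det) (fun i => by
      rw [← det_rowsM_self f Z i, det_rowsM f Z (Z i)]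
      exact Finset.sum_congr rfl fun J _ => by ring) J
    rw [h7, ← det_rowsM f Z b]
  have h8 : ∀ J, ((∑ J, b J * b J : ℤ) : K) * (((rowsM f Z (Pi.single J 1)).det : ℤ) : K) =
      ((rowsM f Z b).det : K) * (b J : K) := by
    intro J
    have := congrArg (fun z : ℤ => (z : K)) (h6 J)
    simpa only [Int.cast_mul] using this
  rw [← mul_assoc]
  congr 1
  rw [Finset.mul_sum, Finset.mul_sum]
  refine Finset.sum_congr rfl fun J _ => ?_
  rw [h3 J]
  calc ((rowsM f Z b).det : K) * (L⁻¹ J J₀ * (b J : K))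
      = L⁻¹ J J₀ * (((rowsM f Z b).det : K) * (b J : K)) := by ring
    _ = L⁻¹ J J₀ * (((∑ J, b J * b J : ℤ) : K) * (((rowsM f Z (Pi.single J 1)).det : ℤ) : K)) := by
        rw [h8 J]
    _ = _ := by ring

end Rows

/-- decay along the ultrafilter -/
lemma ev_small {X : Type} (𝒰 : Ultrafilter X) (n : X → ℕ) (hn : Tendsto n 𝒰 atTop) (A δ : ℝ)
    (hδ : δ < 0) : ∀ᶠ a in (𝒰 : Filter X), A * Real.exp (n a * δ) < 1 := by
  have h1 : Tendsto (fun a => ((n a : ℕ) : ℝ)) (𝒰 : Filter X) atTop :=
    tendsto_natCast_atTop_atTop.comp hn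
  have h2 : Tendsto (fun a => ((n a : ℕ) : ℝ) * δ) (𝒰 : Filter X) atBot :=
    h1.atTop_mul_const_of_neg hδ
  have h3 : Tendsto (fun a => A * Real.exp (((n a : ℕ) : ℝ) * δ)) (𝒰 : Filter X) (nhds (A * 0)) :=
    (Real.tendsto_exp_atBot.comp h2).const_mul A
  rw [mul_zero] at h3
  exact h3.eventually (gt_mem_nhds one_pos)

/-- Liouville's inequality, as an assumption. -/
def LiouvilleAt {K : Type} [Field K] (v : AbsoluteValue K ℝ) {ι : Type} [Fintype ι] (c : ι → K)
    (C : ℝ) (k : ℕ) : Prop :=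
  1 ≤ C ∧ ∀ (b : ι → ℤ) (B : ℝ), 1 ≤ B → (∀ i, |((b i : ℤ) : ℝ)| ≤ B) →
      ∑ i, c i * (b i : K) ≠ 0 → (C * B ^ k)⁻¹ ≤ v (∑ i, c i * (b i : K))

theorem small_height_aux {S : Type} [Fintype S] (K : S → Type) [∀ s, Field (K s)]
    (v : ∀ s, AbsoluteValue (K s) ℝ) (hv : GoodPlaces K v)
    {ι : Type} [Fintype ι] [DecidableEq ι] (L : ∀ s, Matrix ι ι (K s)) (hL : ∀ s, (L s).det ≠ 0)
    (hLiou : ∀ s J, ∃ (C : ℝ) (k : ℕ), LiouvilleAt (v s) (fun J' => (L s)⁻¹ J' J) C k)
    (e : S → ι → ℝ) (hneg : ∑ s, ∑ J, e s J < 0) {X : Type} (𝒰 : Ultrafilter X) (n : X → ℕ)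
    (Z : X → Fin (Fintype.card ι - 1) → ι → ℤ) (b : X → ι → ℤ)
    (hd : HypData K v L e 𝒰 n Z b)
    (hsmall : ∀ ε : ℝ, 0 < ε → ∀ᶠ a in (𝒰 : Filter X), ∀ J, |((b a J : ℤ) : ℝ)| ≤
      Real.exp (n a * ε)) :
    ∃ b₀ : ι → ℤ, b₀ ≠ 0 ∧ ∀ᶠ a in (𝒰 : Filter X), ∃ t : ℚ, ∀ J, (b a J : ℚ) = t * (b₀ J : ℚ) := by
  classical
  -- `ι` is nonempty
  have hι : 0 < Fintype.card ι := by
    rw [Fintype.card_pos_iff]
    by_contra hemp
    rw [not_nonempty_iff] at hemp
    simp at hneg
  have hcard : Fintype.card (Option (Fin (Fintype.card ι - 1))) = Fintype.card ι := by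
    rw [Fintype.card_option, Fintype.card_fin]
    omega
  set f : Option (Fin (Fintype.card ι - 1)) ≃ ι := Fintype.equivOfCardEq hcard with hf
  choose C k hCk using hLiou
  set N : ℝ := ((Fintype.card ι : ℕ) : ℝ) with hN
  set E : ℝ := ∑ s, ∑ J, e s J with hE
  -- coordinates with respect to the rows of `L s`
  set c : ∀ s, X → ι → K s := fun s a J => ∑ J', (L s)⁻¹ J' J * (b a J' : K s) with hc
  have hcL : ∀ s a J', ∑ J, c s a J * L s J J' = (b a J' : K s) := by
    intro s a J'
    have h1 : ((L s)⁻¹ * L s) = 1 := Matrix.nonsing_inv_mul _ (isUnit_iff_ne_zero.2 (hL s))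
    calc ∑ J, c s a J * L s J J' = ∑ J, ∑ J₂, (b a J₂ : K s) * ((L s)⁻¹ J₂ J * L s J J') := by
          refine Finset.sum_congr rfl fun J _ => ?_
          rw [hc, Finset.sum_mul]
          exact Finset.sum_congr rfl fun J₂ _ => by ring
      _ = ∑ J₂, (b a J₂ : K s) * ((L s)⁻¹ * L s) J₂ J' := by
          rw [Finset.sum_comm]
          refine Finset.sum_congr rfl fun J₂ _ => ?_
          rw [Matrix.mul_apply, Finset.mul_sum]
      _ = (b a J' : K s) := by
          rw [h1]
          simp [Matrix.one_apply]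
  -- the support along the ultrafilter
  set P : S → ι → Prop := fun s J => ∀ᶠ a in (𝒰 : Filter X), c s a J ≠ 0 with hP
  have hPn : ∀ s J, ¬ P s J → ∀ᶠ a in (𝒰 : Filter X), c s a J = 0 := by
    intro s J h
    have := Ultrafilter.eventually_not.2 h
    filter_upwards [this] with a ha
    exact not_not.1 ha
  have hPex : ∀ s, (Finset.univ.filter (P s)).Nonempty := by
    intro s
    by_contra hemp
    rw [Finset.not_nonempty_iff_eq_empty, Finset.filter_eq_empty_iff] at hemp
    have h1 : ∀ᶠ a in (𝒰 : Filter X), ∀ J, c s a J = 0 :=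
      eventually_all.2 fun J => hPn s J (hemp (Finset.mem_univ J))
    obtain ⟨a, ha, hb⟩ := (h1.and hd.ne).exists
    apply hb
    funext J'
    have := hcL s a J'
    rw [Finset.sum_eq_zero (fun J _ => by rw [ha J, zero_mul])] at this
    have h2 : (0 : ℝ) = 0 := rfl
    by_contra hb'
    have hprod := hv.prod (b a J') hb'
    have : v s (b a J' : K s) = 0 := by rw [← this, map_zero]
    rw [Finset.prod_eq_zero (Finset.mem_univ s) this] at hprod
    linarith
  choose Js hJs hJmax using fun s => Finset.exists_max_image _ (e s) (hPex s)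
  have hJs' : ∀ s, P s (Js s) := fun s => (Finset.mem_filter.1 (hJs s)).2
  have hJmax' : ∀ s J, P s J → e s J ≤ e s (Js s) := fun s J h =>
    hJmax s J (Finset.mem_filter.2 ⟨Finset.mem_univ _, h⟩)
  set m : S → ℝ := fun s => e s (Js s) with hm
  -- first part
  have hfirst : ∑ s, m s ≤ E / 2 := by
    by_contra hcon
    rw [not_le] at hcon
    set κ : ℝ := ∑ s : S, (2 + N + (k s (Js s) : ℝ)) with hκ
    have hκ0 : 0 ≤ κ := Finset.sum_nonneg fun s _ => by positivity
    set ε : ℝ := (-E / 4) / (κ + 1) with hε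
    have hε0 : 0 < ε := by
      rw [hε]
      apply div_pos <;> linarith
    have hκε : κ * ε ≤ -E / 4 := by
      rw [hε, mul_div_assoc', div_le_iff₀ (by linarith)]
      nlinarith
    set A : S → ℝ := fun s => N * (Fintype.card (Equiv.Perm ι) : ℝ) * C s (Js s) /
      v s (L s).det with hA
    have hbound : ∀ᶠ a in (𝒰 : Filter X), ∀ s, v s ((rowsM f (Z a) (b a)).det : K s) ≤
        A s * Real.exp (n a * (∑ J, e s J - m s + (2 + N + (k s (Js s) : ℝ)) * ε)) := by
      have hP' : ∀ᶠ a in (𝒰 : Filter X), ∀ s, c s a (Js s) ≠ 0 := eventually_all.2 hJs'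
      filter_upwards [hd.ind, hd.bound ε hε0, hd.ne, hd.orth, hsmall ε hε0, hP'] with
        a hind hbd hne horth hsm hcne s
      have hid := det_identity (L s) (hL s) f (Z a) hind (b a) hne horth (Js s)
      have hexp1 : 1 ≤ Real.exp (n a * ε) := Real.one_le_exp (by positivity)
      have hl := (hCk s (Js s)).2 (b a) (Real.exp (n a * ε)) hexp1 hsm (hcne s)
      have hC0 : 0 < C s (Js s) := lt_of_lt_of_le one_pos (hCk s (Js s)).1
      -- the square norm
      have hbb : v s ((∑ J, b a J * b a J : ℤ) : K s) ≤ N * Real.exp (n a * (2 * ε)) := by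
        refine (hv.le s _).trans ?_
        push_cast
        refine (Finset.abs_sum_le_sum_abs _ _).trans ?_
        rw [hN, ← nsmul_eq_mul, ← Finset.card_univ]
        refine Finset.sum_le_card_nsmul _ _ _ fun J _ => ?_
        rw [abs_mul]
        calc |((b a J : ℤ) : ℝ)| * |((b a J : ℤ) : ℝ)|
            ≤ Real.exp (n a * ε) * Real.exp (n a * ε) :=
              mul_le_mul (hsm J) (hsm J) (abs_nonneg _) (Real.exp_nonneg _)
          _ = Real.exp (n a * (2 * ε)) := by rw [← Real.exp_add]; ring_nf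
      have hdb := det_bound (v s) f (fun k J => ∑ J', L s J J' * (Z a k J' : K s))
        (fun J => Real.exp (n a * (e s J + ε))) (fun k J => hbd s k J) (Js s)
      have hprod : ∏ J ∈ Finset.univ.erase (Js s), max (Real.exp (n a * (e s J + ε))) 0 ≤
          Real.exp (n a * (∑ J, e s J - m s + N * ε)) := by
        rw [Finset.prod_congr rfl (fun J _ => max_eq_left (Real.exp_nonneg _)), ← Real.exp_sum,
          Real.exp_le_exp, ← Finset.mul_sum]
        refine mul_le_mul_of_nonneg_left ?_ (Nat.cast_nonneg _)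
        rw [Finset.sum_add_distrib, Finset.sum_const, nsmul_eq_mul]
        have h1 : ∑ J ∈ Finset.univ.erase (Js s), e s J = ∑ J, e s J - m s := by
          rw [hm, ← Finset.add_sum_erase Finset.univ _ (Finset.mem_univ (Js s))]
          ring
        rw [h1]
        have h2 : ((Finset.univ.erase (Js s)).card : ℝ) ≤ N := by
          rw [hN, ← Finset.card_univ]
          exact_mod_cast Finset.card_le_card (Finset.erase_subset _ _)
        nlinarith
      have hvdet : 0 < v s (L s).det := (v s).pos (hL s)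
      have heq := congrArg (v s) hid
      rw [map_mul, map_mul, map_mul] at heq
      have hD0 : 0 ≤ v s ((rowsM f (Z a) (b a)).det : K s) := (v s).nonneg _
      have hcp : 0 < C s (Js s) * Real.exp (n a * ε) ^ (k s (Js s)) := by positivity
      have hup : v s ((rowsM f (Z a) (b a)).det : K s) *
          v s (∑ J, (L s)⁻¹ J (Js s) * (b a J : K s)) * v s (L s).det ≤
          N * Real.exp (n a * (2 * ε)) * ((Fintype.card (Equiv.Perm ι) : ℝ) *
            Real.exp (n a * (∑ J, e s J - m s + N * ε))) := by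
        rw [heq]
        refine mul_le_mul hbb (hdb.trans ?_) ((v s).nonneg _) (by positivity)
        exact mul_le_mul_of_nonneg_left hprod (Nat.cast_nonneg _)
      have hlow : v s ((rowsM f (Z a) (b a)).det : K s) *
          (C s (Js s) * Real.exp (n a * ε) ^ (k s (Js s)))⁻¹ * v s (L s).det ≤
          v s ((rowsM f (Z a) (b a)).det : K s) *
          v s (∑ J, (L s)⁻¹ J (Js s) * (b a J : K s)) * v s (L s).det :=
        mul_le_mul_of_nonneg_right (mul_le_mul_of_nonneg_left hl hD0) hvdet.le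
      have hfin := hlow.trans hup
      have h3 : v s ((rowsM f (Z a) (b a)).det : K s) ≤
          N * Real.exp (n a * (2 * ε)) * ((Fintype.card (Equiv.Perm ι) : ℝ) *
            Real.exp (n a * (∑ J, e s J - m s + N * ε))) *
            (C s (Js s) * Real.exp (n a * ε) ^ (k s (Js s))) / v s (L s).det := by
        rw [le_div_iff₀ hvdet]
        have h4 : v s ((rowsM f (Z a) (b a)).det : K s) * v s (L s).det =
            (v s ((rowsM f (Z a) (b a)).det : K s) *
            (C s (Js s) * Real.exp (n a * ε) ^ (k s (Js s)))⁻¹ * v s (L s).det) *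
            (C s (Js s) * Real.exp (n a * ε) ^ (k s (Js s))) := by
          field_simp
        rw [h4]
        exact mul_le_mul_of_nonneg_right hfin hcp.le
      refine h3.trans (le_of_eq ?_)
      have h5 : Real.exp (n a * (∑ J, e s J - m s + (2 + N + (k s (Js s) : ℝ)) * ε)) =
          Real.exp (n a * (2 * ε)) * Real.exp (n a * (∑ J, e s J - m s + N * ε)) *
            Real.exp (n a * ε) ^ (k s (Js s)) := by
        rw [← Real.exp_nat_mul, ← Real.exp_add, ← Real.exp_add]
        congr 1
        ring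
      rw [h5, hA]
      ring
    have hdec := ev_small 𝒰 n hd.tends (∏ s, A s) (E / 4) (by linarith)
    obtain ⟨a, hind, hne, horth, hbd, hdec⟩ :=
      (hd.ind.and (hd.ne.and (hd.orth.and (hbound.and hdec)))).exists
    have hDne := det_rowsM_ne f (Z a) hind (b a) hne horth
    have h1 := hv.prod _ hDne
    have h2 : ∏ s, v s ((rowsM f (Z a) (b a)).det : K s) ≤
        ∏ s, (A s * Real.exp (n a * (∑ J, e s J - m s + (2 + N + (k s (Js s) : ℝ)) * ε))) :=
      Finset.prod_le_prod (fun s _ => (v s).nonneg _) fun s _ => hbd s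
    rw [Finset.prod_mul_distrib, ← Real.exp_sum, ← Finset.mul_sum] at h2
    have hsum : ∑ s, (∑ J, e s J - m s + (2 + N + (k s (Js s) : ℝ)) * ε) ≤ E / 4 := by
      rw [Finset.sum_add_distrib, Finset.sum_sub_distrib, ← Finset.sum_mul, ← hE, ← hκ]
      linarith
    have hA0 : 0 ≤ ∏ s, A s := Finset.prod_nonneg fun s _ => by
      rw [hA]
      have := (hCk s (Js s)).1
      have := (v s).nonneg (L s).det
      positivity
    have h3 : (∏ s, A s) * Real.exp (n a * ∑ s, (∑ J, e s J - m s +
        (2 + N + (k s (Js s) : ℝ)) * ε)) ≤ (∏ s, A s) * Real.exp (n a * (E / 4)) :=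
      mul_le_mul_of_nonneg_left (Real.exp_le_exp.2
        (mul_le_mul_of_nonneg_left hsum (Nat.cast_nonneg _))) hA0
    linarith
  -- second part
  have hgood : ∀ᶠ a in (𝒰 : Filter X), ∀ s J, ¬ P s J → c s a J = 0 := by
    refine eventually_all.2 fun s => eventually_all.2 fun J => ?_
    by_cases h : P s J
    · exact Eventually.of_forall fun a h' => absurd h h'
    · filter_upwards [hPn s J h] with a ha _ using ha
  obtain ⟨a₁, ha₁, hne₁⟩ := (hgood.and hd.ne).exists
  refine ⟨b a₁, hne₁, ?_⟩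
  set A : S → ℝ := fun s => ∑ J, v s (c s a₁ J) with hA
  set ε : ℝ := (-E / 4) / (((Fintype.card S : ℕ) : ℝ) + 1) with hε
  have hε0 : 0 < ε := by
    rw [hε]
    apply div_pos
    · linarith
    · positivity
  have hSε : (Fintype.card S : ℝ) * ε ≤ -E / 4 := by
    have h0 : (0 : ℝ) ≤ Fintype.card S := Nat.cast_nonneg _
    rw [hε, mul_div_assoc', div_le_iff₀ (by linarith)]
    nlinarith
  have hdec := ev_small 𝒰 n hd.tends (∏ s, A s) (E / 4) (by linarith)
  filter_upwards [hd.ind, hd.bound ε hε0, hd.ne, hd.orth, hdec] with a hind hbd hne horth hdec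
  have horth₁ : ∀ i, ∑ J, b a₁ J * Z a i J = 0 := by
    intro i
    by_contra hcon
    have h1 := hv.prod _ hcon
    have h2 : ∀ s, v s ((∑ J, b a₁ J * Z a i J : ℤ) : K s) ≤
        A s * Real.exp (n a * (m s + ε)) := by
      intro s
      have h3 : ((∑ J, b a₁ J * Z a i J : ℤ) : K s) =
          ∑ J, c s a₁ J * ∑ J', L s J J' * (Z a i J' : K s) := by
        push_cast
        calc ∑ J', (b a₁ J' : K s) * (Z a i J' : K s)
            = ∑ J', ∑ J, c s a₁ J * L s J J' * (Z a i J' : K s) := by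
              refine Finset.sum_congr rfl fun J' _ => ?_
              rw [← hcL s a₁ J', Finset.sum_mul]
          _ = _ := by
              rw [Finset.sum_comm]
              refine Finset.sum_congr rfl fun J _ => ?_
              rw [Finset.mul_sum]
              exact Finset.sum_congr rfl fun J' _ => by ring
      rw [h3]
      refine ((v s).sum_le _ _).trans ?_
      rw [hA, Finset.sum_mul]
      refine Finset.sum_le_sum fun J _ => ?_
      rw [map_mul]
      by_cases hPJ : P s J
      · refine mul_le_mul_of_nonneg_left ((hbd s i J).trans ?_) ((v s).nonneg _)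
        rw [Real.exp_le_exp]
        refine mul_le_mul_of_nonneg_left ?_ (Nat.cast_nonneg _)
        have := hJmax' s J hPJ
        linarith
      · rw [ha₁ s J hPJ, map_zero, zero_mul, zero_mul]
    have h4 : ∏ s, v s ((∑ J, b a₁ J * Z a i J : ℤ) : K s) ≤
        ∏ s, (A s * Real.exp (n a * (m s + ε))) :=
      Finset.prod_le_prod (fun s _ => (v s).nonneg _) fun s _ => h2 s
    rw [Finset.prod_mul_distrib, ← Real.exp_sum, ← Finset.mul_sum] at h4
    have hsum : ∑ s, (m s + ε) ≤ E / 4 := by
      rw [Finset.sum_add_distrib, Finset.sum_const, nsmul_eq_mul, Finset.card_univ]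
      linarith
    have hA0 : 0 ≤ ∏ s, A s :=
      Finset.prod_nonneg fun s _ => Finset.sum_nonneg fun J _ => (v s).nonneg _
    have h5 : (∏ s, A s) * Real.exp (n a * ∑ s, (m s + ε)) ≤
        (∏ s, A s) * Real.exp (n a * (E / 4)) :=
      mul_le_mul_of_nonneg_left (Real.exp_le_exp.2
        (mul_le_mul_of_nonneg_left hsum (Nat.cast_nonneg _))) hA0
    linarith
  have hprop := orth_prop f (Z a) hind (b a₁) hne₁ horth₁ (b a) horth
  have hbb : (∑ J, (b a₁ J : ℚ) * b a₁ J) ≠ 0 := by
    obtain ⟨J, hJ⟩ := Function.ne_iff.1 hne₁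
    have hJ' : ((b a₁ J : ℤ) : ℚ) ≠ 0 := by exact_mod_cast hJ
    have : 0 < ∑ J, (b a₁ J : ℚ) * b a₁ J :=
      Finset.sum_pos' (fun i _ => mul_self_nonneg _) ⟨J, Finset.mem_univ _, mul_self_pos.2 hJ'⟩
    exact this.ne'
  refine ⟨(∑ J, (b a₁ J : ℚ) * b a J) / (∑ J, (b a₁ J : ℚ) * b a₁ J), fun J => ?_⟩
  have h1 := congrArg (fun z : ℤ => (z : ℚ)) (hprop J)
  push_cast at h1
  rw [div_mul_eq_mul_div, eq_div_iff hbb, ← h1]
  ring

end Pool.Agent.SST
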