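import Pool.Agent.SST.Defs
import Pool.Agent.DD7719.CompoundReduced
import Pool.Agent.DD7719.UltraLim
import Mathlib.Topology.Compactification.OnePoint.Basic

/-! Statements used by the assembly of Schmidt's subspace theorem (MP_6f1c57_nt). -/

open MvPolynomial Filter

namespace Pool.Agent.SST

/-- The auxiliary polynomials with integer coefficients, balanced at finitely many places. -/
def AuxZ {S : Type} (K : S → Type) [∀ s, Field (K s)] (ι : Type) [Fintype ι] [DecidableEq ι] :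
    Prop :=
  ∀ δ : ℝ, 0 < δ → ∃ M₀ : ℕ, ∀ M : ℕ, M₀ ≤ M → 0 < M →
    ∀ Ψ : ∀ s, Matrix ι ι (K s), ∃ C₀ : ℝ, 0 < C₀ ∧
    ∀ r : Fin M → ℕ, (∀ h, 0 < r h) →
    ∃ P : MvPolynomial (Fin M × ι) ℤ, P ≠ 0 ∧
      (∀ j ∈ P.support, ∀ h, ∑ J, j (h, J) = r h) ∧
      (∀ s, ∀ j ∈ (bind₁ (fun hJ : Fin M × ι =>
          ∑ J' : ι, C (Ψ s hJ.2 J') * X (hJ.1, J'))
          (MvPolynomial.map (Int.castRingHom (K s)) P)).support,
        ∀ J, |∑ h, (j (h, J) : ℝ) / r h - M / Fintype.card ι| ≤ δ * M) ∧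
      (∀ j, |((P.coeff j : ℤ) : ℝ)| ≤ Real.exp (C₀ * ∑ h, (r h : ℝ)))

/-- The data attached to an index `n`: a basis of a hyperplane with small values of the forms, and
its normal vector. -/
def DatumZ {S : Type} (K : S → Type) [∀ s, Field (K s)] (v : ∀ s, AbsoluteValue (K s) ℝ)
    {ι : Type} [Fintype ι] (L : ∀ s, Matrix ι ι (K s)) (e : S → ι → ℝ) (J₁ J₂ : ι)
    (h₀ ε : ℝ) (n : ℕ) : Prop :=
  ∃ Z : Fin (Fintype.card ι - 1) → ι → ℤ,
    LinearIndependent ℚ (fun i J => (Z i J : ℚ)) ∧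
    (∀ s i J, v s (∑ J', L s J J' * (Z i J' : K s)) ≤ Real.exp (n * (e s J + ε))) ∧
    ∃ w : ι → ℤ, (∀ i, ∑ J, w J * Z i J = 0) ∧ w J₁ ≠ 0 ∧ w J₂ ≠ 0 ∧
      n * h₀ ≤ Height.logHeight₁ ((w J₁ : ℚ) / (w J₂ : ℚ))

/-- The family of hyperplane bases along an ultrafilter. -/
structure HypData {S : Type} (K : S → Type) [∀ s, Field (K s)] (v : ∀ s, AbsoluteValue (K s) ℝ)
    {ι : Type} [Fintype ι] (L : ∀ s, Matrix ι ι (K s)) (e : S → ι → ℝ) {X : Type}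
    (𝒰 : Ultrafilter X) (n : X → ℕ) (Z : X → Fin (Fintype.card ι - 1) → ι → ℤ)
    (w : X → ι → ℤ) : Prop where
  tends : Tendsto n 𝒰 atTop
  ind : ∀ᶠ a in (𝒰 : Filter X), LinearIndependent ℚ (fun i J => (Z a i J : ℚ))
  bound : ∀ ε : ℝ, 0 < ε → ∀ᶠ a in (𝒰 : Filter X), ∀ s i J,
    v s (∑ J', L s J J' * (Z a i J' : K s)) ≤ Real.exp (n a * (e s J + ε))
  ne : ∀ᶠ a in (𝒰 : Filter X), w a ≠ 0
  orth : ∀ᶠ a in (𝒰 : Filter X), ∀ i, ∑ J, w a J * Z a i J = 0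

/-- A reduced basis of `ℤ ^ N` for the forms `A`, with successive minima `lam`. -/
structure RedZ {N : ℕ} (c : ℝ) (A : Matrix (Fin N) (Fin N) ℝ) (y : Fin N → Fin N → ℤ)
    (lam : Fin N → ℝ) : Prop where
  pos : ∀ i, 0 < lam i
  upper : ∀ j i, |A.mulVec (fun k => (y i k : ℝ)) j| ≤ c * lam i
  lower : 1 / c ≤ |(Matrix.of fun j i => A.mulVec (fun k => (y i k : ℝ)) j / lam i :
    Matrix (Fin N) (Fin N) ℝ).det|
  ne : (Matrix.of y).det ≠ 0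
  index : |(((Matrix.of y).det : ℤ) : ℝ)| ≤ c

/-! ### the application -/

/-- value of the binary quadratic form `f 0 X^2 + f 1 X Y + f 2 Y^2` at `(α : 1)`, or at `(1 : 0)` -/
noncomputable def evq (f : Fin 3 → ℤ) (α : OnePoint ℂ) : ℂ :=
  match α with
  | OnePoint.infty => (f 0 : ℂ)
  | OnePoint.some z => (f 0 : ℂ) * z ^ 2 + (f 1 : ℂ) * z + (f 2 : ℂ)

/-- its discriminant -/
def discq (f : Fin 3 → ℤ) : ℤ := f 1 ^ 2 - 4 * f 0 * f 2

/-- its height -/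
noncomputable def maxq (f : Fin 3 → ℤ) : ℝ := max |(f 0 : ℝ)| (max |(f 1 : ℝ)| |(f 2 : ℝ)|)

/-- algebraic points of the projective line -/
def AlgPt (α : OnePoint ℂ) : Prop := ∀ z : ℂ, α = (z : OnePoint ℂ) → IsAlgebraic ℚ z

end Pool.Agent.SST
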