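import Pool.Agent.SST.TwoSAux

/-! The inequality at several places, from its ingredients. -/

open MvPolynomial

namespace Pool.Agent.SST

theorem ts_calc {C W c H ε : ℝ} {R Q P k N : ℕ} (hC : 1 ≤ C) (hc : c = (C ^ 2)⁻¹) (hW0 : 0 ≤ W)
    (hH : 1 ≤ H) (hε : 0 < ε) (hW : W < c * H ^ (-ε)) (h2 : 2 * Q + P = R) (hP : P ≤ k)
    (hR : 3 * R = N * k) (hN : 6 / ε ≤ (N : ℝ)) :
    (C * W) ^ R * (C * H) ^ P ≤ H ^ (-(k : ℝ)) := by
  have hC0 : 0 < C := by linarith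
  have hH0 : 0 < H := by linarith
  have hE : 0 < H ^ (-ε) := Real.rpow_pos_of_pos hH0 _
  have h1 : C * W ≤ C⁻¹ * H ^ (-ε) := by
    have e : C * (c * H ^ (-ε)) = C⁻¹ * H ^ (-ε) := by
      rw [hc]; field_simp
    rw [← e]
    exact mul_le_mul_of_nonneg_left hW.le hC0.le
  have h3 : (C * W) ^ R ≤ (C⁻¹ * H ^ (-ε)) ^ R :=
    pow_le_pow_left₀ (by positivity) h1 R
  have hPR : P ≤ R := by omega
  have h4 : (C⁻¹) ^ R * C ^ P ≤ 1 := by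
    have : (C⁻¹) ^ R ≤ (C⁻¹) ^ P :=
      pow_le_pow_of_le_one (by positivity) (inv_le_one_of_one_le₀ hC) hPR
    calc (C⁻¹) ^ R * C ^ P ≤ (C⁻¹) ^ P * C ^ P := mul_le_mul_of_nonneg_right this (by positivity)
      _ = 1 := by rw [← mul_pow, inv_mul_cancel₀ hC0.ne', one_pow]
  have hRk : (3 : ℝ) * R = N * k := by exact_mod_cast hR
  have hPk : (P : ℝ) ≤ k := by exact_mod_cast hP
  have h5 : -ε * R + P ≤ -(k : ℝ) := by
    have h6 : 6 ≤ (N : ℝ) * ε := by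
      rw [div_le_iff₀ hε] at hN
      exact hN
    have hk : (0 : ℝ) ≤ k := Nat.cast_nonneg k
    have h7 : 6 * (k : ℝ) ≤ N * ε * k := mul_le_mul_of_nonneg_right h6 hk
    have h8 : ε * ((3 : ℝ) * R) = ε * (N * k) := by rw [hRk]
    nlinarith
  calc (C * W) ^ R * (C * H) ^ P ≤ (C⁻¹ * H ^ (-ε)) ^ R * (C * H) ^ P :=
        mul_le_mul_of_nonneg_right h3 (by positivity)
    _ = ((C⁻¹) ^ R * C ^ P) * (H ^ (-ε * R) * H ^ (P : ℝ)) := by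
        rw [mul_pow, mul_pow, Real.rpow_mul_natCast hH0.le, Real.rpow_natCast]
        ring
    _ ≤ 1 * (H ^ (-ε * R) * H ^ (P : ℝ)) := mul_le_mul_of_nonneg_right h4 (by positivity)
    _ = H ^ (-ε * R + P) := by rw [one_mul, Real.rpow_add hH0]
    _ ≤ H ^ (-(k : ℝ)) := Real.rpow_le_rpow_of_exponent_le hH h5

theorem ts_combine {T : Type} [Fintype T] {C A n s X : ℝ} {Ct At nt st Xt : T → ℝ} {R P : ℕ}
    (hC : 1 ≤ C) (hA : 0 ≤ A) (hn : 0 ≤ n) (hs : 0 < s) (hX : X ≤ (C * A) ^ R * (C * n / s) ^ P)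
    (hCt : ∀ t, 1 ≤ Ct t) (hAt : ∀ t, 0 ≤ At t) (hnt : ∀ t, 0 ≤ nt t) (hnt1 : ∀ t, nt t ≤ 1)
    (hst : ∀ t, 0 < st t) (hXt0 : ∀ t, 0 ≤ Xt t)
    (hXt : ∀ t, Xt t ≤ (Ct t * At t) ^ R * (Ct t * nt t / st t) ^ P)
    (hss : 1 ≤ s * ∏ t, st t) :
    X * ∏ t, Xt t ≤ ((C * ∏ t, Ct t) * (A * ∏ t, At t)) ^ R * ((C * ∏ t, Ct t) * n) ^ P := by
  have h1 : ∏ t, Xt t ≤ ∏ t, ((Ct t * At t) ^ R * (Ct t * nt t / st t) ^ P) :=
    Finset.prod_le_prod (fun t _ => hXt0 t) fun t _ => hXt t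
  have hC0 : 0 < C := by linarith
  have hCt0 : ∀ t, 0 < Ct t := fun t => by linarith [hCt t]
  have h2 : X * ∏ t, Xt t ≤ ((C * A) ^ R * (C * n / s) ^ P) *
      ∏ t, ((Ct t * At t) ^ R * (Ct t * nt t / st t) ^ P) :=
    mul_le_mul hX h1 (Finset.prod_nonneg fun t _ => hXt0 t) (by positivity)
  refine h2.trans ?_
  have h3 : ((C * A) ^ R * (C * n / s) ^ P) *
      ∏ t, ((Ct t * At t) ^ R * (Ct t * nt t / st t) ^ P) =
      ((C * ∏ t, Ct t) * (A * ∏ t, At t)) ^ R *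
        ((C * n / s) * ∏ t, (Ct t * nt t / st t)) ^ P := by
    rw [Finset.prod_mul_distrib, Finset.prod_pow, Finset.prod_pow, Finset.prod_mul_distrib]
    ring
  rw [h3]
  have hPA : 0 ≤ ∏ t, At t := Finset.prod_nonneg fun t _ => hAt t
  have hPC : 0 < ∏ t, Ct t := Finset.prod_pos fun t _ => hCt0 t
  refine mul_le_mul_of_nonneg_left ?_ (by positivity)
  have hpos : ∀ t, 0 ≤ Ct t * nt t / st t := fun t => by
    have := hnt t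
    have := hst t
    have := hCt0 t
    positivity
  refine pow_le_pow_left₀ (mul_nonneg (by positivity) (Finset.prod_nonneg fun t _ => hpos t)) ?_ P
  have h4 : ∏ t, (Ct t * nt t / st t) ≤ (∏ t, Ct t) * (∏ t, st t)⁻¹ := by
    rw [← Finset.prod_inv_distrib, ← Finset.prod_mul_distrib]
    refine Finset.prod_le_prod (fun t _ => hpos t) fun t _ => ?_
    rw [div_eq_mul_inv]
    refine mul_le_mul_of_nonneg_right ?_ (inv_nonneg.2 (hst t).le)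
    exact mul_le_of_le_one_right (hCt0 t).le (hnt1 t)
  have hPs : 0 < ∏ t, st t := Finset.prod_pos fun t _ => hst t
  calc C * n / s * ∏ t, (Ct t * nt t / st t) ≤ C * n / s * ((∏ t, Ct t) * (∏ t, st t)⁻¹) :=
        mul_le_mul_of_nonneg_left h4 (by positivity)
    _ = ((C * ∏ t, Ct t) * n) * (s * ∏ t, st t)⁻¹ := by
        rw [mul_inv]
        ring
    _ ≤ ((C * ∏ t, Ct t) * n) * 1 :=
        mul_le_mul_of_nonneg_left (inv_le_one_of_one_le₀ hss) (by positivity)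
    _ = (C * ∏ t, Ct t) * n := mul_one _

section Vmat

variable {K : Type} [Field K] [CharZero K]

omit [CharZero K] in
theorem vmat_det
    (hdet : ∀ (X Y Z : Fin 3 → K), (Matrix.of ![X, Y, Z]).det ≠ 0 → ∀ (c : K) (N : ℕ),
      (veroMat X Y Z c N).det ≠ 0)
    {α β : OnePoint K} (hne : α ≠ β) (N : ℕ) (τ : Fin 3) : (vmat α β N τ).det ≠ 0 := by
  fin_cases τ
  · exact hdet _ _ _ (det_evR_dR_evR hne) _ _
  · exact hdet _ _ _ (det_evR_dR_wR α) _ _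
  · exact hdet _ _ _ (det_evR_dR_wR β) _ _

theorem vmat_alg
    (halg : ∀ (X Y Z : Fin 3 → K), (∀ i, IsAlgebraic ℚ (X i)) → (∀ i, IsAlgebraic ℚ (Y i)) →
      (∀ i, IsAlgebraic ℚ (Z i)) → ∀ (c : K), IsAlgebraic ℚ c → ∀ (N : ℕ) (μ ν : Idx N),
      IsAlgebraic ℚ (veroMat X Y Z c N μ ν))
    {α β : OnePoint K} (hα : AlgPtK α) (hβ : AlgPtK β) (N : ℕ) (τ : Fin 3) (μ ν : Idx N) :
    IsAlgebraic ℚ (vmat α β N τ μ ν) := by
  have h4 : IsAlgebraic ℚ (4 : K) := by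
    have := isAlgebraic_algebraMap (R := ℚ) (A := K) 4
    simpa using this
  fin_cases τ
  · exact halg _ _ _ (alg_evR hα) (alg_dR hα) (alg_evR hβ) _ isAlgebraic_zero _ _ _
  · exact halg _ _ _ (alg_evR hα) (alg_dR hα) (alg_wR α) _ h4 _ _ _
  · exact halg _ _ _ (alg_evR hβ) (alg_dR hβ) (alg_wR β) _ h4 _ _ _

end Vmat

theorem two_points_S_of {T : Type} [Fintype T] [DecidableEq T] (p : T → ℕ)
    [∀ t, Fact (p t).Prime] (hp : Function.Injective p)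
    (hS : ∀ (N : ℕ), 2 ≤ Fintype.card (Idx N) →
      ∀ (L : Matrix (Idx N) (Idx N) ℂ), (∀ i j, IsAlgebraic ℚ (L i j)) → L.det ≠ 0 →
      ∀ (M : ∀ t, Matrix (Idx N) (Idx N) ℂ_[p t]), (∀ t i j, IsAlgebraic ℚ (M t i j)) →
      (∀ t, (M t).det ≠ 0) → ∀ (δ : ℝ), 0 < δ →
      ∃ F : Finset (Idx N → ℤ), 0 ∉ F ∧ ∀ (x : Idx N → ℤ) (H : ℝ), 1 ≤ H →
        (∀ i, |((x i : ℤ) : ℝ)| ≤ H) →
        (∏ i, ‖L.mulVec (fun j => ((x j : ℤ) : ℂ)) i‖) *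
          ∏ t, ∏ i, ‖(M t).mulVec (fun j => ((x j : ℤ) : ℂ_[p t])) i‖ ≤ H ^ (-δ) →
        ∃ b ∈ F, ∑ i, b i * x i = 0)
    (hdet : ∀ {K : Type} [Field K] (X Y Z : Fin 3 → K), (Matrix.of ![X, Y, Z]).det ≠ 0 →
      ∀ (c : K) (N : ℕ), (veroMat X Y Z c N).det ≠ 0)
    (halg : ∀ {K : Type} [Field K] [CharZero K] (X Y Z : Fin 3 → K),
      (∀ i, IsAlgebraic ℚ (X i)) → (∀ i, IsAlgebraic ℚ (Y i)) →
      (∀ i, IsAlgebraic ℚ (Z i)) → ∀ (c : K), IsAlgebraic ℚ c → ∀ (N : ℕ) (μ ν : Idx N),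
      IsAlgebraic ℚ (veroMat X Y Z c N μ ν))
    (hprod : ∀ N : ℕ, ∃ R Q P : ℕ, 2 * Q + P = R ∧ P ≤ Fintype.card (Idx N) ∧
      3 * R = N * Fintype.card (Idx N) ∧ 2 * Fintype.card (Idx N) = (N + 1) * (N + 2) ∧
      ∀ x z d y : ℝ, ∏ μ : Idx N, (x ^ (μ.1 0 : ℕ) * z ^ (μ.1 2 : ℕ) * d ^ ((μ.1 1 : ℕ) / 2) *
        y ^ ((μ.1 1 : ℕ) % 2)) = x ^ R * z ^ R * d ^ Q * y ^ P)
    (hplace : ∀ {K : Type} [NormedField K] [CharZero K],
      (∀ n : ℤ, ‖(n : K)‖ ≤ |(n : ℝ)|) → ∀ (α β : OnePoint K), α ≠ β →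
      ∃ C : ℝ, 1 ≤ C ∧ ∀ (N R Q P : ℕ), 2 * Q + P = R →
        (∀ x z d y : ℝ, ∏ μ : Idx N, (x ^ (μ.1 0 : ℕ) * z ^ (μ.1 2 : ℕ) * d ^ ((μ.1 1 : ℕ) / 2) *
          y ^ ((μ.1 1 : ℕ) % 2)) = x ^ R * z ^ R * d ^ Q * y ^ P) →
        ∀ f : Fin 3 → ℤ, discq f ≠ 0 → ∃ τ : Fin 3,
          ∏ μ : Idx N, ‖(vmat α β N τ).mulVec (fun ν => ((vero N f ν : ℤ) : K)) μ‖ ≤
            (C * (‖evK f α‖ * ‖evK f β‖ * Real.sqrt ‖((discq f : ℤ) : K)‖)) ^ R *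
              (C * nf K f / Real.sqrt ‖((discq f : ℤ) : K)‖) ^ P)
    (α β : OnePoint ℂ) (hα : AlgPtK α) (hβ : AlgPtK β) (hne : α ≠ β)
    (α' β' : ∀ t, OnePoint ℂ_[p t]) (hα' : ∀ t, AlgPtK (α' t)) (hβ' : ∀ t, AlgPtK (β' t))
    (hne' : ∀ t, α' t ≠ β' t) (ε : ℝ) (hε : 0 < ε) :
    ∃ (N : ℕ) (c : ℝ) (F : Finset (Idx N → ℤ)), 0 < c ∧ 0 ∉ F ∧ ∀ f : Fin 3 → ℤ, discq f ≠ 0 →
      evK f α ≠ 0 → evK f β ≠ 0 → (∀ t, evK f (α' t) ≠ 0) → (∀ t, evK f (β' t) ≠ 0) →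
      (∀ b ∈ F, ∑ μ, b μ * vero N f μ ≠ 0) →
      c * maxq f ^ (-ε) ≤
        (‖evK f α‖ * ‖evK f β‖ * Real.sqrt ‖((discq f : ℤ) : ℂ)‖) *
        ∏ t, (‖evK f (α' t)‖ * ‖evK f (β' t)‖ * Real.sqrt ‖((discq f : ℤ) : ℂ_[p t])‖) := by
  classical
  obtain ⟨N, hN⟩ := exists_nat_ge (max 1 (6 / ε))
  have hN1 : 1 ≤ N := by
    have : (1 : ℝ) ≤ N := (le_max_left _ _).trans hN
    exact_mod_cast this
  have hN2 : 6 / ε ≤ (N : ℝ) := (le_max_right _ _).trans hN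
  obtain ⟨R, Q, P, hQP, hP, hR, hcard, hid⟩ := hprod N
  have hc2 : 2 ≤ Fintype.card (Idx N) := by nlinarith
  set k := Fintype.card (Idx N) with hk
  obtain ⟨C, hC1, hC⟩ := hplace (K := ℂ) (fun n => by rw [Complex.norm_intCast]) α β hne
  have hpl : ∀ t, ∃ C : ℝ, 1 ≤ C ∧ ∀ (N R Q P : ℕ), 2 * Q + P = R →
        (∀ x z d y : ℝ, ∏ μ : Idx N, (x ^ (μ.1 0 : ℕ) * z ^ (μ.1 2 : ℕ) * d ^ ((μ.1 1 : ℕ) / 2) *
          y ^ ((μ.1 1 : ℕ) % 2)) = x ^ R * z ^ R * d ^ Q * y ^ P) →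
        ∀ f : Fin 3 → ℤ, discq f ≠ 0 → ∃ τ : Fin 3,
          ∏ μ : Idx N, ‖(vmat (α' t) (β' t) N τ).mulVec (fun ν => ((vero N f ν : ℤ) : ℂ_[p t])) μ‖ ≤
            (C * (‖evK f (α' t)‖ * ‖evK f (β' t)‖ * Real.sqrt ‖((discq f : ℤ) : ℂ_[p t])‖)) ^ R *
              (C * nf ℂ_[p t] f / Real.sqrt ‖((discq f : ℤ) : ℂ_[p t])‖) ^ P := fun t =>
    hplace (K := ℂ_[p t]) (norm_intCast_padic_le (p t)) (α' t) (β' t) (hne' t)
  choose Ct hCt1 hCt using hpl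
  have hδ : 0 < (k : ℝ) / N := by
    have h1 : (0 : ℝ) < k := by exact_mod_cast (by omega : 0 < k)
    have h2 : (0 : ℝ) < N := by exact_mod_cast hN1
    positivity
  have hF : ∀ τ : Option T → Fin 3, ∃ F : Finset (Idx N → ℤ), 0 ∉ F ∧
      ∀ (x : Idx N → ℤ) (H : ℝ), 1 ≤ H → (∀ i, |((x i : ℤ) : ℝ)| ≤ H) →
        (∏ i, ‖(vmat α β N (τ none)).mulVec (fun j => ((x j : ℤ) : ℂ)) i‖) *
          ∏ t, ∏ i, ‖(vmat (α' t) (β' t) N (τ (some t))).mulVec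
            (fun j => ((x j : ℤ) : ℂ_[p t])) i‖ ≤ H ^ (-((k : ℝ) / N)) →
        ∃ b ∈ F, ∑ i, b i * x i = 0 := by
    intro τ
    refine hS N hc2 (vmat α β N (τ none)) ?_ (vmat_det hdet hne N _)
      (fun t => vmat (α' t) (β' t) N (τ (some t))) ?_ (fun t => vmat_det hdet (hne' t) N _) _ hδ
    · intro i j
      exact vmat_alg halg hα hβ N _ i j
    · intro t i j
      exact vmat_alg halg (hα' t) (hβ' t) N _ i j
  choose F hF0 hF using hF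
  set CC : ℝ := C * ∏ t, Ct t with hCC
  have hCC1 : 1 ≤ CC := by
    have : (1 : ℝ) ≤ ∏ t, Ct t := by
      have := Finset.prod_le_prod (s := Finset.univ) (f := fun _ : T => (1 : ℝ)) (g := Ct)
        (fun t _ => zero_le_one) (fun t _ => hCt1 t)
      simpa using this
    calc (1 : ℝ) = 1 * 1 := by ring
      _ ≤ C * ∏ t, Ct t := mul_le_mul hC1 this zero_le_one (by linarith)
  refine ⟨N, (CC ^ 2)⁻¹, Finset.univ.biUnion F, by positivity, ?_, ?_⟩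
  · rw [Finset.mem_biUnion]
    rintro ⟨τ, -, h⟩
    exact hF0 τ h
  intro f hf hfα hfβ hfα' hfβ' hFf
  by_contra hcon
  push Not at hcon
  obtain ⟨τ₀, hτ₀⟩ := hC N R Q P hQP hid f hf
  have hτ' := fun t => hCt t N R Q P hQP hid f hf
  choose τ' hτ' using hτ'
  set H := maxq f with hH
  have hH1 : 1 ≤ H := one_le_maxq hf
  have hH0 : 0 < H := by linarith
  have hdC : 0 < Real.sqrt ‖((discq f : ℤ) : ℂ)‖ := by
    apply Real.sqrt_pos.2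
    rw [norm_pos_iff]
    exact_mod_cast hf
  have hdp : ∀ t, 0 < Real.sqrt ‖((discq f : ℤ) : ℂ_[p t])‖ := by
    intro t
    apply Real.sqrt_pos.2
    rw [norm_pos_iff]
    exact_mod_cast hf
  have hss : 1 ≤ Real.sqrt ‖((discq f : ℤ) : ℂ)‖ * ∏ t, Real.sqrt ‖((discq f : ℤ) : ℂ_[p t])‖ := by
    have h1 := one_le_prod_norm p hp (discq f) hf
    have h2 : ∏ t, Real.sqrt ‖((discq f : ℤ) : ℂ_[p t])‖ =
        Real.sqrt (∏ t, ‖((discq f : ℤ) : ℂ_[p t])‖) := by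
      rw [Real.sqrt_prod]
      exact fun t _ => norm_nonneg _
    rw [h2, ← Real.sqrt_mul (norm_nonneg _), Complex.norm_intCast]
    exact Real.one_le_sqrt.2 h1
  set W := (‖evK f α‖ * ‖evK f β‖ * Real.sqrt ‖((discq f : ℤ) : ℂ)‖) *
        ∏ t, (‖evK f (α' t)‖ * ‖evK f (β' t)‖ * Real.sqrt ‖((discq f : ℤ) : ℂ_[p t])‖) with hW
  have hW0 : 0 ≤ W := by
    refine mul_nonneg (by positivity) (Finset.prod_nonneg fun t _ => ?_)
    positivity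
  have hcomb := ts_combine (T := T) hC1
    (A := ‖evK f α‖ * ‖evK f β‖ * Real.sqrt ‖((discq f : ℤ) : ℂ)‖) (by positivity)
    (nf_nonneg ℂ f) hdC hτ₀ hCt1
    (At := fun t => ‖evK f (α' t)‖ * ‖evK f (β' t)‖ * Real.sqrt ‖((discq f : ℤ) : ℂ_[p t])‖)
    (fun t => by positivity) (nt := fun t => nf ℂ_[p t] f) (fun t => nf_nonneg _ f)
    (fun t => nf_padic_le (p t) f) hdp (fun t => Finset.prod_nonneg fun μ _ => norm_nonneg _)
    hτ' hss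
  rw [nf_complex, ← hW, ← hCC, ← hH] at hcomb
  have hcalc := ts_calc hCC1 rfl hW0 hH1 hε hcon hQP hP hR hN2
  have hle := hcomb.trans hcalc
  have hHN : (H ^ N) ^ (-((k : ℝ) / N)) = H ^ (-(k : ℝ)) := by
    have h2 : (0 : ℝ) < N := by exact_mod_cast hN1
    rw [← Real.rpow_natCast, ← Real.rpow_mul hH0.le]
    congr 1
    field_simp
  rw [← hHN] at hle
  let τ : Option T → Fin 3 := fun o => match o with
    | none => τ₀
    | some t => τ' t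
  obtain ⟨b, hb, hb0⟩ := hF τ (vero N f) (H ^ N) (one_le_pow₀ hH1) (fun μ => vero_le f μ) hle
  exact hFf b (Finset.mem_biUnion.2 ⟨τ, Finset.mem_univ _, hb⟩) hb0

end Pool.Agent.SST
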